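import Pool.Agent.H7.HP.Sumz

set_option autoImplicit false
set_option linter.unusedSectionVars false

/-!
# [H7 HP BAD] most points are separated, 100-160 lines

PROOF. Let `x` be a point with prime `l`, not `Sep`: there are `0 < j < x1 = q l` and `s` with `x1 ∣ j x_i - s_i`, `|s_i| < lam x1 ≤ 4 q lam B` for all `i`.
(1) `l` does not divide `j`: if `j = l j'`, `0 < j' < q`, then `l ∣ s_i`, `|s_i| < lam q l ≤ l` so `s_i = 0` (`lam q ≤ 1`), `q ∣ j' x_i` for all `i`; but `x` is primitive (`Prim`), so `q ∣ j'`, contradiction.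
(2) `s' = tl s ≡ j u` modulo `l`, so `s'` is not divisible by `l` (`l` does not divide `u`), in particular `s' ≠ 0`, and `h(s') ≡ j^2 h(u) ≡ 0`: `l ∣ h(s')`. `u ≡ j⁻¹ s'`: `u` is modulo `l` a multiple of `s'`.
So the bad points are among: `S = 4 q lam B`, `s' ∈ bx 3 ⌊S⌋`, `s' ≠ 0`; `l` a prime of `(B, 4B]` dividing `h(s')`; one of `l ≤ 4B` multiples of `s'` modulo `l`; at most
`(2 C1 + 1)^3` vectors `u` (`cls`); `x` is determined by `l, u`. For `h(s') ≠ 0`: `|h(s')| ≤ ca a S^2 < B^3`, at most 3 primes (`primes_dvd`), for `h(s') = 0`: at most `4B` primes and by `hz` at most `C S^(3/2)` vectors `s'`.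
Total `≤ (2 C1 + 1)^3 4B ((2S+1)^3 * 3 + C (S+1)^(3/2) * 4B)`, and `S ≥ lam B ≥ 1` by hypothesis.
-/

namespace Pool.Agent.H7.HP

open Finset

private theorem bad_qv_congr (a : Idx 3 → ℤ) (l j : ℤ) (s u : Fin 3 → ℤ)
    (h : ∀ i, l ∣ s i - j * u i) : l ∣ qv a s - j ^ 2 * qv a u := by
  unfold qv
  rw [Finset.mul_sum, ← Finset.sum_sub_distrib]
  refine Finset.dvd_sum fun p _ => ?_
  have e : a p * (s p.1.1 * s p.1.2) - j ^ 2 * (a p * (u p.1.1 * u p.1.2)) =
      a p * ((s p.1.1 - j * u p.1.1) * s p.1.2 + j * u p.1.1 * (s p.1.2 - j * u p.1.2)) := by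
    ring
  rw [e]
  exact Dvd.dvd.mul_left (dvd_add (Dvd.dvd.mul_right (h _) _) (Dvd.dvd.mul_left (h _) _)) _

private theorem bad_qv_le (a : Idx 3 → ℤ) (S : ℕ) (s : Fin 3 → ℤ) (h : ∀ i, |s i| ≤ S) :
    |qv a s| ≤ ca a * (S : ℤ) ^ 2 := by
  unfold qv ca
  refine (Finset.abs_sum_le_sum_abs _ _).trans ?_
  push_cast
  rw [Finset.sum_mul]
  refine Finset.sum_le_sum fun p _ => ?_
  rw [abs_mul, abs_mul, sq]
  exact mul_le_mul_of_nonneg_left (mul_le_mul (h _) (h _) (abs_nonneg _) (by positivity))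
    (abs_nonneg _)

private theorem bad_mem_bx {S : ℕ} {s : Fin 3 → ℤ} : s ∈ bx 3 S ↔ ∀ i, |s i| ≤ S := by
  unfold bx
  simp only [Fintype.mem_piFinset, Finset.mem_Icc, abs_le]

/-- the data attached to a bad point -/
private theorem bad_data (a : Idx 3 → ℤ) (q C1 B : ℕ) (hq : 1 ≤ q) (lam : ℝ) (hl0 : 0 ≤ lam)
    (hl1 : lam * q ≤ 1) (x : Fin 5 → ℤ) (hx : IsPt a q C1 B x) (hs : ¬ Sep lam x) :
    ∃ s : Fin 3 → ℤ, (∀ i, |s i| ≤ ⌊4 * q * lam * B⌋₊) ∧ s ≠ 0 ∧
      (lp q x : ℤ) ∣ qv a s ∧ ∃ t : ℕ, t < 4 * B ∧ ∀ i, (lp q x : ℤ) ∣ tl x i - t * s i := by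
  obtain ⟨hp, hB, h4, hx1, hu⟩ := pt_lp hq hx
  generalize lp q x = l at *
  unfold Sep at hs
  push Not at hs
  obtain ⟨j, hj0, hj1, s, hs1, hs2⟩ := hs
  have hlpos : (0 : ℤ) < l := by exact_mod_cast hp.pos
  have hqpos : (0 : ℤ) < q := by exact_mod_cast hq
  have hlx : (l : ℤ) ∣ x 1 := by rw [hx1]; exact Dvd.intro_left _ rfl
  have hls : ∀ i, (l : ℤ) ∣ j * x i - s i := fun i => hlx.trans (hs1 i)
  have hnj : ¬ (l : ℤ) ∣ j := by
    rintro ⟨j', rfl⟩
    have h0 : ∀ i, s i = 0 := by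
      intro i
      have h1 : (l : ℤ) ∣ s i := by
        have h2 := hls i
        have h3 : (l : ℤ) ∣ l * j' * x i := ⟨j' * x i, by ring⟩
        have := dvd_sub h3 h2
        simpa using this
      refine Int.eq_zero_of_abs_lt_dvd h1 ?_
      have h4 := hs2 i
      have h5 : lam * (x 1 : ℝ) ≤ l := by
        rw [hx1]
        push_cast
        have : (0 : ℝ) ≤ l := Nat.cast_nonneg _
        nlinarith
      have h6 : ((|s i| : ℤ) : ℝ) < ((l : ℤ) : ℝ) := by
        push_cast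
        linarith
      exact_mod_cast h6
    have h1 : ∀ i, (q : ℤ) ∣ j' * x i := by
      intro i
      have h2 := hs1 i
      rw [h0 i, sub_zero, hx1, mul_comm (q : ℤ), mul_assoc] at h2
      exact Int.dvd_of_mul_dvd_mul_left hlpos.ne' h2
    obtain ⟨m, hm⟩ := hx.prim
    have h3 : (q : ℤ) ∣ j' := by
      have h4 : j' = ∑ i, m i * (j' * x i) := by
        calc j' = j' * ∑ i, m i * x i := by rw [hm, mul_one]
          _ = _ := by rw [Finset.mul_sum]; exact Finset.sum_congr rfl fun i _ => by ring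
      rw [h4]
      exact Finset.dvd_sum fun i _ => Dvd.dvd.mul_left (h1 i) _
    have h5 : 0 < j' := by
      by_contra hneg
      push Not at hneg
      nlinarith
    have h6 := Int.le_of_dvd h5 h3
    rw [hx1] at hj1
    nlinarith
  have htl : ∀ i : Fin 3, (l : ℤ) ∣ tl s i - j * tl x i := by
    intro i
    have h1 : ∀ k : Fin 5, (l : ℤ) ∣ s k - j * x k := fun k => by
      have := hls k
      rw [← dvd_neg] at this
      simpa using this
    fin_cases i
    · exact h1 2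
    · exact h1 3
    · exact h1 4
  have hpi : Prime (l : ℤ) := Nat.prime_iff_prime_int.1 hp
  have hprime : IsCoprime (l : ℤ) j := (Prime.coprime_iff_not_dvd hpi).2 hnj
  refine ⟨tl s, ?_, ?_, ?_, ?_⟩
  · intro i
    have h1 : ∀ k : Fin 5, |s k| ≤ ⌊4 * q * lam * B⌋₊ := by
      intro k
      have h2 := hs2 k
      have h3 : lam * (x 1 : ℝ) ≤ 4 * q * lam * B := by
        rw [hx1]
        push_cast
        have h4' : (l : ℝ) ≤ 4 * B := by exact_mod_cast h4
        have h5 : (0 : ℝ) ≤ q := Nat.cast_nonneg _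
        have h6 : 0 ≤ lam * q := mul_nonneg hl0 h5
        nlinarith
      have h4 : ((s k).natAbs : ℝ) ≤ 4 * q * lam * B := by
        rw [Nat.cast_natAbs]
        push_cast
        linarith
      have h5 := Nat.le_floor h4
      rw [Int.abs_eq_natAbs]
      exact_mod_cast h5
    fin_cases i
    · exact h1 2
    · exact h1 3
    · exact h1 4
  · intro h0
    apply hu
    intro i
    have h1 := htl i
    rw [h0] at h1
    simp only [Pi.zero_apply, zero_sub, dvd_neg] at h1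
    exact (hprime.dvd_of_dvd_mul_left h1)
  · have h1 := bad_qv_congr a l j (tl s) (tl x) htl
    have h2 := hx.zero
    unfold ff at h2
    have h3 : qv a (tl x) = x 0 * x 1 := by linarith
    rw [h3] at h1
    have h4 : (l : ℤ) ∣ j ^ 2 * (x 0 * x 1) :=
      Dvd.dvd.mul_left (Dvd.dvd.mul_left hlx _) _
    have := dvd_add h1 h4
    simpa using this
  · obtain ⟨c, d, hcd⟩ := hprime
    refine ⟨(d % l).toNat, ?_, ?_⟩
    · have h1 := Int.emod_lt_of_pos d hlpos
      have h2 := Int.emod_nonneg d hlpos.ne'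
      omega
    · intro i
      have h2 := Int.emod_nonneg d hlpos.ne'
      rw [Int.toNat_of_nonneg h2]
      have h3 : (l : ℤ) ∣ d - d % l := Int.dvd_self_sub_emod
      have h4 := htl i
      have e : tl x i - d % l * tl s i =
          (d - d % l) * tl s i - d * (tl s i - j * tl x i) + l * (c * tl x i) := by
        have : tl x i = (c * l + d * j) * tl x i := by rw [hcd, one_mul]
        linear_combination this
      rw [e]
      exact dvd_add (dvd_sub (Dvd.dvd.mul_right h3 _) (Dvd.dvd.mul_left h4 _)) ⟨_, rfl⟩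

open scoped Classical in
private theorem bad_fiber (a : Idx 3 → ℤ) (q C1 B l : ℕ) (hq : 1 ≤ q) (hl : B < l)
    (c : Fin 3 → ℤ) :
    ((XP a q C1 B).filter fun x => lp q x = l ∧ ∀ i, (l : ℤ) ∣ tl x i - c i).card ≤
      (2 * C1 + 1) ^ 3 := by
  refine le_trans ?_ (cls C1 B l hl c)
  refine Finset.card_le_card_of_injOn tl ?_ ?_
  · intro x hx
    simp only [Finset.coe_filter, Set.mem_setOf_eq] at hx ⊢
    obtain ⟨h1, h2, h3⟩ := hx
    rw [mem_XP hq] at h1
    exact ⟨bad_mem_bx.2 fun i => by have := h1.bound i; exact_mod_cast this, h3⟩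
  · intro x hx y hy hxy
    simp only [Finset.coe_filter, Set.mem_setOf_eq] at hx hy
    obtain ⟨h1, h2, h3⟩ := hx
    obtain ⟨g1, g2, g3⟩ := hy
    rw [mem_XP hq] at h1 g1
    obtain ⟨hp, hB, h4, hx1, hu⟩ := pt_lp hq h1
    obtain ⟨gp, gB, g4, gx1, gu⟩ := pt_lp hq g1
    have e1 : x 1 = y 1 := by rw [hx1, gx1, h2, g2]
    have e0 : x 0 = y 0 := by
      have z1 := h1.zero
      have z2 := g1.zero
      unfold ff at z1 z2
      have hpos : (0 : ℤ) < x 1 := by
        rw [hx1]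
        have : (0 : ℤ) < q := by exact_mod_cast hq
        have : (0 : ℤ) < lp q x := by exact_mod_cast hp.pos
        positivity
      rw [hxy] at z1
      rw [← e1] at z2
      have : x 0 * x 1 = y 0 * x 1 := by linarith
      exact mul_right_cancel₀ hpos.ne' this
    have e2 : x 2 = y 2 := congrFun hxy 0
    have e3 : x 3 = y 3 := congrFun hxy 1
    have e4 : x 4 = y 4 := congrFun hxy 2
    funext i
    fin_cases i
    · exact e0
    · exact e1
    · exact e2
    · exact e3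
    · exact e4

open scoped Classical in
theorem bad_card (a : Idx 3 → ℤ) (q C1 : ℕ) (hq : 1 ≤ q) (hC1 : 1 ≤ C1)
    (hz : ∃ C : ℝ, 0 < C ∧ ∀ E : ℕ, 1 ≤ E →
      (((bx 3 E).filter fun z => qv a z = 0).card : ℝ) ≤ C * (E : ℝ) ^ (3 / 2 : ℝ)) :
    ∃ C : ℝ, 0 < C ∧ ∃ B0 : ℕ, ∀ B ≥ B0, ∀ lam : ℝ, 1 ≤ lam * B → lam * q ≤ 1 →
      (((XP a q C1 B).filter fun x => ¬ Sep lam x).card : ℝ) ≤
        C * (B * (lam * B) ^ 3 + (B : ℝ) ^ 2 * (lam * B) ^ (3 / 2 : ℝ)) := by
  obtain ⟨C0, hC0, hz⟩ := hz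
  set K : ℕ := (2 * C1 + 1) ^ 3 with hK
  have hKpos : (0 : ℝ) < K := by rw [hK]; positivity
  have hqR : (1 : ℝ) ≤ q := by exact_mod_cast hq
  refine ⟨K * 4 * (3 * (12 * q) ^ 3 + 4 * C0 * (4 * q : ℝ) ^ (3 / 2 : ℝ)), by positivity,
    16 * ca a + 2, ?_⟩
  intro B hB lam hlam1 hlamq
  have hBpos : (0 : ℝ) < B := by
    have : 0 < B := by omega
    exact_mod_cast this
  have hlampos : 0 < lam := by
    by_contra hneg
    push Not at hneg
    nlinarith
  set S : ℕ := ⌊4 * q * lam * B⌋₊ with hS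
  have hSle : (S : ℝ) ≤ 4 * q * (lam * B) := by
    have : (S : ℝ) ≤ 4 * q * lam * B := Nat.floor_le (by positivity)
    linarith
  have hS1 : 1 ≤ S := by
    apply Nat.le_floor
    push_cast
    nlinarith
  have hS4B : S ≤ 4 * B := by
    have h1 : (S : ℝ) ≤ 4 * B := by nlinarith
    exact_mod_cast h1
  -- the set of pairs
  set L : (Fin 3 → ℤ) → Finset ℕ := fun s =>
    (Icc 1 (4 * B)).filter fun l => l.Prime ∧ B < l ∧ (l : ℤ) ∣ qv a s with hL
  set A : Finset (Fin 3 → ℤ) := (bx 3 S).filter fun s => s ≠ 0 with hA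
  have hsub : ((XP a q C1 B).filter fun x => ¬ Sep lam x) ⊆
      A.biUnion fun s => (L s).biUnion fun l => (range (4 * B)).biUnion fun t =>
        (XP a q C1 B).filter fun x => lp q x = l ∧ ∀ i, (l : ℤ) ∣ tl x i - (t : ℤ) * s i := by
    intro x hx
    rw [Finset.mem_filter] at hx
    have hpt := (mem_XP hq).1 hx.1
    obtain ⟨hp, hB', h4, hx1, hu⟩ := pt_lp hq hpt
    obtain ⟨s, h1, h2, h3, t, h5, h6⟩ := bad_data a q C1 B hq lam hlampos.le hlamq x hpt hx.2
    simp only [Finset.mem_biUnion]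
    refine ⟨s, ?_, lp q x, ?_, t, Finset.mem_range.2 h5, ?_⟩
    · rw [hA, Finset.mem_filter]
      exact ⟨bad_mem_bx.2 h1, h2⟩
    · rw [hL, Finset.mem_filter, Finset.mem_Icc]
      exact ⟨⟨hp.one_le, h4⟩, hp, hB', h3⟩
    · rw [Finset.mem_filter]
      exact ⟨hx.1, rfl, h6⟩
  have hcard1 : ((XP a q C1 B).filter fun x => ¬ Sep lam x).card ≤
      ∑ s ∈ A, (L s).card * (4 * B * K) := by
    refine (Finset.card_le_card hsub).trans (Finset.card_biUnion_le.trans ?_)
    refine Finset.sum_le_sum fun s _ => Finset.card_biUnion_le.trans ?_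
    refine (Finset.sum_le_card_nsmul _ _ (4 * B * K) fun l hl => ?_).trans (by rw [smul_eq_mul])
    refine Finset.card_biUnion_le.trans ?_
    refine (Finset.sum_le_card_nsmul _ _ K fun t _ => ?_).trans (by
      rw [smul_eq_mul, Finset.card_range])
    rw [hL, Finset.mem_filter] at hl
    exact bad_fiber a q C1 B l hq hl.2.2.1 fun i => (t : ℤ) * s i
  have hcard2 : ∑ s ∈ A, (L s).card ≤ 3 * (2 * S + 1) ^ 3 +
      4 * B * ((bx 3 S).filter fun z => qv a z = 0).card := by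
    rw [← Finset.sum_filter_add_sum_filter_not A (fun s => qv a s = 0), add_comm]
    refine add_le_add ?_ ?_
    · have hbx : (bx 3 S).card = (2 * S + 1) ^ 3 := by
        unfold bx
        rw [Fintype.card_piFinset]
        simp only [Int.card_Icc, Finset.prod_const, Finset.card_univ, Fintype.card_fin]
        congr 1
        omega
      refine (Finset.sum_le_card_nsmul _ _ 3 fun s hs => ?_).trans ?_
      · rw [Finset.mem_filter, hA, Finset.mem_filter] at hs
        obtain ⟨⟨h1, h2⟩, h3⟩ := hs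
        refine primes_dvd B 3 (qv a s) (by omega) h3 ?_
        refine (bad_qv_le a S s (bad_mem_bx.1 h1)).trans_lt ?_
        have h4 : (S : ℤ) ≤ 4 * B := by exact_mod_cast hS4B
        have h5 : (16 * ca a + 2 : ℤ) ≤ B := by exact_mod_cast hB
        have h6 : (0 : ℤ) ≤ ca a := Int.natCast_nonneg _
        have h7 : (S : ℤ) ^ 2 ≤ (4 * B) ^ 2 := pow_le_pow_left₀ (by positivity) h4 2
        have h8 : (0 : ℤ) < B := by linarith
        calc (ca a : ℤ) * (S : ℤ) ^ 2 ≤ ca a * (4 * B) ^ 2 := mul_le_mul_of_nonneg_left h7 h6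
          _ = 16 * ca a * B ^ 2 := by ring
          _ < B * B ^ 2 := mul_lt_mul_of_pos_right (by linarith) (by positivity)
          _ = B ^ 3 := by ring
      · rw [smul_eq_mul, mul_comm]
        refine Nat.mul_le_mul_left _ ?_
        rw [← hbx]
        exact Finset.card_le_card ((Finset.filter_subset _ _).trans (Finset.filter_subset _ _))
    · refine (Finset.sum_le_card_nsmul _ _ (4 * B) fun s _ => ?_).trans ?_
      · refine (Finset.card_filter_le _ _).trans ?_
        simp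
      · rw [smul_eq_mul, mul_comm]
        refine Nat.mul_le_mul_left _ (Finset.card_le_card ?_)
        intro s hs
        rw [Finset.mem_filter, hA, Finset.mem_filter] at hs
        rw [Finset.mem_filter]
        exact ⟨hs.1.1, hs.2⟩
  rw [← Finset.sum_mul] at hcard1
  have hcard3 : (((XP a q C1 B).filter fun x => ¬ Sep lam x).card : ℝ) ≤
      (3 * (2 * S + 1) ^ 3 + 4 * B * (C0 * (S : ℝ) ^ (3 / 2 : ℝ))) * (4 * B * K) := by
    have h1 : (((XP a q C1 B).filter fun x => ¬ Sep lam x).card : ℝ) ≤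
        ((∑ s ∈ A, (L s).card : ℕ) : ℝ) * (4 * B * K) := by exact_mod_cast hcard1
    have h2 : ((∑ s ∈ A, (L s).card : ℕ) : ℝ) ≤ 3 * (2 * S + 1) ^ 3 +
      4 * B * (((bx 3 S).filter fun z => qv a z = 0).card : ℝ) := by exact_mod_cast hcard2
    have h3 := hz S hS1
    refine h1.trans (mul_le_mul_of_nonneg_right (h2.trans ?_) (by positivity))
    have h4 : 4 * (B : ℝ) * (((bx 3 S).filter fun z => qv a z = 0).card : ℝ) ≤
        4 * B * (C0 * (S : ℝ) ^ (3 / 2 : ℝ)) := mul_le_mul_of_nonneg_left h3 (by positivity)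
    linarith
  refine hcard3.trans ?_
  have hlB : 0 < lam * B := by positivity
  have h5 : (3 : ℝ) * (2 * S + 1) ^ 3 ≤ 3 * (12 * q) ^ 3 * (lam * B) ^ 3 := by
    have h6 : (2 * S + 1 : ℝ) ≤ 12 * q * (lam * B) := by
      have : (1 : ℝ) ≤ S := by exact_mod_cast hS1
      linarith
    calc (3 : ℝ) * (2 * S + 1) ^ 3 ≤ 3 * (12 * q * (lam * B)) ^ 3 :=
          mul_le_mul_of_nonneg_left (pow_le_pow_left₀ (by positivity) h6 3) (by norm_num)
      _ = _ := by ring
  have h6 : (S : ℝ) ^ (3 / 2 : ℝ) ≤ (4 * q : ℝ) ^ (3 / 2 : ℝ) * (lam * B) ^ (3 / 2 : ℝ) := by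
    rw [← Real.mul_rpow (by positivity) hlB.le]
    exact Real.rpow_le_rpow (by positivity) hSle (by norm_num)
  set T3 : ℝ := (lam * B) ^ 3 with hT3
  set T32 : ℝ := (lam * B) ^ (3 / 2 : ℝ) with hT32
  set Q32 : ℝ := (4 * q : ℝ) ^ (3 / 2 : ℝ) with hQ32
  have hT3p : 0 < T3 := by positivity
  have hT32p : 0 < T32 := by positivity
  have hQ32p : 0 < Q32 := by positivity
  have h7 : 4 * (B : ℝ) * (C0 * (S : ℝ) ^ (3 / 2 : ℝ)) ≤ 4 * B * (C0 * (Q32 * T32)) :=
    mul_le_mul_of_nonneg_left (mul_le_mul_of_nonneg_left h6 hC0.le) (by positivity)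
  calc (3 * (2 * S + 1) ^ 3 + 4 * B * (C0 * (S : ℝ) ^ (3 / 2 : ℝ))) * (4 * B * K)
      ≤ (3 * (12 * q) ^ 3 * T3 + 4 * B * (C0 * (Q32 * T32))) * (4 * B * K) :=
        mul_le_mul_of_nonneg_right (add_le_add h5 h7) (by positivity)
    _ ≤ K * 4 * (3 * (12 * q) ^ 3 + 4 * C0 * Q32) * (B * T3 + (B : ℝ) ^ 2 * T32) := by
        have e : K * 4 * (3 * (12 * q : ℝ) ^ 3 + 4 * C0 * Q32) * (B * T3 + (B : ℝ) ^ 2 * T32) -
          (3 * (12 * q) ^ 3 * T3 + 4 * B * (C0 * (Q32 * T32))) * (4 * B * K) =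
            K * 4 * (3 * (12 * q : ℝ) ^ 3 * ((B : ℝ) ^ 2 * T32) + 4 * C0 * Q32 * (B * T3)) := by
          ring
        have : 0 ≤ K * 4 * (3 * (12 * q : ℝ) ^ 3 * ((B : ℝ) ^ 2 * T32) +
            4 * C0 * Q32 * (B * T3)) := by positivity
        linarith

end Pool.Agent.H7.HP
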