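import Pool.Agent.H7.HP.CoreDefs

set_option autoImplicit false
set_option linter.unusedSectionVars false

/-!
# [H7 HP BIG] solutions modulo an integer without small prime factors, 110-180 lines

PROOF. `U(g) = #{u : phi a g u = 0}`. (1) `∑_g U(g) = ∑_u #{g : phi a g u = 0} = M^3 M^14`: `phi a g u = g_(1,1) + (terms without g_(1,1))`.
(2) `∑_g U(g)^2 = ∑_{u,u'} #{g : phi a g u = phi a g u' = 0}`. Let `d = gcd(u'_1 - u_1, u'_2 - u_2, u'_3 - u_3, M)` (representatives; `d = M` for `u = u'`). `phi a g u' - phi a g u = ∑_i g_(1,i+2) (u'_i - u_i) + (terms without g_(1,*))`,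
`g_(1,1)` cancels; so the number of `g` is at most `M^11 * #{(g_(1,2), g_(1,3), g_(1,4)) : ∑ g_(1,i+2) (u'_i - u_i) = const} * 1`, and a linear equation in three variables over `ZMod M` whose coefficients generate the ideal `d` has at most
`M^2 d` solutions. So `∑_g U^2 ≤ M^13 ∑_{u,u'} d = M^16 ∑_{w : Fin 3 → ZMod M} gcd(w, M) ≤ M^16 ∑_{d ∣ M} d (M/d)^3 = M^19 ∑_{d ∣ M} d^(-2) ≤ M^19 (1 + ∑_{d > P0} d^(-2)) ≤ M^19 (1 + 1/P0)` (a divisor `d > 1` of `M` has a prime factor `> P0`).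
(3) `∑_g (U(g) - M^2)^2 ≤ M^19 (1 + 1/P0) - 2 M^2 M^17 + M^4 M^15 = M^19/P0`; each `g` with `2 U(g) < M^2` contributes at least `M^4/4`.
(The statement has `8` instead of `4`.)
-/

namespace Pool.Agent.H7.HP

open Finset

private theorem bg_add {R : Type*} [CommRing R] (a : Idx 3 → R) (g g' : Idx 5 → R) (u : Fin 3 → R) :
    phi a (g + g') u = phi a g u + phi a g' u := by
  unfold phi qv
  rw [← Finset.sum_add_distrib]
  exact Finset.sum_congr rfl fun p _ => by rw [Pi.add_apply]; ring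

private theorem bg_smul {R : Type*} [CommRing R] (a : Idx 3 → R) (c : R) (g : Idx 5 → R)
    (u : Fin 3 → R) : phi a (c • g) u = c * phi a g u := by
  unfold phi qv
  rw [Finset.mul_sum]
  exact Finset.sum_congr rfl fun p _ => by rw [Pi.smul_apply, smul_eq_mul]; ring

private theorem bg_single {R : Type*} [CommRing R] (a : Idx 3 → R) (p : Idx 5) (c : R)
    (u : Fin 3 → R) : phi a (Pi.single p c) u =
      c * (mk5 (qv a u) 1 u p.1.1 * mk5 (qv a u) 1 u p.1.2) := by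
  unfold phi
  conv_lhs => unfold qv
  rw [Finset.sum_eq_single p]
  · rw [Pi.single_eq_same]
    rfl
  · intro r _ hr
    rw [Pi.single_eq_of_ne hr, zero_mul]
  · intro h
    exact absurd (mem_univ p) h

private def bge {R : Type*} [CommRing R] : Idx 5 → R := Pi.single ⟨(1, 1), by decide⟩ 1

private def bgz {R : Type*} [CommRing R] (z : Fin 3 → R) : Idx 5 → R :=
  Pi.single ⟨(1, 2), by decide⟩ (z 0) + Pi.single ⟨(1, 3), by decide⟩ (z 1) +
    Pi.single ⟨(1, 4), by decide⟩ (z 2)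

private theorem bg_e {R : Type*} [CommRing R] (a : Idx 3 → R) (u : Fin 3 → R) :
    phi a bge u = 1 := by
  unfold bge
  rw [bg_single]
  simp [mk5]

private theorem bg_z {R : Type*} [CommRing R] (a : Idx 3 → R) (z u : Fin 3 → R) :
    phi a (bgz z) u = z 0 * u 0 + z 1 * u 1 + z 2 * u 2 := by
  unfold bgz
  rw [bg_add, bg_add, bg_single, bg_single, bg_single]
  simp [mk5]

/-- the gcd of three residues and `M` -/
private def bgd (M : ℕ) (w : Fin 3 → ZMod M) : ℕ :=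
  Nat.gcd (Nat.gcd (Nat.gcd (w 0).val (w 1).val) (w 2).val) M

private theorem bgd_bez (M : ℕ) [NeZero M] (w : Fin 3 → ZMod M) :
    ∃ z : Fin 3 → ZMod M, z 0 * w 0 + z 1 * w 1 + z 2 * w 2 = (bgd M w : ZMod M) := by
  obtain ⟨x, hx⟩ : ∃ x : ℕ, x = (w 0).val := ⟨_, rfl⟩
  obtain ⟨y, hy⟩ : ∃ y : ℕ, y = (w 1).val := ⟨_, rfl⟩
  obtain ⟨t, ht⟩ : ∃ t : ℕ, t = (w 2).val := ⟨_, rfl⟩
  have hx' : w 0 = (x : ZMod M) := by rw [hx, ZMod.natCast_zmod_val]
  have hy' : w 1 = (y : ZMod M) := by rw [hy, ZMod.natCast_zmod_val]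
  have ht' : w 2 = (t : ZMod M) := by rw [ht, ZMod.natCast_zmod_val]
  have e1 := Nat.gcd_eq_gcd_ab x y
  have e2 := Nat.gcd_eq_gcd_ab (Nat.gcd x y) t
  have e3 := Nat.gcd_eq_gcd_ab (Nat.gcd (Nat.gcd x y) t) M
  obtain ⟨p1, hp1⟩ : ∃ p, p = Nat.gcdA x y := ⟨_, rfl⟩
  obtain ⟨q1, hq1⟩ : ∃ p, p = Nat.gcdB x y := ⟨_, rfl⟩
  obtain ⟨p2, hp2⟩ : ∃ p, p = Nat.gcdA (Nat.gcd x y) t := ⟨_, rfl⟩
  obtain ⟨q2, hq2⟩ : ∃ p, p = Nat.gcdB (Nat.gcd x y) t := ⟨_, rfl⟩
  obtain ⟨p3, hp3⟩ : ∃ p, p = Nat.gcdA (Nat.gcd (Nat.gcd x y) t) M := ⟨_, rfl⟩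
  obtain ⟨q3, hq3⟩ : ∃ p, p = Nat.gcdB (Nat.gcd (Nat.gcd x y) t) M := ⟨_, rfl⟩
  rw [← hp1, ← hq1] at e1
  rw [← hp2, ← hq2, e1] at e2
  rw [← hp3, ← hq3, e2] at e3
  have e4 : ((Nat.gcd (Nat.gcd (Nat.gcd x y) t) M : ℤ) : ZMod M) =
      ((((x * p1 + y * q1) * p2 + t * q2) * p3 + M * q3 : ℤ) : ZMod M) := by rw [e3]
  push_cast at e4
  rw [ZMod.natCast_self, zero_mul, add_zero] at e4
  refine ⟨![(p1 : ZMod M) * p2 * p3, (q1 : ZMod M) * p2 * p3, (q2 : ZMod M) * p3], ?_⟩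
  unfold bgd
  rw [← hx, ← hy, ← ht, e4, hx', hy', ht']
  simp only [Matrix.cons_val_zero, Matrix.cons_val_one, Matrix.cons_val]
  ring

private theorem bgd_dvd (M : ℕ) (w : Fin 3 → ZMod M) : bgd M w ∣ M := Nat.gcd_dvd_right _ _

private theorem bgd_dvd_val (M : ℕ) (w : Fin 3 → ZMod M) (i : Fin 3) : bgd M w ∣ (w i).val := by
  unfold bgd
  have h0 := Nat.gcd_dvd_left (Nat.gcd (Nat.gcd (w 0).val (w 1).val) (w 2).val) M
  have h1 := Nat.gcd_dvd_left (Nat.gcd (w 0).val (w 1).val) (w 2).val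
  fin_cases i
  · exact (h0.trans h1).trans (Nat.gcd_dvd_left _ _)
  · exact (h0.trans h1).trans (Nat.gcd_dvd_right _ _)
  · exact h0.trans (Nat.gcd_dvd_right _ _)

private theorem bg_count (M : ℕ) [NeZero M] (d : ℕ) (hd : d ∣ M) :
    ((univ : Finset (Fin 3 → ZMod M)).filter fun w => bgd M w = d).card ≤ (M / d) ^ 3 := by
  have hM : 0 < M := Nat.pos_of_ne_zero (NeZero.ne M)
  have hd0 : 0 < d := Nat.pos_of_dvd_of_pos hd hM
  have h1 : (Fintype.piFinset (fun _ : Fin 3 => range (M / d))).card = (M / d) ^ 3 := by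
    rw [Fintype.card_piFinset]
    simp
  rw [← h1]
  refine Finset.card_le_card_of_injOn (fun w i => (w i).val / d) ?_ ?_
  · intro w hw
    rw [Finset.mem_coe, mem_filter] at hw
    rw [Finset.mem_coe, Fintype.mem_piFinset]
    intro i
    rw [mem_range]
    exact Nat.div_lt_div_of_lt_of_dvd hd (ZMod.val_lt (w i))
  · intro w hw w' hw' h
    rw [Finset.mem_coe, mem_filter] at hw hw'
    funext i
    have h2 := congrFun h i
    dsimp only at h2
    have h3 := bgd_dvd_val M w i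
    have h4 := bgd_dvd_val M w' i
    rw [hw.2] at h3
    rw [hw'.2] at h4
    have h5 : (w i).val = (w' i).val := by
      rw [← Nat.div_mul_cancel h3, ← Nat.div_mul_cancel h4, h2]
    exact ZMod.val_injective M h5

private theorem bg_sumd (M P0 : ℕ) [NeZero M] (hP : 1 ≤ P0)
    (h : ∀ p : ℕ, p.Prime → p ∣ M → P0 < p) :
    ∑ w : Fin 3 → ZMod M, (bgd M w : ℝ) ≤ (M : ℝ) ^ 3 * (1 + 1 / P0) := by
  have hM : 0 < M := Nat.pos_of_ne_zero (NeZero.ne M)
  have hM0 : (0 : ℝ) < M := by exact_mod_cast hM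
  have hP0 : (0 : ℝ) < P0 := by exact_mod_cast hP
  have h1 : ∑ w : Fin 3 → ZMod M, (bgd M w : ℝ) =
      ∑ d ∈ M.divisors, ∑ w ∈ (univ : Finset (Fin 3 → ZMod M)).filter (fun w => bgd M w = d),
        (bgd M w : ℝ) := by
    rw [Finset.sum_fiberwise_of_maps_to]
    intro w _
    rw [Nat.mem_divisors]
    exact ⟨bgd_dvd M w, hM.ne'⟩
  rw [h1]
  have h2 : ∀ d ∈ M.divisors,
      ∑ w ∈ (univ : Finset (Fin 3 → ZMod M)).filter (fun w => bgd M w = d), (bgd M w : ℝ) ≤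
        (M : ℝ) ^ 3 * ((d : ℝ) ^ 2)⁻¹ := by
    intro d hd
    have hdM := (Nat.mem_divisors.1 hd).1
    have hd0 : (0 : ℝ) < d := by exact_mod_cast Nat.pos_of_dvd_of_pos hdM hM
    have h3 : ∑ w ∈ (univ : Finset (Fin 3 → ZMod M)).filter (fun w => bgd M w = d),
        (bgd M w : ℝ) = (((univ : Finset (Fin 3 → ZMod M)).filter
          (fun w => bgd M w = d)).card : ℝ) * d := by
      rw [Finset.sum_congr rfl (g := fun _ => (d : ℝ)) fun w hw => by
        rw [(mem_filter.1 hw).2], Finset.sum_const, nsmul_eq_mul]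
    rw [h3]
    have h4 : (((univ : Finset (Fin 3 → ZMod M)).filter (fun w => bgd M w = d)).card : ℝ) ≤
        ((M : ℝ) / d) ^ 3 := by
      have h5 := bg_count M d hdM
      calc (((univ : Finset (Fin 3 → ZMod M)).filter (fun w => bgd M w = d)).card : ℝ) ≤
            (((M / d) ^ 3 : ℕ) : ℝ) := by exact_mod_cast h5
        _ = ((M : ℝ) / d) ^ 3 := by
            push_cast
            rw [Nat.cast_div hdM hd0.ne']
    calc _ ≤ ((M : ℝ) / d) ^ 3 * d := mul_le_mul_of_nonneg_right h4 hd0.le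
      _ = (M : ℝ) ^ 3 * ((d : ℝ) ^ 2)⁻¹ := by field_simp
  refine (Finset.sum_le_sum h2).trans ?_
  rw [← Finset.mul_sum]
  refine mul_le_mul_of_nonneg_left ?_ (by positivity)
  have h3 : M.divisors ⊆ insert 1 (Ioc P0 M) := by
    intro d hd
    have hdM := (Nat.mem_divisors.1 hd).1
    have hd0 := Nat.pos_of_dvd_of_pos hdM hM
    rw [mem_insert, mem_Ioc]
    by_cases h4 : d = 1
    · exact Or.inl h4
    · right
      obtain ⟨p, hp, hpd⟩ := Nat.exists_prime_and_dvd h4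
      have h5 := h p hp (hpd.trans hdM)
      exact ⟨lt_of_lt_of_le h5 (Nat.le_of_dvd hd0 hpd), Nat.le_of_dvd hM hdM⟩
  have h4 : ∑ d ∈ M.divisors, ((d : ℝ) ^ 2)⁻¹ ≤ ∑ d ∈ insert 1 (Ioc P0 M), ((d : ℝ) ^ 2)⁻¹ :=
    Finset.sum_le_sum_of_subset_of_nonneg h3 fun d _ _ => by positivity
  refine h4.trans ?_
  rw [Finset.sum_insert (by rw [mem_Ioc]; omega)]
  have h5 : ∑ d ∈ Ioc P0 M, ((d : ℝ) ^ 2)⁻¹ ≤ 1 / P0 := by
    rcases le_total P0 M with h6 | h6
    · have h7 := sum_Ioc_inv_sq_le_sub (α := ℝ) (by omega : P0 ≠ 0) h6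
      have h8 : (0 : ℝ) ≤ (M : ℝ)⁻¹ := by positivity
      rw [one_div]
      linarith
    · rw [Finset.Ioc_eq_empty (by omega)]
      rw [Finset.sum_empty]
      positivity
  simp only [Nat.cast_one, one_pow, inv_one]
  linarith

open scoped Classical in
private theorem bg_one (M : ℕ) [NeZero M] (a : Idx 3 → ZMod M) (u : Fin 3 → ZMod M) :
    M ^ 14 ≤ ((univ : Finset (Idx 5 → ZMod M)).filter fun g => phi a g u = 0).card := by
  have hM : 0 < M := Nat.pos_of_ne_zero (NeZero.ne M)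
  have h1 : (univ : Finset (Idx 5 → ZMod M)).card ≤
      (((univ : Finset (Idx 5 → ZMod M)).filter fun g => phi a g u = 0) ×ˢ
        (univ : Finset (ZMod M))).card := by
    refine Finset.card_le_card_of_injOn
      (fun g => (g + (-(phi a g u)) • bge, phi a g u)) ?_ ?_
    · intro g _
      rw [Finset.mem_coe, mem_product]
      refine ⟨?_, mem_univ _⟩
      rw [mem_filter]
      refine ⟨mem_univ _, ?_⟩
      rw [bg_add, bg_smul, bg_e]
      ring
    · intro g _ g' _ h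
      rw [Prod.mk.injEq] at h
      obtain ⟨h2, h3⟩ := h
      rw [h3] at h2
      exact add_right_cancel h2
  rw [card_product, card_univ, Fintype.card_fun, ZMod.card, card_univ, ZMod.card] at h1
  have h2 : Fintype.card (Idx 5) = 15 := by decide
  rw [h2] at h1
  have h3 : M ^ 15 = M ^ 14 * M := by ring
  rw [h3] at h1
  exact Nat.le_of_mul_le_mul_right h1 hM

open scoped Classical in
private theorem bg_two (M : ℕ) [NeZero M] (a : Idx 3 → ZMod M) (u u' : Fin 3 → ZMod M) :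
    ((univ : Finset (Idx 5 → ZMod M)).filter fun g => phi a g u = 0 ∧ phi a g u' = 0).card ≤
      M ^ 13 * bgd M (u' - u) := by
  have hM : 0 < M := Nat.pos_of_ne_zero (NeZero.ne M)
  obtain ⟨d, hd⟩ : ∃ d, d = bgd M (u' - u) := ⟨_, rfl⟩
  obtain ⟨z, hz⟩ := bgd_bez M (u' - u)
  rw [← hd] at hz ⊢
  have hdM : d ∣ M := by rw [hd]; exact bgd_dvd M _
  have hd0 : 0 < d := Nat.pos_of_dvd_of_pos hdM hM
  obtain ⟨S, hS⟩ : ∃ S, S = (univ : Finset (Idx 5 → ZMod M)).filter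
    (fun g => phi a g u = 0 ∧ phi a g u' = 0) := ⟨_, rfl⟩
  rw [← hS]
  have h1 : ((S ×ˢ (univ : Finset (ZMod M))) ×ˢ range (M / d)).card ≤
      (univ : Finset (Idx 5 → ZMod M)).card := by
    refine Finset.card_le_card_of_injOn
      (fun x => x.1.1 + ((x.2 : ZMod M) • bgz z + x.1.2 • bge)) (fun x _ => mem_univ _) ?_
    rintro ⟨⟨g, c⟩, j⟩ hx ⟨⟨g', c'⟩, j'⟩ hx' hxx
    rw [Finset.mem_coe, mem_product, mem_product, hS, mem_filter, mem_range] at hx hx'
    obtain ⟨⟨⟨_, hg1, hg2⟩, _⟩, hj⟩ := hx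
    obtain ⟨⟨⟨_, hg1', hg2'⟩, _⟩, hj'⟩ := hx'
    dsimp only at hxx hg1 hg2 hg1' hg2' hj hj'
    have e1 : ∀ v : Fin 3 → ZMod M, phi a g v + ((j : ZMod M) * phi a (bgz z) v + c) =
        phi a g' v + ((j' : ZMod M) * phi a (bgz z) v + c') := by
      intro v
      have e2 : phi a (g + ((j : ZMod M) • bgz z + c • bge)) v =
          phi a (g' + ((j' : ZMod M) • bgz z + c' • bge)) v := by rw [hxx]
      rw [bg_add, bg_add, bg_smul, bg_smul, bg_e, bg_add, bg_add, bg_smul, bg_smul, bg_e] at e2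
      linear_combination e2
    have e2 := e1 u
    have e3 := e1 u'
    rw [hg1, hg1'] at e2
    rw [hg2, hg2'] at e3
    have e4 : phi a (bgz z) u' - phi a (bgz z) u = d := by
      rw [bg_z, bg_z, ← hz]
      simp only [Pi.sub_apply]
      ring
    have e5 : ((j * d : ℕ) : ZMod M) = ((j' * d : ℕ) : ZMod M) := by
      push_cast
      rw [← e4]
      linear_combination e3 - e2
    have e6 : j * d < M := by
      have := (Nat.lt_div_iff_mul_lt' hdM j).1 hj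
      rwa [mul_comm]
    have e7 : j' * d < M := by
      have := (Nat.lt_div_iff_mul_lt' hdM j').1 hj'
      rwa [mul_comm]
    have e8 : j * d = j' * d := by
      have e9 := (ZMod.natCast_eq_natCast_iff' _ _ M).1 e5
      rwa [Nat.mod_eq_of_lt e6, Nat.mod_eq_of_lt e7] at e9
    have e9 : j = j' := Nat.eq_of_mul_eq_mul_right hd0 e8
    subst e9
    have e10 : c = c' := by linear_combination e2
    subst e10
    have e11 : g = g' := add_right_cancel hxx
    rw [e11]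
  rw [card_product, card_product, card_univ, ZMod.card, card_range, card_univ, Fintype.card_fun,
    ZMod.card] at h1
  have h2 : Fintype.card (Idx 5) = 15 := by decide
  rw [h2] at h1
  have hMd : M = d * (M / d) := (Nat.mul_div_cancel' hdM).symm
  have hq0 : 0 < M / d := Nat.div_pos (Nat.le_of_dvd hM hdM) hd0
  have h3 : S.card * (M * (M / d)) ≤ (M ^ 13 * d) * (M * (M / d)) := by
    calc S.card * (M * (M / d)) = S.card * M * (M / d) := by ring
      _ ≤ M ^ 15 := h1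
      _ = M ^ 14 * M := by ring
      _ = M ^ 14 * (d * (M / d)) := by rw [← hMd]
      _ = (M ^ 13 * d) * (M * (M / d)) := by ring
  exact Nat.le_of_mul_le_mul_right h3 (by positivity)

open scoped Classical in
theorem big (a : Idx 3 → ℤ) (M P0 : ℕ) [NeZero M] (hP : 1 ≤ P0)
    (h : ∀ p : ℕ, p.Prime → p ∣ M → P0 < p) :
    P0 * ((univ : Finset (Idx 5 → ZMod M)).filter fun g =>
      2 * ((univ : Finset (Fin 3 → ZMod M)).filter fun u =>
        phi (fun r => (a r : ZMod M)) g u = 0).card < M ^ 2).card ≤ 8 * M ^ 15 := by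
  have hM : 0 < M := Nat.pos_of_ne_zero (NeZero.ne M)
  have hM0 : (0 : ℝ) < M := by exact_mod_cast hM
  have hP0 : (0 : ℝ) < P0 := by exact_mod_cast hP
  obtain ⟨b, hb⟩ : ∃ b : Idx 3 → ZMod M, b = fun r => (a r : ZMod M) := ⟨_, rfl⟩
  rw [← hb]
  obtain ⟨U, hU⟩ : ∃ U : (Idx 5 → ZMod M) → ℕ, U = fun g =>
    ((univ : Finset (Fin 3 → ZMod M)).filter fun u => phi b g u = 0).card := ⟨_, rfl⟩
  have hUg : ∀ g, ((univ : Finset (Fin 3 → ZMod M)).filter fun u => phi b g u = 0).card = U g := by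
    intro g
    rw [hU]
  simp only [hUg]
  have hUs : ∀ g, (U g : ℝ) = ∑ u : Fin 3 → ZMod M, (if phi b g u = 0 then (1 : ℝ) else 0) := by
    intro g
    rw [hU]
    dsimp only
    rw [Finset.card_filter]
    push_cast
    rfl
  have hcR : ((univ : Finset (Fin 3 → ZMod M)).card : ℝ) = (M : ℝ) ^ 3 := by
    rw [card_univ, Fintype.card_fun, ZMod.card, Fintype.card_fin]
    push_cast
    rfl
  have hcG : ((univ : Finset (Idx 5 → ZMod M)).card : ℝ) = (M : ℝ) ^ 15 := by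
    rw [card_univ, Fintype.card_fun, ZMod.card]
    have h2 : Fintype.card (Idx 5) = 15 := by decide
    rw [h2]
    push_cast
    rfl
  -- first moment
  have m1 : (M : ℝ) ^ 17 ≤ ∑ g : Idx 5 → ZMod M, (U g : ℝ) := by
    rw [Finset.sum_congr rfl fun g _ => hUs g, Finset.sum_comm]
    have e1 : ∀ u ∈ (univ : Finset (Fin 3 → ZMod M)), (M : ℝ) ^ 14 ≤
        ∑ g : Idx 5 → ZMod M, (if phi b g u = 0 then (1 : ℝ) else 0) := by
      intro u _
      have e2 := bg_one M b u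
      rw [Finset.card_filter] at e2
      have e3 : ((M ^ 14 : ℕ) : ℝ) ≤
          ((∑ g : Idx 5 → ZMod M, (if phi b g u = 0 then 1 else 0) : ℕ) : ℝ) := by
        exact_mod_cast e2
      push_cast at e3
      exact e3
    have e2 := Finset.card_nsmul_le_sum _ _ _ e1
    rw [nsmul_eq_mul, hcR] at e2
    calc (M : ℝ) ^ 17 = (M : ℝ) ^ 3 * (M : ℝ) ^ 14 := by ring
      _ ≤ _ := e2
  -- second moment
  have m2 : ∑ g : Idx 5 → ZMod M, (U g : ℝ) ^ 2 ≤ (M : ℝ) ^ 19 * (1 + 1 / P0) := by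
    have e1 : ∀ g : Idx 5 → ZMod M, (U g : ℝ) ^ 2 = ∑ u : Fin 3 → ZMod M, ∑ u' : Fin 3 → ZMod M,
        (if phi b g u = 0 ∧ phi b g u' = 0 then (1 : ℝ) else 0) := by
      intro g
      rw [hUs g, pow_two, Finset.sum_mul_sum]
      refine Finset.sum_congr rfl fun u _ => Finset.sum_congr rfl fun u' _ => ?_
      by_cases k1 : phi b g u = 0
      · by_cases k2 : phi b g u' = 0
        · simp [k1, k2]
        · simp [k1, k2]
      · simp [k1]
    rw [Finset.sum_congr rfl fun g _ => e1 g, Finset.sum_comm]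
    have e2 : ∀ u ∈ (univ : Finset (Fin 3 → ZMod M)), ∑ g : Idx 5 → ZMod M,
        ∑ u' : Fin 3 → ZMod M, (if phi b g u = 0 ∧ phi b g u' = 0 then (1 : ℝ) else 0) ≤
        (M : ℝ) ^ 13 * ((M : ℝ) ^ 3 * (1 + 1 / P0)) := by
      intro u _
      rw [Finset.sum_comm]
      have e3 : ∀ u' ∈ (univ : Finset (Fin 3 → ZMod M)), ∑ g : Idx 5 → ZMod M,
          (if phi b g u = 0 ∧ phi b g u' = 0 then (1 : ℝ) else 0) ≤
          (M : ℝ) ^ 13 * (bgd M (u' - u) : ℝ) := by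
        intro u' _
        have e4 := bg_two M b u u'
        rw [Finset.card_filter] at e4
        have e5 : ((∑ g : Idx 5 → ZMod M,
            (if phi b g u = 0 ∧ phi b g u' = 0 then 1 else 0) : ℕ) : ℝ) ≤
            ((M ^ 13 * bgd M (u' - u) : ℕ) : ℝ) := by
          exact_mod_cast e4
        push_cast at e5
        exact e5
      refine (Finset.sum_le_sum e3).trans ?_
      rw [← Finset.mul_sum]
      refine mul_le_mul_of_nonneg_left ?_ (by positivity)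
      have e4 : ∑ u' : Fin 3 → ZMod M, (bgd M (u' - u) : ℝ) =
          ∑ w : Fin 3 → ZMod M, (bgd M w : ℝ) :=
        Fintype.sum_equiv (Equiv.subRight u) _ _ fun w => rfl
      rw [e4]
      exact bg_sumd M P0 hP h
    refine (Finset.sum_le_sum e2).trans ?_
    rw [Finset.sum_const, nsmul_eq_mul, hcR]
    exact le_of_eq (by ring)
  -- variance
  have m3 : ∑ g : Idx 5 → ZMod M, ((U g : ℝ) - (M : ℝ) ^ 2) ^ 2 ≤ (M : ℝ) ^ 19 / P0 := by
    have e1 : ∑ g : Idx 5 → ZMod M, ((U g : ℝ) - (M : ℝ) ^ 2) ^ 2 =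
        ∑ g : Idx 5 → ZMod M, (U g : ℝ) ^ 2 - 2 * (M : ℝ) ^ 2 * ∑ g : Idx 5 → ZMod M, (U g : ℝ) +
          (M : ℝ) ^ 15 * (M : ℝ) ^ 4 := by
      have e2 : ∀ g ∈ (univ : Finset (Idx 5 → ZMod M)), ((U g : ℝ) - (M : ℝ) ^ 2) ^ 2 =
          (U g : ℝ) ^ 2 - 2 * (M : ℝ) ^ 2 * (U g : ℝ) + (M : ℝ) ^ 4 := fun g _ => by ring
      rw [Finset.sum_congr rfl e2, Finset.sum_add_distrib, Finset.sum_sub_distrib,
        ← Finset.mul_sum, Finset.sum_const, nsmul_eq_mul, hcG]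
    rw [e1]
    have e2 : (M : ℝ) ^ 19 * (1 + 1 / P0) = (M : ℝ) ^ 19 + (M : ℝ) ^ 19 / P0 := by ring
    rw [e2] at m2
    have e3 := mul_le_mul_of_nonneg_left m1 (by positivity : 0 ≤ 2 * (M : ℝ) ^ 2)
    have e4 : 2 * (M : ℝ) ^ 2 * (M : ℝ) ^ 17 = 2 * (M : ℝ) ^ 19 := by ring
    have e5 : (M : ℝ) ^ 15 * (M : ℝ) ^ 4 = (M : ℝ) ^ 19 := by ring
    rw [e4] at e3
    rw [e5]
    linarith
  -- conclusion
  obtain ⟨T, hT⟩ : ∃ T, T = (univ : Finset (Idx 5 → ZMod M)).filter (fun g => 2 * U g < M ^ 2) :=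
    ⟨_, rfl⟩
  rw [← hT]
  have m4 : (T.card : ℝ) * ((M : ℝ) ^ 4 / 4) ≤ (M : ℝ) ^ 19 / P0 := by
    refine le_trans ?_ m3
    have e1 : ∀ g ∈ T, (M : ℝ) ^ 4 / 4 ≤ ((U g : ℝ) - (M : ℝ) ^ 2) ^ 2 := by
      intro g hg
      rw [hT, mem_filter] at hg
      have e2 : (2 : ℝ) * U g < (M : ℝ) ^ 2 := by exact_mod_cast hg.2
      have e3 : (M : ℝ) ^ 2 / 2 ≤ (M : ℝ) ^ 2 - U g := by linarith
      have e4 := pow_le_pow_left₀ (by positivity) e3 2
      have e5 : ((M : ℝ) ^ 2 / 2) ^ 2 = (M : ℝ) ^ 4 / 4 := by ring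
      rw [e5] at e4
      have e6 : ((U g : ℝ) - (M : ℝ) ^ 2) ^ 2 = ((M : ℝ) ^ 2 - U g) ^ 2 := by ring
      rw [e6]
      exact e4
    have e2 := Finset.card_nsmul_le_sum _ _ _ e1
    rw [nsmul_eq_mul] at e2
    refine e2.trans (Finset.sum_le_sum_of_subset_of_nonneg (Finset.subset_univ _) ?_)
    intro g _ _
    positivity
  have m5 : (P0 : ℝ) * T.card ≤ 4 * (M : ℝ) ^ 15 := by
    rw [le_div_iff₀ hP0] at m4
    have e1 : (T.card : ℝ) * ((M : ℝ) ^ 4 / 4) * P0 = ((P0 : ℝ) * T.card) * ((M : ℝ) ^ 4 / 4) := by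
      ring
    have e2 : (M : ℝ) ^ 19 = (4 * (M : ℝ) ^ 15) * ((M : ℝ) ^ 4 / 4) := by ring
    rw [e1, e2] at m4
    exact le_of_mul_le_mul_right m4 (by positivity)
  have m6 : (P0 : ℝ) * T.card ≤ 8 * (M : ℝ) ^ 15 := by
    have : (0 : ℝ) < (M : ℝ) ^ 15 := by positivity
    linarith
  exact_mod_cast m6

end Pool.Agent.H7.HP
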