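import Pool.Agent.H7.HP.Frm

set_option autoImplicit false
set_option linter.unusedSectionVars false

/-!
# [H7 HP BXQ] boxes and residue classes, 40-70 lines

The number of integers of `[-A, A]` in a residue class modulo `Q` is at most `(2A+1)/Q + 1`, so the number of `g ∈ bf 5 A` with given residues is at most `((2A+1)/Q + 1)^15 ≤ 2 ((2A+1)/Q)^15` as soon as `(1 + Q/(2A+1))^15 ≤ 2`.
-/

namespace Pool.Agent.H7.HP

open Finset

open scoped Classical in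
private theorem Bxq_one (Q : ℕ) [NeZero Q] (A : ℕ) (c : ZMod Q) :
    (((Icc (-(A : ℤ)) A).filter fun z : ℤ => (z : ZMod Q) = c).card : ℝ) * Q ≤ 2 * A + 1 + Q := by
  have hQ : (0 : ℤ) < Q := by exact_mod_cast Nat.pos_of_ne_zero (NeZero.ne Q)
  have hQq : (0 : ℚ) < Q := by exact_mod_cast hQ
  have e : (Icc (-(A : ℤ)) A).filter (fun z : ℤ => (z : ZMod Q) = c) =
      (Ico (-(A : ℤ)) (A + 1)).filter (fun z : ℤ => z ≡ (c.val : ℤ) [ZMOD (Q : ℤ)]) := by
    ext z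
    simp only [mem_filter, mem_Icc, mem_Ico]
    have h1 : (z : ZMod Q) = c ↔ z ≡ (c.val : ℤ) [ZMOD (Q : ℤ)] := by
      rw [← ZMod.intCast_eq_intCast_iff]
      simp
    rw [h1]
    constructor
    · rintro ⟨⟨h2, h3⟩, h4⟩
      exact ⟨⟨h2, by omega⟩, h4⟩
    · rintro ⟨⟨h2, h3⟩, h4⟩
      exact ⟨⟨h2, by omega⟩, h4⟩
  have h2 : ((((Ico (-(A : ℤ)) (A + 1)).filter
      (fun z : ℤ => z ≡ (c.val : ℤ) [ZMOD (Q : ℤ)])).card : ℤ) : ℚ) ≤ (2 * A + 1) / Q + 1 := by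
    rw [Int.Ico_filter_modEq_card _ _ hQ]
    push_cast
    apply max_le
    · have h3 := Int.ceil_lt_add_one ((((A : ℤ) + 1 : ℤ) - ((c.val : ℕ) : ℤ) : ℚ) / ((Q : ℤ) : ℚ))
      have h4 := Int.le_ceil (((-(A : ℤ) : ℤ) - ((c.val : ℕ) : ℤ) : ℚ) / ((Q : ℤ) : ℚ))
      push_cast at h3 h4
      have h5 : (((A : ℚ) + 1 - (c.val : ℚ)) / Q) - ((-(A : ℚ) - (c.val : ℚ)) / Q) =
          (2 * A + 1) / Q := by
        field_simp
        ring
      linarith
    · positivity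
  have h3 : ((((Icc (-(A : ℤ)) A).filter fun z : ℤ => (z : ZMod Q) = c).card : ℕ) : ℚ) * Q ≤
      2 * A + 1 + Q := by
    rw [e]
    have h4 : (((((Ico (-(A : ℤ)) (A + 1)).filter
      (fun z : ℤ => z ≡ (c.val : ℤ) [ZMOD (Q : ℤ)])).card : ℕ) : ℚ)) ≤ (2 * A + 1) / Q + 1 := by
      exact_mod_cast h2
    calc _ ≤ ((2 * A + 1) / Q + 1) * (Q : ℚ) := by
          apply mul_le_mul_of_nonneg_right h4 hQq.le
      _ = 2 * A + 1 + Q := by field_simp
  exact_mod_cast h3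

open scoped Classical in
theorem boxq (Q : ℕ) [NeZero Q] : ∃ A0 : ℕ, ∀ A ≥ A0, ∀ S : Finset (Idx 5 → ZMod Q),
    (((bf 5 A).filter fun g => (fun r => (g r : ZMod Q)) ∈ S).card : ℝ) * (Q : ℝ) ^ 15 ≤
      2 * S.card * (2 * A + 1) ^ 15 := by
  refine ⟨15 * Q, fun A hA S => ?_⟩
  have hQ : (0 : ℝ) < Q := by exact_mod_cast Nat.pos_of_ne_zero (NeZero.ne Q)
  have hA' : (15 : ℝ) * Q ≤ A := by exact_mod_cast hA
  -- one residue vector
  have h1 : ∀ s : Idx 5 → ZMod Q,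
      (((bf 5 A).filter fun g => (fun r => (g r : ZMod Q)) = s).card : ℝ) * (Q : ℝ) ^ 15 ≤
        2 * (2 * A + 1) ^ 15 := by
    intro s
    have e1 : (bf 5 A).filter (fun g => (fun r => (g r : ZMod Q)) = s) =
        Fintype.piFinset fun r : Idx 5 => (Icc (-(A : ℤ)) A).filter fun z : ℤ => (z : ZMod Q) = s r := by
      ext g
      simp only [bf, mem_filter, Fintype.mem_piFinset]
      constructor
      · rintro ⟨h2, h3⟩ r
        exact ⟨h2 r, congrFun h3 r⟩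
      · intro h2
        exact ⟨fun r => (h2 r).1, funext fun r => (h2 r).2⟩
    rw [e1, Fintype.card_piFinset]
    push_cast
    have e2 : ((Q : ℝ)) ^ 15 = ∏ _r : Idx 5, (Q : ℝ) := by
      rw [prod_const, card_univ, card_Idx5]
    have e3 : ((2 : ℝ) * A + 1 + Q) ^ 15 = ∏ _r : Idx 5, ((2 : ℝ) * A + 1 + Q) := by
      rw [prod_const, card_univ, card_Idx5]
    rw [e2, ← prod_mul_distrib]
    calc ∏ r : Idx 5, ((((Icc (-(A : ℤ)) A).filter fun z : ℤ => (z : ZMod Q) = s r).card : ℝ) * Q)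
        ≤ ∏ _r : Idx 5, ((2 : ℝ) * A + 1 + Q) :=
          prod_le_prod (fun r _ => by positivity) (fun r _ => Bxq_one Q A (s r))
      _ = ((2 : ℝ) * A + 1 + Q) ^ 15 := e3.symm
      _ ≤ ((31 / 30 : ℝ) * (2 * A + 1)) ^ 15 := by
          apply pow_le_pow_left₀ (by positivity)
          linarith
      _ = (31 / 30 : ℝ) ^ 15 * (2 * A + 1) ^ 15 := by rw [mul_pow]
      _ ≤ 2 * (2 * A + 1) ^ 15 := by
          apply mul_le_mul_of_nonneg_right _ (by positivity)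
          norm_num
  have h2 : (((bf 5 A).filter fun g => (fun r => (g r : ZMod Q)) ∈ S).card : ℝ) =
      ∑ s ∈ S, (((bf 5 A).filter fun g => (fun r => (g r : ZMod Q)) = s).card : ℝ) := by
    rw [← Nat.cast_sum]
    congr 1
    have h6 := card_eq_sum_card_fiberwise
      (s := (bf 5 A).filter fun g => (fun r => (g r : ZMod Q)) ∈ S)
      (f := fun (g : Idx 5 → ℤ) (r : Idx 5) => (g r : ZMod Q))
      (t := S) (fun g hg => (mem_filter.1 (mem_coe.1 hg)).2)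
    refine h6.trans ?_
    refine sum_congr rfl fun s hs => ?_
    congr 1
    ext g
    simp only [mem_filter]
    constructor
    · rintro ⟨⟨h3, h4⟩, h5⟩
      exact ⟨h3, h5⟩
    · rintro ⟨h3, h5⟩
      refine ⟨⟨h3, ?_⟩, h5⟩
      rw [h5]
      exact hs
  rw [h2, sum_mul]
  calc ∑ s ∈ S, (((bf 5 A).filter fun g => (fun r => (g r : ZMod Q)) = s).card : ℝ) *
        (Q : ℝ) ^ 15 ≤ ∑ _s ∈ S, 2 * ((2 : ℝ) * A + 1) ^ 15 := sum_le_sum fun s _ => h1 s
    _ = 2 * S.card * (2 * A + 1) ^ 15 := by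
        rw [sum_const, nsmul_eq_mul]
        ring

end Pool.Agent.H7.HP
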