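import Pool.Agent.H7.HP.Gau
import Pool.Agent.H21.BV.Fej

set_option autoImplicit false
set_option linter.unusedSectionVars false

/-!
# [H7 HP EQD] zeros of the ternary form modulo a prime in boxes, 130-200 lines

PROOF. `ψ = ZMod.stdAddChar`. Let `W_i(v)` (`v : ZMod l`) be the number of `z ∈ [α_i, α_i + n_i)` with `z ≡ v`. Fourier inversion on `ZMod l`:
`W_i(v) = ∑_b w_i(b) ψ(b v)`, `w_i(b) = (1/l) ∑_{z ∈ [α_i, α_i + n_i)} ψ(-b z)`, `w_i(0) = n_i / l`; for `b ≠ 0` the sum over complete periods vanishes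
and the rest is a geometric sum: `|w_i(b)| ≤ (1/l) min(l, 1/(2 ||b/l||))`, so `∑_{b ≠ 0} |w_i(b)| ≤ 1 + log l` or `C log l` (`∑_{1 ≤ b < l/2} 1/b`; the team library
has the completion of Polya-Vinogradov, look for it: grep `stdAddChar`, `completion`, `PolyaVinogradov`). The number is
`∑_{v : h(c + m v) = 0} ∏ W_i(v_i) = ∑_b ∏ w_i(b_i) ∑_{v : h(c + m v) = 0} ψ(b.v)`; the inner sum: put `v' = c + m v` (`m` invertible), it is
`ψ(-b.c/m) ∑_{h(v') = 0} ψ((b/m).v')`, so by `con` it is `l^2 [b = 0] + O(l^(3/2))`. `b = 0`: main term `n1 n2 n3 / l^3 * l^2`, error `∏ (n_i / l) l^(3/2) ≤ L^3 l^(3/2)`; all `b`: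
error at most `l^(3/2) ∏_i (n_i / l + C log l) ≤ l^(3/2) (L + C log l)^3`.
`qv a (c + m z)` for integers: reduce modulo `l` by `qv_map`, `Hm_map` (`det (Hm a)` not divisible by `l`).
-/

namespace Pool.Agent.H7.HP

open Finset

open Pool.Agent.H21.BV (ee ee_add ee_int norm_ee fej_low)

private theorem low {q v : ℕ} (h1 : 1 ≤ v) (h2 : v < q) :
    2 / ‖ee ((v : ℝ) / q) - 1‖ ≤ (q : ℝ) / 2 * (1 / (v : ℝ) + 1 / ((q : ℝ) - v)) := by
  have hv : (0 : ℝ) < v := by exact_mod_cast h1
  have hq : (0 : ℝ) < q := by exact_mod_cast (by omega : 0 < q)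
  have hvq : (0 : ℝ) < (q : ℝ) - v := by
    have : (v : ℝ) < q := by exact_mod_cast h2
    linarith
  have h0 : (0 : ℝ) < 1 / (v : ℝ) := by positivity
  have h0' : (0 : ℝ) < 1 / ((q : ℝ) - v) := by positivity
  by_cases hc : 2 * v ≤ q
  · have hc' : 2 * (v : ℝ) ≤ q := by exact_mod_cast hc
    have hlow := fej_low ((v : ℝ) / q) (by
      rw [abs_of_pos (by positivity), div_le_div_iff₀ hq (by norm_num)]
      linarith)
    rw [abs_of_pos (by positivity)] at hlow
    calc 2 / ‖ee ((v : ℝ) / q) - 1‖ ≤ 2 / (4 * ((v : ℝ) / q)) :=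
          div_le_div_of_nonneg_left (by norm_num) (by positivity) hlow
      _ = (q : ℝ) / 2 * (1 / (v : ℝ)) := by
          field_simp
          norm_num
      _ ≤ _ := by
          apply mul_le_mul_of_nonneg_left _ (by positivity)
          linarith
  · have hc' : (q : ℝ) ≤ 2 * (v : ℝ) := by exact_mod_cast (by omega : q ≤ 2 * v)
    have hneg : (v : ℝ) / q - 1 ≤ 0 := by
      rw [sub_nonpos, div_le_one hq]
      linarith
    have e1 : ee ((v : ℝ) / q) = ee ((v : ℝ) / q - 1) := by
      have h3 := ee_add ((v : ℝ) / q - 1) 1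
      have h4 := ee_int 1
      rw [Int.cast_one] at h4
      rw [h4, mul_one, sub_add_cancel] at h3
      exact h3
    have e2 : |(v : ℝ) / q - 1| = ((q : ℝ) - v) / q := by
      rw [abs_of_nonpos hneg]
      field_simp
      ring
    have hlow := fej_low ((v : ℝ) / q - 1) (by
      rw [e2, div_le_div_iff₀ hq (by norm_num)]
      linarith)
    rw [e2] at hlow
    rw [e1]
    calc 2 / ‖ee ((v : ℝ) / q - 1) - 1‖ ≤ 2 / (4 * (((q : ℝ) - v) / q)) :=
          div_le_div_of_nonneg_left (by norm_num) (by positivity) hlow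
      _ = (q : ℝ) / 2 * (1 / ((q : ℝ) - v)) := by
          field_simp
          norm_num
      _ ≤ _ := by
          apply mul_le_mul_of_nonneg_left _ (by positivity)
          linarith

private theorem geo {q : ℕ} [NeZero q] (b : ZMod q) (hb : b ≠ 0) (α : ℤ) (n : ℕ) :
    ‖∑ k ∈ Ico α (α + n), ZMod.stdAddChar (N := q) (b * (k : ZMod q))‖ ≤
      (q : ℝ) / 2 * (1 / (b.val : ℝ) + 1 / ((q : ℝ) - b.val)) := by
  have hv1 : 1 ≤ b.val := by
    rw [Nat.one_le_iff_ne_zero, Ne, ZMod.val_eq_zero]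
    exact hb
  have hv2 : b.val < q := ZMod.val_lt b
  have hlow := low hv1 hv2
  obtain ⟨z, hz⟩ : ∃ z : ℂ, z = ZMod.stdAddChar (N := q) b := ⟨_, rfl⟩
  have hze : z = ee ((b.val : ℝ) / q) := by
    have h1 : b = ((b.val : ℤ) : ZMod q) := by
      rw [Int.cast_natCast, ZMod.natCast_zmod_val]
    rw [hz]
    conv_lhs => rw [h1]
    rw [ZMod.stdAddChar_coe]
    unfold ee
    congr 1
    push_cast
    ring
  have hz1 : z ≠ 1 := by
    intro h
    have h1 : ZMod.stdAddChar (N := q) b = ZMod.stdAddChar (N := q) 0 := by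
      rw [← hz, h, AddChar.map_zero_eq_one]
    exact hb (ZMod.injective_stdAddChar h1)
  rw [← hze] at hlow
  refine le_trans ?_ hlow
  have hzn : ‖z‖ = 1 := by
    rw [hze]
    exact norm_ee _
  have hz0 : 0 < ‖z - 1‖ := by
    rw [norm_pos_iff, sub_ne_zero]
    exact hz1
  have e2 : ∑ k ∈ Ico α (α + n), ZMod.stdAddChar (N := q) (b * (k : ZMod q)) =
      ZMod.stdAddChar (N := q) (b * (α : ZMod q)) * ∑ k ∈ range n, z ^ k := by
    rw [Finset.mul_sum]
    refine Finset.sum_nbij' (fun k => (k - α).toNat) (fun k => α + k) ?_ ?_ ?_ ?_ ?_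
    · intro k hk
      rw [mem_Ico] at hk
      rw [mem_range]
      omega
    · intro k hk
      rw [mem_range] at hk
      rw [mem_Ico]
      omega
    · intro k hk
      rw [mem_Ico] at hk
      omega
    · intro k hk
      simp
    · intro k hk
      rw [mem_Ico] at hk
      rw [hz, ← AddChar.map_nsmul_eq_pow, ← AddChar.map_add_eq_mul]
      congr 1
      have h1 : (((k - α).toNat : ℕ) : ZMod q) = (k : ZMod q) - (α : ZMod q) := by
        have h2 : (((k - α).toNat : ℤ)) = k - α := Int.toNat_of_nonneg (by omega)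
        calc (((k - α).toNat : ℕ) : ZMod q) = ((((k - α).toNat : ℕ) : ℤ) : ZMod q) := by push_cast; rfl
          _ = _ := by rw [h2]; push_cast; rfl
      rw [nsmul_eq_mul, h1]
      ring
  have hn1 : ‖ZMod.stdAddChar (N := q) (b * (α : ZMod q))‖ = 1 := AddChar.norm_apply _ _
  rw [e2, norm_mul, hn1, one_mul, geom_sum_eq hz1, norm_div]
  apply div_le_div_of_nonneg_right _ hz0.le
  calc ‖z ^ n - 1‖ ≤ ‖z ^ n‖ + ‖(1 : ℂ)‖ := norm_sub_le _ _
    _ = 2 := by
      rw [norm_pow, hzn]
      norm_num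

private theorem harm (q : ℕ) :
    ∑ v ∈ Ico 1 q, (1 / (v : ℝ) + 1 / ((q : ℝ) - v)) ≤ 2 * (1 + Real.log q) := by
  rw [Finset.sum_add_distrib]
  have h1 : ∑ v ∈ Ico 1 q, 1 / ((q : ℝ) - v) = ∑ v ∈ Ico 1 q, 1 / (v : ℝ) := by
    refine Finset.sum_nbij' (fun v => q - v) (fun v => q - v) ?_ ?_ ?_ ?_ ?_
    · intro v hv
      rw [mem_Ico] at hv ⊢
      omega
    · intro v hv
      rw [mem_Ico] at hv ⊢
      omega
    · intro v hv
      rw [mem_Ico] at hv
      omega
    · intro v hv
      rw [mem_Ico] at hv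
      omega
    · intro v hv
      rw [mem_Ico] at hv
      rw [Nat.cast_sub (by omega)]
  have h2 : ∑ v ∈ Ico 1 q, 1 / (v : ℝ) ≤ 1 + Real.log q := by
    have h3 := harmonic_le_one_add_log q
    refine le_trans ?_ h3
    unfold harmonic
    push_cast
    rw [Finset.sum_Ico_eq_sum_range]
    calc ∑ k ∈ range (q - 1), 1 / (((1 + k : ℕ)) : ℝ)
        = ∑ k ∈ range (q - 1), ((k : ℝ) + 1)⁻¹ := by
          refine Finset.sum_congr rfl fun k _ => ?_
          push_cast
          rw [one_div, add_comm]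
      _ ≤ ∑ k ∈ range q, ((k : ℝ) + 1)⁻¹ := by
          apply Finset.sum_le_sum_of_subset_of_nonneg
          · exact range_subset_range.2 (by omega)
          · intro k _ _
            positivity
  rw [h1]
  linarith

/-- the sum over all frequencies -/
private theorem freq (q : ℕ) [NeZero q] (α : ℤ) (n : ℕ) :
    ∑ b : ZMod q, ‖∑ k ∈ Ico α (α + n), ZMod.stdAddChar (N := q) (b * (k : ZMod q))‖ ≤
      n + q * (1 + Real.log q) := by
  classical
  have hq : 1 ≤ q := Nat.one_le_iff_ne_zero.2 (NeZero.ne q)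
  rw [← Finset.add_sum_erase univ _ (mem_univ (0 : ZMod q))]
  refine add_le_add ?_ ?_
  · refine (norm_sum_le _ _).trans ?_
    have h1 : ∀ k ∈ Ico α (α + n), ‖ZMod.stdAddChar (N := q) ((0 : ZMod q) * (k : ZMod q))‖ ≤ 1 :=
      fun k _ => (AddChar.norm_apply _ _).le
    refine (Finset.sum_le_card_nsmul _ _ _ h1).trans ?_
    simp
  · calc ∑ b ∈ univ.erase (0 : ZMod q),
          ‖∑ k ∈ Ico α (α + n), ZMod.stdAddChar (N := q) (b * (k : ZMod q))‖
        ≤ ∑ b ∈ univ.erase (0 : ZMod q),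
          (q : ℝ) / 2 * (1 / (b.val : ℝ) + 1 / ((q : ℝ) - b.val)) := by
          refine Finset.sum_le_sum fun b hb => ?_
          rw [mem_erase] at hb
          exact geo b hb.1 α n
      _ = ∑ v ∈ Ico 1 q, (q : ℝ) / 2 * (1 / (v : ℝ) + 1 / ((q : ℝ) - v)) := by
          refine Finset.sum_nbij' (fun b => b.val) (fun v => (v : ZMod q)) ?_ ?_ ?_ ?_ ?_
          · intro b hb
            rw [mem_erase] at hb
            rw [mem_Ico]
            refine ⟨?_, ZMod.val_lt b⟩
            rw [Nat.one_le_iff_ne_zero, Ne, ZMod.val_eq_zero]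
            exact hb.1
          · intro v hv
            rw [mem_Ico] at hv
            rw [mem_erase]
            refine ⟨?_, mem_univ _⟩
            intro h
            rw [ZMod.natCast_eq_zero_iff] at h
            have := Nat.le_of_dvd (by omega) h
            omega
          · intro b _
            exact ZMod.natCast_zmod_val b
          · intro v hv
            rw [mem_Ico] at hv
            exact ZMod.val_natCast_of_lt hv.2
          · intro b _
            rfl
      _ = (q : ℝ) / 2 * ∑ v ∈ Ico 1 q, (1 / (v : ℝ) + 1 / ((q : ℝ) - v)) := by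
          rw [Finset.mul_sum]
      _ ≤ (q : ℝ) / 2 * (2 * (1 + Real.log q)) :=
          mul_le_mul_of_nonneg_left (harm q) (by positivity)
      _ = q * (1 + Real.log q) := by ring

private theorem map_sum_eq_prod' {A : Type*} [AddCommMonoid A] (ψ : AddChar A ℂ) {ι : Type*} (s : Finset ι)
    (f : ι → A) : ψ (∑ i ∈ s, f i) = ∏ i ∈ s, ψ (f i) := by
  classical
  induction s using Finset.induction_on with
  | empty => simp
  | insert a s ha ih => rw [Finset.sum_insert ha, Finset.prod_insert ha, AddChar.map_add_eq_mul, ih]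

theorem eqd : ∃ C : ℝ, 0 < C ∧ ∀ (a : Idx 3 → ℤ) (l : ℕ), l.Prime → l ≠ 2 →
    ¬ (l : ℤ) ∣ (Hm a).det → ∀ (m : ℤ), ¬ (l : ℤ) ∣ m → ∀ (c α : Fin 3 → ℤ) (n : Fin 3 → ℕ)
    (L : ℝ), 1 ≤ L → (∀ i, (n i : ℝ) ≤ L * l) →
    |((((Fintype.piFinset fun i => Ico (α i) (α i + n i)).filter
      fun z => (l : ℤ) ∣ qv a (fun i => c i + m * z i)).card : ℝ) -
        (n 0 : ℝ) * n 1 * n 2 / l)| ≤ C * (L + Real.log l) ^ 3 * (l : ℝ) ^ (3 / 2 : ℝ) := by
  refine ⟨8, by norm_num, ?_⟩
  intro a l hl h2 hd m hm c α n L hL hn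
  have hlF : Fact l.Prime := ⟨hl⟩
  have hl0 : (0 : ℝ) < l := by exact_mod_cast hl.pos
  have hlog : 0 ≤ Real.log l := Real.log_nonneg (by exact_mod_cast hl.one_lt.le)
  set φ : ℤ →+* ZMod l := Int.castRingHom (ZMod l) with hφ
  set A : Idx 3 → ZMod l := fun p => φ (a p) with hA
  have hdet : (Hm A).det ≠ 0 := by
    rw [hA, Hm_map φ a]
    have h1 : ((Hm a).map φ).det = φ (Hm a).det := by
      rw [RingHom.map_det]
      rfl
    rw [h1]
    intro h
    exact hd ((ZMod.intCast_zmod_eq_zero_iff_dvd _ _).1 h)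
  set m' : ZMod l := φ m with hm'
  have hm0 : m' ≠ 0 := by
    intro h
    exact hm ((ZMod.intCast_zmod_eq_zero_iff_dvd _ _).1 h)
  set c' : Fin 3 → ZMod l := fun i => φ (c i) with hc'
  set ψ : AddChar (ZMod l) ℂ := ZMod.stdAddChar (N := l) with hψ
  -- the indicator
  set g : (Fin 3 → ZMod l) → ℂ := fun v => if qv A (fun i => c' i + m' * v i) = 0 then 1 else 0 with hg
  set G : (Fin 3 → ZMod l) → ℂ := fun b => ∑ v, g v * ψ (-(∑ i, b i * v i)) with hG
  set E : Fin 3 → ZMod l → ℂ := fun i β => ∑ k ∈ Ico (α i) (α i + n i), ψ (β * (k : ZMod l)) with hE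
  set box := Fintype.piFinset fun i => Ico (α i) (α i + n i) with hbox
  -- bound for `G`
  have hGb : ∀ b, ‖G b - (if b = 0 then (l : ℂ) ^ 2 else 0)‖ ≤ (l : ℝ) ^ (3 / 2 : ℝ) := by
    intro b
    let e : (Fin 3 → ZMod l) ≃ (Fin 3 → ZMod l) :=
      { toFun := fun v i => c' i + m' * v i
        invFun := fun w i => m'⁻¹ * (w i - c' i)
        left_inv := fun v => by
          funext i
          simp only
          rw [add_sub_cancel_left, ← mul_assoc, inv_mul_cancel₀ hm0, one_mul]
        right_inv := fun w => by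
          funext i
          simp only
          rw [← mul_assoc, mul_inv_cancel₀ hm0, one_mul, add_sub_cancel] }
    have h1 : G b = ψ (∑ i, b i * (m'⁻¹ * c' i)) *
        ∑ v ∈ (univ : Finset (Fin 3 → ZMod l)).filter (fun v => qv A v = 0),
          ψ (∑ i, (-(b i * m'⁻¹)) * v i) := by
      rw [Finset.mul_sum, Finset.sum_filter, hG]
      refine Fintype.sum_equiv e _ _ fun v => ?_
      have e1 : ∀ i, e v i = c' i + m' * v i := fun i => rfl
      have e2 : qv A (e v) = qv A (fun i => c' i + m' * v i) := rfl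
      rw [hg]
      simp only [e2]
      by_cases h : qv A (fun i => c' i + m' * v i) = 0
      · rw [if_pos h, if_pos h, one_mul, ← AddChar.map_add_eq_mul]
        congr 1
        rw [← Finset.sum_add_distrib, ← Finset.sum_neg_distrib]
        refine Finset.sum_congr rfl fun i _ => ?_
        rw [e1]
        have h3 : m'⁻¹ * m' = 1 := inv_mul_cancel₀ hm0
        linear_combination (b i * v i) * h3
      · rw [if_neg h, if_neg h, zero_mul]
    by_cases hb : b = 0
    · have h3 := con l h2 A hdet (0 : Fin 3 → ZMod l)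
      rw [if_pos rfl] at h3
      rw [if_pos hb]
      have h4 : G b = ∑ v ∈ (univ : Finset (Fin 3 → ZMod l)).filter (fun v => qv A v = 0),
          ψ (∑ i, (0 : Fin 3 → ZMod l) i * v i) := by
        rw [h1, hb]
        simp
      rw [h4]
      exact h3
    · have h3 := con l h2 A hdet (fun i => -(b i * m'⁻¹))
      have h4 : (fun i => -(b i * m'⁻¹)) ≠ (0 : Fin 3 → ZMod l) := by
        intro h
        refine hb ?_
        funext i
        have h5 := congrFun h i
        simp only [Pi.zero_apply, neg_eq_zero, mul_eq_zero, inv_eq_zero] at h5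
        rcases h5 with h5 | h5
        · exact h5
        · exact absurd h5 hm0
      rw [if_neg h4, sub_zero] at h3
      rw [if_neg hb, sub_zero, h1, norm_mul, AddChar.norm_apply, one_mul]
      exact h3
  -- orthogonality
  have horth : ∀ x : Fin 3 → ZMod l, ∑ b : Fin 3 → ZMod l, ψ (∑ i, b i * x i) =
      if x = 0 then (l : ℂ) ^ 3 else 0 := by
    intro x
    have h1 : ∑ b : Fin 3 → ZMod l, ψ (∑ i, b i * x i) = ∏ i, ∑ β : ZMod l, ψ (β * x i) := by
      rw [Finset.prod_univ_sum, Fintype.piFinset_univ]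
      exact Finset.sum_congr rfl fun b _ => by rw [map_sum_eq_prod']
    rw [h1]
    have h3 : ∀ i, ∑ β : ZMod l, ψ (β * x i) = if x i = 0 then (l : ℂ) else 0 := by
      intro i
      rw [AddChar.sum_mulShift _ (ZMod.isPrimitive_stdAddChar l), ZMod.card]
      split_ifs <;> simp
    simp only [h3]
    by_cases hx : x = 0
    · rw [if_pos hx, hx]
      simp
    · rw [if_neg hx]
      obtain ⟨i, hi⟩ := Function.ne_iff.1 hx
      exact Finset.prod_eq_zero (mem_univ i) (if_neg hi)
  -- inversion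
  have hinv : ∀ w : Fin 3 → ZMod l, (l : ℂ) ^ 3 * g w = ∑ b : Fin 3 → ZMod l, ψ (∑ i, b i * w i) * G b := by
    intro w
    have h1 : ∀ b : Fin 3 → ZMod l, ψ (∑ i, b i * w i) * G b =
        ∑ v, g v * ψ (∑ i, b i * (w i - v i)) := by
      intro b
      rw [hG, Finset.mul_sum]
      refine Finset.sum_congr rfl fun v _ => ?_
      rw [show ψ (∑ i, b i * w i) * (g v * ψ (-(∑ i, b i * v i))) =
        g v * (ψ (∑ i, b i * w i) * ψ (-(∑ i, b i * v i))) by ring, ← AddChar.map_add_eq_mul]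
      congr 2
      rw [← Finset.sum_neg_distrib, ← Finset.sum_add_distrib]
      exact Finset.sum_congr rfl fun i _ => by ring
    simp only [h1]
    rw [Finset.sum_comm]
    have h3 : ∀ v : Fin 3 → ZMod l, ∑ b : Fin 3 → ZMod l, g v * ψ (∑ i, b i * (w i - v i)) =
        if w = v then (l : ℂ) ^ 3 * g v else 0 := by
      intro v
      rw [← Finset.mul_sum, horth (fun i => w i - v i)]
      have h4 : (fun i => w i - v i) = 0 ↔ w = v := by
        constructor
        · intro h
          funext i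
          exact sub_eq_zero.1 (congrFun h i)
        · rintro rfl
          funext i
          exact sub_self _
      simp only [h4]
      split_ifs
      · ring
      · ring
    simp only [h3]
    rw [Finset.sum_ite_eq, if_pos (mem_univ w)]
  -- the count
  set N : ℕ := (box.filter fun z => (l : ℤ) ∣ qv a (fun i => c i + m * z i)).card with hN
  have hcount : (N : ℂ) = ∑ z ∈ box, g (fun i => φ (z i)) := by
    rw [hN, Finset.card_filter]
    push_cast
    refine Finset.sum_congr rfl fun z _ => ?_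
    have h1 : qv A (fun i => c' i + m' * φ (z i)) = φ (qv a (fun i => c i + m * z i)) := by
      rw [qv_map]
      simp only [map_add, map_mul]
      rfl
    rw [hg]
    simp only [h1]
    have h3 : φ (qv a (fun i => c i + m * z i)) = 0 ↔ (l : ℤ) ∣ qv a (fun i => c i + m * z i) :=
      ZMod.intCast_zmod_eq_zero_iff_dvd _ _
    simp only [h3]
  have hmain : (l : ℂ) ^ 3 * N = ∑ b : Fin 3 → ZMod l, (∏ i, E i (b i)) * G b := by
    rw [hcount, Finset.mul_sum]
    simp only [hinv]
    rw [Finset.sum_comm]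
    refine Finset.sum_congr rfl fun b _ => ?_
    rw [← Finset.sum_mul, hE, Finset.prod_univ_sum]
    congr 1
    exact Finset.sum_congr rfl fun z _ => by rw [map_sum_eq_prod']; rfl
  have hE0 : ∏ i, E i ((0 : Fin 3 → ZMod l) i) = (n 0 : ℂ) * n 1 * n 2 := by
    have h1 : ∀ i, E i 0 = n i := by
      intro i
      rw [hE]
      simp
    simp only [Pi.zero_apply, h1]
    rw [Fin.prod_univ_three]
  have hdiff : (l : ℂ) ^ 3 * (N - (n 0 : ℂ) * n 1 * n 2 / l) =
      ∑ b : Fin 3 → ZMod l, (∏ i, E i (b i)) * (G b - (if b = 0 then (l : ℂ) ^ 2 else 0)) := by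
    simp only [mul_sub]
    rw [Finset.sum_sub_distrib, ← hmain]
    congr 1
    simp only [mul_ite, mul_zero]
    rw [Finset.sum_ite_eq', if_pos (mem_univ _), hE0]
    have : (l : ℂ) ≠ 0 := by exact_mod_cast hl.ne_zero
    field_simp
  have hbound : (l : ℝ) ^ 3 * ‖(N - (n 0 : ℂ) * n 1 * n 2 / l : ℂ)‖ ≤
      (∏ i : Fin 3, (l * (L + 1 + Real.log l))) * (l : ℝ) ^ (3 / 2 : ℝ) := by
    have h1 : (l : ℝ) ^ 3 * ‖(N - (n 0 : ℂ) * n 1 * n 2 / l : ℂ)‖ =
        ‖(l : ℂ) ^ 3 * (N - (n 0 : ℂ) * n 1 * n 2 / l)‖ := by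
      rw [norm_mul, norm_pow, Complex.norm_natCast]
    rw [h1, hdiff]
    calc ‖∑ b : Fin 3 → ZMod l, (∏ i, E i (b i)) * (G b - (if b = 0 then (l : ℂ) ^ 2 else 0))‖
        ≤ ∑ b : Fin 3 → ZMod l, ‖(∏ i, E i (b i)) * (G b - (if b = 0 then (l : ℂ) ^ 2 else 0))‖ :=
          norm_sum_le _ _
      _ ≤ ∑ b : Fin 3 → ZMod l, (∏ i, ‖E i (b i)‖) * (l : ℝ) ^ (3 / 2 : ℝ) := by
          refine Finset.sum_le_sum fun b _ => ?_
          rw [norm_mul, norm_prod]
          exact mul_le_mul_of_nonneg_left (hGb b) (Finset.prod_nonneg fun i _ => norm_nonneg _)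
      _ = (∏ i, ∑ β : ZMod l, ‖E i β‖) * (l : ℝ) ^ (3 / 2 : ℝ) := by
          rw [← Finset.sum_mul, Finset.prod_univ_sum, Fintype.piFinset_univ]
      _ ≤ _ := by
          refine mul_le_mul_of_nonneg_right (Finset.prod_le_prod
            (fun i _ => Finset.sum_nonneg fun β _ => norm_nonneg _) fun i _ => ?_) (by positivity)
          have h3 := freq l (α i) (n i)
          have h4 := hn i
          calc _ ≤ (n i : ℝ) + l * (1 + Real.log l) := h3
            _ ≤ L * l + l * (1 + Real.log l) := by linarith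
            _ = l * (L + 1 + Real.log l) := by ring
  have hfin : ‖(N - (n 0 : ℂ) * n 1 * n 2 / l : ℂ)‖ ≤
      (L + 1 + Real.log l) ^ 3 * (l : ℝ) ^ (3 / 2 : ℝ) := by
    have h1 : (∏ i : Fin 3, (l * (L + 1 + Real.log l) : ℝ)) * (l : ℝ) ^ (3 / 2 : ℝ) =
        (l : ℝ) ^ 3 * ((L + 1 + Real.log l) ^ 3 * (l : ℝ) ^ (3 / 2 : ℝ)) := by
      rw [Finset.prod_const, Finset.card_univ, Fintype.card_fin, mul_pow]
      ring
    rw [h1] at hbound
    exact le_of_mul_le_mul_left hbound (by positivity)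
  have hcast : ‖(N - (n 0 : ℂ) * n 1 * n 2 / l : ℂ)‖ = |(N : ℝ) - (n 0 : ℝ) * n 1 * n 2 / l| := by
    rw [← Real.norm_eq_abs, ← Complex.norm_real]
    push_cast
    rfl
  rw [← hcast]
  refine hfin.trans ?_
  refine mul_le_mul_of_nonneg_right ?_ (by positivity)
  have h5 : L + 1 + Real.log l ≤ 2 * (L + Real.log l) := by linarith
  calc (L + 1 + Real.log l) ^ 3 ≤ (2 * (L + Real.log l)) ^ 3 :=
        pow_le_pow_left₀ (by linarith) h5 3
    _ = 8 * (L + Real.log l) ^ 3 := by ring

/-- crude upper bound in a symmetric box -/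
theorem eqd_crude (a : Idx 3 → ℤ) (C1 B l : ℕ) (hl : l.Prime) (h2 : l ≠ 2)
    (hd : ¬ (l : ℤ) ∣ (Hm a).det) (hB : B < l) :
    ((bx 3 (C1 * B)).filter fun u => (l : ℤ) ∣ qv a u).card ≤ (2 * C1 + 1) ^ 3 * (2 * l ^ 2) := by
  classical
  have hlF : Fact l.Prime := ⟨hl⟩
  set φ : ℤ →+* ZMod l := Int.castRingHom (ZMod l) with hφ
  set A : Idx 3 → ZMod l := fun p => φ (a p) with hA
  have hdet : (Hm A).det ≠ 0 := by
    rw [hA, Hm_map φ a]
    have h1 : ((Hm a).map φ).det = φ (Hm a).det := by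
      rw [RingHom.map_det]
      rfl
    rw [h1]
    intro h
    exact hd ((ZMod.intCast_zmod_eq_zero_iff_dvd _ _).1 h)
  have h0 := con0 l h2 A hdet
  refine (Finset.card_le_mul_card_image_of_maps_to
    (f := fun u : Fin 3 → ℤ => fun i => φ (u i))
    (t := (univ : Finset (Fin 3 → ZMod l)).filter (fun v => qv A v = 0)) ?_ ((2 * C1 + 1) ^ 3) ?_).trans
    (Nat.mul_le_mul_left _ h0)
  · intro u hu
    rw [mem_filter] at hu ⊢
    refine ⟨mem_univ _, ?_⟩
    have h1 : qv A (fun i => φ (u i)) = φ (qv a u) := by rw [qv_map]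
    rw [h1]
    exact (ZMod.intCast_zmod_eq_zero_iff_dvd _ _).2 hu.2
  · intro v _
    have h1 : (((bx 3 (C1 * B)).filter fun u => (l : ℤ) ∣ qv a u).filter
        fun u => (fun i => φ (u i)) = v) ⊆
        Fintype.piFinset fun i => (Icc (-((C1 * B : ℕ) : ℤ)) ((C1 * B : ℕ) : ℤ)).filter
          fun z => φ z = v i := by
      intro u hu
      rw [mem_filter, mem_filter, mem_bx] at hu
      rw [Fintype.mem_piFinset]
      intro i
      rw [mem_filter, mem_Icc]
      exact ⟨abs_le.1 (hu.1.1 i), congrFun hu.2 i⟩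
    refine (card_le_card h1).trans ?_
    rw [Fintype.card_piFinset]
    have h3 : ∀ i : Fin 3, ((Icc (-((C1 * B : ℕ) : ℤ)) ((C1 * B : ℕ) : ℤ)).filter
        fun z => φ z = v i).card ≤ 2 * C1 + 1 := by
      intro i
      have h4 : (Icc (-(C1 : ℤ)) C1).card = 2 * C1 + 1 := by
        rw [Int.card_Icc]
        omega
      rw [← h4]
      have hlp : (0 : ℤ) < l := by exact_mod_cast hl.pos
      have hBl : (B : ℤ) < l := by exact_mod_cast hB
      refine Finset.card_le_card_of_injOn (fun z => z / l) ?_ ?_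
      · intro z hz
        rw [mem_coe, mem_filter, mem_Icc] at hz
        rw [mem_coe, mem_Icc]
        push_cast at hz
        have e1 : (C1 : ℤ) * B ≤ C1 * l := mul_le_mul_of_nonneg_left hBl.le (by positivity)
        constructor
        · rw [Int.le_ediv_iff_mul_le hlp]
          nlinarith [hz.1.1]
        · refine Int.ediv_le_of_le_mul hlp ?_
          nlinarith [hz.1.2]
      · intro z hz z' hz' hzz
        rw [mem_coe, mem_filter] at hz hz'
        have e1 : φ z = φ z' := by rw [hz.2, hz'.2]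
        have e2 : (z : ZMod l) = (z' : ZMod l) := e1
        rw [ZMod.intCast_eq_intCast_iff] at e2
        have e3 : z % l = z' % l := e2
        have e4 := Int.emod_add_mul_ediv z l
        have e5 := Int.emod_add_mul_ediv z' l
        simp only at hzz
        rw [hzz, e3] at e4
        linarith
    calc ∏ i : Fin 3, _ ≤ ∏ i : Fin 3, (2 * C1 + 1) := Finset.prod_le_prod' fun i _ => h3 i
      _ = (2 * C1 + 1) ^ 3 := by simp

end Pool.Agent.H7.HP
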