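import Pool.Agent.H7.HP.Pts

set_option autoImplicit false
set_option linter.unusedSectionVars false

/-!
# [H7 HP SUMZ] sums over integer vectors, 60-110 lines

* `card_shell`: `nm z = m ≥ 1` means `z ∈ bx 3 m \ bx 3 (m-1)`: `(2m+1)^3 - (2m-1)^3 = 24 m^2 + 2`.
* `sum_inv`: group by `m = nm z`.
* `sum_tail`: `N m` = number of `z ∈ S`, `nm z = m`; `∑_{m ≤ E} N m ≤ C E^(3/2)`. Dyadic: the part `2^j z0 ≤ nm z < 2^(j+1) z0` is at most
  `C (2^(j+1) z0)^(3/2) / (2^j z0)^2 = C 2^(3/2) (2^j z0)^(-1/2)`, geometric series.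
* `Ioc_card`, `cls`: numbers of integers in an interval, in a residue class.
-/

namespace Pool.Agent.H7.HP

open Finset

private theorem z_mem {n T : ℕ} {z : Fin n → ℤ} : z ∈ bx n T ↔ nm z ≤ T := by
  unfold bx
  rw [Fintype.mem_piFinset]
  constructor
  · intro h
    exact nm_le fun i => abs_le.2 (mem_Icc.1 (h i))
  · intro h i
    rw [mem_Icc, ← abs_le]
    exact (le_nm z i).trans (by exact_mod_cast h)

private theorem z_card (n T : ℕ) : (bx n T).card = (2 * T + 1) ^ n := by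
  unfold bx
  rw [Fintype.card_piFinset]
  simp only [Int.card_Icc, prod_const, card_univ, Fintype.card_fin]
  congr 1
  omega

theorem card_shell (m : ℕ) (hm : 1 ≤ m) :
    ((bx 3 m).filter fun z => nm z = m).card = 24 * m ^ 2 + 2 := by
  obtain ⟨k, rfl⟩ : ∃ k, m = k + 1 := ⟨m - 1, by omega⟩
  have h1 : (bx 3 (k + 1)).filter (fun z => nm z = k + 1) = bx 3 (k + 1) \ bx 3 k := by
    ext z
    rw [mem_filter, mem_sdiff, z_mem, z_mem]
    omega
  have h2 : bx 3 k ⊆ bx 3 (k + 1) := fun z hz => by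
    rw [z_mem] at hz ⊢
    omega
  rw [h1, card_sdiff_of_subset h2, z_card, z_card]
  have e : (2 * (k + 1) + 1) ^ 3 = (24 * (k + 1) ^ 2 + 2) + (2 * k + 1) ^ 3 := by ring
  rw [e, Nat.add_sub_cancel]

theorem sum_inv (Z : ℕ) : ∑ z ∈ (bx 3 Z).filter (fun z => z ≠ 0), (1 : ℝ) / (nm z : ℝ) ^ 2 ≤
    26 * Z := by
  have hmaps : ∀ z ∈ (bx 3 Z).filter (fun z => z ≠ 0), nm z ∈ Icc 1 Z := by
    intro z hz
    rw [mem_filter, z_mem] at hz
    exact mem_Icc.2 ⟨nm_pos hz.2, hz.1⟩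
  rw [← sum_fiberwise_of_maps_to hmaps]
  have h1 : ∀ m ∈ Icc 1 Z, ∑ z ∈ ((bx 3 Z).filter (fun z => z ≠ 0)).filter (fun z => nm z = m),
      (1 : ℝ) / (nm z : ℝ) ^ 2 ≤ 26 := by
    intro m hm
    have hm1 := (mem_Icc.1 hm).1
    have hmR : (1 : ℝ) ≤ m := by exact_mod_cast hm1
    have hc : (((bx 3 Z).filter (fun z => z ≠ 0)).filter (fun z => nm z = m)).card ≤
        24 * m ^ 2 + 2 := by
      rw [← card_shell m hm1]
      refine card_le_card fun z hz => ?_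
      rw [mem_filter] at hz ⊢
      exact ⟨z_mem.2 hz.2.le, hz.2⟩
    have hc' : ((((bx 3 Z).filter (fun z => z ≠ 0)).filter (fun z => nm z = m)).card : ℝ) ≤
        24 * (m : ℝ) ^ 2 + 2 := by exact_mod_cast hc
    rw [sum_congr rfl (fun z hz => by rw [(mem_filter.1 hz).2] :
      ∀ z ∈ ((bx 3 Z).filter (fun z => z ≠ 0)).filter (fun z => nm z = m),
        (1 : ℝ) / (nm z : ℝ) ^ 2 = 1 / (m : ℝ) ^ 2), sum_const, nsmul_eq_mul, mul_one_div,
      div_le_iff₀ (by positivity)]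
    nlinarith
  refine (sum_le_sum h1).trans (le_of_eq ?_)
  rw [sum_const, Nat.card_Icc, nsmul_eq_mul, mul_comm]
  simp

private theorem z_step (P : (Fin 3 → ℤ) → Prop) [DecidablePred P] (Z : ℕ) :
    ((bx 3 (Z + 1)).filter P).card = ((bx 3 Z).filter P).card +
      ((bx 3 (Z + 1)).filter fun z => P z ∧ nm z = Z + 1).card := by
  rw [← card_union_of_disjoint]
  · congr 1
    ext z
    rw [mem_union, mem_filter, mem_filter, mem_filter, z_mem, z_mem]
    constructor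
    · rintro ⟨h1, h2⟩
      rcases Nat.lt_or_ge Z (nm z) with h | h
      · exact Or.inr ⟨h1, h2, by omega⟩
      · exact Or.inl ⟨h, h2⟩
    · rintro (⟨h1, h2⟩ | ⟨h1, h2, h3⟩)
      · exact ⟨by omega, h2⟩
      · exact ⟨h1, h2⟩
  · rw [disjoint_left]
    intro z h1 h2
    rw [mem_filter, z_mem] at h1 h2
    omega

private theorem z_step' (P : (Fin 3 → ℤ) → Prop) [DecidablePred P] (z0 Z : ℕ) (hz : z0 ≤ Z + 1) :
    ∑ z ∈ (bx 3 (Z + 1)).filter (fun z => P z ∧ z0 ≤ nm z), (1 : ℝ) / (nm z : ℝ) ^ 2 =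
      ∑ z ∈ (bx 3 Z).filter (fun z => P z ∧ z0 ≤ nm z), (1 : ℝ) / (nm z : ℝ) ^ 2 +
      (((bx 3 (Z + 1)).filter fun z => P z ∧ nm z = Z + 1).card : ℝ) * (1 / ((Z : ℝ) + 1) ^ 2) := by
  have h1 : (((bx 3 (Z + 1)).filter fun z => P z ∧ nm z = Z + 1).card : ℝ) *
      (1 / ((Z : ℝ) + 1) ^ 2) =
      ∑ z ∈ (bx 3 (Z + 1)).filter (fun z => P z ∧ nm z = Z + 1), (1 : ℝ) / (nm z : ℝ) ^ 2 := by
    rw [sum_congr rfl (fun z hz => by rw [(mem_filter.1 hz).2.2]; push_cast; rfl :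
      ∀ z ∈ (bx 3 (Z + 1)).filter (fun z => P z ∧ nm z = Z + 1),
        (1 : ℝ) / (nm z : ℝ) ^ 2 = 1 / ((Z : ℝ) + 1) ^ 2), sum_const, nsmul_eq_mul]
  rw [h1, ← sum_union]
  · refine sum_congr ?_ fun _ _ => rfl
    ext z
    rw [mem_union, mem_filter, mem_filter, mem_filter, z_mem, z_mem]
    constructor
    · rintro ⟨h1, h2, h3⟩
      rcases Nat.lt_or_ge Z (nm z) with h | h
      · exact Or.inr ⟨h1, h2, by omega⟩
      · exact Or.inl ⟨h, h2, h3⟩
    · rintro (⟨h1, h2, h3⟩ | ⟨h1, h2, h3⟩)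
      · exact ⟨by omega, h2, h3⟩
      · exact ⟨h1, h2, by omega⟩
  · rw [disjoint_left]
    intro z h1 h2
    rw [mem_filter, z_mem] at h1 h2
    omega

private theorem z_pow (x : ℝ) (hx : 0 < x) : x ^ (3 / 2 : ℝ) = x * √x := by
  rw [show (3 / 2 : ℝ) = 1 + 1 / 2 by norm_num, Real.rpow_add hx, Real.rpow_one,
    ← Real.sqrt_eq_rpow]

/-- the inequality of the induction step -/
private theorem z_ineq (z : ℝ) (hz : 1 ≤ z) : z * √z * (1 / z ^ 2 - 1 / (z + 1) ^ 2) ≤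
    4 * (1 / √z - 1 / √(z + 1)) := by
  have hz0 : 0 < z := by linarith
  set s := √z with hs
  set t := √(z + 1) with ht
  have hs0 : 0 < s := Real.sqrt_pos.2 hz0
  have ht0 : 0 < t := Real.sqrt_pos.2 (by linarith)
  have hs2 : s ^ 2 = z := Real.sq_sqrt hz0.le
  have ht2 : t ^ 2 = z + 1 := Real.sq_sqrt (by linarith)
  have hst : s ≤ t := Real.sqrt_le_sqrt (by linarith)
  have e1 : 1 / s - 1 / t = 1 / (s * t * (s + t)) := by
    have : (t - s) * (s + t) = 1 := by nlinarith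
    field_simp
    linarith
  have e2 : z * s * (1 / z ^ 2 - 1 / (z + 1) ^ 2) = (2 * z + 1) / (s * t ^ 4) := by
    rw [← ht2, ← hs2]
    have : t ^ 2 - s ^ 2 = 1 := by rw [ht2, hs2]; ring
    field_simp
    have h4 : t ^ 4 = s ^ 4 + 2 * s ^ 2 + 1 := by
      have : t ^ 2 = s ^ 2 + 1 := by linarith
      calc t ^ 4 = (t ^ 2) ^ 2 := by ring
        _ = _ := by rw [this]; ring
    nlinarith
  rw [e1, e2, mul_one_div]
  rw [div_le_div_iff₀ (by positivity) (by positivity)]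
  have h5 : (2 * z + 1) ≤ 2 * t ^ 2 := by rw [ht2]; linarith
  calc (2 * z + 1) * (s * t * (s + t)) ≤ 2 * t ^ 2 * (s * t * (t + t)) := by
        refine mul_le_mul h5 ?_ (by positivity) (by positivity)
        refine mul_le_mul_of_nonneg_left ?_ (by positivity)
        linarith
    _ = 4 * (s * t ^ 4) := by ring

theorem sum_tail (C : ℝ) (hC : 0 ≤ C) (P : (Fin 3 → ℤ) → Prop) [DecidablePred P]
    (h : ∀ E : ℕ, 1 ≤ E → (((bx 3 E).filter P).card : ℝ) ≤ C * (E : ℝ) ^ (3 / 2 : ℝ))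
    (z0 Z : ℕ) (hz : 1 ≤ z0) :
    ∑ z ∈ (bx 3 Z).filter (fun z => P z ∧ z0 ≤ nm z), (1 : ℝ) / (nm z : ℝ) ^ 2 ≤
      20 * C / (z0 : ℝ) ^ (1 / 2 : ℝ) := by
  have hz0 : (1 : ℝ) ≤ z0 := by exact_mod_cast hz
  rw [← Real.sqrt_eq_rpow]
  have hs0 : 0 < √(z0 : ℝ) := Real.sqrt_pos.2 (by linarith)
  rcases Nat.lt_or_ge Z z0 with hlt | hge
  · rw [filter_false_of_mem, sum_empty]
    · positivity
    · intro z hz' h'
      rw [z_mem] at hz'
      omega
  have key : ∑ z ∈ (bx 3 Z).filter (fun z => P z ∧ z0 ≤ nm z), (1 : ℝ) / (nm z : ℝ) ^ 2 -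
      (((bx 3 Z).filter P).card : ℝ) * (1 / (Z : ℝ) ^ 2) ≤
        4 * C * (1 / √(z0 : ℝ) - 1 / √(Z : ℝ)) := by
    induction Z, hge using Nat.le_induction with
    | base =>
      obtain ⟨k, rfl⟩ : ∃ k, z0 = k + 1 := ⟨z0 - 1, by omega⟩
      rw [z_step' P (k + 1) k le_rfl, z_step P k, sub_self, mul_zero, filter_false_of_mem,
        sum_empty]
      · push_cast
        have : 0 ≤ (((bx 3 k).filter P).card : ℝ) * (1 / ((k : ℝ) + 1) ^ 2) := by positivity
        linarith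
      · intro z hz' h'
        rw [z_mem] at hz'
        omega
    | succ n hn ih =>
      rw [z_step' P z0 n (by omega), z_step P n]
      push_cast
      have hn1 : (1 : ℝ) ≤ n := by exact_mod_cast hz.trans hn
      have h1 := h n (hz.trans hn)
      rw [z_pow _ (by linarith)] at h1
      have h2 := z_ineq n hn1
      have h3 : 0 ≤ 1 / (n : ℝ) ^ 2 - 1 / ((n : ℝ) + 1) ^ 2 := by
        rw [sub_nonneg]
        exact one_div_le_one_div_of_le (by positivity) (by nlinarith)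
      have h4 := mul_le_mul_of_nonneg_right h1 h3
      have h5 := mul_le_mul_of_nonneg_left h2 hC
      nlinarith
  have hZ1 : (1 : ℝ) ≤ Z := by exact_mod_cast hz.trans hge
  have hsZ : 0 < √(Z : ℝ) := Real.sqrt_pos.2 (by linarith)
  have hN : (((bx 3 Z).filter P).card : ℝ) * (1 / (Z : ℝ) ^ 2) ≤ C * (1 / √(Z : ℝ)) := by
    have h1 := h Z (hz.trans hge)
    rw [z_pow _ (by linarith)] at h1
    refine (mul_le_mul_of_nonneg_right h1 (by positivity)).trans (le_of_eq ?_)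
    have e : (Z : ℝ) = √(Z : ℝ) ^ 2 := (Real.sq_sqrt (by linarith)).symm
    have : C * ((Z : ℝ) * √(Z : ℝ)) * (1 / (Z : ℝ) ^ 2) =
        C * ((√(Z : ℝ) ^ 2) * √(Z : ℝ)) * (1 / (√(Z : ℝ) ^ 2) ^ 2) := by rw [← e]
    rw [this]
    field_simp
  have hzZ : 1 / √(Z : ℝ) ≤ 1 / √(z0 : ℝ) :=
    one_div_le_one_div_of_le hs0 (Real.sqrt_le_sqrt (by exact_mod_cast hge))
  have hz1 : 0 ≤ 1 / √(Z : ℝ) := by positivity
  have e : 20 * C / √(z0 : ℝ) = 20 * (C * (1 / √(z0 : ℝ))) := by ring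
  rw [e]
  have h6 := mul_le_mul_of_nonneg_left hzZ hC
  have h7 : 0 ≤ C * (1 / √(Z : ℝ)) := by positivity
  nlinarith

private theorem z_cls1 (C1 B l : ℕ) (hl : B < l) (c : ℤ) :
    ((Icc (-((C1 * B : ℕ) : ℤ)) ((C1 * B : ℕ) : ℤ)).filter fun t => (l : ℤ) ∣ t - c).card ≤
      2 * C1 + 1 := by
  have hl0 : (0 : ℤ) < l := by
    have : 0 < l := by omega
    exact_mod_cast this
  have h1 : ((Icc (-((C1 * B : ℕ) : ℤ)) ((C1 * B : ℕ) : ℤ)).filter
      fun t => (l : ℤ) ∣ t - c).card ≤ (Icc (0 : ℤ) (2 * C1)).card := by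
    refine card_le_card_of_injOn (fun t => (t + (C1 * B : ℕ)) / l) ?_ ?_
    · intro t ht
      rw [mem_coe, mem_filter, mem_Icc] at ht
      rw [mem_coe, mem_Icc]
      refine ⟨Int.ediv_nonneg (by omega) hl0.le, ?_⟩
      refine Int.ediv_le_of_le_mul hl0 ?_
      have hB : (B : ℤ) ≤ l := by exact_mod_cast hl.le
      have h2 : (t : ℤ) ≤ C1 * B := by
        have := ht.1.2
        push_cast at this
        exact this
      push_cast
      nlinarith
    · intro t ht t' ht' he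
      rw [mem_coe, mem_filter] at ht ht'
      simp only at he
      have hd : (l : ℤ) ∣ t - t' := by
        have := dvd_sub ht.2 ht'.2
        rwa [show t - c - (t' - c) = t - t' by ring] at this
      have hm : (t + (C1 * B : ℕ)) % l = (t' + (C1 * B : ℕ)) % l := by
        apply Int.emod_emod_of_dvd _ (dvd_refl _) |>.symm.trans
        rw [Int.emod_emod_of_dvd _ (dvd_refl _)]
        apply Int.ModEq.add_right
        exact (Int.modEq_iff_dvd.2 hd).symm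
      have a1 := Int.mul_ediv_add_emod (t + (C1 * B : ℕ)) l
      have a2 := Int.mul_ediv_add_emod (t' + (C1 * B : ℕ)) l
      rw [he, hm] at a1
      linarith
  refine h1.trans (le_of_eq ?_)
  rw [Int.card_Icc]
  omega

/-- the number of vectors in a residue class modulo `l` in a box of half-side `C1 B`, `l > B` -/
theorem cls (C1 B l : ℕ) (hl : B < l) (c : Fin 3 → ℤ) :
    ((bx 3 (C1 * B)).filter fun u => ∀ i, (l : ℤ) ∣ u i - c i).card ≤ (2 * C1 + 1) ^ 3 := by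
  have h1 : (bx 3 (C1 * B)).filter (fun u => ∀ i, (l : ℤ) ∣ u i - c i) =
      Fintype.piFinset fun i => (Icc (-((C1 * B : ℕ) : ℤ)) ((C1 * B : ℕ) : ℤ)).filter
        fun t => (l : ℤ) ∣ t - c i := by
    ext u
    unfold bx
    rw [mem_filter, Fintype.mem_piFinset, Fintype.mem_piFinset]
    simp only [mem_filter]
    exact ⟨fun h i => ⟨h.1 i, h.2 i⟩, fun h => ⟨fun i => (h i).1, fun i => (h i).2⟩⟩
  rw [h1, Fintype.card_piFinset]
  calc _ ≤ ∏ _i : Fin 3, (2 * C1 + 1) := prod_le_prod' fun i _ => z_cls1 C1 B l hl (c i)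
    _ = _ := by simp

/-- few large primes divide a nonzero integer -/
theorem primes_dvd (B m : ℕ) (n : ℤ) (hB : 2 ≤ B) (hn : n ≠ 0) (h : |n| < (B : ℤ) ^ m) :
    ((Icc 1 (4 * B)).filter fun l => l.Prime ∧ B < l ∧ (l : ℤ) ∣ n).card ≤ m := by
  set s := (Icc 1 (4 * B)).filter fun l => l.Prime ∧ B < l ∧ (l : ℤ) ∣ n with hs
  have h1 : ∏ l ∈ s, l ∣ n.natAbs := by
    refine prod_primes_dvd n.natAbs (fun l hl => ?_) (fun l hl => ?_)
    · exact (mem_filter.1 hl).2.1.prime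
    · exact Int.natCast_dvd.1 (mem_filter.1 hl).2.2.2
  have h2 : ∏ l ∈ s, l ≤ n.natAbs := Nat.le_of_dvd (Int.natAbs_pos.2 hn) h1
  have h3 : B ^ s.card ≤ ∏ l ∈ s, l := by
    rw [← prod_const]
    exact prod_le_prod' fun l hl => (mem_filter.1 hl).2.2.1.le
  have h4 : n.natAbs < B ^ m := by
    rw [Int.abs_eq_natAbs] at h
    exact_mod_cast h
  exact ((Nat.pow_lt_pow_iff_right (by omega)).1 ((h3.trans h2).trans_lt h4)).le

end Pool.Agent.H7.HP
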