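import Pool.Agent.H7.HP.CoreDefs
import Pool.Agent.H7.HP.Eqd
import Pool.Agent.H7.HP.Sumz

set_option autoImplicit false
set_option linter.unusedSectionVars false

/-!
# [H7 HP CEL] the number of u in a cell and a residue class with l ∣ h(u), 80-130 lines

PROOF. `m = M q^2` (not divisible by the prime `l > B`), `λ = q l s`. `u = c + m z`; `λ n_i ≤ c_i + m z_i < λ (n_i + 1)`: `z_i` runs through an interval of at least `λ/m - 1 ≥ λ/(2 m)... ` and at most
`λ/m + 1` integers: `n'_i ≥ λ/m - 1`. `eqd` with `L = q s/m + 1` (constant): at least `(λ/m - 1)^3/l - C (L + log l)^3 l^(3/2)`, `λ = q l s ≥ q s B`, `l ≤ 4B`: for `B ≥ B0(q, s, M)` this is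
`≥ (3/4) (λ/m)^3/l`. The number of `u` with all `u_i` divisible by `l`, `|u_i| ≤ q l (|n_i| + 1) s ≤ K q l`, is at most `(2 K q + 1)^3`, smaller than `(1/4) (λ/m)^3/l` for `B` large.
-/

namespace Pool.Agent.H7.HP

open Finset

/-- the main inequality -/
private theorem cel_ineq (κ C L D E x w : ℝ) (hκ : 0 < κ) (hC : 0 < C) (hL : 1 ≤ L) (hD : 0 ≤ D)
    (hE : E = 3 * κ ^ 2 + C * (L + 12) ^ 3 + D) (hw : 1 ≤ w) (hx : x = w ^ 12)
    (h1 : 1 ≤ κ * x) (h2 : 2 * E ≤ κ ^ 3 * w ^ 3) :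
    κ ^ 3 * x ^ 2 / 2 ≤ (κ * x - 1) ^ 3 / x - C * (L + Real.log x) ^ 3 * x ^ (3 / 2 : ℝ) - D := by
  have hw0 : 0 < w := by linarith
  have hx0 : 0 < x := by
    rw [hx]
    positivity
  have hx1 : 1 ≤ x := by
    rw [hx]
    exact one_le_pow₀ hw
  have hlog0 : 0 ≤ Real.log x := Real.log_nonneg hx1
  have hlog : Real.log x ≤ 12 * w := by
    rw [hx, Real.log_pow]
    have := Real.log_le_self hw0.le
    push_cast
    linarith
  have hpow : x ^ (3 / 2 : ℝ) = w ^ 18 := by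
    rw [hx, ← Real.rpow_natCast w 12, ← Real.rpow_mul hw0.le, ← Real.rpow_natCast w 18]
    norm_num
  have a1 : (κ * x - 1) ^ 3 / x ≥ κ ^ 3 * x ^ 2 - 3 * κ ^ 2 * x := by
    rw [ge_iff_le, le_div_iff₀ hx0]
    have e : (κ * x - 1) ^ 3 - (κ ^ 3 * x ^ 2 - 3 * κ ^ 2 * x) * x = 3 * (κ * x) - 1 := by ring
    linarith
  have a2 : C * (L + Real.log x) ^ 3 * x ^ (3 / 2 : ℝ) ≤ C * (L + 12) ^ 3 * w ^ 21 := by
    rw [hpow]
    have b1 : L + Real.log x ≤ (L + 12) * w := by nlinarith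
    have b2 : (L + Real.log x) ^ 3 ≤ ((L + 12) * w) ^ 3 := pow_le_pow_left₀ (by linarith) b1 3
    calc C * (L + Real.log x) ^ 3 * w ^ 18 ≤ C * ((L + 12) * w) ^ 3 * w ^ 18 := by
          refine mul_le_mul_of_nonneg_right (mul_le_mul_of_nonneg_left b2 hC.le) (by positivity)
      _ = C * (L + 12) ^ 3 * w ^ 21 := by ring
  have a3 : x ≤ w ^ 21 := by
    rw [hx]
    exact pow_le_pow_right₀ hw (by norm_num)
  have a4 : D ≤ D * w ^ 21 := by
    have : (1 : ℝ) ≤ w ^ 21 := one_le_pow₀ hw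
    nlinarith
  have a5 : x ^ 2 = w ^ 24 := by
    rw [hx]
    ring
  have a6 : E * w ^ 21 ≤ κ ^ 3 * x ^ 2 / 2 := by
    rw [a5]
    have : 2 * E * w ^ 21 ≤ κ ^ 3 * w ^ 3 * w ^ 21 := mul_le_mul_of_nonneg_right h2 (by positivity)
    have e : κ ^ 3 * w ^ 3 * w ^ 21 = κ ^ 3 * w ^ 24 := by ring
    linarith
  have a7 : 3 * κ ^ 2 * x ≤ 3 * κ ^ 2 * w ^ 21 := mul_le_mul_of_nonneg_left a3 (by positivity)
  have a8 : E * w ^ 21 = 3 * κ ^ 2 * w ^ 21 + C * (L + 12) ^ 3 * w ^ 21 + D * w ^ 21 := by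
    rw [hE]
    ring
  linarith

/-- `K`: bound for the cells, `(|n i| + 1) * s ≤ K` -/
theorem cel {a : Idx 3 → ℤ} (ha : (Hm a).det ≠ 0) (q M : ℕ) (hq : 1 ≤ q) (hM : 1 ≤ M) (s K : ℝ)
    (hs : 0 < s) : ∃ B0 : ℕ, ∀ B ≥ B0, ∀ l : ℕ, l.Prime → B < l → l ≤ 4 * B →
    ∀ (n c : Fin 3 → ℤ), (∀ i, ((|n i| : ℤ) + 1 : ℝ) * s ≤ K) → ∀ U : Finset (Fin 3 → ℤ),
    (∀ u : Fin 3 → ℤ, u ∈ U ↔ (∀ i, (q : ℝ) * l * s * n i ≤ u i ∧
      (u i : ℝ) < q * l * s * (n i + 1)) ∧ (∀ i, (M * q ^ 2 : ℤ) ∣ u i - c i) ∧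
      (l : ℤ) ∣ qv a u ∧ ¬ ∀ i, (l : ℤ) ∣ u i) →
      (q * l * s / (M * q ^ 2)) ^ 3 / (2 * l) ≤ (U.card : ℝ) := by
  classical
  obtain ⟨C, hC, hE⟩ := eqd
  have hq' : (1 : ℝ) ≤ q := by exact_mod_cast hq
  have hM' : (1 : ℝ) ≤ M := by exact_mod_cast hM
  set m : ℕ := M * q ^ 2 with hm
  have hm1 : 1 ≤ m := Nat.mul_pos hM (pow_pos hq 2)
  have hmR : (1 : ℝ) ≤ m := by exact_mod_cast hm1
  have hm0 : (0 : ℝ) < m := by linarith
  have hmR' : ((M : ℝ) * (q : ℝ) ^ 2) = (m : ℝ) := by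
    rw [hm]
    push_cast
    ring
  set κ : ℝ := q * s / m with hκ
  have hκ0 : 0 < κ := by positivity
  set L : ℝ := κ + 1 with hL
  set T : ℕ := ⌊|K| * q⌋₊ with hT
  set D : ℝ := (2 * (T : ℝ) + 1) ^ 3 with hD
  set E : ℝ := 3 * κ ^ 2 + C * (L + 12) ^ 3 + D with hEdef
  have hE0 : 0 < E := by positivity
  refine ⟨⌈(2 * E / κ ^ 3) ^ 4⌉₊ + ⌈1 / κ⌉₊ + (Hm a).det.natAbs + m + 2, ?_⟩
  intro B hB l hl hBl hl4 n c hn U hU
  have hlF : Fact l.Prime := ⟨hl⟩
  have hl1 : (1 : ℝ) ≤ l := by exact_mod_cast hl.one_lt.le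
  have hl0 : (0 : ℝ) < l := by linarith
  have hlZ : (0 : ℤ) < l := by exact_mod_cast hl.pos
  have hl2 : l ≠ 2 := by omega
  have hld : ¬ (l : ℤ) ∣ (Hm a).det := by
    intro h
    have h1 := Nat.le_of_dvd (Int.natAbs_pos.2 ha) (Int.natCast_dvd.1 h)
    omega
  have hlm : ¬ (l : ℤ) ∣ ((m : ℕ) : ℤ) := by
    intro h
    have h1 := Nat.le_of_dvd (by omega) (Int.natCast_dvd_natCast.1 h)
    omega
  -- the interval
  set lam : ℝ := (q : ℝ) * l * s with hlam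
  have hlam0 : 0 < lam := by positivity
  have hlk : lam / m = κ * l := by
    rw [hlam, hκ]
    ring
  set α : Fin 3 → ℤ := fun i => ⌈(lam * n i - c i) / m⌉ with hα
  set β : Fin 3 → ℤ := fun i => ⌈(lam * (n i + 1) - c i) / m⌉ with hβ
  have hαβ : ∀ i, α i ≤ β i := by
    intro i
    refine Int.ceil_mono ?_
    refine div_le_div_of_nonneg_right ?_ hm0.le
    nlinarith
  set N : Fin 3 → ℕ := fun i => (β i - α i).toNat with hN
  have hNz : ∀ i, ((N i : ℕ) : ℤ) = β i - α i := fun i =>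
    Int.toNat_of_nonneg (by have := hαβ i; omega)
  have hNr : ∀ i, ((N i : ℕ) : ℝ) = (β i : ℝ) - α i := by
    intro i
    have := hNz i
    exact_mod_cast this
  have hdiff : ∀ i, (lam * (n i + 1) - c i) / m - (lam * n i - c i) / m = κ * l := by
    intro i
    rw [← hlk]
    ring
  have hNlow : ∀ i, κ * l - 1 ≤ ((N i : ℕ) : ℝ) := by
    intro i
    rw [hNr]
    have h1 : (lam * (n i + 1) - c i) / m ≤ (β i : ℝ) := Int.le_ceil _
    have h2 : (α i : ℝ) < (lam * n i - c i) / m + 1 := Int.ceil_lt_add_one _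
    have h3 := hdiff i
    linarith
  have hNup : ∀ i, ((N i : ℕ) : ℝ) ≤ L * l := by
    intro i
    rw [hNr]
    have h1 : (β i : ℝ) < (lam * (n i + 1) - c i) / m + 1 := Int.ceil_lt_add_one _
    have h2 : (lam * n i - c i) / m ≤ (α i : ℝ) := Int.le_ceil _
    have h3 := hdiff i
    have h4 : L * l = κ * l + l := by
      rw [hL]
      ring
    linarith
  have hmemI : ∀ i (z : ℤ), (α i ≤ z ∧ z < α i + N i) ↔
      (lam * n i ≤ ((c i + (m : ℤ) * z : ℤ) : ℝ) ∧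
        ((c i + (m : ℤ) * z : ℤ) : ℝ) < lam * (n i + 1)) := by
    intro i z
    rw [hNz, add_sub_cancel, hα, hβ, Int.ceil_le, Int.lt_ceil, div_le_iff₀ hm0, lt_div_iff₀ hm0]
    push_cast
    constructor
    · rintro ⟨h1, h2⟩
      constructor <;> linarith
    · rintro ⟨h1, h2⟩
      constructor <;> linarith
  set Z := (Fintype.piFinset fun i => Ico (α i) (α i + N i)).filter
      fun z => (l : ℤ) ∣ qv a (fun i => c i + ((m : ℕ) : ℤ) * z i) with hZ
  have hmain := hE a l hl hl2 hld ((m : ℕ) : ℤ) hlm c α N L (by rw [hL]; linarith) hNup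
  -- the bad ones
  set Zb := Z.filter fun z => ∀ i, (l : ℤ) ∣ c i + ((m : ℕ) : ℤ) * z i with hZb
  set Zg := Z.filter fun z => ¬ ∀ i, (l : ℤ) ∣ c i + ((m : ℕ) : ℤ) * z i with hZg
  have hsplit : Zb.card + Zg.card = Z.card := card_filter_add_card_filter_not _
  have hinj : ∀ z z' : Fin 3 → ℤ, (∀ i, c i + ((m : ℕ) : ℤ) * z i = c i + ((m : ℕ) : ℤ) * z' i) →
      z = z' := by
    intro z z' h
    funext i
    have h1 := add_left_cancel (h i)
    have h2 : ((m : ℕ) : ℤ) ≠ 0 := by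
      have : (0 : ℤ) < m := by exact_mod_cast hm1
      exact this.ne'
    exact mul_left_cancel₀ h2 h1
  have hg : Zg.card ≤ U.card := by
    refine card_le_card_of_injOn (fun z i => c i + ((m : ℕ) : ℤ) * z i) ?_ ?_
    · intro z hz
      obtain ⟨hz1, hz2⟩ := mem_filter.1 (mem_coe.1 hz)
      obtain ⟨hz3, hz4⟩ := mem_filter.1 hz1
      rw [mem_coe, hU]
      refine ⟨fun i => ?_, fun i => ?_, hz4, hz2⟩
      · have h1 := Fintype.mem_piFinset.1 hz3 i
        rw [mem_Ico] at h1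
        exact (hmemI i (z i)).1 h1
      · refine ⟨z i, ?_⟩
        dsimp only
        rw [hm]
        push_cast
        ring
    · intro z _ z' _ h
      exact hinj z z' fun i => congrFun h i
  have hb : (Zb.card : ℝ) ≤ D := by
    have h1 : Zb.card ≤ (Fintype.piFinset fun _ : Fin 3 => Icc (-(T : ℤ)) T).card := by
      refine card_le_card_of_injOn (fun z i => (c i + ((m : ℕ) : ℤ) * z i) / l) ?_ ?_
      · intro z hz
        obtain ⟨hz1, hz2⟩ := mem_filter.1 (mem_coe.1 hz)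
        obtain ⟨hz3, hz4⟩ := mem_filter.1 hz1
        rw [mem_coe, Fintype.mem_piFinset]
        intro i
        obtain ⟨t, ht⟩ := hz2 i
        have h2 := Fintype.mem_piFinset.1 hz3 i
        rw [mem_Ico] at h2
        obtain ⟨h3, h4⟩ := (hmemI i (z i)).1 h2
        rw [ht] at h3 h4
        dsimp only
        rw [ht, Int.mul_ediv_cancel_left _ hlZ.ne']
        have h5 := hn i
        push_cast at h3 h4 h5
        have h6 : |(t : ℝ)| ≤ |K| * q := by
          have hni : -|(n i : ℝ)| ≤ n i := neg_abs_le _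
          have hni' : (n i : ℝ) ≤ |(n i : ℝ)| := le_abs_self _
          have h7 : (|(n i : ℝ)| + 1) * s ≤ |K| := h5.trans (le_abs_self K)
          have h8 : (|(n i : ℝ)| + 1) * s * q ≤ |K| * q :=
            mul_le_mul_of_nonneg_right h7 (by linarith)
          have e1 : (q : ℝ) * l * s * n i = l * ((q : ℝ) * s * n i) := by ring
          have e2 : (q : ℝ) * l * s * (n i + 1) = l * ((q : ℝ) * s * (n i + 1)) := by ring
          rw [hlam, e1] at h3
          rw [hlam, e2] at h4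
          have h9 : (q : ℝ) * s * n i ≤ t := le_of_mul_le_mul_left h3 hl0
          have h10 : (t : ℝ) < (q : ℝ) * s * (n i + 1) := lt_of_mul_lt_mul_left h4 hl0.le
          have hqs : 0 < (q : ℝ) * s := by positivity
          rw [abs_le]
          constructor
          · nlinarith
          · nlinarith
        rw [mem_Icc, ← abs_le]
        have h7 : |t| ≤ (T : ℤ) := by
          have h8 : ((|t| : ℤ) : ℝ) ≤ |K| * q := by
            push_cast
            exact h6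
          have h9 : (|t|).toNat ≤ T := by
            rw [hT]
            refine Nat.le_floor ?_
            have h10 : (((|t|).toNat : ℕ) : ℤ) = |t| := Int.toNat_of_nonneg (abs_nonneg t)
            have h11 : (((|t|).toNat : ℕ) : ℝ) = ((|t| : ℤ) : ℝ) := by exact_mod_cast h10
            rw [h11]
            exact h8
          have h10 : (((|t|).toNat : ℕ) : ℤ) = |t| := Int.toNat_of_nonneg (abs_nonneg t)
          rw [← h10]
          exact_mod_cast h9
        exact h7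
      · intro z hz z' hz' h
        obtain ⟨_, hz2⟩ := mem_filter.1 (mem_coe.1 hz)
        obtain ⟨_, hz2'⟩ := mem_filter.1 (mem_coe.1 hz')
        refine hinj z z' fun i => ?_
        have h1 := congrFun h i
        dsimp only at h1
        rw [← Int.ediv_mul_cancel (hz2 i), ← Int.ediv_mul_cancel (hz2' i), h1]
    have h2 : (Fintype.piFinset fun _ : Fin 3 => Icc (-(T : ℤ)) T).card = (2 * T + 1) ^ 3 := by
      rw [Fintype.card_piFinset, prod_const, card_univ, Fintype.card_fin, Int.card_Icc]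
      congr 1
      omega
    rw [h2] at h1
    rw [hD]
    exact_mod_cast h1
  -- the estimate
  set w : ℝ := (l : ℝ) ^ (1 / 12 : ℝ) with hw
  have hw1 : 1 ≤ w := Real.one_le_rpow hl1 (by norm_num)
  have hw12 : (l : ℝ) = w ^ 12 := by
    rw [hw, ← Real.rpow_natCast, ← Real.rpow_mul hl0.le]
    norm_num
  have hBr : (⌈(2 * E / κ ^ 3) ^ 4⌉₊ : ℝ) + (⌈1 / κ⌉₊ : ℝ) ≤ l := by
    have : ⌈(2 * E / κ ^ 3) ^ 4⌉₊ + ⌈1 / κ⌉₊ ≤ l := by omega
    exact_mod_cast this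
  have c1 : (2 * E / κ ^ 3) ^ 4 ≤ (⌈(2 * E / κ ^ 3) ^ 4⌉₊ : ℝ) := Nat.le_ceil _
  have c2 : 1 / κ ≤ (⌈1 / κ⌉₊ : ℝ) := Nat.le_ceil _
  have c3 : (0 : ℝ) ≤ (⌈(2 * E / κ ^ 3) ^ 4⌉₊ : ℝ) := by positivity
  have c4 : (0 : ℝ) ≤ (⌈1 / κ⌉₊ : ℝ) := by positivity
  have g1 : 1 ≤ κ * l := by
    have : 1 / κ ≤ l := by linarith
    rw [div_le_iff₀ hκ0] at this
    linarith
  have g2 : 2 * E ≤ κ ^ 3 * w ^ 3 := by
    have h1 : (2 * E / κ ^ 3) ^ 4 ≤ (w ^ 3) ^ 4 := by
      have e : (w ^ 3) ^ 4 = l := by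
        rw [hw12]
        ring
      rw [e]
      linarith
    have h2 : 2 * E / κ ^ 3 ≤ w ^ 3 := le_of_pow_le_pow_left₀ (by norm_num) (by positivity) h1
    rw [div_le_iff₀ (by positivity)] at h2
    linarith
  have hfin := cel_ineq κ C L D E l w hκ0 hC (by rw [hL]; linarith) (by positivity) hEdef hw1
    hw12 g1 g2
  have hprod : (κ * l - 1) ^ 3 ≤ ((N 0 : ℕ) : ℝ) * (N 1 : ℕ) * (N 2 : ℕ) := by
    have h0 : 0 ≤ κ * l - 1 := by linarith
    calc (κ * l - 1) ^ 3 = (κ * l - 1) * (κ * l - 1) * (κ * l - 1) := by ring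
      _ ≤ _ := mul_le_mul (mul_le_mul (hNlow 0) (hNlow 1) h0 (by positivity)) (hNlow 2) h0
          (by positivity)
  have hprod' : (κ * l - 1) ^ 3 / l ≤ ((N 0 : ℕ) : ℝ) * (N 1 : ℕ) * (N 2 : ℕ) / l :=
    div_le_div_of_nonneg_right hprod hl0.le
  have hlow := (abs_le.1 hmain).1
  have hcard : (Z.card : ℝ) ≤ D + U.card := by
    have h1 : (Z.card : ℝ) = Zb.card + Zg.card := by exact_mod_cast hsplit.symm
    have h2 : (Zg.card : ℝ) ≤ U.card := by exact_mod_cast hg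
    linarith
  have hgoal : ((q : ℝ) * l * s / (M * q ^ 2)) ^ 3 / (2 * l) = κ ^ 3 * (l : ℝ) ^ 2 / 2 := by
    rw [hmR', ← hlam, hlk]
    field_simp
  rw [hgoal]
  linarith

end Pool.Agent.H7.HP
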