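import Pool.Agent.H7.HP.Cmp

set_option autoImplicit false
set_option linter.unusedSectionVars false

/-!
# [H7 HP CHR] the charts, 80-130 lines

`gM a w`, `gI a w`: the matrices of `gam a w` and of its inverse `gami a w`. All identities are ring identities in the coordinates (`tl`, `mk5`, bilinearity of `pl`, `qv_add`).
* `ff_gam`: `x1 lam0 - h(u - x1 w) = x1 (x0 - pl(u,w) + h(w) x1) - h(u) + x1 pl(u,w) - x1^2 h(w) = x0 x1 - h(u)`.
* `lam0_shift`: `lam0 (w0 + P z) x = lam0 z (mk5 (lam0 w0 x) (P^2 x1) (P (u - x1 w0)))`.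
-/

namespace Pool.Agent.H7.HP

open Finset

section Ring

variable {R : Type*} [CommRing R]

/-- the second coordinate in the chart `w` -/
def lam0 (a : Idx 3 → R) (w : Fin 3 → R) (x : Fin 5 → R) : R :=
  x 0 - pl a (tl x) w + qv a w * x 1

/-- the chart `w`: an automorphism of `ff a` -/
def gam (a : Idx 3 → R) (w : Fin 3 → R) (x : Fin 5 → R) : Fin 5 → R :=
  mk5 (x 1) (lam0 a w x) fun i => tl x i - w i * x 1

/-- its inverse -/
def gami (a : Idx 3 → R) (w : Fin 3 → R) (y : Fin 5 → R) : Fin 5 → R :=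
  mk5 (y 1 + pl a (tl y) w + qv a w * y 0) (y 0) fun i => tl y i + w i * y 0

/-- matrix of `gam` -/
def gM (a : Idx 3 → R) (w : Fin 3 → R) : Matrix (Fin 5) (Fin 5) R :=
  Matrix.of fun i j => gam a w (Pi.single j 1) i

/-- matrix of `gami` -/
def gI (a : Idx 3 → R) (w : Fin 3 → R) : Matrix (Fin 5) (Fin 5) R :=
  Matrix.of fun i j => gami a w (Pi.single j 1) i

/-- the form `g` in the chart `w` -/
def gw (a : Idx 3 → R) (w : Fin 3 → R) (g : Idx 5 → R) : Idx 5 → R := cmp (gI a w) g

private theorem chr_pl {n : ℕ} (c : Idx n → R) (t : R) (y z x : Fin n → R) :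
    pl c (fun i => y i + t * z i) x = pl c y x + t * pl c z x := by
  rw [pl_comm, pl_add, pl_smul, pl_comm c x y, pl_comm c x z]

private theorem chr_pls {n : ℕ} (c : Idx n → R) (t : R) (y x : Fin n → R) :
    pl c (fun i => t * y i) x = t * pl c y x := by
  rw [pl_comm, pl_smul, pl_comm c x y]

private theorem chr_pl' {n : ℕ} (c : Idx n → R) (t : R) (y z x : Fin n → R) :
    pl c x (fun i => y i + t * z i) = pl c x y + t * pl c x z := by
  rw [pl_add, pl_smul]

private theorem chr_qv {n : ℕ} (c : Idx n → R) (t : R) (y z : Fin n → R) :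
    qv c (fun i => y i + t * z i) = qv c y + t ^ 2 * qv c z + t * pl c y z := by
  rw [qv_add, qv_smul, pl_smul]

private theorem chr_gam_lin (a : Idx 3 → R) (w : Fin 3 → R) (t : R) (x y : Fin 5 → R) :
    gam a w (fun i => x i + t * y i) = fun i => gam a w x i + t * gam a w y i := by
  have h1 : tl (fun i => x i + t * y i) = fun i => tl x i + t * tl y i := by
    funext i
    fin_cases i <;> rfl
  funext i
  unfold gam lam0
  rw [h1, chr_pl]
  fin_cases i
  · rfl
  · change x 0 + t * y 0 - (pl a (tl x) w + t * pl a (tl y) w) + qv a w * (x 1 + t * y 1) =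
      (x 0 - pl a (tl x) w + qv a w * x 1) + t * (y 0 - pl a (tl y) w + qv a w * y 1)
    ring
  · change tl x 0 + t * tl y 0 - w 0 * (x 1 + t * y 1) =
      (tl x 0 - w 0 * x 1) + t * (tl y 0 - w 0 * y 1)
    ring
  · change tl x 1 + t * tl y 1 - w 1 * (x 1 + t * y 1) =
      (tl x 1 - w 1 * x 1) + t * (tl y 1 - w 1 * y 1)
    ring
  · change tl x 2 + t * tl y 2 - w 2 * (x 1 + t * y 1) =
      (tl x 2 - w 2 * x 1) + t * (tl y 2 - w 2 * y 1)
    ring

private theorem chr_gami_lin (a : Idx 3 → R) (w : Fin 3 → R) (t : R) (x y : Fin 5 → R) :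
    gami a w (fun i => x i + t * y i) = fun i => gami a w x i + t * gami a w y i := by
  have h1 : tl (fun i => x i + t * y i) = fun i => tl x i + t * tl y i := by
    funext i
    fin_cases i <;> rfl
  funext i
  unfold gami
  rw [h1, chr_pl]
  fin_cases i
  · change x 1 + t * y 1 + (pl a (tl x) w + t * pl a (tl y) w) + qv a w * (x 0 + t * y 0) =
      (x 1 + pl a (tl x) w + qv a w * x 0) + t * (y 1 + pl a (tl y) w + qv a w * y 0)
    ring
  · rfl
  · change tl x 0 + t * tl y 0 + w 0 * (x 0 + t * y 0) =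
      (tl x 0 + w 0 * x 0) + t * (tl y 0 + w 0 * y 0)
    ring
  · change tl x 1 + t * tl y 1 + w 1 * (x 0 + t * y 0) =
      (tl x 1 + w 1 * x 0) + t * (tl y 1 + w 1 * y 0)
    ring
  · change tl x 2 + t * tl y 2 + w 2 * (x 0 + t * y 0) =
      (tl x 2 + w 2 * x 0) + t * (tl y 2 + w 2 * y 0)
    ring

/-- a function which is linear in this sense is given by its matrix -/
private theorem chr_mat (F : (Fin 5 → R) → (Fin 5 → R))
    (hF : ∀ (t : R) (x y : Fin 5 → R), F (fun i => x i + t * y i) = fun i => F x i + t * F y i)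
    (x : Fin 5 → R) :
    (Matrix.of fun i j => F (Pi.single j 1) i : Matrix (Fin 5) (Fin 5) R).mulVec x = F x := by
  have h0 : F 0 = 0 := by
    have h1 := hF 1 0 0
    have h2 : (fun i => (0 : Fin 5 → R) i + 1 * (0 : Fin 5 → R) i) = 0 := by
      funext i
      simp
    rw [h2] at h1
    funext i
    have h3 := congrFun h1 i
    simp only [one_mul] at h3
    have h4 : F 0 i + F 0 i = F 0 i + 0 := by rw [add_zero]; exact h3.symm
    exact add_left_cancel h4
  let L : (Fin 5 → R) →ₗ[R] (Fin 5 → R) :=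
    { toFun := F
      map_add' := by
        intro x y
        have h1 := hF 1 x y
        simp only [one_mul] at h1
        exact h1
      map_smul' := by
        intro t x
        have h1 := hF t 0 x
        rw [h0] at h1
        have h2 : (fun i => (0 : Fin 5 → R) i + t * x i) = t • x := by
          funext i
          simp
        rw [h2] at h1
        rw [h1]
        funext i
        simp }
  have h1 := LinearMap.pi_apply_eq_sum_univ L x
  have h2 : F x = ∑ j, x j • F (Pi.single j 1) := by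
    rw [show F x = L x from rfl, h1]
    refine Finset.sum_congr rfl fun j _ => ?_
    congr 1
    change F _ = F _
    congr 1
    funext k
    rw [Pi.single_apply]
    simp only [eq_comm]
  rw [h2]
  funext i
  rw [Matrix.mulVec, dotProduct, Finset.sum_apply]
  refine Finset.sum_congr rfl fun j _ => ?_
  rw [Matrix.of_apply, Pi.smul_apply, smul_eq_mul, mul_comm]

theorem gM_mulVec (a : Idx 3 → R) (w : Fin 3 → R) (x : Fin 5 → R) :
    (gM a w).mulVec x = gam a w x :=
  chr_mat (gam a w) (chr_gam_lin a w) x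

theorem gI_mulVec (a : Idx 3 → R) (w : Fin 3 → R) (x : Fin 5 → R) :
    (gI a w).mulVec x = gami a w x :=
  chr_mat (gami a w) (chr_gami_lin a w) x

theorem gami_gam (a : Idx 3 → R) (w : Fin 3 → R) (x : Fin 5 → R) :
    gami a w (gam a w x) = x := by
  have h0 : gam a w x 0 = x 1 := rfl
  have h1 : gam a w x 1 = lam0 a w x := rfl
  have h2 : tl (gam a w x) = fun i => tl x i + (-x 1) * w i := by
    funext i
    unfold gam
    rw [tl_mk5]
    ring
  unfold gami
  rw [h0, h1, h2, chr_pl, pl_self]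
  unfold lam0
  conv_rhs => rw [← mk5_tl x]
  congr 1
  · ring
  · funext i
    ring

theorem gam_gami (a : Idx 3 → R) (w : Fin 3 → R) (x : Fin 5 → R) :
    gam a w (gami a w x) = x := by
  have h0 : gami a w x 0 = x 1 + pl a (tl x) w + qv a w * x 0 := rfl
  have h1 : gami a w x 1 = x 0 := rfl
  have h2 : tl (gami a w x) = fun i => tl x i + (x 0) * w i := by
    funext i
    unfold gami
    rw [tl_mk5]
    ring
  unfold gam lam0
  rw [h0, h1, h2, chr_pl, pl_self]
  conv_rhs => rw [← mk5_tl x]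
  congr 1
  · ring
  · funext i
    ring

theorem gMI (a : Idx 3 → R) (w : Fin 3 → R) : gM a w * gI a w = 1 := by
  refine Matrix.ext_of_mulVec_single fun i => ?_
  rw [← Matrix.mulVec_mulVec, gI_mulVec, gM_mulVec, gam_gami, Matrix.one_mulVec]

theorem gIM (a : Idx 3 → R) (w : Fin 3 → R) : gI a w * gM a w = 1 := by
  refine Matrix.ext_of_mulVec_single fun i => ?_
  rw [← Matrix.mulVec_mulVec, gM_mulVec, gI_mulVec, gami_gam, Matrix.one_mulVec]

theorem ff_gam (a : Idx 3 → R) (w : Fin 3 → R) (x : Fin 5 → R) :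
    ff a (gam a w x) = ff a x := by
  unfold gam
  rw [ff_mk5]
  have h2 : (fun i => tl x i - w i * x 1) = fun i => tl x i + (-x 1) * w i := by
    funext i
    ring
  rw [h2, chr_qv]
  unfold lam0 ff
  ring

theorem ff_gami (a : Idx 3 → R) (w : Fin 3 → R) (x : Fin 5 → R) :
    ff a (gami a w x) = ff a x := by
  rw [← ff_gam a w (gami a w x), gam_gami]

theorem qv_gw' (a : Idx 3 → R) (w : Fin 3 → R) (g : Idx 5 → R) (y : Fin 5 → R) :
    qv (gw a w g) y = qv g (gami a w y) := by
  unfold gw
  rw [qv_cmp, gI_mulVec]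

theorem qv_gw (a : Idx 3 → R) (w : Fin 3 → R) (g : Idx 5 → R) (x : Fin 5 → R) :
    qv (gw a w g) (gam a w x) = qv g x := by
  rw [qv_gw', gami_gam]

theorem gw_bij (a : Idx 3 → R) (w : Fin 3 → R) : Function.Bijective (gw a w) := by
  refine Function.bijective_iff_has_inverse.2 ⟨cmp (gM a w), fun g => ?_, fun g => ?_⟩
  · unfold gw
    rw [cmp_cmp, gIM, cmp_one]
  · unfold gw
    rw [cmp_cmp, gMI, cmp_one]

theorem gw_map {S : Type*} [CommRing S] (φ : R →+* S) (a : Idx 3 → R) (w : Fin 3 → R)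
    (g : Idx 5 → R) : gw (fun p => φ (a p)) (fun i => φ (w i)) (fun p => φ (g p)) =
      fun p => φ (gw a w g p) := by
  have h1 : gI (fun p => φ (a p)) (fun i => φ (w i)) = (gI a w).map φ := by
    ext i j
    have hs : (Pi.single j 1 : Fin 5 → S) = fun k => φ ((Pi.single j 1 : Fin 5 → R) k) := by
      funext k
      rw [Pi.single_apply, Pi.single_apply]
      split_ifs
      · exact (map_one φ).symm
      · exact (map_zero φ).symm
    rw [Matrix.map_apply]
    unfold gI
    rw [Matrix.of_apply, Matrix.of_apply, hs]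
    set e : Fin 5 → R := Pi.single j 1 with he
    have ht : tl (fun k => φ (e k)) = fun k => φ (tl e k) := by
      funext k
      fin_cases k <;> rfl
    unfold gami
    rw [ht, ← pl_map, ← qv_map]
    fin_cases i
    · change φ (e 1) + φ (pl a (tl e) w) + φ (qv a w) * φ (e 0) =
        φ (e 1 + pl a (tl e) w + qv a w * e 0)
      rw [map_add, map_add, map_mul]
    · rfl
    · change φ (tl e 0) + φ (w 0) * φ (e 0) = φ (tl e 0 + w 0 * e 0)
      rw [map_add, map_mul]
    · change φ (tl e 1) + φ (w 1) * φ (e 0) = φ (tl e 1 + w 1 * e 0)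
      rw [map_add, map_mul]
    · change φ (tl e 2) + φ (w 2) * φ (e 0) = φ (tl e 2 + w 2 * e 0)
      rw [map_add, map_mul]
  unfold gw
  rw [h1, cmp_map]

theorem lam0_shift (a : Idx 3 → R) (w0 z : Fin 3 → R) (P : R) (x : Fin 5 → R) :
    lam0 a (fun i => w0 i + P * z i) x =
      lam0 a z (mk5 (lam0 a w0 x) (P ^ 2 * x 1) fun i => P * (tl x i - w0 i * x 1)) := by
  have h0 : ∀ (x0 x1 : R) (u : Fin 3 → R), mk5 x0 x1 u 0 = x0 := fun _ _ _ => rfl
  have h1 : ∀ (x0 x1 : R) (u : Fin 3 → R), mk5 x0 x1 u 1 = x1 := fun _ _ _ => rfl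
  have h2 : (fun i => P * (tl x i - w0 i * x 1)) =
      fun i => P * (fun i => tl x i + (-x 1) * w0 i) i := by
    funext i
    ring
  unfold lam0
  rw [h0, h1, tl_mk5, chr_pl', chr_qv, h2,
    chr_pls a P (fun i => tl x i + (-x 1) * w0 i) z, chr_pl]
  ring

/-- the ten basic charts -/
def Z0 (R : Type*) [CommRing R] [DecidableEq R] : Finset (Fin 3 → R) :=
  {0} ∪ univ.image (fun i => Pi.single i 1) ∪ univ.image (fun i => Pi.single i (-1)) ∪
    univ.image fun p : Fin 3 × Fin 3 => Pi.single p.1 1 + Pi.single p.2 1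

end Ring

end Pool.Agent.H7.HP
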