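import Pool.Agent.H7.HP.Chr

set_option autoImplicit false
set_option linter.unusedSectionVars false

/-!
# [H7 HP CHZ] some chart has a large second coordinate, 90-140 lines

* `z0_dvd`: with `d ∣ lam0 w x` for all `w ∈ Z0`: `w = 0`: `d ∣ x0`; `w = ± e_i`: the difference is `2 pl(u, e_i)`, the sum `2 x0 + 2 h(e_i) x1`, so `d ∣ Hm i i * x1` (`Hm_diag`) and `d ∣ 2 (H u)_i`; `w = e_i + e_j`:
`lam0 (e_i+e_j) - lam0 e_i - lam0 e_j + lam0 0 = Hm i j * x1`. Then `det * x1 = ∑_j (Hm i j x1) adj j i` and `2 det u = adj (2 H u)` (`Matrix.mul_adjugate`).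
* `z0_real`: the same with estimates: `m = max |lam0 w x|`: `|x0| ≤ m`, `|x1| |Hm i j| ≤ 4 m` and some `|Hm i j| ≥ 1` is not needed: use the adjugate: `|det| |x1| ≤ 12 m |adj|`, `2 |det| |u_i| ≤ 3 |adj| 2 m`; for `w0`, `P`: apply
it to the vector of `lam0_shift` (`P ≥ 1`) and bound `x` by this vector: `x0 = lam0 w0 x + pl(u, w0) - h(w0) x1`, `u = (P(u - x1 w0))/P + x1 w0`.
-/

namespace Pool.Agent.H7.HP

open Finset

private theorem hm_x1 {R : Type*} [CommRing R] (a : Idx 3 → R) (x : Fin 5 → R) (d : R)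
    (h0 : d ∣ lam0 a 0 x) (h1 : ∀ i, d ∣ lam0 a (Pi.single i 1) x)
    (h3 : ∀ i j, d ∣ lam0 a (Pi.single i 1 + Pi.single j 1) x) (i j : Fin 3) :
    d ∣ Hm a i j * x 1 := by
  have e : lam0 a (Pi.single i 1 + Pi.single j 1) x - lam0 a (Pi.single i 1) x -
      lam0 a (Pi.single j 1) x + lam0 a 0 x = Hm a i j * x 1 := by
    unfold lam0 Hm
    rw [Matrix.of_apply]
    have a1 : (Pi.single i 1 + Pi.single j 1 : Fin 3 → R) =
        fun k => (Pi.single i 1 : Fin 3 → R) k + (Pi.single j 1 : Fin 3 → R) k := rfl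
    have a2 : (0 : Fin 3 → R) = fun _ => 0 := rfl
    have a3 : pl a (tl x) (fun _ => 0) = 0 := by
      have := pl_smul a 0 (tl x) (fun _ => 0)
      simpa using this
    rw [a1, qv_add, pl_add, a2, qv_zero, a3]
    ring
  rw [← e]
  exact dvd_add (dvd_sub (dvd_sub (h3 i j) (h1 i)) (h1 j)) h0

private theorem hm_u {R : Type*} [CommRing R] (a : Idx 3 → R) (x : Fin 5 → R) (d : R)
    (h1 : ∀ i, d ∣ lam0 a (Pi.single i 1) x)
    (h2 : ∀ i, d ∣ lam0 a (Pi.single i (-1)) x) (i : Fin 3) :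
    d ∣ 2 * ∑ j, Hm a i j * tl x j := by
  have e : lam0 a (Pi.single i (-1)) x - lam0 a (Pi.single i 1) x =
      2 * ∑ j, Hm a i j * tl x j := by
    unfold lam0
    have a1 : (Pi.single i (-1) : Fin 3 → R) =
        fun k => (-1) * (Pi.single i 1 : Fin 3 → R) k := by
      funext k
      rw [Pi.single_apply, Pi.single_apply]
      split_ifs <;> ring
    have a2 : pl a (tl x) (Pi.single i 1) = ∑ j, Hm a i j * tl x j := by
      rw [pl_comm, pl_Hm, sum_eq_single i]
      · refine sum_congr rfl fun j _ => ?_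
        rw [Pi.single_eq_same, one_mul]
      · intro k _ hk
        refine sum_eq_zero fun j _ => ?_
        rw [Pi.single_eq_of_ne hk, zero_mul, zero_mul]
      · intro h
        exact absurd (mem_univ _) h
    rw [a1, qv_smul, pl_smul, a2]
    ring
  rw [← e]
  exact dvd_sub (h2 i) (h1 i)

theorem z0_dvd {R : Type*} [CommRing R] (a : Idx 3 → R) (x : Fin 5 → R) (d : R)
    (h0 : d ∣ lam0 a 0 x) (h1 : ∀ i, d ∣ lam0 a (Pi.single i 1) x)
    (h2 : ∀ i, d ∣ lam0 a (Pi.single i (-1)) x)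
    (h3 : ∀ i j, d ∣ lam0 a (Pi.single i 1 + Pi.single j 1) x) (k : Fin 5) :
    d ∣ 2 * (Hm a).det * x k := by
  have b0 : d ∣ x 0 := by
    have e : lam0 a 0 x = x 0 := by
      unfold lam0
      have a2 : (0 : Fin 3 → R) = fun _ => 0 := rfl
      have a3 : pl a (tl x) (fun _ => 0) = 0 := by
        have := pl_smul a 0 (tl x) (fun _ => 0)
        simpa using this
      rw [a2, qv_zero, a3]
      ring
    rwa [e] at h0
  have b1 : d ∣ (Hm a).det * x 1 := by
    have e : (Hm a).det = ∑ j, Hm a 0 j * (Hm a).adjugate j 0 := by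
      have := congrFun (congrFun (Matrix.mul_adjugate (Hm a)) 0) 0
      rw [Matrix.mul_apply] at this
      rw [this]
      simp
    rw [e, sum_mul]
    refine dvd_sum fun j _ => ?_
    have h4 := hm_x1 a x d h0 h1 h3 0 j
    have h5 : Hm a 0 j * (Hm a).adjugate j 0 * x 1 = Hm a 0 j * x 1 * (Hm a).adjugate j 0 := by
      ring
    rw [h5]
    exact h4.mul_right _
  have bu : ∀ k : Fin 3, d ∣ 2 * (Hm a).det * tl x k := by
    intro k
    have e : (Hm a).det * tl x k = ∑ i, (Hm a).adjugate k i * ∑ j, Hm a i j * tl x j := by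
      have h4 : ((Hm a).adjugate * Hm a).mulVec (tl x) = (Hm a).det • tl x := by
        rw [Matrix.adjugate_mul, Matrix.smul_mulVec, Matrix.one_mulVec]
      have h5 := congrFun h4 k
      rw [← Matrix.mulVec_mulVec] at h5
      exact h5.symm
    have e2 : 2 * (Hm a).det * tl x k =
        ∑ i, (Hm a).adjugate k i * (2 * ∑ j, Hm a i j * tl x j) := by
      rw [mul_assoc, e, mul_sum]
      exact sum_congr rfl fun i _ => by ring
    rw [e2]
    exact dvd_sum fun i _ => (hm_u a x d h1 h2 i).mul_left _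
  fin_cases k
  · exact b0.mul_left _
  · change d ∣ 2 * (Hm a).det * x 1
    rw [mul_assoc]
    exact b1.mul_left _
  · exact bu 0
  · exact bu 1
  · exact bu 2

theorem gw_bd (a : Idx 3 → ℤ) (w : Fin 3 → ℤ) : ∃ C : ℕ, 0 < C ∧
    ∀ (A : ℕ) (g : Idx 5 → ℤ), g ∈ bf 5 A → gw a w g ∈ bf 5 (C * A) :=
  cmp_bd (gI a w)

theorem gami_bd (a : Idx 3 → ℤ) (w : Fin 3 → ℤ) : ∃ C : ℝ, 0 < C ∧
    ∀ (T : ℝ) (x : Fin 5 → ℤ), (∀ i, |(x i : ℝ)| ≤ T) →
      ∀ i, |((gami a w x i : ℤ) : ℝ)| ≤ C * T := by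
  refine ⟨∑ i, ∑ j, |((gI a w i j : ℤ) : ℝ)| + 1, by positivity, fun T x hx i => ?_⟩
  have hT : 0 ≤ T := (abs_nonneg _).trans (hx 0)
  rw [← gI_mulVec]
  have e : (((gI a w).mulVec x i : ℤ) : ℝ) = ∑ j, ((gI a w i j : ℤ) : ℝ) * ((x j : ℤ) : ℝ) := by
    have : (gI a w).mulVec x i = ∑ j, gI a w i j * x j := rfl
    rw [this]
    push_cast
    rfl
  rw [e]
  refine (abs_sum_le_sum_abs _ _).trans ?_
  have h1 : ∑ j, |((gI a w i j : ℤ) : ℝ) * ((x j : ℤ) : ℝ)| ≤
      (∑ j, |((gI a w i j : ℤ) : ℝ)|) * T := by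
    rw [sum_mul]
    refine sum_le_sum fun j _ => ?_
    rw [abs_mul]
    exact mul_le_mul_of_nonneg_left (hx j) (abs_nonneg _)
  refine h1.trans (mul_le_mul_of_nonneg_right ?_ hT)
  have h2 : ∑ j, |((gI a w i j : ℤ) : ℝ)| ≤ ∑ i, ∑ j, |((gI a w i j : ℤ) : ℝ)| :=
    single_le_sum (f := fun i => ∑ j, |((gI a w i j : ℤ) : ℝ)|)
      (fun _ _ => sum_nonneg fun _ _ => abs_nonneg _) (mem_univ i)
  linarith

/-- `lam0` is linear in `x` -/
private def lamL (a : Idx 3 → ℝ) (w : Fin 3 → ℝ) : (Fin 5 → ℝ) →ₗ[ℝ] ℝ where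
  toFun x := lam0 a w x
  map_add' x y := by
    unfold lam0
    have h : tl (x + y) = fun i => tl x i + tl y i := by
      funext i
      fin_cases i <;> rfl
    rw [h, pl_comm, pl_add, pl_comm a w, pl_comm a w, Pi.add_apply, Pi.add_apply]
    ring
  map_smul' t x := by
    unfold lam0
    have h : tl (t • x) = fun i => t * tl x i := by
      funext i
      fin_cases i <;> rfl
    rw [h, pl_comm, pl_smul, pl_comm a w, Pi.smul_apply, Pi.smul_apply, smul_eq_mul, smul_eq_mul,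
      RingHom.id_apply, smul_eq_mul]
    ring

theorem z0_real {a : Idx 3 → ℤ} (ha : (Hm a).det ≠ 0) (w0 : Fin 3 → ℤ) (P : ℕ) (hP : 0 < P) :
    ∃ c : ℝ, 0 < c ∧ ∀ x : Fin 5 → ℝ, ∃ z ∈ Z0 ℤ, ∀ k,
      c * |x k| ≤ |lam0 (fun p => (a p : ℝ)) (fun i => ((w0 i + P * z i : ℤ) : ℝ)) x| := by
  set A : Idx 3 → ℝ := fun p => (a p : ℝ) with hA
  set φ : ℤ →+* ℝ := Int.castRingHom ℝ with hφ
  have hdet : (Hm A).det ≠ 0 := by
    have h1 : Hm A = (Hm a).map φ := Hm_map φ a
    rw [h1]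
    have h2 : ((Hm a).map φ).det = φ (Hm a).det := by
      rw [RingHom.map_det]
      rfl
    rw [h2]
    intro h
    have h' : (((Hm a).det : ℤ) : ℝ) = 0 := h
    exact ha (by exact_mod_cast h')
  set Φ : (Fin 5 → ℝ) →ₗ[ℝ] ((Z0 ℤ : Finset (Fin 3 → ℤ)) → ℝ) :=
    LinearMap.pi fun z => lamL A (fun i => ((w0 i + P * (z : Fin 3 → ℤ) i : ℤ) : ℝ)) with hΦ
  have hΦa : ∀ x z, Φ x z = lam0 A (fun i => ((w0 i + P * (z : Fin 3 → ℤ) i : ℤ) : ℝ)) x :=
    fun x z => rfl
  have hP' : (P : ℝ) ≠ 0 := by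
    have : (0 : ℝ) < P := by exact_mod_cast hP
    exact this.ne'
  have hker : LinearMap.ker Φ = ⊥ := by
    rw [LinearMap.ker_eq_bot']
    intro x hx
    set w : Fin 3 → ℝ := fun i => (w0 i : ℝ) with hw
    set y : Fin 5 → ℝ := mk5 (lam0 A w x) ((P : ℝ) ^ 2 * x 1)
      (fun i => (P : ℝ) * (tl x i - w i * x 1)) with hy
    have h1 : ∀ z ∈ Z0 ℤ, lam0 A (fun i => (z i : ℝ)) y = 0 := by
      intro z hz
      have h2 := congrFun hx ⟨z, hz⟩
      rw [hΦa] at h2
      have h3 : (fun i => ((w0 i + P * z i : ℤ) : ℝ)) = fun i => w i + (P : ℝ) * (z i : ℝ) := by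
        funext i
        rw [hw]
        push_cast
        rfl
      dsimp only at h2
      rw [h3, lam0_shift] at h2
      exact h2
    have hs : ∀ (i : Fin 3) (t : ℤ), (fun k => (((Pi.single i t : Fin 3 → ℤ) k : ℤ) : ℝ)) =
        Pi.single i (t : ℝ) := by
      intro i t
      funext k
      rw [Pi.single_apply, Pi.single_apply]
      split_ifs <;> simp
    have g0 : lam0 A 0 y = 0 := by
      have := h1 0 (by simp [Z0])
      have h4 : (fun i => (((0 : Fin 3 → ℤ) i : ℤ) : ℝ)) = 0 := by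
        funext i
        simp
      rwa [h4] at this
    have g1 : ∀ i, lam0 A (Pi.single i 1) y = 0 := by
      intro i
      have := h1 (Pi.single i 1) (by simp [Z0])
      rw [hs, Int.cast_one] at this
      exact this
    have g2 : ∀ i, lam0 A (Pi.single i (-1)) y = 0 := by
      intro i
      have := h1 (Pi.single i (-1)) (by simp [Z0])
      rw [hs, Int.cast_neg, Int.cast_one] at this
      exact this
    have g3 : ∀ i j, lam0 A (Pi.single i 1 + Pi.single j 1) y = 0 := by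
      intro i j
      have := h1 (Pi.single i 1 + Pi.single j 1) (by simp [Z0])
      have h4 : (fun k => (((Pi.single i 1 + Pi.single j 1 : Fin 3 → ℤ) k : ℤ) : ℝ)) =
          Pi.single i 1 + Pi.single j 1 := by
        have e1 := hs i 1
        have e2 := hs j 1
        rw [Int.cast_one] at e1 e2
        rw [← e1, ← e2]
        funext k
        simp
      rwa [h4] at this
    have h5 := z0_dvd A y 0 (by rw [g0]) (fun i => by rw [g1]) (fun i => by rw [g2])
      (fun i j => by rw [g3])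
    have h6 : ∀ k, y k = 0 := by
      intro k
      have := zero_dvd_iff.1 (h5 k)
      rcases mul_eq_zero.1 this with h | h
      · exact absurd h (mul_ne_zero two_ne_zero hdet)
      · exact h
    have x1 : x 1 = 0 := by
      have := h6 1
      rw [hy] at this
      change (P : ℝ) ^ 2 * x 1 = 0 at this
      rcases mul_eq_zero.1 this with h | h
      · exact absurd h (pow_ne_zero 2 hP')
      · exact h
    have xu : ∀ i, tl x i = 0 := by
      intro i
      have h7 : (P : ℝ) * (tl x i - w i * x 1) = 0 := by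
        have h8 := congrFun (tl_mk5 (lam0 A w x) ((P : ℝ) ^ 2 * x 1)
          (fun i => (P : ℝ) * (tl x i - w i * x 1))) i
        rw [← hy] at h8
        rw [← h8]
        fin_cases i
        · exact h6 2
        · exact h6 3
        · exact h6 4
      rw [x1, mul_zero, sub_zero] at h7
      rcases mul_eq_zero.1 h7 with h | h
      · exact absurd h hP'
      · exact h
    have x0 : x 0 = 0 := by
      have h7 := h6 0
      rw [hy] at h7
      change lam0 A w x = 0 at h7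
      unfold lam0 at h7
      have h8 : tl x = fun _ => 0 := funext xu
      have h9 : pl A (fun _ => 0) w = 0 := by
        rw [pl_comm]
        have := pl_smul A 0 w (fun _ => 0)
        simpa using this
      rw [x1, h8, h9, mul_zero, sub_zero, add_zero] at h7
      exact h7
    funext k
    fin_cases k
    · exact x0
    · exact x1
    · exact xu 0
    · exact xu 1
    · exact xu 2
  obtain ⟨K, hK0, hK⟩ := Φ.exists_antilipschitzWith hker
  have hK0' : (0 : ℝ) < K := by exact_mod_cast hK0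
  refine ⟨(K : ℝ)⁻¹, by positivity, fun x => ?_⟩
  have hne : Nonempty (Z0 ℤ : Finset (Fin 3 → ℤ)) := ⟨⟨0, by simp [Z0]⟩⟩
  obtain ⟨z, hz⟩ : ∃ z : (Z0 ℤ : Finset (Fin 3 → ℤ)), ‖Φ x‖ ≤ ‖Φ x z‖ := by
    obtain ⟨z, hz⟩ := Finite.exists_max (fun z => ‖Φ x z‖)
    exact ⟨z, (pi_norm_le_iff_of_nonempty _).2 hz⟩
  refine ⟨z, z.2, fun k => ?_⟩
  have h1 : ‖x‖ ≤ K * ‖Φ x‖ := ZeroHomClass.bound_of_antilipschitz Φ hK x
  have h2 : |x k| ≤ ‖x‖ := norm_le_pi_norm x k
  rw [inv_mul_le_iff₀ hK0']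
  calc |x k| ≤ K * ‖Φ x‖ := h2.trans h1
    _ ≤ K * ‖Φ x z‖ := mul_le_mul_of_nonneg_left hz hK0'.le
    _ = _ := by rw [hΦa, Real.norm_eq_abs]

end Pool.Agent.H7.HP
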