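import Pool.Agent.H7.HP.Frm

set_option autoImplicit false
set_option linter.unusedSectionVars false

/-!
# [H7 HP CMP] composition of a quadratic form with a linear map, 60-100 lines

`cmp T g`: the coefficients of `x ↦ g(T x)`. `qv_cmp`: `T x = ∑ x_i T e_i`, expand `qv g (∑ x_i v_i) = ∑_{i} x_i^2 qv g v_i + ∑_{i<j} x_i x_j pl g v_i v_j` (induction, or: the function
`x ↦ qv g (T x)` and compare by `qv_add`, `qv_smul`; a good way: first prove `qv_sum`: for a finite family). `pl_cmp`: from `pl g x y = qv g (x + y) - qv g x - qv g y`.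
`cmp_cmp`, `cmp_one`: the coefficients of `c` are `qv c e_i` (`i = j`) and `pl c e_i e_j` (`i < j`).
`cmp_bd`: `abs_qv_le`, `abs_pl_le`.
-/

namespace Pool.Agent.H7.HP

open Finset

section Ring

variable {R : Type*} [CommRing R] {n : ℕ}

/-- the coefficients of `x ↦ g (T x)` -/
def cmp (T : Matrix (Fin n) (Fin n) R) (g : Idx n → R) : Idx n → R := fun p =>
  if p.1.1 = p.1.2 then qv g (fun k => T k p.1.1) else pl g (fun k => T k p.1.1) fun k => T k p.1.2

/-- the bilinear form with upper triangular matrix `g` -/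
private def Bq (g : Idx n → R) (x y : Fin n → R) : R := ∑ p : Idx n, g p * (x p.1.1 * y p.1.2)

private theorem qv_Bq (g : Idx n → R) (x : Fin n → R) : qv g x = Bq g x x := rfl

private theorem pl_Bq (g : Idx n → R) (x y : Fin n → R) : pl g x y = Bq g x y + Bq g y x := by
  unfold pl Bq
  rw [← sum_add_distrib]
  exact sum_congr rfl fun p _ => by ring

private theorem Bq_sum (g : Idx n → R) (x : Fin n → R) (v : Fin n → Fin n → R) :
    Bq g (fun k => ∑ i, v i k * x i) (fun k => ∑ i, v i k * x i) =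
      ∑ i, ∑ j, Bq g (v i) (v j) * (x i * x j) := by
  unfold Bq
  have h1 : ∀ p : Idx n, g p * ((∑ i, v i p.1.1 * x i) * ∑ i, v i p.1.2 * x i) =
      ∑ i, ∑ j, g p * ((v i p.1.1 * x i) * (v j p.1.2 * x j)) := fun p => by
    rw [sum_mul_sum, mul_sum]
    exact sum_congr rfl fun i _ => by rw [mul_sum]
  rw [sum_congr rfl fun p _ => h1 p, sum_comm]
  refine sum_congr rfl fun i _ => ?_
  rw [sum_comm]
  refine sum_congr rfl fun j _ => ?_
  rw [sum_mul]
  exact sum_congr rfl fun p _ => by ring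

private theorem Cmp_split (F : Fin n → Fin n → R) :
    (∑ p : Idx n, if p.1.1 = p.1.2 then F p.1.1 p.1.1 else F p.1.1 p.1.2 + F p.1.2 p.1.1) =
      ∑ i, ∑ j, F i j := by
  have h1 : ∑ i, ∑ j, F i j = ∑ p : Fin n × Fin n, F p.1 p.2 := by
    rw [Fintype.sum_prod_type]
  have h2 : ∑ p : Fin n × Fin n, F p.1 p.2 =
      ∑ p ∈ univ.filter (fun p : Fin n × Fin n => p.1 ≤ p.2), F p.1 p.2 +
        ∑ p ∈ univ.filter (fun p : Fin n × Fin n => ¬ p.1 ≤ p.2), F p.1 p.2 :=
    (sum_filter_add_sum_filter_not _ _ _).symm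
  have h3 : ∑ p ∈ univ.filter (fun p : Fin n × Fin n => ¬ p.1 ≤ p.2), F p.1 p.2 =
      ∑ p ∈ univ.filter (fun p : Fin n × Fin n => p.1 ≤ p.2), if p.1 = p.2 then 0 else F p.2 p.1 := by
    rw [← sum_filter_add_sum_filter_not (univ.filter (fun p : Fin n × Fin n => p.1 ≤ p.2))
      (fun p => p.1 = p.2)]
    have e1 : ∑ p ∈ (univ.filter (fun p : Fin n × Fin n => p.1 ≤ p.2)).filter (fun p => p.1 = p.2),
        (if p.1 = p.2 then 0 else F p.2 p.1) = 0 := by
      refine sum_eq_zero fun p hp => ?_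
      rw [if_pos (mem_filter.1 hp).2]
    rw [e1, zero_add]
    refine sum_nbij' Prod.swap Prod.swap ?_ ?_ (fun p _ => rfl) (fun p _ => rfl) ?_
    · intro p hp
      have h := (mem_filter.1 hp).2
      rw [mem_filter, mem_filter]
      refine ⟨⟨mem_univ _, ?_⟩, ?_⟩
      · exact (not_le.1 h).le
      · exact (not_le.1 h).ne
    · intro p hp
      rw [mem_filter, mem_filter] at hp
      rw [mem_filter]
      refine ⟨mem_univ _, ?_⟩
      have h := lt_of_le_of_ne hp.1.2 hp.2
      exact not_le.2 h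
    · intro p hp
      have h := (mem_filter.1 hp).2
      have hne : p.swap.1 ≠ p.swap.2 := (not_le.1 h).ne
      rw [if_neg hne]
      rfl
  rw [h1, h2, h3, ← sum_add_distrib]
  rw [← sum_subtype (univ.filter (fun p : Fin n × Fin n => p.1 ≤ p.2))
    (p := fun p : Fin n × Fin n => p.1 ≤ p.2) (by simp)
    (fun p : Fin n × Fin n => if p.1 = p.2 then F p.1 p.1 else F p.1 p.2 + F p.2 p.1)]
  refine sum_congr rfl fun p _ => ?_
  split_ifs with h
  · rw [h, add_zero]
  · rfl

theorem qv_cmp (T : Matrix (Fin n) (Fin n) R) (g : Idx n → R) (x : Fin n → R) :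
    qv (cmp T g) x = qv g (T.mulVec x) := by
  have h0 : T.mulVec x = fun k => ∑ i, (fun k => T k i) k * x i := rfl
  rw [h0, qv_Bq g, Bq_sum g x (fun i k => T k i), ← Cmp_split]
  unfold qv
  refine sum_congr rfl fun p _ => ?_
  unfold cmp
  split_ifs with h
  · rw [qv_Bq, ← h]
  · rw [pl_Bq]
    ring

private theorem pl_eq (g : Idx n → R) (x y : Fin n → R) :
    pl g x y = qv g (x + y) - qv g x - qv g y := by
  have := qv_add g x y
  have h : (fun i => x i + y i) = x + y := rfl
  rw [← h, this]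
  ring

theorem pl_cmp (T : Matrix (Fin n) (Fin n) R) (g : Idx n → R) (x y : Fin n → R) :
    pl (cmp T g) x y = pl g (T.mulVec x) (T.mulVec y) := by
  rw [pl_eq, pl_eq, qv_cmp, qv_cmp, qv_cmp, Matrix.mulVec_add]

theorem cmp_cmp (S T : Matrix (Fin n) (Fin n) R) (g : Idx n → R) :
    cmp T (cmp S g) = cmp (S * T) g := by
  funext p
  have h : ∀ i : Fin n, (fun k => (S * T) k i) = S.mulVec (fun k => T k i) := fun i => by
    funext k
    rw [Matrix.mul_apply]
    rfl
  change (if p.1.1 = p.1.2 then qv (cmp S g) (fun k => T k p.1.1) else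
    pl (cmp S g) (fun k => T k p.1.1) fun k => T k p.1.2) =
    (if p.1.1 = p.1.2 then qv g (fun k => (S * T) k p.1.1) else
    pl g (fun k => (S * T) k p.1.1) fun k => (S * T) k p.1.2)
  rw [qv_cmp, pl_cmp, h, h]

theorem cmp_one (g : Idx n → R) : cmp 1 g = g := by
  funext p
  obtain ⟨⟨i, j⟩, hij⟩ := p
  have h : ∀ i : Fin n, (fun k => (1 : Matrix (Fin n) (Fin n) R) k i) = Pi.single i 1 := by
    intro i
    funext k
    rw [Matrix.one_apply, Pi.single_apply]
  have hd : ∀ k l : Fin n, (Pi.single k 1 : Fin n → R) l = if l = k then 1 else 0 := fun k l =>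
    Pi.single_apply k 1 l
  change (if i = j then qv g (fun k => (1 : Matrix (Fin n) (Fin n) R) k i) else
    pl g (fun k => (1 : Matrix (Fin n) (Fin n) R) k i) fun k => (1 : Matrix (Fin n) (Fin n) R) k j)
      = g ⟨(i, j), hij⟩
  rw [h, h]
  split_ifs with e
  · subst e
    unfold qv
    rw [sum_eq_single (⟨(i, i), hij⟩ : Idx n)]
    · rw [hd, if_pos rfl, mul_one, mul_one]
    · intro q _ hq
      rw [hd, hd]
      by_cases h1 : q.1.1 = i
      · by_cases h2 : q.1.2 = i
        · exact absurd (Subtype.ext (Prod.ext h1 h2)) hq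
        · rw [if_neg h2, mul_zero, mul_zero]
      · rw [if_neg h1, zero_mul, mul_zero]
    · intro h1
      exact absurd (mem_univ _) h1
  · unfold pl
    rw [sum_eq_single (⟨(i, j), hij⟩ : Idx n)]
    · dsimp only
      rw [hd, hd, hd, hd, if_pos rfl, if_pos rfl, if_neg (Ne.symm e), mul_one, zero_mul, add_zero,
        mul_one]
    · intro q _ hq
      obtain ⟨⟨k, l⟩, hkl⟩ := q
      dsimp only at hkl ⊢
      rw [hd, hd, hd, hd]
      have h1 : ¬ (k = i ∧ l = j) := by
        rintro ⟨rfl, rfl⟩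
        exact hq rfl
      have h2 : ¬ (l = i ∧ k = j) := by
        rintro ⟨rfl, rfl⟩
        exact e (le_antisymm hij hkl)
      have h3 : (if k = i then (1 : R) else 0) * (if l = j then 1 else 0) = 0 := by
        by_cases a1 : k = i
        · rw [if_neg fun a2 => h1 ⟨a1, a2⟩, mul_zero]
        · rw [if_neg a1, zero_mul]
      have h4 : (if l = i then (1 : R) else 0) * (if k = j then 1 else 0) = 0 := by
        by_cases a1 : l = i
        · rw [if_neg fun a2 => h2 ⟨a1, a2⟩, mul_zero]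
        · rw [if_neg a1, zero_mul]
      rw [h3, h4, add_zero, mul_zero]
    · intro h1
      exact absurd (mem_univ _) h1

theorem cmp_map {S : Type*} [CommRing S] (φ : R →+* S) (T : Matrix (Fin n) (Fin n) R)
    (g : Idx n → R) : cmp (T.map φ) (fun p => φ (g p)) = fun p => φ (cmp T g p) := by
  funext p
  unfold cmp
  dsimp only [Matrix.map_apply]
  split_ifs
  · rw [qv_map]
  · rw [pl_map]

end Ring

theorem cmp_bd {n : ℕ} (T : Matrix (Fin n) (Fin n) ℤ) : ∃ C : ℕ, 0 < C ∧
    ∀ (A : ℕ) (g : Idx n → ℤ), g ∈ bf n A → cmp T g ∈ bf n (C * A) := by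
  set M : ℕ := ∑ i, ∑ j, (T i j).natAbs with hM
  have hT : ∀ i j, |T i j| ≤ M := by
    intro i j
    rw [Int.abs_eq_natAbs]
    have h1 : (T i j).natAbs ≤ ∑ j, (T i j).natAbs :=
      single_le_sum (f := fun j => (T i j).natAbs) (fun _ _ => Nat.zero_le _) (mem_univ j)
    have h2 : ∑ j, (T i j).natAbs ≤ M :=
      single_le_sum (f := fun i => ∑ j, (T i j).natAbs) (fun _ _ => Nat.zero_le _) (mem_univ i)
    exact_mod_cast h1.trans h2
  refine ⟨Fintype.card (Idx n) * (2 * M ^ 2) + 1, by omega, fun A g hg => ?_⟩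
  rw [mem_bf] at hg ⊢
  have hq : ∀ x y : Fin n → ℤ, (∀ i, |x i| ≤ M) → (∀ i, |y i| ≤ M) → ∀ p q : Idx n,
      |g p * (x q.1.1 * y q.1.2)| ≤ A * (M : ℤ) ^ 2 := by
    intro x y hx hy p q
    rw [abs_mul, abs_mul, pow_two]
    refine mul_le_mul (hg p) ?_ (by positivity) (by positivity)
    exact mul_le_mul (hx _) (hy _) (abs_nonneg _) (by positivity)
  intro p
  have h0 : ((Fintype.card (Idx n) : ℕ) : ℤ) * (2 * (A * (M : ℤ) ^ 2)) ≤
      (((Fintype.card (Idx n) * (2 * M ^ 2) + 1) * A : ℕ) : ℤ) := by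
    push_cast
    nlinarith [Nat.zero_le A]
  refine le_trans ?_ h0
  unfold cmp
  split_ifs
  · unfold qv
    refine (abs_sum_le_sum_abs _ _).trans ?_
    refine (sum_le_card_nsmul _ _ (2 * (A * (M : ℤ) ^ 2)) fun q _ => ?_).trans ?_
    · have h1 := hq (fun k => T k p.1.1) (fun k => T k p.1.1) (fun k => hT _ _) (fun k => hT _ _) q q
      have h2 : 0 ≤ (A : ℤ) * (M : ℤ) ^ 2 := by positivity
      linarith
    · rw [card_univ, nsmul_eq_mul]
  · unfold pl
    refine (abs_sum_le_sum_abs _ _).trans ?_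
    refine (sum_le_card_nsmul _ _ (2 * (A * (M : ℤ) ^ 2)) fun q _ => ?_).trans ?_
    · have h1 := hq (fun k => T k p.1.1) (fun k => T k p.1.2) (fun k => hT _ _) (fun k => hT _ _) q q
      have h2 := hq (fun k => T k p.1.2) (fun k => T k p.1.1) (fun k => hT _ _) (fun k => hT _ _) q q
      rw [mul_add]
      refine (abs_add_le _ _).trans ?_
      have h3 : g q * (T q.1.2 p.1.1 * T q.1.1 p.1.2) = g q * (T q.1.1 p.1.2 * T q.1.2 p.1.1) := by
        ring
      rw [h3]
      linarith
    · rw [card_univ, nsmul_eq_mul]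

end Pool.Agent.H7.HP
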