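import Pool.Agent.H7.HP.Rnd

set_option autoImplicit false
set_option linter.unusedSectionVars false

/-!
# [H7 HP CNT1] forms with a given value at one vector, 60-100 lines

PROOF. `|x m| ≥ X`. For an integer `t`, `|t| ≤ A' X^2 / 4`: the real form `(t / x_m^2) e_m^2` (that is
`p ↦ if p = (m, m) then t / x_m^2 else 0`, or `lm e_m e_m` times a number) has the value `t` at `x` and coefficients of size
at most `A'/4`; the integral form `t * lm m' m'` with `m'.x = 1` has the same value; `rnd1'` gives an integral `v_t` with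
`qv v_t x = t`, `|v_t| ≤ A'/4 + 20 R ≤ A'`. The map `(g, t) ↦ g + v_t` from `S × {t}` (`S` the set of the statement) to
`bf 5 (2 A')` is injective (`t = qv (g + v_t) x - α`), so `|S| * #{t} ≤ (4 A' + 1)^15 ≤ (5 A')^15`, and `#{t} ≥ A' X^2 / 4`
(the number of integers `|t| ≤ T` is `2 ⌊T⌋ + 1 ≥ T`).
-/

namespace Pool.Agent.H7.HP

open Finset

theorem cnt1 : ∃ C : ℝ, 0 < C ∧ ∀ (x : Fin 5 → ℤ) (R X : ℝ) (A' : ℕ), 0 ≤ R → 1 ≤ A' →
    Good R x → Prim x → 0 < X → (∃ i, X ≤ |(x i : ℝ)|) → 200 * R ≤ A' → ∀ α : ℤ,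
      (((bf 5 A').filter fun g => qv g x = α).card : ℝ) ≤ C * (A' : ℝ) ^ 14 / X ^ 2 := by
  refine ⟨4 * 5 ^ 15, by positivity, ?_⟩
  intro x R X A' hR hA hx hp hX hxX hRA α
  obtain ⟨m, hm⟩ := hxX
  have hA0 : (1 : ℝ) ≤ A' := by exact_mod_cast hA
  have hxm : (0 : ℝ) < |(x m : ℝ)| := hX.trans_le hm
  have hxm0 : (x m : ℝ) ≠ 0 := abs_pos.1 hxm
  have hx0 : x ≠ 0 := by
    rintro rfl
    exact hxm0 (by simp)
  set T : ℕ := ⌊(A' : ℝ) * X ^ 2 / 4⌋₊ with hT
  have hTle : (T : ℝ) ≤ A' * X ^ 2 / 4 := Nat.floor_le (by positivity)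
  have hTlt : (A' : ℝ) * X ^ 2 / 4 < T + 1 := Nat.lt_floor_add_one _
  -- the shifts
  have hv : ∀ t : ℤ, ∃ v : Idx 5 → ℤ, |t| ≤ T → qv v x = t ∧ ∀ p, |v p| ≤ A' := by
    intro t
    by_cases ht : |t| ≤ T
    · obtain ⟨m', hm'⟩ := hp
      have hw : qv (fun p => ((t : ℝ) / (x m : ℝ) ^ 2) *
          (lm (Pi.single m 1) (Pi.single m 1) : Idx 5 → ℝ) p) (fun i => (x i : ℝ)) =
          (qv (fun p => t * lm m' m' p) x : ℤ) := by
        rw [qv_smulc, qv_lm, qv_smulc, qv_lm, hm']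
        have hs : ∑ k, (Pi.single m 1 : Fin 5 → ℝ) k * (x k : ℝ) = x m := by
          simp [Pi.single_apply]
        rw [hs]
        push_cast
        field_simp
      obtain ⟨v, hv1, hv2⟩ := rnd1' hR hx hx0 _ _ hw
      refine ⟨v, fun _ => ⟨?_, fun p => ?_⟩⟩
      · rw [hv1, qv_smulc, qv_lm, hm']
        ring
      · have h1 := hv2 p
        have hone : ∀ k, |(Pi.single m 1 : Fin 5 → ℝ) k| ≤ 1 := by
          intro k
          rw [Pi.single_apply]
          split_ifs <;> simp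
        have h2 := Rnd_lm_bound (Pi.single m 1) (Pi.single m 1) hone hone p
        have h3 : |(t : ℝ) / (x m : ℝ) ^ 2| ≤ A' / 4 := by
          rw [abs_div, abs_of_pos (by positivity : (0 : ℝ) < (x m : ℝ) ^ 2),
            div_le_iff₀ (by positivity)]
          have h4 : |(t : ℝ)| ≤ T := by exact_mod_cast ht
          have h5 : X ^ 2 ≤ (x m : ℝ) ^ 2 := by
            rw [← sq_abs (x m : ℝ)]
            gcongr
          have h6 : (A' : ℝ) * X ^ 2 ≤ A' * (x m : ℝ) ^ 2 := by gcongr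
          linarith
        have h7 : |((t : ℝ) / (x m : ℝ) ^ 2) *
            (lm (Pi.single m 1) (Pi.single m 1) : Idx 5 → ℝ) p| ≤ A' / 2 := by
          rw [abs_mul]
          calc |(t : ℝ) / (x m : ℝ) ^ 2| * |(lm (Pi.single m 1) (Pi.single m 1) : Idx 5 → ℝ) p|
              ≤ A' / 4 * (2 * (1 * 1)) := mul_le_mul h3 h2 (abs_nonneg _) (by positivity)
            _ = A' / 2 := by ring
        have h8 : |(v p : ℝ)| ≤ A' := by
          rw [abs_le] at h1 h7 ⊢
          constructor <;> linarith [h1.1, h1.2, h7.1, h7.2]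
        exact_mod_cast h8
    · exact ⟨fun _ => 0, fun h => absurd h ht⟩
  choose v hv using hv
  set S := (bf 5 A').filter fun g => qv g x = α with hS
  have hcard : S.card * (2 * T + 1) ≤ (bf 5 (2 * A')).card := by
    have h1 : (S ×ˢ (Icc (-(T : ℤ)) T)).card = S.card * (2 * T + 1) := by
      rw [card_product, Int.card_Icc]
      congr 1
      omega
    rw [← h1]
    refine card_le_card_of_injOn (fun q => fun p => q.1 p + v q.2 p) ?_ ?_
    · intro q hq
      rw [mem_coe, mem_product, hS, mem_filter, mem_Icc] at hq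
      rw [mem_coe, mem_bf]
      intro p
      have h2 := (mem_bf.1 hq.1.1) p
      have h3 := (hv q.2 (abs_le.2 hq.2)).2 p
      have h4 := abs_add_le (q.1 p) (v q.2 p)
      push_cast
      linarith
    · intro q hq q' hq' h
      rw [mem_coe, mem_product, hS, mem_filter, mem_Icc] at hq hq'
      have h2 := (hv q.2 (abs_le.2 hq.2)).1
      have h2' := (hv q'.2 (abs_le.2 hq'.2)).1
      have h3 : qv (fun p => q.1 p + v q.2 p) x = qv (fun p => q'.1 p + v q'.2 p) x :=
        congrArg (fun g => qv g x) h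
      rw [qv_addc, qv_addc, h2, h2', hq.1.2, hq'.1.2] at h3
      have h4 : q.2 = q'.2 := by linarith
      refine Prod.ext ?_ h4
      funext p
      have h5 := congrFun h p
      dsimp only at h5
      rw [h4] at h5
      exact add_right_cancel h5
  rw [card_bf5] at hcard
  have hcard' : (S.card : ℝ) * (2 * T + 1) ≤ (2 * (2 * A') + 1) ^ 15 := by exact_mod_cast hcard
  have h9 : ((2 : ℝ) * (2 * A') + 1) ^ 15 ≤ (5 * A') ^ 15 := by
    gcongr
    linarith
  have h10 : (S.card : ℝ) * (A' * X ^ 2 / 4) ≤ (S.card : ℝ) * (2 * T + 1) := by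
    have hT0 : (0 : ℝ) ≤ T := Nat.cast_nonneg T
    refine mul_le_mul_of_nonneg_left ?_ (Nat.cast_nonneg _)
    linarith
  rw [le_div_iff₀ (by positivity)]
  have h11 : (S.card : ℝ) * (A' * X ^ 2 / 4) ≤ (5 * A') ^ 15 := h10.trans (hcard'.trans h9)
  have h12 : (S.card : ℝ) * X ^ 2 * A' ≤ 4 * 5 ^ 15 * (A' : ℝ) ^ 14 * A' := by
    have e1 : (5 * (A' : ℝ)) ^ 15 = 5 ^ 15 * (A' : ℝ) ^ 14 * A' := by ring
    rw [e1] at h11
    linarith
  exact le_of_mul_le_mul_right h12 (by linarith)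

end Pool.Agent.H7.HP
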