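import Pool.Agent.H92.DivBound

set_option autoImplicit false
set_option linter.unusedSectionVars false

/-!
# [H7 HP ISB] the number of divisors is at most C n^(1/4), 30-70 lines

The team library has divisor bounds `d(n) ≤ C_ε n^ε` (grep `divisors` in Pool/Agent); or directly: `d(n) = ∏ (e_p + 1)`, `(e + 1) ≤ C_p p^(e/4)` with `C_p = 1` for `p ≥ 16` (`e + 1 ≤ 2^e ≤ p^(e/4)`), so `C = ∏_{p < 16} C_p`.
-/

namespace Pool.Agent.H7.HP

open Finset

theorem div_quarter : ∃ C : ℝ, 0 < C ∧ ∀ n : ℕ, 0 < n →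
    (n.divisors.card : ℝ) ≤ C * (n : ℝ) ^ (1 / 4 : ℝ) := by
  obtain ⟨C, hC, h⟩ := Pool.Agent.H5.W.divisor_bound (1 / 4) (by norm_num)
  exact ⟨C, hC, fun n hn => h n hn⟩

end Pool.Agent.H7.HP
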