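import Pool.Agent.H7.HP.Isa
import Pool.Agent.H7.HP.Isb

/-!
# [H7 HP ISO] zeros of a nondegenerate ternary form in a box, 60-110 lines

If there is no nonzero zero of `h = qv a` the number is at most 1. Otherwise `hyp`: `c h(z) = T1 T2 - d T3^2` (`T_i = (T z)_i`), `z ↦ T z` is injective (`det T ≠ 0`), `|T_i| ≤ C E` for `z ∈ bx 3 E`. For a zero `z`: `T1 T2 = d T3^2`. For given `t = T3 ≠ 0` the pair
`(T1, T2)` is determined by `T1`, a divisor (with sign) of `d t^2 ≠ 0`: at most `2 d(|d| t^2) ≤ C' (|d| t^2)^(1/4) ≤ C'' E^(1/2)` (`div_quarter`); for `t = 0` one of `T1, T2` is 0: at most `2 (2 C E + 1)` pairs. Total `≤ (2 C E + 1) C'' E^(1/2) + 2 (2 C E + 1)`.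
-/

set_option autoImplicit false
set_option linter.unusedSectionVars false

namespace Pool.Agent.H7.HP

open Finset

private theorem iso_bd (T : Matrix (Fin 3) (Fin 3) ℤ) (E : ℕ) (z : Fin 3 → ℤ) (hz : z ∈ bx 3 E)
    (i : Fin 3) : |T.mulVec z i| ≤ (∑ i, ∑ j, (T i j).natAbs : ℕ) * E := by
  have hz' : ∀ j, |z j| ≤ E := by
    intro j
    unfold bx at hz
    rw [Fintype.mem_piFinset] at hz
    have := hz j
    rw [mem_Icc] at this
    exact abs_le.mpr this
  calc |T.mulVec z i| = |∑ j, T i j * z j| := rfl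
    _ ≤ ∑ j, |T i j * z j| := abs_sum_le_sum_abs _ _
    _ ≤ ∑ j, ((T i j).natAbs : ℤ) * E := by
        apply sum_le_sum
        intro j _
        rw [abs_mul, Int.abs_eq_natAbs]
        exact mul_le_mul_of_nonneg_left (hz' j) (by positivity)
    _ = (∑ j, ((T i j).natAbs : ℤ)) * E := by rw [sum_mul]
    _ ≤ (∑ i, ∑ j, (T i j).natAbs : ℕ) * E := by
        apply mul_le_mul_of_nonneg_right _ (by positivity)
        rw [← Nat.cast_sum]
        have h2 : (∑ j, (T i j).natAbs) ≤ ∑ i, ∑ j, (T i j).natAbs :=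
          single_le_sum (f := fun i => ∑ j, (T i j).natAbs)
            (fun _ _ => Nat.zero_le _) (mem_univ i)
        exact_mod_cast h2

private theorem iso_inj {T : Matrix (Fin 3) (Fin 3) ℤ} (hT : T.det ≠ 0) {z z' : Fin 3 → ℤ}
    (h : ∀ i, T.mulVec z i = T.mulVec z' i) : z = z' := by
  have h1 : T.mulVec (z - z') = 0 := by
    rw [Matrix.mulVec_sub]
    funext i
    rw [Pi.sub_apply, h i, sub_self]
    rfl
  have h2 := Matrix.eq_zero_of_mulVec_eq_zero hT h1
  exact sub_eq_zero.mp h2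

theorem zeros_le {a : Idx 3 → ℤ} (ha : (Hm a).det ≠ 0) : ∃ C : ℝ, 0 < C ∧ ∀ E : ℕ, 1 ≤ E →
    (((bx 3 E).filter fun z => qv a z = 0).card : ℝ) ≤ C * (E : ℝ) ^ (3 / 2 : ℝ) := by
  classical
  by_cases hex : ∃ z0 : Fin 3 → ℤ, z0 ≠ 0 ∧ qv a z0 = 0
  swap
  · push Not at hex
    refine ⟨1, one_pos, ?_⟩
    intro E hE
    have h1 : ((bx 3 E).filter fun z => qv a z = 0) ⊆ {0} := by
      intro z hz
      rw [mem_filter] at hz
      rw [mem_singleton]
      by_contra h
      exact hex z h hz.2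
    have h2 := card_le_card h1
    rw [card_singleton] at h2
    have h3 : (1 : ℝ) ≤ (E : ℝ) ^ (3 / 2 : ℝ) :=
      Real.one_le_rpow (by exact_mod_cast hE) (by norm_num)
    have h4 : (((bx 3 E).filter fun z => qv a z = 0).card : ℝ) ≤ 1 := by exact_mod_cast h2
    linarith
  obtain ⟨z0, hz0, hz1⟩ := hex
  obtain ⟨T, c, d, hT, hc, hd, hyp'⟩ := hyp ha hz0 hz1
  obtain ⟨C0, hC0, hdiv⟩ := div_quarter
  set K : ℕ := ∑ i, ∑ j, (T i j).natAbs with hK
  set C1 : ℝ := 2 * C0 * ((d.natAbs : ℝ) * K ^ 2) ^ (1 / 4 : ℝ) with hC1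
  have hC10 : 0 ≤ C1 := by positivity
  refine ⟨(2 * K + 1) * (C1 + 2), by positivity, ?_⟩
  intro E hE
  have hE1 : (1 : ℝ) ≤ E := by exact_mod_cast hE
  set S := (bx 3 E).filter fun z => qv a z = 0 with hS
  have hmem : ∀ z ∈ S, (∀ i, |T.mulVec z i| ≤ (K : ℤ) * E) ∧
      T.mulVec z 0 * T.mulVec z 1 = d * T.mulVec z 2 ^ 2 := by
    intro z hz
    rw [hS, mem_filter] at hz
    refine ⟨fun i => iso_bd T E z hz.1 i, ?_⟩
    have h1 := hyp' z
    rw [hz.2, mul_zero] at h1
    linarith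
  set I : Finset ℤ := Icc (-((K : ℤ) * E)) ((K : ℤ) * E) with hI
  have hIcard : (I.card : ℝ) = 2 * K * E + 1 := by
    have h1 : I.card = 2 * K * E + 1 := by
      rw [hI, Int.card_Icc]
      have : (K : ℤ) * E + 1 - -((K : ℤ) * E) = ((2 * K * E + 1 : ℕ) : ℤ) := by
        push_cast
        ring
      rw [this, Int.toNat_natCast]
    rw [h1]
    push_cast
    ring
  have hmapI : ∀ z ∈ S, ∀ i, T.mulVec z i ∈ I := by
    intro z hz i
    rw [hI, mem_Icc]
    exact abs_le.mp ((hmem z hz).1 i)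
  -- fibres with t = 0
  have hfib0 : ((S.filter fun z => T.mulVec z 2 = 0).card : ℝ) ≤ 2 * (2 * K * E + 1) := by
    have h1 : (S.filter fun z => T.mulVec z 2 = 0) ⊆
        (S.filter fun z => T.mulVec z 2 = 0 ∧ T.mulVec z 0 = 0) ∪
        (S.filter fun z => T.mulVec z 2 = 0 ∧ T.mulVec z 1 = 0) := by
      intro z hz
      rw [mem_filter] at hz
      have h2 := (hmem z hz.1).2
      rw [hz.2] at h2
      have h3 : T.mulVec z 0 * T.mulVec z 1 = 0 := by
        rw [h2]
        ring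
      rcases mul_eq_zero.mp h3 with h4 | h4
      · exact mem_union.mpr (Or.inl (mem_filter.mpr ⟨hz.1, hz.2, h4⟩))
      · exact mem_union.mpr (Or.inr (mem_filter.mpr ⟨hz.1, hz.2, h4⟩))
    have h2 : (S.filter fun z => T.mulVec z 2 = 0 ∧ T.mulVec z 0 = 0).card ≤ I.card := by
      apply card_le_card_of_injOn (fun z => T.mulVec z 1)
      · intro z hz
        rw [mem_coe, mem_filter] at hz
        exact hmapI z hz.1 1
      · intro z hz z' hz' h
        rw [mem_coe, mem_filter] at hz hz'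
        apply iso_inj hT
        intro i
        fin_cases i
        · exact hz.2.2.trans hz'.2.2.symm
        · exact h
        · exact hz.2.1.trans hz'.2.1.symm
    have h3 : (S.filter fun z => T.mulVec z 2 = 0 ∧ T.mulVec z 1 = 0).card ≤ I.card := by
      apply card_le_card_of_injOn (fun z => T.mulVec z 0)
      · intro z hz
        rw [mem_coe, mem_filter] at hz
        exact hmapI z hz.1 0
      · intro z hz z' hz' h
        rw [mem_coe, mem_filter] at hz hz'
        apply iso_inj hT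
        intro i
        fin_cases i
        · exact h
        · exact hz.2.2.trans hz'.2.2.symm
        · exact hz.2.1.trans hz'.2.1.symm
    have h4 : (S.filter fun z => T.mulVec z 2 = 0).card ≤ I.card + I.card :=
      (card_le_card h1).trans ((card_union_le _ _).trans (add_le_add h2 h3))
    have h5 : ((S.filter fun z => T.mulVec z 2 = 0).card : ℝ) ≤ I.card + I.card := by
      exact_mod_cast h4
    rw [hIcard] at h5
    linarith
  -- fibres with t ≠ 0
  have hfib : ∀ t ∈ I, t ≠ 0 → ((S.filter fun z => T.mulVec z 2 = t).card : ℝ) ≤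
      C1 * (E : ℝ) ^ (1 / 2 : ℝ) := by
    intro t ht ht0
    set N : ℕ := (d * t ^ 2).natAbs with hN
    have hN0 : 0 < N := Int.natAbs_pos.mpr (mul_ne_zero hd (pow_ne_zero 2 ht0))
    have h1 : (S.filter fun z => T.mulVec z 2 = t).card ≤
        (N.divisors.image (fun k : ℕ => (k : ℤ)) ∪ N.divisors.image (fun k : ℕ => -(k : ℤ))).card := by
      apply card_le_card_of_injOn (fun z => T.mulVec z 0)
      · intro z hz
        rw [mem_coe, mem_filter] at hz
        have h2 := (hmem z hz.1).2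
        rw [hz.2] at h2
        have h3 : T.mulVec z 0 ∣ d * t ^ 2 := Dvd.intro _ h2
        have h4 : (T.mulVec z 0).natAbs ∈ N.divisors := by
          rw [Nat.mem_divisors]
          exact ⟨Int.natAbs_dvd_natAbs.mpr h3, hN0.ne'⟩
        rw [mem_coe, mem_union, mem_image, mem_image]
        rcases Int.natAbs_eq (T.mulVec z 0) with h5 | h5
        · exact Or.inl ⟨_, h4, h5.symm⟩
        · exact Or.inr ⟨_, h4, h5.symm⟩
      · intro z hz z' hz' h
        rw [mem_coe, mem_filter] at hz hz'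
        have h2 := (hmem z hz.1).2
        have h3 := (hmem z' hz'.1).2
        rw [hz.2] at h2
        rw [hz'.2] at h3
        simp only at h
        rw [h] at h2
        have h4 : T.mulVec z' 0 ≠ 0 := by
          intro h5
          rw [h5, zero_mul] at h3
          exact mul_ne_zero hd (pow_ne_zero 2 ht0) h3.symm
        apply iso_inj hT
        intro i
        fin_cases i
        · exact h
        · exact mul_left_cancel₀ h4 (h2.trans h3.symm)
        · exact hz.2.trans hz'.2.symm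
    have h2 : (S.filter fun z => T.mulVec z 2 = t).card ≤ N.divisors.card + N.divisors.card :=
      h1.trans ((card_union_le _ _).trans (add_le_add card_image_le card_image_le))
    have h3 : ((S.filter fun z => T.mulVec z 2 = t).card : ℝ) ≤
        N.divisors.card + N.divisors.card := by exact_mod_cast h2
    have h4 := hdiv N hN0
    have h5 : (N : ℝ) ≤ (d.natAbs : ℝ) * K ^ 2 * (E : ℝ) ^ 2 := by
      have h6 : N = d.natAbs * t.natAbs ^ 2 := by
        rw [hN, Int.natAbs_mul, Int.natAbs_pow]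
      have h7 : t.natAbs ≤ K * E := by
        rw [hI, mem_Icc] at ht
        have := abs_le.mpr ht
        rw [Int.abs_eq_natAbs] at this
        exact_mod_cast this
      have h8 : N ≤ d.natAbs * (K * E) ^ 2 := by
        rw [h6]
        exact Nat.mul_le_mul_left _ (Nat.pow_le_pow_left h7 2)
      have h9 : (N : ℝ) ≤ (d.natAbs : ℝ) * ((K : ℝ) * E) ^ 2 := by exact_mod_cast h8
      calc (N : ℝ) ≤ (d.natAbs : ℝ) * ((K : ℝ) * E) ^ 2 := h9
        _ = _ := by ring
    have h6 : (N : ℝ) ^ (1 / 4 : ℝ) ≤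
        ((d.natAbs : ℝ) * K ^ 2) ^ (1 / 4 : ℝ) * (E : ℝ) ^ (1 / 2 : ℝ) := by
      calc (N : ℝ) ^ (1 / 4 : ℝ) ≤ ((d.natAbs : ℝ) * K ^ 2 * (E : ℝ) ^ 2) ^ (1 / 4 : ℝ) :=
            Real.rpow_le_rpow (Nat.cast_nonneg _) h5 (by norm_num)
        _ = ((d.natAbs : ℝ) * K ^ 2) ^ (1 / 4 : ℝ) * ((E : ℝ) ^ 2) ^ (1 / 4 : ℝ) :=
            Real.mul_rpow (by positivity) (by positivity)
        _ = _ := by
            rw [← Real.rpow_natCast (E : ℝ) 2, ← Real.rpow_mul (Nat.cast_nonneg E)]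
            norm_num
    calc ((S.filter fun z => T.mulVec z 2 = t).card : ℝ)
        ≤ 2 * (C0 * (N : ℝ) ^ (1 / 4 : ℝ)) := by linarith
      _ ≤ 2 * (C0 * (((d.natAbs : ℝ) * K ^ 2) ^ (1 / 4 : ℝ) * (E : ℝ) ^ (1 / 2 : ℝ))) := by
          gcongr
      _ = _ := by rw [hC1]; ring
  have hcard : S.card = ∑ t ∈ I, (S.filter fun z => T.mulVec z 2 = t).card :=
    card_eq_sum_card_fiberwise fun z hz => hmapI z hz 2
  have hEh : (0 : ℝ) ≤ (E : ℝ) ^ (1 / 2 : ℝ) := Real.rpow_nonneg (Nat.cast_nonneg _) _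
  have hEh1 : (1 : ℝ) ≤ (E : ℝ) ^ (1 / 2 : ℝ) := Real.one_le_rpow hE1 (by norm_num)
  have h32 : (E : ℝ) ^ (3 / 2 : ℝ) = E * (E : ℝ) ^ (1 / 2 : ℝ) := by
    rw [← Real.rpow_one_add' (Nat.cast_nonneg _) (by norm_num)]
    norm_num
  have htot : (S.card : ℝ) ≤ (2 * K * E + 1) * (C1 * (E : ℝ) ^ (1 / 2 : ℝ)) +
      2 * (2 * K * E + 1) := by
    calc (S.card : ℝ) = ∑ t ∈ I, ((S.filter fun z => T.mulVec z 2 = t).card : ℝ) := by
          rw [hcard]
          push_cast
          rfl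
      _ ≤ ∑ t ∈ I, (C1 * (E : ℝ) ^ (1 / 2 : ℝ) +
            if t = 0 then 2 * (2 * (K : ℝ) * E + 1) else 0) := by
          apply sum_le_sum
          intro t ht
          split_ifs with h0
          · rw [h0]
            have : 0 ≤ C1 * (E : ℝ) ^ (1 / 2 : ℝ) := by positivity
            linarith [hfib0]
          · rw [add_zero]
            exact hfib t ht h0
      _ = (I.card : ℝ) * (C1 * (E : ℝ) ^ (1 / 2 : ℝ)) +
            ∑ t ∈ I, (if t = 0 then 2 * (2 * (K : ℝ) * E + 1) else 0) := by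
          rw [sum_add_distrib, sum_const, nsmul_eq_mul]
      _ ≤ (2 * K * E + 1) * (C1 * (E : ℝ) ^ (1 / 2 : ℝ)) + 2 * (2 * K * E + 1) := by
          rw [hIcard]
          apply add_le_add le_rfl
          rw [sum_ite_eq' I (0 : ℤ) (fun _ => 2 * (2 * (K : ℝ) * E + 1))]
          split_ifs
          · exact le_rfl
          · positivity
  have hA : 2 * (K : ℝ) * E + 1 ≤ (2 * K + 1) * E := by nlinarith
  calc (S.card : ℝ) ≤ (2 * K * E + 1) * (C1 * (E : ℝ) ^ (1 / 2 : ℝ)) +
      2 * (2 * K * E + 1) := htot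
    _ = (2 * K * E + 1) * (C1 * (E : ℝ) ^ (1 / 2 : ℝ) + 2) := by ring
    _ ≤ (2 * K + 1) * E * (C1 * (E : ℝ) ^ (1 / 2 : ℝ) + 2) := by
        apply mul_le_mul_of_nonneg_right hA
        positivity
    _ ≤ (2 * K + 1) * E * ((C1 + 2) * (E : ℝ) ^ (1 / 2 : ℝ)) := by
        apply mul_le_mul_of_nonneg_left _ (by positivity)
        nlinarith
    _ = (2 * K + 1) * (C1 + 2) * (E : ℝ) ^ (3 / 2 : ℝ) := by
        rw [h32]
        ring

end Pool.Agent.H7.HP
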