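import Pool.Agent.H7.HP.Ekt

set_option autoImplicit false
set_option linter.unusedSectionVars false

/-!
# [H7 HP FAR] dyadic decomposition of the pairs with small gcd and large angle, 90-140 lines

`c0 = 2 cx^2`. For `k = gk` and `j ≥ 0` with `c0 2^(-j-1) B^2 < dl ≤ c0 2^(-j) B^2 =: θ_j B^2` (`dl ≤ c0 B^2`: `dl_le'`; `θ_j ≥ B^(-1/20)` because `dl ≥ B^(2-1/20)`): by `ekt` the sum of `wt ≤ 2k/(θ_j B^2)` over this class
is at most `C (pb B)^2 B^4 (θ_j/k)^3 * 2k/(θ_j B^2) = 2C (pb B)^2 B^2 θ_j^2 / k^2`. Sum over `k ≥ w`, all `j`: `∑_{k ≥ w} 1/k^2 ≤ 2/w`, `∑ θ_j^2 ≤ 2 c0^2`. Sum over all `k ≥ 1` and the `j` with a pair with `dl < θ0 B^2`: `θ_j < 2 θ0`, `∑ θ_j^2 ≤ 2 (2 θ0)^2`.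
-/

namespace Pool.Agent.H7.HP

open Finset

private theorem far_geom (c : ℝ) (J : ℕ) :
    ∑ j ∈ range J, (c / 2 ^ j) ^ 2 = c ^ 2 * (4 / 3 * (1 - (1 / 4) ^ J)) := by
  induction J with
  | zero => simp
  | succ J ih =>
    rw [Finset.sum_range_succ, ih]
    have h1 : (c / 2 ^ J) ^ 2 = c ^ 2 * (1 / 4) ^ J := by
      rw [div_pow, ← pow_mul, mul_comm J 2, pow_mul, one_div, inv_pow]
      norm_num
      rfl
    rw [h1, pow_succ]
    ring

private theorem far_geom_le (c : ℝ) (J : ℕ) :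
    ∑ j ∈ range J, (c / 2 ^ j) ^ 2 ≤ 4 / 3 * c ^ 2 := by
  rw [far_geom]
  have h1 : (0 : ℝ) ≤ (1 / 4) ^ J := by positivity
  have h2 : (0 : ℝ) ≤ c ^ 2 := sq_nonneg c
  nlinarith

private theorem far_small (s : ℝ) (hs : 0 < s) (J : ℕ) : ∀ c : ℝ, 0 ≤ c →
    ∑ j ∈ range J, (if c / 2 ^ j < s then (c / 2 ^ j) ^ 2 else 0) ≤ 4 / 3 * s ^ 2 := by
  induction J with
  | zero =>
    intro c _
    simp
    positivity
  | succ J ih =>
    intro c hc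
    by_cases h : c < s
    · have h1 : ∑ j ∈ range (J + 1), (if c / 2 ^ j < s then (c / 2 ^ j) ^ 2 else 0) ≤
          ∑ j ∈ range (J + 1), (c / 2 ^ j) ^ 2 := by
        refine Finset.sum_le_sum fun j _ => ?_
        split_ifs
        · exact le_rfl
        · positivity
      refine h1.trans ((far_geom_le c (J + 1)).trans ?_)
      have h2 := pow_le_pow_left₀ hc h.le 2
      linarith
    · rw [Finset.sum_range_succ']
      have h1 : (if c / 2 ^ 0 < s then (c / 2 ^ 0) ^ 2 else 0) = 0 := by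
        rw [if_neg]
        rw [pow_zero, div_one]
        exact h
      rw [h1, add_zero]
      have h2 := ih (c / 2) (by positivity)
      refine le_trans (le_of_eq ?_) h2
      refine Finset.sum_congr rfl fun j _ => ?_
      have h3 : c / 2 ^ (j + 1) = c / 2 / 2 ^ j := by
        rw [pow_succ]
        field_simp
      rw [h3]

private theorem far_inv (w K : ℕ) (hw : 1 ≤ w) :
    ∑ k ∈ Icc 1 K, (if w ≤ k then ((k : ℝ) ^ 2)⁻¹ else 0) ≤ 2 / w := by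
  rw [← Finset.sum_filter]
  have h1 := sum_Ioo_inv_sq_le (α := ℝ) (w - 1) (K + 1)
  have h2 : (((w - 1 : ℕ) : ℝ) + 1) = w := by
    have : ((w - 1 + 1 : ℕ) : ℝ) = w := by
      congr 1
      omega
    rw [← this]
    push_cast
    ring
  rw [h2] at h1
  refine le_trans (Finset.sum_le_sum_of_subset_of_nonneg ?_ fun k _ _ => by positivity) h1
  intro k hk
  rw [mem_filter, mem_Icc] at hk
  rw [mem_Ioo]
  omega

open scoped Classical in
theorem far {a : Idx 3 → ℤ} (ha : (Hm a).det ≠ 0) (q C1 : ℕ) (hq : 1 ≤ q) (hC1 : 1 ≤ C1) :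
    ∃ C : ℝ, 0 < C ∧ ∃ B0 : ℕ, ∀ B ≥ B0, ∀ (w : ℕ) (θ0 : ℝ), 1 ≤ w → 0 < θ0 →
      ∑ p ∈ (PR a q C1 B).filter (fun p => lp q p.1 ≠ lp q p.2 ∧
        (gk p.1 p.2 : ℝ) ≤ (B : ℝ) ^ (1 / 20 : ℝ) ∧
        (B : ℝ) ^ (2 - 1 / 20 : ℝ) ≤ dl p.1 p.2 ∧
        (w ≤ gk p.1 p.2 ∨ (dl p.1 p.2 : ℝ) < θ0 * (B : ℝ) ^ 2)), wt p ≤
          C * (pb B : ℝ) ^ 2 * (B : ℝ) ^ 2 * (1 / w + θ0 ^ 2) := by
  obtain ⟨C, hC, B0, hek⟩ := ekt ha q C1 hq hC1
  obtain ⟨c0, hc0⟩ : ∃ c0 : ℕ, c0 = 2 * cx a q C1 ^ 2 := ⟨_, rfl⟩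
  have hc0p : 0 < c0 := by
    rw [hc0]
    unfold cx
    positivity
  have hc0R : (0 : ℝ) < c0 := by exact_mod_cast hc0p
  refine ⟨2 * C * (4 * (c0 : ℝ) ^ 2 + 11), by positivity, max B0 1, fun B hB w θ0 hw hθ0 => ?_⟩
  have hB1 : 1 ≤ B := (le_max_right _ _).trans hB
  have hBR : (0 : ℝ) < B := by exact_mod_cast hB1
  obtain ⟨F, hF⟩ : ∃ F, F = (PR a q C1 B).filter (fun p => lp q p.1 ≠ lp q p.2 ∧
        (gk p.1 p.2 : ℝ) ≤ (B : ℝ) ^ (1 / 20 : ℝ) ∧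
        (B : ℝ) ^ (2 - 1 / 20 : ℝ) ≤ dl p.1 p.2 ∧
        (w ≤ gk p.1 p.2 ∨ (dl p.1 p.2 : ℝ) < θ0 * (B : ℝ) ^ 2)) := ⟨_, rfl⟩
  rw [← hF]
  obtain ⟨N, hN⟩ : ∃ N : ℕ, N = c0 * B ^ 2 := ⟨_, rfl⟩
  obtain ⟨jj, hjj⟩ : ∃ jj : (Fin 5 → ℤ) × (Fin 5 → ℤ) → ℕ,
    jj = fun p => Nat.log 2 (N / dl p.1 p.2) := ⟨_, rfl⟩
  -- facts on the pairs of `F`
  have hfac : ∀ p ∈ F, 1 ≤ gk p.1 p.2 ∧ gk p.1 p.2 ≤ N ∧ 0 < dl p.1 p.2 ∧
      2 ^ jj p * dl p.1 p.2 ≤ N ∧ N < 2 ^ (jj p + 1) * dl p.1 p.2 ∧ jj p < N + 1 := by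
    intro p hp
    rw [hF, mem_filter] at hp
    have hp1 := hp.1
    unfold PR at hp1
    rw [mem_filter, mem_product, mem_XP hq, mem_XP hq] at hp1
    obtain ⟨⟨hx, hy⟩, hne⟩ := hp1
    have h1 := pt_ne hq hx hy hne
    have h2 := gk_pos h1
    have h3 := gk_le_dl h1
    have h4 := dl_le' hq hx hy
    rw [← hc0, ← hN] at h4
    have h5 : 0 < dl p.1 p.2 := lt_of_lt_of_le h2 h3
    have h6 : N / dl p.1 p.2 ≠ 0 := by
      have := Nat.div_pos h4 h5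
      omega
    have h7 : 2 ^ jj p ≤ N / dl p.1 p.2 := by
      rw [hjj]
      exact Nat.pow_log_le_self 2 h6
    have h8 : N / dl p.1 p.2 < 2 ^ (jj p + 1) := by
      rw [hjj]
      exact Nat.lt_pow_succ_log_self (by norm_num) _
    refine ⟨h2, h3.trans h4, h5, (Nat.le_div_iff_mul_le h5).1 h7, (Nat.div_lt_iff_lt_mul h5).1 h8, ?_⟩
    have h9 : jj p < 2 ^ jj p := Nat.lt_two_pow_self
    have h10 : N / dl p.1 p.2 ≤ N := Nat.div_le_self _ _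
    omega
  obtain ⟨D, hD⟩ : ∃ D : ℝ, D = 2 * C * (pb B : ℝ) ^ 2 * (B : ℝ) ^ 2 := ⟨_, rfl⟩
  have hD0 : 0 ≤ D := by rw [hD]; positivity
  -- one class
  have hcls : ∀ k ∈ Icc 1 N, ∀ j ∈ range (N + 1),
      ∑ p ∈ F.filter (fun p => (gk p.1 p.2, jj p) = (k, j)), wt p ≤
      (if w ≤ k then D * (((k : ℝ) ^ 2)⁻¹ * ((c0 : ℝ) / 2 ^ j) ^ 2) else 0) +
      (if (c0 : ℝ) / 2 ^ j < 2 * θ0 then D * (((k : ℝ) ^ 2)⁻¹ * ((c0 : ℝ) / 2 ^ j) ^ 2) else 0) := by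
    intro k hk j _
    rw [mem_Icc] at hk
    have hkR : (0 : ℝ) < k := by exact_mod_cast hk.1
    have hj0 : (0 : ℝ) < (c0 : ℝ) / 2 ^ j := by positivity
    obtain ⟨θ, hθ⟩ : ∃ θ : ℝ, θ = (c0 : ℝ) / 2 ^ j := ⟨_, rfl⟩
    rw [← hθ] at hj0 ⊢
    have hr0 : 0 ≤ D * (((k : ℝ) ^ 2)⁻¹ * θ ^ 2) := by positivity
    rcases (F.filter (fun p => (gk p.1 p.2, jj p) = (k, j))).eq_empty_or_nonempty with he | hne
    · rw [he, Finset.sum_empty]
      refine add_nonneg ?_ ?_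
      · split_ifs <;> [exact hr0; exact le_rfl]
      · split_ifs <;> [exact hr0; exact le_rfl]
    · -- bounds of `dl`
      have hdl : ∀ p ∈ F.filter (fun p => (gk p.1 p.2, jj p) = (k, j)),
          (dl p.1 p.2 : ℝ) ≤ θ * (B : ℝ) ^ 2 ∧ θ * (B : ℝ) ^ 2 < 2 * dl p.1 p.2 := by
        intro p hp
        rw [mem_filter, Prod.mk.injEq] at hp
        obtain ⟨_, _, _, h4, h5, _⟩ := hfac p hp.1
        rw [hp.2.2] at h4 h5
        have h6 : (2 : ℝ) ^ j * dl p.1 p.2 ≤ c0 * (B : ℝ) ^ 2 := by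
          rw [hN] at h4
          exact_mod_cast h4
        have h7 : (c0 : ℝ) * (B : ℝ) ^ 2 < 2 ^ (j + 1) * dl p.1 p.2 := by
          rw [hN] at h5
          exact_mod_cast h5
        have h8 : θ * (B : ℝ) ^ 2 * 2 ^ j = c0 * (B : ℝ) ^ 2 := by
          rw [hθ]
          field_simp
        have h9 : (0 : ℝ) < 2 ^ j := by positivity
        constructor
        · refine le_of_mul_le_mul_right ?_ h9
          rw [h8]
          linarith
        · refine lt_of_mul_lt_mul_right ?_ h9.le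
          rw [h8]
          have h10 : (2 : ℝ) ^ (j + 1) = 2 ^ j * 2 := pow_succ 2 j
          rw [h10] at h7
          linarith
      obtain ⟨p0, hp0⟩ := hne
      have hp0' := hp0
      rw [mem_filter, Prod.mk.injEq] at hp0'
      have hp0F := hp0'.1
      rw [hF, mem_filter] at hp0F
      obtain ⟨_, _, g2, g3, g4⟩ := hp0F
      rw [hp0'.2.1] at g2
      have hθB : (B : ℝ) ^ (-(1 / 20) : ℝ) ≤ θ := by
        have h1 := g3.trans (hdl p0 hp0).1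
        have h2 : (B : ℝ) ^ (2 - 1 / 20 : ℝ) = (B : ℝ) ^ (-(1 / 20) : ℝ) * (B : ℝ) ^ 2 := by
          rw [← Real.rpow_natCast (B : ℝ) 2, ← Real.rpow_add hBR]
          congr 1
          push_cast
          ring
        rw [h2] at h1
        exact le_of_mul_le_mul_right h1 (by positivity)
      have hcard := hek B ((le_max_left _ _).trans hB) k θ hk.1 g2 hθB
      have hsub : F.filter (fun p => (gk p.1 p.2, jj p) = (k, j)) ⊆
          (PR a q C1 B).filter (fun p => lp q p.1 ≠ lp q p.2 ∧ gk p.1 p.2 = k ∧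
            (dl p.1 p.2 : ℝ) ≤ θ * (B : ℝ) ^ 2) := by
        intro p hp
        have h1 := (hdl p hp).1
        rw [mem_filter, Prod.mk.injEq, hF, mem_filter] at hp
        rw [mem_filter]
        exact ⟨hp.1.1, hp.1.2.1, hp.2.1, h1⟩
      have hcard2 : ((F.filter (fun p => (gk p.1 p.2, jj p) = (k, j))).card : ℝ) ≤
          C * (pb B : ℝ) ^ 2 * (B : ℝ) ^ 4 * (θ / k) ^ 3 :=
        le_trans (by exact_mod_cast Finset.card_le_card hsub) hcard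
      have hwt : ∀ p ∈ F.filter (fun p => (gk p.1 p.2, jj p) = (k, j)),
          wt p ≤ 2 * k / (θ * (B : ℝ) ^ 2) := by
        intro p hp
        have h1 := (hdl p hp).2
        rw [mem_filter, Prod.mk.injEq] at hp
        obtain ⟨_, _, h3, _⟩ := hfac p hp.1
        have h3R : (0 : ℝ) < dl p.1 p.2 := by exact_mod_cast h3
        unfold wt
        rw [hp.2.1, div_le_div_iff₀ h3R (by positivity)]
        nlinarith
      have hmain : ∑ p ∈ F.filter (fun p => (gk p.1 p.2, jj p) = (k, j)), wt p ≤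
          D * (((k : ℝ) ^ 2)⁻¹ * θ ^ 2) := by
        refine (Finset.sum_le_sum hwt).trans ?_
        rw [Finset.sum_const, nsmul_eq_mul]
        refine (mul_le_mul_of_nonneg_right hcard2 (by positivity)).trans (le_of_eq ?_)
        rw [hD]
        field_simp
      have hcond : w ≤ k ∨ θ < 2 * θ0 := by
        rcases g4 with g4 | g4
        · left
          rw [hp0'.2.1] at g4
          exact g4
        · right
          have h1 := (hdl p0 hp0).2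
          have h2 : θ * (B : ℝ) ^ 2 < 2 * θ0 * (B : ℝ) ^ 2 := by linarith
          exact lt_of_mul_lt_mul_right h2 (by positivity)
      have z1 : 0 ≤ (if w ≤ k then D * (((k : ℝ) ^ 2)⁻¹ * θ ^ 2) else 0) := by
        split_ifs <;> [exact hr0; exact le_rfl]
      have z2 : 0 ≤ (if θ < 2 * θ0 then D * (((k : ℝ) ^ 2)⁻¹ * θ ^ 2) else 0) := by
        split_ifs <;> [exact hr0; exact le_rfl]
      rcases hcond with h | h
      · rw [if_pos h]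
        linarith
      · rw [if_pos h]
        linarith
  -- the sum over the classes
  have hmaps : ∀ p ∈ F, (gk p.1 p.2, jj p) ∈ Icc 1 N ×ˢ range (N + 1) := by
    intro p hp
    obtain ⟨h1, h2, _, _, _, h6⟩ := hfac p hp
    rw [mem_product, mem_Icc, mem_range]
    exact ⟨⟨h1, h2⟩, h6⟩
  rw [← Finset.sum_fiberwise_of_maps_to hmaps, Finset.sum_product]
  refine (Finset.sum_le_sum fun k hk => Finset.sum_le_sum fun j hj => hcls k hk j hj).trans ?_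
  have e1 : ∑ k ∈ Icc 1 N, ∑ j ∈ range (N + 1),
      ((if w ≤ k then D * (((k : ℝ) ^ 2)⁻¹ * ((c0 : ℝ) / 2 ^ j) ^ 2) else 0) +
      (if (c0 : ℝ) / 2 ^ j < 2 * θ0 then D * (((k : ℝ) ^ 2)⁻¹ * ((c0 : ℝ) / 2 ^ j) ^ 2) else 0)) =
      D * (∑ k ∈ Icc 1 N, (if w ≤ k then ((k : ℝ) ^ 2)⁻¹ else 0)) *
        (∑ j ∈ range (N + 1), ((c0 : ℝ) / 2 ^ j) ^ 2) +
      D * (∑ k ∈ Icc 1 N, (if 1 ≤ k then ((k : ℝ) ^ 2)⁻¹ else 0)) *
        (∑ j ∈ range (N + 1), (if (c0 : ℝ) / 2 ^ j < 2 * θ0 then ((c0 : ℝ) / 2 ^ j) ^ 2 else 0)) := by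
    rw [mul_assoc, mul_assoc, Finset.sum_mul_sum, Finset.sum_mul_sum, Finset.mul_sum, Finset.mul_sum,
      ← Finset.sum_add_distrib]
    refine Finset.sum_congr rfl fun k hk => ?_
    rw [Finset.mul_sum, Finset.mul_sum, ← Finset.sum_add_distrib]
    refine Finset.sum_congr rfl fun j _ => ?_
    rw [if_pos (mem_Icc.1 hk).1]
    congr 1
    · split_ifs <;> ring
    · split_ifs <;> ring
  rw [e1]
  have f1 := far_inv w N hw
  have f2 := far_inv 1 N le_rfl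
  have f3 := far_geom_le (c0 : ℝ) (N + 1)
  have f4 := far_small (2 * θ0) (by positivity) (N + 1) (c0 : ℝ) hc0R.le
  have hwR : (0 : ℝ) < w := by exact_mod_cast hw
  have g1 : D * (∑ k ∈ Icc 1 N, (if w ≤ k then ((k : ℝ) ^ 2)⁻¹ else 0)) *
        (∑ j ∈ range (N + 1), ((c0 : ℝ) / 2 ^ j) ^ 2) ≤ D * (2 / w) * (4 / 3 * (c0 : ℝ) ^ 2) := by
    refine mul_le_mul (mul_le_mul_of_nonneg_left f1 hD0) f3 ?_ (by positivity)
    exact Finset.sum_nonneg fun j _ => by positivity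
  have g2 : D * (∑ k ∈ Icc 1 N, (if 1 ≤ k then ((k : ℝ) ^ 2)⁻¹ else 0)) *
        (∑ j ∈ range (N + 1), (if (c0 : ℝ) / 2 ^ j < 2 * θ0 then ((c0 : ℝ) / 2 ^ j) ^ 2 else 0)) ≤
      D * (2 / (1 : ℕ)) * (4 / 3 * (2 * θ0) ^ 2) := by
    refine mul_le_mul (mul_le_mul_of_nonneg_left f2 hD0) f4 ?_ (by positivity)
    refine Finset.sum_nonneg fun j _ => ?_
    split_ifs <;> positivity
  refine (add_le_add g1 g2).trans ?_
  have e2 : 2 * C * (4 * (c0 : ℝ) ^ 2 + 11) * (pb B : ℝ) ^ 2 * (B : ℝ) ^ 2 * (1 / w + θ0 ^ 2) =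
      D * ((4 * (c0 : ℝ) ^ 2 + 11) * (1 / w + θ0 ^ 2)) := by
    rw [hD]
    ring
  rw [e2]
  have e3 : D * (2 / w) * (4 / 3 * (c0 : ℝ) ^ 2) + D * (2 / (1 : ℕ)) * (4 / 3 * (2 * θ0) ^ 2) =
      D * (8 / 3 * (c0 : ℝ) ^ 2 * (1 / w) + 32 / 3 * θ0 ^ 2) := by
    push_cast
    ring
  rw [e3]
  refine mul_le_mul_of_nonneg_left ?_ hD0
  have h1 : (0 : ℝ) ≤ 1 / w := by positivity
  have h2 : (0 : ℝ) ≤ θ0 ^ 2 := by positivity
  have h3 : (0 : ℝ) ≤ (c0 : ℝ) ^ 2 := by positivity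
  nlinarith [mul_nonneg h3 h1, mul_nonneg h3 h2]

end Pool.Agent.H7.HP
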