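import Pool.Agent.H7.HP.Frm

set_option autoImplicit false
set_option linter.unusedSectionVars false

/-!
# [H7 HP MNR] minors of two integer vectors, 60-110 lines

`k = gk x y`, `Δ = dl x y`.
* `gk_dvd`, `le_dl`, `dl_att`: `Finset.gcd_dvd`, `Finset.le_sup`, `Finset.exists_mem_eq_sup`.
* `gk_pos`, `gk_le_dl`: if some minor is not zero.
* `bez`: the vectors `l = y_j e_i - y_i e_j` satisfy `l.y = 0`, `l.x = mn x y i j`; `k` is an integral combination of
  the minors (Bezout for `Finset.gcd`: e.g. `Finset.exists_... ` or by induction on the finset with `Int.gcd_eq_gcd_ab`;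
  or: the set of the values `l.x` with `l.y = 0` is an ideal of `ℤ`, generated by some `d`; `d` divides all minors so
  `d ∣ k`).
* `scal`: `m.x = 1`, `c = m.y`: `y_i - c x_i = ∑_j m_j (x_j y_i - x_i y_j)` is divisible by `k`.
* `vk`: `v = lm l m`, `qv_lm`.
* `cop`: in `y = c x + k w` with `y` primitive: a common divisor of `c` and `k` divides all `y_i`.
-/

namespace Pool.Agent.H7.HP

open Finset

variable {n : ℕ} {x y : Fin n → ℤ}

theorem gk_dvd (x y : Fin n → ℤ) (i j : Fin n) : (gk x y : ℤ) ∣ mn x y i j := by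
  unfold gk
  exact Int.natCast_dvd.2 (Finset.gcd_dvd (f := fun p : Fin n × Fin n => (mn x y p.1 p.2).natAbs)
    (mem_univ (i, j)))

theorem le_dl (x y : Fin n → ℤ) (i j : Fin n) : |mn x y i j| ≤ dl x y := by
  have h := Finset.le_sup (f := fun p : Fin n × Fin n => (mn x y p.1 p.2).natAbs) (mem_univ (i, j))
  rw [Int.abs_eq_natAbs]
  exact_mod_cast h

theorem dl_le {T : ℕ} (h : ∀ i j, |mn x y i j| ≤ T) : dl x y ≤ T := by
  unfold dl
  refine Finset.sup_le fun p _ => ?_
  have h1 := h p.1 p.2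
  rw [Int.abs_eq_natAbs] at h1
  exact_mod_cast h1

theorem dl_att (h : ∃ i j, mn x y i j ≠ 0) : ∃ i j, |mn x y i j| = dl x y := by
  obtain ⟨i, j, -⟩ := h
  obtain ⟨p, -, hp⟩ := Finset.exists_mem_eq_sup (univ : Finset (Fin n × Fin n)) ⟨(i, j), mem_univ _⟩
    (fun p => (mn x y p.1 p.2).natAbs)
  refine ⟨p.1, p.2, ?_⟩
  rw [Int.abs_eq_natAbs]
  unfold dl
  rw [hp]

theorem gk_pos (h : ∃ i j, mn x y i j ≠ 0) : 0 < gk x y := by
  obtain ⟨i, j, hij⟩ := h
  rw [Nat.pos_iff_ne_zero]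
  intro h0
  have h1 := gk_dvd x y i j
  rw [h0, Nat.cast_zero] at h1
  exact hij (zero_dvd_iff.1 h1)

theorem gk_dvd_dl (h : ∃ i j, mn x y i j ≠ 0) : gk x y ∣ dl x y := by
  obtain ⟨i, j, hij⟩ := dl_att h
  have h1 := gk_dvd x y i j
  have h2 : (gk x y : ℤ) ∣ (dl x y : ℤ) := by
    rw [← hij]
    exact (dvd_abs _ _).2 h1
  exact_mod_cast h2

theorem gk_le_dl (h : ∃ i j, mn x y i j ≠ 0) : gk x y ≤ dl x y := by
  refine Nat.le_of_dvd ?_ (gk_dvd_dl h)
  obtain ⟨i, j, hij⟩ := h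
  have h1 := le_dl x y i j
  have h2 : 0 < |mn x y i j| := abs_pos.2 hij
  have h3 : (0 : ℤ) < dl x y := h2.trans_le h1
  exact_mod_cast h3

theorem dvd_gk {d : ℕ} (h : ∀ i j, (d : ℤ) ∣ mn x y i j) : d ∣ gk x y := by
  exact Finset.dvd_gcd fun p _ => Int.natCast_dvd.1 (h p.1 p.2)

theorem gk_comm (x y : Fin n → ℤ) : gk x y = gk y x := by
  unfold gk
  refine Finset.gcd_congr rfl fun p _ => ?_
  rw [← Int.natAbs_neg]
  congr 1
  unfold mn
  ring

theorem dl_comm (x y : Fin n → ℤ) : dl x y = dl y x := by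
  unfold dl
  refine Finset.sup_congr rfl fun p _ => ?_
  rw [← Int.natAbs_neg]
  congr 1
  unfold mn
  ring

theorem bez (x y : Fin n → ℤ) :
    ∃ l : Fin n → ℤ, ∑ i, l i * y i = 0 ∧ ∑ i, l i * x i = gk x y := by
  have hone : ∀ p : Fin n × Fin n, ∃ l : Fin n → ℤ, ∑ i, l i * y i = 0 ∧
      ∑ i, l i * x i = (mn x y p.1 p.2).natAbs := by
    intro p
    have hs : ∀ (i : Fin n) (z : Fin n → ℤ), ∑ k, (Pi.single i 1 : Fin n → ℤ) k * z k = z i := by
      intro i z
      simp [Pi.single_apply]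
    have h0 : ∀ z : Fin n → ℤ, ∑ k, (y p.2 * (Pi.single p.1 1 : Fin n → ℤ) k -
        y p.1 * (Pi.single p.2 1 : Fin n → ℤ) k) * z k = y p.2 * z p.1 - y p.1 * z p.2 := by
      intro z
      rw [← hs p.1 z, ← hs p.2 z, mul_sum, mul_sum, ← sum_sub_distrib]
      exact sum_congr rfl fun k _ => by ring
    rcases Int.natAbs_eq (mn x y p.1 p.2) with h | h
    · refine ⟨fun k => y p.2 * (Pi.single p.1 1 : Fin n → ℤ) k -
        y p.1 * (Pi.single p.2 1 : Fin n → ℤ) k, ?_, ?_⟩
      · rw [h0]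
        ring
      · rw [h0, ← h]
        unfold mn
        ring
    · refine ⟨fun k => -(y p.2 * (Pi.single p.1 1 : Fin n → ℤ) k -
        y p.1 * (Pi.single p.2 1 : Fin n → ℤ) k), ?_, ?_⟩
      · simp only [neg_mul, sum_neg_distrib]
        rw [h0]
        ring
      · simp only [neg_mul, sum_neg_distrib]
        rw [h0]
        have h2 : ((mn x y p.1 p.2).natAbs : ℤ) = -mn x y p.1 p.2 := by
          rw [eq_neg_iff_add_eq_zero, add_comm]
          exact add_eq_zero_iff_eq_neg.2 h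
        rw [h2]
        unfold mn
        ring
  have key : ∀ s : Finset (Fin n × Fin n), ∃ l : Fin n → ℤ, ∑ i, l i * y i = 0 ∧
      ∑ i, l i * x i = ((s.gcd fun p => (mn x y p.1 p.2).natAbs : ℕ) : ℤ) := by
    classical
    intro s
    induction s using Finset.induction_on with
    | empty => exact ⟨fun _ => 0, by simp, by simp⟩
    | insert p s _ ih =>
      obtain ⟨l, hl1, hl2⟩ := ih
      obtain ⟨l', hl1', hl2'⟩ := hone p
      rw [Finset.gcd_insert]
      set A := (mn x y p.1 p.2).natAbs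
      set B := s.gcd fun p => (mn x y p.1 p.2).natAbs
      refine ⟨fun i => l' i * Nat.gcdA A B + l i * Nat.gcdB A B, ?_, ?_⟩
      · have e1 : ∀ z : Fin n → ℤ, ∑ i, (l' i * Nat.gcdA A B + l i * Nat.gcdB A B) * z i =
            Nat.gcdA A B * ∑ i, l' i * z i + Nat.gcdB A B * ∑ i, l i * z i := by
          intro z
          rw [mul_sum, mul_sum, ← sum_add_distrib]
          exact sum_congr rfl fun k _ => by ring
        rw [e1, hl1, hl1']
        ring
      · have e1 : ∀ z : Fin n → ℤ, ∑ i, (l' i * Nat.gcdA A B + l i * Nat.gcdB A B) * z i =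
            Nat.gcdA A B * ∑ i, l' i * z i + Nat.gcdB A B * ∑ i, l i * z i := by
          intro z
          rw [mul_sum, mul_sum, ← sum_add_distrib]
          exact sum_congr rfl fun k _ => by ring
        rw [e1, hl2, hl2']
        have e2 := Nat.gcd_eq_gcd_ab A B
        change _ = ((Nat.gcd A B : ℕ) : ℤ)
        rw [e2]
        ring
  exact key univ

theorem vk (hx : Prim x) : ∃ v : Idx n → ℤ, qv v x = gk x y ∧ qv v y = 0 := by
  obtain ⟨l, hl1, hl2⟩ := bez x y
  obtain ⟨m, hm⟩ := hx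
  exact ⟨lm l m, by rw [qv_lm, hl2, hm, mul_one], by rw [qv_lm, hl1, zero_mul]⟩

theorem scal (hx : Prim x) (y : Fin n → ℤ) :
    ∃ (c : ℤ) (w : Fin n → ℤ), ∀ i, y i = c * x i + gk x y * w i := by
  obtain ⟨m, hm⟩ := hx
  have h1 : ∀ i, ∃ w : ℤ, y i - (∑ j, m j * y j) * x i = gk x y * w := by
    intro i
    have h2 : y i - (∑ j, m j * y j) * x i = ∑ j, m j * mn x y j i := by
      have h3 : y i = (∑ j, m j * x j) * y i := by rw [hm, one_mul]
      conv_lhs => rw [h3]
      rw [sum_mul, sum_mul, ← sum_sub_distrib]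
      unfold mn
      exact sum_congr rfl fun k _ => by ring
    rw [h2]
    have h4 : (gk x y : ℤ) ∣ ∑ j, m j * mn x y j i :=
      dvd_sum fun j _ => (gk_dvd x y j i).mul_left _
    exact h4
  choose w hw using h1
  refine ⟨∑ j, m j * y j, w, fun i => ?_⟩
  rw [← hw i]
  ring

theorem cop {c : ℤ} {k : ℕ} {w : Fin n → ℤ} (hy : Prim y) (h : ∀ i, y i = c * x i + k * w i) :
    IsCoprime c (k : ℤ) := by
  obtain ⟨m, hm⟩ := hy
  refine ⟨∑ i, m i * x i, ∑ i, m i * w i, ?_⟩
  rw [← hm, sum_mul, sum_mul, ← sum_add_distrib]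
  exact sum_congr rfl fun i _ => by rw [h i]; ring

/-- two primitive vectors all of whose minors vanish are equal up to sign -/
theorem eq_of_mn (hx : Prim x) (hy : Prim y) (h : ∀ i j, mn x y i j = 0) :
    y = x ∨ ∀ i, y i = -x i := by
  have h0 : gk x y = 0 := by
    unfold gk
    rw [Finset.gcd_eq_zero_iff]
    intro p _
    rw [h p.1 p.2, Int.natAbs_zero]
  obtain ⟨c, w, hw⟩ := scal hx y
  rw [h0] at hw
  have h1 : ∀ i, y i = c * x i := fun i => by
    have := hw i
    push_cast at this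
    linarith
  obtain ⟨m, hm⟩ := hy
  have h2 : c * ∑ i, m i * x i = 1 := by
    rw [← hm, mul_sum]
    exact sum_congr rfl fun i _ => by rw [h1 i]; ring
  have h3 : IsUnit c := IsUnit.of_mul_eq_one _ h2
  rcases Int.isUnit_iff.1 h3 with hc | hc
  · left
    funext i
    rw [h1 i, hc, one_mul]
  · right
    intro i
    rw [h1 i, hc]
    ring

end Pool.Agent.H7.HP
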