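import Pool.Agent.H7.HP.Fou
import Pool.Agent.H7.HP.Mnr

set_option autoImplicit false
set_option linter.unusedSectionVars false

/-!
# [H7 HP GSP] separated points are good, 90-140 lines

* `good_of_sep`: `N = x1`, `a = (x0, x2, x3, x4)`, `T = ⌈5/lam⌉ ≤ 6/lam`; the hypothesis of `trans4` from `Sep` (extend `s` by `0` at the index 1; the index with
  `lam x1 ≤ |s i|` is then not 1). For `b : Fin 4` take `v = 9 T e_b`: `l_b ∈ ℤ^4`, `|l_b - 9 T e_b| ≤ 2T`, `x1 ∣ l_b . a`; extend to `ℤ^5` by the coordinate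
  `-(l_b . a)/x1` at the index 1: orthogonal to `x`, `|l_b| ≤ 11 T ≤ 66/lam`, the new coordinate at most `4 K 66/lam`. Independent: the 4 x 4 matrix has diagonal
  `≥ 7T` and the three others in each row at most `2T` each: `det_ne_zero_of_sum_row_lt_diag`.
* `dl_of_sep`: `scal`: `y = c x + k w`, `k mn x w i j = mn x y i j`, so `|mn x w i j| ≤ D = dl/k`. `|w_i x1 - w_1 x_i| ≤ D`. If `x1` does not divide `w_1`: `j = w_1 mod x1`,
  `j x_i ≡ w_1 x_i ≡ s_i := w_1 x_i - w_i x1` modulo `x1`, so `lam x1 ≤ |s_i| ≤ D`. If `w_1 = n x1` replace `w` by `w - n x` (same minors with `x`): `w_1 = 0`, `|w_i| x1 ≤ D`, and `w ≠ 0`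
  because not all minors of `x, y` vanish: `x1 ≤ D`.
-/

namespace Pool.Agent.H7.HP

open Finset

theorem good_of_sep {x : Fin 5 → ℤ} {K lam : ℝ} (h1 : 0 < x 1) (hK : 1 ≤ K)
    (hb : ∀ i, |(x i : ℝ)| ≤ K * x 1) (h0 : 0 < lam) (hl : lam ≤ 1) (hs : Sep lam x) :
    Good (300 * K / lam) x := by
  classical
  obtain ⟨N, hN⟩ : ∃ N : ℕ, (N : ℤ) = x 1 := ⟨(x 1).toNat, Int.toNat_of_nonneg h1.le⟩
  have hN0 : 0 < N := by
    have : (0 : ℤ) < N := by rw [hN]; exact h1
    exact_mod_cast this
  have hx1R : (0 : ℝ) < x 1 := by exact_mod_cast h1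
  have hNR : (N : ℝ) = x 1 := by exact_mod_cast hN
  set a : Fin 4 → ℤ := fun i => x (Fin.succAbove 1 i) with ha
  have hsep : ∀ j : ℤ, 0 < j → j < N → ∀ s : Fin 4 → ℤ, (∀ i, (N : ℤ) ∣ j * a i - s i) →
      ∃ i, lam * (N : ℝ) ≤ |(s i : ℝ)| := by
    intro j hj0 hjN s hsd
    obtain ⟨i, hi⟩ := hs j hj0 (by rw [← hN]; exact hjN) (Fin.insertNth 1 0 s) (by
      intro i
      rcases eq_or_ne i 1 with rfl | hi
      · rw [Fin.insertNth_apply_same, sub_zero]
        exact dvd_mul_left _ _
      · obtain ⟨i', rfl⟩ := Fin.exists_succAbove_eq hi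
        rw [Fin.insertNth_apply_succAbove, ← hN]
        exact hsd i')
    rcases eq_or_ne i 1 with rfl | hi1
    · rw [Fin.insertNth_apply_same, Int.cast_zero, abs_zero] at hi
      have : 0 < lam * (x 1 : ℝ) := mul_pos h0 hx1R
      linarith
    · obtain ⟨i', rfl⟩ := Fin.exists_succAbove_eq hi1
      rw [Fin.insertNth_apply_succAbove] at hi
      exact ⟨i', by rw [hNR]; exact hi⟩
  obtain ⟨T, hT⟩ : ∃ T : ℕ, T = ⌈5 / lam⌉₊ := ⟨_, rfl⟩
  have hT1 : 5 / lam ≤ T := by
    rw [hT]
    exact Nat.le_ceil _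
  have hT2 : (T : ℝ) ≤ 6 / lam := by
    have h2 : (T : ℝ) < 5 / lam + 1 := by
      rw [hT]
      exact Nat.ceil_lt_add_one (by positivity)
    have h3 : 1 ≤ 1 / lam := by
      rw [le_div_iff₀ h0]
      linarith
    have h4 : 6 / lam = 5 / lam + 1 / lam := by ring
    linarith
  have hT0 : (0 : ℝ) < T := lt_of_lt_of_le (by positivity) hT1
  have hex : ∀ b : Fin 4, ∃ l : Fin 4 → ℤ, (N : ℤ) ∣ ∑ i, l i * a i ∧
      ∀ i, |l i - (Pi.single b (9 * (T : ℤ)) : Fin 4 → ℤ) i| ≤ 2 * T :=
    fun b => trans4 N hN0 a lam h0 hl hsep T hT1 _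
  choose l hl1 hl2 using hex
  have hdiag : ∀ b, 7 * (T : ℝ) ≤ |(l b b : ℝ)| := by
    intro b
    have h2 := hl2 b b
    rw [Pi.single_eq_same, abs_le] at h2
    have h3 : (7 : ℤ) * T ≤ l b b := by linarith [h2.1]
    have h4 : (7 : ℝ) * T ≤ l b b := by exact_mod_cast h3
    exact h4.trans (le_abs_self _)
  have hoff : ∀ b i, i ≠ b → |(l b i : ℝ)| ≤ 2 * T := by
    intro b i hi
    have h2 := hl2 b i
    rw [Pi.single_eq_of_ne hi, sub_zero] at h2
    exact_mod_cast h2
  have hall : ∀ b i, |(l b i : ℝ)| ≤ 66 / lam := by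
    intro b i
    have h2 : |(l b i : ℝ)| ≤ 11 * T := by
      rcases eq_or_ne i b with rfl | hi
      · have h3 := hl2 i i
        rw [Pi.single_eq_same] at h3
        have h4 : |l i i| ≤ 11 * T := by
          rw [abs_le] at h3 ⊢
          constructor
          · linarith [h3.1]
          · linarith [h3.2]
        exact_mod_cast h4
      · exact (hoff b i hi).trans (by linarith)
    have h5 : 66 / lam = 11 * (6 / lam) := by ring
    rw [h5]
    linarith
  choose m hm using hl1
  refine ⟨fun b => Fin.insertNth 1 (-m b) (l b), ?_, ?_, ?_⟩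
  · -- independence
    apply LinearIndependent.of_comp (LinearMap.funLeft ℝ ℝ (Fin.succAbove (1 : Fin 5)))
    have hcomp : (⇑(LinearMap.funLeft ℝ ℝ (Fin.succAbove (1 : Fin 5))) ∘
        fun (b : Fin 4) (i : Fin 5) => (((Fin.insertNth 1 (-m b) (l b) : Fin 5 → ℤ) i : ℤ) : ℝ)) =
        fun b i => (l b i : ℝ) := by
      funext b i
      show (((Fin.insertNth 1 (-m b) (l b) : Fin 5 → ℤ) (Fin.succAbove 1 i) : ℤ) : ℝ) = _
      rw [Fin.insertNth_apply_succAbove]
    rw [hcomp]
    have hdet : (Matrix.of fun b i => (l b i : ℝ)).det ≠ 0 := by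
      apply det_ne_zero_of_sum_row_lt_diag
      intro k
      simp only [Matrix.of_apply, Real.norm_eq_abs]
      calc ∑ j ∈ univ.erase k, |(l k j : ℝ)| ≤ ∑ j ∈ univ.erase k, 2 * (T : ℝ) :=
            Finset.sum_le_sum fun j hj => hoff k j (Finset.ne_of_mem_erase hj)
        _ = 6 * T := by
            rw [Finset.sum_const, Finset.card_erase_of_mem (Finset.mem_univ k), Finset.card_univ,
              Fintype.card_fin, nsmul_eq_mul]
            norm_num
            ring
        _ < 7 * T := by linarith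
        _ ≤ |(l k k : ℝ)| := hdiag k
    exact Matrix.linearIndependent_rows_of_det_ne_zero hdet
  · intro b
    rw [Fin.sum_univ_succAbove _ (1 : Fin 5)]
    simp only [Fin.insertNth_apply_same, Fin.insertNth_apply_succAbove]
    have h2 := hm b
    simp only [ha] at h2
    rw [h2, hN]
    ring
  · intro b i
    have hKl : 0 < K / lam := by positivity
    rcases eq_or_ne i 1 with rfl | hi
    · simp only [Fin.insertNth_apply_same]
      have h2 : (N : ℝ) * |((-m b : ℤ) : ℝ)| ≤ N * (300 * K / lam) := by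
        have h3 : (N : ℝ) * |((-m b : ℤ) : ℝ)| = |((∑ i, l b i * a i : ℤ) : ℝ)| := by
          rw [hm b]
          push_cast
          rw [abs_neg, abs_mul, Nat.abs_cast]
        rw [h3]
        push_cast
        calc |∑ i, (l b i : ℝ) * (a i : ℝ)| ≤ ∑ i, |(l b i : ℝ) * (a i : ℝ)| :=
              Finset.abs_sum_le_sum_abs _ _
          _ ≤ ∑ i : Fin 4, 66 / lam * (K * x 1) := by
              apply Finset.sum_le_sum
              intro i _
              rw [abs_mul]
              exact mul_le_mul (hall b i) (hb _) (abs_nonneg _) (by positivity)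
          _ = 264 * (K / lam) * x 1 := by
              rw [Finset.sum_const, Finset.card_univ, Fintype.card_fin, nsmul_eq_mul]
              push_cast
              ring
          _ ≤ 300 * (K / lam) * x 1 := by
              apply mul_le_mul_of_nonneg_right _ hx1R.le
              linarith
          _ = N * (300 * K / lam) := by
              rw [hNR]
              ring
      exact le_of_mul_le_mul_left h2 (by exact_mod_cast hN0)
    · obtain ⟨i', rfl⟩ := Fin.exists_succAbove_eq hi
      simp only [Fin.insertNth_apply_succAbove]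
      refine (hall b i').trans ?_
      apply div_le_div_of_nonneg_right _ h0.le
      linarith

theorem dl_of_sep {x y : Fin 5 → ℤ} {lam : ℝ} (h1 : 0 < x 1) (h0 : 0 < lam) (hl : lam ≤ 1)
    (hs : Sep lam x) (hp : Prim x) (hxy : ∃ i j, mn x y i j ≠ 0) :
    lam * x 1 * gk x y ≤ dl x y := by
  obtain ⟨c, w, hw⟩ := scal hp y
  have hk := gk_pos hxy
  have hkR : (0 : ℝ) < gk x y := by exact_mod_cast hk
  have hmn : ∀ i j, mn x y i j = gk x y * mn x w i j := by
    intro i j
    unfold mn
    rw [hw i, hw j]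
    ring
  have hx1R : (0 : ℝ) < x 1 := by exact_mod_cast h1
  have key : ∃ i j, lam * (x 1 : ℝ) ≤ |(mn x w i j : ℝ)| := by
    by_cases hd : x 1 ∣ w 1
    · obtain ⟨n, hn⟩ := hd
      obtain ⟨i, j, hij⟩ := hxy
      rw [hmn] at hij
      have hij' : mn x w i j ≠ 0 := right_ne_zero_of_mul hij
      have hmn' : ∀ i, mn x w 1 i = x 1 * (w i - n * x i) := by
        intro i
        unfold mn
        rw [hn]
        ring
      have hex : ∃ i, w i - n * x i ≠ 0 := by
        by_contra hcon
        push Not at hcon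
        apply hij'
        have e1 := hcon i
        have e2 := hcon j
        unfold mn
        rw [show w i = n * x i by linarith, show w j = n * x j by linarith]
        ring
      obtain ⟨i0, hi0⟩ := hex
      refine ⟨1, i0, ?_⟩
      rw [hmn' i0]
      push_cast
      rw [abs_mul, abs_of_pos hx1R]
      have h2 : (1 : ℝ) ≤ |(w i0 : ℝ) - n * x i0| := by
        have h3 : 1 ≤ |w i0 - n * x i0| := Int.one_le_abs hi0
        exact_mod_cast h3
      nlinarith
    · have hj0 : 0 ≤ w 1 % x 1 := Int.emod_nonneg _ h1.ne'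
      have hj1 : w 1 % x 1 < x 1 := Int.emod_lt_of_pos _ h1
      have hj2 : w 1 % x 1 ≠ 0 := fun h => hd (Int.dvd_of_emod_eq_zero h)
      obtain ⟨i, hi⟩ := hs (w 1 % x 1) (lt_of_le_of_ne hj0 (Ne.symm hj2)) hj1
        (fun i => mn x w i 1) (by
          intro i
          have h2 : w 1 % x 1 = w 1 - x 1 * (w 1 / x 1) := by
            have := Int.emod_add_mul_ediv (w 1) (x 1)
            linarith
          refine ⟨w i - (w 1 / x 1) * x i, ?_⟩
          rw [h2]
          unfold mn
          ring)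
      exact ⟨i, 1, hi⟩
  obtain ⟨i, j, hij⟩ := key
  have h2 := le_dl x y i j
  have h3 : |(mn x y i j : ℝ)| ≤ dl x y := by exact_mod_cast h2
  rw [hmn i j] at h3
  push_cast at h3
  rw [abs_mul, abs_of_pos hkR] at h3
  calc lam * x 1 * gk x y = gk x y * (lam * x 1) := by ring
    _ ≤ gk x y * |(mn x w i j : ℝ)| := mul_le_mul_of_nonneg_left hij hkR.le
    _ ≤ dl x y := h3

end Pool.Agent.H7.HP
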