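import Pool.Agent.H7.HP.PairDefs

set_option autoImplicit false
set_option linter.unusedSectionVars false

/-!
# [H7 HP PRM] primes in (B, 4B], 30-60 lines

Mathlib: `Chebyshev.theta_le_log4_mul_x` (`θ x ≤ log 4 * x`), `Chebyshev.theta_ge` (`n log 2 - log (n+1) - 2 √n log n ≤ θ n`).
`θ(4B) - θ(B) ≥ 4 B log 2 - log (4B+1) - 2 √(4B) log (4B) - B log 4 = 2 B log 2 - o(B) ≥ 1.2 B`; each prime of `(B, 4B]` contributes at most
`log (4B) ≤ 1.1 log B`.
-/

namespace Pool.Agent.H7.HP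

open Finset

/-- `θ(4B) - θ(B)` is at most `pb B * log (4B)` -/
theorem prm_theta_diff (B : ℕ) :
    Chebyshev.theta ((4 * B : ℕ) : ℝ) - Chebyshev.theta (B : ℝ) ≤ pb B * Real.log ((4 * B : ℕ) : ℝ) := by
  unfold Chebyshev.theta
  rw [Nat.floor_natCast, Nat.floor_natCast]
  have hsub : (Ioc 0 B).filter Nat.Prime ⊆ (Ioc 0 (4 * B)).filter Nat.Prime := by
    intro p hp
    simp only [mem_filter, mem_Ioc] at hp ⊢
    exact ⟨⟨hp.1.1, by omega⟩, hp.2⟩
  rw [← Finset.sum_sdiff hsub, add_sub_cancel_right]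
  have hset : (Ioc 0 (4 * B)).filter Nat.Prime \ (Ioc 0 B).filter Nat.Prime
      = (Ioc B (4 * B)).filter Nat.Prime := by
    ext p
    simp only [mem_sdiff, mem_filter, mem_Ioc]
    constructor
    · rintro ⟨⟨⟨h1, h2⟩, h3⟩, h4⟩
      refine ⟨⟨?_, h2⟩, h3⟩
      by_contra h5
      exact h4 ⟨⟨h1, by omega⟩, h3⟩
    · rintro ⟨⟨h1, h2⟩, h3⟩
      refine ⟨⟨⟨by omega, h2⟩, h3⟩, ?_⟩
      rintro ⟨⟨_, h5⟩, _⟩
      omega
  rw [hset]
  have hle : ∀ p ∈ (Ioc B (4 * B)).filter Nat.Prime,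
      Real.log (p : ℝ) ≤ Real.log ((4 * B : ℕ) : ℝ) := by
    intro p hp
    simp only [mem_filter, mem_Ioc] at hp
    apply Real.log_le_log
    · exact_mod_cast hp.2.pos
    · exact_mod_cast hp.1.2
  have := Finset.sum_le_card_nsmul _ _ _ hle
  rw [nsmul_eq_mul] at this
  exact this

theorem prm_log_ev (r c : ℝ) (hr : 0 < r) (hc : 0 < c) :
    ∃ N : ℕ, ∀ B ≥ N, Real.log ((B : ℕ) : ℝ) ≤ c * ((B : ℕ) : ℝ) ^ r := by
  have h := (isLittleO_log_rpow_atTop hr).bound hc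
  have h2 := (tendsto_natCast_atTop_atTop (R := ℝ)).eventually h
  obtain ⟨N, hN⟩ := Filter.eventually_atTop.1 h2
  refine ⟨N, fun B hB => ?_⟩
  have h3 := hN B hB
  rw [Real.norm_eq_abs, Real.norm_eq_abs, abs_of_nonneg (Real.rpow_nonneg (Nat.cast_nonneg B) r)] at h3
  exact (le_abs_self _).trans h3

theorem pb_ge : ∃ B0 : ℕ, ∀ B ≥ B0, (B : ℝ) / Real.log B ≤ pb B := by
  obtain ⟨N, hN⟩ := prm_log_ev (1 / 2) (1 / 100) (by norm_num) (by norm_num)
  refine ⟨N + 2 ^ 21, fun B hB => ?_⟩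
  have hB1 : (1 : ℕ) ≤ B := by
    have : 0 < 2 ^ 21 := by norm_num
    omega
  have hBr : (1 : ℝ) ≤ B := by exact_mod_cast hB1
  have hBpos : (0 : ℝ) < B := by linarith
  have hB20 : (2 : ℝ) ^ 21 ≤ B := by
    have : 2 ^ 21 ≤ B := by omega
    exact_mod_cast this
  have h1 := prm_theta_diff B
  have h2 := Chebyshev.theta_ge (4 * B)
  have h3 := Chebyshev.theta_le_log4_mul_x (x := (B : ℝ)) (Nat.cast_nonneg B)
  have h4 := hN (4 * B) (by omega)
  have h5 := hN (4 * B + 1) (by omega)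
  rw [← Real.sqrt_eq_rpow] at h4 h5
  have hlog4 : Real.log 4 = 2 * Real.log 2 := by
    rw [show (4 : ℝ) = 2 ^ 2 by norm_num, Real.log_pow]
    norm_num
  have hl2 := Real.log_two_gt_d9
  have hl2' := Real.log_two_lt_d9
  push_cast at h1 h2 h4 h5
  have hs4 : Real.sqrt (4 * (B : ℝ)) = 2 * Real.sqrt B := by
    rw [Real.sqrt_mul (by norm_num), show (4 : ℝ) = 2 ^ 2 by norm_num,
      Real.sqrt_sq (by norm_num)]
  have hs41 : Real.sqrt (4 * (B : ℝ) + 1) ≤ 4 * B + 1 := by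
    rw [Real.sqrt_le_left (by linarith)]
    nlinarith
  have hss : Real.sqrt (B : ℝ) * Real.sqrt B = B := Real.mul_self_sqrt hBpos.le
  have hsp : 0 < Real.sqrt (B : ℝ) := Real.sqrt_pos.2 hBpos
  rw [hs4] at h2 h4
  have h6 : 2 * (2 * Real.sqrt (B : ℝ)) * Real.log (4 * B)
      ≤ 2 * (2 * Real.sqrt (B : ℝ)) * (1 / 100 * (2 * Real.sqrt B)) :=
    mul_le_mul_of_nonneg_left h4 (by positivity)
  have h7 : 2 * (2 * Real.sqrt (B : ℝ)) * (1 / 100 * (2 * Real.sqrt B)) = 8 / 100 * B := by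
    rw [← hss]; ring_nf
    rw [Real.sq_sqrt hBpos.le]
    first
      | done
      | (rw [show Real.sqrt (B : ℝ) ^ 2 = B from Real.sq_sqrt hBpos.le])
  rw [h7] at h6
  have hll : 14 ≤ Real.log (B : ℝ) := by
    have h8 : Real.log ((2 : ℝ) ^ 21) ≤ Real.log (B : ℝ) :=
      Real.log_le_log (by positivity) hB20
    rw [Real.log_pow] at h8
    push_cast at h8
    linarith
  have hl4B : Real.log (4 * (B : ℝ)) = 2 * Real.log 2 + Real.log B := by
    rw [Real.log_mul (by norm_num) hBpos.ne', hlog4]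
  have h9 : Real.log (4 * (B : ℝ)) ≤ 11 / 10 * Real.log B := by
    rw [hl4B]; linarith
  have h10 : 12 / 10 * (B : ℝ) ≤ pb B * Real.log (4 * (B : ℝ)) := by
    refine le_trans ?_ h1
    rw [hlog4] at h3
    have h11 : (0.6931471803 : ℝ) * B ≤ Real.log 2 * B :=
      mul_le_mul_of_nonneg_right hl2.le hBpos.le
    linarith
  have h12 : 12 / 10 * (B : ℝ) ≤ pb B * (11 / 10 * Real.log B) :=
    h10.trans (mul_le_mul_of_nonneg_left h9 (Nat.cast_nonneg _))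
  have hlp : 0 < Real.log (B : ℝ) := by linarith
  rw [div_le_iff₀ hlp]
  have : 0 ≤ (pb B : ℝ) * Real.log B := by positivity
  linarith

/-- powers win against logarithms and constants -/
theorem pb_pow (ε : ℝ) (hε : 0 < ε) (K : ℝ) : ∃ B0 : ℕ, ∀ B ≥ B0,
    K * (B : ℝ) ^ (1 - ε) ≤ pb B := by
  obtain ⟨B0, hB0⟩ := pb_ge
  obtain ⟨N, hN⟩ := prm_log_ev ε (1 / (|K| + 1)) hε (by positivity)
  refine ⟨B0 + N + 3, fun B hB => ?_⟩
  refine le_trans ?_ (hB0 B (by omega))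
  have h1 := hN B (by omega)
  have hBr : (3 : ℝ) ≤ B := by
    have : 3 ≤ B := by omega
    exact_mod_cast this
  have hBpos : (0 : ℝ) < B := by linarith
  have hlp : 0 < Real.log (B : ℝ) := Real.log_pos (by linarith)
  rw [le_div_iff₀ hlp]
  have hK : 0 < |K| + 1 := by positivity
  have h2 : K * Real.log (B : ℝ) ≤ (B : ℝ) ^ ε := by
    have h3 : K * Real.log (B : ℝ) ≤ (|K| + 1) * Real.log B :=
      mul_le_mul_of_nonneg_right (by linarith [le_abs_self K]) hlp.le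
    have h4 : (|K| + 1) * Real.log (B : ℝ) ≤ (|K| + 1) * (1 / (|K| + 1) * (B : ℝ) ^ ε) :=
      mul_le_mul_of_nonneg_left h1 hK.le
    have h5 : (|K| + 1) * (1 / (|K| + 1) * (B : ℝ) ^ ε) = (B : ℝ) ^ ε := by
      field_simp
    linarith
  have h6 : (B : ℝ) ^ (1 - ε) * (B : ℝ) ^ ε = B := by
    rw [← Real.rpow_add hBpos]
    simp
  have h7 : 0 ≤ (B : ℝ) ^ (1 - ε) := Real.rpow_nonneg hBpos.le _
  calc K * (B : ℝ) ^ (1 - ε) * Real.log B = (B : ℝ) ^ (1 - ε) * (K * Real.log B) := by ring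
    _ ≤ (B : ℝ) ^ (1 - ε) * (B : ℝ) ^ ε := mul_le_mul_of_nonneg_left h2 h7
    _ = B := h6

end Pool.Agent.H7.HP
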