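import Pool.Agent.H7.HP.Sam

set_option autoImplicit false
set_option linter.unusedSectionVars false

/-!
# [H7 HP SAMB] pairs with the same prime `l`, `l ∣ gk`, 140-220 lines

`k = gk = l k'`, `c0 = 2 cx^2`. `z = zz`, `k' z = q (u' - u)` (`k z = q l (u' - u)`), `l k' nm z ≤ dl ≤ c0 B^2`, so `k' nm z ≤ c0 B`, `z ≠ 0`, `wt ≤ 1 / nm z`.
The pair is determined by `x`, `z`, `k'` (`l = lp x`). `B` is large, `nm z ≥ z0 > c0`, so `k' ≤ c0 B / nm z < B < l` and `l` does not divide `k'`.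
(a) `l` divides all `z_i`: `z = l t`, `k' nm t ≤ c0 B / l ≤ c0`: at most `(2 c0 + 1)^3 c0` pairs `(t, k')`, `wt ≤ 1/B`, at most `4B * C B^2` points `x`: sum `≤ C B^2`.
(b) otherwise: `l ∣ gk ∣ u_i u'_j - u_j u'_i` and `q (u_i u'_j - u_j u'_i) = k' (u_i z_j - u_j z_i)`, so `l ∣ u_i z_j - u_j z_i` for all `i, j`; as `l` does not divide some `z_i`, the
vector `u` is modulo `l` a multiple of `z`: `l` multiples, each with at most `(2 C1 + 1)^3` vectors `u` (`cls`): given `l, z, k'` there are at most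
`4B (2 C1 + 1)^3` pairs.
(b1) `h(z) ≠ 0`: by `key_dvd` `l^2 ∣ h(z)`, so `B^2 ≤ ca * (nm z)^2`, `nm z ≥ B / ca` (`ca ≥ 1`), `nm z ≤ c0 B`, `k' ≤ c0 * ca`; at most 3 primes `l` for given `z` (`primes_dvd` with `m = 3`, `|h(z)| ≤ ca (c0 B)^2 < B^3`).
Sum `≤ ∑_{z, nm z ≤ c0 B} (ca / B) * (c0 ca) * 3 * 4B (2 C1 + 1)^3 ≤ C B^3`.
(b2) `h(z) = 0`: sum `≤ ∑_l ∑_{z : h(z) = 0} ∑_{k' ≤ c0 B / nm z} 4B (2C1+1)^3 / nm z ≤ C B^3 ∑_{h(z) = 0, z ≠ 0} 1/(nm z)^2 ≤ C B^3` (`sum_tail` with `z0 = 1`, hypothesis `hz`).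
-/

namespace Pool.Agent.H7.HP

open Finset

private theorem sb_tl (x : Fin 5 → ℤ) (i : Fin 3) : tl x i = x (![2, 3, 4] i) := by
  fin_cases i <;> rfl

private theorem sb_qv (a : Idx 3 → ℤ) (z : Fin 3 → ℤ) {T : ℤ} (h : ∀ i, |z i| ≤ T) :
    |qv a z| ≤ ca a * T ^ 2 := by
  unfold qv ca
  push_cast
  rw [Finset.sum_mul]
  refine (Finset.abs_sum_le_sum_abs _ _).trans (Finset.sum_le_sum fun p _ => ?_)
  rw [abs_mul, abs_mul, pow_two]
  have h0 : 0 ≤ T := (abs_nonneg _).trans (h p.1.1)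
  exact mul_le_mul_of_nonneg_left (mul_le_mul (h _) (h _) (abs_nonneg _) h0) (abs_nonneg _)

private theorem sb_ext {a : Idx 3 → ℤ} {q C1 B : ℕ} {x y : Fin 5 → ℤ} (hq : 1 ≤ q)
    (hx : IsPt a q C1 B x) (hy : IsPt a q C1 B y) (hl : lp q x = lp q y) (ht : tl x = tl y) :
    x = y := by
  have h1 : x 1 = y 1 := by rw [(pt_lp hq hx).2.2.2.1, (pt_lp hq hy).2.2.2.1, hl]
  have hx1 : x 1 ≠ 0 := by
    have := (pt_x1 hq hx).1
    have hB : (0 : ℤ) ≤ B := Int.natCast_nonneg _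
    omega
  have h0 : x 0 = y 0 := by
    have e1 := hx.zero
    have e2 := hy.zero
    unfold ff at e1 e2
    rw [ht] at e1
    rw [← h1] at e2
    have : x 0 * x 1 = y 0 * x 1 := by linarith
    exact mul_right_cancel₀ hx1 this
  calc x = mk5 (x 0) (x 1) (tl x) := (mk5_tl x).symm
    _ = mk5 (y 0) (y 1) (tl y) := by rw [h0, h1, ht]
    _ = y := mk5_tl y

/-- facts on a pair with the same prime -/
private structure SbF (a : Idx 3 → ℤ) (q C1 B : ℕ) (p : (Fin 5 → ℤ) × (Fin 5 → ℤ)) (l k' : ℕ)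
    (z : Fin 3 → ℤ) : Prop where
  hx : IsPt a q C1 B p.1
  hy : IsPt a q C1 B p.2
  ne : p.1 ≠ p.2
  lx : lp q p.1 = l
  ly : lp q p.2 = l
  pr : l.Prime
  lB : B < l
  l4 : l ≤ 4 * B
  hgk : gk p.1 p.2 = l * k'
  k1 : 1 ≤ k'
  hzz : zz p.1 p.2 = z
  zne : z ≠ 0
  eq : ∀ i, (q : ℤ) * (tl p.2 i - tl p.1 i) = k' * z i
  kz : k' * nm z ≤ 2 * cx a q C1 ^ 2 * B
  hwt : wt p ≤ 1 / nm z

private theorem sb_facts {a : Idx 3 → ℤ} {q C1 B : ℕ} (hq : 1 ≤ q) (hB : 1 ≤ B)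
    {p : (Fin 5 → ℤ) × (Fin 5 → ℤ)} (hp : p ∈ PR a q C1 B) (hl : lp q p.1 = lp q p.2)
    (hd : lp q p.1 ∣ gk p.1 p.2) :
    SbF a q C1 B p (lp q p.1) (gk p.1 p.2 / lp q p.1) (zz p.1 p.2) := by
  classical
  unfold PR at hp
  rw [Finset.mem_filter, Finset.mem_product, mem_XP hq, mem_XP hq] at hp
  obtain ⟨⟨hx, hy⟩, hne⟩ := hp
  obtain ⟨hpr, hlB, hl4, hx1, hnd⟩ := pt_lp hq hx
  obtain ⟨_, _, _, hy1, _⟩ := pt_lp hq hy
  have hmn := pt_ne hq hx hy hne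
  have hgp := gk_pos hmn
  have hgk : gk p.1 p.2 = lp q p.1 * (gk p.1 p.2 / lp q p.1) := (Nat.mul_div_cancel' hd).symm
  have hzne := zz_ne hq hx hy hne
  have hnz := nm_pos hzne
  have hk1 : 1 ≤ gk p.1 p.2 / lp q p.1 := Nat.div_pos (Nat.le_of_dvd hgp hd) hpr.pos
  have hzz := zz_le p.1 p.2
  have hdl := dl_le' hq hx hy
  refine ⟨hx, hy, hne, rfl, hl.symm, hpr, hlB, hl4, hgk, hk1, rfl, hzne, fun i => ?_, ?_, ?_⟩
  · have h1 := zz_mul p.1 p.2 i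
    rw [hx1, hy1, ← hl] at h1
    have h2 : (gk p.1 p.2 : ℤ) = lp q p.1 * ((gk p.1 p.2 / lp q p.1 : ℕ) : ℤ) := by
      exact_mod_cast hgk
    rw [h2] at h1
    have hl0 : (lp q p.1 : ℤ) ≠ 0 := by exact_mod_cast hpr.ne_zero
    apply mul_left_cancel₀ hl0
    linarith
  · have h1 : lp q p.1 * ((gk p.1 p.2 / lp q p.1) * nm (zz p.1 p.2)) ≤
        2 * cx a q C1 ^ 2 * B ^ 2 := by
      rw [← mul_assoc, ← hgk]
      exact hzz.trans hdl
    have h2 : B * ((gk p.1 p.2 / lp q p.1) * nm (zz p.1 p.2)) ≤ B * (2 * cx a q C1 ^ 2 * B) := by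
      calc B * ((gk p.1 p.2 / lp q p.1) * nm (zz p.1 p.2))
          ≤ lp q p.1 * ((gk p.1 p.2 / lp q p.1) * nm (zz p.1 p.2)) :=
            Nat.mul_le_mul_right _ hlB.le
        _ ≤ 2 * cx a q C1 ^ 2 * B ^ 2 := h1
        _ = B * (2 * cx a q C1 ^ 2 * B) := by ring
    exact Nat.le_of_mul_le_mul_left h2 hB
  · unfold wt
    have h1 : 0 < gk p.1 p.2 * nm (zz p.1 p.2) := Nat.mul_pos hgp hnz
    have h2 : (0 : ℝ) < dl p.1 p.2 := by exact_mod_cast h1.trans_le hzz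
    have h3 : (0 : ℝ) < nm (zz p.1 p.2) := by exact_mod_cast hnz
    rw [div_le_div_iff₀ h2 h3, one_mul]
    exact_mod_cast hzz

private theorem sb_inj {a : Idx 3 → ℤ} {q C1 B : ℕ} (hq : 1 ≤ q)
    {p p' : (Fin 5 → ℤ) × (Fin 5 → ℤ)} {l k' : ℕ} {z : Fin 3 → ℤ}
    (h : SbF a q C1 B p l k' z) (h' : SbF a q C1 B p' l k' z) (ht : tl p.1 = tl p'.1) :
    p = p' := by
  have h1 : p.1 = p'.1 := sb_ext hq h.hx h'.hx (h.lx.trans h'.lx.symm) ht
  have h2 : tl p.2 = tl p'.2 := by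
    funext i
    have e1 := h.eq i
    have e2 := h'.eq i
    rw [← e2, ht] at e1
    have hq0 : (q : ℤ) ≠ 0 := by
      have : (1 : ℤ) ≤ q := by exact_mod_cast hq
      omega
    have := mul_left_cancel₀ hq0 e1
    linarith
  exact Prod.ext h1 (sb_ext hq h.hy h'.hy (h.ly.trans h'.ly.symm) h2)

private theorem sb_cong {a : Idx 3 → ℤ} {q C1 B : ℕ}
    {p : (Fin 5 → ℤ) × (Fin 5 → ℤ)} {l k' : ℕ} {z : Fin 3 → ℤ}
    (h : SbF a q C1 B p l k' z) (hk : ¬ l ∣ k') (i j : Fin 3) :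
    (l : ℤ) ∣ tl p.1 i * z j - tl p.1 j * z i := by
  have h1 : (l : ℤ) ∣ mn p.1 p.2 (![2, 3, 4] i) (![2, 3, 4] j) := by
    have := gk_dvd p.1 p.2 (![2, 3, 4] i) (![2, 3, 4] j)
    rw [h.hgk] at this
    push_cast at this
    exact (dvd_mul_right _ _).trans this
  have h2 : (q : ℤ) * mn p.1 p.2 (![2, 3, 4] i) (![2, 3, 4] j) =
      k' * (tl p.1 i * z j - tl p.1 j * z i) := by
    unfold mn
    rw [← sb_tl p.1 i, ← sb_tl p.1 j, ← sb_tl p.2 i, ← sb_tl p.2 j]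
    linear_combination tl p.1 i * h.eq j - tl p.1 j * h.eq i
  have h3 : (l : ℤ) ∣ k' * (tl p.1 i * z j - tl p.1 j * z i) := by
    rw [← h2]
    exact dvd_mul_of_dvd_right h1 _
  rcases (Nat.prime_iff_prime_int.1 h.pr).dvd_or_dvd h3 with h4 | h4
  · exact absurd (Int.natCast_dvd_natCast.1 h4) hk
  · exact h4

open scoped Classical in
private theorem sb_fib {a : Idx 3 → ℤ} {q C1 B : ℕ} (hq : 1 ≤ q)
    (S : Finset ((Fin 5 → ℤ) × (Fin 5 → ℤ))) {l k' : ℕ} {z : Fin 3 → ℤ}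
    (hS : ∀ p ∈ S, SbF a q C1 B p l k' z) (hk : ¬ l ∣ k') (hz : ¬ ∀ i, (l : ℤ) ∣ z i) :
    S.card ≤ 4 * B * (2 * C1 + 1) ^ 3 := by
  rcases S.eq_empty_or_nonempty with rfl | ⟨p0, hp0⟩
  · simp
  · have h0 := hS p0 hp0
    obtain ⟨i0, hi0⟩ := not_forall.1 hz
    have := Fact.mk h0.pr
    have hinj : Set.InjOn (fun p : (Fin 5 → ℤ) × (Fin 5 → ℤ) => tl p.1) S :=
      fun p hp p' hp' e => sb_inj hq (hS p hp) (hS p' hp') e
    rw [← Finset.card_image_of_injOn hinj]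
    have hsub : S.image (fun p : (Fin 5 → ℤ) × (Fin 5 → ℤ) => tl p.1) ⊆
        (Finset.range l).biUnion fun lam => (bx 3 (C1 * B)).filter fun u =>
          ∀ i, (l : ℤ) ∣ u i - (fun i => (lam : ℤ) * z i) i := by
      intro u hu
      rw [Finset.mem_image] at hu
      obtain ⟨p, hp, rfl⟩ := hu
      have h := hS p hp
      rw [Finset.mem_biUnion]
      refine ⟨(((tl p.1 i0 : ℤ) : ZMod l) / ((z i0 : ℤ) : ZMod l)).val,
        Finset.mem_range.2 (ZMod.val_lt _), ?_⟩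
      rw [Finset.mem_filter]
      refine ⟨mem_bx.2 fun i => by exact_mod_cast h.hx.bound i, fun i => ?_⟩
      rw [← ZMod.intCast_zmod_eq_zero_iff_dvd]
      push_cast
      rw [ZMod.natCast_zmod_val]
      have hz0 : (z i0 : ZMod l) ≠ 0 := by
        rw [Ne, ZMod.intCast_zmod_eq_zero_iff_dvd]
        exact hi0
      have hc := sb_cong h hk i i0
      rw [← ZMod.intCast_zmod_eq_zero_iff_dvd] at hc
      push_cast at hc
      field_simp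
      linear_combination hc
    refine (Finset.card_le_card hsub).trans (Finset.card_biUnion_le.trans ?_)
    refine (Finset.sum_le_sum fun lam _ => cls C1 B l h0.lB _).trans ?_
    rw [Finset.sum_const, Finset.card_range, smul_eq_mul]
    exact Nat.mul_le_mul_right _ h0.l4

open scoped Classical in
private theorem sb_z {a : Idx 3 → ℤ} {q C1 B : ℕ} (hq : 1 ≤ q)
    (T : Finset ((Fin 5 → ℤ) × (Fin 5 → ℤ)))
    (hT : ∀ p ∈ T, SbF a q C1 B p (lp q p.1) (gk p.1 p.2 / lp q p.1) (zz p.1 p.2) ∧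
      ¬ lp q p.1 ∣ gk p.1 p.2 / lp q p.1 ∧ ¬ ∀ i, (lp q p.1 : ℤ) ∣ zz p.1 p.2 i)
    (z : Fin 3 → ℤ) (L K : Finset ℕ) (hL : ∀ p ∈ T, zz p.1 p.2 = z → lp q p.1 ∈ L)
    (hK : ∀ p ∈ T, zz p.1 p.2 = z → gk p.1 p.2 / lp q p.1 ∈ K) :
    (T.filter fun p => zz p.1 p.2 = z).card ≤
      4 * B * (2 * C1 + 1) ^ 3 * (L.card * K.card) := by
  rw [← Finset.card_product]
  refine Finset.card_le_mul_card_image_of_maps_to
    (f := fun p => (lp q p.1, gk p.1 p.2 / lp q p.1)) ?_ _ ?_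
  · intro p hp
    rw [Finset.mem_filter] at hp
    exact Finset.mem_product.2 ⟨hL p hp.1 hp.2, hK p hp.1 hp.2⟩
  · intro b _
    rcases (Finset.filter (fun p : (Fin 5 → ℤ) × (Fin 5 → ℤ) =>
        (lp q p.1, gk p.1 p.2 / lp q p.1) = b)
        (T.filter fun p => zz p.1 p.2 = z)).eq_empty_or_nonempty with h | ⟨p0, hp0⟩
    · rw [h, Finset.card_empty]
      exact Nat.zero_le _
    · rw [Finset.mem_filter, Finset.mem_filter] at hp0
      obtain ⟨⟨h1, h2⟩, h3⟩ := hp0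
      obtain ⟨_, g2, g3⟩ := hT p0 h1
      have e1 : lp q p0.1 = b.1 := congrArg Prod.fst h3
      have e2 : gk p0.1 p0.2 / lp q p0.1 = b.2 := congrArg Prod.snd h3
      refine sb_fib (a := a) (l := b.1) (k' := b.2) (z := z) hq _ ?_ ?_ ?_
      · intro p hp
        rw [Finset.mem_filter, Finset.mem_filter] at hp
        obtain ⟨⟨f1, f2⟩, f3⟩ := hp
        have h := (hT p f1).1
        have e3 : lp q p.1 = b.1 := congrArg Prod.fst f3
        have e4 : gk p.1 p.2 / lp q p.1 = b.2 := congrArg Prod.snd f3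
        rw [e4, e3, f2] at h
        exact h
      · rw [← e1, ← e2]
        exact g2
      · rw [← e1, ← h2]
        exact g3

open scoped Classical in
private theorem sb_a {a : Idx 3 → ℤ} {q C1 B : ℕ} (hq : 1 ≤ q) (hB : 1 ≤ B)
    (T : Finset ((Fin 5 → ℤ) × (Fin 5 → ℤ)))
    (hT : ∀ p ∈ T, SbF a q C1 B p (lp q p.1) (gk p.1 p.2 / lp q p.1) (zz p.1 p.2) ∧
      ∀ i, (lp q p.1 : ℤ) ∣ zz p.1 p.2 i) :
    ∑ p ∈ T, wt p ≤ ((XP a q C1 B).card : ℝ) *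
      (((2 * (2 * cx a q C1 ^ 2) + 1) ^ 3 * (2 * cx a q C1 ^ 2) : ℕ) : ℝ) * (1 / B) := by
  have hBr : (0 : ℝ) < B := by exact_mod_cast hB
  have hnz : ∀ p ∈ T, lp q p.1 ≤ nm (zz p.1 p.2) := by
    intro p hp
    obtain ⟨h, hd⟩ := hT p hp
    obtain ⟨i, hi⟩ : ∃ i, zz p.1 p.2 i ≠ 0 := by
      by_contra hc
      apply h.zne
      funext i
      by_contra h1
      exact hc ⟨i, h1⟩
    have h1 : (lp q p.1 : ℤ) ≤ |zz p.1 p.2 i| :=
      Int.le_of_dvd (abs_pos.2 hi) ((dvd_abs _ _).2 (hd i))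
    exact_mod_cast h1.trans (le_nm _ i)
  have hcard : T.card ≤ (XP a q C1 B).card *
      ((2 * (2 * cx a q C1 ^ 2) + 1) ^ 3 * (2 * cx a q C1 ^ 2)) := by
    have h1 : (XP a q C1 B ×ˢ (bx 3 (2 * cx a q C1 ^ 2) ×ˢ Icc 1 (2 * cx a q C1 ^ 2))).card =
        (XP a q C1 B).card * ((2 * (2 * cx a q C1 ^ 2) + 1) ^ 3 * (2 * cx a q C1 ^ 2)) := by
      rw [Finset.card_product, Finset.card_product, card_bx3, Nat.card_Icc, Nat.add_sub_cancel]
    rw [← h1]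
    refine Finset.card_le_card_of_injOn
      (fun p => (p.1, (fun i => zz p.1 p.2 i / lp q p.1), gk p.1 p.2 / lp q p.1)) ?_ ?_
    · intro p hp
      obtain ⟨h, hd⟩ := hT p hp
      have hlz := hnz p hp
      have hl0 : 0 < lp q p.1 := h.pr.pos
      have hkz := h.kz
      have hlB := h.lB
      have hkc : gk p.1 p.2 / lp q p.1 ≤ 2 * cx a q C1 ^ 2 := by
        have g1 : gk p.1 p.2 / lp q p.1 * lp q p.1 ≤ 2 * cx a q C1 ^ 2 * lp q p.1 :=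
          calc gk p.1 p.2 / lp q p.1 * lp q p.1 ≤ gk p.1 p.2 / lp q p.1 * nm (zz p.1 p.2) :=
                Nat.mul_le_mul_left _ hlz
            _ ≤ 2 * cx a q C1 ^ 2 * B := hkz
            _ ≤ 2 * cx a q C1 ^ 2 * lp q p.1 := Nat.mul_le_mul_left _ hlB.le
        exact Nat.le_of_mul_le_mul_right g1 hl0
      rw [Finset.mem_coe, Finset.mem_product, Finset.mem_product, mem_XP hq, mem_bx,
        Finset.mem_Icc]
      refine ⟨h.hx, fun i => ?_, h.k1, hkc⟩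
      obtain ⟨t, ht⟩ := hd i
      have hl0' : (lp q p.1 : ℤ) ≠ 0 := by exact_mod_cast hl0.ne'
      simp only
      rw [ht, Int.mul_ediv_cancel_left _ hl0']
      have g1 : (lp q p.1 : ℤ) * |t| ≤ lp q p.1 * ((2 * cx a q C1 ^ 2 : ℕ) : ℤ) := by
        have g2 : (lp q p.1 : ℤ) * |t| = |zz p.1 p.2 i| := by
          rw [ht, abs_mul, abs_of_nonneg (Int.natCast_nonneg _)]
        have g3 : (nm (zz p.1 p.2) : ℤ) ≤ ((2 * cx a q C1 ^ 2 * lp q p.1 : ℕ) : ℤ) := by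
          have g4 : nm (zz p.1 p.2) ≤ gk p.1 p.2 / lp q p.1 * nm (zz p.1 p.2) :=
            Nat.le_mul_of_pos_left _ h.k1
          exact_mod_cast g4.trans (hkz.trans (Nat.mul_le_mul_left _ hlB.le))
        rw [g2]
        refine (le_nm _ i).trans (g3.trans (le_of_eq ?_))
        push_cast
        ring
      exact le_of_mul_le_mul_left g1 (by exact_mod_cast hl0)
    · intro p hp p' hp' e
      obtain ⟨h, hd⟩ := hT p hp
      obtain ⟨h', hd'⟩ := hT p' hp'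
      simp only [Prod.mk.injEq] at e
      obtain ⟨e1, e2, e3⟩ := e
      have el : lp q p.1 = lp q p'.1 := by rw [e1]
      have ez : zz p.1 p.2 = zz p'.1 p'.2 := by
        funext i
        have g1 := congrFun e2 i
        rw [← el] at g1
        have d1 := Int.mul_ediv_cancel' (hd i)
        have d2 := Int.mul_ediv_cancel' (hd' i)
        rw [← el, ← g1] at d2
        rw [← d1, ← d2]
      rw [← e3, ← el, ← ez] at h'
      exact sb_inj hq h h' (by rw [e1])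
  calc ∑ p ∈ T, wt p ≤ ∑ _p ∈ T, (1 : ℝ) / B := by
        refine Finset.sum_le_sum fun p hp => ?_
        refine (hT p hp).1.hwt.trans ?_
        refine one_div_le_one_div_of_le hBr ?_
        exact_mod_cast ((hT p hp).1.lB.le.trans (hnz p hp))
    _ = T.card * (1 / B) := by rw [Finset.sum_const, nsmul_eq_mul]
    _ ≤ ((XP a q C1 B).card : ℝ) *
      (((2 * (2 * cx a q C1 ^ 2) + 1) ^ 3 * (2 * cx a q C1 ^ 2) : ℕ) : ℝ) * (1 / B) := by
        refine mul_le_mul_of_nonneg_right ?_ (by positivity)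
        exact_mod_cast hcard

open scoped Classical in
private theorem sb_b1 {a : Idx 3 → ℤ} {q C1 B : ℕ} (hq : 1 ≤ q) (hB : 2 ≤ B)
    (hBB : ca a * (2 * cx a q C1 ^ 2) ^ 2 < B)
    (T : Finset ((Fin 5 → ℤ) × (Fin 5 → ℤ)))
    (hT : ∀ p ∈ T, SbF a q C1 B p (lp q p.1) (gk p.1 p.2 / lp q p.1) (zz p.1 p.2) ∧
      ¬ lp q p.1 ∣ gk p.1 p.2 / lp q p.1 ∧ ¬ ∀ i, (lp q p.1 : ℤ) ∣ zz p.1 p.2 i)
    (hT2 : ∀ p ∈ T, qv a (zz p.1 p.2) ≠ 0) :
    ∑ p ∈ T, wt p ≤ (((2 * (2 * cx a q C1 ^ 2 * B) + 1) ^ 3 *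
      (4 * B * (2 * C1 + 1) ^ 3 * (3 * (2 * cx a q C1 ^ 2 * ca a))) : ℕ) : ℝ) * (ca a / B) := by
  have hBr : (0 : ℝ) < B := by
    have : 0 < B := by omega
    exact_mod_cast this
  have hnm : ∀ p ∈ T, B ≤ ca a * nm (zz p.1 p.2) := by
    intro p hp
    have h := (hT p hp).1
    have h1 := key_dvd hq h.hx h.hy h.ne
    rw [h.ly] at h1
    have h2 : (lp q p.1 : ℤ) * lp q p.1 ∣ qv a (zz p.1 p.2) := by
      refine dvd_trans ⟨(q : ℤ) ^ 2, ?_⟩ h1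
      ring
    have h3 : (lp q p.1 : ℤ) * lp q p.1 ≤ |qv a (zz p.1 p.2)| :=
      Int.le_of_dvd (abs_pos.2 (hT2 p hp)) ((dvd_abs _ _).2 h2)
    have h4 := sb_qv a (zz p.1 p.2) (le_nm _)
    have h5 : lp q p.1 * lp q p.1 ≤ ca a * nm (zz p.1 p.2) ^ 2 := by exact_mod_cast h3.trans h4
    have h6 := h.lB
    by_contra h7
    rw [not_le] at h7
    have h8 : 1 ≤ ca a := by
      by_contra h9
      have h10 : ca a = 0 := by omega
      rw [h10, zero_mul] at h5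
      have h11 : 0 < lp q p.1 * lp q p.1 := Nat.mul_pos h.pr.pos h.pr.pos
      omega
    have h12 : ca a * nm (zz p.1 p.2) ^ 2 ≤
        (ca a * nm (zz p.1 p.2)) * (ca a * nm (zz p.1 p.2)) := by
      calc ca a * nm (zz p.1 p.2) ^ 2 = 1 * (ca a * nm (zz p.1 p.2) ^ 2) := by ring
        _ ≤ ca a * (ca a * nm (zz p.1 p.2) ^ 2) := Nat.mul_le_mul_right _ h8
        _ = (ca a * nm (zz p.1 p.2)) * (ca a * nm (zz p.1 p.2)) := by ring
    have h13 := Nat.mul_lt_mul'' h7 h7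
    have h14 := Nat.mul_lt_mul'' h6 h6
    omega
  have hnmc : ∀ p ∈ T, nm (zz p.1 p.2) ≤ 2 * cx a q C1 ^ 2 * B := by
    intro p hp
    have h := (hT p hp).1
    exact (Nat.le_mul_of_pos_left _ h.k1).trans h.kz
  have hcard : T.card ≤ (2 * (2 * cx a q C1 ^ 2 * B) + 1) ^ 3 *
      (4 * B * (2 * C1 + 1) ^ 3 * (3 * (2 * cx a q C1 ^ 2 * ca a))) := by
    have hmap : ∀ p ∈ T, zz p.1 p.2 ∈ bx 3 (2 * cx a q C1 ^ 2 * B) := by
      intro p hp
      rw [mem_bx]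
      intro i
      exact (le_nm _ i).trans (by exact_mod_cast hnmc p hp)
    rw [Finset.card_eq_sum_card_fiberwise hmap, ← card_bx3]
    refine le_trans (Finset.sum_le_card_nsmul _ _
      (4 * B * (2 * C1 + 1) ^ 3 * (3 * (2 * cx a q C1 ^ 2 * ca a))) fun z hz => ?_)
      (le_of_eq (smul_eq_mul _ _))
    by_cases hz0 : qv a z = 0
    · rw [Finset.filter_eq_empty_iff.2, Finset.card_empty]
      · exact Nat.zero_le _
      · intro p hp e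
        apply hT2 p hp
        rw [e, hz0]
    · refine (sb_z hq T hT z
        ((Icc 1 (4 * B)).filter fun l => l.Prime ∧ B < l ∧ (l : ℤ) ∣ qv a z)
        (Icc 1 (2 * cx a q C1 ^ 2 * ca a)) ?_ ?_).trans ?_
      · intro p hp e
        have h := (hT p hp).1
        rw [Finset.mem_filter, Finset.mem_Icc]
        refine ⟨⟨h.pr.one_lt.le, h.l4⟩, h.pr, h.lB, ?_⟩
        have h1 := key_dvd hq h.hx h.hy h.ne
        rw [e] at h1
        refine dvd_trans ⟨(q : ℤ) ^ 2 * lp q p.2, ?_⟩ h1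
        ring
      · intro p hp e
        have h := (hT p hp).1
        rw [Finset.mem_Icc]
        refine ⟨h.k1, ?_⟩
        have h1 := h.kz
        have h2 := hnm p hp
        have h3 : gk p.1 p.2 / lp q p.1 * nm (zz p.1 p.2) ≤
            2 * cx a q C1 ^ 2 * ca a * nm (zz p.1 p.2) := by
          refine h1.trans ?_
          rw [mul_assoc (2 * cx a q C1 ^ 2)]
          exact Nat.mul_le_mul_left _ h2
        exact Nat.le_of_mul_le_mul_right h3 (nm_pos h.zne)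
      · refine Nat.mul_le_mul_left _ ?_
        rw [Nat.card_Icc, Nat.add_sub_cancel]
        refine Nat.mul_le_mul_right _ ?_
        refine primes_dvd B 3 _ hB hz0 ?_
        have h1 := sb_qv a z (T := ((2 * cx a q C1 ^ 2 * B : ℕ) : ℤ)) (mem_bx.1 hz)
        refine h1.trans_lt ?_
        have h2 : ca a * (2 * cx a q C1 ^ 2 * B) ^ 2 < B ^ 3 := by
          calc ca a * (2 * cx a q C1 ^ 2 * B) ^ 2 =
                (ca a * (2 * cx a q C1 ^ 2) ^ 2) * B ^ 2 := by ring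
            _ < B * B ^ 2 := Nat.mul_lt_mul_of_pos_right hBB (by positivity)
            _ = B ^ 3 := by ring
        exact_mod_cast h2
  calc ∑ p ∈ T, wt p ≤ ∑ _p ∈ T, (ca a : ℝ) / B := by
        refine Finset.sum_le_sum fun p hp => ?_
        have h := (hT p hp).1
        refine h.hwt.trans ?_
        have h1 : (0 : ℝ) < nm (zz p.1 p.2) := by exact_mod_cast nm_pos h.zne
        rw [div_le_div_iff₀ h1 hBr, one_mul]
        exact_mod_cast hnm p hp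
    _ = T.card * ((ca a : ℝ) / B) := by rw [Finset.sum_const, nsmul_eq_mul]
    _ ≤ _ := by
        refine mul_le_mul_of_nonneg_right ?_ (by positivity)
        exact_mod_cast hcard

open scoped Classical in
private theorem sb_b2 {a : Idx 3 → ℤ} {q C1 B : ℕ} (hq : 1 ≤ q) {C : ℝ} (hC : 0 ≤ C)
    (hz : ∀ E : ℕ, 1 ≤ E →
      (((bx 3 E).filter fun z => qv a z = 0).card : ℝ) ≤ C * (E : ℝ) ^ (3 / 2 : ℝ))
    (T : Finset ((Fin 5 → ℤ) × (Fin 5 → ℤ)))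
    (hT : ∀ p ∈ T, SbF a q C1 B p (lp q p.1) (gk p.1 p.2 / lp q p.1) (zz p.1 p.2) ∧
      ¬ lp q p.1 ∣ gk p.1 p.2 / lp q p.1 ∧ ¬ ∀ i, (lp q p.1 : ℤ) ∣ zz p.1 p.2 i)
    (hT2 : ∀ p ∈ T, qv a (zz p.1 p.2) = 0) :
    ∑ p ∈ T, wt p ≤ ((4 * B * (2 * C1 + 1) ^ 3 * (4 * B) * (2 * cx a q C1 ^ 2 * B) : ℕ) : ℝ) *
      (20 * C) := by
  have hnmc : ∀ p ∈ T, nm (zz p.1 p.2) ≤ 2 * cx a q C1 ^ 2 * B := by
    intro p hp
    have h := (hT p hp).1
    exact (Nat.le_mul_of_pos_left _ h.k1).trans h.kz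
  have hmap : ∀ p ∈ T, zz p.1 p.2 ∈ (bx 3 (2 * cx a q C1 ^ 2 * B)).filter
      (fun z => qv a z = 0 ∧ 1 ≤ nm z) := by
    intro p hp
    rw [Finset.mem_filter, mem_bx]
    exact ⟨fun i => (le_nm _ i).trans (by exact_mod_cast hnmc p hp), hT2 p hp,
      nm_pos (hT p hp).1.zne⟩
  have htail := sum_tail C hC (fun z => qv a z = 0) hz 1 (2 * cx a q C1 ^ 2 * B) le_rfl
  rw [Nat.cast_one, Real.one_rpow, div_one] at htail
  calc ∑ p ∈ T, wt p ≤ ∑ p ∈ T, (1 : ℝ) / nm (zz p.1 p.2) :=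
        Finset.sum_le_sum fun p hp => (hT p hp).1.hwt
    _ = ∑ z ∈ (bx 3 (2 * cx a q C1 ^ 2 * B)).filter (fun z => qv a z = 0 ∧ 1 ≤ nm z),
          ∑ p ∈ T.filter (fun p => zz p.1 p.2 = z), (1 : ℝ) / nm (zz p.1 p.2) :=
        (Finset.sum_fiberwise_of_maps_to hmap _).symm
    _ ≤ ∑ z ∈ (bx 3 (2 * cx a q C1 ^ 2 * B)).filter (fun z => qv a z = 0 ∧ 1 ≤ nm z),
          ((4 * B * (2 * C1 + 1) ^ 3 * (4 * B) * (2 * cx a q C1 ^ 2 * B) : ℕ) : ℝ) *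
            ((1 : ℝ) / (nm z : ℝ) ^ 2) := by
        refine Finset.sum_le_sum fun z hz' => ?_
        rw [Finset.mem_filter] at hz'
        have hn : (0 : ℝ) < nm z := by exact_mod_cast hz'.2.2
        have e1 : ∑ p ∈ T.filter (fun p => zz p.1 p.2 = z), (1 : ℝ) / nm (zz p.1 p.2) =
            (T.filter (fun p => zz p.1 p.2 = z)).card * ((1 : ℝ) / nm z) := by
          rw [← nsmul_eq_mul, ← Finset.sum_const]
          refine Finset.sum_congr rfl fun p hp => ?_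
          rw [Finset.mem_filter] at hp
          rw [hp.2]
        have h1 := sb_z hq T hT z (Icc 1 (4 * B)) (Icc 1 (2 * cx a q C1 ^ 2 * B / nm z))
          (fun p hp _ => Finset.mem_Icc.2 ⟨(hT p hp).1.pr.one_lt.le, (hT p hp).1.l4⟩)
          (fun p hp e => Finset.mem_Icc.2 ⟨(hT p hp).1.k1, by
            rw [Nat.le_div_iff_mul_le hz'.2.2, ← e]
            exact (hT p hp).1.kz⟩)
        rw [Nat.card_Icc, Nat.card_Icc, Nat.add_sub_cancel, Nat.add_sub_cancel] at h1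
        have h2 : ((T.filter (fun p => zz p.1 p.2 = z)).card : ℝ) ≤
            (4 * B * (2 * C1 + 1) ^ 3 * (4 * B) : ℕ) * ((2 * cx a q C1 ^ 2 * B : ℕ) / (nm z : ℝ)) := by
          have h3 : ((2 * cx a q C1 ^ 2 * B / nm z : ℕ) : ℝ) ≤
              ((2 * cx a q C1 ^ 2 * B : ℕ) : ℝ) / (nm z : ℝ) := Nat.cast_div_le
          calc ((T.filter (fun p => zz p.1 p.2 = z)).card : ℝ)
              ≤ ((4 * B * (2 * C1 + 1) ^ 3 * (4 * B * (2 * cx a q C1 ^ 2 * B / nm z)) : ℕ) : ℝ) := by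
                exact_mod_cast h1
            _ = ((4 * B * (2 * C1 + 1) ^ 3 * (4 * B) : ℕ) : ℝ) *
                  ((2 * cx a q C1 ^ 2 * B / nm z : ℕ) : ℝ) := by
                push_cast
                ring
            _ ≤ _ := mul_le_mul_of_nonneg_left h3 (Nat.cast_nonneg _)
        rw [e1]
        calc ((T.filter (fun p => zz p.1 p.2 = z)).card : ℝ) * ((1 : ℝ) / nm z)
            ≤ ((4 * B * (2 * C1 + 1) ^ 3 * (4 * B) : ℕ) *
                ((2 * cx a q C1 ^ 2 * B : ℕ) / (nm z : ℝ))) * ((1 : ℝ) / nm z) :=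
              mul_le_mul_of_nonneg_right h2 (by positivity)
          _ = _ := by
              push_cast
              field_simp
    _ = ((4 * B * (2 * C1 + 1) ^ 3 * (4 * B) * (2 * cx a q C1 ^ 2 * B) : ℕ) : ℝ) *
          ∑ z ∈ (bx 3 (2 * cx a q C1 ^ 2 * B)).filter (fun z => qv a z = 0 ∧ 1 ≤ nm z),
            (1 : ℝ) / (nm z : ℝ) ^ 2 := by rw [Finset.mul_sum]
    _ ≤ _ := mul_le_mul_of_nonneg_left htail (Nat.cast_nonneg _)

open scoped Classical in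
theorem same3 {a : Idx 3 → ℤ} (ha : (Hm a).det ≠ 0) (q C1 : ℕ) (hq : 1 ≤ q) (hC1 : 1 ≤ C1)
    (hz : ∃ C : ℝ, 0 < C ∧ ∀ E : ℕ, 1 ≤ E →
      (((bx 3 E).filter fun z => qv a z = 0).card : ℝ) ≤ C * (E : ℝ) ^ (3 / 2 : ℝ)) :
    ∃ C : ℝ, 0 < C ∧ ∃ B0 : ℕ, ∀ B ≥ B0,
      ∑ p ∈ (PR a q C1 B).filter (fun p => lp q p.1 = lp q p.2 ∧
        (B : ℝ) ^ (1 / 4 : ℝ) ≤ nm (zz p.1 p.2) ∧ lp q p.1 ∣ gk p.1 p.2), wt p ≤
          C * (B : ℝ) ^ (7 / 2 : ℝ) := by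
  obtain ⟨Cl, hCl, B1, hB1⟩ := card_l ha q C1 hq hC1
  obtain ⟨Cz, hCz, hz⟩ := hz
  obtain ⟨c0, hc0⟩ : ∃ c0, c0 = 2 * cx a q C1 ^ 2 := ⟨_, rfl⟩
  refine ⟨4 * Cl * (((2 * c0 + 1) ^ 3 * c0 : ℕ) : ℝ) +
    (((2 * c0 + 1) ^ 3 * (4 * (2 * C1 + 1) ^ 3 * (3 * (c0 * ca a))) * ca a : ℕ) : ℝ) +
    ((4 * (2 * C1 + 1) ^ 3 * 4 * c0 : ℕ) : ℝ) * (20 * Cz) + 1, by positivity,
    max B1 (max ((c0 + 1) ^ 4) (ca a * c0 ^ 2 + 2)), fun B hB => ?_⟩
  have g1 : B1 ≤ B := (le_max_left _ _).trans hB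
  have g2 : (c0 + 1) ^ 4 ≤ B := ((le_max_left _ _).trans (le_max_right _ _)).trans hB
  have g3 : ca a * c0 ^ 2 + 2 ≤ B := ((le_max_right _ _).trans (le_max_right _ _)).trans hB
  have hB2 : 2 ≤ B := by
    have := Nat.zero_le (ca a * c0 ^ 2)
    omega
  have hBr : (1 : ℝ) ≤ B := by
    have : 1 ≤ B := by omega
    exact_mod_cast this
  have hBr0 : (0 : ℝ) < B := by linarith
  have hroot : ((c0 : ℝ) + 1) ≤ (B : ℝ) ^ (1 / 4 : ℝ) := by
    have h1 : (((c0 : ℝ) + 1) ^ 4) ^ (((4 : ℕ) : ℝ)⁻¹) = (c0 : ℝ) + 1 :=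
      Real.pow_rpow_inv_natCast (by positivity) (by norm_num)
    have h2 : ((c0 : ℝ) + 1) ^ 4 ≤ B := by exact_mod_cast g2
    have h3 : (1 / 4 : ℝ) = ((4 : ℕ) : ℝ)⁻¹ := by norm_num
    rw [h3, ← h1]
    exact Real.rpow_le_rpow (by positivity) h2 (by positivity)
  set T := (PR a q C1 B).filter (fun p => lp q p.1 = lp q p.2 ∧
        (B : ℝ) ^ (1 / 4 : ℝ) ≤ nm (zz p.1 p.2) ∧ lp q p.1 ∣ gk p.1 p.2) with hTdef
  have hTf : ∀ p ∈ T, SbF a q C1 B p (lp q p.1) (gk p.1 p.2 / lp q p.1) (zz p.1 p.2) ∧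
      ¬ lp q p.1 ∣ gk p.1 p.2 / lp q p.1 := by
    intro p hp
    rw [hTdef, Finset.mem_filter] at hp
    obtain ⟨h1, h2, h3, h4⟩ := hp
    have h := sb_facts hq (by omega) h1 h2 h4
    refine ⟨h, fun hd => ?_⟩
    have h5 : c0 < nm (zz p.1 p.2) := by
      have h6 : (c0 : ℝ) + 1 ≤ nm (zz p.1 p.2) := hroot.trans h3
      have h7 : c0 + 1 ≤ nm (zz p.1 p.2) := by exact_mod_cast h6
      omega
    have h6 := h.kz
    rw [← hc0] at h6
    have h7 : gk p.1 p.2 / lp q p.1 * nm (zz p.1 p.2) < B * nm (zz p.1 p.2) := by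
      refine h6.trans_lt ?_
      rw [mul_comm]
      exact Nat.mul_lt_mul_of_pos_left h5 (by omega)
    have h8 : gk p.1 p.2 / lp q p.1 < B := Nat.lt_of_mul_lt_mul_right h7
    have h9 := Nat.le_of_dvd h.k1 hd
    have h10 := h.lB
    omega
  have hXP : ((XP a q C1 B).card : ℝ) ≤ 4 * B * (Cl * (B : ℝ) ^ 2) := by
    have hmap : ∀ x ∈ XP a q C1 B, lp q x ∈ Icc 1 (4 * B) := by
      intro x hx
      rw [mem_XP hq] at hx
      obtain ⟨h1, h2, h3, _⟩ := pt_lp hq hx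
      exact Finset.mem_Icc.2 ⟨h1.one_lt.le, h3⟩
    rw [Finset.card_eq_sum_card_fiberwise hmap, Nat.cast_sum]
    refine (Finset.sum_le_sum fun l _ => hB1 B g1 l).trans ?_
    rw [Finset.sum_const, Nat.card_Icc, Nat.add_sub_cancel, nsmul_eq_mul]
    push_cast
    exact le_rfl
  rw [← Finset.sum_filter_add_sum_filter_not T (fun p => ∀ i, (lp q p.1 : ℤ) ∣ zz p.1 p.2 i),
    ← Finset.sum_filter_add_sum_filter_not (T.filter fun p =>
      ¬ ∀ i, (lp q p.1 : ℤ) ∣ zz p.1 p.2 i) (fun p => qv a (zz p.1 p.2) = 0)]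
  have s1 := sb_a (a := a) (q := q) (C1 := C1) (B := B) hq (by omega)
    (T.filter fun p => ∀ i, (lp q p.1 : ℤ) ∣ zz p.1 p.2 i) (fun p hp => by
      rw [Finset.mem_filter] at hp
      exact ⟨(hTf p hp.1).1, hp.2⟩)
  have s2 := sb_b2 (a := a) (q := q) (C1 := C1) (B := B) hq hCz.le hz
    ((T.filter fun p => ¬ ∀ i, (lp q p.1 : ℤ) ∣ zz p.1 p.2 i).filter
      fun p => qv a (zz p.1 p.2) = 0) (fun p hp => by
      rw [Finset.mem_filter, Finset.mem_filter] at hp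
      exact ⟨(hTf p hp.1.1).1, (hTf p hp.1.1).2, hp.1.2⟩) (fun p hp => by
      rw [Finset.mem_filter] at hp
      exact hp.2)
  have s3 := sb_b1 (a := a) (q := q) (C1 := C1) (B := B) hq hB2 (by rw [← hc0]; omega)
    ((T.filter fun p => ¬ ∀ i, (lp q p.1 : ℤ) ∣ zz p.1 p.2 i).filter
      fun p => ¬ qv a (zz p.1 p.2) = 0) (fun p hp => by
      rw [Finset.mem_filter, Finset.mem_filter] at hp
      exact ⟨(hTf p hp.1.1).1, (hTf p hp.1.1).2, hp.1.2⟩) (fun p hp => by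
      rw [Finset.mem_filter] at hp
      exact hp.2)
  rw [← hc0] at s1 s2 s3
  have hB3 : (B : ℝ) ^ 3 ≤ (B : ℝ) ^ (7 / 2 : ℝ) := by
    rw [← Real.rpow_natCast]
    exact Real.rpow_le_rpow_of_exponent_le hBr (by norm_num)
  have hB23 : (B : ℝ) ^ 2 ≤ (B : ℝ) ^ 3 := pow_le_pow_right₀ hBr (by norm_num)
  have hBi : (B : ℝ) ^ 3 * (1 / B) = (B : ℝ) ^ 2 := by
    field_simp
  have t1 : ((XP a q C1 B).card : ℝ) * (((2 * c0 + 1) ^ 3 * c0 : ℕ) : ℝ) * (1 / B) ≤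
      4 * Cl * (((2 * c0 + 1) ^ 3 * c0 : ℕ) : ℝ) * (B : ℝ) ^ 3 := by
    have hK : (0 : ℝ) ≤ (((2 * c0 + 1) ^ 3 * c0 : ℕ) : ℝ) := Nat.cast_nonneg _
    generalize (((2 * c0 + 1) ^ 3 * c0 : ℕ) : ℝ) = K at hK ⊢
    calc ((XP a q C1 B).card : ℝ) * K * (1 / B)
        ≤ (4 * B * (Cl * (B : ℝ) ^ 2)) * K * (1 / B) := by
          refine mul_le_mul_of_nonneg_right (mul_le_mul_of_nonneg_right hXP hK) (by positivity)
      _ = 4 * Cl * K * ((B : ℝ) ^ 3 * (1 / B)) := by ring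
      _ = 4 * Cl * K * (B : ℝ) ^ 2 := by rw [hBi]
      _ ≤ 4 * Cl * K * (B : ℝ) ^ 3 := mul_le_mul_of_nonneg_left hB23 (by positivity)
  have t2 : ((4 * B * (2 * C1 + 1) ^ 3 * (4 * B) * (c0 * B) : ℕ) : ℝ) * (20 * Cz) =
      ((4 * (2 * C1 + 1) ^ 3 * 4 * c0 : ℕ) : ℝ) * (20 * Cz) * (B : ℝ) ^ 3 := by
    push_cast
    ring
  have t3 : (((2 * (c0 * B) + 1) ^ 3 *
      (4 * B * (2 * C1 + 1) ^ 3 * (3 * (c0 * ca a))) : ℕ) : ℝ) * (ca a / B) ≤
      (((2 * c0 + 1) ^ 3 * (4 * (2 * C1 + 1) ^ 3 * (3 * (c0 * ca a))) * ca a : ℕ) : ℝ) *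
        (B : ℝ) ^ 3 := by
    have h1 : (2 * ((c0 : ℝ) * B) + 1) ≤ (2 * c0 + 1) * B := by nlinarith
    have h2 : (2 * ((c0 : ℝ) * B) + 1) ^ 3 ≤ ((2 * c0 + 1) * B) ^ 3 :=
      pow_le_pow_left₀ (by positivity) h1 3
    push_cast
    calc (2 * ((c0 : ℝ) * B) + 1) ^ 3 *
          (4 * (B : ℝ) * (2 * (C1 : ℝ) + 1) ^ 3 * (3 * ((c0 : ℝ) * (ca a : ℝ)))) * ((ca a : ℝ) / B)
        ≤ ((2 * (c0 : ℝ) + 1) * B) ^ 3 *
          (4 * (B : ℝ) * (2 * (C1 : ℝ) + 1) ^ 3 * (3 * ((c0 : ℝ) * (ca a : ℝ)))) *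
            ((ca a : ℝ) / B) := by
          refine mul_le_mul_of_nonneg_right (mul_le_mul_of_nonneg_right h2 (by positivity))
            (by positivity)
      _ = (2 * (c0 : ℝ) + 1) ^ 3 * (4 * (2 * (C1 : ℝ) + 1) ^ 3 * (3 * ((c0 : ℝ) * (ca a : ℝ)))) *
            (ca a : ℝ) * (B : ℝ) ^ 3 := by
          field_simp
  have hK0 : (0 : ℝ) ≤ 4 * Cl * (((2 * c0 + 1) ^ 3 * c0 : ℕ) : ℝ) +
    (((2 * c0 + 1) ^ 3 * (4 * (2 * C1 + 1) ^ 3 * (3 * (c0 * ca a))) * ca a : ℕ) : ℝ) +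
    ((4 * (2 * C1 + 1) ^ 3 * 4 * c0 : ℕ) : ℝ) * (20 * Cz) := by positivity
  have hB30 : (0 : ℝ) ≤ (B : ℝ) ^ 3 := by positivity
  rw [t2] at s2
  have s1' := s1.trans t1
  have s3' := s3.trans t3
  refine le_trans (add_le_add s1' (add_le_add s2 s3')) ?_
  refine le_trans (le_of_eq (by ring :
    _ = (4 * Cl * (((2 * c0 + 1) ^ 3 * c0 : ℕ) : ℝ) +
    (((2 * c0 + 1) ^ 3 * (4 * (2 * C1 + 1) ^ 3 * (3 * (c0 * ca a))) * ca a : ℕ) : ℝ) +
    ((4 * (2 * C1 + 1) ^ 3 * 4 * c0 : ℕ) : ℝ) * (20 * Cz)) * (B : ℝ) ^ 3)) ?_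
  refine le_trans (mul_le_mul_of_nonneg_left hB3 hK0) ?_
  refine mul_le_mul_of_nonneg_right (by linarith) (by positivity)

end Pool.Agent.H7.HP
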