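import Pool.Agent.H7.HP.Sam

set_option autoImplicit false
set_option linter.unusedSectionVars false

/-!
# [H7 HP SAMC] pairs with the same prime `l`, `l` does not divide `gk`, 70-120 lines

* `same2`: `l` does not divide `k = gk`, `x1 = y1 = q l`, `k z = q l (u' - u)`, so `l` divides all `z_i`: `z = l t`, `t ≠ 0`, `nm z = l nm t`, `nm t ≤ B^(1/2)`;
  `k l nm t ≤ dl ≤ 2 cx^2 B^2`, so `k ≤ 2 cx^2 B / nm t`. The pair is determined by `x`, `t`, `k` (`k t = q (u' - u)`, `l = lp x`). So the sum is at most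
  `∑_l ∑_{t ≠ 0, nm t ≤ B^(1/2)} ∑_{k ≤ 2 cx^2 B / nm t} C B^2 / (B nm t) ≤ 4B * 2 cx^2 B * C B * ∑_t 1/(nm t)^2 ≤ C B^3 B^(1/2)` (`sum_inv`).
-/

namespace Pool.Agent.H7.HP

open Finset

private theorem sc_nm (l : ℕ) (z t : Fin 3 → ℤ) (h : ∀ i, z i = l * t i) : nm z = l * nm t := by
  apply le_antisymm
  · refine nm_le fun i => ?_
    rw [h i, abs_mul, Nat.abs_cast]
    push_cast
    exact mul_le_mul_of_nonneg_left (le_nm t i) (by positivity)
  · obtain ⟨i, hi⟩ := nm_att t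
    have h1 := le_nm z i
    rw [h i, abs_mul, Nat.abs_cast, hi] at h1
    exact_mod_cast h1

private theorem sc_fact {a : Idx 3 → ℤ} {q C1 B : ℕ} {x y : Fin 5 → ℤ} (hq : 1 ≤ q)
    (hx : IsPt a q C1 B x) (hy : IsPt a q C1 B y) (hxy : x ≠ y) (hl : lp q x = lp q y)
    (hk : ¬ lp q x ∣ gk x y) :
    (∀ i, zz x y i = lp q x * (zz x y i / lp q x)) ∧ (fun i => zz x y i / lp q x) ≠ 0 ∧
      (∀ i, (gk x y : ℤ) * (zz x y i / lp q x) = q * (tl y i - tl x i)) ∧ 0 < gk x y ∧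
      gk x y * nm (fun i => zz x y i / lp q x) ≤ 2 * cx a q C1 ^ 2 * B ∧
      nm (zz x y) = lp q x * nm (fun i => zz x y i / lp q x) := by
  obtain ⟨hlp, hlB, hl4, hx1, -⟩ := pt_lp hq hx
  obtain ⟨-, -, -, hy1, -⟩ := pt_lp hq hy
  have hl0 : (lp q x : ℤ) ≠ 0 := by exact_mod_cast hlp.ne_zero
  have hmul : ∀ i, (gk x y : ℤ) * zz x y i = lp q x * (q * (tl y i - tl x i)) := by
    intro i
    rw [zz_mul x y i, hx1, hy1, ← hl]
    ring
  have hdvd : ∀ i, (lp q x : ℤ) ∣ zz x y i := by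
    intro i
    have h1 : (lp q x : ℤ) ∣ (gk x y : ℤ) * zz x y i := ⟨_, hmul i⟩
    rcases (Nat.prime_iff_prime_int.1 hlp).dvd_or_dvd h1 with h2 | h2
    · exact absurd (Int.natCast_dvd_natCast.1 h2) hk
    · exact h2
  have hz : ∀ i, zz x y i = lp q x * (zz x y i / lp q x) := fun i =>
    (Int.mul_ediv_cancel' (hdvd i)).symm
  have hnm : nm (zz x y) = lp q x * nm (fun i => zz x y i / lp q x) :=
    sc_nm _ _ _ hz
  refine ⟨hz, ?_, ?_, ?_, ?_, hnm⟩
  · intro h0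
    apply zz_ne hq hx hy hxy
    funext i
    rw [hz i]
    have := congrFun h0 i
    simp only [Pi.zero_apply] at this
    rw [this]
    simp
  · intro i
    apply mul_left_cancel₀ hl0
    rw [← hmul i]
    conv_rhs => rw [hz i]
    ring
  · rcases Nat.eq_zero_or_pos (gk x y) with h | h
    · exact absurd (by rw [h]; exact dvd_zero _) hk
    · exact h
  · have h1 := (zz_le x y).trans (dl_le' hq hx hy)
    rw [hnm] at h1
    have hB : 0 < B ∨ B = 0 := by omega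
    rcases hB with hB | hB
    · have h2 : gk x y * nm (fun i => zz x y i / lp q x) * B ≤ 2 * cx a q C1 ^ 2 * B * B := by
        calc gk x y * nm (fun i => zz x y i / lp q x) * B ≤
              gk x y * nm (fun i => zz x y i / lp q x) * lp q x :=
              Nat.mul_le_mul_left _ hlB.le
          _ = gk x y * (lp q x * nm (fun i => zz x y i / lp q x)) := by ring
          _ ≤ _ := h1
          _ = _ := by ring
      exact Nat.le_of_mul_le_mul_right h2 hB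
    · subst hB
      exfalso
      omega

private theorem sc_ext {a : Idx 3 → ℤ} {q C1 B : ℕ} {y y' : Fin 5 → ℤ} (hq : 1 ≤ q)
    (hy : IsPt a q C1 B y) (hy' : IsPt a q C1 B y') (h1 : y 1 = y' 1) (ht : tl y = tl y') :
    y = y' := by
  have e1 := hy.zero
  have e2 := hy'.zero
  unfold ff at e1 e2
  rw [← ht, ← h1] at e2
  have h10 : y 1 ≠ 0 := by
    have := (pt_x1 hq hy).1
    omega
  have h0 : y 0 = y' 0 := by
    apply mul_right_cancel₀ h10
    linarith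
  have a0 := congrFun ht 0
  have a1 := congrFun ht 1
  have a2 := congrFun ht 2
  simp only [tl, Matrix.cons_val_zero, Matrix.cons_val_one, Matrix.cons_val] at a0 a1 a2
  funext i
  fin_cases i
  · exact h0
  · exact h1
  · exact a0
  · exact a1
  · exact a2

open scoped Classical in
theorem same2 {a : Idx 3 → ℤ} (ha : (Hm a).det ≠ 0) (q C1 : ℕ) (hq : 1 ≤ q) (hC1 : 1 ≤ C1) :
    ∃ C : ℝ, 0 < C ∧ ∃ B0 : ℕ, ∀ B ≥ B0,
      ∑ p ∈ (PR a q C1 B).filter (fun p => lp q p.1 = lp q p.2 ∧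
        (nm (zz p.1 p.2) : ℝ) ≤ (B : ℝ) ^ (3 / 2 : ℝ) ∧ ¬ lp q p.1 ∣ gk p.1 p.2), wt p ≤
          C * (B : ℝ) ^ (7 / 2 : ℝ) := by
  obtain ⟨C0, hC0, B0, h0⟩ := card_l ha q C1 hq hC1
  have hc : 0 < cx a q C1 := by unfold cx; omega
  have hcR : (0 : ℝ) < cx a q C1 := by exact_mod_cast hc
  refine ⟨208 * C0 * (cx a q C1 : ℝ) ^ 2, by positivity, B0 + 1, fun B hB => ?_⟩
  have hB1 : 1 ≤ B := by omega
  have hBR : (1 : ℝ) ≤ B := by exact_mod_cast hB1
  have hBp : (0 : ℝ) < B := by linarith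
  set c := cx a q C1 with hcdef
  set W := (PR a q C1 B).filter (fun p => lp q p.1 = lp q p.2 ∧
        (nm (zz p.1 p.2) : ℝ) ≤ (B : ℝ) ^ (3 / 2 : ℝ) ∧ ¬ lp q p.1 ∣ gk p.1 p.2) with hW
  let T : Finset (Fin 3 → ℤ) := (bx 3 (Nat.sqrt B)).filter (fun z => z ≠ 0)
  let Q : Finset ((Fin 5 → ℤ) × (Σ _ : Fin 3 → ℤ, ℕ)) :=
    XP a q C1 B ×ˢ (T.sigma fun t => Icc 1 (2 * c ^ 2 * B / nm t))
  let f : (Fin 5 → ℤ) × (Fin 5 → ℤ) → (Fin 5 → ℤ) × (Σ _ : Fin 3 → ℤ, ℕ) := fun p =>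
    (p.1, ⟨fun i => zz p.1 p.2 i / lp q p.1, gk p.1 p.2⟩)
  let g : (Fin 5 → ℤ) × (Σ _ : Fin 3 → ℤ, ℕ) → ℝ := fun r => 1 / ((B : ℝ) * nm r.2.1)
  have hWp : ∀ p ∈ W, IsPt a q C1 B p.1 ∧ IsPt a q C1 B p.2 ∧ p.1 ≠ p.2 ∧
      lp q p.1 = lp q p.2 ∧ (nm (zz p.1 p.2) : ℝ) ≤ (B : ℝ) ^ (3 / 2 : ℝ) ∧
      ¬ lp q p.1 ∣ gk p.1 p.2 := by
    intro p hp
    rw [hW, mem_filter, PR, mem_filter, mem_product, mem_XP hq, mem_XP hq] at hp
    exact ⟨hp.1.1.1, hp.1.1.2, hp.1.2, hp.2⟩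
  have hmap : ∀ p ∈ W, f p ∈ Q := by
    intro p hp
    obtain ⟨hx, hy, hxy, hl, hz, hk⟩ := hWp p hp
    obtain ⟨f1, f2, f3, f4, f5, f6⟩ := sc_fact hq hx hy hxy hl hk
    obtain ⟨hlp, hlB, hl4, hx1, -⟩ := pt_lp hq hx
    have hn : 0 < nm (fun i => zz p.1 p.2 i / lp q p.1) := nm_pos f2
    simp only [f, Q, T, mem_product, mem_sigma, mem_filter, mem_Icc]
    refine ⟨(mem_XP hq).2 hx, ⟨?_, f2⟩, f4, (Nat.le_div_iff_mul_le hn).2 f5⟩
    have h1 : nm (fun i => zz p.1 p.2 i / lp q p.1) ≤ Nat.sqrt B := by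
      rw [Nat.le_sqrt']
      rw [f6] at hz
      rw [show (3 / 2 : ℝ) = 1 + 1 / 2 by norm_num, Real.rpow_add hBp, Real.rpow_one,
        ← Real.sqrt_eq_rpow] at hz
      push_cast at hz
      have hlB' : (B : ℝ) ≤ lp q p.1 := by exact_mod_cast hlB.le
      have h2 : (B : ℝ) * (nm (fun i => zz p.1 p.2 i / lp q p.1) : ℝ) ≤ B * √(B : ℝ) :=
        (mul_le_mul_of_nonneg_right hlB' (by positivity)).trans hz
      have h3 := le_of_mul_le_mul_left h2 hBp
      have h4 : (nm (fun i => zz p.1 p.2 i / lp q p.1) : ℝ) ^ 2 ≤ B := by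
        calc (nm (fun i => zz p.1 p.2 i / lp q p.1) : ℝ) ^ 2 ≤ (√(B : ℝ)) ^ 2 :=
              pow_le_pow_left₀ (by positivity) h3 2
          _ = B := Real.sq_sqrt hBp.le
      exact_mod_cast h4
    unfold bx
    rw [Fintype.mem_piFinset]
    intro i
    rw [mem_Icc, ← abs_le]
    have h1' : ((nm (fun i => zz p.1 p.2 i / (lp q p.1 : ℤ)) : ℕ) : ℤ) ≤ (Nat.sqrt B : ℤ) := by
      exact_mod_cast h1
    exact (le_nm (fun i => zz p.1 p.2 i / (lp q p.1 : ℤ)) i).trans h1'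
  have hinj : Set.InjOn f (W : Set ((Fin 5 → ℤ) × (Fin 5 → ℤ))) := by
    rintro ⟨x, y⟩ hp ⟨x', y'⟩ hp' he
    have q1 := hWp _ hp
    have q2 := hWp _ hp'
    dsimp only at q1 q2
    obtain ⟨hx, hy, hxy, hl, hz, hk⟩ := q1
    obtain ⟨hx', hy', hxy', hl', hz', hk'⟩ := q2
    obtain ⟨-, -, f3, -, -, -⟩ := sc_fact hq hx hy hxy hl hk
    obtain ⟨-, -, f3', -, -, -⟩ := sc_fact hq hx' hy' hxy' hl' hk'
    simp only [f, Prod.mk.injEq] at he
    obtain ⟨hxx, he2⟩ := he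
    subst hxx
    have ht : (fun i => zz x y i / (lp q x : ℤ)) = fun i => zz x y' i / (lp q x : ℤ) := by
      have := congrArg (fun r : (Σ _ : Fin 3 → ℤ, ℕ) => r.1) he2
      exact this
    have hkk : gk x y = gk x y' := by
      have := congrArg (fun r : (Σ _ : Fin 3 → ℤ, ℕ) => r.2) he2
      exact this
    have hy1 := (pt_lp hq hy).2.2.2.1
    have hy1' := (pt_lp hq hy').2.2.2.1
    have hq0 : (q : ℤ) ≠ 0 := by
      have : q ≠ 0 := by omega
      exact_mod_cast this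
    have : y = y' := by
      refine sc_ext hq hy hy' ?_ ?_
      · rw [hy1, hy1', ← hl, ← hl']
      · funext i
        have e1 := f3 i
        have e2 := f3' i
        have e3 : zz x y i / (lp q x : ℤ) = zz x y' i / (lp q x : ℤ) := congrFun ht i
        rw [← e3, ← hkk, e1] at e2
        have := mul_left_cancel₀ hq0 e2
        linarith
    rw [this]
  have hwt : ∀ p ∈ W, wt p ≤ g (f p) := by
    intro p hp
    obtain ⟨hx, hy, hxy, hl, hz, hk⟩ := hWp p hp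
    obtain ⟨f1, f2, f3, f4, f5, f6⟩ := sc_fact hq hx hy hxy hl hk
    obtain ⟨hlp, hlB, hl4, hx1, -⟩ := pt_lp hq hx
    have hn : 0 < nm (fun i => zz p.1 p.2 i / lp q p.1) := nm_pos f2
    have hnR : (0 : ℝ) < nm (fun i => zz p.1 p.2 i / lp q p.1) := by exact_mod_cast hn
    have h1 := zz_le p.1 p.2
    rw [f6] at h1
    have h2 : ((gk p.1 p.2 : ℝ)) * ((lp q p.1 : ℝ) * nm (fun i => zz p.1 p.2 i / lp q p.1)) ≤
        dl p.1 p.2 := by exact_mod_cast h1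
    have hgR : (0 : ℝ) < gk p.1 p.2 := by exact_mod_cast f4
    have hlR : (B : ℝ) ≤ lp q p.1 := by exact_mod_cast hlB.le
    have h3 : ((gk p.1 p.2 : ℝ)) * ((B : ℝ) * nm (fun i => zz p.1 p.2 i / lp q p.1)) ≤
        dl p.1 p.2 := by
      refine le_trans ?_ h2
      refine mul_le_mul_of_nonneg_left ?_ hgR.le
      exact mul_le_mul_of_nonneg_right hlR hnR.le
    have hdR : (0 : ℝ) < dl p.1 p.2 := lt_of_lt_of_le (by positivity) h3
    simp only [wt, g, f]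
    rw [div_le_div_iff₀ hdR (by positivity)]
    linarith
  have hXP : ((XP a q C1 B).card : ℝ) ≤ 4 * B * (C0 * (B : ℝ) ^ 2) := by
    have hm : ∀ x ∈ XP a q C1 B, lp q x ∈ Icc 1 (4 * B) := by
      intro x hx
      rw [mem_XP hq] at hx
      obtain ⟨hlp, hlB, hl4, -, -⟩ := pt_lp hq hx
      exact mem_Icc.2 ⟨hlp.one_lt.le, hl4⟩
    rw [card_eq_sum_card_fiberwise hm]
    push_cast
    refine (sum_le_sum fun l _ => h0 B (by omega) l).trans (le_of_eq ?_)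
    rw [sum_const, Nat.card_Icc, nsmul_eq_mul]
    simp
  calc ∑ p ∈ W, wt p ≤ ∑ p ∈ W, g (f p) := sum_le_sum hwt
    _ = ∑ r ∈ W.image f, g r := (sum_image hinj).symm
    _ ≤ ∑ r ∈ Q, g r := by
        refine sum_le_sum_of_subset_of_nonneg ?_ fun r _ _ => ?_
        · intro r hr
          obtain ⟨p, hp, rfl⟩ := mem_image.1 hr
          exact hmap p hp
        · simp only [g]
          positivity
    _ = ∑ x ∈ XP a q C1 B, ∑ t ∈ T, ∑ _k ∈ Icc 1 (2 * c ^ 2 * B / nm t),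
          1 / ((B : ℝ) * nm t) := by
        simp only [Q, g]
        rw [sum_product]
        exact sum_congr rfl fun x _ => by rw [sum_sigma]
    _ ≤ ∑ x ∈ XP a q C1 B, ∑ t ∈ T, 2 * (c : ℝ) ^ 2 * (1 / (nm t : ℝ) ^ 2) := by
        refine sum_le_sum fun x _ => sum_le_sum fun t ht => ?_
        have ht0 : 0 < nm t := nm_pos (mem_filter.1 ht).2
        have htR : (0 : ℝ) < nm t := by exact_mod_cast ht0
        rw [sum_const, Nat.card_Icc, nsmul_eq_mul, Nat.add_sub_cancel]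
        have h1 : ((2 * c ^ 2 * B / nm t : ℕ) : ℝ) ≤ 2 * (c : ℝ) ^ 2 * B / nm t := by
          refine Nat.cast_div_le.trans (le_of_eq ?_)
          push_cast
          rfl
        calc ((2 * c ^ 2 * B / nm t : ℕ) : ℝ) * (1 / ((B : ℝ) * nm t)) ≤
              (2 * (c : ℝ) ^ 2 * B / nm t) * (1 / ((B : ℝ) * nm t)) :=
              mul_le_mul_of_nonneg_right h1 (by positivity)
          _ = _ := by field_simp
    _ = ((XP a q C1 B).card : ℝ) * (2 * (c : ℝ) ^ 2 * ∑ t ∈ T, (1 / (nm t : ℝ) ^ 2)) := by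
        rw [sum_const, nsmul_eq_mul, ← mul_sum]
    _ ≤ (4 * B * (C0 * (B : ℝ) ^ 2)) * (2 * (c : ℝ) ^ 2 * (26 * √(B : ℝ))) := by
        have h1 := sum_inv (Nat.sqrt B)
        have h2 : (26 : ℝ) * (Nat.sqrt B : ℝ) ≤ 26 * √(B : ℝ) :=
          mul_le_mul_of_nonneg_left Real.nat_sqrt_le_real_sqrt (by norm_num)
        refine mul_le_mul hXP ?_ ?_ (by positivity)
        · exact mul_le_mul_of_nonneg_left (h1.trans h2) (by positivity)
        · refine mul_nonneg (by positivity) (sum_nonneg fun t _ => by positivity)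
    _ = 208 * C0 * (c : ℝ) ^ 2 * (B : ℝ) ^ (7 / 2 : ℝ) := by
        rw [show (7 / 2 : ℝ) = 3 + 1 / 2 by norm_num, Real.rpow_add hBp, ← Real.sqrt_eq_rpow,
          show (3 : ℝ) = ((3 : ℕ) : ℝ) by norm_num, Real.rpow_natCast]
        push_cast
        ring

end Pool.Agent.H7.HP
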