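import Pool.Agent.H7.HP.Nj
import Pool.Agent.H7.HP.Samb
import Pool.Agent.H7.HP.Samc
import Pool.Agent.H7.HP.Far
import Pool.Agent.H7.HP.Gsp
import Pool.Agent.H7.HP.Prm

set_option autoImplicit false
set_option linter.unusedSectionVars false

/-!
# [H7 HP PSUM] the sum over all pairs of separated points, 100-160 lines

`PG` = pairs of different points of `XG a q C1 B lam`, `lam ≥ B^(-1/2)`, `B` large, `c0 = 2 cx^2`, `Cg` the constant of `dl_zz`.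
(0) For `p ∈ PG`: by `dl_of_sep` and `dl_zz`: `lam x1 ≤ dl/gk ≤ Cg nm zz`, so `nm zz ≥ B^(1/2)/Cg ≥ B^(1/4)`.
(1) `same1` (sum over `nm zz ≥ B^(3/2)`), `same2`, `same3`: pairs of `PG` with the same prime: sum `≤ C B^(7/2)`.
(2) `sum_iso` with `z0 = ⌈B^(1/4)⌉`: different primes, `h(zz) = 0`: `≤ C B^(4 - 1/8)`.
(3) different primes, `h(zz) ≠ 0`, `gk > B^(1/20)` or `dl < B^(2 - 1/20)`: `nm zz ≤ dl/gk ≤ c0 B^(2 - 1/20) =: Z` (`zz_le`, `dl_le'`), `ca Z^2 < B^4`: `sum_ni`: `≤ C B^(4 - 1/20)`.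
(4) different primes, `gk ≤ B^(1/20)`, `dl ≥ B^(2 - 1/20)`: `far` (with `w = 1` for `pair_all`, with `w + 1` for `pair_tail`).
`B^(4 - 1/20)` etc. are `≤ ε (pb B)^2 B^2` for `B` large (`pb_pow`).
`pair_tail`: choose `w` with `C/w ≤ ε/4` and `θ0` with `C θ0^2 ≤ ε/4`.
The sums over `x ∈ XG`, `y ∈ XG.erase x` are sums over pairs of `PR` (`Finset.sum_product`, `XG ⊆ XP`).
-/

namespace Pool.Agent.H7.HP

open Finset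

private theorem ps_union {α : Type*} [DecidableEq α] (f : α → ℝ) (hf : ∀ x, 0 ≤ f x)
    (s t : Finset α) : ∑ x ∈ s ∪ t, f x ≤ ∑ x ∈ s, f x + ∑ x ∈ t, f x := by
  rw [← Finset.sum_union_inter]
  have : 0 ≤ ∑ x ∈ s ∩ t, f x := Finset.sum_nonneg fun x _ => hf x
  linarith

private theorem wt_nonneg (p : (Fin 5 → ℤ) × (Fin 5 → ℤ)) : 0 ≤ wt p := by
  unfold wt
  positivity

open scoped Classical in
private theorem ps_core {a : Idx 3 → ℤ} (ha : (Hm a).det ≠ 0) (q C1 : ℕ) (hq : 1 ≤ q)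
    (hC1 : 1 ≤ C1)
    (hz : ∃ C : ℝ, 0 < C ∧ ∀ E : ℕ, 1 ≤ E →
      (((bx 3 E).filter fun z => qv a z = 0).card : ℝ) ≤ C * (E : ℝ) ^ (3 / 2 : ℝ)) :
    ∃ C : ℝ, 0 < C ∧ ∀ ε : ℝ, 0 < ε → ∃ B0 : ℕ, ∀ B ≥ B0, ∀ lam : ℝ,
      (B : ℝ) ^ (-(1 / 2) : ℝ) ≤ lam → lam ≤ 1 → ∀ (w : ℕ) (θ0 : ℝ), 1 ≤ w → 0 < θ0 →
      ∑ x ∈ XG a q C1 B lam, ∑ y ∈ ((XG a q C1 B lam).erase x).filter
        (fun y => w ≤ gk x y ∨ (dl x y : ℝ) < θ0 * (B : ℝ) ^ 2), (gk x y : ℝ) / dl x y ≤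
        C * (pb B : ℝ) ^ 2 * (B : ℝ) ^ 2 * (1 / w + θ0 ^ 2) +
          ε * (pb B : ℝ) ^ 2 * (B : ℝ) ^ 2 := by
  obtain ⟨Cs1, hCs1, Bs1, hs1⟩ := same1 ha q C1 hq hC1
  obtain ⟨Cs2, hCs2, Bs2, hs2⟩ := same2 ha q C1 hq hC1
  obtain ⟨Cs3, hCs3, Bs3, hs3⟩ := same3 ha q C1 hq hC1 hz
  obtain ⟨Ci, hCi, hiso⟩ := sum_iso a q C1 hq hC1 hz
  obtain ⟨Cn, hCn, hni⟩ := sum_ni a q C1 hq hC1
  obtain ⟨Cf, hCf, Bf, hfar⟩ := far ha q C1 hq hC1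
  obtain ⟨Cg, hCg, hdz⟩ := dl_zz a q C1 hq hC1
  obtain ⟨c0, hc0⟩ : ∃ c0 : ℕ, c0 = 2 * cx a q C1 ^ 2 := ⟨_, rfl⟩
  have hc0p : 0 < c0 := by
    rw [hc0]
    unfold cx
    positivity
  have hc0R : (0 : ℝ) < c0 := by exact_mod_cast hc0p
  refine ⟨Cf, hCf, fun ε hε => ?_⟩
  obtain ⟨K, hK⟩ : ∃ K : ℝ, K = (Cs1 + Cs2 + Cs3 + Ci + Cn * c0) / ε + 1 := ⟨_, rfl⟩
  have hK1 : 1 ≤ K := by
    rw [hK]
    have : 0 ≤ (Cs1 + Cs2 + Cs3 + Ci + Cn * c0) / ε := by positivity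
    linarith
  obtain ⟨Bp, hpb⟩ := pb_pow (1 / 40) (by norm_num) K
  obtain ⟨Bc, hBc⟩ : ∃ Bc : ℕ, (ca a : ℝ) * (c0 : ℝ) ^ 2 + 1 ≤ (Bc : ℝ) ^ (1 / 10 : ℝ) := by
    have h1 : Filter.Tendsto (fun n : ℕ => (n : ℝ) ^ (1 / 10 : ℝ)) Filter.atTop Filter.atTop :=
      (tendsto_rpow_atTop (by norm_num)).comp tendsto_natCast_atTop_atTop
    obtain ⟨n, hn⟩ := (h1.eventually_ge_atTop ((ca a : ℝ) * (c0 : ℝ) ^ 2 + 1)).exists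
    exact ⟨n, hn⟩
  obtain ⟨Bd, hBd⟩ : ∃ Bd : ℕ, (Cg : ℝ) ≤ (Bd : ℝ) ^ (1 / 4 : ℝ) := by
    have h1 : Filter.Tendsto (fun n : ℕ => (n : ℝ) ^ (1 / 4 : ℝ)) Filter.atTop Filter.atTop :=
      (tendsto_rpow_atTop (by norm_num)).comp tendsto_natCast_atTop_atTop
    obtain ⟨n, hn⟩ := (h1.eventually_ge_atTop (Cg : ℝ)).exists
    exact ⟨n, hn⟩
  refine ⟨Bs1 + Bs2 + Bs3 + Bf + Bp + Bc + Bd + q + 2, fun B hB lam hlam hlam1 w θ0 hw hθ0 => ?_⟩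
  have hB2 : 2 ≤ B := by omega
  have hqB : q ≤ B := by omega
  have hBR : (0 : ℝ) < B := by
    have : 0 < B := by omega
    exact_mod_cast this
  have hBR1 : (1 : ℝ) ≤ B := by
    have : 1 ≤ B := by omega
    exact_mod_cast this
  have hBc' : (ca a : ℝ) * (c0 : ℝ) ^ 2 + 1 ≤ (B : ℝ) ^ (1 / 10 : ℝ) :=
    hBc.trans (Real.rpow_le_rpow (Nat.cast_nonneg _)
      (by exact_mod_cast (by omega : Bc ≤ B)) (by norm_num))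
  have hBd' : (Cg : ℝ) ≤ (B : ℝ) ^ (1 / 4 : ℝ) :=
    hBd.trans (Real.rpow_le_rpow (Nat.cast_nonneg _)
      (by exact_mod_cast (by omega : Bd ≤ B)) (by norm_num))
  have hlam0 : 0 < lam := lt_of_lt_of_le (Real.rpow_pos_of_pos hBR _) hlam
  obtain ⟨G, hG⟩ : ∃ G, G = XG a q C1 B lam := ⟨_, rfl⟩
  have hGm : ∀ x ∈ G, IsPt a q C1 B x ∧ Sep lam x := by
    intro x hx
    rw [hG] at hx
    unfold XG at hx
    rw [mem_filter, mem_XP hq] at hx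
    exact hx
  rw [← hG]
  obtain ⟨P, hP⟩ : ∃ P, P = (G ×ˢ G).filter (fun p => p.1 ≠ p.2 ∧
    (w ≤ gk p.1 p.2 ∨ (dl p.1 p.2 : ℝ) < θ0 * (B : ℝ) ^ 2)) := ⟨_, rfl⟩
  have hsum : ∑ x ∈ G, ∑ y ∈ (G.erase x).filter
        (fun y => w ≤ gk x y ∨ (dl x y : ℝ) < θ0 * (B : ℝ) ^ 2), (gk x y : ℝ) / dl x y =
        ∑ p ∈ P, wt p := by
    rw [hP, Finset.sum_filter, Finset.sum_product]
    refine Finset.sum_congr rfl fun x _ => ?_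
    rw [← Finset.sum_filter]
    have h1 : (G.erase x).filter (fun y => w ≤ gk x y ∨ (dl x y : ℝ) < θ0 * (B : ℝ) ^ 2) =
        G.filter (fun y => x ≠ y ∧ (w ≤ gk x y ∨ (dl x y : ℝ) < θ0 * (B : ℝ) ^ 2)) := by
      ext y
      rw [mem_filter, mem_filter, mem_erase]
      constructor
      · rintro ⟨⟨h2, h3⟩, h4⟩
        exact ⟨h3, h2.symm, h4⟩
      · rintro ⟨h3, h2, h4⟩
        exact ⟨⟨h2.symm, h3⟩, h4⟩
    rw [h1]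
    rfl
  rw [hsum]
  -- the classes
  obtain ⟨z0, hz0⟩ : ∃ z0 : ℕ, z0 = ⌈(B : ℝ) ^ (1 / 4 : ℝ)⌉₊ := ⟨_, rfl⟩
  have hB4 : (1 : ℝ) ≤ (B : ℝ) ^ (1 / 4 : ℝ) := Real.one_le_rpow hBR1 (by norm_num)
  have hz0a : (B : ℝ) ^ (1 / 4 : ℝ) ≤ z0 := by
    rw [hz0]
    exact Nat.le_ceil _
  have hz01 : 1 ≤ z0 := by
    have : (1 : ℝ) ≤ z0 := hB4.trans hz0a
    exact_mod_cast this
  obtain ⟨Z, hZ⟩ : ∃ Z : ℕ, Z = ⌊(c0 : ℝ) * (B : ℝ) ^ (2 - 1 / 20 : ℝ)⌋₊ := ⟨_, rfl⟩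
  have hZa : (Z : ℝ) ≤ (c0 : ℝ) * (B : ℝ) ^ (2 - 1 / 20 : ℝ) := by
    rw [hZ]
    exact Nat.floor_le (by positivity)
  have hZb : ca a * Z ^ 2 < B ^ 4 := by
    have h1 : (ca a : ℝ) * (Z : ℝ) ^ 2 < (B : ℝ) ^ 4 := by
      have h2 : (Z : ℝ) ^ 2 ≤ (c0 : ℝ) ^ 2 * (B : ℝ) ^ (39 / 10 : ℝ) := by
        refine (pow_le_pow_left₀ (Nat.cast_nonneg _) hZa 2).trans (le_of_eq ?_)
        rw [mul_pow, ← Real.rpow_natCast ((B : ℝ) ^ (2 - 1 / 20 : ℝ)) 2, ← Real.rpow_mul hBR.le]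
        congr 2
        push_cast
        norm_num
      have h3 : (B : ℝ) ^ 4 = (B : ℝ) ^ (39 / 10 : ℝ) * (B : ℝ) ^ (1 / 10 : ℝ) := by
        rw [← Real.rpow_add hBR, ← Real.rpow_natCast (B : ℝ) 4]
        congr 1
        push_cast
        norm_num
      have h4 : (0 : ℝ) < (B : ℝ) ^ (39 / 10 : ℝ) := by positivity
      have hca0 : (0 : ℝ) ≤ ca a := Nat.cast_nonneg _
      calc (ca a : ℝ) * (Z : ℝ) ^ 2 ≤ ca a * ((c0 : ℝ) ^ 2 * (B : ℝ) ^ (39 / 10 : ℝ)) :=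
            mul_le_mul_of_nonneg_left h2 hca0
        _ = (B : ℝ) ^ (39 / 10 : ℝ) * (ca a * (c0 : ℝ) ^ 2) := by ring
        _ < (B : ℝ) ^ (39 / 10 : ℝ) * (B : ℝ) ^ (1 / 10 : ℝ) :=
            mul_lt_mul_of_pos_left (by linarith) h4
        _ = (B : ℝ) ^ 4 := h3.symm
    exact_mod_cast h1
  have hcov : P ⊆ ((((((PR a q C1 B).filter (fun p => lp q p.1 = lp q p.2 ∧
        (B : ℝ) ^ (3 / 2 : ℝ) ≤ nm (zz p.1 p.2))) ∪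
      ((PR a q C1 B).filter (fun p => lp q p.1 = lp q p.2 ∧
        (nm (zz p.1 p.2) : ℝ) ≤ (B : ℝ) ^ (3 / 2 : ℝ) ∧ ¬ lp q p.1 ∣ gk p.1 p.2))) ∪
      ((PR a q C1 B).filter (fun p => lp q p.1 = lp q p.2 ∧
        (B : ℝ) ^ (1 / 4 : ℝ) ≤ nm (zz p.1 p.2) ∧ lp q p.1 ∣ gk p.1 p.2))) ∪
      ((PR a q C1 B).filter (fun p => lp q p.1 ≠ lp q p.2 ∧ qv a (zz p.1 p.2) = 0 ∧
        z0 ≤ nm (zz p.1 p.2)))) ∪
      ((PR a q C1 B).filter (fun p => lp q p.1 ≠ lp q p.2 ∧ qv a (zz p.1 p.2) ≠ 0 ∧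
        nm (zz p.1 p.2) ≤ Z))) ∪
      ((PR a q C1 B).filter (fun p => lp q p.1 ≠ lp q p.2 ∧
        (gk p.1 p.2 : ℝ) ≤ (B : ℝ) ^ (1 / 20 : ℝ) ∧
        (B : ℝ) ^ (2 - 1 / 20 : ℝ) ≤ dl p.1 p.2 ∧
        (w ≤ gk p.1 p.2 ∨ (dl p.1 p.2 : ℝ) < θ0 * (B : ℝ) ^ 2))) := by
    intro p hp
    rw [hP, mem_filter, mem_product] at hp
    obtain ⟨⟨hp1, hp2⟩, hne, hT⟩ := hp
    obtain ⟨hx, hsx⟩ := hGm _ hp1
    obtain ⟨hy, hsy⟩ := hGm _ hp2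
    have hPR : p ∈ PR a q C1 B := by
      unfold PR
      rw [mem_filter, mem_product, mem_XP hq, mem_XP hq]
      exact ⟨⟨hx, hy⟩, hne⟩
    have hmn := pt_ne hq hx hy hne
    have hgk := gk_pos hmn
    have hgkR : (0 : ℝ) < gk p.1 p.2 := by exact_mod_cast hgk
    have hx1 := (pt_x1 hq hx).1
    have hx10 : 0 < p.1 1 := lt_of_le_of_lt (Int.natCast_nonneg B) hx1
    have hx1R : (B : ℝ) < (p.1 1 : ℝ) := by exact_mod_cast hx1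
    have hd1 := dl_of_sep hx10 hlam0 hlam1 hsx hx.prim hmn
    have hd2 := hdz B p.1 p.2 hx hy
    have hd2R : (dl p.1 p.2 : ℝ) ≤ Cg * (gk p.1 p.2 * nm (zz p.1 p.2)) := by exact_mod_cast hd2
    have hnm : (B : ℝ) ^ (1 / 4 : ℝ) ≤ nm (zz p.1 p.2) := by
      have h1 : lam * p.1 1 * gk p.1 p.2 ≤ (Cg * nm (zz p.1 p.2)) * gk p.1 p.2 := by
        refine hd1.trans (hd2R.trans (le_of_eq ?_))
        ring
      have h2 : lam * p.1 1 ≤ Cg * nm (zz p.1 p.2) := le_of_mul_le_mul_right h1 hgkR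
      have h3 : (B : ℝ) ^ (-(1 / 2) : ℝ) * B ≤ lam * p.1 1 :=
        mul_le_mul hlam hx1R.le hBR.le hlam0.le
      have h4 : (B : ℝ) ^ (-(1 / 2) : ℝ) * B = (B : ℝ) ^ (1 / 4 : ℝ) * (B : ℝ) ^ (1 / 4 : ℝ) := by
        rw [← Real.rpow_add hBR]
        nth_rewrite 2 [← Real.rpow_one (B : ℝ)]
        rw [← Real.rpow_add hBR]
        norm_num
      rw [h4] at h3
      have h5 : (Cg : ℝ) * nm (zz p.1 p.2) ≤ (B : ℝ) ^ (1 / 4 : ℝ) * nm (zz p.1 p.2) :=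
        mul_le_mul_of_nonneg_right hBd' (Nat.cast_nonneg _)
      have h6 : (B : ℝ) ^ (1 / 4 : ℝ) * (B : ℝ) ^ (1 / 4 : ℝ) ≤
          (B : ℝ) ^ (1 / 4 : ℝ) * nm (zz p.1 p.2) := h3.trans (h2.trans h5)
      exact le_of_mul_le_mul_left h6 (by positivity)
    rw [mem_union, mem_union, mem_union, mem_union, mem_union, mem_filter, mem_filter, mem_filter,
      mem_filter, mem_filter, mem_filter]
    by_cases c1 : lp q p.1 = lp q p.2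
    · by_cases c2 : lp q p.1 ∣ gk p.1 p.2
      · exact Or.inl (Or.inl (Or.inl (Or.inr ⟨hPR, c1, hnm, c2⟩)))
      · by_cases c3 : (B : ℝ) ^ (3 / 2 : ℝ) ≤ nm (zz p.1 p.2)
        · exact Or.inl (Or.inl (Or.inl (Or.inl (Or.inl ⟨hPR, c1, c3⟩))))
        · push Not at c3
          exact Or.inl (Or.inl (Or.inl (Or.inl (Or.inr ⟨hPR, c1, c3.le, c2⟩))))
    · by_cases c4 : qv a (zz p.1 p.2) = 0
      · refine Or.inl (Or.inl (Or.inr ⟨hPR, c1, c4, ?_⟩))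
        rw [hz0]
        exact Nat.ceil_le.2 hnm
      · by_cases c5 : (gk p.1 p.2 : ℝ) ≤ (B : ℝ) ^ (1 / 20 : ℝ) ∧
            (B : ℝ) ^ (2 - 1 / 20 : ℝ) ≤ dl p.1 p.2
        · exact Or.inr ⟨hPR, c1, c5.1, c5.2, hT⟩
        · refine Or.inl (Or.inr ⟨hPR, c1, c4, ?_⟩)
          rw [hZ]
          refine Nat.le_floor ?_
          have h1 := zz_le p.1 p.2
          have h1R : (gk p.1 p.2 : ℝ) * nm (zz p.1 p.2) ≤ dl p.1 p.2 := by exact_mod_cast h1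
          have h2 := dl_le' hq hx hy
          rw [← hc0] at h2
          have h2R : (dl p.1 p.2 : ℝ) ≤ c0 * (B : ℝ) ^ 2 := by exact_mod_cast h2
          have hnm0 : (0 : ℝ) ≤ nm (zz p.1 p.2) := Nat.cast_nonneg _
          rw [not_and_or] at c5
          rcases c5 with c5 | c5
          · push Not at c5
            have h3 : (B : ℝ) ^ 2 = (B : ℝ) ^ (2 - 1 / 20 : ℝ) * (B : ℝ) ^ (1 / 20 : ℝ) := by
              rw [← Real.rpow_add hBR, ← Real.rpow_natCast (B : ℝ) 2]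
              congr 1
              push_cast
              norm_num
            have h4 : (nm (zz p.1 p.2) : ℝ) * (B : ℝ) ^ (1 / 20 : ℝ) ≤
                (c0 * (B : ℝ) ^ (2 - 1 / 20 : ℝ)) * (B : ℝ) ^ (1 / 20 : ℝ) := by
              calc (nm (zz p.1 p.2) : ℝ) * (B : ℝ) ^ (1 / 20 : ℝ) ≤
                    nm (zz p.1 p.2) * gk p.1 p.2 := mul_le_mul_of_nonneg_left c5.le hnm0
                _ = gk p.1 p.2 * nm (zz p.1 p.2) := by ring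
                _ ≤ c0 * (B : ℝ) ^ 2 := h1R.trans h2R
                _ = _ := by rw [h3]; ring
            exact le_of_mul_le_mul_right h4 (by positivity)
          · push Not at c5
            have h3 : (nm (zz p.1 p.2) : ℝ) ≤ gk p.1 p.2 * nm (zz p.1 p.2) := by
              have h4 : (1 : ℝ) ≤ gk p.1 p.2 := by exact_mod_cast hgk
              nlinarith
            have h5 : (B : ℝ) ^ (2 - 1 / 20 : ℝ) ≤ c0 * (B : ℝ) ^ (2 - 1 / 20 : ℝ) := by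
              have h6 : (1 : ℝ) ≤ c0 := by exact_mod_cast hc0p
              have h7 : (0 : ℝ) ≤ (B : ℝ) ^ (2 - 1 / 20 : ℝ) := by positivity
              nlinarith
            linarith
  have hall := Finset.sum_le_sum_of_subset_of_nonneg hcov (f := wt) fun p _ _ => wt_nonneg p
  have u1 := hs1 B (by omega)
  have u2 := hs2 B (by omega)
  have u3 := hs3 B (by omega)
  have u4 := hiso B z0 (by omega) hqB hz01
  have u5 := hni B Z hB2 hqB hZb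
  have u6 := hfar B (by omega) w θ0 hw hθ0
  have v5 := ps_union wt wt_nonneg _ _ |>.trans' hall
  have v4 := ps_union wt wt_nonneg
    (((((PR a q C1 B).filter (fun p => lp q p.1 = lp q p.2 ∧
        (B : ℝ) ^ (3 / 2 : ℝ) ≤ nm (zz p.1 p.2))) ∪
      ((PR a q C1 B).filter (fun p => lp q p.1 = lp q p.2 ∧
        (nm (zz p.1 p.2) : ℝ) ≤ (B : ℝ) ^ (3 / 2 : ℝ) ∧ ¬ lp q p.1 ∣ gk p.1 p.2))) ∪
      ((PR a q C1 B).filter (fun p => lp q p.1 = lp q p.2 ∧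
        (B : ℝ) ^ (1 / 4 : ℝ) ≤ nm (zz p.1 p.2) ∧ lp q p.1 ∣ gk p.1 p.2))) ∪
      ((PR a q C1 B).filter (fun p => lp q p.1 ≠ lp q p.2 ∧ qv a (zz p.1 p.2) = 0 ∧
        z0 ≤ nm (zz p.1 p.2))))
      ((PR a q C1 B).filter (fun p => lp q p.1 ≠ lp q p.2 ∧ qv a (zz p.1 p.2) ≠ 0 ∧
        nm (zz p.1 p.2) ≤ Z))
  have v3 := ps_union wt wt_nonneg
    ((((PR a q C1 B).filter (fun p => lp q p.1 = lp q p.2 ∧
        (B : ℝ) ^ (3 / 2 : ℝ) ≤ nm (zz p.1 p.2))) ∪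
      ((PR a q C1 B).filter (fun p => lp q p.1 = lp q p.2 ∧
        (nm (zz p.1 p.2) : ℝ) ≤ (B : ℝ) ^ (3 / 2 : ℝ) ∧ ¬ lp q p.1 ∣ gk p.1 p.2))) ∪
      ((PR a q C1 B).filter (fun p => lp q p.1 = lp q p.2 ∧
        (B : ℝ) ^ (1 / 4 : ℝ) ≤ nm (zz p.1 p.2) ∧ lp q p.1 ∣ gk p.1 p.2)))
      ((PR a q C1 B).filter (fun p => lp q p.1 ≠ lp q p.2 ∧ qv a (zz p.1 p.2) = 0 ∧
        z0 ≤ nm (zz p.1 p.2)))
  have v2 := ps_union wt wt_nonneg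
    (((PR a q C1 B).filter (fun p => lp q p.1 = lp q p.2 ∧
        (B : ℝ) ^ (3 / 2 : ℝ) ≤ nm (zz p.1 p.2))) ∪
      ((PR a q C1 B).filter (fun p => lp q p.1 = lp q p.2 ∧
        (nm (zz p.1 p.2) : ℝ) ≤ (B : ℝ) ^ (3 / 2 : ℝ) ∧ ¬ lp q p.1 ∣ gk p.1 p.2)))
      ((PR a q C1 B).filter (fun p => lp q p.1 = lp q p.2 ∧
        (B : ℝ) ^ (1 / 4 : ℝ) ≤ nm (zz p.1 p.2) ∧ lp q p.1 ∣ gk p.1 p.2))
  have v1 := ps_union wt wt_nonneg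
    ((PR a q C1 B).filter (fun p => lp q p.1 = lp q p.2 ∧
        (B : ℝ) ^ (3 / 2 : ℝ) ≤ nm (zz p.1 p.2)))
      ((PR a q C1 B).filter (fun p => lp q p.1 = lp q p.2 ∧
        (nm (zz p.1 p.2) : ℝ) ≤ (B : ℝ) ^ (3 / 2 : ℝ) ∧ ¬ lp q p.1 ∣ gk p.1 p.2))
  -- the error terms
  obtain ⟨Y, hY⟩ : ∃ Y : ℝ, Y = (B : ℝ) ^ (4 - 1 / 20 : ℝ) := ⟨_, rfl⟩
  have hY0 : 0 < Y := by rw [hY]; positivity
  have t1 : (B : ℝ) ^ (7 / 2 : ℝ) ≤ Y := by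
    rw [hY]
    exact Real.rpow_le_rpow_of_exponent_le hBR1 (by norm_num)
  have t2 : (B : ℝ) ^ 4 / (z0 : ℝ) ^ (1 / 2 : ℝ) ≤ Y := by
    have h1 : (B : ℝ) ^ (1 / 8 : ℝ) ≤ (z0 : ℝ) ^ (1 / 2 : ℝ) := by
      have h2 := Real.rpow_le_rpow (by positivity) hz0a (by norm_num : (0 : ℝ) ≤ 1 / 2)
      rw [← Real.rpow_mul hBR.le] at h2
      norm_num at h2
      norm_num
      exact h2
    rw [div_le_iff₀ (by positivity)]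
    calc (B : ℝ) ^ 4 = (B : ℝ) ^ (4 - 1 / 8 : ℝ) * (B : ℝ) ^ (1 / 8 : ℝ) := by
          rw [← Real.rpow_add hBR, ← Real.rpow_natCast (B : ℝ) 4]
          congr 1
          push_cast
          norm_num
      _ ≤ Y * (z0 : ℝ) ^ (1 / 2 : ℝ) := by
          refine mul_le_mul ?_ h1 (by positivity) hY0.le
          rw [hY]
          exact Real.rpow_le_rpow_of_exponent_le hBR1 (by norm_num)
  have t3 : (B : ℝ) ^ 2 * Z ≤ c0 * Y := by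
    calc (B : ℝ) ^ 2 * Z ≤ (B : ℝ) ^ 2 * (c0 * (B : ℝ) ^ (2 - 1 / 20 : ℝ)) :=
          mul_le_mul_of_nonneg_left hZa (by positivity)
      _ = c0 * ((B : ℝ) ^ (2 - 1 / 20 : ℝ) * (B : ℝ) ^ 2) := by ring
      _ = c0 * Y := by
          rw [hY]
          congr 1
          rw [← Real.rpow_natCast (B : ℝ) 2, ← Real.rpow_add hBR]
          congr 1
          push_cast
          norm_num
  have t4 : (Cs1 + Cs2 + Cs3 + Ci + Cn * c0) * Y ≤ ε * (pb B : ℝ) ^ 2 * (B : ℝ) ^ 2 := by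
    have h1 := hpb B (by omega)
    have h2 : 0 ≤ K * (B : ℝ) ^ (1 - 1 / 40 : ℝ) := by positivity
    have h3 := pow_le_pow_left₀ h2 h1 2
    have h4 : (K * (B : ℝ) ^ (1 - 1 / 40 : ℝ)) ^ 2 * (B : ℝ) ^ 2 = K ^ 2 * Y := by
      rw [hY, mul_pow, mul_assoc]
      congr 1
      rw [← Real.rpow_natCast ((B : ℝ) ^ (1 - 1 / 40 : ℝ)) 2, ← Real.rpow_mul hBR.le,
        ← Real.rpow_natCast (B : ℝ) 2, ← Real.rpow_add hBR]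
      congr 1
      push_cast
      norm_num
    have h5 : (Cs1 + Cs2 + Cs3 + Ci + Cn * c0) ≤ ε * K ^ 2 := by
      have h6 : ε * K = (Cs1 + Cs2 + Cs3 + Ci + Cn * c0) + ε := by
        rw [hK]
        field_simp
      have h7 : ε * K ≤ ε * K ^ 2 := by
        refine mul_le_mul_of_nonneg_left ?_ hε.le
        nlinarith
      linarith
    calc (Cs1 + Cs2 + Cs3 + Ci + Cn * c0) * Y ≤ ε * K ^ 2 * Y :=
          mul_le_mul_of_nonneg_right h5 hY0.le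
      _ = ε * ((K * (B : ℝ) ^ (1 - 1 / 40 : ℝ)) ^ 2 * (B : ℝ) ^ 2) := by rw [h4]; ring
      _ ≤ ε * ((pb B : ℝ) ^ 2 * (B : ℝ) ^ 2) := by
          refine mul_le_mul_of_nonneg_left ?_ hε.le
          exact mul_le_mul_of_nonneg_right h3 (by positivity)
      _ = _ := by ring
  have w1 : Cs1 * (B : ℝ) ^ (7 / 2 : ℝ) ≤ Cs1 * Y := mul_le_mul_of_nonneg_left t1 hCs1.le
  have w2 : Cs2 * (B : ℝ) ^ (7 / 2 : ℝ) ≤ Cs2 * Y := mul_le_mul_of_nonneg_left t1 hCs2.le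
  have w3 : Cs3 * (B : ℝ) ^ (7 / 2 : ℝ) ≤ Cs3 * Y := mul_le_mul_of_nonneg_left t1 hCs3.le
  have w4 : Ci * (B : ℝ) ^ 4 / (z0 : ℝ) ^ (1 / 2 : ℝ) ≤ Ci * Y := by
    rw [mul_div_assoc]
    exact mul_le_mul_of_nonneg_left t2 hCi.le
  have w5 : Cn * (B : ℝ) ^ 2 * Z ≤ Cn * c0 * Y := by
    rw [mul_assoc, mul_assoc]
    exact mul_le_mul_of_nonneg_left t3 hCn.le
  have w6 : (Cs1 + Cs2 + Cs3 + Ci + Cn * c0) * Y =
      Cs1 * Y + Cs2 * Y + Cs3 * Y + Ci * Y + Cn * c0 * Y := by ring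
  linarith

open scoped Classical in
theorem pair_all {a : Idx 3 → ℤ} (ha : (Hm a).det ≠ 0) (q C1 : ℕ) (hq : 1 ≤ q) (hC1 : 1 ≤ C1)
    (hz : ∃ C : ℝ, 0 < C ∧ ∀ E : ℕ, 1 ≤ E →
      (((bx 3 E).filter fun z => qv a z = 0).card : ℝ) ≤ C * (E : ℝ) ^ (3 / 2 : ℝ)) :
    ∃ C : ℝ, 0 < C ∧ ∃ B0 : ℕ, ∀ B ≥ B0, ∀ lam : ℝ, (B : ℝ) ^ (-(1 / 2) : ℝ) ≤ lam → lam ≤ 1 →
      ∑ x ∈ XG a q C1 B lam, ∑ y ∈ (XG a q C1 B lam).erase x, (gk x y : ℝ) / dl x y ≤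
        C * (pb B : ℝ) ^ 2 * (B : ℝ) ^ 2 := by
  obtain ⟨C, hC, h⟩ := ps_core ha q C1 hq hC1 hz
  obtain ⟨B0, h0⟩ := h 1 one_pos
  refine ⟨2 * C + 1, by positivity, B0, fun B hB lam hl1 hl2 => ?_⟩
  have h1 := h0 B hB lam hl1 hl2 1 1 le_rfl one_pos
  have h2 : ∀ x ∈ XG a q C1 B lam, ((XG a q C1 B lam).erase x).filter
        (fun y => 1 ≤ gk x y ∨ (dl x y : ℝ) < 1 * (B : ℝ) ^ 2) = (XG a q C1 B lam).erase x := by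
    intro x hx
    refine Finset.filter_true_of_mem fun y hy => ?_
    left
    rw [mem_erase] at hy
    obtain ⟨hy1, hy2⟩ := hy
    unfold XG at hx hy2
    rw [mem_filter, mem_XP hq] at hx hy2
    exact gk_pos (pt_ne hq hx.1 hy2.1 (Ne.symm hy1))
  have h3 : ∑ x ∈ XG a q C1 B lam, ∑ y ∈ ((XG a q C1 B lam).erase x).filter
        (fun y => 1 ≤ gk x y ∨ (dl x y : ℝ) < 1 * (B : ℝ) ^ 2), (gk x y : ℝ) / dl x y =
      ∑ x ∈ XG a q C1 B lam, ∑ y ∈ (XG a q C1 B lam).erase x, (gk x y : ℝ) / dl x y :=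
    Finset.sum_congr rfl fun x hx => by rw [h2 x hx]
  rw [h3] at h1
  refine h1.trans (le_of_eq ?_)
  push_cast
  ring

open scoped Classical in
theorem pair_tail {a : Idx 3 → ℤ} (ha : (Hm a).det ≠ 0) (q C1 : ℕ) (hq : 1 ≤ q) (hC1 : 1 ≤ C1)
    (hz : ∃ C : ℝ, 0 < C ∧ ∀ E : ℕ, 1 ≤ E →
      (((bx 3 E).filter fun z => qv a z = 0).card : ℝ) ≤ C * (E : ℝ) ^ (3 / 2 : ℝ))
    (ε : ℝ) (hε : 0 < ε) :
    ∃ (w : ℕ) (θ0 : ℝ), 0 < θ0 ∧ ∃ B0 : ℕ, ∀ B ≥ B0, ∀ lam : ℝ,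
      (B : ℝ) ^ (-(1 / 2) : ℝ) ≤ lam → lam ≤ 1 →
      ∑ x ∈ XG a q C1 B lam, ∑ y ∈ ((XG a q C1 B lam).erase x).filter
        (fun y => w < gk x y ∨ (dl x y : ℝ) < θ0 * (B : ℝ) ^ 2), (gk x y : ℝ) / dl x y ≤
        ε * (pb B : ℝ) ^ 2 * (B : ℝ) ^ 2 := by
  obtain ⟨C, hC, h⟩ := ps_core ha q C1 hq hC1 hz
  obtain ⟨w, hw⟩ := exists_nat_gt (4 * C / ε)
  obtain ⟨θ0, hθ⟩ : ∃ θ0 : ℝ, θ0 = min 1 (ε / (4 * C)) := ⟨_, rfl⟩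
  have hθ0 : 0 < θ0 := by
    rw [hθ]
    exact lt_min one_pos (by positivity)
  have hθ1 : θ0 ≤ 1 := by rw [hθ]; exact min_le_left _ _
  have hθ2 : θ0 ≤ ε / (4 * C) := by rw [hθ]; exact min_le_right _ _
  obtain ⟨B0, h0⟩ := h (ε / 4) (by positivity)
  refine ⟨w, θ0, hθ0, B0, fun B hB lam hl1 hl2 => ?_⟩
  have h1 := h0 B hB lam hl1 hl2 (w + 1) θ0 (by omega) hθ0
  refine h1.trans ?_
  have e1 : C * (1 / ((w + 1 : ℕ) : ℝ)) ≤ ε / 4 := by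
    have h2 : (0 : ℝ) < ((w + 1 : ℕ) : ℝ) := by positivity
    rw [mul_one_div, div_le_iff₀ h2]
    push_cast
    rw [div_lt_iff₀ hε] at hw
    nlinarith
  have e2 : C * θ0 ^ 2 ≤ ε / 4 := by
    have h2 : θ0 ^ 2 ≤ ε / (4 * C) := by nlinarith
    calc C * θ0 ^ 2 ≤ C * (ε / (4 * C)) := mul_le_mul_of_nonneg_left h2 hC.le
      _ = ε / 4 := by field_simp
  have h3 : (0 : ℝ) ≤ (pb B : ℝ) ^ 2 * (B : ℝ) ^ 2 := by positivity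
  calc C * (pb B : ℝ) ^ 2 * (B : ℝ) ^ 2 * (1 / ((w + 1 : ℕ) : ℝ) + θ0 ^ 2) +
        ε / 4 * (pb B : ℝ) ^ 2 * (B : ℝ) ^ 2 =
        (C * (1 / ((w + 1 : ℕ) : ℝ)) + C * θ0 ^ 2 + ε / 4) *
          ((pb B : ℝ) ^ 2 * (B : ℝ) ^ 2) := by ring
    _ ≤ ε * ((pb B : ℝ) ^ 2 * (B : ℝ) ^ 2) := mul_le_mul_of_nonneg_right (by linarith) h3
    _ = _ := by ring

end Pool.Agent.H7.HP
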