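import Pool.Agent.H7.HP.Cnt
import Pool.Agent.H7.HP.Cnt2

set_option autoImplicit false
set_option linter.unusedSectionVars false

/-!
# [H7 HP VAR] the variance of the number of points, 130-200 lines

PROOF. `Φ g = max 0 (2 - ‖g‖ / A)`, `‖g‖` the sup norm of `fun p => (g p : ℝ)`: `Φ ≥ 1` on `bf 5 A`, `Φ = 0` outside `bf 5 (2 A)`,
`0 ≤ Φ ≤ 2`, `|Φ (g + v) - Φ g| ≤ ‖v‖ / A`. `∑_{g ∈ bf 5 A} (r_0 - r_J)^2 ≤ ∑_{g ∈ bf 5 (2A)} Φ g (r_0 - r_J)^2 = ∑_{x, y} V x y`,
`V x y = ∑_g Φ g (1[g x = 0] - 1[g x = J]) (1[g y = 0] - 1[g y = J])`.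
Diagonal: `|V x x| ≤ 2 ∑_{g ∈ bf 5 (2A)} (1[g x = 0] + 1[g x = J]) ≤ C A^14 / X^2` (`cnt1` with `A' = 2A`).
`x ≠ y`: always `|V x y| ≤ 2 * 4 * (cnt2 with A' = 2A)`. If `k ∣ J` let `v` be from `shift2` (`v x = J`, `v y = 0`),
`‖v‖ ≤ T := 2 K |J| / Δ + 16 R^2`. If `T ≤ A`: `V x y = ∑_{β ∈ {0, J}} ± (N 0 β - N J β)`, `N α β = ∑_g Φ g 1[g x = α, g y = β]`
(sum over `bf 5 (3A)`; `Φ` vanishes outside `bf 5 (2A)`), and `N J β = ∑_g Φ (g + v) 1[g x = 0, g y = β]` (translation by `v`;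
the sums may be taken over `bf 5 (3A)`), so
`|N 0 β - N J β| ≤ (T / A) #{g ∈ bf 5 (3A) : g x = 0, g y = β}`. If `T > A` use the trivial bound, `min 1 (T/A) = 1`.
In both cases `|V x y| ≤ C * min 1 ((|J| / Δ + R^2) / A) * A^13 k / (X^2 Δ)` (`min 1 (C z) ≤ C min 1 z` for `C ≥ 1`).
-/

namespace Pool.Agent.H7.HP

open Finset

open scoped Classical in
/-- the weight of a pair in the variance -/
noncomputable def om (A : ℕ) (R : ℝ) (J : ℤ) (x y : Fin 5 → ℤ) : ℝ :=
  if (gk x y : ℤ) ∣ J then min 1 ((|(J : ℝ)| / dl x y + R ^ 2) / A) else 1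

private theorem v_mem_bf {n T : ℕ} {g : Idx n → ℤ} : g ∈ bf n T ↔ ∀ p, |(g p : ℝ)| ≤ T := by
  unfold bf
  rw [Fintype.mem_piFinset]
  refine forall_congr' fun p => ?_
  rw [mem_Icc, ← abs_le]
  constructor
  · intro h
    have : ((|g p| : ℤ) : ℝ) ≤ ((T : ℤ) : ℝ) := by exact_mod_cast h
    simpa using this
  · intro h
    have : ((|g p| : ℤ) : ℝ) ≤ ((T : ℤ) : ℝ) := by simpa using h
    exact_mod_cast this

private noncomputable def phV (A : ℕ) (g : Idx 5 → ℤ) : ℝ :=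
  max 0 (2 - ‖fun p => (g p : ℝ)‖ / A)

private noncomputable def iV (α : ℤ) (x : Fin 5 → ℤ) (g : Idx 5 → ℤ) : ℝ :=
  if qv g x = α then 1 else 0

private theorem phV_nonneg (A : ℕ) (g : Idx 5 → ℤ) : 0 ≤ phV A g := le_max_left _ _

private theorem phV_le (A : ℕ) (g : Idx 5 → ℤ) : phV A g ≤ 2 := by
  refine max_le (by norm_num) ?_
  have : 0 ≤ ‖fun p => (g p : ℝ)‖ / A := by positivity
  linarith

private theorem phV_one (A : ℕ) (hA : 0 < A) (g : Idx 5 → ℤ) (hg : g ∈ bf 5 A) : 1 ≤ phV A g := by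
  refine le_max_of_le_right ?_
  have hA' : (0 : ℝ) < A := by exact_mod_cast hA
  have h1 : ‖fun p => (g p : ℝ)‖ ≤ A :=
    (pi_norm_le_iff_of_nonneg hA'.le).2 fun p => by simpa using v_mem_bf.1 hg p
  have h2 : ‖fun p => (g p : ℝ)‖ / A ≤ 1 := (div_le_one hA').2 h1
  linarith

private theorem phV_supp (A : ℕ) (hA : 0 < A) (g : Idx 5 → ℤ) (hg : phV A g ≠ 0) :
    ‖fun p => (g p : ℝ)‖ ≤ 2 * A := by
  have hA' : (0 : ℝ) < A := by exact_mod_cast hA
  by_contra hlt
  push Not at hlt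
  apply hg
  refine max_eq_left ?_
  have : 2 ≤ ‖fun p => (g p : ℝ)‖ / A := (le_div_iff₀ hA').2 hlt.le
  linarith

private theorem phV_lip (A : ℕ) (hA : 0 < A) (g v : Idx 5 → ℤ) :
    |phV A g - phV A (g + v)| ≤ ‖fun p => (v p : ℝ)‖ / A := by
  have hA' : (0 : ℝ) < A := by exact_mod_cast hA
  unfold phV
  have h1 := abs_max_sub_max_le_abs (2 - ‖fun p => (g p : ℝ)‖ / A)
    (2 - ‖fun p => ((g + v) p : ℝ)‖ / A) 0
  rw [max_comm 0, max_comm 0]
  refine h1.trans ?_
  have e : (2 - ‖fun p => (g p : ℝ)‖ / A) - (2 - ‖fun p => ((g + v) p : ℝ)‖ / A) =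
      (‖fun p => ((g + v) p : ℝ)‖ - ‖fun p => (g p : ℝ)‖) / A := by ring
  rw [e, abs_div, abs_of_pos hA']
  refine div_le_div_of_nonneg_right ?_ hA'.le
  refine (abs_norm_sub_norm_le _ _).trans (le_of_eq ?_)
  congr 1
  funext p
  simp

private theorem iV_nonneg (α : ℤ) (x : Fin 5 → ℤ) (g : Idx 5 → ℤ) : 0 ≤ iV α x g := by
  unfold iV
  split_ifs <;> norm_num

private theorem iV_le (α : ℤ) (x : Fin 5 → ℤ) (g : Idx 5 → ℤ) : iV α x g ≤ 1 := by
  unfold iV
  split_ifs <;> norm_num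

private theorem v_qv_add {n : ℕ} (g v : Idx n → ℤ) (x : Fin n → ℤ) :
    qv (g + v) x = qv g x + qv v x := by
  unfold qv
  rw [← sum_add_distrib]
  exact sum_congr rfl fun p _ => by rw [Pi.add_apply]; ring

private theorem v_rJ (S : Finset (Fin 5 → ℤ)) (g : Idx 5 → ℤ) (J : ℤ) :
    (rJ S g J : ℝ) = ∑ x ∈ S, iV J x g := by
  unfold rJ iV
  rw [card_filter]
  push_cast
  exact sum_congr rfl fun x _ => by split_ifs <;> rfl

private theorem v_card1 (T : ℕ) (x : Fin 5 → ℤ) (α : ℤ) :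
    ∑ g ∈ bf 5 T, iV α x g = (((bf 5 T).filter fun g => qv g x = α).card : ℝ) := by
  unfold iV
  rw [card_filter]
  push_cast
  exact sum_congr rfl fun x _ => by split_ifs <;> rfl

private theorem v_card2 (T : ℕ) (x y : Fin 5 → ℤ) (α β : ℤ) :
    ∑ g ∈ bf 5 T, iV α x g * iV β y g =
      (((bf 5 T).filter fun g => qv g x = α ∧ qv g y = β).card : ℝ) := by
  unfold iV
  rw [card_filter]
  push_cast
  refine sum_congr rfl fun g _ => ?_
  by_cases h1 : qv g x = α <;> by_cases h2 : qv g y = β <;> simp [h1, h2]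

private theorem v_abs_d (α β : ℤ) (x : Fin 5 → ℤ) (g : Idx 5 → ℤ) :
    |iV α x g - iV β x g| ≤ iV α x g + iV β x g := by
  have h1 := iV_nonneg α x g
  have h2 := iV_nonneg β x g
  rw [abs_le]
  constructor <;> linarith

/-- the diagonal terms -/
private theorem v_diag (A : ℕ) (J : ℤ) (x : Fin 5 → ℤ) (M : ℝ)
    (hM : ∀ α : ℤ, (((bf 5 (3 * A)).filter fun g => qv g x = α).card : ℝ) ≤ M) :
    ∑ g ∈ bf 5 (3 * A), phV A g * ((iV 0 x g - iV J x g) * (iV 0 x g - iV J x g)) ≤ 4 * M := by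
  have h1 : ∀ g ∈ bf 5 (3 * A), phV A g * ((iV 0 x g - iV J x g) * (iV 0 x g - iV J x g)) ≤
      2 * iV 0 x g + 2 * iV J x g := by
    intro g _
    have a1 := iV_nonneg 0 x g
    have a2 := iV_nonneg J x g
    have a3 := iV_le 0 x g
    have a4 := iV_le J x g
    have a5 : (iV 0 x g - iV J x g) * (iV 0 x g - iV J x g) ≤ iV 0 x g + iV J x g := by nlinarith
    calc phV A g * ((iV 0 x g - iV J x g) * (iV 0 x g - iV J x g)) ≤
          2 * (iV 0 x g + iV J x g) :=
          mul_le_mul (phV_le A g) a5 (mul_self_nonneg _) (by norm_num)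
      _ = _ := by ring
  refine (sum_le_sum h1).trans ?_
  rw [sum_add_distrib, ← mul_sum, ← mul_sum, v_card1, v_card1]
  linarith [hM 0, hM J]

/-- the trivial bound of the other terms -/
private theorem v_triv (A : ℕ) (J : ℤ) (x y : Fin 5 → ℤ) (M : ℝ)
    (hM : ∀ α β : ℤ,
      (((bf 5 (3 * A)).filter fun g => qv g x = α ∧ qv g y = β).card : ℝ) ≤ M) :
    ∑ g ∈ bf 5 (3 * A), phV A g * ((iV 0 x g - iV J x g) * (iV 0 y g - iV J y g)) ≤ 8 * M := by
  have h1 : ∀ g ∈ bf 5 (3 * A), phV A g * ((iV 0 x g - iV J x g) * (iV 0 y g - iV J y g)) ≤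
      2 * (iV 0 x g * iV 0 y g) + 2 * (iV 0 x g * iV J y g) + 2 * (iV J x g * iV 0 y g) +
        2 * (iV J x g * iV J y g) := by
    intro g _
    have a1 := iV_nonneg 0 x g
    have a2 := iV_nonneg J x g
    have a3 := iV_nonneg 0 y g
    have a4 := iV_nonneg J y g
    calc phV A g * ((iV 0 x g - iV J x g) * (iV 0 y g - iV J y g)) ≤
          phV A g * ((iV 0 x g + iV J x g) * (iV 0 y g + iV J y g)) := by
          refine mul_le_mul_of_nonneg_left ?_ (phV_nonneg A g)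
          nlinarith [mul_nonneg a1 a4, mul_nonneg a2 a3]
      _ ≤ 2 * ((iV 0 x g + iV J x g) * (iV 0 y g + iV J y g)) :=
          mul_le_mul_of_nonneg_right (phV_le A g) (by positivity)
      _ = _ := by ring
  refine (sum_le_sum h1).trans ?_
  rw [sum_add_distrib, sum_add_distrib, sum_add_distrib, ← mul_sum, ← mul_sum, ← mul_sum,
    ← mul_sum, v_card2, v_card2, v_card2, v_card2]
  linarith [hM 0 0, hM 0 J, hM J 0, hM J J]

/-- the bound by translation -/
private theorem v_shift (A : ℕ) (hA : 0 < A) (J : ℤ) (x y : Fin 5 → ℤ) (v : Idx 5 → ℤ)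
    (hvx : qv v x = J) (hvy : qv v y = 0) (T : ℝ) (hT : 0 ≤ T) (hTA : T ≤ A)
    (hv : ∀ p, |(v p : ℝ)| ≤ T) (M : ℝ)
    (hM : ∀ α β : ℤ,
      (((bf 5 (3 * A)).filter fun g => qv g x = α ∧ qv g y = β).card : ℝ) ≤ M) :
    ∑ g ∈ bf 5 (3 * A), phV A g * ((iV 0 x g - iV J x g) * (iV 0 y g - iV J y g)) ≤
      2 * (T / A) * M := by
  have hA' : (0 : ℝ) < A := by exact_mod_cast hA
  have hvn : ‖fun p => (v p : ℝ)‖ ≤ T := (pi_norm_le_iff_of_nonneg hT).2 fun p => by
    simpa using hv p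
  let F : (Idx 5 → ℤ) → ℝ := fun g => phV A g * (iV J x g * (iV 0 y g - iV J y g))
  have hF1 : Function.support F ⊆ (bf 5 (3 * A) : Set (Idx 5 → ℤ)) := by
    intro g hg
    have h0 : phV A g ≠ 0 := fun h => hg (by simp [F, h])
    rw [mem_coe, v_mem_bf]
    intro p
    have h1 := phV_supp A hA g h0
    have h2 := (norm_le_pi_norm (fun p => (g p : ℝ)) p)
    rw [Real.norm_eq_abs] at h2
    push_cast
    linarith
  have hF2 : Function.support (fun g => F (g + v)) ⊆ (bf 5 (3 * A) : Set (Idx 5 → ℤ)) := by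
    intro g hg
    have h0 : phV A (g + v) ≠ 0 := fun h => hg (by simp [F, h])
    rw [mem_coe, v_mem_bf]
    intro p
    have h1 := phV_supp A hA (g + v) h0
    have h2 := (norm_le_pi_norm (fun p => ((g + v) p : ℝ)) p)
    rw [Real.norm_eq_abs] at h2
    have h3 : |(g p : ℝ)| ≤ |((g + v) p : ℝ)| + |(v p : ℝ)| := by
      have : (g p : ℝ) = ((g + v) p : ℝ) - (v p : ℝ) := by simp
      rw [this]
      exact abs_sub _ _
    have h4 := hv p
    push_cast
    linarith
  have hFe : ∑ g ∈ bf 5 (3 * A), F g = ∑ g ∈ bf 5 (3 * A), F (g + v) := by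
    rw [← finsum_eq_sum_of_support_subset F hF1,
      ← finsum_eq_sum_of_support_subset (fun g => F (g + v)) hF2]
    exact (finsum_comp_equiv (Equiv.addRight v) (f := F)).symm
  have hI : ∀ g, F (g + v) = phV A (g + v) * (iV 0 x g * (iV 0 y g - iV J y g)) := by
    intro g
    have e1 : iV J x (g + v) = iV 0 x g := by
      unfold iV
      rw [v_qv_add, hvx]
      by_cases h : qv g x = 0
      · simp [h]
      · rw [if_neg h, if_neg]
        intro h'
        exact h (by linarith)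
    have e2 : ∀ β, iV β y (g + v) = iV β y g := by
      intro β
      unfold iV
      rw [v_qv_add, hvy, add_zero]
    simp only [F]
    rw [e1, e2, e2]
  have e : ∑ g ∈ bf 5 (3 * A), phV A g * ((iV 0 x g - iV J x g) * (iV 0 y g - iV J y g)) =
      ∑ g ∈ bf 5 (3 * A), (phV A g - phV A (g + v)) * (iV 0 x g * (iV 0 y g - iV J y g)) := by
    have e1 : ∀ g, phV A g * ((iV 0 x g - iV J x g) * (iV 0 y g - iV J y g)) =
        phV A g * (iV 0 x g * (iV 0 y g - iV J y g)) - F g := fun g => by simp only [F]; ring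
    have e2 : ∀ g, (phV A g - phV A (g + v)) * (iV 0 x g * (iV 0 y g - iV J y g)) =
        phV A g * (iV 0 x g * (iV 0 y g - iV J y g)) - F (g + v) := fun g => by rw [hI]; ring
    rw [sum_congr rfl fun g _ => e1 g, sum_congr rfl fun g _ => e2 g, sum_sub_distrib,
      sum_sub_distrib, hFe]
  rw [e]
  have h1 : ∀ g ∈ bf 5 (3 * A),
      (phV A g - phV A (g + v)) * (iV 0 x g * (iV 0 y g - iV J y g)) ≤
        T / A * (iV 0 x g * iV 0 y g) + T / A * (iV 0 x g * iV J y g) := by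
    intro g _
    have a1 := iV_nonneg 0 x g
    have a3 := iV_nonneg 0 y g
    have a4 := iV_nonneg J y g
    have a5 : |phV A g - phV A (g + v)| ≤ T / A :=
      (phV_lip A hA g v).trans (div_le_div_of_nonneg_right hvn hA'.le)
    calc _ ≤ |(phV A g - phV A (g + v)) * (iV 0 x g * (iV 0 y g - iV J y g))| := le_abs_self _
      _ = |phV A g - phV A (g + v)| * (iV 0 x g * |iV 0 y g - iV J y g|) := by
          rw [abs_mul, abs_mul, abs_of_nonneg a1]
      _ ≤ T / A * (iV 0 x g * (iV 0 y g + iV J y g)) := by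
          refine mul_le_mul a5 ?_ (by positivity) (by positivity)
          exact mul_le_mul_of_nonneg_left (v_abs_d 0 J y g) a1
      _ = _ := by ring
  refine (sum_le_sum h1).trans ?_
  rw [sum_add_distrib, ← mul_sum, ← mul_sum, v_card2, v_card2]
  have hTA0 : 0 ≤ T / A := by positivity
  have b1 := mul_le_mul_of_nonneg_left (hM 0 0) hTA0
  have b2 := mul_le_mul_of_nonneg_left (hM 0 J) hTA0
  linarith

theorem variance (K : ℝ) (hK : 1 ≤ K) : ∃ C : ℝ, 0 < C ∧
    ∀ (X R : ℝ) (A : ℕ) (S : Finset (Fin 5 → ℤ)), 1 ≤ R → 0 < X → C * R ^ 2 ≤ A →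
    (∀ x ∈ S, Good R x ∧ Prim x ∧ (∀ i, |(x i : ℝ)| ≤ K * X) ∧ ∃ i, X ≤ |(x i : ℝ)|) →
    (∀ x ∈ S, ∀ y ∈ S, x ≠ y → ∃ i j, mn x y i j ≠ 0) → ∀ J : ℤ,
      ∑ g ∈ bf 5 A, ((rJ S g 0 : ℝ) - rJ S g J) ^ 2 ≤
        C * ((S.card : ℝ) * A ^ 14 / X ^ 2 + ∑ x ∈ S, ∑ y ∈ S.erase x,
          om A R J x y * (A ^ 13 * gk x y / (X ^ 2 * dl x y))) := by
  obtain ⟨C1, hC1, h1⟩ := cnt1
  obtain ⟨C2, hC2, h2⟩ := cnt2 K hK
  have hC' : (0 : ℝ) < 2 * K + 16 := by linarith
  refine ⟨4 * C1 * 3 ^ 14 + 8 * (2 * K + 16) * C2 * 3 ^ 13 + C2 + 200, by positivity, ?_⟩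
  intro X R A S hR hX hCA hS hSS J
  set C := 4 * C1 * 3 ^ 14 + 8 * (2 * K + 16) * C2 * 3 ^ 13 + C2 + 200 with hCdef
  have hp1 : 0 < 4 * C1 * 3 ^ 14 := by positivity
  have hp2 : 0 < 8 * (2 * K + 16) * C2 * 3 ^ 13 := by positivity
  have hR2 : 1 ≤ R ^ 2 := one_le_pow₀ hR
  have hRR : R ≤ R ^ 2 := by nlinarith
  have hA200 : 200 * R ^ 2 ≤ A :=
    (mul_le_mul_of_nonneg_right (by linarith) (by positivity)).trans hCA
  have hAC2 : C2 * R ^ 2 ≤ A :=
    (mul_le_mul_of_nonneg_right (by linarith) (by positivity)).trans hCA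
  have hA' : (0 : ℝ) < A := by linarith
  have hA : 0 < A := by exact_mod_cast hA'
  have hX2 : 0 < X ^ 2 := by positivity
  have hmono : bf 5 A ⊆ bf 5 (3 * A) := by
    intro g hg
    rw [v_mem_bf] at hg ⊢
    intro p
    push_cast
    linarith [hg p]
  -- step 1
  have s1 : ∑ g ∈ bf 5 A, ((rJ S g 0 : ℝ) - rJ S g J) ^ 2 ≤
      ∑ g ∈ bf 5 (3 * A), phV A g * ((rJ S g 0 : ℝ) - rJ S g J) ^ 2 := by
    calc ∑ g ∈ bf 5 A, ((rJ S g 0 : ℝ) - rJ S g J) ^ 2 ≤
        ∑ g ∈ bf 5 A, phV A g * ((rJ S g 0 : ℝ) - rJ S g J) ^ 2 :=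
          sum_le_sum fun g hg => le_mul_of_one_le_left (sq_nonneg _) (phV_one A hA g hg)
      _ ≤ _ := sum_le_sum_of_subset_of_nonneg hmono fun g _ _ =>
          mul_nonneg (phV_nonneg A g) (sq_nonneg _)
  -- step 2
  have s2 : ∑ g ∈ bf 5 (3 * A), phV A g * ((rJ S g 0 : ℝ) - rJ S g J) ^ 2 =
      ∑ x ∈ S, ∑ y ∈ S, ∑ g ∈ bf 5 (3 * A),
        phV A g * ((iV 0 x g - iV J x g) * (iV 0 y g - iV J y g)) := by
    have : ∀ g ∈ bf 5 (3 * A), phV A g * ((rJ S g 0 : ℝ) - rJ S g J) ^ 2 =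
        ∑ x ∈ S, ∑ y ∈ S, phV A g * ((iV 0 x g - iV J x g) * (iV 0 y g - iV J y g)) := by
      intro g _
      rw [v_rJ, v_rJ, ← sum_sub_distrib, sq, sum_mul_sum, mul_sum]
      exact sum_congr rfl fun x _ => by rw [mul_sum]
    rw [sum_congr rfl this, sum_comm]
    exact sum_congr rfl fun x _ => by rw [sum_comm]
  refine s1.trans (s2.le.trans ?_)
  -- the bound of the terms
  have hd : ∀ x ∈ S, ∑ g ∈ bf 5 (3 * A),
      phV A g * ((iV 0 x g - iV J x g) * (iV 0 x g - iV J x g)) ≤ C * (A ^ 14 / X ^ 2) := by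
    intro x hx
    obtain ⟨hg, hp, hxK, hxX⟩ := hS x hx
    have hM : ∀ α : ℤ, (((bf 5 (3 * A)).filter fun g => qv g x = α).card : ℝ) ≤
        C1 * ((3 * A : ℕ) : ℝ) ^ 14 / X ^ 2 := fun α =>
      h1 x R X (3 * A) (by linarith) (by omega) hg hp hX hxX (by push_cast; linarith) α
    refine (v_diag A J x _ hM).trans ?_
    push_cast
    calc 4 * (C1 * (3 * (A : ℝ)) ^ 14 / X ^ 2) = (4 * C1 * 3 ^ 14) * (A ^ 14 / X ^ 2) := by
          rw [mul_pow]; ring
      _ ≤ C * (A ^ 14 / X ^ 2) := by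
          refine mul_le_mul_of_nonneg_right ?_ (by positivity)
          linarith
  have ho : ∀ x ∈ S, ∀ y ∈ S.erase x, ∑ g ∈ bf 5 (3 * A),
      phV A g * ((iV 0 x g - iV J x g) * (iV 0 y g - iV J y g)) ≤
        C * (om A R J x y * (A ^ 13 * gk x y / (X ^ 2 * dl x y))) := by
    intro x hx y hy
    obtain ⟨hyx, hyS⟩ := mem_erase.1 hy
    obtain ⟨hg, hp, hxK, hxX⟩ := hS x hx
    obtain ⟨hg', hp', hyK, hyX⟩ := hS y hyS
    have hxy := hSS x hx y hyS hyx.symm
    have hM : ∀ α β : ℤ,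
        (((bf 5 (3 * A)).filter fun g => qv g x = α ∧ qv g y = β).card : ℝ) ≤
          C2 * ((3 * A : ℕ) : ℝ) ^ 13 * gk x y / (X ^ 2 * dl x y) := fun α β =>
      h2 x y R X (3 * A) hR hg hg' hp hp' hxy hX hxK hyK hxX hyX
        (by push_cast; linarith) α β
    set M := C2 * ((3 * A : ℕ) : ℝ) ^ 13 * gk x y / (X ^ 2 * dl x y) with hMdef
    set P : ℝ := A ^ 13 * gk x y / (X ^ 2 * dl x y) with hPdef
    have hP : 0 ≤ P := by positivity
    have hMP : M = C2 * 3 ^ 13 * P := by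
      rw [hMdef, hPdef]
      push_cast
      rw [mul_pow]
      ring
    have hM0 : 0 ≤ M := by rw [hMP]; positivity
    have key : ∑ g ∈ bf 5 (3 * A),
        phV A g * ((iV 0 x g - iV J x g) * (iV 0 y g - iV J y g)) ≤
          8 * (2 * K + 16) * om A R J x y * M := by
      have htr := v_triv A J x y M hM
      unfold om
      split_ifs with hJ
      · obtain ⟨v, hvx, hvy, hv⟩ := shift2 K hK x y R X (by linarith) hg hg' hp hxy hX hyK hxX J hJ
        set T := 2 * K * |(J : ℝ)| / dl x y + 16 * R ^ 2 with hT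
        set z := (|(J : ℝ)| / dl x y + R ^ 2) / A with hz
        have hz0 : 0 ≤ z := by positivity
        have hT0 : 0 ≤ T := by positivity
        have hTz : T / A ≤ (2 * K + 16) * z := by
          rw [hz, hT, ← mul_div_assoc]
          refine div_le_div_of_nonneg_right ?_ hA'.le
          have q1 : 0 ≤ |(J : ℝ)| / dl x y := by positivity
          have q2 : 2 * K * |(J : ℝ)| / dl x y = 2 * K * (|(J : ℝ)| / dl x y) := by ring
          rw [q2]
          nlinarith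
        have hmin : min 1 ((2 * K + 16) * z) ≤ (2 * K + 16) * min 1 z := by
          rcases le_total 1 z with h | h
          · rw [min_eq_left h]
            exact (min_le_left _ _).trans (by linarith)
          · rw [min_eq_right h]
            exact min_le_right _ _
        have hmm : min 1 (T / A) ≤ (2 * K + 16) * min 1 z :=
          (min_le_min_left 1 hTz).trans hmin
        rcases le_total T A with hTA | hTA
        · have hs := v_shift A hA J x y v hvx hvy T hT0 hTA hv M hM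
          have h1T : T / A ≤ 1 := (div_le_one hA').2 hTA
          rw [min_eq_right h1T] at hmm
          have hTA0 : 0 ≤ T / A := by positivity
          calc _ ≤ 2 * (T / A) * M := hs
            _ ≤ 8 * (T / A) * M := by
                refine mul_le_mul_of_nonneg_right ?_ hM0
                linarith
            _ ≤ 8 * ((2 * K + 16) * min 1 z) * M := by
                refine mul_le_mul_of_nonneg_right ?_ hM0
                linarith
            _ = _ := by ring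
        · have h1T : 1 ≤ T / A := (one_le_div hA').2 hTA
          rw [min_eq_left h1T] at hmm
          calc _ ≤ 8 * M := htr
            _ = 8 * 1 * M := by ring
            _ ≤ 8 * ((2 * K + 16) * min 1 z) * M := by
                refine mul_le_mul_of_nonneg_right ?_ hM0
                linarith
            _ = _ := by ring
      · calc _ ≤ 8 * M := htr
          _ ≤ 8 * (2 * K + 16) * 1 * M := by
              refine mul_le_mul_of_nonneg_right ?_ hM0
              linarith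
    refine key.trans ?_
    have hom : 0 ≤ om A R J x y := by
      unfold om
      split_ifs
      · positivity
      · norm_num
    rw [hMP]
    calc 8 * (2 * K + 16) * om A R J x y * (C2 * 3 ^ 13 * P) =
          (8 * (2 * K + 16) * C2 * 3 ^ 13) * (om A R J x y * P) := by ring
      _ ≤ C * (om A R J x y * P) := by
          refine mul_le_mul_of_nonneg_right ?_ (by positivity)
          linarith
  calc _ = ∑ x ∈ S, ((∑ g ∈ bf 5 (3 * A),
          phV A g * ((iV 0 x g - iV J x g) * (iV 0 x g - iV J x g))) + ∑ y ∈ S.erase x,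
          ∑ g ∈ bf 5 (3 * A), phV A g * ((iV 0 x g - iV J x g) * (iV 0 y g - iV J y g))) :=
        sum_congr rfl fun x hx => (add_sum_erase S _ hx).symm
    _ ≤ ∑ x ∈ S, (C * (A ^ 14 / X ^ 2) + ∑ y ∈ S.erase x,
          C * (om A R J x y * (A ^ 13 * gk x y / (X ^ 2 * dl x y)))) :=
        sum_le_sum fun x hx => add_le_add (hd x hx) (sum_le_sum fun y hy => ho x hx y hy)
    _ = _ := by
        rw [sum_add_distrib, sum_const, nsmul_eq_mul, mul_add, mul_sum]
        congr 1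
        · ring
        · exact sum_congr rfl fun x _ => by rw [mul_sum]

end Pool.Agent.H7.HP
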