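import Pool.Agent.H7.HP.Low
import Pool.Agent.H7.HP.Var
import Pool.Agent.H7.HP.Psum
import Pool.Agent.H7.HP.Bad
import Pool.Agent.H7.HP.Iso

set_option autoImplicit false
set_option linter.unusedSectionVars false

/-!
# [H7 HP CORE] almost all forms with many local solutions have a small zero, 200-300 lines

We may suppose `τ ≤ 1/10`, `δ ≤ 1`. `C1 = 4 q (C0 + 1)`, `B = ⌈A^(1 + τ/2)⌉₊`, `lam = A^(-2/5)`, `K = cx a q C1`, `X = B`, `G = XG a q C1 B lam`, `R = 300 K A^(2/5)`.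
Points `x ∈ G`: `B < x1 ≤ 4qB ≤ K B`, `|x_i| ≤ K B ≤ K x1`, so `Good R x` (`good_of_sep`), `Prim x`, `∃ i, B ≤ |x_i|`, different points have a nonzero minor (`pt_ne`). `C R^2 = C' A^(4/5) ≤ A` for `A` large: `variance` applies (constant `Cv`).
`E0(g) = ∑_{|j| ≤ N1} rJ G g (j M)`, `M = N!`, `N1 = ⌊κ A B^2 / M⌋`: the number of `x ∈ G` with `M ∣ g(x)`, `|g(x)| ≤ κ A B^2`.
For `g` in the set `Y` of the statement (hypotheses, but no zero): `rJ G g 0 = 0` (a point `x ∈ G` with `g(x) = 0` is a zero, `|x_i| ≤ K B ≤ A^(1+τ)`), and by `low`, `bad_card`: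
`E0(g) ≥ c c1 κ pb B^2 / M - Cb (B (lam B)^3 + B^2 (lam B)^(3/2)) ≥ (1/2) c c1 κ pb B^2 / M` for `A` large (`lam B ≤ 2 A^(3/5 + τ/2)`, `pb ≥ B^(1-ε)`: exponents `2.8 + 2τ`, `2.9 + 1.75 τ` against `3 + 1.5 τ - 3 ε`, `ε = 1/100`... with `τ ≤ 1/10`).
So by Cauchy `∑_{|j| ≤ N1} (rJ G g 0 - rJ G g (jM))^2 ≥ E0(g)^2 / (2 N1 + 1)`, `2 N1 + 1 ≤ 3 κ A B^2 / M`.
Sum over `g ∈ Y ⊆ bf 5 A`: `#Y * (c c1 κ pb B^2/(2M))^2 ≤ (2 N1 + 1) * max_j (variance at J = j M) * (2 N1 + 1)`, i.e. `#Y ≤ (36/(c c1)^2) (A^2/pb^2) max_J V(J)`.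
`V(J) ≤ Cv (#G A^14/B^2 + ∑∑ om * A^13 gk/(B^2 dl))`, `|J| ≤ κ A B^2`, `M ∣ J`.
* `#G ≤ C pb B^2` (`card_l`; `x ↦ lp`), so the first term is `≤ C pb A^14`, times `A^2/pb^2`: `C A^15 (A/pb) ≤ ε A^15` for `A` large (`pb ≥ B^(1 - τ/10)`, `B ≥ A^(1 + τ/2)`).
* pairs with `gk ≤ w`, `dl ≥ θ0 B^2`, `w ≤ N`: `gk ∣ N! ∣ J`, `om ≤ (κ/θ0 + R^2/A)`: sum `≤ (κ/θ0 + R^2/A) C A^13 pb^2` (`pair_all`).
* the other pairs: `om ≤ 1`: sum `≤ ε A^13 pb^2` (`pair_tail`).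
So `#Y ≤ C (c1)^(-2) (ε + κ/θ0 + o(1)) A^15`. Choice: first `ε`, then `w, θ0` (`pair_tail`), then `κ ≤ κ0`, `κ ≤ ε θ0`, then `N0 ≥ max w q` (all primes dividing `q` divide `N!`), then `A0`.
`zeros_le ha` is the hypothesis `hz` of the pair sums.
-/

namespace Pool.Agent.H7.HP

open Finset

private theorem pw (K s t : ℝ) (h : s < t) : ∃ A0 : ℕ, ∀ A : ℕ, A0 ≤ A →
    K * (A : ℝ) ^ s ≤ (A : ℝ) ^ t := by
  have h1 : Filter.Tendsto (fun x : ℝ => x ^ (t - s)) Filter.atTop Filter.atTop :=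
    tendsto_rpow_atTop (by linarith)
  have h2 := (h1.comp tendsto_natCast_atTop_atTop).eventually_ge_atTop K
  obtain ⟨A0, hA0⟩ := Filter.eventually_atTop.1 h2
  refine ⟨max A0 1, fun A hA => ?_⟩
  have hA1 : 0 < (A : ℝ) := by
    have : 1 ≤ A := le_trans (le_max_right _ _) hA
    exact_mod_cast this
  have h3 : K ≤ (A : ℝ) ^ (t - s) := hA0 A (le_trans (le_max_left _ _) hA)
  calc K * (A : ℝ) ^ s ≤ (A : ℝ) ^ (t - s) * (A : ℝ) ^ s := by gcongr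
    _ = (A : ℝ) ^ t := by rw [← Real.rpow_add hA1]; congr 1; ring

open scoped Classical in
private theorem card_XP {a : Idx 3 → ℤ} (ha : (Hm a).det ≠ 0) (q C1 : ℕ) (hq : 1 ≤ q)
    (hC1 : 1 ≤ C1) : ∃ C : ℝ, 0 < C ∧ ∃ B0 : ℕ, ∀ B ≥ B0,
      ((XP a q C1 B).card : ℝ) ≤ C * pb B * (B : ℝ) ^ 2 := by
  obtain ⟨C, hC, B0, h⟩ := card_l ha q C1 hq hC1
  refine ⟨C, hC, B0, fun B hB => ?_⟩
  have hmap : ∀ x ∈ XP a q C1 B, lp q x ∈ (Ioc B (4 * B)).filter Nat.Prime := by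
    intro x hx
    obtain ⟨h1, h2, h3, -, -⟩ := pt_lp hq ((mem_XP hq).1 hx)
    rw [mem_filter, mem_Ioc]
    exact ⟨⟨h2, h3⟩, h1⟩
  have hcard := card_eq_sum_card_fiberwise hmap
  rw [hcard]
  push_cast
  calc ∑ l ∈ (Ioc B (4 * B)).filter Nat.Prime,
        (((XP a q C1 B).filter fun x => lp q x = l).card : ℝ)
      ≤ ∑ l ∈ (Ioc B (4 * B)).filter Nat.Prime, C * (B : ℝ) ^ 2 :=
        sum_le_sum fun l _ => h B hB l
    _ = C * pb B * (B : ℝ) ^ 2 := by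
        rw [sum_const, nsmul_eq_mul]
        unfold pb
        ring

/-- properties of the separated points -/
private theorem pt_good {a : Idx 3 → ℤ} {q C1 B : ℕ} (hq : 1 ≤ q) {lam : ℝ} (h0 : 0 < lam)
    (h1 : lam ≤ 1) {x : Fin 5 → ℤ} (hx : x ∈ XG a q C1 B lam) :
    Good (300 * (cx a q C1 : ℝ) / lam) x ∧ Prim x ∧
      (∀ i, |(x i : ℝ)| ≤ (cx a q C1 : ℝ) * B) ∧ ∃ i, (B : ℝ) ≤ |(x i : ℝ)| := by
  classical
  unfold XG at hx
  rw [mem_filter] at hx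
  have hpt := (mem_XP hq).1 hx.1
  obtain ⟨hx1, hx2⟩ := pt_x1 hq hpt
  have hmem := mem_bx.1 (pt_mem hq hpt)
  have hB0 : (0 : ℤ) ≤ B := Int.natCast_nonneg B
  have hx1' : (B : ℝ) < (x 1 : ℝ) := by exact_mod_cast hx1
  have hBr : (0 : ℝ) ≤ B := Nat.cast_nonneg B
  have hb : ∀ i, |(x i : ℝ)| ≤ (cx a q C1 : ℝ) * B := by
    intro i
    have := hmem i
    have h2 : ((|x i| : ℤ) : ℝ) ≤ ((cx a q C1 * B : ℕ) : ℝ) := by exact_mod_cast this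
    push_cast at h2
    exact h2
  have hK : (1 : ℝ) ≤ (cx a q C1 : ℝ) := by
    have : 1 ≤ cx a q C1 := by unfold cx; omega
    exact_mod_cast this
  refine ⟨?_, hpt.prim, hb, 1, ?_⟩
  · refine good_of_sep (by linarith) hK (fun i => (hb i).trans ?_) h0 h1 hx.2
    gcongr
  · rw [abs_of_nonneg (by linarith)]
    exact hx1'.le

open scoped Classical in
private theorem varb {a : Idx 3 → ℤ} (ha : (Hm a).det ≠ 0) (q C1 : ℕ) (hq : 1 ≤ q)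
    (hC1 : 1 ≤ C1) : ∃ Cv Cp Cl : ℝ, 0 < Cv ∧ 0 < Cp ∧ 0 < Cl ∧ ∀ ε : ℝ, 0 < ε →
    ∃ (w : ℕ) (θ0 : ℝ), 0 < θ0 ∧ ∃ B0 : ℕ, ∀ (A B : ℕ) (lam κ : ℝ), 1 ≤ A → B0 ≤ B → 0 < lam →
    (B : ℝ) ^ (-(1 / 2) : ℝ) ≤ lam → lam ≤ 1 →
    Cv * (300 * (cx a q C1 : ℝ) / lam) ^ 2 ≤ A → 0 < κ →
    ∀ J : ℤ, (∀ k : ℕ, 0 < k → k ≤ w → (k : ℤ) ∣ J) → |(J : ℝ)| ≤ κ * A * (B : ℝ) ^ 2 →
      ∑ g ∈ bf 5 A, ((rJ (XG a q C1 B lam) g 0 : ℝ) - rJ (XG a q C1 B lam) g J) ^ 2 ≤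
        Cv * (Cl * pb B * (A : ℝ) ^ 14 + (A : ℝ) ^ 13 * (pb B : ℝ) ^ 2 *
          (Cp * (κ / θ0 + (300 * (cx a q C1 : ℝ) / lam) ^ 2 / A) + ε)) := by
  have hK : (1 : ℝ) ≤ (cx a q C1 : ℝ) := by
    have : 1 ≤ cx a q C1 := by unfold cx; omega
    exact_mod_cast this
  obtain ⟨Cv, hCv, hvar⟩ := variance (cx a q C1 : ℝ) hK
  obtain ⟨Cp, hCp, Bp, hall⟩ := pair_all ha q C1 hq hC1 (zeros_le ha)
  obtain ⟨Cl, hCl, Bl, hcard⟩ := card_XP ha q C1 hq hC1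
  refine ⟨Cv, Cp, Cl, hCv, hCp, hCl, fun ε hε => ?_⟩
  obtain ⟨w, θ0, hθ0, Bt, htail⟩ := pair_tail ha q C1 hq hC1 (zeros_le ha) ε hε
  refine ⟨w, θ0, hθ0, max 1 (max Bp (max Bl Bt)), ?_⟩
  intro A B lam κ hA hB hlam0 hlamB hlam1 hCR hκ J hJd hJ
  have hB1 : 1 ≤ B := (le_max_left _ _).trans hB
  have hBp : Bp ≤ B := ((le_max_left _ _).trans (le_max_right _ _)).trans hB
  have hBl : Bl ≤ B :=
    (((le_max_left _ _).trans (le_max_right _ _)).trans (le_max_right _ _)).trans hB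
  have hBt : Bt ≤ B :=
    (((le_max_right _ _).trans (le_max_right _ _)).trans (le_max_right _ _)).trans hB
  have hBr : (1 : ℝ) ≤ B := by exact_mod_cast hB1
  have hBpos : (0 : ℝ) < B := by linarith
  have hAr : (1 : ℝ) ≤ A := by exact_mod_cast hA
  have hApos : (0 : ℝ) < A := by linarith
  set G := XG a q C1 B lam with hG
  set R : ℝ := 300 * (cx a q C1 : ℝ) / lam with hR
  have hR1 : 1 ≤ R := by
    rw [hR, le_div_iff₀ hlam0]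
    linarith
  have hGX : G ⊆ XP a q C1 B := by
    rw [hG]
    unfold XG
    exact filter_subset _ _
  have hne : ∀ x ∈ G, ∀ y ∈ G, x ≠ y → ∃ i j, mn x y i j ≠ 0 := by
    intro x hx y hy hxy
    exact pt_ne hq ((mem_XP hq).1 (hGX hx)) ((mem_XP hq).1 (hGX hy)) hxy
  have h1 := hvar B R A G hR1 hBpos hCR (fun x hx => pt_good hq hlam0 hlam1 hx) hne J
  refine h1.trans (mul_le_mul_of_nonneg_left ?_ hCv.le)
  -- diagonal
  have hd : (G.card : ℝ) * A ^ 14 / (B : ℝ) ^ 2 ≤ Cl * pb B * (A : ℝ) ^ 14 := by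
    have h2 : (G.card : ℝ) ≤ Cl * pb B * (B : ℝ) ^ 2 :=
      le_trans (by exact_mod_cast card_le_card hGX) (hcard B hBl)
    rw [div_le_iff₀ (by positivity)]
    calc (G.card : ℝ) * A ^ 14 ≤ Cl * pb B * (B : ℝ) ^ 2 * A ^ 14 := by gcongr
      _ = Cl * pb B * (A : ℝ) ^ 14 * (B : ℝ) ^ 2 := by ring
  -- the pairs
  set ρ : ℝ := κ / θ0 + R ^ 2 / A with hρ
  have hρ0 : 0 ≤ ρ := by positivity
  have hom : ∀ x ∈ G, ∀ y ∈ G.erase x, om A R J x y * (A ^ 13 * gk x y / ((B : ℝ) ^ 2 * dl x y)) ≤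
      (A : ℝ) ^ 13 / (B : ℝ) ^ 2 * (ρ * ((gk x y : ℝ) / dl x y) +
        if (w < gk x y ∨ (dl x y : ℝ) < θ0 * (B : ℝ) ^ 2) then (gk x y : ℝ) / dl x y else 0) := by
    intro x hx y hy
    rw [mem_erase] at hy
    have hxy := hne x hx y hy.2 (Ne.symm hy.1)
    have hk := gk_pos hxy
    have hkl := gk_le_dl hxy
    have hdl : (0 : ℝ) < dl x y := by
      have : 0 < dl x y := lt_of_lt_of_le hk hkl
      exact_mod_cast this
    have hkd : (0 : ℝ) ≤ (gk x y : ℝ) / dl x y := by positivity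
    have e1 : om A R J x y * (A ^ 13 * gk x y / ((B : ℝ) ^ 2 * dl x y)) =
        (A : ℝ) ^ 13 / (B : ℝ) ^ 2 * (om A R J x y * ((gk x y : ℝ) / dl x y)) := by
      field_simp
    rw [e1]
    refine mul_le_mul_of_nonneg_left ?_ (by positivity)
    have hom1 : om A R J x y ≤ 1 := by
      unfold om
      split_ifs
      · exact min_le_left _ _
      · exact le_rfl
    split_ifs with hc
    · calc om A R J x y * ((gk x y : ℝ) / dl x y) ≤ 1 * ((gk x y : ℝ) / dl x y) :=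
            mul_le_mul_of_nonneg_right hom1 hkd
        _ ≤ ρ * ((gk x y : ℝ) / dl x y) + (gk x y : ℝ) / dl x y := by
            have := mul_nonneg hρ0 hkd
            linarith
    · rw [not_or, not_lt, not_lt] at hc
      have hdv : (gk x y : ℤ) ∣ J := hJd _ hk hc.1
      have hom2 : om A R J x y ≤ ρ := by
        unfold om
        rw [if_pos hdv]
        refine (min_le_right _ _).trans ?_
        rw [hρ, add_div]
        refine add_le_add ?_ le_rfl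
        rw [div_div, div_le_div_iff₀ (by positivity) hθ0]
        calc |(J : ℝ)| * θ0 ≤ κ * A * (B : ℝ) ^ 2 * θ0 := by gcongr
          _ = κ * ((θ0 * (B : ℝ) ^ 2) * A) := by ring
          _ ≤ κ * ((dl x y : ℝ) * A) := by
              have := hc.2
              gcongr
      rw [add_zero]
      exact mul_le_mul_of_nonneg_right hom2 hkd
  have hsum : ∑ x ∈ G, ∑ y ∈ G.erase x,
      om A R J x y * (A ^ 13 * gk x y / ((B : ℝ) ^ 2 * dl x y)) ≤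
      (A : ℝ) ^ 13 / (B : ℝ) ^ 2 * (ρ * (Cp * (pb B : ℝ) ^ 2 * (B : ℝ) ^ 2) +
        ε * (pb B : ℝ) ^ 2 * (B : ℝ) ^ 2) := by
    refine (sum_le_sum fun x hx => sum_le_sum fun y hy => hom x hx y hy).trans ?_
    have e2 : ∑ x ∈ G, ∑ y ∈ G.erase x, (A : ℝ) ^ 13 / (B : ℝ) ^ 2 *
        (ρ * ((gk x y : ℝ) / dl x y) +
        if (w < gk x y ∨ (dl x y : ℝ) < θ0 * (B : ℝ) ^ 2) then (gk x y : ℝ) / dl x y else 0) =
        (A : ℝ) ^ 13 / (B : ℝ) ^ 2 * (ρ * (∑ x ∈ G, ∑ y ∈ G.erase x, (gk x y : ℝ) / dl x y) +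
          ∑ x ∈ G, ∑ y ∈ (G.erase x).filter
            (fun y => w < gk x y ∨ (dl x y : ℝ) < θ0 * (B : ℝ) ^ 2), (gk x y : ℝ) / dl x y) := by
      rw [mul_add, mul_sum, mul_sum, mul_sum, ← sum_add_distrib]
      refine sum_congr rfl fun x _ => ?_
      rw [mul_sum, mul_sum, mul_sum, sum_filter, ← sum_add_distrib]
      refine sum_congr rfl fun y _ => ?_
      rw [mul_add]
      congr 1
      split_ifs <;> ring
    rw [e2]
    refine mul_le_mul_of_nonneg_left (add_le_add ?_ ?_) (by positivity)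
    · exact mul_le_mul_of_nonneg_left (hall B hBp lam hlamB hlam1) hρ0
    · exact htail B hBt lam hlamB hlam1
  refine (add_le_add hd hsum).trans (le_of_eq ?_)
  field_simp

private theorem sumr (X : Finset (Fin 5 → ℤ)) (g : Idx 5 → ℤ) (M N1 : ℕ) (T : ℝ) (hM : 0 < M)
    (hT : T < (N1 + 1) * M) [DecidablePred fun x : Fin 5 → ℤ =>
      (M : ℤ) ∣ qv g x ∧ |((qv g x : ℤ) : ℝ)| ≤ T] :
    (X.filter fun x => (M : ℤ) ∣ qv g x ∧ |((qv g x : ℤ) : ℝ)| ≤ T).card ≤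
      ∑ j ∈ Icc (-(N1 : ℤ)) N1, rJ X g (j * M) := by
  classical
  have hsub : (X.filter fun x => (M : ℤ) ∣ qv g x ∧ |((qv g x : ℤ) : ℝ)| ≤ T) ⊆
      (Icc (-(N1 : ℤ)) N1).biUnion fun j => X.filter fun x => qv g x = j * M := by
    intro x hx
    rw [mem_filter] at hx
    obtain ⟨hxX, ⟨j, hj⟩, hb⟩ := hx
    rw [mem_biUnion]
    refine ⟨j, ?_, ?_⟩
    · have hMr : (0 : ℝ) < M := by exact_mod_cast hM
      have h1 : |(j : ℝ)| * M < (N1 + 1) * M := by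
        calc |(j : ℝ)| * M = |((qv g x : ℤ) : ℝ)| := by
              rw [hj]
              push_cast
              rw [abs_mul, abs_of_pos hMr, mul_comm]
          _ ≤ T := hb
          _ < _ := hT
      have h2 : |(j : ℝ)| < N1 + 1 := lt_of_mul_lt_mul_right h1 hMr.le
      have h3 : |j| < (N1 : ℤ) + 1 := by exact_mod_cast h2
      rw [mem_Icc]
      have h4 := abs_lt.1 h3
      constructor <;> omega
    · rw [mem_filter]
      exact ⟨hxX, by rw [hj, mul_comm]⟩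
  refine (card_le_card hsub).trans (card_biUnion_le.trans (le_of_eq ?_))
  refine sum_congr rfl fun j _ => ?_
  unfold rJ
  congr 1

private theorem core_cnt (X : Finset (Fin 5 → ℤ)) (A M N1 : ℕ) (T E V : ℝ) (hM : 0 < M)
    (hT : T < (N1 + 1) * M) (hE : 0 ≤ E) (Y : Finset (Idx 5 → ℤ)) (hY : Y ⊆ bf 5 A)
    (h0 : ∀ g ∈ Y, rJ X g 0 = 0) (h1 : ∀ g ∈ Y, E ≤ ∑ j ∈ Icc (-(N1 : ℤ)) N1, (rJ X g (j * M) : ℝ))
    (hV : ∀ j ∈ Icc (-(N1 : ℤ)) N1,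
      ∑ g ∈ bf 5 A, ((rJ X g 0 : ℝ) - rJ X g (j * M)) ^ 2 ≤ V) :
    (Y.card : ℝ) * E ^ 2 ≤ (2 * N1 + 1) ^ 2 * V := by
  have hc : ((Icc (-(N1 : ℤ)) N1).card : ℝ) = 2 * N1 + 1 := by
    rw [Int.card_Icc]
    have : ((N1 : ℤ) + 1 - -(N1 : ℤ)).toNat = 2 * N1 + 1 := by omega
    rw [this]
    push_cast
    ring
  have h2 : ∀ g ∈ Y, E ^ 2 ≤ (2 * N1 + 1) *
      ∑ j ∈ Icc (-(N1 : ℤ)) N1, ((rJ X g 0 : ℝ) - rJ X g (j * M)) ^ 2 := by
    intro g hg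
    have h3 := sq_sum_le_card_mul_sum_sq (s := Icc (-(N1 : ℤ)) N1)
      (f := fun j => (rJ X g (j * M) : ℝ))
    rw [hc] at h3
    have h4 : ∀ j : ℤ, ((rJ X g 0 : ℝ) - rJ X g (j * M)) ^ 2 = (rJ X g (j * M) : ℝ) ^ 2 := by
      intro j
      rw [h0 g hg]
      push_cast
      ring
    simp_rw [h4]
    exact (pow_le_pow_left₀ hE (h1 g hg) 2).trans h3
  calc (Y.card : ℝ) * E ^ 2 = ∑ g ∈ Y, E ^ 2 := by rw [sum_const, nsmul_eq_mul]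
    _ ≤ ∑ g ∈ Y, (2 * N1 + 1) *
        ∑ j ∈ Icc (-(N1 : ℤ)) N1, ((rJ X g 0 : ℝ) - rJ X g (j * M)) ^ 2 := sum_le_sum h2
    _ ≤ ∑ g ∈ bf 5 A, (2 * N1 + 1) *
        ∑ j ∈ Icc (-(N1 : ℤ)) N1, ((rJ X g 0 : ℝ) - rJ X g (j * M)) ^ 2 := by
        refine sum_le_sum_of_subset_of_nonneg hY fun g _ _ => ?_
        positivity
    _ = (2 * N1 + 1) * ∑ j ∈ Icc (-(N1 : ℤ)) N1,
        ∑ g ∈ bf 5 A, ((rJ X g 0 : ℝ) - rJ X g (j * M)) ^ 2 := by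
        rw [← mul_sum, sum_comm]
    _ ≤ (2 * N1 + 1) * ∑ j ∈ Icc (-(N1 : ℤ)) N1, V := by
        refine mul_le_mul_of_nonneg_left (sum_le_sum hV) (by positivity)
    _ = (2 * N1 + 1) ^ 2 * V := by
        rw [sum_const, nsmul_eq_mul, hc]
        ring

/-- all the inequalities for large `A` -/
private theorem asy (q : ℕ) (hq : 1 ≤ q) (K τ : ℝ) (hK : 1 ≤ K) (hτ : 0 < τ) (hτ1 : τ ≤ 1 / 10)
    (Cv Cp Cl Cb c2 δ : ℝ) (hCp : 0 < Cp) (hCl : 0 < Cl) (hCb : 0 < Cb)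
    (hc2 : 0 < c2) (hδ : 0 < δ) (B0 : ℕ) (c3 : ℝ) (hc3 : 0 < c3) :
    ∃ A0 : ℕ, ∀ A : ℕ, A0 ≤ A → ∃ (B : ℕ) (lam : ℝ), 1 ≤ A ∧ B0 ≤ B ∧ 1 ≤ B ∧ 0 < lam ∧
      (B : ℝ) ^ (-(1 / 2) : ℝ) ≤ lam ∧ lam ≤ 1 ∧ 1 ≤ lam * B ∧ lam * q ≤ 1 ∧
      Cv * (300 * K / lam) ^ 2 ≤ A ∧ Cp * ((300 * K / lam) ^ 2 / A) ≤ δ ∧
      Cb * (B * (lam * B) ^ 3 + (B : ℝ) ^ 2 * (lam * B) ^ (3 / 2 : ℝ)) ≤
        c2 * pb B * (B : ℝ) ^ 2 ∧
      Cl * A ≤ δ * pb B ∧ 0 < pb B ∧ K * B ≤ (A : ℝ) ^ (1 + τ) ∧ 1 ≤ c3 * A * (B : ℝ) ^ 2 := by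
  obtain ⟨P1, hP1⟩ := pb_pow (1 / 20) (by norm_num) 1
  obtain ⟨P2, hP2⟩ := pb_pow (τ / 4) (by linarith) (Cl / δ)
  obtain ⟨N1, hN1⟩ := pw (q : ℝ) 0 (2 / 5) (by norm_num)
  obtain ⟨N2, hN2⟩ := pw (Cv * (300 * K) ^ 2) (4 / 5) 1 (by norm_num)
  obtain ⟨N3, hN3⟩ := pw (Cp * (300 * K) ^ 2 / δ) (4 / 5) 1 (by norm_num)
  obtain ⟨N4, hN4⟩ := pw (Cb * 8 * 2 / c2) (9 / 5 + 3 * τ / 2) ((1 + τ / 2) * (39 / 20))
    (by nlinarith)
  obtain ⟨N5, hN5⟩ := pw (Cb * 3 * 2 / c2) (9 / 10 + 3 * τ / 4) ((1 + τ / 2) * (19 / 20))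
    (by nlinarith)
  obtain ⟨N6, hN6⟩ := pw (K * 2) (1 + τ / 2) (1 + τ) (by linarith)
  obtain ⟨N7, hN7⟩ := pw (1 / c3) 0 1 (by norm_num)
  refine ⟨1 + B0 + P1 + P2 + N1 + N2 + N3 + N4 + N5 + N6 + N7, fun A hA => ?_⟩
  have hA1 : 1 ≤ A := by omega
  have hAr : (1 : ℝ) ≤ A := by exact_mod_cast hA1
  have hApos : (0 : ℝ) < A := by linarith
  set P : ℝ := (A : ℝ) ^ (1 + τ / 2) with hP
  set B : ℕ := ⌈P⌉₊ with hB
  set lam : ℝ := (A : ℝ) ^ (-(2 / 5) : ℝ) with hlam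
  have hPA : (A : ℝ) ≤ P := by
    calc (A : ℝ) = (A : ℝ) ^ (1 : ℝ) := (Real.rpow_one _).symm
      _ ≤ P := Real.rpow_le_rpow_of_exponent_le hAr (by linarith)
  have hP1' : 1 ≤ P := hAr.trans hPA
  have hBP : P ≤ B := Nat.le_ceil P
  have hBP2 : (B : ℝ) ≤ 2 * P := by
    have := Nat.ceil_lt_add_one (show 0 ≤ P by linarith)
    linarith
  have hBA : (A : ℝ) ≤ B := hPA.trans hBP
  have hAB : A ≤ B := by exact_mod_cast hBA
  have hBr : (1 : ℝ) ≤ B := hAr.trans hBA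
  have hBpos : (0 : ℝ) < B := by linarith
  have hlam0 : 0 < lam := Real.rpow_pos_of_pos hApos _
  have hlaminv : 1 / lam = (A : ℝ) ^ (2 / 5 : ℝ) := by
    rw [hlam, Real.rpow_neg hApos.le, one_div, inv_inv]
  have hlamB : lam * B ≤ 2 * (A : ℝ) ^ (3 / 5 + τ / 2) := by
    calc lam * B ≤ lam * (2 * P) := by gcongr
      _ = 2 * (lam * P) := by ring
      _ = 2 * (A : ℝ) ^ (3 / 5 + τ / 2) := by
          rw [hlam, hP, ← Real.rpow_add hApos]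
          congr 2
          ring
  have hlamB1 : 1 ≤ lam * B := by
    calc (1 : ℝ) ≤ (A : ℝ) ^ (3 / 5 : ℝ) := Real.one_le_rpow hAr (by norm_num)
      _ = lam * (A : ℝ) ^ (1 : ℝ) := by
          rw [hlam, ← Real.rpow_add hApos]
          congr 1
          norm_num
      _ = lam * A := by rw [Real.rpow_one]
      _ ≤ lam * B := by gcongr
  have hR2 : (300 * K / lam) ^ 2 = (300 * K) ^ 2 * (A : ℝ) ^ (4 / 5 : ℝ) := by
    have : 300 * K / lam = 300 * K * (1 / lam) := by ring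
    rw [this, hlaminv, mul_pow, ← Real.rpow_natCast ((A : ℝ) ^ (2 / 5 : ℝ)) 2,
      ← Real.rpow_mul hApos.le]
    congr 2
    norm_num
  have hpb : (B : ℝ) ^ (19 / 20 : ℝ) ≤ pb B := by
    have h1 := hP1 B (by omega)
    rw [one_mul] at h1
    have e1 : (1 - 1 / 20 : ℝ) = 19 / 20 := by norm_num
    rwa [e1] at h1
  have hpb0 : (0 : ℝ) < pb B := lt_of_lt_of_le (Real.rpow_pos_of_pos hBpos _) hpb
  have hPs : ∀ s : ℝ, 0 ≤ s → (A : ℝ) ^ ((1 + τ / 2) * s) ≤ (B : ℝ) ^ s := by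
    intro s hs
    rw [Real.rpow_mul hApos.le]
    exact Real.rpow_le_rpow (by positivity) hBP hs
  refine ⟨B, lam, hA1, by omega, by exact_mod_cast hBr, hlam0, ?_, ?_, hlamB1, ?_, ?_, ?_, ?_,
    ?_, by exact_mod_cast hpb0, ?_, ?_⟩
  · calc (B : ℝ) ^ (-(1 / 2) : ℝ) ≤ (A : ℝ) ^ (-(1 / 2) : ℝ) :=
          Real.rpow_le_rpow_of_nonpos hApos hBA (by norm_num)
      _ ≤ lam := Real.rpow_le_rpow_of_exponent_le hAr (by norm_num)
  · exact Real.rpow_le_one_of_one_le_of_nonpos hAr (by norm_num)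
  · have h1 := hN1 A (by omega)
    rw [Real.rpow_zero, mul_one, ← hlaminv] at h1
    calc lam * q ≤ lam * (1 / lam) := by gcongr
      _ = 1 := by field_simp
  · rw [hR2]
    have h1 := hN2 A (by omega)
    rw [Real.rpow_one] at h1
    linarith
  · rw [hR2]
    have h1 := hN3 A (by omega)
    rw [Real.rpow_one] at h1
    have e1 : Cp * ((300 * K) ^ 2 * (A : ℝ) ^ (4 / 5 : ℝ) / A) =
        δ * (Cp * (300 * K) ^ 2 / δ * (A : ℝ) ^ (4 / 5 : ℝ)) / A := by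
      field_simp
    rw [e1, div_le_iff₀ hApos]
    gcongr
  · have h1 := hN4 A (by omega)
    have h2 := hN5 A (by omega)
    have h3 : (lam * B) ^ 3 ≤ 8 * (A : ℝ) ^ (9 / 5 + 3 * τ / 2) := by
      calc (lam * B) ^ 3 ≤ (2 * (A : ℝ) ^ (3 / 5 + τ / 2)) ^ 3 := by gcongr
        _ = 8 * ((A : ℝ) ^ (3 / 5 + τ / 2)) ^ 3 := by ring
        _ = 8 * (A : ℝ) ^ (9 / 5 + 3 * τ / 2) := by
            rw [← Real.rpow_natCast, ← Real.rpow_mul hApos.le]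
            congr 2
            push_cast
            ring
    have h4 : (lam * B) ^ (3 / 2 : ℝ) ≤ 3 * (A : ℝ) ^ (9 / 10 + 3 * τ / 4) := by
      calc (lam * B) ^ (3 / 2 : ℝ) ≤ (2 * (A : ℝ) ^ (3 / 5 + τ / 2)) ^ (3 / 2 : ℝ) := by
            gcongr
        _ = 2 ^ (3 / 2 : ℝ) * ((A : ℝ) ^ (3 / 5 + τ / 2)) ^ (3 / 2 : ℝ) := by
            rw [Real.mul_rpow (by norm_num) (by positivity)]
        _ = 2 ^ (3 / 2 : ℝ) * (A : ℝ) ^ (9 / 10 + 3 * τ / 4) := by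
            rw [← Real.rpow_mul hApos.le]
            congr 2
            ring
        _ ≤ 3 * (A : ℝ) ^ (9 / 10 + 3 * τ / 4) := by
            have h5 : (2 : ℝ) ^ (3 / 2 : ℝ) ≤ 3 := by
              have e2 : (2 : ℝ) ^ (3 / 2 : ℝ) = Real.sqrt 8 := by
                rw [Real.sqrt_eq_rpow, show (8 : ℝ) = 2 ^ (3 : ℝ) by norm_num,
                  ← Real.rpow_mul (by norm_num)]
                norm_num
              rw [e2, Real.sqrt_le_left (by norm_num)]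
              norm_num
            gcongr
    have h6 : Cb * (B * (lam * B) ^ 3) ≤ c2 / 2 * pb B * (B : ℝ) ^ 2 := by
      have h7 : Cb * 8 * (A : ℝ) ^ (9 / 5 + 3 * τ / 2) ≤ c2 / 2 * (pb B * B) := by
        have h8 : Cb * 8 * (A : ℝ) ^ (9 / 5 + 3 * τ / 2) =
            c2 / 2 * (Cb * 8 * 2 / c2 * (A : ℝ) ^ (9 / 5 + 3 * τ / 2)) := by
          field_simp
        rw [h8]
        refine mul_le_mul_of_nonneg_left (h1.trans ((hPs _ (by norm_num)).trans ?_)) (by positivity)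
        calc (B : ℝ) ^ (39 / 20 : ℝ) = (B : ℝ) ^ (19 / 20 : ℝ) * (B : ℝ) ^ (1 : ℝ) := by
              rw [← Real.rpow_add hBpos]
              norm_num
          _ ≤ pb B * B := by
              rw [Real.rpow_one]
              gcongr
      calc Cb * (B * (lam * B) ^ 3) ≤ Cb * (B * (8 * (A : ℝ) ^ (9 / 5 + 3 * τ / 2))) := by
            gcongr
        _ = (Cb * 8 * (A : ℝ) ^ (9 / 5 + 3 * τ / 2)) * B := by ring
        _ ≤ (c2 / 2 * (pb B * B)) * B := by gcongr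
        _ = c2 / 2 * pb B * (B : ℝ) ^ 2 := by ring
    have h9 : Cb * ((B : ℝ) ^ 2 * (lam * B) ^ (3 / 2 : ℝ)) ≤ c2 / 2 * pb B * (B : ℝ) ^ 2 := by
      have h7 : Cb * 3 * (A : ℝ) ^ (9 / 10 + 3 * τ / 4) ≤ c2 / 2 * pb B := by
        have h8 : Cb * 3 * (A : ℝ) ^ (9 / 10 + 3 * τ / 4) =
            c2 / 2 * (Cb * 3 * 2 / c2 * (A : ℝ) ^ (9 / 10 + 3 * τ / 4)) := by
          field_simp
        rw [h8]
        exact mul_le_mul_of_nonneg_left (h2.trans ((hPs _ (by norm_num)).trans hpb))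
          (by positivity)
      calc Cb * ((B : ℝ) ^ 2 * (lam * B) ^ (3 / 2 : ℝ))
          ≤ Cb * ((B : ℝ) ^ 2 * (3 * (A : ℝ) ^ (9 / 10 + 3 * τ / 4))) := by gcongr
        _ = (Cb * 3 * (A : ℝ) ^ (9 / 10 + 3 * τ / 4)) * (B : ℝ) ^ 2 := by ring
        _ ≤ (c2 / 2 * pb B) * (B : ℝ) ^ 2 := by gcongr
        _ = c2 / 2 * pb B * (B : ℝ) ^ 2 := by ring
    calc Cb * (B * (lam * B) ^ 3 + (B : ℝ) ^ 2 * (lam * B) ^ (3 / 2 : ℝ))
        = Cb * (B * (lam * B) ^ 3) + Cb * ((B : ℝ) ^ 2 * (lam * B) ^ (3 / 2 : ℝ)) := by ring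
      _ ≤ c2 / 2 * pb B * (B : ℝ) ^ 2 + c2 / 2 * pb B * (B : ℝ) ^ 2 := add_le_add h6 h9
      _ = c2 * pb B * (B : ℝ) ^ 2 := by ring
  · have h1 := hP2 B (by omega)
    have h2 : (A : ℝ) ≤ (B : ℝ) ^ (1 - τ / 4) := by
      calc (A : ℝ) = (A : ℝ) ^ (1 : ℝ) := (Real.rpow_one _).symm
        _ ≤ (A : ℝ) ^ ((1 + τ / 2) * (1 - τ / 4)) :=
            Real.rpow_le_rpow_of_exponent_le hAr (by nlinarith)
        _ ≤ _ := hPs _ (by linarith)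
    calc Cl * A = δ * (Cl / δ * A) := by field_simp
      _ ≤ δ * (Cl / δ * (B : ℝ) ^ (1 - τ / 4)) := by gcongr
      _ ≤ δ * pb B := by gcongr
  · calc K * B ≤ K * (2 * P) := by gcongr
      _ = K * 2 * P := by ring
      _ ≤ (A : ℝ) ^ (1 + τ) := hN6 A (by omega)
  · have h1 := hN7 A (by omega)
    rw [Real.rpow_zero, mul_one, Real.rpow_one] at h1
    have h2 : 1 ≤ c3 * A := by
      calc (1 : ℝ) = c3 * (1 / c3) := by field_simp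
        _ ≤ c3 * A := by gcongr
    have h3 : (1 : ℝ) ≤ (B : ℝ) ^ 2 := one_le_pow₀ hBr
    calc (1 : ℝ) = 1 * 1 := by ring
      _ ≤ c3 * A * (B : ℝ) ^ 2 := by gcongr

open scoped Classical in
theorem core {a : Idx 3 → ℤ} (ha : (Hm a).det ≠ 0) (q C0 : ℕ) (hq : 1 ≤ q) (c1 η δ τ : ℝ)
    (hc : 0 < c1) (hη : 0 < η) (hδ : 0 < δ) (hτ : 0 < τ) : ∃ N0 : ℕ, ∀ N ≥ N0, ∃ A0 : ℕ,
    ∀ A ≥ A0, (((bf 5 A).filter fun g =>
      c1 * ((N.factorial : ℕ) : ℝ) ^ 2 ≤ (UU a q N.factorial g).card ∧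
      (∃ t : Fin 3 → ℝ, (∀ i, |t i| ≤ C0) ∧
        phi (fun p => (a p : ℝ)) (fun p => (g p : ℝ)) t = 0 ∧
        ∃ i, η * A ≤ |dphi (fun p => (a p : ℝ)) (fun p => (g p : ℝ)) t i|) ∧
      ¬ ∃ x : Fin 5 → ℤ, x ≠ 0 ∧ ff a x = 0 ∧ qv g x = 0 ∧
        ∀ i, |(x i : ℝ)| ≤ (A : ℝ) ^ (1 + τ)).card : ℝ) ≤ δ * (2 * A + 1) ^ 15 := by
  have hτ' : 0 < min τ (1 / 10) := lt_min hτ (by norm_num)
  set τ1 : ℝ := min τ (1 / 10) with hτ1
  set C1 : ℕ := 4 * q * (C0 + 1) with hC1def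
  have hC1 : 1 ≤ C1 := by
    rw [hC1def]
    have : 0 < 4 * q * (C0 + 1) := by positivity
    omega
  obtain ⟨c, κ0, hc', hκ0, hlow⟩ := low ha q C0 hq η hη
  obtain ⟨Cv, Cp, Cl, hCv, hCp, hCl, hvarb⟩ := varb ha q C1 hq hC1
  obtain ⟨Cb, hCb, Bb, hbad⟩ := bad_card a q C1 hq hC1 (zeros_le ha)
  set ε : ℝ := δ * (c * c1) ^ 2 / (36 * Cv) / 4 with hε
  have hεpos : 0 < ε := by positivity
  obtain ⟨w, θ0, hθ0, Bv, hv⟩ := hvarb ε hεpos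
  set κ : ℝ := min κ0 (ε * θ0 / Cp) with hκ
  have hκpos : 0 < κ := lt_min hκ0 (by positivity)
  have hκθ : Cp * (κ / θ0) ≤ ε := by
    have h1 : κ ≤ ε * θ0 / Cp := min_le_right _ _
    calc Cp * (κ / θ0) ≤ Cp * (ε * θ0 / Cp / θ0) := by gcongr
      _ = ε := by field_simp
  refine ⟨max w q, fun N hN => ?_⟩
  have hwN : w ≤ N := (le_max_left _ _).trans hN
  have hqN : q ≤ N := (le_max_right _ _).trans hN
  set M : ℕ := N.factorial with hM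
  have hM1 : 1 ≤ M := Nat.factorial_pos N
  have hMr : (1 : ℝ) ≤ M := by exact_mod_cast hM1
  have hMpos : (0 : ℝ) < M := by linarith
  have hqM : ∀ p : ℕ, p.Prime → p ∣ q → p ∣ M := by
    intro p hp hpq
    exact Nat.dvd_factorial hp.pos ((Nat.le_of_dvd (by omega) hpq).trans hqN)
  obtain ⟨Bl, hl⟩ := hlow κ hκpos (min_le_left _ _) M hM1 hqM
  have hK : (1 : ℝ) ≤ (cx a q C1 : ℝ) := by
    have : 1 ≤ cx a q C1 := by unfold cx; omega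
    exact_mod_cast this
  obtain ⟨A0, hA0⟩ := asy q hq (cx a q C1 : ℝ) τ1 hK hτ' (min_le_right _ _) Cv Cp Cl Cb
    (c * c1 * κ / (2 * M)) ε hCp hCl hCb (by positivity) hεpos (max Bl (max Bb Bv)) (κ / M)
    (by positivity)
  refine ⟨A0, fun A hA => ?_⟩
  obtain ⟨B, lam, hA1, hBB, hB1, hlam0, hlamB, hlam1, hlB, hlq, hCR, hCpR, hCb', hClA, hpb, hKB,
    h1κ⟩ := hA0 A hA
  have hBl : Bl ≤ B := (le_max_left _ _).trans hBB
  have hBb : Bb ≤ B := ((le_max_left _ _).trans (le_max_right _ _)).trans hBB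
  have hBv : Bv ≤ B := ((le_max_right _ _).trans (le_max_right _ _)).trans hBB
  have hAr : (1 : ℝ) ≤ A := by exact_mod_cast hA1
  have hApos : (0 : ℝ) < A := by linarith
  have hBr : (1 : ℝ) ≤ B := by exact_mod_cast hB1
  have hBpos : (0 : ℝ) < B := by linarith
  have hpbr : (0 : ℝ) < pb B := by exact_mod_cast hpb
  set T : ℝ := κ * A * (B : ℝ) ^ 2 with hT
  have hTpos : 0 < T := by positivity
  set N1 : ℕ := ⌊T / M⌋₊ with hN1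
  have hTM : 1 ≤ T / M := by
    have e1 : T / M = κ / M * A * (B : ℝ) ^ 2 := by rw [hT]; ring
    rw [e1]
    exact h1κ
  have hTlt : T < (N1 + 1) * M := by
    have h1 := Nat.lt_floor_add_one (T / M)
    rw [div_lt_iff₀ hMpos] at h1
    exact h1
  have hN1T : (N1 : ℝ) ≤ T / M := Nat.floor_le (by positivity)
  set G := XG a q C1 B lam with hG
  set Y := (bf 5 A).filter fun g =>
      c1 * ((N.factorial : ℕ) : ℝ) ^ 2 ≤ (UU a q N.factorial g).card ∧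
      (∃ t : Fin 3 → ℝ, (∀ i, |t i| ≤ C0) ∧
        phi (fun p => (a p : ℝ)) (fun p => (g p : ℝ)) t = 0 ∧
        ∃ i, η * A ≤ |dphi (fun p => (a p : ℝ)) (fun p => (g p : ℝ)) t i|) ∧
      ¬ ∃ x : Fin 5 → ℤ, x ≠ 0 ∧ ff a x = 0 ∧ qv g x = 0 ∧
        ∀ i, |(x i : ℝ)| ≤ (A : ℝ) ^ (1 + τ) with hY
  set E : ℝ := c * c1 * κ / (2 * M) * pb B * (B : ℝ) ^ 2 with hE
  have hEpos : 0 < E := by positivity
  have h0 : ∀ g ∈ Y, rJ G g 0 = 0 := by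
    intro g hg
    rw [hY, mem_filter] at hg
    obtain ⟨-, -, -, hno⟩ := hg
    unfold rJ
    rw [card_eq_zero, filter_eq_empty_iff]
    intro x hx hgx
    have hgd := pt_good hq hlam0 hlam1 hx
    have hpt : IsPt a q C1 B x := by
      rw [hG] at hx
      unfold XG at hx
      rw [mem_filter] at hx
      exact (mem_XP hq).1 hx.1
    refine hno ⟨x, ?_, hpt.zero, hgx, fun i => (hgd.2.2.1 i).trans (hKB.trans ?_)⟩
    · intro hx0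
      have h1 := (pt_x1 hq hpt).1
      rw [hx0] at h1
      simp only [Pi.zero_apply] at h1
      have : (0 : ℤ) ≤ B := Int.natCast_nonneg B
      omega
    · refine Real.rpow_le_rpow_of_exponent_le hAr ?_
      have : τ1 ≤ τ := min_le_left _ _
      linarith
  have h1 : ∀ g ∈ Y, E ≤ ∑ j ∈ Icc (-(N1 : ℤ)) N1, (rJ G g (j * M) : ℝ) := by
    intro g hg
    rw [hY, mem_filter] at hg
    obtain ⟨hgb, hU, ht, -⟩ := hg
    have h2 := hl B hBl A g c1 hA1 hgb hc hU ht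
    have h3 := hbad B hBb lam hlB hlq
    have h4 : ((XP a q C1 B).filter fun x => (M : ℤ) ∣ qv g x ∧
        |((qv g x : ℤ) : ℝ)| ≤ κ * A * (B : ℝ) ^ 2).card ≤
        (G.filter fun x => (M : ℤ) ∣ qv g x ∧ |((qv g x : ℤ) : ℝ)| ≤ T).card +
          ((XP a q C1 B).filter fun x => ¬ Sep lam x).card := by
      refine (card_le_card ?_).trans (card_union_le _ _)
      intro x hx
      rw [mem_filter] at hx
      rw [mem_union, mem_filter, mem_filter]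
      by_cases hs : Sep lam x
      · left
        refine ⟨?_, hx.2⟩
        rw [hG]
        unfold XG
        rw [mem_filter]
        exact ⟨hx.1, hs⟩
      · right
        exact ⟨hx.1, hs⟩
    have h5 := sumr G g M N1 T (by omega) hTlt
    have h4' : (((XP a q C1 B).filter fun x => (M : ℤ) ∣ qv g x ∧
        |((qv g x : ℤ) : ℝ)| ≤ κ * A * (B : ℝ) ^ 2).card : ℝ) ≤
        ((G.filter fun x => (M : ℤ) ∣ qv g x ∧ |((qv g x : ℤ) : ℝ)| ≤ T).card : ℝ) +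
          (((XP a q C1 B).filter fun x => ¬ Sep lam x).card : ℝ) := by
      exact_mod_cast h4
    have h5' : ((G.filter fun x => (M : ℤ) ∣ qv g x ∧ |((qv g x : ℤ) : ℝ)| ≤ T).card : ℝ) ≤
        ∑ j ∈ Icc (-(N1 : ℤ)) N1, (rJ G g (j * M) : ℝ) := by
      exact_mod_cast h5
    have h6 : c * c1 * κ * pb B * (B : ℝ) ^ 2 / M = 2 * E := by
      rw [hE]
      field_simp
    have h7 : (((XP a q C1 B).filter fun x => ¬ Sep lam x).card : ℝ) ≤ E := h3.trans hCb'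
    linarith
  set V : ℝ := Cv * (Cl * pb B * (A : ℝ) ^ 14 + (A : ℝ) ^ 13 * (pb B : ℝ) ^ 2 *
          (Cp * (κ / θ0 + (300 * (cx a q C1 : ℝ) / lam) ^ 2 / A) + ε)) with hV
  have hVb : ∀ j ∈ Icc (-(N1 : ℤ)) N1,
      ∑ g ∈ bf 5 A, ((rJ G g 0 : ℝ) - rJ G g (j * M)) ^ 2 ≤ V := by
    intro j hj
    refine hv A B lam κ hA1 hBv hlam0 hlamB hlam1 hCR hκpos (j * M) ?_ ?_
    · intro k hk hkw
      refine Dvd.dvd.mul_left ?_ j
      exact_mod_cast Nat.dvd_factorial hk (hkw.trans hwN)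
    · rw [mem_Icc] at hj
      have h2 : |j| ≤ (N1 : ℤ) := abs_le.2 hj
      have h3 : |(j : ℝ)| ≤ N1 := by exact_mod_cast h2
      push_cast
      rw [abs_mul, abs_of_pos hMpos]
      calc |(j : ℝ)| * M ≤ T / M * M := by
            have := h3.trans hN1T
            gcongr
        _ = T := by field_simp
        _ = κ * A * (B : ℝ) ^ 2 := rfl
  have hcnt := core_cnt G A M N1 T E V (by omega) hTlt hEpos.le Y (filter_subset _ _) h0 h1 hVb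
  -- final numbers
  have hV2 : V ≤ Cv * ((pb B : ℝ) ^ 2 * (A : ℝ) ^ 13 * (4 * ε)) := by
    rw [hV]
    refine mul_le_mul_of_nonneg_left ?_ hCv.le
    have e1 : Cl * pb B * (A : ℝ) ^ 14 ≤ ε * ((pb B : ℝ) ^ 2 * (A : ℝ) ^ 13) := by
      calc Cl * pb B * (A : ℝ) ^ 14 = (Cl * A) * (pb B * (A : ℝ) ^ 13) := by ring
        _ ≤ (ε * pb B) * (pb B * (A : ℝ) ^ 13) := by gcongr
        _ = ε * ((pb B : ℝ) ^ 2 * (A : ℝ) ^ 13) := by ring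
    have e2 : Cp * (κ / θ0 + (300 * (cx a q C1 : ℝ) / lam) ^ 2 / A) + ε ≤ 3 * ε := by
      rw [mul_add]
      linarith
    have e3 : (A : ℝ) ^ 13 * (pb B : ℝ) ^ 2 *
        (Cp * (κ / θ0 + (300 * (cx a q C1 : ℝ) / lam) ^ 2 / A) + ε) ≤
        (A : ℝ) ^ 13 * (pb B : ℝ) ^ 2 * (3 * ε) :=
      mul_le_mul_of_nonneg_left e2 (by positivity)
    calc _ ≤ ε * ((pb B : ℝ) ^ 2 * (A : ℝ) ^ 13) + (A : ℝ) ^ 13 * (pb B : ℝ) ^ 2 * (3 * ε) :=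
          add_le_add e1 e3
      _ = (pb B : ℝ) ^ 2 * (A : ℝ) ^ 13 * (4 * ε) := by ring
  have h2N : (2 * (N1 : ℝ) + 1) ≤ 3 * (T / M) := by linarith
  have hfin : (Y.card : ℝ) * E ^ 2 ≤
      (3 * (T / M)) ^ 2 * (Cv * ((pb B : ℝ) ^ 2 * (A : ℝ) ^ 13 * (4 * ε))) := by
    refine hcnt.trans ?_
    have hV0 : 0 ≤ Cv * ((pb B : ℝ) ^ 2 * (A : ℝ) ^ 13 * (4 * ε)) := by positivity
    calc (2 * (N1 : ℝ) + 1) ^ 2 * V
        ≤ (2 * (N1 : ℝ) + 1) ^ 2 * (Cv * ((pb B : ℝ) ^ 2 * (A : ℝ) ^ 13 * (4 * ε))) := by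
          gcongr
      _ ≤ (3 * (T / M)) ^ 2 * (Cv * ((pb B : ℝ) ^ 2 * (A : ℝ) ^ 13 * (4 * ε))) := by
          gcongr
  have e4 : (3 * (T / M)) ^ 2 * (Cv * ((pb B : ℝ) ^ 2 * (A : ℝ) ^ 13 * (4 * ε))) =
      δ * (A : ℝ) ^ 15 * E ^ 2 := by
    rw [hE, hT, hε]
    field_simp
    ring
  rw [e4] at hfin
  have h8 : (Y.card : ℝ) ≤ δ * (A : ℝ) ^ 15 :=
    le_of_mul_le_mul_right hfin (by positivity)
  refine h8.trans (mul_le_mul_of_nonneg_left ?_ hδ.le)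
  refine pow_le_pow_left₀ hApos.le ?_ 15
  linarith

end Pool.Agent.H7.HP
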