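import Pool.Agent.H7.HP.Pts

set_option autoImplicit false
set_option linter.unusedSectionVars false

/-!
# The chart `x1 = 1` and the local solutions: definitions
-/

namespace Pool.Agent.H7.HP

open Finset

section Ring

variable {R : Type*} [CommRing R]

/-- the form `g` on the quadric `f = 0` in the chart `x1 = 1`: `g(h(t), 1, t)` -/
def phi (a : Idx 3 → R) (g : Idx 5 → R) (t : Fin 3 → R) : R := qv g (mk5 (qv a t) 1 t)

/-- partial derivatives of `phi` -/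
def dphi (a : Idx 3 → R) (g : Idx 5 → R) (t : Fin 3 → R) (i : Fin 3) : R :=
  pl g (mk5 (qv a t) 1 t) (mk5 (pl a t (Pi.single i 1)) 0 (Pi.single i 1))

/-- homogeneous version with `q`: `g(h(u), q^2, q u)` -/
def GG (a : Idx 3 → R) (g : Idx 5 → R) (q : R) (u : Fin 3 → R) : R :=
  qv g (mk5 (qv a u) (q ^ 2) fun i => q * u i)

/-- partial derivatives of `GG` -/
def dGG (a : Idx 3 → R) (g : Idx 5 → R) (q : R) (u : Fin 3 → R) (i : Fin 3) : R :=
  pl g (mk5 (qv a u) (q ^ 2) fun i => q * u i)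
    (mk5 (pl a u (Pi.single i 1)) 0 fun j => q * (Pi.single i 1 : Fin 3 → R) j)

end Ring

/-- local solutions: `q ∣ h(u)`, `M ∣ g(h(u)/q, q, u)`, and this vector is primitive at the primes of `q` -/
def Sol (a : Idx 3 → ℤ) (g : Idx 5 → ℤ) (q M : ℕ) (u : Fin 3 → ℤ) : Prop :=
  (q : ℤ) ∣ qv a u ∧ (M : ℤ) ∣ qv g (mk5 (qv a u / q) q u) ∧
    ∀ p : ℕ, p.Prime → p ∣ q → ¬ ((p : ℤ) ∣ qv a u / q ∧ ∀ i, (p : ℤ) ∣ u i)

open scoped Classical in
/-- the local solutions modulo `M q^2` -/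
noncomputable def UU (a : Idx 3 → ℤ) (q M : ℕ) (g : Idx 5 → ℤ) : Finset (Fin 3 → ℤ) :=
  (Fintype.piFinset fun _ => Ico (0 : ℤ) (M * q ^ 2)).filter (Sol a g q M)

end Pool.Agent.H7.HP
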