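import Pool.Agent.H7.HP.CoreDefs

set_option autoImplicit false
set_option linter.unusedSectionVars false

/-!
# [H7 HP CRT] Chinese remainder theorem for the local solutions, 110-180 lines

* `uu_mul`: `m1 = M1 q1^2`, `m2 = M2 q2^2` coprime. For `u1 ∈ UU a q1 M1 g`, `u2 ∈ UU a q2 M2 g` let `u ∈ [0, m1 m2)^3` with `u ≡ q2 u1` modulo `m1`, `u ≡ q1 u2` modulo `m2`. The map `(u1, u2) ↦ u` is injective (`q2` invertible modulo `m1`). `Sol a g (q1 q2) (M1 M2) u`: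
`h(u) ≡ q2^2 h(u1)` modulo `m1`, so `q1 ∣ h(u)`, likewise `q2 ∣ h(u)`, so `q1 q2 ∣ h(u)`; `h(u)/q1 ≡ q2^2 h(u1)/q1` modulo `M1 q1`, so (dividing by the unit `q2`) `h(u)/(q1 q2) ≡ q2 h(u1)/q1` modulo `M1 q1`: the vector `mk5 (h(u)/(q1 q2)) (q1 q2) u` is
`≡ q2 * mk5 (h(u1)/q1) q1 u1` modulo `M1` and modulo every prime `p ∣ q1`; so `M1 ∣ g`, and it is not `0` modulo `p`. The same for the index 2.
* `uu_prod`: induction on the finset.
* `uu_one`: for `q = 1`: `Sol a g 1 M u` is `M ∣ g(h(u), 1, u)`; reduction modulo `M` is a bijection.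
-/

namespace Pool.Agent.H7.HP

open Finset

private theorem crt_qv {n : ℕ} (c : Idx n → ℤ) (m : ℤ) (x y : Fin n → ℤ)
    (h : ∀ i, m ∣ x i - y i) : m ∣ qv c x - qv c y := by
  unfold qv
  rw [← Finset.sum_sub_distrib]
  refine Finset.dvd_sum fun p _ => ?_
  have e : c p * (x p.1.1 * x p.1.2) - c p * (y p.1.1 * y p.1.2) =
      (c p * x p.1.1) * (x p.1.2 - y p.1.2) + (c p * y p.1.2) * (x p.1.1 - y p.1.1) := by ring
  rw [e]
  exact dvd_add (Dvd.dvd.mul_left (h _) _) (Dvd.dvd.mul_left (h _) _)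

/-- one side of the Chinese remainder theorem -/
private theorem crt_side (a : Idx 3 → ℤ) (g : Idx 5 → ℤ) {q1 q2 M1 : ℕ} (hq1 : 0 < q1)
    (hq2 : 0 < q2) (hco : Nat.Coprime (M1 * q1) q2) {u1 u : Fin 3 → ℤ}
    (hs : Sol a g q1 M1 u1) (hu : ∀ i, ((M1 * q1 ^ 2 : ℕ) : ℤ) ∣ u i - q2 * u1 i)
    (hd : ((q1 * q2 : ℕ) : ℤ) ∣ qv a u) :
    (M1 : ℤ) ∣ qv g (mk5 (qv a u / ((q1 * q2 : ℕ) : ℤ)) ((q1 * q2 : ℕ) : ℤ) u) ∧
      ∀ p : ℕ, p.Prime → p ∣ q1 →
        ¬ ((p : ℤ) ∣ qv a u / ((q1 * q2 : ℕ) : ℤ) ∧ ∀ i, (p : ℤ) ∣ u i) := by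
  obtain ⟨hs1, hs2, hs3⟩ := hs
  obtain ⟨k1, hk1⟩ := hs1
  obtain ⟨k, hk⟩ := hd
  have hq1z : (q1 : ℤ) ≠ 0 := by exact_mod_cast hq1.ne'
  have hq2z : (q2 : ℤ) ≠ 0 := by exact_mod_cast hq2.ne'
  have hqz : ((q1 * q2 : ℕ) : ℤ) ≠ 0 := by exact_mod_cast (Nat.mul_pos hq1 hq2).ne'
  have ek1 : qv a u1 / (q1 : ℤ) = k1 := by
    rw [hk1, Int.mul_ediv_cancel_left _ hq1z]
  have ek : qv a u / ((q1 * q2 : ℕ) : ℤ) = k := by
    rw [hk, Int.mul_ediv_cancel_left _ hqz]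
  rw [ek1] at hs2 hs3
  rw [ek]
  -- `k ≡ q2 k1` modulo `M1 q1`
  have h1 : ((M1 * q1 ^ 2 : ℕ) : ℤ) ∣ qv a u - (q2 : ℤ) ^ 2 * qv a u1 := by
    rw [← qv_smul]
    exact crt_qv a _ u _ hu
  obtain ⟨T, hT⟩ := h1
  have h2 : (q2 : ℤ) * (k - q2 * k1) = (M1 * q1 : ℕ) * T := by
    rw [hk, hk1] at hT
    push_cast at hT ⊢
    have h3 : (q1 : ℤ) * (q2 * (k - q2 * k1)) = q1 * (M1 * q1 * T) := by
      linear_combination hT
    exact mul_left_cancel₀ hq1z h3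
  have h3 : ((M1 * q1 : ℕ) : ℤ) ∣ k - q2 * k1 := by
    have hc : IsCoprime ((M1 * q1 : ℕ) : ℤ) (q2 : ℤ) := Nat.isCoprime_iff_coprime.2 hco
    exact hc.dvd_of_dvd_mul_left (Dvd.intro T h2.symm)
  have hu' : ∀ i, ((M1 * q1 : ℕ) : ℤ) ∣ u i - q2 * u1 i := fun i =>
    (Int.natCast_dvd_natCast.2 ⟨q1, by ring⟩ : ((M1 * q1 : ℕ) : ℤ) ∣ ((M1 * q1 ^ 2 : ℕ) : ℤ)).trans
      (hu i)
  have hM : (M1 : ℤ) ∣ ((M1 * q1 : ℕ) : ℤ) := Int.natCast_dvd_natCast.2 (Dvd.intro _ rfl)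
  constructor
  · have h4 : (M1 : ℤ) ∣ qv g (mk5 k ((q1 * q2 : ℕ) : ℤ) u) -
        qv g (fun i => (q2 : ℤ) * mk5 k1 (q1 : ℤ) u1 i) := by
      refine crt_qv g _ _ _ fun i => ?_
      have e0 : (M1 : ℤ) ∣ k - q2 * k1 := hM.trans h3
      have e1 : (M1 : ℤ) ∣ ((q1 * q2 : ℕ) : ℤ) - q2 * q1 := by
        push_cast
        rw [show (q1 : ℤ) * q2 - q2 * q1 = 0 by ring]
        exact dvd_zero _
      have e2 : ∀ j, (M1 : ℤ) ∣ u j - q2 * u1 j := fun j => hM.trans (hu' j)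
      fin_cases i
      · exact e0
      · exact e1
      · exact e2 0
      · exact e2 1
      · exact e2 2
    rw [qv_smul] at h4
    have h5 : (M1 : ℤ) ∣ (q2 : ℤ) ^ 2 * qv g (mk5 k1 (q1 : ℤ) u1) := Dvd.dvd.mul_left hs2 _
    have h6 := dvd_add h4 h5
    rwa [sub_add_cancel] at h6
  · rintro p hp hpq ⟨hpk, hpu⟩
    have hpz : Prime (p : ℤ) := Nat.prime_iff_prime_int.1 hp
    have hpM : (p : ℤ) ∣ ((M1 * q1 : ℕ) : ℤ) :=
      Int.natCast_dvd_natCast.2 (Dvd.dvd.mul_left hpq _)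
    have hpq2 : ¬ (p : ℤ) ∣ (q2 : ℤ) := by
      intro h
      have h5 : p ∣ q2 := Int.natCast_dvd_natCast.1 h
      have h6 : p ∣ M1 * q1 := Dvd.dvd.mul_left hpq _
      exact hp.one_lt.ne' (Nat.eq_one_of_dvd_coprimes hco h6 h5)
    apply hs3 p hp hpq
    constructor
    · have h5 : (p : ℤ) ∣ q2 * k1 := by
        have h6 := dvd_sub hpk (hpM.trans h3)
        rwa [sub_sub_cancel] at h6
      exact (hpz.dvd_or_dvd h5).resolve_left hpq2
    · intro i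
      have h5 : (p : ℤ) ∣ q2 * u1 i := by
        have h6 := dvd_sub (hpu i) (hpM.trans (hu' i))
        rwa [sub_sub_cancel] at h6
      exact (hpz.dvd_or_dvd h5).resolve_left hpq2

private theorem crt_dvd (a : Idx 3 → ℤ) {q1 q2 M1 : ℕ} {u1 u : Fin 3 → ℤ}
    (hs : (q1 : ℤ) ∣ qv a u1) (hu : ∀ i, ((M1 * q1 ^ 2 : ℕ) : ℤ) ∣ u i - q2 * u1 i) :
    (q1 : ℤ) ∣ qv a u := by
  have h1 : ((M1 * q1 ^ 2 : ℕ) : ℤ) ∣ qv a u - (q2 : ℤ) ^ 2 * qv a u1 := by
    rw [← qv_smul]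
    exact crt_qv a _ u _ hu
  have h2 : (q1 : ℤ) ∣ ((M1 * q1 ^ 2 : ℕ) : ℤ) := Int.natCast_dvd_natCast.2 ⟨M1 * q1, by ring⟩
  have h3 := dvd_add (h2.trans h1) (Dvd.dvd.mul_left hs ((q2 : ℤ) ^ 2))
  rwa [sub_add_cancel] at h3

theorem uu_mul (a : Idx 3 → ℤ) (g : Idx 5 → ℤ) (q1 q2 M1 M2 : ℕ) (h1 : 0 < M1 * q1)
    (h2 : 0 < M2 * q2) (h : Nat.Coprime (M1 * q1) (M2 * q2)) :
    (UU a q1 M1 g).card * (UU a q2 M2 g).card ≤ (UU a (q1 * q2) (M1 * M2) g).card := by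
  classical
  have hq1 : 0 < q1 := Nat.pos_of_mul_pos_left h1
  have hq2 : 0 < q2 := Nat.pos_of_mul_pos_left h2
  have hM1 : 0 < M1 := Nat.pos_of_mul_pos_right h1
  have hM2 : 0 < M2 := Nat.pos_of_mul_pos_right h2
  have hm1 : 0 < M1 * q1 ^ 2 := by positivity
  have hm2 : 0 < M2 * q2 ^ 2 := by positivity
  have c1 : Nat.Coprime (M1 * q1) q2 := Nat.Coprime.coprime_mul_left_right h
  have c2 : Nat.Coprime (M2 * q2) q1 := (Nat.Coprime.coprime_mul_left h).symm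
  have cM : Nat.Coprime M1 M2 :=
    Nat.Coprime.coprime_mul_right (Nat.Coprime.coprime_mul_right_right h)
  have cq : Nat.Coprime q1 q2 := Nat.Coprime.coprime_mul_left c1
  have cm : Nat.Coprime (M1 * q1 ^ 2) (M2 * q2 ^ 2) := by
    have e1 : Nat.Coprime ((M1 * q1) ^ 2) ((M2 * q2) ^ 2) := Nat.Coprime.pow 2 2 h
    refine Nat.Coprime.coprime_dvd_left ⟨M1, by ring⟩
      (Nat.Coprime.coprime_dvd_right ⟨M2, by ring⟩ e1)
  have cm1 : Nat.Coprime (M1 * q1 ^ 2) q2 :=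
    Nat.Coprime.coprime_dvd_right ⟨M2 * q2, by ring⟩ cm
  have cm2 : Nat.Coprime (M2 * q2 ^ 2) q1 :=
    Nat.Coprime.coprime_dvd_right ⟨M1 * q1, by ring⟩ cm.symm
  obtain ⟨A, B, hAB⟩ := (Nat.isCoprime_iff_coprime.2 cm :
    IsCoprime ((M1 * q1 ^ 2 : ℕ) : ℤ) ((M2 * q2 ^ 2 : ℕ) : ℤ))
  set m1 : ℤ := ((M1 * q1 ^ 2 : ℕ) : ℤ) with hm1d
  set m2 : ℤ := ((M2 * q2 ^ 2 : ℕ) : ℤ) with hm2d
  have hm1z : 0 < m1 := Int.natCast_pos.2 hm1
  have hm2z : 0 < m2 := Int.natCast_pos.2 hm2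
  set F : (Fin 3 → ℤ) × (Fin 3 → ℤ) → (Fin 3 → ℤ) := fun u i =>
    (q2 * u.1 i * (B * m2) + q1 * u.2 i * (A * m1)) % (m1 * m2) with hF
  have hF1 : ∀ u i, m1 ∣ F u i - q2 * u.1 i := by
    intro u i
    have e1 : m1 * m2 ∣ (q2 * u.1 i * (B * m2) + q1 * u.2 i * (A * m1)) - F u i :=
      Int.dvd_self_sub_emod
    have e2 : F u i - q2 * u.1 i =
        -((q2 * u.1 i * (B * m2) + q1 * u.2 i * (A * m1)) - F u i) +
          m1 * (A * (q1 * u.2 i) - A * (q2 * u.1 i)) := by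
      linear_combination (q2 * u.1 i) * hAB
    rw [e2]
    exact dvd_add ((dvd_neg.2 ((Dvd.intro _ rfl).trans e1))) (Dvd.intro _ rfl)
  have hF2 : ∀ u i, m2 ∣ F u i - q1 * u.2 i := by
    intro u i
    have e1 : m1 * m2 ∣ (q2 * u.1 i * (B * m2) + q1 * u.2 i * (A * m1)) - F u i :=
      Int.dvd_self_sub_emod
    have e2 : F u i - q1 * u.2 i =
        -((q2 * u.1 i * (B * m2) + q1 * u.2 i * (A * m1)) - F u i) +
          m2 * (B * (q2 * u.1 i) - B * (q1 * u.2 i)) := by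
      linear_combination (q1 * u.2 i) * hAB
    rw [e2]
    exact dvd_add ((dvd_neg.2 ((Dvd.intro_left _ rfl).trans e1))) (Dvd.intro _ rfl)
  rw [← Finset.card_product]
  refine Finset.card_le_card_of_injOn F ?_ ?_
  · rintro ⟨u1, u2⟩ hu
    rw [Finset.mem_coe, Finset.mem_product] at hu
    obtain ⟨hu1, hu2⟩ := hu
    have s1 := (Finset.mem_filter.1 hu1).2
    have s2 := (Finset.mem_filter.1 hu2).2
    change Sol a g q1 M1 u1 at s1
    change Sol a g q2 M2 u2 at s2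
    rw [Finset.mem_coe]
    unfold UU
    rw [Finset.mem_filter, Fintype.mem_piFinset]
    constructor
    · intro i
      rw [Finset.mem_Ico]
      have hmm : (((M1 * M2 : ℕ) : ℤ) * ((q1 * q2 : ℕ) : ℤ) ^ 2) = m1 * m2 := by
        rw [hm1d, hm2d]
        push_cast
        ring
      rw [hmm]
      exact ⟨Int.emod_nonneg _ (mul_pos hm1z hm2z).ne',
        Int.emod_lt_of_pos _ (mul_pos hm1z hm2z)⟩
    · have d1 : (q1 : ℤ) ∣ qv a (F (u1, u2)) := crt_dvd a s1.1 (hF1 (u1, u2))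
      have d2 : (q2 : ℤ) ∣ qv a (F (u1, u2)) := crt_dvd a s2.1 (hF2 (u1, u2))
      have cqz : IsCoprime (q1 : ℤ) (q2 : ℤ) := Nat.isCoprime_iff_coprime.2 cq
      have d3 : ((q1 * q2 : ℕ) : ℤ) ∣ qv a (F (u1, u2)) := by
        push_cast
        exact cqz.mul_dvd d1 d2
      have t1 := crt_side a g hq1 hq2 c1 s1 (hF1 (u1, u2)) d3
      have d3' : ((q2 * q1 : ℕ) : ℤ) ∣ qv a (F (u1, u2)) := by
        rw [Nat.mul_comm q2 q1]
        exact d3
      have t2 := crt_side a g hq2 hq1 c2 s2 (hF2 (u1, u2)) d3'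
      rw [Nat.mul_comm q2 q1] at t2
      refine ⟨d3, ?_, ?_⟩
      · have cMz : IsCoprime (M1 : ℤ) (M2 : ℤ) := Nat.isCoprime_iff_coprime.2 cM
        have := cMz.mul_dvd t1.1 t2.1
        exact_mod_cast this
      · intro p hp hpq
        rcases (Nat.Prime.dvd_mul hp).1 hpq with h3 | h3
        · exact t1.2 p hp h3
        · exact t2.2 p hp h3
  · rintro ⟨u1, u2⟩ hu ⟨v1, v2⟩ hv huv
    rw [Finset.mem_coe, Finset.mem_product] at hu hv
    have r1 : ∀ i, u1 i ∈ Finset.Ico (0 : ℤ) (M1 * q1 ^ 2) :=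
      Fintype.mem_piFinset.1 (Finset.mem_filter.1 hu.1).1
    have r2 : ∀ i, u2 i ∈ Finset.Ico (0 : ℤ) (M2 * q2 ^ 2) :=
      Fintype.mem_piFinset.1 (Finset.mem_filter.1 hu.2).1
    have r3 : ∀ i, v1 i ∈ Finset.Ico (0 : ℤ) (M1 * q1 ^ 2) :=
      Fintype.mem_piFinset.1 (Finset.mem_filter.1 hv.1).1
    have r4 : ∀ i, v2 i ∈ Finset.Ico (0 : ℤ) (M2 * q2 ^ 2) :=
      Fintype.mem_piFinset.1 (Finset.mem_filter.1 hv.2).1
    have key : ∀ (m : ℤ) (q : ℕ) (x y : ℤ), IsCoprime m (q : ℤ) → m ∣ q * x - q * y →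
        0 ≤ x → x < m → 0 ≤ y → y < m → x = y := by
      intro m q x y hc hd hx0 hx hy0 hy
      rw [← mul_sub] at hd
      have e1 : m ∣ x - y := hc.dvd_of_dvd_mul_left hd
      have e2 : x - y = 0 := Int.eq_zero_of_abs_lt_dvd e1 (by rw [abs_lt]; constructor <;> linarith)
      linarith
    have E1 : u1 = v1 := by
      funext i
      have a1 := hF1 (u1, u2) i
      have a2 := hF1 (v1, v2) i
      rw [huv] at a1
      have a3 := dvd_sub a2 a1
      have a4 : F (v1, v2) i - q2 * v1 i - (F (v1, v2) i - q2 * u1 i) =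
          q2 * u1 i - q2 * v1 i := by ring
      simp only at a3
      rw [a4] at a3
      have b1 := Finset.mem_Ico.1 (r1 i)
      have b2 := Finset.mem_Ico.1 (r3 i)
      have hm : m1 = (M1 : ℤ) * q1 ^ 2 := by
        rw [hm1d]
        push_cast
        rfl
      exact key m1 q2 _ _ (Nat.isCoprime_iff_coprime.2 cm1) a3 b1.1 (hm ▸ b1.2) b2.1
        (hm ▸ b2.2)
    have E2 : u2 = v2 := by
      funext i
      have a1 := hF2 (u1, u2) i
      have a2 := hF2 (v1, v2) i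
      rw [huv] at a1
      have a3 := dvd_sub a2 a1
      have a4 : F (v1, v2) i - q1 * v2 i - (F (v1, v2) i - q1 * u2 i) =
          q1 * u2 i - q1 * v2 i := by ring
      simp only at a3
      rw [a4] at a3
      have b1 := Finset.mem_Ico.1 (r2 i)
      have b2 := Finset.mem_Ico.1 (r4 i)
      have hm : m2 = (M2 : ℤ) * q2 ^ 2 := by
        rw [hm2d]
        push_cast
        rfl
      exact key m2 q1 _ _ (Nat.isCoprime_iff_coprime.2 cm2) a3 b1.1 (hm ▸ b1.2) b2.1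
        (hm ▸ b2.2)
    rw [E1, E2]

theorem uu_prod (a : Idx 3 → ℤ) (g : Idx 5 → ℤ) (S : Finset ℕ) (hS : ∀ p ∈ S, p.Prime)
    (v e : ℕ → ℕ) : ∏ p ∈ S, (UU a (p ^ v p) (p ^ e p) g).card ≤
      (UU a (∏ p ∈ S, p ^ v p) (∏ p ∈ S, p ^ e p) g).card := by
  classical
  induction S using Finset.induction_on with
  | empty =>
    rw [Finset.prod_empty, Finset.prod_empty, Finset.prod_empty]
    refine Finset.card_pos.2 ⟨fun _ => 0, ?_⟩
    unfold UU
    rw [Finset.mem_filter, Fintype.mem_piFinset]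
    refine ⟨fun i => by simp, ?_, ?_, ?_⟩
    · simp
    · simp
    · intro p hp hp1
      exact absurd (Nat.dvd_one.1 hp1) hp.one_lt.ne'
  | insert p S hp ih =>
    have hS' : ∀ r ∈ S, r.Prime := fun r hr => hS r (Finset.mem_insert_of_mem hr)
    have hpp : p.Prime := hS p (Finset.mem_insert_self p S)
    rw [Finset.prod_insert hp, Finset.prod_insert hp, Finset.prod_insert hp]
    refine (Nat.mul_le_mul_left _ (ih hS')).trans ?_
    have hpos : ∀ f : ℕ → ℕ, 0 < ∏ r ∈ S, r ^ f r := fun f =>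
      Finset.prod_pos fun r hr => pow_pos (hS' r hr).pos _
    have hcop : ∀ (k : ℕ) (f : ℕ → ℕ), Nat.Coprime (p ^ k) (∏ r ∈ S, r ^ f r) := by
      intro k f
      refine Nat.Coprime.prod_right fun r hr => ?_
      refine Nat.Coprime.pow _ _ ((Nat.coprime_primes hpp (hS' r hr)).2 ?_)
      rintro rfl
      exact hp hr
    refine uu_mul a g _ _ _ _ (Nat.mul_pos (pow_pos hpp.pos _) (pow_pos hpp.pos _))
      (Nat.mul_pos (hpos e) (hpos v)) ?_
    exact Nat.Coprime.mul_left (Nat.Coprime.mul_right (hcop _ _) (hcop _ _))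
      (Nat.Coprime.mul_right (hcop _ _) (hcop _ _))

open scoped Classical in
theorem uu_one (a : Idx 3 → ℤ) (g : Idx 5 → ℤ) (M : ℕ) [NeZero M] :
    (UU a 1 M g).card = ((univ : Finset (Fin 3 → ZMod M)).filter fun u =>
      phi (fun r => (a r : ZMod M)) (fun r => (g r : ZMod M)) u = 0).card := by
  have hM : 0 < M := Nat.pos_of_ne_zero (NeZero.ne M)
  have key : ∀ u : Fin 3 → ℤ, Sol a g 1 M u ↔
      phi (fun r => (a r : ZMod M)) (fun r => (g r : ZMod M)) (fun i => (u i : ZMod M)) = 0 := by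
    intro u
    have e1 : phi (fun r => (a r : ZMod M)) (fun r => (g r : ZMod M))
        (fun i => (u i : ZMod M)) = ((qv g (mk5 (qv a u) 1 u) : ℤ) : ZMod M) := by
      have e2 := qv_map (Int.castRingHom (ZMod M)) g (mk5 (qv a u) 1 u)
      have e3 := qv_map (Int.castRingHom (ZMod M)) a u
      simp only [eq_intCast] at e2 e3
      rw [e2]
      unfold phi
      congr 1
      funext i
      fin_cases i
      · exact e3.symm
      · exact Int.cast_one.symm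
      · rfl
      · rfl
      · rfl
    rw [e1, ZMod.intCast_zmod_eq_zero_iff_dvd]
    unfold Sol
    simp only [Nat.cast_one, Int.ediv_one]
    constructor
    · rintro ⟨_, h, _⟩
      exact h
    · intro h
      refine ⟨one_dvd _, h, fun p hp hp1 => ?_⟩
      exact absurd (Nat.dvd_one.1 hp1) hp.one_lt.ne'
  refine Finset.card_bij (fun u _ => fun i => (u i : ZMod M)) ?_ ?_ ?_
  · intro u hu
    rw [Finset.mem_filter]
    exact ⟨mem_univ _, (key u).1 (Finset.mem_filter.1 hu).2⟩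
  · intro u hu v hv huv
    have r1 : ∀ i, u i ∈ Finset.Ico (0 : ℤ) (M * ((1 : ℕ) : ℤ) ^ 2) :=
      Fintype.mem_piFinset.1 (Finset.mem_filter.1 hu).1
    have r2 : ∀ i, v i ∈ Finset.Ico (0 : ℤ) (M * ((1 : ℕ) : ℤ) ^ 2) :=
      Fintype.mem_piFinset.1 (Finset.mem_filter.1 hv).1
    funext i
    have b1 := Finset.mem_Ico.1 (r1 i)
    have b2 := Finset.mem_Ico.1 (r2 i)
    simp only [Nat.cast_one, one_pow, mul_one] at b1 b2
    have e1 : ((u i : ℤ) : ZMod M) = ((v i : ℤ) : ZMod M) := congrFun huv i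
    have e2 : (M : ℤ) ∣ u i - v i := by
      rw [← ZMod.intCast_zmod_eq_zero_iff_dvd]
      push_cast
      rw [e1, sub_self]
    have e3 : u i - v i = 0 :=
      Int.eq_zero_of_abs_lt_dvd e2 (by rw [abs_lt]; constructor <;> linarith)
    linarith
  · intro v hv
    have e0 : (fun i => (((((v i).val : ℕ) : ℤ)) : ZMod M)) = v := by
      funext i
      rw [Int.cast_natCast, ZMod.natCast_zmod_val]
    refine ⟨fun i => ((v i).val : ℤ), ?_, e0⟩
    unfold UU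
    rw [Finset.mem_filter, Fintype.mem_piFinset]
    constructor
    · intro i
      rw [Finset.mem_Ico]
      refine ⟨Int.natCast_nonneg _, ?_⟩
      simp only [Nat.cast_one, one_pow, mul_one]
      exact_mod_cast ZMod.val_lt (v i)
    · rw [key, e0]
      exact (Finset.mem_filter.1 hv).2

end Pool.Agent.H7.HP
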