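import Pool.Agent.H7.HP.Tay

set_option autoImplicit false
set_option linter.unusedSectionVars false

/-!
# [H7 HP CUB] many small cubes on which phi is small, 130-200 lines

PROOF. `C ≥ 1` the constant of `tay` for the radius `K0 + 1`. `ρ = η / (4 C)` (`ρ ≤ 1`; `η ≤ C`), `ρ' = η ρ / (8 C)` (`≤ ρ`), `s = c κ` with `c = 1/(4C)`.
Let `i` be with `|dphi t0 i| ≥ η A`; replacing `g` by `-g` suppose `dphi t0 i ≥ η A`. For `|t - t0| ≤ ρ`: `dphi t i ≥ η A - C A ρ ≥ (3/4) η A` and by `tay` (or mean value along the coordinate `i`):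
for `t = t0 + v`, `|v_j| ≤ ρ'` for `j ≠ i`, `v_i = ± ρ`: `|phi t - v_i dphi_i| ≤ 2 ρ' C A + C A ρ^2`, `ρ dphi_i ≥ ρ η A = 4 C ρ^2 A`, `2 ρ' C A = η ρ A/4 = C ρ^2 A`: so `phi > 0` for `v_i = ρ` and `phi < 0` for `v_i = -ρ`.
By continuity (`intermediate_value_Icc`) there is `v_i ∈ [-ρ, ρ]` with `phi = 0`. For each pair of integers `(n_j, n_k)` (`j, k ≠ i`) with `|s n_j - t0_j| ≤ ρ'`, `|s n_k - t0_k| ≤ ρ'` take the zero `t*` with `t*_j = s n_j`, `t*_k = s n_k`, and
`n_i = ⌊t*_i / s⌋`: for `t` in the cell `n`: `|t - t*| ≤ s`, `|phi t| ≤ C A s ≤ κ A`, `|t_i| ≤ K0 + 1`. The number of integers `m` with `|s m - t0_j| ≤ ρ'` is at least `2ρ'/s - 1 ≥ ρ'/s` (if `s ≤ ρ'`), so there are at least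
`(ρ'/s)^2` cells. `κ0`: so that `s = cκ ≤ ρ'`.
-/

namespace Pool.Agent.H7.HP

open Finset

private theorem cub_prod (i : Fin 3) (x : ℝ) : ∏ j : Fin 3, (if j = i then 1 else x) = x ^ 2 := by
  fin_cases i <;> simp [Fin.prod_univ_three] <;> ring

private theorem cub_card (s ρ t : ℝ) (hs : 0 < s) (hsρ : s ≤ ρ) :
    ρ / s ≤ ((Icc ⌈(t - ρ) / s⌉ ⌊(t + ρ) / s⌋).card : ℝ) := by
  rw [Int.card_Icc]
  have h1 := Int.ceil_lt_add_one ((t - ρ) / s)
  have h2 := Int.lt_floor_add_one ((t + ρ) / s)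
  have h3 : (t + ρ) / s - (t - ρ) / s = 2 * (ρ / s) := by
    field_simp
    ring
  have h4 : 1 ≤ ρ / s := by
    rw [le_div_iff₀ hs]
    linarith
  have h5 : ((⌊(t + ρ) / s⌋ + 1 - ⌈(t - ρ) / s⌉ : ℤ) : ℝ) ≤
      (((⌊(t + ρ) / s⌋ + 1 - ⌈(t - ρ) / s⌉).toNat : ℤ) : ℝ) := by
    exact_mod_cast Int.self_le_toNat _
  push_cast at h5
  have h6 : (((⌊(t + ρ) / s⌋ + 1 - ⌈(t - ρ) / s⌉).toNat : ℤ) : ℝ) =
      ((⌊(t + ρ) / s⌋ + 1 - ⌈(t - ρ) / s⌉).toNat : ℝ) := by norm_cast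
  linarith

/-- the zero on a segment -/
private theorem cub_zero (a : Idx 3 → ℝ) (g : Idx 5 → ℝ) (A C η ρ ρ' : ℝ) (hA : 0 < A)
    (hη : 0 < η) (hρ0 : 0 < ρ) (hρ : 4 * C * ρ = η) (hρ' : 8 * C * ρ' = η * ρ)
    (hρρ : ρ' ≤ ρ) (hρ1 : ρ ≤ 1) (t0 : Fin 3 → ℝ)
    (hT1 : ∀ (v : Fin 3 → ℝ), (∀ i, |v i| ≤ ρ) →
      |phi a g (fun i => t0 i + v i) - phi a g t0 - ∑ i, v i * dphi a g t0 i| ≤ C * A * ρ ^ 2)
    (hT3 : ∀ i, |dphi a g t0 i| ≤ C * A) (hφ0 : phi a g t0 = 0) (i : Fin 3)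
    (hi : η * A ≤ |dphi a g t0 i|) (w : Fin 3 → ℝ) (hw : ∀ j, j ≠ i → |w j - t0 j| ≤ ρ') :
    ∃ y, |y - t0 i| ≤ ρ ∧ phi a g (Function.update w i y) = 0 := by
  have hval : ∀ y, |y - t0 i| ≤ ρ →
      |phi a g (Function.update w i y) - (y - t0 i) * dphi a g t0 i| ≤ η * ρ * A / 2 := by
    intro y hy
    obtain ⟨v, hv⟩ : ∃ v : Fin 3 → ℝ, v = fun j => Function.update w i y j - t0 j := ⟨_, rfl⟩
    have e1 : (fun j => t0 j + v j) = Function.update w i y := by
      funext j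
      rw [hv]
      ring
    have hvi : v i = y - t0 i := by
      rw [hv]
      simp
    have hvj : ∀ j, j ≠ i → v j = w j - t0 j := by
      intro j hj
      rw [hv]
      simp [hj]
    have hvb : ∀ j, |v j| ≤ ρ := by
      intro j
      by_cases hj : j = i
      · rw [hj, hvi]
        exact hy
      · rw [hvj j hj]
        exact (hw j hj).trans hρρ
    have h1 := hT1 v hvb
    rw [e1, hφ0, sub_zero, ← Finset.add_sum_erase univ _ (mem_univ i), hvi] at h1
    have h2 : |∑ j ∈ univ.erase i, v j * dphi a g t0 j| ≤ 2 * (ρ' * (C * A)) := by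
      have h3 : ∀ j ∈ univ.erase i, |v j * dphi a g t0 j| ≤ ρ' * (C * A) := by
        intro j hj
        rw [abs_mul, hvj j (ne_of_mem_erase hj)]
        exact mul_le_mul (hw j (ne_of_mem_erase hj)) (hT3 j) (abs_nonneg _)
          ((abs_nonneg _).trans (hw j (ne_of_mem_erase hj)))
      refine (abs_sum_le_sum_abs _ _).trans ((sum_le_sum h3).trans (le_of_eq ?_))
      rw [sum_const, card_erase_of_mem (mem_univ i), card_univ, Fintype.card_fin]
      norm_num
    have h4 : 2 * (ρ' * (C * A)) = η * ρ * A / 4 := by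
      linear_combination (A / 4) * hρ'
    have h5 : C * A * ρ ^ 2 = η * ρ * A / 4 := by
      linear_combination (A * ρ / 4) * hρ
    rw [h4] at h2
    rw [h5] at h1
    have h6 := abs_add_le (phi a g (Function.update w i y) -
      ((y - t0 i) * dphi a g t0 i + ∑ j ∈ univ.erase i, v j * dphi a g t0 j))
      (∑ j ∈ univ.erase i, v j * dphi a g t0 j)
    have h7 : phi a g (Function.update w i y) -
      ((y - t0 i) * dphi a g t0 i + ∑ j ∈ univ.erase i, v j * dphi a g t0 j) +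
      ∑ j ∈ univ.erase i, v j * dphi a g t0 j =
      phi a g (Function.update w i y) - (y - t0 i) * dphi a g t0 i := by ring
    rw [h7] at h6
    linarith
  have hcont : Continuous (fun y => phi a g (Function.update w i y)) :=
    (phi_cont a g).comp (continuous_const.update i continuous_id)
  have hp := hval (t0 i + ρ) (by rw [add_sub_cancel_left, abs_of_pos hρ0])
  have hm := hval (t0 i - ρ) (by
    rw [sub_sub_cancel_left, abs_neg, abs_of_pos hρ0])
  rw [add_sub_cancel_left, abs_le] at hp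
  rw [sub_sub_cancel_left, abs_le] at hm
  have hX : 0 < η * ρ * A := by positivity
  have hle : t0 i - ρ ≤ t0 i + ρ := by linarith
  have hfin : ∀ y ∈ Set.Icc (t0 i - ρ) (t0 i + ρ), |y - t0 i| ≤ ρ := by
    intro y hy
    rw [abs_le]
    constructor
    · linarith [hy.1]
    · linarith [hy.2]
  rcases le_abs.1 hi with hd | hd
  · have e1 : η * A * ρ ≤ dphi a g t0 i * ρ := mul_le_mul_of_nonneg_right hd hρ0.le
    have h0 : (0 : ℝ) ∈ Set.Icc (phi a g (Function.update w i (t0 i - ρ)))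
        (phi a g (Function.update w i (t0 i + ρ))) := by
      constructor
      · nlinarith
      · nlinarith
    obtain ⟨y, hy, hy0⟩ := intermediate_value_Icc hle hcont.continuousOn h0
    exact ⟨y, hfin y hy, hy0⟩
  · have e1 : η * A * ρ ≤ -dphi a g t0 i * ρ := mul_le_mul_of_nonneg_right hd hρ0.le
    have h0 : (0 : ℝ) ∈ Set.Icc (phi a g (Function.update w i (t0 i + ρ)))
        (phi a g (Function.update w i (t0 i - ρ))) := by
      constructor
      · nlinarith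
      · nlinarith
    obtain ⟨y, hy, hy0⟩ := intermediate_value_Icc' hle hcont.continuousOn h0
    exact ⟨y, hfin y hy, hy0⟩

theorem cub (a : Idx 3 → ℝ) (K0 η : ℝ) (hK : 0 ≤ K0) (hη : 0 < η) : ∃ c κ0 : ℝ, 0 < c ∧ 0 < κ0 ∧
    ∀ κ : ℝ, 0 < κ → κ ≤ κ0 → ∀ (g : Idx 5 → ℝ) (A : ℝ), 0 < A → (∀ p, |g p| ≤ A) →
    ∀ t0 : Fin 3 → ℝ, (∀ i, |t0 i| ≤ K0) → phi a g t0 = 0 → (∃ i, η * A ≤ |dphi a g t0 i|) →
      ∃ S : Finset (Fin 3 → ℤ), c ≤ (S.card : ℝ) * κ ^ 2 ∧ ∀ n ∈ S, ∀ t : Fin 3 → ℝ,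
        (∀ i, c * κ * n i ≤ t i ∧ t i ≤ c * κ * (n i + 1)) →
          (∀ i, |t i| ≤ K0 + 1) ∧ |phi a g t| ≤ κ * A := by
  classical
  obtain ⟨C0, hC0, htay⟩ := tay a (K0 + 1) (by linarith)
  obtain ⟨C, hC⟩ : ∃ C, C = max C0 (max 1 η) := ⟨_, rfl⟩
  have hCC : C0 ≤ C := hC ▸ le_max_left _ _
  have hC1 : 1 ≤ C := hC ▸ (le_max_left _ _).trans (le_max_right _ _)
  have hCη : η ≤ C := hC ▸ (le_max_right _ _).trans (le_max_right _ _)
  have hCp : 0 < C := by linarith
  obtain ⟨ρ, hρd⟩ : ∃ ρ, ρ = η / (4 * C) := ⟨_, rfl⟩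
  obtain ⟨ρ', hρd'⟩ : ∃ ρ', ρ' = η * ρ / (8 * C) := ⟨_, rfl⟩
  have hρ : 4 * C * ρ = η := by
    rw [hρd]
    field_simp
  have hρ' : 8 * C * ρ' = η * ρ := by
    rw [hρd']
    field_simp
  have hρ0 : 0 < ρ := by
    rw [hρd]
    positivity
  have hρ0' : 0 < ρ' := by
    rw [hρd']
    positivity
  have hρ1 : ρ ≤ 1 / 4 := by
    rw [hρd, div_le_iff₀ (by positivity)]
    linarith
  have hρρ : ρ' ≤ ρ := by
    rw [hρd', div_le_iff₀ (by positivity)]
    nlinarith
  obtain ⟨c, hc⟩ : ∃ c, c = ρ' / (4 * C) := ⟨_, rfl⟩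
  have hc0 : 0 < c := by
    rw [hc]
    positivity
  have hc1 : 4 * C * c = ρ' := by
    rw [hc]
    field_simp
  have hc2 : 4 * c ≤ ρ' := by nlinarith
  refine ⟨c, 1, hc0, one_pos, ?_⟩
  intro κ hκ hκ1 g A hA hg t0 ht0 hφ0 hex
  obtain ⟨i, hi⟩ := hex
  have hAC : ∀ x : ℝ, 0 ≤ x → C0 * A * x ≤ C * A * x := fun x hx => by gcongr
  have ht0' : ∀ i, |t0 i| ≤ K0 + 1 := fun i => (ht0 i).trans (by linarith)
  have hT1 : ∀ (v : Fin 3 → ℝ), (∀ i, |v i| ≤ ρ) →
      |phi a g (fun i => t0 i + v i) - phi a g t0 - ∑ i, v i * dphi a g t0 i| ≤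
        C * A * ρ ^ 2 := fun v hv =>
    ((htay g A hA.le hg t0 v ρ ht0' hv (by linarith)).1).trans (hAC _ (sq_nonneg _))
  have hT3 : ∀ i, |dphi a g t0 i| ≤ C * A := fun i => by
    have h1 := (htay g A hA.le hg t0 (fun _ => 0) ρ ht0' (fun _ => by
      rw [abs_zero]
      exact hρ0.le) (by linarith)).2.2.1 i
    have h2 := hAC 1 zero_le_one
    rw [mul_one, mul_one] at h2
    exact h1.trans h2
  obtain ⟨s, hs⟩ : ∃ s, s = c * κ := ⟨_, rfl⟩
  have hs0 : 0 < s := by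
    rw [hs]
    positivity
  have hsc : s ≤ c := by
    rw [hs]
    nlinarith
  have hsρ : s ≤ ρ' := by linarith
  have hY : ∀ m : Fin 3 → ℤ, ∃ y : ℝ, (∀ j, j ≠ i → |s * m j - t0 j| ≤ ρ') →
      |y - t0 i| ≤ ρ ∧ phi a g (Function.update (fun j => s * m j) i y) = 0 := by
    intro m
    by_cases hm : ∀ j, j ≠ i → |s * m j - t0 j| ≤ ρ'
    · obtain ⟨y, hy⟩ := cub_zero a g A C η ρ ρ' hA hη hρ0 hρ hρ' hρρ (by linarith) t0 hT1 hT3
        hφ0 i hi (fun j => s * m j) hm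
      exact ⟨y, fun _ => hy⟩
    · exact ⟨0, fun h => absurd h hm⟩
  choose Y hY using hY
  obtain ⟨P, hP⟩ : ∃ P : Finset (Fin 3 → ℤ), P = Fintype.piFinset (fun j => if j = i then
    ({0} : Finset ℤ) else Icc ⌈(t0 j - ρ') / s⌉ ⌊(t0 j + ρ') / s⌋) := ⟨_, rfl⟩
  have hPi : ∀ m ∈ P, m i = 0 := by
    intro m hm
    rw [hP, Fintype.mem_piFinset] at hm
    have := hm i
    rw [if_pos rfl, mem_singleton] at this
    exact this
  have hPj : ∀ m ∈ P, ∀ j, j ≠ i → |s * m j - t0 j| ≤ ρ' := by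
    intro m hm j hj
    rw [hP, Fintype.mem_piFinset] at hm
    have := hm j
    rw [if_neg hj, mem_Icc, Int.ceil_le, Int.le_floor, div_le_iff₀ hs0, le_div_iff₀ hs0] at this
    rw [abs_le]
    constructor
    · linarith [this.1]
    · linarith [this.2]
  have hinj : Set.InjOn (fun m : Fin 3 → ℤ => Function.update m i ⌊Y m / s⌋) (P : Set _) := by
    intro m hm m' hm' h
    funext j
    by_cases hj : j = i
    · rw [hj, hPi m hm, hPi m' hm']
    · have := congrFun h j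
      simpa [hj] using this
  refine ⟨P.image (fun m => Function.update m i ⌊Y m / s⌋), ?_, ?_⟩
  · rw [card_image_of_injOn hinj, hP, Fintype.card_piFinset]
    have h1 : (ρ' / s) ^ 2 ≤ ((∏ j : Fin 3, (if j = i then ({0} : Finset ℤ) else
        Icc ⌈(t0 j - ρ') / s⌉ ⌊(t0 j + ρ') / s⌋).card : ℕ) : ℝ) := by
      rw [← cub_prod i, Nat.cast_prod]
      refine prod_le_prod (fun j _ => ?_) fun j _ => ?_
      · split_ifs
        · exact zero_le_one
        · positivity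
      · split_ifs
        · simp
        · exact cub_card s ρ' (t0 j) hs0 hsρ
    have h2 : (ρ' / s) * κ = 4 * C := by
      rw [hs, ← hc1]
      field_simp
    have h3 : (ρ' / s) ^ 2 * κ ^ 2 = (4 * C) ^ 2 := by
      rw [← mul_pow, h2]
    have h4 : (ρ' / s) ^ 2 * κ ^ 2 ≤ ((∏ j : Fin 3, (if j = i then ({0} : Finset ℤ) else
        Icc ⌈(t0 j - ρ') / s⌉ ⌊(t0 j + ρ') / s⌋).card : ℕ) : ℝ) * κ ^ 2 := by gcongr
    refine le_trans ?_ h4
    rw [h3]
    nlinarith
  · intro n hn t ht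
    rw [mem_image] at hn
    obtain ⟨m, hm, rfl⟩ := hn
    obtain ⟨hy1, hy2⟩ := hY m (hPj m hm)
    obtain ⟨w, hw⟩ : ∃ w : Fin 3 → ℝ, w = Function.update (fun j => s * m j) i (Y m) := ⟨_, rfl⟩
    rw [← hw] at hy2
    have hwt : ∀ j, |t j - w j| ≤ s := by
      intro j
      have h1 := ht j
      rw [← hs] at h1
      by_cases hj : j = i
      · rw [hj] at h1 ⊢
        rw [Function.update_self] at h1
        have h2 : w i = Y m := by
          rw [hw, Function.update_self]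
        have h3 := Int.floor_le (Y m / s)
        have h4 := Int.lt_floor_add_one (Y m / s)
        rw [le_div_iff₀ hs0] at h3
        rw [div_lt_iff₀ hs0] at h4
        rw [h2, abs_le]
        constructor
        · nlinarith [h1.1]
        · nlinarith [h1.2]
      · rw [Function.update_of_ne hj] at h1
        have h2 : w j = s * m j := by
          rw [hw, Function.update_of_ne hj]
        rw [h2, abs_le]
        constructor
        · linarith [h1.1]
        · linarith [h1.2]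
    have hw0 : ∀ j, |w j| ≤ K0 + 1 / 4 := by
      intro j
      have h1 : |w j - t0 j| ≤ ρ := by
        by_cases hj : j = i
        · rw [hj, hw, Function.update_self]
          exact hy1
        · rw [hw, Function.update_of_ne hj]
          exact (hPj m hm j hj).trans hρρ
      have h2 := abs_add_le (w j - t0 j) (t0 j)
      rw [sub_add_cancel] at h2
      linarith [ht0 j]
    constructor
    · intro j
      have h2 := abs_add_le (t j - w j) (w j)
      rw [sub_add_cancel] at h2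
      linarith [hwt j, hw0 j]
    · have h1 := (htay g A hA.le hg w (fun j => t j - w j) s (fun j => (hw0 j).trans (by linarith))
        hwt (by linarith)).2.2.2
      have h2 : (fun j => w j + (t j - w j)) = t := by
        funext j
        ring
      rw [h2, hy2, sub_zero] at h1
      refine h1.trans ((hAC s hs0.le).trans ?_)
      have h3 : C * A * s = (4 * C * c) * (A * κ) / 4 := by
        rw [hs]
        ring
      rw [h3, hc1]
      have h4 : 0 < A * κ := by positivity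
      nlinarith

end Pool.Agent.H7.HP
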