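import Mathlib

set_option autoImplicit false
set_option linter.unusedSectionVars false

/-!
# Density one Hasse principle for intersections of two quadrics in P^4: definitions

Quadratic forms in `n` variables are given by their coefficients `c : Idx n → R`, `Idx n` the pairs
`(i, j)` with `i ≤ j`; `qv c x` is the value at `x`. `a : Idx 3 → ℤ` is a fixed ternary form, called `h`
in the comments; `ff a x = x 0 * x 1 - h (x 2, x 3, x 4)`.
-/

namespace Pool.Agent.H7.HP

open Finset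

/-- indices of the coefficients of a quadratic form in `n` variables -/
abbrev Idx (n : ℕ) := {p : Fin n × Fin n // p.1 ≤ p.2}

section Forms

variable {R : Type*} [CommRing R] {n : ℕ}

/-- the value of the quadratic form with coefficients `c` at `x` -/
def qv (c : Idx n → R) (x : Fin n → R) : R := ∑ p : Idx n, c p * (x p.1.1 * x p.1.2)

/-- the polar form of the quadratic form with coefficients `c` -/
def pl (c : Idx n → R) (x y : Fin n → R) : R :=
  ∑ p : Idx n, c p * (x p.1.1 * y p.1.2 + x p.1.2 * y p.1.1)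

/-- the matrix of the polar form -/
def Hm (c : Idx n → R) : Matrix (Fin n) (Fin n) R :=
  Matrix.of fun i j => pl c (Pi.single i 1) (Pi.single j 1)

/-- the product of two linear forms -/
def lm (l m : Fin n → R) : Idx n → R := fun p =>
  if p.1.1 = p.1.2 then l p.1.1 * m p.1.1 else l p.1.1 * m p.1.2 + l p.1.2 * m p.1.1

/-- the last three coordinates -/
def tl {S : Type*} (x : Fin 5 → S) : Fin 3 → S := ![x 2, x 3, x 4]

/-- the fixed quadric `x0 x1 - h(x2, x3, x4)` -/
def ff (a : Idx 3 → R) (x : Fin 5 → R) : R := x 0 * x 1 - qv a (tl x)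

/-- the vector `(x0, x1, u)` -/
def mk5 {S : Type*} (x0 x1 : S) (u : Fin 3 → S) : Fin 5 → S := ![x0, x1, u 0, u 1, u 2]

end Forms

/-- boxes of integer vectors -/
noncomputable def bx (n T : ℕ) : Finset (Fin n → ℤ) := Fintype.piFinset fun _ => Icc (-(T : ℤ)) T

/-- boxes of quadratic forms -/
noncomputable def bf (n T : ℕ) : Finset (Idx n → ℤ) := Fintype.piFinset fun _ => Icc (-(T : ℤ)) T

/-- the coordinates have no common factor -/
def Prim {n : ℕ} (x : Fin n → ℤ) : Prop := ∃ m : Fin n → ℤ, ∑ i, m i * x i = 1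

/-- `f = g = 0` has nontrivial zeros over `ℝ` and all `ℚ_p` -/
def LocSol (a : Idx 3 → ℤ) (g : Idx 5 → ℤ) : Prop :=
  (∃ x : Fin 5 → ℝ, x ≠ 0 ∧ ff (fun p => (a p : ℝ)) x = 0 ∧ qv (fun p => (g p : ℝ)) x = 0) ∧
    ∀ (p : ℕ) [Fact p.Prime], ∃ x : Fin 5 → ℚ_[p], x ≠ 0 ∧
      ff (fun i => (a i : ℚ_[p])) x = 0 ∧ qv (fun i => (g i : ℚ_[p])) x = 0

/-- four independent integer vectors of size at most `R` orthogonal to `x` -/
def Good (R : ℝ) (x : Fin 5 → ℤ) : Prop := ∃ l : Fin 4 → Fin 5 → ℤ,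
  LinearIndependent ℝ (fun b i => (l b i : ℝ)) ∧ (∀ b, ∑ i, l b i * x i = 0) ∧
    ∀ b i, |(l b i : ℝ)| ≤ R

/-- the minors of `x`, `y` -/
def mn {n : ℕ} (x y : Fin n → ℤ) (i j : Fin n) : ℤ := x i * y j - x j * y i

/-- the greatest common divisor of the minors -/
def gk {n : ℕ} (x y : Fin n → ℤ) : ℕ :=
  (univ : Finset (Fin n × Fin n)).gcd fun p => (mn x y p.1 p.2).natAbs

/-- the maximum of the absolute values of the minors -/
def dl {n : ℕ} (x y : Fin n → ℤ) : ℕ :=
  (univ : Finset (Fin n × Fin n)).sup fun p => (mn x y p.1 p.2).natAbs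

/-- the sum of the absolute values of the coefficients of `h` -/
def ca (a : Idx 3 → ℤ) : ℕ := ∑ p, (a p).natAbs

/-- the points `(h(u)/(q l), q l, u)`, `l` prime in `(B, 4B]`, `|u| ≤ C1 B`, primitive -/
structure IsPt (a : Idx 3 → ℤ) (q C1 B : ℕ) (x : Fin 5 → ℤ) : Prop where
  zero : ff a x = 0
  prime : ∃ l : ℕ, l.Prime ∧ B < l ∧ l ≤ 4 * B ∧ x 1 = q * l ∧ ¬ ∀ i, (l : ℤ) ∣ tl x i
  bound : ∀ i, |tl x i| ≤ C1 * B
  prim : Prim x

/-- the bound for the coordinates of the points -/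
def cx (a : Idx 3 → ℤ) (q C1 : ℕ) : ℕ := ca a * C1 ^ 2 + C1 + 4 * q + 1

/-- the multiples `j x / x1` modulo 1, `0 < j < x1`, are not close to 0 -/
def Sep (lam : ℝ) (x : Fin 5 → ℤ) : Prop :=
  ∀ j : ℤ, 0 < j → j < x 1 → ∀ s : Fin 5 → ℤ, (∀ i, x 1 ∣ j * x i - s i) →
    ∃ i, lam * (x 1 : ℝ) ≤ |(s i : ℝ)|

open scoped Classical in
/-- the finite set of all points -/
noncomputable def XP (a : Idx 3 → ℤ) (q C1 B : ℕ) : Finset (Fin 5 → ℤ) :=
  (bx 5 (cx a q C1 * B)).filter (IsPt a q C1 B)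

open scoped Classical in
/-- the finite set of the separated points -/
noncomputable def XG (a : Idx 3 → ℤ) (q C1 B : ℕ) (lam : ℝ) : Finset (Fin 5 → ℤ) :=
  (XP a q C1 B).filter (Sep lam)

open scoped Classical in
/-- number of points of `X` at which `g` has the value `J` -/
noncomputable def rJ (X : Finset (Fin 5 → ℤ)) (g : Idx 5 → ℤ) (J : ℤ) : ℕ :=
  (X.filter fun x => qv g x = J).card

end Pool.Agent.H7.HP
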