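import Pool.Agent.H7.HP.CoreDefs

set_option autoImplicit false
set_option linter.unusedSectionVars false

/-!
# [H7 HP DEGP] few degenerate forms modulo a prime power, 80-130 lines

* `deg_p`: for fixed `u` and fixed coefficients `g_r` with `r` different from `(1,1), (1,2), (1,3), (1,4)`: with `X = (h, q^2, q u)`, `∂_i X = (pl(u,e_i), 0, q e_i)`: the only one of the four coefficients in `dGG_i = pl g X ∂_iX` with a
nonzero factor are `g_(0,1)` (fixed) and `g_(1,i+2)` with the factor `q^2 q = q^3`; so `dGG_i = 0` is an equation `p^(3v) g_(1,i+2) = const`, at most `p^(3v)` solutions in `ZMod (p^s)`; given these three, `GG = 0` is an equation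
`q^4 g_(1,1) = const`: at most `p^(4v)` solutions. Total at most `p^(3s) * p^(11 s) * p^(13 v)`.
-/

namespace Pool.Agent.H7.HP

open Finset

/-- the index `(1, 1)` -/
private def j1 : Idx 5 := ⟨(1, 1), by decide⟩
/-- the index `(1, 2)` -/
private def j2 : Idx 5 := ⟨(1, 2), by decide⟩
/-- the index `(1, 3)` -/
private def j3 : Idx 5 := ⟨(1, 3), by decide⟩
/-- the index `(1, 4)` -/
private def j4 : Idx 5 := ⟨(1, 4), by decide⟩

private theorem idx_one (r : Idx 5) (h : r.1.1 = 1) : r = j1 ∨ r = j2 ∨ r = j3 ∨ r = j4 := by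
  revert r
  decide

private theorem sum5 {M : Type*} [AddCommMonoid M] (F : Idx 5 → M)
    (h : ∀ r : Idx 5, r.1.1 ≠ 1 → F r = 0) : ∑ r, F r = F j1 + (F j2 + (F j3 + F j4)) := by
  have h1 : ∑ r, F r = ∑ r ∈ ({j1, j2, j3, j4} : Finset (Idx 5)), F r := by
    refine (sum_subset (subset_univ _) fun r _ hr => h r fun h1 => hr ?_).symm
    rcases idx_one r h1 with rfl | rfl | rfl | rfl <;> simp
  rw [h1, sum_insert (by decide), sum_insert (by decide), sum_insert (by decide), sum_singleton]

/-- the exponents -/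
private def ee (r : Idx 5) : ℕ := if r.1.1 = 1 then (if r.1.2 = 1 then 4 else 3) else 0

private theorem ee_sum : ∑ r, ee r = 13 := by decide

private theorem co_sum : ∑ r : Idx 5, (if r.1.1 = 1 then 0 else 1) = 11 := by decide

section
variable (p s : ℕ) [Fact p.Prime]

/-- the elements killed by `p ^ k` -/
private noncomputable def Kp (k : ℕ) : Finset (ZMod (p ^ s)) := by
  classical exact univ.filter fun y => ((p ^ k : ℕ) : ZMod (p ^ s)) * y = 0

private theorem Kp_card (k : ℕ) : (Kp p s k).card ≤ p ^ k := by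
  classical
  have hp : 0 < p := (Fact.out : p.Prime).pos
  rcases Nat.lt_or_ge k s with h | h
  · have h1 : (Kp p s k).card ≤ (range (p ^ k)).card := by
      refine card_le_card_of_injOn (fun y => y.val / p ^ (s - k)) ?_ ?_
      · intro y _
        have h2 := ZMod.val_lt y
        rw [mem_coe, mem_range]
        refine Nat.div_lt_of_lt_mul ?_
        rw [← pow_add]
        have h3 : s - k + k = s := by omega
        rwa [h3]
      · have hd : ∀ y ∈ Kp p s k, p ^ (s - k) ∣ y.val := by
          intro y hy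
          have h2 : ((p ^ k : ℕ) : ZMod (p ^ s)) * y = 0 := (mem_filter.1 hy).2
          rw [← ZMod.natCast_zmod_val y, ← Nat.cast_mul, ZMod.natCast_eq_zero_iff] at h2
          have h3 : p ^ s = p ^ k * p ^ (s - k) := by
            rw [← pow_add]
            congr 1
            omega
          exact Nat.dvd_of_mul_dvd_mul_left (Nat.pow_pos hp) ((dvd_of_eq h3.symm).trans h2)
        intro y hy y' hy' he
        dsimp only at he
        have h2 := Nat.div_mul_cancel (hd y hy)
        have h3 := Nat.div_mul_cancel (hd y' hy')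
        rw [he, h3] at h2
        exact ZMod.val_injective _ h2.symm
    rwa [card_range] at h1
  · refine (card_le_univ _).trans ?_
    rw [ZMod.card]
    exact Nat.pow_le_pow_right hp h

private theorem pl_c (g g' : Idx 5 → ZMod (p ^ s)) (x y : Fin 5 → ZMod (p ^ s)) :
    pl (fun r => g r - g' r) x y = pl g x y - pl g' x y := by
  unfold pl
  rw [← sum_sub_distrib]
  exact sum_congr rfl fun r _ => by ring

private theorem qv_c (g g' : Idx 5 → ZMod (p ^ s)) (x : Fin 5 → ZMod (p ^ s)) :
    qv (fun r => g r - g' r) x = qv g x - qv g' x := by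
  unfold qv
  rw [← sum_sub_distrib]
  exact sum_congr rfl fun r _ => by ring

/-- the differences are killed -/
private theorem diff_kill (a : Idx 3 → ZMod (p ^ s)) (q : ZMod (p ^ s)) (u : Fin 3 → ZMod (p ^ s))
    (g g' : Idx 5 → ZMod (p ^ s)) (h : ∀ r : Idx 5, r.1.1 ≠ 1 → g r = g' r)
    (h1 : GG a g q u = 0) (h2 : ∀ i, dGG a g q u i = 0)
    (h1' : GG a g' q u = 0) (h2' : ∀ i, dGG a g' q u i = 0) (r : Idx 5) :
    q ^ ee r * (g r - g' r) = 0 := by
  set δ : Idx 5 → ZMod (p ^ s) := fun r => g r - g' r with hδ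
  have hδ0 : ∀ r : Idx 5, r.1.1 ≠ 1 → δ r = 0 := fun r hr => sub_eq_zero.2 (h r hr)
  set X : Fin 5 → ZMod (p ^ s) := mk5 (qv a u) (q ^ 2) fun i => q * u i with hX
  have e1 : qv δ X = 0 := by
    rw [hδ, qv_c]
    unfold GG at h1 h1'
    rw [h1, h1', sub_zero]
  have e2 : ∀ i : Fin 3, pl δ X (mk5 (pl a u (Pi.single i 1)) 0
      fun j => q * (Pi.single i 1 : Fin 3 → ZMod (p ^ s)) j) = 0 := by
    intro i
    rw [hδ, pl_c]
    have := h2 i
    have h3 := h2' i
    unfold dGG at this h3
    rw [this, h3, sub_zero]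
  have X1 : X 1 = q ^ 2 := rfl
  have X2 : X 2 = q * u 0 := rfl
  have X3 : X 3 = q * u 1 := rfl
  have X4 : X 4 = q * u 2 := rfl
  have k2 : q ^ 3 * δ j2 = 0 := by
    have h3 := e2 0
    unfold pl at h3
    rw [sum5 _ (fun r hr => by rw [hδ0 r hr, zero_mul])] at h3
    simp only [j1, j2, j3, j4, mk5] at h3
    simp [X1] at h3
    change q ^ 3 * δ ⟨(1, 2), _⟩ = 0
    rw [← h3]
    ring
  have k3 : q ^ 3 * δ j3 = 0 := by
    have h3 := e2 1
    unfold pl at h3
    rw [sum5 _ (fun r hr => by rw [hδ0 r hr, zero_mul])] at h3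
    simp only [j1, j2, j3, j4, mk5] at h3
    simp [X1] at h3
    change q ^ 3 * δ ⟨(1, 3), _⟩ = 0
    rw [← h3]
    ring
  have k4 : q ^ 3 * δ j4 = 0 := by
    have h3 := e2 2
    unfold pl at h3
    rw [sum5 _ (fun r hr => by rw [hδ0 r hr, zero_mul])] at h3
    simp only [j1, j2, j3, j4, mk5] at h3
    simp [X1] at h3
    change q ^ 3 * δ ⟨(1, 4), _⟩ = 0
    rw [← h3]
    ring
  have k1 : q ^ 4 * δ j1 = 0 := by
    unfold qv at e1
    rw [sum5 _ (fun r hr => by rw [hδ0 r hr, zero_mul])] at e1
    change δ j1 * (X 1 * X 1) + (δ j2 * (X 1 * X 2) + (δ j3 * (X 1 * X 3) +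
      δ j4 * (X 1 * X 4))) = 0 at e1
    rw [X1, X2, X3, X4] at e1
    linear_combination e1 - u 0 * k2 - u 1 * k3 - u 2 * k4
  by_cases hr : r.1.1 = 1
  · rcases idx_one r hr with rfl | rfl | rfl | rfl
    · exact k1
    · exact k2
    · exact k3
    · exact k4
  · change q ^ ee r * δ r = 0
    rw [hδ0 r hr, mul_zero]

end

open scoped Classical in
theorem deg_p (a : Idx 3 → ℤ) (p : ℕ) [Fact p.Prime] (v s : ℕ) (hs : 0 < s) :
    ((univ : Finset (Idx 5 → ZMod (p ^ s))).filter fun g => ∃ u : Fin 3 → ZMod (p ^ s),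
      GG (fun r => (a r : ZMod (p ^ s))) g (p ^ v : ℕ) u = 0 ∧
      ∀ i, dGG (fun r => (a r : ZMod (p ^ s))) g (p ^ v : ℕ) u i = 0).card ≤
        p ^ (14 * s + 13 * v) := by
  have hp : 0 < p := (Fact.out : p.Prime).pos
  set A : Idx 3 → ZMod (p ^ s) := fun r => (a r : ZMod (p ^ s)) with hA
  set q : ZMod (p ^ s) := ((p ^ v : ℕ) : ZMod (p ^ s)) with hq
  set S : (Fin 3 → ZMod (p ^ s)) → Finset (Idx 5 → ZMod (p ^ s)) := fun u =>
    univ.filter fun g => GG A g q u = 0 ∧ ∀ i, dGG A g q u i = 0 with hS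
  have h1 : (univ : Finset (Idx 5 → ZMod (p ^ s))).filter (fun g => ∃ u : Fin 3 → ZMod (p ^ s),
      GG A g q u = 0 ∧ ∀ i, dGG A g q u i = 0) ⊆ univ.biUnion S := by
    intro g hg
    obtain ⟨u, hu⟩ := (mem_filter.1 hg).2
    exact mem_biUnion.2 ⟨u, mem_univ _, mem_filter.2 ⟨mem_univ _, hu⟩⟩
  have hSu : ∀ u, (S u).card ≤ p ^ (13 * v) * p ^ (11 * s) := by
    intro u
    set f : (Idx 5 → ZMod (p ^ s)) → (Idx 5 → ZMod (p ^ s)) :=
      fun g r => if r.1.1 = 1 then 0 else g r with hf
    refine (card_le_mul_card_image (f := f) (S u) (p ^ (13 * v)) ?_).trans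
      (Nat.mul_le_mul_left _ ?_)
    · intro b hb
      obtain ⟨g0, hg0, hb0⟩ := mem_image.1 hb
      have hg0' := (mem_filter.1 hg0).2
      have h2 : ((S u).filter fun g => f g = b).card ≤
          (Fintype.piFinset fun r : Idx 5 => Kp p s (v * ee r)).card := by
        refine card_le_card_of_injOn (fun g r => g r - g0 r) ?_ ?_
        · intro g hg
          obtain ⟨hgS, hgb⟩ := mem_filter.1 (mem_coe.1 hg)
          have hg' := (mem_filter.1 hgS).2
          rw [mem_coe, Fintype.mem_piFinset]
          intro r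
          refine mem_filter.2 ⟨mem_univ _, ?_⟩
          have h3 : ∀ r : Idx 5, r.1.1 ≠ 1 → g r = g0 r := by
            intro r hr
            have h4 := congrFun (hgb.trans hb0.symm) r
            rw [hf] at h4
            dsimp only at h4
            rwa [if_neg hr, if_neg hr] at h4
          have h5 := diff_kill p s A q u g g0 h3 hg'.1 hg'.2 hg0'.1 hg0'.2 r
          have h6 : ((p ^ (v * ee r) : ℕ) : ZMod (p ^ s)) = q ^ ee r := by
            rw [hq, pow_mul, Nat.cast_pow]
          rw [h6]
          exact h5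
        · intro g _ g' _ he
          funext r
          have := congrFun he r
          dsimp only at this
          exact sub_left_injective this
      refine h2.trans ?_
      rw [Fintype.card_piFinset]
      calc ∏ r : Idx 5, (Kp p s (v * ee r)).card ≤ ∏ r : Idx 5, p ^ (v * ee r) :=
            prod_le_prod' fun r _ => Kp_card p s _
        _ = p ^ (v * ∑ r : Idx 5, ee r) := by rw [prod_pow_eq_pow_sum, mul_sum]
        _ = p ^ (13 * v) := by rw [ee_sum, mul_comm]
    · have h2 : (S u).image f ⊆ Fintype.piFinset fun r : Idx 5 =>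
          if r.1.1 = 1 then ({0} : Finset (ZMod (p ^ s))) else univ := by
        intro b hb
        obtain ⟨g, _, rfl⟩ := mem_image.1 hb
        rw [Fintype.mem_piFinset]
        intro r
        rw [hf]
        dsimp only
        split_ifs
        · exact mem_singleton_self _
        · exact mem_univ _
      refine (card_le_card h2).trans (le_of_eq ?_)
      rw [Fintype.card_piFinset]
      have h3 : ∀ r : Idx 5, (if r.1.1 = 1 then ({0} : Finset (ZMod (p ^ s))) else univ).card =
          p ^ (s * (if r.1.1 = 1 then 0 else 1)) := by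
        intro r
        split_ifs
        · simp
        · rw [card_univ, ZMod.card, mul_one]
      rw [prod_congr rfl fun r _ => h3 r, prod_pow_eq_pow_sum, ← mul_sum, co_sum, mul_comm]
  calc _ ≤ (univ.biUnion S).card := card_le_card h1
    _ ≤ ∑ u, (S u).card := card_biUnion_le
    _ ≤ ∑ _u : Fin 3 → ZMod (p ^ s), p ^ (13 * v) * p ^ (11 * s) := sum_le_sum fun u _ => hSu u
    _ = (p ^ s) ^ 3 * (p ^ (13 * v) * p ^ (11 * s)) := by
        rw [sum_const, card_univ, Fintype.card_fun, ZMod.card, Fintype.card_fin, smul_eq_mul]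
    _ = p ^ (14 * s + 13 * v) := by
        rw [← pow_mul, ← pow_add, ← pow_add]
        congr 1
        ring

end Pool.Agent.H7.HP
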