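import Pool.Agent.H7.HP.Tay

set_option autoImplicit false
set_option linter.unusedSectionVars false

/-!
# [H7 HP DEGR] few degenerate forms over the reals, 90-140 lines

* `deg_r`: `C` of `tay` for `K0 = C0 + 1`. Let `g` be in the set, `t` the zero; `t'` a point of the grid `η ℤ^3` with `|t - t'| ≤ η` (`η ≤ 1`): `|phi g t'| ≤ C A η`, `|dphi g t' i| ≤ η A + C A η`. At most `(2(C0+1)/η + 1)^3` points `t'`. For fixed
`t'` and fixed other coefficients: `dphi g t' i = g_(1,i+2) + const` lies in an interval of length `2 (C+1) η A`: at most `2 (C+1) η A + 1 ≤ C' η A` integers (`η A ≥ 1`), then `phi g t' = g_(1,1) + const'`: the same. So at most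
`(C'/η)^3 (C' η A)^4 (2A+1)^11 ≤ C'' η (2A+1)^15`.
-/

namespace Pool.Agent.H7.HP

open Finset

/-- one linear inequality with a coordinate of coefficient one -/
private theorem elim {ι : Type*} [Fintype ι] [DecidableEq ι] (S : Finset (ι → ℤ)) (q : ι)
    (w : ι → ℝ) (hw : w q = 1) (B : ℝ) (hB : 0 ≤ B)
    (h : ∀ g ∈ S, |∑ p, (g p : ℝ) * w p| ≤ B) :
    (S.card : ℝ) ≤ (2 * B + 1) * ((S.image fun g => Function.update g q 0).card : ℝ) := by
  have hn : ((⌊2 * B⌋₊ + 1 : ℕ) : ℝ) ≤ 2 * B + 1 := by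
    push_cast
    linarith [Nat.floor_le (show 0 ≤ 2 * B by linarith)]
  have hsum : ∀ g : ι → ℤ, ∑ p, (g p : ℝ) * w p
      = (g q : ℝ) + ∑ p, ((Function.update g q 0 p : ℤ) : ℝ) * w p := by
    intro g
    have h1 : ∑ p, ((g p : ℝ) * w p - ((Function.update g q 0 p : ℤ) : ℝ) * w p)
        = (g q : ℝ) := by
      rw [Finset.sum_eq_single q]
      · rw [Function.update_self, hw]
        simp
      · intro p _ hp
        rw [Function.update_of_ne hp, sub_self]
      · intro hq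
        exact absurd (Finset.mem_univ q) hq
    rw [Finset.sum_sub_distrib] at h1
    linarith
  have hcard := Finset.card_le_mul_card_image (f := fun g : ι → ℤ => Function.update g q 0) S
    (⌊2 * B⌋₊ + 1) (fun a _ => by
      have hsub : ∀ x ∈ S.filter (fun x => Function.update x q 0 = a),
          x q ∈ Finset.Icc ⌈-B - ∑ p, (a p : ℝ) * w p⌉ ⌊B - ∑ p, (a p : ℝ) * w p⌋ := by
        intro x hx
        rw [Finset.mem_filter] at hx
        have h1 := abs_le.mp (h x hx.1)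
        rw [hsum x, hx.2] at h1
        rw [Finset.mem_Icc]
        constructor
        · exact Int.ceil_le.mpr (by linarith [h1.1])
        · exact Int.le_floor.mpr (by linarith [h1.2])
      refine (Finset.card_le_card_of_injOn (s := S.filter (fun x => Function.update x q 0 = a))
        (t := Finset.Icc ⌈-B - ∑ p, (a p : ℝ) * w p⌉ ⌊B - ∑ p, (a p : ℝ) * w p⌋)
        (fun x : ι → ℤ => x q) (fun x hx => hsub x (Finset.mem_coe.mp hx)) ?_).trans ?_
      · intro x hx y hy hxy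
        have hx2 : Function.update x q 0 = a := (Finset.mem_filter.mp (Finset.mem_coe.mp hx)).2
        have hy2 : Function.update y q 0 = a := (Finset.mem_filter.mp (Finset.mem_coe.mp hy)).2
        have hxy' : x q = y q := hxy
        funext p
        by_cases hp : p = q
        · rw [hp]
          exact hxy'
        · have h2 : Function.update x q 0 p = Function.update y q 0 p := by rw [hx2, hy2]
          rwa [Function.update_of_ne hp, Function.update_of_ne hp] at h2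
      · rw [Int.card_Icc]
        have h3 : ⌊B - ∑ p, (a p : ℝ) * w p⌋ - ⌈-B - ∑ p, (a p : ℝ) * w p⌉ ≤ ⌊2 * B⌋ := by
          apply Int.le_floor.mpr
          push_cast
          have h4 := Int.floor_le (B - ∑ p, (a p : ℝ) * w p)
          have h5 := Int.le_ceil (-B - ∑ p, (a p : ℝ) * w p)
          linarith
        have h6 : ((⌊2 * B⌋₊ : ℕ) : ℤ) = ⌊2 * B⌋ :=
          Int.natCast_floor_eq_floor (by linarith)
        omega)
  have h2 : (S.card : ℝ) ≤ ((⌊2 * B⌋₊ + 1 : ℕ) : ℝ) *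
      ((S.image fun g => Function.update g q 0).card : ℝ) := by
    exact_mod_cast hcard
  exact h2.trans (mul_le_mul_of_nonneg_right hn (Nat.cast_nonneg _))

/-- sums after the change of one coordinate with weight zero -/
private theorem upd_zero {ι : Type*} [Fintype ι] [DecidableEq ι] (g : ι → ℤ) (q : ι)
    (w : ι → ℝ) (hw : w q = 0) :
    ∑ p, ((Function.update g q 0 p : ℤ) : ℝ) * w p = ∑ p, (g p : ℝ) * w p := by
  refine Finset.sum_congr rfl fun p _ => ?_
  by_cases hp : p = q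
  · rw [hp, hw, mul_zero, mul_zero]
  · rw [Function.update_of_ne hp]

/-- weights of `phi` -/
private def wp (a : Idx 3 → ℝ) (t : Fin 3 → ℝ) (p : Idx 5) : ℝ :=
  mk5 (qv a t) 1 t p.1.1 * mk5 (qv a t) 1 t p.1.2

/-- weights of `dphi` -/
private def wd (a : Idx 3 → ℝ) (t : Fin 3 → ℝ) (i : Fin 3) (p : Idx 5) : ℝ :=
  mk5 (qv a t) 1 t p.1.1 * mk5 (pl a t (Pi.single i 1)) 0 (Pi.single i 1) p.1.2 +
    mk5 (qv a t) 1 t p.1.2 * mk5 (pl a t (Pi.single i 1)) 0 (Pi.single i 1) p.1.1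

private theorem phi_w (a : Idx 3 → ℝ) (g : Idx 5 → ℤ) (t : Fin 3 → ℝ) :
    phi a (fun p => (g p : ℝ)) t = ∑ p, (g p : ℝ) * wp a t p := rfl

private theorem dphi_w (a : Idx 3 → ℝ) (g : Idx 5 → ℤ) (t : Fin 3 → ℝ) (i : Fin 3) :
    dphi a (fun p => (g p : ℝ)) t i = ∑ p, (g p : ℝ) * wd a t i p := rfl

private def q1 : Idx 5 := ⟨(1, 1), le_refl _⟩
private def q2 : Idx 5 := ⟨(1, 2), by decide⟩
private def q3 : Idx 5 := ⟨(1, 3), by decide⟩
private def q4 : Idx 5 := ⟨(1, 4), by decide⟩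

private theorem wp_q1 (a : Idx 3 → ℝ) (t : Fin 3 → ℝ) : wp a t q1 = 1 := by
  simp [wp, q1, mk5]

private theorem wd_q1 (a : Idx 3 → ℝ) (t : Fin 3 → ℝ) (i : Fin 3) : wd a t i q1 = 0 := by
  simp [wd, q1, mk5]

private theorem wd_q2 (a : Idx 3 → ℝ) (t : Fin 3 → ℝ) (i : Fin 3) :
    wd a t i q2 = if i = 0 then 1 else 0 := by
  fin_cases i <;> simp [wd, q2, mk5]

private theorem wd_q3 (a : Idx 3 → ℝ) (t : Fin 3 → ℝ) (i : Fin 3) :
    wd a t i q3 = if i = 1 then 1 else 0 := by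
  fin_cases i <;> simp [wd, q3, mk5]

private theorem wd_q4 (a : Idx 3 → ℝ) (t : Fin 3 → ℝ) (i : Fin 3) :
    wd a t i q4 = if i = 2 then 1 else 0 := by
  fin_cases i <;> simp [wd, q4, mk5]

/-- the count for a fixed point -/
private theorem count_pt (a : Idx 3 → ℝ) (t : Fin 3 → ℝ) (B : ℝ) (hB : 0 ≤ B) (A : ℕ)
    (S : Finset (Idx 5 → ℤ)) (hS : S ⊆ bf 5 A)
    (h0 : ∀ g ∈ S, |phi a (fun p => (g p : ℝ)) t| ≤ B)
    (h1 : ∀ g ∈ S, ∀ i, |dphi a (fun p => (g p : ℝ)) t i| ≤ B) :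
    (S.card : ℝ) ≤ (2 * B + 1) ^ 4 * (2 * A + 1) ^ 11 := by
  classical
  have hB1 : 0 ≤ 2 * B + 1 := by linarith
  obtain ⟨S1, hS1⟩ : ∃ S1, S1 = S.image fun g => Function.update g q1 0 := ⟨_, rfl⟩
  obtain ⟨S2, hS2⟩ : ∃ S2, S2 = S1.image fun g => Function.update g q2 0 := ⟨_, rfl⟩
  obtain ⟨S3, hS3⟩ : ∃ S3, S3 = S2.image fun g => Function.update g q3 0 := ⟨_, rfl⟩
  obtain ⟨S4, hS4⟩ : ∃ S4, S4 = S3.image fun g => Function.update g q4 0 := ⟨_, rfl⟩
  have e1 : (S.card : ℝ) ≤ (2 * B + 1) * (S1.card : ℝ) := by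
    rw [hS1]
    refine elim S q1 (wp a t) (wp_q1 a t) B hB fun g hg => ?_
    have := h0 g hg
    rwa [phi_w] at this
  have d1 : ∀ g ∈ S1, ∀ i, |∑ p, (g p : ℝ) * wd a t i p| ≤ B := by
    intro g hg i
    rw [hS1, Finset.mem_image] at hg
    obtain ⟨g0, hg0, rfl⟩ := hg
    rw [upd_zero g0 q1 _ (wd_q1 a t i)]
    have := h1 g0 hg0 i
    rwa [dphi_w] at this
  have e2 : (S1.card : ℝ) ≤ (2 * B + 1) * (S2.card : ℝ) := by
    rw [hS2]
    exact elim S1 q2 (wd a t 0) (by rw [wd_q2]; simp) B hB fun g hg => d1 g hg 0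
  have d2 : ∀ g ∈ S2, ∀ i, i ≠ 0 → |∑ p, (g p : ℝ) * wd a t i p| ≤ B := by
    intro g hg i hi
    rw [hS2, Finset.mem_image] at hg
    obtain ⟨g0, hg0, rfl⟩ := hg
    rw [upd_zero g0 q2 _ (by rw [wd_q2, if_neg hi])]
    exact d1 g0 hg0 i
  have e3 : (S2.card : ℝ) ≤ (2 * B + 1) * (S3.card : ℝ) := by
    rw [hS3]
    exact elim S2 q3 (wd a t 1) (by rw [wd_q3]; simp) B hB fun g hg => d2 g hg 1 (by decide)
  have d3 : ∀ g ∈ S3, |∑ p, (g p : ℝ) * wd a t 2 p| ≤ B := by
    intro g hg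
    rw [hS3, Finset.mem_image] at hg
    obtain ⟨g0, hg0, rfl⟩ := hg
    rw [upd_zero g0 q3 _ (by rw [wd_q3, if_neg (by decide)])]
    exact d2 g0 hg0 2 (by decide)
  have e4 : (S3.card : ℝ) ≤ (2 * B + 1) * (S4.card : ℝ) := by
    rw [hS4]
    exact elim S3 q4 (wd a t 2) (by rw [wd_q4]; simp) B hB fun g hg => d3 g hg
  -- the remaining coordinates
  have hsub : S4 ⊆ Fintype.piFinset fun p : Idx 5 =>
      if p = q1 ∨ p = q2 ∨ p = q3 ∨ p = q4 then ({0} : Finset ℤ) else Icc (-(A : ℤ)) A := by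
    intro g hg
    rw [Fintype.mem_piFinset]
    intro p
    rw [hS4, Finset.mem_image] at hg
    obtain ⟨g3, hg3, rfl⟩ := hg
    rw [hS3, Finset.mem_image] at hg3
    obtain ⟨g2, hg2, rfl⟩ := hg3
    rw [hS2, Finset.mem_image] at hg2
    obtain ⟨g1, hg1, rfl⟩ := hg2
    rw [hS1, Finset.mem_image] at hg1
    obtain ⟨g0, hg0, rfl⟩ := hg1
    by_cases hp : p = q1 ∨ p = q2 ∨ p = q3 ∨ p = q4
    · rw [if_pos hp, Finset.mem_singleton]
      by_cases h4 : p = q4
      · rw [h4, Function.update_self]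
      rw [Function.update_of_ne h4]
      by_cases h3 : p = q3
      · rw [h3, Function.update_self]
      rw [Function.update_of_ne h3]
      by_cases h2 : p = q2
      · rw [h2, Function.update_self]
      rw [Function.update_of_ne h2]
      have hh1 : p = q1 := by
        rcases hp with h | h | h | h
        · exact h
        · exact absurd h h2
        · exact absurd h h3
        · exact absurd h h4
      rw [hh1, Function.update_self]
    · rw [if_neg hp]
      push Not at hp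
      rw [Function.update_of_ne hp.2.2.2, Function.update_of_ne hp.2.2.1,
        Function.update_of_ne hp.2.1, Function.update_of_ne hp.1]
      have h5 := hS hg0
      unfold bf at h5
      rw [Fintype.mem_piFinset] at h5
      exact h5 p
  have hcard : (S4.card : ℝ) ≤ (2 * A + 1) ^ 11 := by
    have h5 := Finset.card_le_card hsub
    rw [Fintype.card_piFinset] at h5
    have h6 : ∏ p : Idx 5, (if p = q1 ∨ p = q2 ∨ p = q3 ∨ p = q4 then ({0} : Finset ℤ)
        else Icc (-(A : ℤ)) A).card = (2 * A + 1) ^ 11 := by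
      have h7 : ∀ p : Idx 5, (if p = q1 ∨ p = q2 ∨ p = q3 ∨ p = q4 then ({0} : Finset ℤ)
        else Icc (-(A : ℤ)) A).card
          = if p = q1 ∨ p = q2 ∨ p = q3 ∨ p = q4 then 1 else 2 * A + 1 := by
        intro p
        split_ifs
        · exact Finset.card_singleton _
        · rw [Int.card_Icc]
          omega
      simp_rw [h7]
      rw [Finset.prod_ite, Finset.prod_const_one, one_mul, Finset.prod_const]
      congr 1
    rw [h6] at h5
    exact_mod_cast h5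
  calc (S.card : ℝ) ≤ (2 * B + 1) * (S1.card : ℝ) := e1
    _ ≤ (2 * B + 1) * ((2 * B + 1) * (S2.card : ℝ)) := mul_le_mul_of_nonneg_left e2 hB1
    _ ≤ (2 * B + 1) * ((2 * B + 1) * ((2 * B + 1) * (S3.card : ℝ))) := by gcongr
    _ ≤ (2 * B + 1) * ((2 * B + 1) * ((2 * B + 1) * ((2 * B + 1) * (S4.card : ℝ)))) := by gcongr
    _ ≤ (2 * B + 1) * ((2 * B + 1) * ((2 * B + 1) * ((2 * B + 1) * (2 * A + 1) ^ 11))) := by
        gcongr
    _ = (2 * B + 1) ^ 4 * (2 * A + 1) ^ 11 := by ring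

open scoped Classical in
theorem deg_r (a : Idx 3 → ℤ) (C0 : ℕ) : ∃ C : ℝ, 0 < C ∧ ∀ η : ℝ, 0 < η → η ≤ 1 →
    ∀ A : ℕ, 1 ≤ η * A →
      (((bf 5 A).filter fun g => ∃ t : Fin 3 → ℝ, (∀ i, |t i| ≤ C0) ∧
        phi (fun p => (a p : ℝ)) (fun p => (g p : ℝ)) t = 0 ∧
        ∀ i, |dphi (fun p => (a p : ℝ)) (fun p => (g p : ℝ)) t i| < η * A).card : ℝ) ≤
          C * η * (2 * A + 1) ^ 15 := by
  obtain ⟨C, hC, htay⟩ := tay (fun p => (a p : ℝ)) C0 (Nat.cast_nonneg C0)
  refine ⟨(2 * C0 + 5) ^ 3 * (2 * C + 3) ^ 4, by positivity, fun η hη hη1 A hA => ?_⟩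
  obtain ⟨M, hM⟩ : ∃ M : ℕ, M = ⌈(C0 : ℝ) / η⌉₊ + 1 := ⟨_, rfl⟩
  obtain ⟨B, hB⟩ : ∃ B : ℝ, B = (C + 1) * (η * A) := ⟨_, rfl⟩
  have hA0 : (0 : ℝ) ≤ A := Nat.cast_nonneg A
  have hB0 : 0 ≤ B := by
    rw [hB]
    positivity
  obtain ⟨Sm, hSm⟩ : ∃ Sm : (Fin 3 → ℤ) → Finset (Idx 5 → ℤ), Sm = fun m =>
      (bf 5 A).filter fun g =>
        |phi (fun p => (a p : ℝ)) (fun p => (g p : ℝ)) (fun i => η * m i)| ≤ B ∧
        ∀ i, |dphi (fun p => (a p : ℝ)) (fun p => (g p : ℝ)) (fun i => η * m i) i| ≤ B :=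
    ⟨_, rfl⟩
  have hcardSm : ∀ m, ((Sm m).card : ℝ) ≤ (2 * B + 1) ^ 4 * (2 * A + 1) ^ 11 := by
    intro m
    refine count_pt (fun p => (a p : ℝ)) (fun i => η * m i) B hB0 A (Sm m) ?_ ?_ ?_
    · rw [hSm]
      exact Finset.filter_subset _ _
    · intro g hg
      rw [hSm] at hg
      exact (Finset.mem_filter.mp hg).2.1
    · intro g hg
      rw [hSm] at hg
      exact (Finset.mem_filter.mp hg).2.2
  have hcover : ((bf 5 A).filter fun g => ∃ t : Fin 3 → ℝ, (∀ i, |t i| ≤ C0) ∧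
        phi (fun p => (a p : ℝ)) (fun p => (g p : ℝ)) t = 0 ∧
        ∀ i, |dphi (fun p => (a p : ℝ)) (fun p => (g p : ℝ)) t i| < η * A) ⊆
      (Fintype.piFinset fun _ : Fin 3 => Icc (-(M : ℤ)) M).biUnion Sm := by
    intro g hg
    obtain ⟨hgb, t, ht, hphi, hd⟩ := Finset.mem_filter.mp hg
    rw [Finset.mem_biUnion]
    refine ⟨fun i => ⌊t i / η⌋, ?_, ?_⟩
    · rw [Fintype.mem_piFinset]
      intro i
      rw [Finset.mem_Icc]
      have h1 := abs_le.mp (ht i)
      have h2 : -((C0 : ℝ) / η) ≤ t i / η := by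
        rw [← neg_div]
        exact div_le_div_of_nonneg_right h1.1 hη.le
      have h3 : t i / η ≤ (C0 : ℝ) / η := div_le_div_of_nonneg_right h1.2 hη.le
      have h4 : (C0 : ℝ) / η ≤ ⌈(C0 : ℝ) / η⌉₊ := Nat.le_ceil _
      constructor
      · apply Int.le_floor.mpr
        push_cast
        rw [hM]
        push_cast
        linarith
      · have h5 : (⌊t i / η⌋ : ℝ) ≤ (M : ℝ) := by
          rw [hM]
          push_cast
          have := Int.floor_le (t i / η)
          linarith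
        exact_mod_cast h5
    · rw [hSm]
      refine Finset.mem_filter.mpr ⟨hgb, ?_⟩
      have hgA : ∀ p, |((g p : ℤ) : ℝ)| ≤ (A : ℝ) := by
        intro p
        unfold bf at hgb
        rw [Fintype.mem_piFinset] at hgb
        have h1 := Finset.mem_Icc.mp (hgb p)
        rw [abs_le]
        constructor
        · exact_mod_cast h1.1
        · exact_mod_cast h1.2
      have hv : ∀ i, |η * (⌊t i / η⌋ : ℝ) - t i| ≤ η := by
        intro i
        have h1 := Int.floor_le (t i / η)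
        have h2 := Int.lt_floor_add_one (t i / η)
        have h3 : η * (⌊t i / η⌋ : ℝ) ≤ t i := by
          have := mul_le_mul_of_nonneg_left h1 hη.le
          rwa [mul_div_cancel₀ _ hη.ne'] at this
        have h4 : t i ≤ η * (⌊t i / η⌋ : ℝ) + η := by
          have := mul_le_mul_of_nonneg_left h2.le hη.le
          rw [mul_div_cancel₀ _ hη.ne'] at this
          linarith
        rw [abs_le]
        constructor <;> linarith
      obtain ⟨-, t2, -, t4⟩ := htay (fun p => (g p : ℝ)) A hA0 hgA t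
        (fun i => η * (⌊t i / η⌋ : ℝ) - t i) η ht hv hη1
      have hfun : (fun i => t i + (η * (⌊t i / η⌋ : ℝ) - t i)) = fun i => η * (⌊t i / η⌋ : ℝ) := by
        funext i
        ring
      rw [hfun] at t2 t4
      rw [hphi, sub_zero] at t4
      have hηA : 0 ≤ η * A := mul_nonneg hη.le hA0
      refine ⟨?_, fun i => ?_⟩
      · refine t4.trans ?_
        rw [hB]
        nlinarith
      · have h5 := t2 i
        have h6 := hd i
        have h7 : |dphi (fun p => (a p : ℝ)) (fun p => (g p : ℝ))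
            (fun i => η * (⌊t i / η⌋ : ℝ)) i| ≤
            |dphi (fun p => (a p : ℝ)) (fun p => (g p : ℝ)) (fun i => η * (⌊t i / η⌋ : ℝ)) i -
              dphi (fun p => (a p : ℝ)) (fun p => (g p : ℝ)) t i| +
            |dphi (fun p => (a p : ℝ)) (fun p => (g p : ℝ)) t i| := by
          have := abs_add_le (dphi (fun p => (a p : ℝ)) (fun p => (g p : ℝ))
            (fun i => η * (⌊t i / η⌋ : ℝ)) i -
              dphi (fun p => (a p : ℝ)) (fun p => (g p : ℝ)) t i)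
            (dphi (fun p => (a p : ℝ)) (fun p => (g p : ℝ)) t i)
          rwa [sub_add_cancel] at this
        refine h7.trans ?_
        rw [hB]
        nlinarith
  have hcard1 := (Finset.card_le_card hcover).trans Finset.card_biUnion_le
  have hcard2 : ((∑ m ∈ Fintype.piFinset fun _ : Fin 3 => Icc (-(M : ℤ)) M, (Sm m).card : ℕ) : ℝ)
      ≤ (2 * M + 1) ^ 3 * ((2 * B + 1) ^ 4 * (2 * A + 1) ^ 11) := by
    push_cast
    refine (Finset.sum_le_sum fun m _ => hcardSm m).trans ?_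
    rw [Finset.sum_const, nsmul_eq_mul, Fintype.card_piFinset]
    refine mul_le_mul_of_nonneg_right ?_ (by positivity)
    have h1 : ∏ _i : Fin 3, (Icc (-(M : ℤ)) M).card = (2 * M + 1) ^ 3 := by
      rw [Finset.prod_const, Finset.card_univ, Fintype.card_fin]
      congr 1
      rw [Int.card_Icc]
      omega
    rw [h1]
    push_cast
    exact le_refl _
  have hM1 : 2 * (M : ℝ) + 1 ≤ (2 * C0 + 5) / η := by
    rw [le_div_iff₀ hη, hM]
    push_cast
    have h1 : (⌈(C0 : ℝ) / η⌉₊ : ℝ) < (C0 : ℝ) / η + 1 := Nat.ceil_lt_add_one (by positivity)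
    have h2 : ((⌈(C0 : ℝ) / η⌉₊ : ℝ)) * η ≤ C0 + η := by
      have h3 := mul_le_mul_of_nonneg_right h1.le hη.le
      have h4 : ((C0 : ℝ) / η + 1) * η = C0 + η := by field_simp
      linarith
    nlinarith
  have hB2 : 2 * B + 1 ≤ (2 * C + 3) * (η * A) := by
    rw [hB]
    nlinarith
  have hfinal : (((bf 5 A).filter fun g => ∃ t : Fin 3 → ℝ, (∀ i, |t i| ≤ C0) ∧
        phi (fun p => (a p : ℝ)) (fun p => (g p : ℝ)) t = 0 ∧
        ∀ i, |dphi (fun p => (a p : ℝ)) (fun p => (g p : ℝ)) t i| < η * A).card : ℝ)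
      ≤ (2 * M + 1) ^ 3 * ((2 * B + 1) ^ 4 * (2 * A + 1) ^ 11) := by
    refine le_trans ?_ hcard2
    exact_mod_cast hcard1
  refine hfinal.trans ?_
  have hM0 : (0 : ℝ) ≤ 2 * (M : ℝ) + 1 := by positivity
  have hB3 : 0 ≤ 2 * B + 1 := by linarith
  calc (2 * (M : ℝ) + 1) ^ 3 * ((2 * B + 1) ^ 4 * (2 * A + 1) ^ 11)
      ≤ ((2 * C0 + 5) / η) ^ 3 * (((2 * C + 3) * (η * A)) ^ 4 * (2 * A + 1) ^ 11) := by
        have s1 := pow_le_pow_left₀ hM0 hM1 3
        have s2 := pow_le_pow_left₀ hB3 hB2 4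
        have s3 : (0 : ℝ) ≤ (2 * (A : ℝ) + 1) ^ 11 := by positivity
        exact mul_le_mul s1 (mul_le_mul_of_nonneg_right s2 s3) (by positivity) (by positivity)
    _ = (2 * C0 + 5) ^ 3 * (2 * C + 3) ^ 4 * η * ((A : ℝ) ^ 4 * (2 * A + 1) ^ 11) := by
        field_simp
    _ ≤ (2 * C0 + 5) ^ 3 * (2 * C + 3) ^ 4 * η * ((2 * A + 1) ^ 4 * (2 * A + 1) ^ 11) := by
        have s4 : (A : ℝ) ^ 4 ≤ (2 * A + 1) ^ 4 := pow_le_pow_left₀ hA0 (by linarith) 4
        gcongr
    _ = (2 * C0 + 5) ^ 3 * (2 * C + 3) ^ 4 * η * (2 * A + 1) ^ 15 := by ring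

end Pool.Agent.H7.HP
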