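import Pool.Agent.H7.HP.Sam

set_option autoImplicit false
set_option linter.unusedSectionVars false

/-!
# [H7 HP EKT] pairs with given gcd and small angle, 110-170 lines

PROOF. We may suppose `θ ≤ c0 = 2 cx^2` (`dl ≤ c0 B^2` always: replace `θ` by `min θ c0`). It is enough that for fixed `x` (prime `l`) and fixed `l' ≠ l`
the number of `y` with prime `l'`, `gk x y = k`, `dl x y ≤ θ B^2` is at most `C (θ/k)^3 B^2`: the number of `x` is at most `pb B * C B^2` (`card_l`), of `l'` at most `pb B`.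
`y` is determined by `u' = tl y`. `k ∣ x1 u'_i - y1 u_i = q (l u'_i - l' u_i)`; with `k1 = k / gcd k q`: `k1 ∣ l u'_i - l' u_i`, `k ≤ q k1`, `k1 ≤ k < l` so `l` is invertible modulo
`k1`: all `u'` are congruent modulo `k1` to one `c` (take `c` one of the `u'`). `|x1 u'_i - y1 u_i| ≤ dl ≤ θ B^2`, `x1 > B`: `u'_i` lies in an interval of length `2 θ B`.
So `u' = c + k1 z'`, `z'_i` in an interval of `n ≤ 2θB/k1 + 1 ≤ 3 q θ B / k` integers (`θ B / k ≥ B^(9/10) ≥ 1`), and `l' ∣ h(u')`. By `eqd` (`m = k1`, `l'` does not divide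
`k1 < l'`, `L = 3 q c0 + 1`): at most `n^3 / l' + C (L + log l')^3 l'^(3/2) ≤ C (θ/k)^3 B^2`, as `(θ/k)^3 B^2 ≥ B^(2 - 3/10)`.
-/

namespace Pool.Agent.H7.HP

open Finset

private theorem ekt_log (L : ℝ) : ∃ B0 : ℕ, ∀ B ≥ B0,
    (L + Real.log (4 * (B : ℝ))) * 2 ≤ (B : ℝ) ^ (1 / 15 : ℝ) := by
  have h1 : (fun x : ℝ => Real.log x) =o[Filter.atTop] fun x : ℝ => x ^ (1 / 15 : ℝ) :=
    isLittleO_log_rpow_atTop (by norm_num)
  have h2 : (fun _ : ℝ => (L + Real.log 4)) =o[Filter.atTop] fun x : ℝ => x ^ (1 / 15 : ℝ) := by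
    rw [Asymptotics.isLittleO_const_left]
    right
    exact Filter.tendsto_abs_atTop_atTop.comp (tendsto_rpow_atTop (by norm_num))
  have h3 := (h2.add h1).const_mul_left 2
  have h4 := h3.bound one_pos
  have h5 := tendsto_natCast_atTop_atTop.eventually h4
  obtain ⟨N0, hN0⟩ := Filter.eventually_atTop.mp h5
  refine ⟨max N0 1, fun B hB => ?_⟩
  have h6 := hN0 B ((le_max_left _ _).trans hB)
  have hB1 : (1 : ℝ) ≤ B := by exact_mod_cast (le_max_right _ _).trans hB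
  rw [one_mul, Real.norm_eq_abs, Real.norm_eq_abs,
    abs_of_nonneg (Real.rpow_nonneg (Nat.cast_nonneg B) _)] at h6
  have h7 := (le_abs_self _).trans h6
  rw [Real.log_mul (by norm_num) (by linarith)]
  calc (L + (Real.log 4 + Real.log B)) * 2 = 2 * (L + Real.log 4 + Real.log B) := by ring
    _ ≤ _ := h7

/-- the error term of the equidistribution is small -/
private theorem ekt_err (L : ℝ) (hL : 1 ≤ L) : ∃ B0 : ℕ, ∀ B ≥ B0, ∀ l : ℕ, B < l → l ≤ 4 * B →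
    (L + Real.log l) ^ 3 * (l : ℝ) ^ (3 / 2 : ℝ) ≤ (B : ℝ) ^ (17 / 10 : ℝ) := by
  obtain ⟨B0, h0⟩ := ekt_log L
  refine ⟨max B0 1, fun B hB l hl1 hl2 => ?_⟩
  have hB1 : (1 : ℝ) ≤ B := by exact_mod_cast (le_max_right _ _).trans hB
  have h1 := h0 B ((le_max_left _ _).trans hB)
  have hl1' : (B : ℝ) < l := by exact_mod_cast hl1
  have hl2' : (l : ℝ) ≤ 4 * B := by exact_mod_cast hl2
  have h2 : Real.log l ≤ Real.log (4 * B) := Real.log_le_log (by linarith) hl2'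
  have h3 : 0 ≤ Real.log l := Real.log_nonneg (by linarith)
  have h4 : L + Real.log l ≤ (B : ℝ) ^ (1 / 15 : ℝ) / 2 := by linarith
  have h5 : (L + Real.log l) ^ 3 ≤ ((B : ℝ) ^ (1 / 15 : ℝ) / 2) ^ 3 :=
    pow_le_pow_left₀ (by linarith) h4 3
  have h6 : ((B : ℝ) ^ (1 / 15 : ℝ) / 2) ^ 3 = (B : ℝ) ^ (1 / 5 : ℝ) / 8 := by
    rw [div_pow, ← Real.rpow_natCast, ← Real.rpow_mul (by linarith)]
    norm_num
  have h7 : (l : ℝ) ^ (3 / 2 : ℝ) ≤ (4 * (B : ℝ)) ^ (3 / 2 : ℝ) :=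
    Real.rpow_le_rpow (by linarith) hl2' (by norm_num)
  have h8 : (4 * (B : ℝ)) ^ (3 / 2 : ℝ) = 8 * (B : ℝ) ^ (3 / 2 : ℝ) := by
    rw [Real.mul_rpow (by norm_num) (by linarith)]
    congr 1
    have : (4 : ℝ) = 2 ^ (2 : ℝ) := by norm_num
    rw [this, ← Real.rpow_mul (by norm_num)]
    norm_num
  calc (L + Real.log l) ^ 3 * (l : ℝ) ^ (3 / 2 : ℝ)
      ≤ ((B : ℝ) ^ (1 / 5 : ℝ) / 8) * (8 * (B : ℝ) ^ (3 / 2 : ℝ)) := by
        apply mul_le_mul (h5.trans h6.le) (h7.trans h8.le) (by positivity) (by positivity)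
    _ = (B : ℝ) ^ (17 / 10 : ℝ) := by
        have : (17 / 10 : ℝ) = 1 / 5 + 3 / 2 := by norm_num
        rw [this, Real.rpow_add (by linarith)]
        ring

private theorem ekt_dvd {k q : ℕ} (hk : 1 ≤ k) {s : ℤ} (h : (k : ℤ) ∣ q * s) :
    ((k / Nat.gcd k q : ℕ) : ℤ) ∣ s := by
  have hg : 0 < Nat.gcd k q := Nat.gcd_pos_of_pos_left _ hk
  obtain ⟨k1, hk1⟩ := Nat.gcd_dvd_left k q
  obtain ⟨q1, hq1⟩ := Nat.gcd_dvd_right k q
  have h1 : k / Nat.gcd k q = k1 := Nat.div_eq_of_eq_mul_right hg hk1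
  have h2 : q / Nat.gcd k q = q1 := Nat.div_eq_of_eq_mul_right hg hq1
  have hcop : Nat.Coprime k1 q1 := by
    have := Nat.coprime_div_gcd_div_gcd hg
    rwa [h1, h2] at this
  rw [h1]
  have h3 : ((Nat.gcd k q : ℕ) : ℤ) * k1 ∣ ((Nat.gcd k q : ℕ) : ℤ) * (q1 * s) := by
    have e1 : (k : ℤ) = ((Nat.gcd k q : ℕ) : ℤ) * k1 := by exact_mod_cast hk1
    have e2 : (q : ℤ) = ((Nat.gcd k q : ℕ) : ℤ) * q1 := by exact_mod_cast hq1
    rw [← e1, ← mul_assoc, ← e2]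
    exact h
  have h4 : (k1 : ℤ) ∣ q1 * s :=
    (mul_dvd_mul_iff_left (by exact_mod_cast hg.ne')).mp h3
  exact (Nat.isCoprime_iff_coprime.mpr hcop).dvd_of_dvd_mul_left h4

private theorem ekt_k1 {k q : ℕ} (hk : 1 ≤ k) (hq : 1 ≤ q) :
    1 ≤ k / Nat.gcd k q ∧ k / Nat.gcd k q ≤ k ∧ k ≤ q * (k / Nat.gcd k q) := by
  have hg : 0 < Nat.gcd k q := Nat.gcd_pos_of_pos_left _ hk
  refine ⟨?_, Nat.div_le_self _ _, ?_⟩
  · exact Nat.div_pos (Nat.le_of_dvd hk (Nat.gcd_dvd_left k q)) hg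
  · calc k = Nat.gcd k q * (k / Nat.gcd k q) := (Nat.mul_div_cancel' (Nat.gcd_dvd_left k q)).symm
      _ ≤ q * (k / Nat.gcd k q) :=
        Nat.mul_le_mul_right _ (Nat.le_of_dvd hq (Nat.gcd_dvd_right k q))

private theorem ekt_diff (x y : Fin 5 → ℤ) (i : Fin 3) :
    |x 1 * tl y i - y 1 * tl x i| ≤ dl x y := by
  rw [← zz_mul, abs_mul]
  have h1 := le_nm (zz x y) i
  have h2 : |(gk x y : ℤ)| = gk x y := abs_of_nonneg (by positivity)
  rw [h2]
  have h3 : (gk x y : ℤ) * |zz x y i| ≤ (gk x y : ℤ) * nm (zz x y) :=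
    mul_le_mul_of_nonneg_left h1 (by positivity)
  have h4 := zz_le x y
  have h5 : (gk x y : ℤ) * (nm (zz x y) : ℤ) ≤ (dl x y : ℤ) := by exact_mod_cast h4
  exact h3.trans h5

private theorem ekt_inj {a : Idx 3 → ℤ} {q C1 B : ℕ} (hq : 1 ≤ q) {y y' : Fin 5 → ℤ}
    (hy : IsPt a q C1 B y) (hy' : IsPt a q C1 B y') (h1 : y 1 = y' 1) (h2 : tl y = tl y') :
    y = y' := by
  have h3 := hy.zero
  have h4 := hy'.zero
  unfold ff at h3 h4
  rw [h2, h1] at h3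
  have h5 : (y 0 - y' 0) * y' 1 = 0 := by linarith
  have h6 : 0 < y' 1 := by
    have := (pt_x1 hq hy').1
    have h7 : (0 : ℤ) ≤ B := by positivity
    linarith
  have h7 : y 0 = y' 0 := by
    rcases mul_eq_zero.mp h5 with h8 | h8
    · linarith
    · exact absurd h8 h6.ne'
  rw [← mk5_tl y, ← mk5_tl y', h1, h2, h7]

/-- the fibres inject into the set counted by `eqd` -/
private theorem ekt_card {a : Idx 3 → ℤ} {q C1 B k l' T : ℕ} (hq : 1 ≤ q) (hk : 1 ≤ k)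
    {θ : ℝ} {x y0 : Fin 5 → ℤ} (hx : IsPt a q C1 B x) (hB : 1 ≤ B) (hkB : k < B)
    (hy0 : IsPt a q C1 B y0) (hl0 : lp q y0 = l') (hg0 : gk x y0 = k)
    (hd0 : (dl x y0 : ℝ) ≤ θ * (B : ℝ) ^ 2)
    (hT : ∀ m : ℕ, ((k / Nat.gcd k q : ℕ) : ℝ) * m ≤ 2 * θ * B → m ≤ T)
    (F : Finset (Fin 5 → ℤ)) (hF : ∀ y ∈ F, IsPt a q C1 B y ∧ lp q y = l' ∧ gk x y = k ∧
      (dl x y : ℝ) ≤ θ * (B : ℝ) ^ 2) :
    F.card ≤ ((Fintype.piFinset fun i : Fin 3 => Ico ((fun _ => -(T : ℤ)) i)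
      ((fun _ => -(T : ℤ)) i + ((fun _ => 2 * T + 1 : Fin 3 → ℕ) i : ℕ))).filter
      fun z => (l' : ℤ) ∣ qv a (fun i => tl y0 i + ((k / Nat.gcd k q : ℕ) : ℤ) * z i)).card := by
  classical
  set k1 := k / Nat.gcd k q with hk1def
  obtain ⟨hk1, hk1k, -⟩ := ekt_k1 hk hq
  rw [← hk1def] at hk1 hk1k
  have hl := pt_lp hq hx
  have hdvd : ∀ y, IsPt a q C1 B y → lp q y = l' → gk x y = k → ∀ i,
      (k1 : ℤ) ∣ lp q x * tl y i - l' * tl x i := by
    intro y hy hly hgy i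
    apply ekt_dvd hk
    have h1 := zz_mul x y i
    rw [hgy, hl.2.2.2.1, (pt_lp hq hy).2.2.2.1, hly] at h1
    refine ⟨zz x y i, ?_⟩
    linear_combination -h1
  have hdvd2 : ∀ y, IsPt a q C1 B y → lp q y = l' → gk x y = k → ∀ i,
      (k1 : ℤ) ∣ tl y i - tl y0 i := by
    intro y hy hly hgy i
    have h1 := hdvd y hy hly hgy i
    have h2 := hdvd y0 hy0 hl0 hg0 i
    have h3 : (k1 : ℤ) ∣ (lp q x : ℤ) * (tl y i - tl y0 i) := by
      have h4 := dvd_sub h1 h2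
      have h5 : (lp q x : ℤ) * tl y i - l' * tl x i - (lp q x * tl y0 i - l' * tl x i) =
          (lp q x : ℤ) * (tl y i - tl y0 i) := by ring
      rwa [h5] at h4
    have hcop : Nat.Coprime k1 (lp q x) := by
      apply Nat.Coprime.symm
      rw [Nat.Prime.coprime_iff_not_dvd hl.1]
      intro h4
      have h5 := Nat.le_of_dvd hk1 h4
      have h6 := hl.2.1
      omega
    exact (Nat.isCoprime_iff_coprime.mpr hcop).dvd_of_dvd_mul_left h3
  have hBx : (B : ℤ) < x 1 := (pt_x1 hq hx).1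
  have hBr : (0 : ℝ) < B := by exact_mod_cast hB
  have hbd : ∀ y ∈ F, ∀ i, |((tl y i - tl y0 i : ℤ) : ℝ)| ≤ 2 * θ * B := by
    intro y hy i
    obtain ⟨hy1, hy2, hy3, hy4⟩ := hF y hy
    have h1 := ekt_diff x y i
    have h2 := ekt_diff x y0 i
    have h3 : y 1 = y0 1 := by
      rw [(pt_lp hq hy1).2.2.2.1, (pt_lp hq hy0).2.2.2.1, hy2, hl0]
    have h4 : x 1 * (tl y i - tl y0 i) =
        (x 1 * tl y i - y 1 * tl x i) - (x 1 * tl y0 i - y0 1 * tl x i) := by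
      rw [h3]
      ring
    have h5 : |x 1 * (tl y i - tl y0 i)| ≤ dl x y + dl x y0 := by
      rw [h4]
      exact (abs_sub _ _).trans (add_le_add h1 h2)
    rw [abs_mul, abs_of_pos (by linarith [Int.natCast_nonneg B] : 0 < x 1)] at h5
    have h6 : (B : ℤ) * |tl y i - tl y0 i| ≤ x 1 * |tl y i - tl y0 i| :=
      mul_le_mul_of_nonneg_right hBx.le (abs_nonneg _)
    have h7 : (B : ℝ) * |((tl y i - tl y0 i : ℤ) : ℝ)| ≤ (dl x y : ℝ) + (dl x y0 : ℝ) := by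
      have h8 := h6.trans h5
      have h9 : ((B : ℤ) : ℝ) * ((|tl y i - tl y0 i| : ℤ) : ℝ) ≤
          ((dl x y : ℤ) : ℝ) + ((dl x y0 : ℤ) : ℝ) := by exact_mod_cast h8
      rw [Int.cast_abs] at h9
      exact_mod_cast h9
    have h10 : (B : ℝ) * |((tl y i - tl y0 i : ℤ) : ℝ)| ≤ B * (2 * θ * B) := by
      calc (B : ℝ) * |((tl y i - tl y0 i : ℤ) : ℝ)| ≤ (dl x y : ℝ) + (dl x y0 : ℝ) := h7
        _ ≤ θ * (B : ℝ) ^ 2 + θ * (B : ℝ) ^ 2 := add_le_add hy4 hd0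
        _ = B * (2 * θ * B) := by ring
    exact le_of_mul_le_mul_left h10 hBr
  have hk1z : (k1 : ℤ) ≠ 0 := by exact_mod_cast (by omega : k1 ≠ 0)
  have hquot : ∀ y ∈ F, ∀ i, (k1 : ℤ) * ((tl y i - tl y0 i) / k1) = tl y i - tl y0 i := by
    intro y hy i
    obtain ⟨hy1, hy2, hy3, hy4⟩ := hF y hy
    exact Int.mul_ediv_cancel' (hdvd2 y hy1 hy2 hy3 i)
  apply Finset.card_le_card_of_injOn (fun y i => (tl y i - tl y0 i) / (k1 : ℤ))
  · intro y hy
    rw [Finset.mem_coe] at hy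
    obtain ⟨hy1, hy2, hy3, hy4⟩ := hF y hy
    rw [Finset.mem_coe, Finset.mem_filter, Fintype.mem_piFinset]
    constructor
    · intro i
      rw [Finset.mem_Ico]
      have h1 : ((tl y i - tl y0 i) / (k1 : ℤ)).natAbs ≤ T := by
        apply hT
        have h2 := hbd y hy i
        rw [← hquot y hy i] at h2
        push_cast at h2
        rw [abs_mul, abs_of_nonneg (by positivity : (0 : ℝ) ≤ (k1 : ℝ))] at h2
        have h3 : ((((tl y i - tl y0 i) / (k1 : ℤ)).natAbs : ℕ) : ℝ) =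
            |(((tl y i - tl y0 i) / (k1 : ℤ) : ℤ) : ℝ)| := by
          rw [Nat.cast_natAbs, Int.cast_abs]
        rw [h3]
        exact h2
      dsimp only
      push_cast
      omega
    · have h1 : (fun i => tl y0 i + (k1 : ℤ) * ((tl y i - tl y0 i) / (k1 : ℤ))) = tl y := by
        funext i
        rw [hquot y hy i]
        ring
      rw [h1]
      have h2 := hy1.zero
      unfold ff at h2
      have h3 := (pt_lp hq hy1).2.2.2.1
      rw [hy2] at h3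
      refine ⟨y 0 * q, ?_⟩
      rw [h3] at h2
      linear_combination -h2
  · intro y hy y' hy' heq
    rw [Finset.mem_coe] at hy hy'
    obtain ⟨hy1, hy2, hy3, hy4⟩ := hF y hy
    obtain ⟨hy1', hy2', hy3', hy4'⟩ := hF y' hy'
    apply ekt_inj hq hy1 hy1'
    · rw [(pt_lp hq hy1).2.2.2.1, (pt_lp hq hy1').2.2.2.1, hy2, hy2']
    · funext i
      have h1 := congrFun heq i
      dsimp only at h1
      have h2 := hquot y hy i
      have h3 := hquot y' hy' i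
      rw [h1, h3] at h2
      linarith

open scoped Classical in
/-- the number of points in a fibre -/
private theorem ekt_fib {a : Idx 3 → ℤ} (ha : (Hm a).det ≠ 0) (q C1 : ℕ) (hq : 1 ≤ q) :
    ∃ C : ℝ, 0 < C ∧ ∃ B0 : ℕ, ∀ B ≥ B0, ∀ (k : ℕ) (θ : ℝ), 1 ≤ k →
      (k : ℝ) ≤ (B : ℝ) ^ (1 / 20 : ℝ) → (B : ℝ) ^ (-(1 / 20) : ℝ) ≤ θ →
      θ ≤ 2 * (cx a q C1 : ℝ) ^ 2 → ∀ x, IsPt a q C1 B x → ∀ l' : ℕ,
      (((XP a q C1 B).filter fun y => lp q y = l' ∧ gk x y = k ∧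
        (dl x y : ℝ) ≤ θ * (B : ℝ) ^ 2).card : ℝ) ≤ C * ((θ / k) ^ 3 * (B : ℝ) ^ 2) := by
  obtain ⟨Ce, hCe, heqd⟩ := eqd
  set c0 : ℝ := 2 * (cx a q C1 : ℝ) ^ 2 with hc0
  have hcx : (1 : ℝ) ≤ cx a q C1 := by
    have : 1 ≤ cx a q C1 := by
      unfold cx
      omega
    exact_mod_cast this
  have hc01 : 1 ≤ c0 := by nlinarith
  set L : ℝ := (4 * (q : ℝ) + 1) * c0 with hLdef
  have hq0 : (0 : ℝ) ≤ q := Nat.cast_nonneg q
  have hL1 : 1 ≤ L := by nlinarith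
  obtain ⟨B1, hB1⟩ := ekt_err L hL1
  refine ⟨(4 * (q : ℝ) + 1) ^ 3 + Ce, by positivity, max (max B1 2) ((Hm a).det.natAbs + 1),
    fun B hB k θ hk hkB hθ hθ2 x hx l' => ?_⟩
  have hBB1 : B1 ≤ B := ((le_max_left _ _).trans (le_max_left _ _)).trans hB
  have hB2 : 2 ≤ B := ((le_max_right _ _).trans (le_max_left _ _)).trans hB
  have hBdet : (Hm a).det.natAbs + 1 ≤ B := (le_max_right _ _).trans hB
  have hBr : (2 : ℝ) ≤ B := by exact_mod_cast hB2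
  have hB1r : (1 : ℝ) ≤ B := by linarith
  have hkr : (1 : ℝ) ≤ k := by exact_mod_cast hk
  have hθ0 : 0 < θ := lt_of_lt_of_le (Real.rpow_pos_of_pos (by linarith) _) hθ
  rcases ((XP a q C1 B).filter fun y => lp q y = l' ∧ gk x y = k ∧
        (dl x y : ℝ) ≤ θ * (B : ℝ) ^ 2).eq_empty_or_nonempty with hem | ⟨y0, hy0⟩
  · rw [hem, Finset.card_empty, Nat.cast_zero]
    positivity
  rw [Finset.mem_filter, mem_XP hq] at hy0
  obtain ⟨hy0, hl0, hg0, hd0⟩ := hy0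
  have hl := pt_lp hq hy0
  rw [hl0] at hl
  have hkB' : (k : ℝ) < B := by
    refine lt_of_le_of_lt hkB ?_
    calc (B : ℝ) ^ (1 / 20 : ℝ) < (B : ℝ) ^ (1 : ℝ) :=
          Real.rpow_lt_rpow_of_exponent_lt (by linarith) (by norm_num)
      _ = B := Real.rpow_one _
  have hkB'' : k < B := by exact_mod_cast hkB'
  obtain ⟨hk1, hk1k, hkq⟩ := ekt_k1 hk hq
  set k1 := k / Nat.gcd k q with hk1def
  have hk1r : (1 : ℝ) ≤ k1 := by exact_mod_cast hk1
  set T : ℕ := ⌊2 * θ * B / k1⌋₊ with hTdef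
  have hT0 : 0 ≤ 2 * θ * B / k1 := by positivity
  have hcard := ekt_card (T := T) hq hk hx (by omega : 1 ≤ B) hkB'' hy0 hl0 hg0 hd0
    (by
      intro m hm
      rw [hTdef]
      apply Nat.le_floor
      rw [le_div_iff₀ (by linarith)]
      rw [← hk1def] at hm
      linarith)
    ((XP a q C1 B).filter fun y => lp q y = l' ∧ gk x y = k ∧
        (dl x y : ℝ) ≤ θ * (B : ℝ) ^ 2)
    (by
      intro y hy
      rw [Finset.mem_filter, mem_XP hq] at hy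
      exact hy)
  -- the size of the box
  have ht1 : (B : ℝ) ^ (9 / 10 : ℝ) ≤ θ * B / k := by
    rw [le_div_iff₀ (by linarith)]
    calc (B : ℝ) ^ (9 / 10 : ℝ) * k ≤ (B : ℝ) ^ (9 / 10 : ℝ) * (B : ℝ) ^ (1 / 20 : ℝ) :=
          mul_le_mul_of_nonneg_left hkB (by positivity)
      _ = (B : ℝ) ^ (-(1 / 20) : ℝ) * (B : ℝ) ^ (1 : ℝ) := by
          rw [← Real.rpow_add (by linarith), ← Real.rpow_add (by linarith)]
          norm_num
      _ ≤ θ * B := by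
          rw [Real.rpow_one]
          exact mul_le_mul_of_nonneg_right hθ (by linarith)
  have ht1' : 1 ≤ θ * B / k := le_trans (Real.one_le_rpow hB1r (by norm_num)) ht1
  have hn : ((2 * T + 1 : ℕ) : ℝ) ≤ (4 * q + 1) * (θ * B / k) := by
    have h1 : (T : ℝ) ≤ 2 * θ * B / k1 := Nat.floor_le hT0
    have h2 : 2 * θ * B / k1 ≤ 2 * q * (θ * B / k) := by
      rw [div_le_iff₀ (by linarith)]
      have h3 : (k : ℝ) ≤ q * k1 := by exact_mod_cast hkq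
      have h4 : 2 * q * (θ * B / k) * k1 = (2 * θ * B) * ((q * k1) / k) := by ring
      rw [h4]
      have h5 : 1 ≤ ((q : ℝ) * k1) / k := by
        rw [le_div_iff₀ (by linarith)]
        linarith
      have h6 : 0 ≤ 2 * θ * B := by positivity
      nlinarith
    push_cast
    nlinarith
  have hnL : ((2 * T + 1 : ℕ) : ℝ) ≤ L * l' := by
    have h1 : θ * B / k ≤ c0 * B := by
      rw [div_le_iff₀ (by linarith)]
      have h2 : θ * B ≤ c0 * B := mul_le_mul_of_nonneg_right hθ2 (by linarith)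
      have h3 : 0 ≤ c0 * B := by positivity
      nlinarith
    have h4 : (B : ℝ) ≤ l' := by exact_mod_cast hl.2.1.le
    calc ((2 * T + 1 : ℕ) : ℝ) ≤ (4 * q + 1) * (θ * B / k) := hn
      _ ≤ (4 * q + 1) * (c0 * B) := mul_le_mul_of_nonneg_left h1 (by positivity)
      _ = L * B := by ring
      _ ≤ L * l' := mul_le_mul_of_nonneg_left h4 (by linarith)
  have hE := heqd a l' hl.1 (by omega)
    (by
      intro h1
      have h2 := Int.le_of_dvd (by exact_mod_cast Int.natAbs_pos.mpr ha)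
        ((Int.dvd_natAbs).mpr h1)
      omega)
    (k1 : ℤ)
    (by
      intro h1
      have h2 := Int.le_of_dvd (by exact_mod_cast hk1) h1
      omega)
    (tl y0) (fun _ => -(T : ℤ)) (fun _ => 2 * T + 1) L hL1 (fun _ => hnL)
  have hE2 := (abs_le.mp hE).2
  have herr := hB1 B hBB1 l' hl.2.1 hl.2.2.1
  have hl'r : (B : ℝ) ≤ l' := by exact_mod_cast hl.2.1.le
  have hmain : ((2 * T + 1 : ℕ) : ℝ) * ((2 * T + 1 : ℕ) : ℝ) * ((2 * T + 1 : ℕ) : ℝ) / l' ≤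
      (4 * q + 1) ^ 3 * ((θ / k) ^ 3 * (B : ℝ) ^ 2) := by
    have h0 : (0 : ℝ) ≤ ((2 * T + 1 : ℕ) : ℝ) := Nat.cast_nonneg _
    calc ((2 * T + 1 : ℕ) : ℝ) * ((2 * T + 1 : ℕ) : ℝ) * ((2 * T + 1 : ℕ) : ℝ) / l'
        = ((2 * T + 1 : ℕ) : ℝ) ^ 3 / l' := by ring
      _ ≤ ((4 * q + 1) * (θ * B / k)) ^ 3 / l' :=
          div_le_div_of_nonneg_right (pow_le_pow_left₀ h0 hn 3) (by linarith)
      _ ≤ ((4 * q + 1) * (θ * B / k)) ^ 3 / B :=
          div_le_div_of_nonneg_left (by positivity) (by linarith) hl'r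
      _ = (4 * q + 1) ^ 3 * ((θ / k) ^ 3 * (B : ℝ) ^ 2) := by
          field_simp
  have hlow : (B : ℝ) ^ (17 / 10 : ℝ) ≤ (θ / k) ^ 3 * (B : ℝ) ^ 2 := by
    have h1 : (B : ℝ) ^ (-(1 / 10) : ℝ) ≤ θ / k := by
      have h2 : (B : ℝ) ^ (9 / 10 : ℝ) ≤ (θ / k) * B := by
        calc (B : ℝ) ^ (9 / 10 : ℝ) ≤ θ * B / k := ht1
          _ = (θ / k) * B := by ring
      have h3 : (B : ℝ) ^ (9 / 10 : ℝ) = (B : ℝ) ^ (-(1 / 10) : ℝ) * B := by
        conv_rhs => rw [← Real.rpow_one (B : ℝ), ← Real.rpow_mul (by linarith)]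
        rw [one_mul, ← Real.rpow_add (by linarith)]
        norm_num
      rw [h3] at h2
      exact le_of_mul_le_mul_right h2 (by linarith)
    calc (B : ℝ) ^ (17 / 10 : ℝ) = ((B : ℝ) ^ (-(1 / 10) : ℝ)) ^ 3 * (B : ℝ) ^ 2 := by
          rw [← Real.rpow_natCast ((B : ℝ) ^ (-(1 / 10) : ℝ)), ← Real.rpow_mul (by linarith),
            ← Real.rpow_natCast (B : ℝ) 2, ← Real.rpow_add (by linarith)]
          norm_num
      _ ≤ (θ / k) ^ 3 * (B : ℝ) ^ 2 :=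
          mul_le_mul_of_nonneg_right (pow_le_pow_left₀ (by positivity) h1 3) (by positivity)
  have hcard' : ((((XP a q C1 B).filter fun y => lp q y = l' ∧ gk x y = k ∧
        (dl x y : ℝ) ≤ θ * (B : ℝ) ^ 2).card : ℕ) : ℝ) ≤
      (((Fintype.piFinset fun i : Fin 3 => Ico ((fun _ => -(T : ℤ)) i)
      ((fun _ => -(T : ℤ)) i + ((fun _ => 2 * T + 1 : Fin 3 → ℕ) i : ℕ))).filter
      fun z => (l' : ℤ) ∣ qv a (fun i => tl y0 i + (k1 : ℤ) * z i)).card : ℝ) := by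
    exact_mod_cast hcard
  have herr2 : Ce * (L + Real.log l') ^ 3 * (l' : ℝ) ^ (3 / 2 : ℝ) ≤
      Ce * ((θ / k) ^ 3 * (B : ℝ) ^ 2) := by
    rw [mul_assoc]
    exact mul_le_mul_of_nonneg_left (herr.trans hlow) hCe.le
  have hfin : (((Fintype.piFinset fun i : Fin 3 => Ico ((fun _ => -(T : ℤ)) i)
      ((fun _ => -(T : ℤ)) i + ((fun _ => 2 * T + 1 : Fin 3 → ℕ) i : ℕ))).filter
      fun z => (l' : ℤ) ∣ qv a (fun i => tl y0 i + (k1 : ℤ) * z i)).card : ℝ) ≤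
      ((4 * (q : ℝ) + 1) ^ 3 + Ce) * ((θ / k) ^ 3 * (B : ℝ) ^ 2) := by
    rw [add_mul]
    have h1 := hE2.trans herr2
    linarith
  exact hcard'.trans hfin

open scoped Classical in
private theorem ekt_fiberwise {α β : Type*} [DecidableEq β] (s : Finset α) (t : Finset β)
    (f : α → β) (hf : ∀ x ∈ s, f x ∈ t) (M : ℝ) (hM : 0 ≤ M)
    (h : ∀ b ∈ t, ((s.filter fun x => f x = b).card : ℝ) ≤ M) : (s.card : ℝ) ≤ M * t.card := by
  have h1 := Finset.card_le_mul_card_image_of_maps_to hf ⌊M⌋₊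
    (fun b hb => Nat.le_floor (h b hb))
  calc (s.card : ℝ) ≤ ((⌊M⌋₊ * t.card : ℕ) : ℝ) := by exact_mod_cast h1
    _ = (⌊M⌋₊ : ℝ) * t.card := by push_cast; rfl
    _ ≤ M * t.card := mul_le_mul_of_nonneg_right (Nat.floor_le hM) (Nat.cast_nonneg _)

open scoped Classical in
theorem ekt {a : Idx 3 → ℤ} (ha : (Hm a).det ≠ 0) (q C1 : ℕ) (hq : 1 ≤ q) (hC1 : 1 ≤ C1) :
    ∃ C : ℝ, 0 < C ∧ ∃ B0 : ℕ, ∀ B ≥ B0, ∀ (k : ℕ) (θ : ℝ), 1 ≤ k →
      (k : ℝ) ≤ (B : ℝ) ^ (1 / 20 : ℝ) → (B : ℝ) ^ (-(1 / 20) : ℝ) ≤ θ →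
      (((PR a q C1 B).filter fun p => lp q p.1 ≠ lp q p.2 ∧ gk p.1 p.2 = k ∧
        (dl p.1 p.2 : ℝ) ≤ θ * (B : ℝ) ^ 2).card : ℝ) ≤
          C * (pb B : ℝ) ^ 2 * (B : ℝ) ^ 4 * (θ / k) ^ 3 := by
  obtain ⟨C, hC, B1, hfib⟩ := ekt_fib ha q C1 hq
  obtain ⟨Cl, hCl, B2, hcl⟩ := card_l ha q C1 hq hC1
  refine ⟨C * Cl, by positivity, max (max B1 B2) 1, fun B hB k θ hk hkB hθ => ?_⟩
  have hBB1 : B1 ≤ B := ((le_max_left _ _).trans (le_max_left _ _)).trans hB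
  have hBB2 : B2 ≤ B := ((le_max_right _ _).trans (le_max_left _ _)).trans hB
  have hB1 : (1 : ℝ) ≤ B := by exact_mod_cast (le_max_right _ _).trans hB
  have hkr : (1 : ℝ) ≤ k := by exact_mod_cast hk
  have hcx : (1 : ℝ) ≤ cx a q C1 := by
    have : 1 ≤ cx a q C1 := by
      unfold cx
      omega
    exact_mod_cast this
  set θ1 : ℝ := min θ (2 * (cx a q C1 : ℝ) ^ 2) with hθ1
  have hθ1a : θ1 ≤ θ := min_le_left _ _
  have hθ1b : θ1 ≤ 2 * (cx a q C1 : ℝ) ^ 2 := min_le_right _ _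
  have hBle : (B : ℝ) ^ (-(1 / 20) : ℝ) ≤ 1 :=
    Real.rpow_le_one_of_one_le_of_nonpos hB1 (by norm_num)
  have hθ1c : (B : ℝ) ^ (-(1 / 20) : ℝ) ≤ θ1 := le_min hθ (by nlinarith)
  have hθ10 : 0 < θ1 := lt_of_lt_of_le (Real.rpow_pos_of_pos (by linarith) _) hθ1c
  -- number of points
  have hXP : ((XP a q C1 B).card : ℝ) ≤ (Cl * (B : ℝ) ^ 2) * (pb B : ℝ) := by
    apply ekt_fiberwise (XP a q C1 B) ((Ioc B (4 * B)).filter Nat.Prime) (fun x => lp q x)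
    · intro x hx
      rw [mem_XP hq] at hx
      have h1 := pt_lp hq hx
      rw [Finset.mem_filter, Finset.mem_Ioc]
      exact ⟨⟨h1.2.1, h1.2.2.1⟩, h1.1⟩
    · positivity
    · intro l _
      exact hcl B hBB2 l
  have hS : (((PR a q C1 B).filter fun p => lp q p.1 ≠ lp q p.2 ∧ gk p.1 p.2 = k ∧
        (dl p.1 p.2 : ℝ) ≤ θ * (B : ℝ) ^ 2).card : ℝ) ≤
      (C * ((θ1 / k) ^ 3 * (B : ℝ) ^ 2)) *
        ((XP a q C1 B ×ˢ (Ioc B (4 * B)).filter Nat.Prime).card : ℝ) := by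
    apply ekt_fiberwise _ _ (fun p => (p.1, lp q p.2))
    · intro p hp
      rw [Finset.mem_filter] at hp
      have hp1 := hp.1
      unfold PR at hp1
      rw [Finset.mem_filter, Finset.mem_product] at hp1
      have hy := (mem_XP hq).mp hp1.1.2
      have h1 := pt_lp hq hy
      rw [Finset.mem_product, Finset.mem_filter, Finset.mem_Ioc]
      exact ⟨hp1.1.1, ⟨h1.2.1, h1.2.2.1⟩, h1.1⟩
    · positivity
    · rintro ⟨x, l'⟩ hb
      rw [Finset.mem_product] at hb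
      have hx := (mem_XP hq).mp hb.1
      refine le_trans ?_ (hfib B hBB1 k θ1 hk hkB hθ1c hθ1b x hx l')
      have h1 : (((PR a q C1 B).filter fun p => lp q p.1 ≠ lp q p.2 ∧ gk p.1 p.2 = k ∧
          (dl p.1 p.2 : ℝ) ≤ θ * (B : ℝ) ^ 2).filter
            fun p => (p.1, lp q p.2) = (x, l')).card ≤
          ((XP a q C1 B).filter fun y => lp q y = l' ∧ gk x y = k ∧
            (dl x y : ℝ) ≤ θ1 * (B : ℝ) ^ 2).card := by
        apply Finset.card_le_card_of_injOn (fun p => p.2)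
        · rintro ⟨x', y⟩ hp
          rw [Finset.mem_coe, Finset.mem_filter, Finset.mem_filter] at hp
          obtain ⟨⟨hp1, -, hp2, hp3⟩, hp4⟩ := hp
          simp only [Prod.mk.injEq] at hp4
          obtain ⟨rfl, hp5⟩ := hp4
          unfold PR at hp1
          rw [Finset.mem_filter, Finset.mem_product] at hp1
          rw [Finset.mem_coe, Finset.mem_filter]
          refine ⟨hp1.1.2, hp5, hp2, ?_⟩
          have hy := (mem_XP hq).mp hp1.1.2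
          have h2 := dl_le' hq hx hy
          have h3 : (dl x' y : ℝ) ≤ 2 * (cx a q C1 : ℝ) ^ 2 * (B : ℝ) ^ 2 := by exact_mod_cast h2
          rw [hθ1]
          rcases le_total θ (2 * (cx a q C1 : ℝ) ^ 2) with h4 | h4
          · rw [min_eq_left h4]
            exact hp3
          · rw [min_eq_right h4]
            exact h3
        · rintro ⟨x', y⟩ hp ⟨x'', y'⟩ hp' heq
          rw [Finset.mem_coe, Finset.mem_filter] at hp hp'
          have h2 := hp.2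
          have h3 := hp'.2
          simp only [Prod.mk.injEq] at h2 h3
          dsimp only at heq
          rw [h2.1, h3.1, heq]
      exact_mod_cast h1
  rw [Finset.card_product] at hS
  have hpb : (((Ioc B (4 * B)).filter Nat.Prime).card : ℝ) = (pb B : ℝ) := rfl
  push_cast at hS
  rw [hpb] at hS
  have hcube : (θ1 / k) ^ 3 ≤ (θ / k) ^ 3 :=
    pow_le_pow_left₀ (by positivity) (div_le_div_of_nonneg_right hθ1a (by linarith)) 3
  calc _ ≤ (C * ((θ1 / k) ^ 3 * (B : ℝ) ^ 2)) * (((XP a q C1 B).card : ℝ) * (pb B : ℝ)) := hS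
    _ ≤ (C * ((θ / k) ^ 3 * (B : ℝ) ^ 2)) * (((Cl * (B : ℝ) ^ 2) * (pb B : ℝ)) * (pb B : ℝ)) := by
        have h1 : C * ((θ1 / k) ^ 3 * (B : ℝ) ^ 2) ≤ C * ((θ / k) ^ 3 * (B : ℝ) ^ 2) :=
          mul_le_mul_of_nonneg_left (mul_le_mul_of_nonneg_right hcube (by positivity)) hC.le
        have h2 : ((XP a q C1 B).card : ℝ) * (pb B : ℝ) ≤
            ((Cl * (B : ℝ) ^ 2) * (pb B : ℝ)) * (pb B : ℝ) :=
          mul_le_mul_of_nonneg_right hXP (Nat.cast_nonneg _)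
        have h3 : 0 ≤ θ := by linarith
        exact mul_le_mul h1 h2 (by positivity) (by positivity)
    _ = C * Cl * (pb B : ℝ) ^ 2 * (B : ℝ) ^ 4 * (θ / k) ^ 3 := by ring

end Pool.Agent.H7.HP
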