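import Pool.Agent.H7.HP.LocDefs
import Pool.Agent.H7.HP.Big
import Pool.Agent.H7.HP.Bxq
import Pool.Agent.H7.HP.Crt

/-!
# [H7 HP LOCB] the large primes, 80-130 lines

* `locb`: `S` = set of the `γ : Idx 5 → ZMod (Q M)` such that for `γ1 = γ mod Q`, `γ2 = γ mod M` there is `z ∈ Z0 ℤ` with `2 #{u : phi a (gw a (wz P (W γ1) z) γ2) u = 0} < M^2` (over `ZMod M`). `γ ↦ (γ1, γ2)` is bijective (`ZMod.chineseRemainder`), so `#S ≤ ∑_{γ1} ∑_{z ∈ Z0} #{γ2 : ...}`, and by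
`gw_bij` and `big` each of the last numbers is at most `8 M^15 / P0`; `#Z0 ≤ 1 + 3 + 3 + 9 = 16`. `boxq (Q M)` and `uu_one`, `gw_map`: the number of `g` of the statement is at most `2 * 16 * 8 / P0 * (2A+1)^15`.
-/

set_option autoImplicit false
set_option linter.unusedSectionVars false

namespace Pool.Agent.H7.HP

open Finset

private theorem locb_Z0 : (Z0 ℤ).card ≤ 16 := by
  unfold Z0
  refine (card_union_le _ _).trans ?_
  have h4 : (univ.image fun p : Fin 3 × Fin 3 =>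
      (Pi.single p.1 1 + Pi.single p.2 1 : Fin 3 → ℤ)).card ≤ 9 := card_image_le.trans (by simp)
  refine le_trans (add_le_add (card_union_le _ _) h4) ?_
  have h3 : (univ.image fun i : Fin 3 => (Pi.single i (-1) : Fin 3 → ℤ)).card ≤ 3 :=
    card_image_le.trans (by simp)
  have h2 : (univ.image fun i : Fin 3 => (Pi.single i 1 : Fin 3 → ℤ)).card ≤ 3 :=
    card_image_le.trans (by simp)
  have h1 := card_union_le ({0} : Finset (Fin 3 → ℤ))
    (univ.image fun i : Fin 3 => (Pi.single i 1 : Fin 3 → ℤ))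
  rw [card_singleton] at h1
  omega

private theorem locb_crt {Q M : ℕ} (h : Q.Coprime M) [NeZero (Q * M)]
    (x y : ZMod (Q * M))
    (h1 : ZMod.castHom (Dvd.intro _ rfl) (ZMod Q) x = ZMod.castHom (Dvd.intro _ rfl) (ZMod Q) y)
    (h2 : ZMod.castHom (Dvd.intro_left _ rfl) (ZMod M) x =
      ZMod.castHom (Dvd.intro_left _ rfl) (ZMod M) y) : x = y := by
  rw [← sub_eq_zero]
  have h3 : ZMod.castHom (Dvd.intro _ rfl) (ZMod Q) (x - y) = 0 := by rw [map_sub, h1, sub_self]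
  have h4 : ZMod.castHom (Dvd.intro_left _ rfl) (ZMod M) (x - y) = 0 := by
    rw [map_sub, h2, sub_self]
  rw [← ZMod.natCast_zmod_val (x - y)] at h3 h4 ⊢
  rw [map_natCast, ZMod.natCast_eq_zero_iff] at h3 h4
  rw [ZMod.natCast_eq_zero_iff]
  exact h.mul_dvd_of_dvd_of_dvd h3 h4

open scoped Classical in
theorem locb (a : Idx 3 → ℤ) (P0 P Q M : ℕ) [NeZero Q] [NeZero M] (hP : 1 ≤ P0)
    (hM : ∀ p : ℕ, p.Prime → p ∣ M → P0 < p) (hQ : ∀ p : ℕ, p.Prime → p ∣ Q → p ≤ P0)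
    (W : (Idx 5 → ZMod Q) → Fin 3 → ℤ) : ∃ A0 : ℕ, ∀ A ≥ A0,
      P0 * (((bf 5 A).filter fun g => ∃ z ∈ Z0 ℤ,
        2 * (UU a 1 M (gw a (wz P (W fun r => (g r : ZMod Q)) z) g)).card < M ^ 2).card : ℝ) ≤
          256 * (2 * A + 1) ^ 15 := by
  have hcop : Q.Coprime M := by
    apply Nat.Coprime.symm
    rw [Nat.coprime_iff_gcd_eq_one]
    by_contra hne
    obtain ⟨p, hp, hpd⟩ := Nat.exists_prime_and_dvd hne
    have h1 := hM p hp (hpd.trans (Nat.gcd_dvd_left _ _))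
    have h2 := hQ p hp (hpd.trans (Nat.gcd_dvd_right _ _))
    omega
  have hQM : NeZero (Q * M) := ⟨mul_ne_zero (NeZero.ne Q) (NeZero.ne M)⟩
  obtain ⟨b, hb⟩ : ∃ b : Idx 3 → ZMod M, b = fun r => (a r : ZMod M) := ⟨_, rfl⟩
  -- reductions
  obtain ⟨rQ, hrQ⟩ : ∃ rQ : (Idx 5 → ZMod (Q * M)) → (Idx 5 → ZMod Q),
      ∀ γ, rQ γ = fun r => ZMod.castHom (Dvd.intro _ rfl) (ZMod Q) (γ r) := ⟨_, fun _ => rfl⟩
  obtain ⟨rM, hrM⟩ : ∃ rM : (Idx 5 → ZMod (Q * M)) → (Idx 5 → ZMod M),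
      ∀ γ, rM γ = fun r => ZMod.castHom (Dvd.intro_left _ rfl) (ZMod M) (γ r) :=
    ⟨_, fun _ => rfl⟩
  obtain ⟨wb, hwb⟩ : ∃ wb : (Idx 5 → ZMod Q) → (Fin 3 → ℤ) → (Fin 3 → ZMod M),
      ∀ γ z, wb γ z = fun i => ((wz P (W γ) z i : ℤ) : ZMod M) := ⟨_, fun _ _ => rfl⟩
  set BS : Finset (Idx 5 → ZMod M) := (univ : Finset (Idx 5 → ZMod M)).filter fun g =>
      2 * ((univ : Finset (Fin 3 → ZMod M)).filter fun u => phi b g u = 0).card < M ^ 2 with hBS
  have hbig : P0 * BS.card ≤ 8 * M ^ 15 := by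
    rw [hBS, hb]
    exact big a M P0 hP hM
  set S : Finset (Idx 5 → ZMod (Q * M)) := (univ : Finset (Idx 5 → ZMod (Q * M))).filter
    fun γ => ∃ z ∈ Z0 ℤ, gw b (wb (rQ γ) z) (rM γ) ∈ BS with hS
  have hSz : ∀ z : Fin 3 → ℤ, ((univ : Finset (Idx 5 → ZMod (Q * M))).filter
      fun γ => gw b (wb (rQ γ) z) (rM γ) ∈ BS).card ≤ BS.card * Q ^ 15 := by
    intro z
    have h1 := card_le_mul_card_image_of_maps_to
      (s := (univ : Finset (Idx 5 → ZMod (Q * M))).filter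
        fun γ => gw b (wb (rQ γ) z) (rM γ) ∈ BS)
      (t := (univ : Finset (Idx 5 → ZMod Q))) (f := rQ) (fun γ _ => mem_univ _) BS.card ?_
    · refine h1.trans (le_of_eq ?_)
      congr 1
      rw [card_univ, Fintype.card_fun, ZMod.card]
      rfl
    · intro γ1 _
      apply card_le_card_of_injOn (fun γ => gw b (wb γ1 z) (rM γ))
      · intro γ hγ
        rw [mem_coe, mem_filter, mem_filter] at hγ
        have h2 := hγ.1.2
        rw [hγ.2] at h2
        exact h2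
      · intro γ hγ γ' hγ' h
        rw [mem_coe, mem_filter, mem_filter] at hγ hγ'
        have h2 : rM γ = rM γ' := (gw_bij b (wb γ1 z)).1 h
        have h3 : rQ γ = rQ γ' := hγ.2.trans hγ'.2.symm
        rw [hrM, hrM] at h2
        rw [hrQ, hrQ] at h3
        funext r
        exact locb_crt hcop _ _ (congrFun h3 r) (congrFun h2 r)
  have hScard : S.card ≤ 16 * (BS.card * Q ^ 15) := by
    have h1 : S ⊆ (Z0 ℤ).biUnion fun z => (univ : Finset (Idx 5 → ZMod (Q * M))).filter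
        fun γ => gw b (wb (rQ γ) z) (rM γ) ∈ BS := by
      intro γ hγ
      rw [hS, mem_filter] at hγ
      obtain ⟨z, hz, hz2⟩ := hγ.2
      rw [mem_biUnion]
      exact ⟨z, hz, mem_filter.mpr ⟨mem_univ _, hz2⟩⟩
    refine (card_le_card h1).trans ((card_biUnion_le_card_mul _ _ _ fun z _ => hSz z).trans ?_)
    exact Nat.mul_le_mul_right _ locb_Z0
  have hPS : P0 * S.card ≤ 128 * (Q * M) ^ 15 := by
    calc P0 * S.card ≤ P0 * (16 * (BS.card * Q ^ 15)) := Nat.mul_le_mul_left _ hScard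
      _ = 16 * Q ^ 15 * (P0 * BS.card) := by ring
      _ ≤ 16 * Q ^ 15 * (8 * M ^ 15) := Nat.mul_le_mul_left _ hbig
      _ = 128 * (Q * M) ^ 15 := by ring
  obtain ⟨A0, hA0⟩ := boxq (Q * M)
  refine ⟨A0, fun A hA => ?_⟩
  have h1 := hA0 A hA S
  have hsub : ((bf 5 A).filter fun g => ∃ z ∈ Z0 ℤ,
        2 * (UU a 1 M (gw a (wz P (W fun r => (g r : ZMod Q)) z) g)).card < M ^ 2).card ≤
      ((bf 5 A).filter fun g => (fun r => (g r : ZMod (Q * M))) ∈ S).card := by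
    apply card_le_card
    intro g hg
    rw [mem_filter] at hg ⊢
    refine ⟨hg.1, ?_⟩
    obtain ⟨z, hz, hz2⟩ := hg.2
    rw [hS, mem_filter]
    refine ⟨mem_univ _, z, hz, ?_⟩
    have e1 : rQ (fun r => (g r : ZMod (Q * M))) = fun r => (g r : ZMod Q) := by
      rw [hrQ]
      funext r
      exact map_intCast _ _
    have e2 : rM (fun r => (g r : ZMod (Q * M))) = fun r => (g r : ZMod M) := by
      rw [hrM]
      funext r
      exact map_intCast _ _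
    rw [e1, e2, hwb, hb, hBS, mem_filter]
    refine ⟨mem_univ _, ?_⟩
    rw [uu_one] at hz2
    have e3 := gw_map (Int.castRingHom (ZMod M)) a (wz P (W fun r => (g r : ZMod Q)) z) g
    simp only [eq_intCast] at e3
    rw [e3]
    rw [hb]
    exact hz2
  have hQM0 : (0 : ℝ) < ((Q * M : ℕ) : ℝ) ^ 15 := by
    have : (0 : ℝ) < ((Q * M : ℕ) : ℝ) := by exact_mod_cast Nat.pos_of_ne_zero hQM.out
    positivity
  have hsub' : (((bf 5 A).filter fun g => ∃ z ∈ Z0 ℤ,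
        2 * (UU a 1 M (gw a (wz P (W fun r => (g r : ZMod Q)) z) g)).card < M ^ 2).card : ℝ) ≤
      ((bf 5 A).filter fun g => (fun r => (g r : ZMod (Q * M))) ∈ S).card := by
    exact_mod_cast hsub
  have hPS' : (P0 : ℝ) * S.card ≤ 128 * ((Q * M : ℕ) : ℝ) ^ 15 := by exact_mod_cast hPS
  apply le_of_mul_le_mul_right _ hQM0
  calc (P0 : ℝ) * (((bf 5 A).filter fun g => ∃ z ∈ Z0 ℤ,
        2 * (UU a 1 M (gw a (wz P (W fun r => (g r : ZMod Q)) z) g)).card < M ^ 2).card : ℝ) *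
        ((Q * M : ℕ) : ℝ) ^ 15
      ≤ (P0 : ℝ) * ((bf 5 A).filter fun g => (fun r => (g r : ZMod (Q * M))) ∈ S).card *
        ((Q * M : ℕ) : ℝ) ^ 15 := by
        apply mul_le_mul_of_nonneg_right _ hQM0.le
        exact mul_le_mul_of_nonneg_left hsub' (Nat.cast_nonneg _)
    _ = (P0 : ℝ) * (((bf 5 A).filter fun g => (fun r => (g r : ZMod (Q * M))) ∈ S).card *
        ((Q * M : ℕ) : ℝ) ^ 15) := by ring
    _ ≤ (P0 : ℝ) * (2 * S.card * (2 * A + 1) ^ 15) :=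
        mul_le_mul_of_nonneg_left h1 (Nat.cast_nonneg _)
    _ = 2 * (2 * (A : ℝ) + 1) ^ 15 * (P0 * S.card) := by ring
    _ ≤ 2 * (2 * (A : ℝ) + 1) ^ 15 * (128 * ((Q * M : ℕ) : ℝ) ^ 15) :=
        mul_le_mul_of_nonneg_left hPS' (by positivity)
    _ = 256 * (2 * (A : ℝ) + 1) ^ 15 * ((Q * M : ℕ) : ℝ) ^ 15 := by ring

end Pool.Agent.H7.HP
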