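import Pool.Agent.H7.HP.CoreDefs

set_option autoImplicit false
set_option linter.unusedSectionVars false

/-!
# [H7 HP TAY] Taylor estimates for phi, 70-120 lines

`X(t) = mk5 (h t) 1 t`, `X(t + v) = X(t) + V`, `V = mk5 (pl a t v + h v) 0 v`. `qv_add`: `phi (t + v) = phi t + pl g X V + qv g V`, and
`V = ∑ v_i (∂_i X) + mk5 (h v) 0 0`, so `phi (t + v) - phi t - ∑ v_i dphi_i = pl g X (mk5 (h v) 0 0) + qv g V`, all terms at most `C A |v|^2` (`abs_qv_le`, `abs_pl_le`; `|v| ≤ 1`, `|t| ≤ K0`).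
Similarly for `dphi`: `dphi (t + v) i - dphi t i = pl g V (∂_i X(t + v)) + pl g X (mk5 (pl a v e_i) 0 0)`.
`phi_scale`: `x = x1 (h(t), 1, t)` with `t = u / x1` for a zero `x = (x0, x1, u)` of `ff a`, `x1 ≠ 0`.
-/

namespace Pool.Agent.H7.HP

open Finset

private theorem mk5_0 {S : Type*} (x0 x1 : S) (u : Fin 3 → S) : mk5 x0 x1 u 0 = x0 := rfl
private theorem mk5_1 {S : Type*} (x0 x1 : S) (u : Fin 3 → S) : mk5 x0 x1 u 1 = x1 := rfl
private theorem mk5_2 {S : Type*} (x0 x1 : S) (u : Fin 3 → S) : mk5 x0 x1 u 2 = u 0 := rfl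
private theorem mk5_3 {S : Type*} (x0 x1 : S) (u : Fin 3 → S) : mk5 x0 x1 u 3 = u 1 := rfl
private theorem mk5_4 {S : Type*} (x0 x1 : S) (u : Fin 3 → S) : mk5 x0 x1 u 4 = u 2 := rfl

private theorem ext5 {S : Type*} {x y : Fin 5 → S} (h0 : x 0 = y 0) (h1 : x 1 = y 1)
    (h2 : x 2 = y 2) (h3 : x 3 = y 3) (h4 : x 4 = y 4) : x = y := by
  funext i
  fin_cases i
  exacts [h0, h1, h2, h3, h4]

private theorem all5 {P : Fin 5 → Prop} (h0 : P 0) (h1 : P 1) (h2 : P 2) (h3 : P 3) (h4 : P 4) :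
    ∀ i, P i := by
  intro i
  fin_cases i
  exacts [h0, h1, h2, h3, h4]

/-- the unit vectors -/
private def ev (i : Fin 3) : Fin 3 → ℝ := Pi.single i 1

private theorem ev_le (i j : Fin 3) : |ev i j| ≤ 1 := by
  unfold ev
  by_cases h : j = i
  · rw [h, Pi.single_eq_same, abs_one]
  · rw [Pi.single_eq_of_ne h, abs_zero]
    exact zero_le_one

private theorem pl_ev (a : Idx 3 → ℝ) (t v : Fin 3 → ℝ) :
    pl a t v = v 0 * pl a t (ev 0) + v 1 * pl a t (ev 1) + v 2 * pl a t (ev 2) := by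
  have h1 : v = fun i => (v 0 * ev 0 i + v 1 * ev 1 i) + v 2 * ev 2 i := by
    funext i
    unfold ev
    fin_cases i <;> simp
  conv_lhs => rw [h1]
  rw [pl_add a t (fun i => v 0 * ev 0 i + v 1 * ev 1 i) (fun i => v 2 * ev 2 i),
    pl_add a t (fun i => v 0 * ev 0 i) (fun i => v 1 * ev 1 i),
    pl_smul, pl_smul, pl_smul]

/-- the derivative vectors -/
private def Dv (a : Idx 3 → ℝ) (t : Fin 3 → ℝ) (i : Fin 3) : Fin 5 → ℝ :=
  mk5 (pl a t (ev i)) 0 (ev i)

private theorem dphi_eq (a : Idx 3 → ℝ) (g : Idx 5 → ℝ) (t : Fin 3 → ℝ) (i : Fin 3) :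
    dphi a g t i = pl g (mk5 (qv a t) 1 t) (Dv a t i) := rfl

private theorem X_add (a : Idx 3 → ℝ) (t v : Fin 3 → ℝ) :
    mk5 (qv a fun i => t i + v i) 1 (fun i => t i + v i) =
      fun i => mk5 (qv a t) 1 t i + mk5 (pl a t v + qv a v) 0 v i := by
  apply ext5
  · simp only [mk5_0, qv_add]
    ring
  · simp only [mk5_1, add_zero]
  · simp only [mk5_2]
  · simp only [mk5_3]
  · simp only [mk5_4]

private theorem V_eq (a : Idx 3 → ℝ) (t v : Fin 3 → ℝ) :
    mk5 (pl a t v + qv a v) 0 v = fun i => ((v 0 * Dv a t 0 i + v 1 * Dv a t 1 i) +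
      v 2 * Dv a t 2 i) + mk5 (qv a v) 0 (fun _ => 0) i := by
  have h := pl_ev a t v
  apply ext5
  · simp only [mk5_0, Dv]
    rw [h]
  · simp [mk5_1, Dv]
  · simp [mk5_2, Dv, ev]
  · simp [mk5_3, Dv, ev]
  · simp [mk5_4, Dv, ev]

private theorem pl_V (a : Idx 3 → ℝ) (g : Idx 5 → ℝ) (t v : Fin 3 → ℝ) (X : Fin 5 → ℝ) :
    pl g X (mk5 (pl a t v + qv a v) 0 v) = v 0 * pl g X (Dv a t 0) + v 1 * pl g X (Dv a t 1) +
      v 2 * pl g X (Dv a t 2) + pl g X (mk5 (qv a v) 0 (fun _ => 0)) := by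
  rw [V_eq, pl_add g X (fun i => (v 0 * Dv a t 0 i + v 1 * Dv a t 1 i) + v 2 * Dv a t 2 i)
      (mk5 (qv a v) 0 (fun _ => 0)),
    pl_add g X (fun i => v 0 * Dv a t 0 i + v 1 * Dv a t 1 i) (fun i => v 2 * Dv a t 2 i),
    pl_add g X (fun i => v 0 * Dv a t 0 i) (fun i => v 1 * Dv a t 1 i),
    pl_smul, pl_smul, pl_smul]

private theorem Dv_add (a : Idx 3 → ℝ) (t v : Fin 3 → ℝ) (i : Fin 3) :
    Dv a (fun i => t i + v i) i = fun k => Dv a t i k + mk5 (pl a v (ev i)) 0 (fun _ => 0) k := by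
  apply ext5
  · simp only [mk5_0, Dv]
    rw [pl_comm, pl_add, pl_comm a _ t, pl_comm a _ v]
  · simp [mk5_1, Dv]
  · simp [mk5_2, Dv]
  · simp [mk5_3, Dv]
  · simp [mk5_4, Dv]

theorem tay (a : Idx 3 → ℝ) (K0 : ℝ) (hK : 0 ≤ K0) : ∃ C : ℝ, 0 < C ∧
    ∀ (g : Idx 5 → ℝ) (A : ℝ), 0 ≤ A → (∀ p, |g p| ≤ A) → ∀ (t v : Fin 3 → ℝ) (r : ℝ),
      (∀ i, |t i| ≤ K0) → (∀ i, |v i| ≤ r) → r ≤ 1 →
      |phi a g (fun i => t i + v i) - phi a g t - ∑ i, v i * dphi a g t i| ≤ C * A * r ^ 2 ∧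
      (∀ i, |dphi a g (fun i => t i + v i) i - dphi a g t i| ≤ C * A * r) ∧
      (∀ i, |dphi a g t i| ≤ C * A) ∧
      |phi a g (fun i => t i + v i) - phi a g t| ≤ C * A * r := by
  obtain ⟨s, hs⟩ : ∃ s : ℝ, s = ∑ p, |a p| := ⟨_, rfl⟩
  have hs0 : 0 ≤ s := by
    rw [hs]
    positivity
  obtain ⟨U, hU⟩ : ∃ U : ℝ, U = s * K0 ^ 2 + 1 + K0 := ⟨_, rfl⟩
  obtain ⟨W, hW⟩ : ∃ W : ℝ, W = 2 * s * K0 + s + 1 := ⟨_, rfl⟩
  obtain ⟨D, hD⟩ : ∃ D : ℝ, D = 2 * s * (K0 + 1) + 1 := ⟨_, rfl⟩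
  have hU1 : 1 ≤ U := by
    rw [hU]
    nlinarith [mul_nonneg hs0 (sq_nonneg K0)]
  have hW1 : 1 ≤ W := by
    rw [hW]
    nlinarith [mul_nonneg hs0 hK]
  have hD1 : 1 ≤ D := by
    rw [hD]
    nlinarith [mul_nonneg hs0 hK]
  refine ⟨90 * U * D + 60 * U * s + 15 * W ^ 2 + 30 * W * D, by positivity, ?_⟩
  intro g A hA hg t v r ht hv hr
  have hr0 : 0 ≤ r := (abs_nonneg _).trans (hv 0)
  have hG : ∑ p, |g p| ≤ 15 * A := by
    calc ∑ p, |g p| ≤ ∑ p : Idx 5, A := sum_le_sum fun p _ => hg p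
      _ = 15 * A := by
        rw [sum_const, card_univ, card_Idx5, nsmul_eq_mul]
        norm_num
  have hG0 : 0 ≤ ∑ p, |g p| := by positivity
  have hX : ∀ i, |mk5 (qv a t) 1 t i| ≤ U := by
    have h1 := abs_qv_le a t ht
    rw [← hs] at h1
    have h2 : 0 ≤ s * K0 ^ 2 := by positivity
    apply all5
    · rw [mk5_0]
      linarith
    · rw [mk5_1, abs_one]
      exact hU1
    · rw [mk5_2]
      linarith [ht 0]
    · rw [mk5_3]
      linarith [ht 1]
    · rw [mk5_4]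
      linarith [ht 2]
  have hV : ∀ i, |mk5 (pl a t v + qv a v) 0 v i| ≤ W * r := by
    have h1 := abs_qv_le a v hv
    have h2 := abs_pl_le a t v ht hv
    rw [← hs] at h1 h2
    have h3 : s * r ^ 2 ≤ s * r := by
      have : r ^ 2 ≤ r := by nlinarith
      gcongr
    have h4 : r ≤ W * r := le_mul_of_one_le_left hr0 hW1
    apply all5
    · rw [mk5_0]
      refine (abs_add_le _ _).trans ?_
      rw [hW]
      nlinarith
    · rw [mk5_1, abs_zero]
      positivity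
    · rw [mk5_2]
      exact (hv 0).trans h4
    · rw [mk5_3]
      exact (hv 1).trans h4
    · rw [mk5_4]
      exact (hv 2).trans h4
  have hDt : ∀ t' : Fin 3 → ℝ, (∀ i, |t' i| ≤ K0 + 1) → ∀ i k, |Dv a t' i k| ≤ D := by
    intro t' ht' i
    have h1 := abs_pl_le a t' (ev i) ht' (ev_le i)
    rw [← hs, mul_one] at h1
    apply all5
    · simp only [Dv, mk5_0]
      linarith
    · simp only [Dv, mk5_1, abs_zero]
      linarith
    · simp only [Dv, mk5_2]
      exact (ev_le i 0).trans hD1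
    · simp only [Dv, mk5_3]
      exact (ev_le i 1).trans hD1
    · simp only [Dv, mk5_4]
      exact (ev_le i 2).trans hD1
  have ht1 : ∀ i, |t i| ≤ K0 + 1 := fun i => (ht i).trans (by linarith)
  have htv : ∀ i, |t i + v i| ≤ K0 + 1 := fun i =>
    (abs_add_le _ _).trans (add_le_add (ht i) ((hv i).trans hr))
  have hZ : ∀ x : ℝ, ∀ i, |mk5 x 0 (fun _ => 0) i| ≤ |x| := by
    intro x
    apply all5
    · rw [mk5_0]
    · rw [mk5_1, abs_zero]
      exact abs_nonneg _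
    · rw [mk5_2, abs_zero]
      exact abs_nonneg _
    · rw [mk5_3, abs_zero]
      exact abs_nonneg _
    · rw [mk5_4, abs_zero]
      exact abs_nonneg _
  have hpl : ∀ (x y : Fin 5 → ℝ) (P Q : ℝ), (∀ i, |x i| ≤ P) → (∀ i, |y i| ≤ Q) →
      |pl g x y| ≤ 30 * A * (P * Q) := by
    intro x y P Q hx hy
    have hP0 : 0 ≤ P := (abs_nonneg _).trans (hx 0)
    have hQ0 : 0 ≤ Q := (abs_nonneg _).trans (hy 0)
    have h1 := abs_pl_le g x y hx hy
    have h2 : (∑ p, |g p|) * (P * Q) ≤ 15 * A * (P * Q) := by gcongr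
    linarith
  -- first estimate
  have hexp : phi a g (fun i => t i + v i) - phi a g t - ∑ i, v i * dphi a g t i =
      pl g (mk5 (qv a t) 1 t) (mk5 (qv a v) 0 (fun _ => 0)) +
        qv g (mk5 (pl a t v + qv a v) 0 v) := by
    rw [Fin.sum_univ_three, dphi_eq, dphi_eq, dphi_eq]
    unfold phi
    rw [X_add, qv_add, pl_V]
    ring
  have hqa := abs_qv_le a v hv
  rw [← hs] at hqa
  have b1 : |phi a g (fun i => t i + v i) - phi a g t - ∑ i, v i * dphi a g t i| ≤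
      (30 * U * s + 15 * W ^ 2) * A * r ^ 2 := by
    rw [hexp]
    refine (abs_add_le _ _).trans ?_
    have h1 := hpl _ _ U (s * r ^ 2) hX (fun i => (hZ _ i).trans hqa)
    have h2 := abs_qv_le g _ hV
    have h3 : (∑ p, |g p|) * (W * r) ^ 2 ≤ 15 * A * (W * r) ^ 2 := by gcongr
    calc _ ≤ 30 * A * (U * (s * r ^ 2)) + 15 * A * (W * r) ^ 2 := by linarith
      _ = _ := by ring
  have b3 : ∀ i, |dphi a g t i| ≤ 30 * U * D * A := by
    intro i
    rw [dphi_eq]
    have h1 := hpl _ _ U D hX (hDt t ht1 i)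
    calc _ ≤ _ := h1
      _ = _ := by ring
  have hUD : 0 ≤ U * D := by positivity
  have hUs : 0 ≤ U * s := by positivity
  have hW2 : 0 ≤ W ^ 2 := by positivity
  have hWD : 0 ≤ W * D := by positivity
  have hAr : 0 ≤ A * r := by positivity
  have hr2 : r ^ 2 ≤ r := by nlinarith
  refine ⟨?_, ?_, ?_, ?_⟩
  · refine b1.trans ?_
    have h1 : 30 * U * s + 15 * W ^ 2 ≤ 90 * U * D + 60 * U * s + 15 * W ^ 2 + 30 * W * D := by
      nlinarith
    gcongr
  · intro i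
    have h1 : dphi a g (fun i => t i + v i) i - dphi a g t i =
        pl g (mk5 (pl a t v + qv a v) 0 v) (Dv a (fun i => t i + v i) i) +
        pl g (mk5 (qv a t) 1 t) (mk5 (pl a v (ev i)) 0 (fun _ => 0)) := by
      rw [dphi_eq, dphi_eq, X_add, pl_comm, pl_add, pl_comm g _ (mk5 (qv a t) 1 t),
        pl_comm g _ (mk5 (pl a t v + qv a v) 0 v)]
      have h2 : pl g (mk5 (qv a t) 1 t) (Dv a (fun i => t i + v i) i) =
          pl g (mk5 (qv a t) 1 t) (Dv a t i) +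
          pl g (mk5 (qv a t) 1 t) (mk5 (pl a v (ev i)) 0 (fun _ => 0)) := by
        rw [Dv_add, pl_add]
      rw [h2]
      ring
    rw [h1]
    refine (abs_add_le _ _).trans ?_
    have h2 := hpl _ _ (W * r) D hV (hDt (fun i => t i + v i) htv i)
    have h3 := abs_pl_le a v (ev i) hv (ev_le i)
    rw [← hs, mul_one] at h3
    have h4 := hpl _ _ U (2 * s * r) hX (fun k => (hZ _ k).trans h3)
    calc _ ≤ 30 * A * (W * r * D) + 30 * A * (U * (2 * s * r)) := add_le_add h2 h4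
      _ = (60 * (U * s) + 30 * (W * D)) * (A * r) := by ring
      _ ≤ (90 * (U * D) + 60 * (U * s) + 15 * W ^ 2 + 30 * (W * D)) * (A * r) :=
        mul_le_mul_of_nonneg_right (by linarith) hAr
      _ = _ := by ring
  · intro i
    refine (b3 i).trans ?_
    have h1 : 30 * U * D ≤ 90 * U * D + 60 * U * s + 15 * W ^ 2 + 30 * W * D := by nlinarith
    gcongr
  · have h1 : |∑ i, v i * dphi a g t i| ≤ 3 * (r * (30 * U * D * A)) := by
      refine (abs_sum_le_sum_abs _ _).trans ?_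
      calc ∑ i, |v i * dphi a g t i| ≤ ∑ i : Fin 3, r * (30 * U * D * A) := by
            refine sum_le_sum fun i _ => ?_
            rw [abs_mul]
            exact mul_le_mul (hv i) (b3 i) (abs_nonneg _) hr0
        _ = _ := by
            rw [sum_const, card_univ, Fintype.card_fin, nsmul_eq_mul]
            norm_num
    have h2 := abs_add_le (phi a g (fun i => t i + v i) - phi a g t -
      ∑ i, v i * dphi a g t i) (∑ i, v i * dphi a g t i)
    rw [sub_add_cancel] at h2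
    have h3 : (30 * U * s + 15 * W ^ 2) * A * r ^ 2 ≤ (30 * (U * s) + 15 * W ^ 2) * (A * r) := by
      calc (30 * U * s + 15 * W ^ 2) * A * r ^ 2 ≤ (30 * U * s + 15 * W ^ 2) * A * r := by gcongr
        _ = _ := by ring
    calc _ ≤ _ := h2
      _ ≤ (30 * (U * s) + 15 * W ^ 2) * (A * r) + 3 * (r * (30 * U * D * A)) :=
        add_le_add (b1.trans h3) h1
      _ = (90 * (U * D) + 30 * (U * s) + 15 * W ^ 2) * (A * r) := by ring
      _ ≤ (90 * (U * D) + 60 * (U * s) + 15 * W ^ 2 + 30 * (W * D)) * (A * r) :=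
        mul_le_mul_of_nonneg_right (by linarith) hAr
      _ = _ := by ring

theorem phi_cont (a : Idx 3 → ℝ) (g : Idx 5 → ℝ) : Continuous (phi a g) := by
  have h1 : Continuous (fun t : Fin 3 → ℝ => qv a t) := by
    unfold qv
    fun_prop
  have h2 : ∀ k : Fin 5, Continuous (fun t : Fin 3 → ℝ => mk5 (qv a t) 1 t k) := by
    apply all5
    · simp only [mk5_0]
      exact h1
    · simp only [mk5_1]
      exact continuous_const
    · simp only [mk5_2]
      exact continuous_apply 0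
    · simp only [mk5_3]
      exact continuous_apply 1
    · simp only [mk5_4]
      exact continuous_apply 2
  unfold phi
  have h3 : Continuous (fun t : Fin 3 → ℝ => mk5 (qv a t) 1 t) := continuous_pi h2
  have h4 : Continuous (fun x : Fin 5 → ℝ => qv g x) := by
    unfold qv
    fun_prop
  exact h4.comp h3

theorem phi_scale {F : Type*} [Field F] (a : Idx 3 → F) (g : Idx 5 → F) (x : Fin 5 → F)
    (h1 : x 1 ≠ 0) (h0 : ff a x = 0) : qv g x = x 1 ^ 2 * phi a g (fun i => tl x i / x 1) := by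
  have e1 : qv a (fun i => tl x i / x 1) = x 0 / x 1 := by
    have h2 : (fun i => tl x i / x 1) = fun i => (x 1)⁻¹ * tl x i := by
      funext i
      field_simp
    rw [h2, qv_smul]
    unfold ff at h0
    rw [← sub_eq_zero.1 h0]
    field_simp
  unfold phi
  rw [← qv_smul, e1]
  congr 1
  apply ext5
  · rw [mk5_0]
    field_simp
  · rw [mk5_1, mul_one]
  · rw [mk5_2]
    simp only [tl]
    field_simp
    rfl
  · rw [mk5_3]
    simp only [tl]
    field_simp
    rfl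
  · rw [mk5_4]
    simp only [tl]
    field_simp
    rfl

end Pool.Agent.H7.HP
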