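import Pool.Agent.H7.HP.LocDefs
import Pool.Agent.H7.HP.Chz
import Pool.Agent.H7.HP.Tay

set_option autoImplicit false
set_option linter.unusedSectionVars false

/-!
# [H7 HP LOCR] the real place, 50-80 lines

* `locr`: `z` of `z0_real` for the real zero `x`: `c |x_k| ≤ |lam0 w x|`, `w = wz P w0 z`; `y = gam a w x` (over `ℝ`, `gw_map`): `ff y = 0`, `qv (gw a w g) y = 0`, `y 1 = lam0 w x ≠ 0`, `t = tl y / y 1`, `phi = 0` (`phi_scale`), `|tl y i| ≤ |tl x i| + |w i| |x 1| ≤ (1 + |w|) max |x_k| ≤ ((1 + |w|)/c) |y 1|`.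
-/

namespace Pool.Agent.H7.HP

open Finset

private theorem locr_tl (x : Fin 5 → ℝ) (i : Fin 3) : ∃ k, tl x i = x k := by
  fin_cases i
  · exact ⟨2, rfl⟩
  · exact ⟨3, rfl⟩
  · exact ⟨4, rfl⟩

theorem locr {a : Idx 3 → ℤ} (ha : (Hm a).det ≠ 0) (w0 : Fin 3 → ℤ) (P : ℕ) (hP : 0 < P) :
    ∃ C0 : ℕ, ∀ g : Idx 5 → ℤ, (∃ x : Fin 5 → ℝ, x ≠ 0 ∧ ff (fun p => (a p : ℝ)) x = 0 ∧
      qv (fun p => (g p : ℝ)) x = 0) → ∃ z ∈ Z0 ℤ, ∃ t : Fin 3 → ℝ, (∀ i, |t i| ≤ C0) ∧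
        phi (fun p => (a p : ℝ)) (fun p => ((gw a (wz P w0 z) g p : ℤ) : ℝ)) t = 0 := by
  obtain ⟨c, hc, hz⟩ := z0_real ha w0 P hP
  obtain ⟨W, hW⟩ : ∃ W : ℝ, W = ∑ z ∈ Z0 ℤ, ∑ i, |((wz P w0 z i : ℤ) : ℝ)| := ⟨_, rfl⟩
  have hWz : ∀ z ∈ Z0 ℤ, ∀ i, |((wz P w0 z i : ℤ) : ℝ)| ≤ W := by
    intro z hz i
    rw [hW]
    refine le_trans ?_ (Finset.single_le_sum (f := fun z => ∑ i, |((wz P w0 z i : ℤ) : ℝ)|)
      (fun z _ => Finset.sum_nonneg fun i _ => abs_nonneg _) hz)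
    exact Finset.single_le_sum (f := fun i => |((wz P w0 z i : ℤ) : ℝ)|)
      (fun i _ => abs_nonneg _) (Finset.mem_univ i)
  refine ⟨⌈(1 + W) / c⌉₊, ?_⟩
  rintro g ⟨x, hx0, hfx, hgx⟩
  obtain ⟨z, hzZ, hk⟩ := hz x
  refine ⟨z, hzZ, ?_⟩
  obtain ⟨w, hw⟩ : ∃ w : Fin 3 → ℝ, w = fun i => ((wz P w0 z i : ℤ) : ℝ) := ⟨_, rfl⟩
  have hk' : ∀ k, c * |x k| ≤ |lam0 (fun p => (a p : ℝ)) w x| := by
    rw [hw]
    exact hk
  obtain ⟨lam, hlam⟩ : ∃ lam, lam = lam0 (fun p => (a p : ℝ)) w x := ⟨_, rfl⟩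
  rw [← hlam] at hk'
  have hlam0 : lam ≠ 0 := by
    intro h0
    apply hx0
    funext k
    have h1 := hk' k
    rw [h0, abs_zero] at h1
    have h2 : |x k| ≤ 0 := by
      by_contra h3
      push Not at h3
      have := mul_pos hc h3
      linarith
    exact abs_eq_zero.1 (le_antisymm h2 (abs_nonneg _))
  have hy1 : gam (fun p => (a p : ℝ)) w x 1 = lam := by
    rw [hlam]
    rfl
  have htl : tl (gam (fun p => (a p : ℝ)) w x) = fun i => tl x i - w i * x 1 := by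
    unfold gam
    rw [tl_mk5]
  have hgw : (fun p => ((gw a (wz P w0 z) g p : ℤ) : ℝ)) =
      gw (fun p => (a p : ℝ)) w (fun p => (g p : ℝ)) := by
    rw [hw]
    exact (gw_map (Int.castRingHom ℝ) a (wz P w0 z) g).symm
  refine ⟨fun i => tl (gam (fun p => (a p : ℝ)) w x) i / gam (fun p => (a p : ℝ)) w x 1, ?_, ?_⟩
  · intro i
    rw [hy1, htl, abs_div]
    refine le_trans ?_ (Nat.le_ceil _)
    rw [div_le_div_iff₀ (abs_pos.2 hlam0) hc]
    obtain ⟨k, hk2⟩ := locr_tl x i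
    have h1 := hk' k
    have h2 := hk' 1
    have h3 : |w i| ≤ W := by
      rw [hw]
      exact hWz z hzZ i
    have h4 : |tl x i - w i * x 1| ≤ |x k| + W * |x 1| := by
      rw [hk2]
      refine (abs_sub _ _).trans ?_
      rw [abs_mul]
      have := mul_le_mul_of_nonneg_right h3 (abs_nonneg (x 1))
      linarith
    have h5 : 0 ≤ W := (abs_nonneg _).trans h3
    calc |tl x i - w i * x 1| * c ≤ (|x k| + W * |x 1|) * c :=
          mul_le_mul_of_nonneg_right h4 hc.le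
      _ = c * |x k| + W * (c * |x 1|) := by ring
      _ ≤ |lam| + W * |lam| := add_le_add h1 (mul_le_mul_of_nonneg_left h2 h5)
      _ = (1 + W) * |lam| := by ring
  · have h1 := phi_scale (fun p => (a p : ℝ)) (gw (fun p => (a p : ℝ)) w (fun p => (g p : ℝ)))
      (gam (fun p => (a p : ℝ)) w x) (by rw [hy1]; exact hlam0) (by rw [ff_gam]; exact hfx)
    rw [qv_gw, hgx] at h1
    rw [hgw]
    rcases mul_eq_zero.1 h1.symm with h2 | h2
    · rw [hy1] at h2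
      exact absurd (pow_eq_zero_iff (by norm_num) |>.1 h2) hlam0
    · exact h2

end Pool.Agent.H7.HP
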