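import Pool.Agent.H7.HP.Loca
import Pool.Agent.H7.HP.Locr
import Pool.Agent.H7.HP.Locb
import Pool.Agent.H7.HP.Degp
import Pool.Agent.H7.HP.Degr

set_option autoImplicit false
set_option linter.unusedSectionVars false

/-!
# [H7 HP LOC] the local part, 150-230 lines

PROOF. `P0 ≥ 1024/δ` (natural), `P = PP a P0`, `W = Wst a P0` (finite), `D = dd a`.
(1) `s`: for `p ∈ Pr P0`, `w ∈ W`, `v ≤ padicValNat p D ≤ D`: the `g ∈ bf 5 A` with `¬ NonDeg a (gw a w g) p s v`: `g mod p^s` lies in the preimage under the bijection `gw a w` of `(ZMod (p^s))^15` (`gw_bij`, `gw_map`) of the set of `deg_p`, of size `≤ p^(14 s + 13 v)`; by `boxq (p^s)` there are at most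
`2 p^(13 v - s) (2A+1)^15` of them for `A` large. Choose `s` with `∑_p ∑_w ∑_v 2 p^(13 v - s) ≤ δ/4` (`p^(-s) ≤ 2^(-s)`).
(2) `Q, c1'` of `loca`. For every class `γ : Idx 5 → ZMod Q` choose, if there is a `gs` in the class with the two hypotheses of `loca`, such a `gs` and its `w0, q`: functions `W0 γ`, `q γ`. `C0` = the maximum of the `C0` of `locr` for `P` and all `w0 ∈ [0,P)^3`.
(3) real: `w ∈ W`, `Cw` of `gw_bd`: the `g ∈ bf 5 A` such that `gw a w g ∈ bf 5 (Cw A)` is in the set of `deg_r` (for `C0`, `η'`, `Cw A`): at most `C η' (2 Cw A + 1)^15 ≤ C η' (3 Cw)^15 (2A+1)^15` (`gw` is injective). Choose `η'` so that the sum over `w ∈ W` is `≤ (δ/4)(2A+1)^15`; `η = η'` (`η' Cw A ≥ η A`).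
(4) `N1 = max P0 D`-ish (so that `N ≥ P0`), `N! = M1 M2`, `M1` = the part with primes `≤ P0`, `M2` the rest. `locb` with `W := W0`, `M = M2`: at most `256/P0 (2A+1)^15 ≤ (δ/4)(2A+1)^15`.
(5) Let `g ∈ bf 5 A` with `LocSol a g`, outside the three exceptional sets. By (1) and `LocSol` the class of `g` modulo `Q` contains a `gs` as in (2) (`g` itself); `w0 = W0 γ`, `q = q γ`. `locr`: `z ∈ Z0`, `t`; `w = wz P w0 z ∈ W`. `phi (gw a w g) t = 0` and (3) give `i` with `|dphi| ≥ η Cw A ≥ η A`.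
`loca`: `c1' M1^2 ≤ #UU a q M1 (gw a w g)`; (4): `M2^2 ≤ 2 #UU a 1 M2 (gw a w g)`; `uu_mul` (`q1 = q`, `q2 = 1`; `M1 q` and `M2` coprime): `c1 (N!)^2 ≤ #UU a q N! (gw a w g)`, `c1 = c1'/2`.
-/

namespace Pool.Agent.H7.HP

open Finset

/-- The part of `n` with the primes up to `P0` and the rest. -/
private theorem loc_split (P0 : ℕ) (n : ℕ) : n ≠ 0 → ∃ M1 M2 : ℕ, n = M1 * M2 ∧ 0 < M1 ∧ 0 < M2 ∧
    (∀ p : ℕ, p.Prime → p ∣ M1 → p ≤ P0) ∧ ∀ p : ℕ, p.Prime → p ∣ M2 → P0 < p := by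
  induction n using induction_on_primes with
  | zero => exact fun h => absurd rfl h
  | one =>
    intro _
    refine ⟨1, 1, rfl, one_pos, one_pos, ?_, ?_⟩
    · intro p hp h
      exact absurd (Nat.dvd_one.mp h) hp.one_lt.ne'
    · intro p hp h
      exact absurd (Nat.dvd_one.mp h) hp.one_lt.ne'
  | prime_mul l m hl ih =>
    intro h
    obtain ⟨M1, M2, hm, h1, h2, h3, h4⟩ := ih (right_ne_zero_of_mul h)
    rcases Nat.lt_or_ge P0 l with hlt | hge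
    · refine ⟨M1, l * M2, by rw [hm]; ring, h1, Nat.mul_pos hl.pos h2, h3, ?_⟩
      intro p hp hd
      rcases (Nat.Prime.dvd_mul hp).mp hd with hd | hd
      · rwa [(Nat.prime_dvd_prime_iff_eq hp hl).mp hd]
      · exact h4 p hp hd
    · refine ⟨l * M1, M2, by rw [hm]; ring, Nat.mul_pos hl.pos h1, h2, ?_, h4⟩
      intro p hp hd
      rcases (Nat.Prime.dvd_mul hp).mp hd with hd | hd
      · rwa [(Nat.prime_dvd_prime_iff_eq hp hl).mp hd]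
      · exact h3 p hp hd

open scoped Classical in
/-- Finite unions of sets of small density. -/
private theorem loc_union {ι : Type*} (T : Finset ι) (F : ι → ℕ → (Idx 5 → ℤ) → Prop) (c : ι → ℝ)
    (h : ∀ i ∈ T, ∃ A0 : ℕ, ∀ A ≥ A0, (((bf 5 A).filter fun g => F i A g).card : ℝ) ≤
      c i * (2 * A + 1) ^ 15) :
    ∃ A0 : ℕ, ∀ A ≥ A0, (((bf 5 A).filter fun g => ∃ i ∈ T, F i A g).card : ℝ) ≤
      (∑ i ∈ T, c i) * (2 * A + 1) ^ 15 := by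
  induction T using Finset.induction_on with
  | empty =>
    refine ⟨0, fun A _ => ?_⟩
    simp
  | insert j T hj ih =>
    obtain ⟨A1, h1⟩ := h j (Finset.mem_insert_self j T)
    obtain ⟨A2, h2⟩ := ih fun i hi => h i (Finset.mem_insert_of_mem hi)
    refine ⟨max A1 A2, fun A hA => ?_⟩
    have e1 := h1 A (le_trans (le_max_left _ _) hA)
    have e2 := h2 A (le_trans (le_max_right _ _) hA)
    rw [Finset.sum_insert hj, add_mul]
    have hsub : ((bf 5 A).filter fun g => ∃ i ∈ insert j T, F i A g) ⊆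
        ((bf 5 A).filter fun g => F j A g) ∪ ((bf 5 A).filter fun g => ∃ i ∈ T, F i A g) := by
      intro g hg
      rw [Finset.mem_filter] at hg
      obtain ⟨hg1, i, hi, hF⟩ := hg
      rw [Finset.mem_union, Finset.mem_filter, Finset.mem_filter]
      rcases Finset.mem_insert.mp hi with h3 | h3
      · left
        rw [h3] at hF
        exact ⟨hg1, hF⟩
      · exact Or.inr ⟨hg1, i, h3, hF⟩
    have e3 := (Finset.card_le_card hsub).trans (Finset.card_union_le _ _)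
    have e4 : (((bf 5 A).filter fun g => ∃ i ∈ insert j T, F i A g).card : ℝ) ≤
        (((bf 5 A).filter fun g => F j A g).card : ℝ) +
          (((bf 5 A).filter fun g => ∃ i ∈ T, F i A g).card : ℝ) := by exact_mod_cast e3
    linarith

/-- The negation of `NonDeg`. -/
private def DegP (a : Idx 3 → ℤ) (g : Idx 5 → ℤ) (p s v : ℕ) : Prop := ¬ NonDeg a g p s v

open scoped Classical in
/-- One prime, one chart, one exponent. -/
private theorem loc_one (a : Idx 3 → ℤ) (w : Fin 3 → ℤ) (p : ℕ) (hp : p.Prime) (v s : ℕ)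
    (hs : 0 < s) : ∃ A0 : ℕ, ∀ A ≥ A0,
      (((bf 5 A).filter fun g => DegP a (gw a w g) p s v).card : ℝ) ≤
        (2 * (p : ℝ) ^ (13 * v) / 2 ^ s) * (2 * A + 1) ^ 15 := by
  have hf : Fact p.Prime := ⟨hp⟩
  have hne : NeZero (p ^ s) := ⟨pow_ne_zero _ hp.ne_zero⟩
  obtain ⟨A0, hA0⟩ := boxq (p ^ s)
  refine ⟨A0, fun A hA => ?_⟩
  set DD : Finset (Idx 5 → ZMod (p ^ s)) := (univ : Finset (Idx 5 → ZMod (p ^ s))).filter fun g =>
    ∃ u : Fin 3 → ZMod (p ^ s),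
      GG (fun r => (a r : ZMod (p ^ s))) g (p ^ v : ℕ) u = 0 ∧
      ∀ i, dGG (fun r => (a r : ZMod (p ^ s))) g (p ^ v : ℕ) u i = 0 with hDD
  have hDc : DD.card ≤ p ^ (14 * s + 13 * v) := deg_p a p v s hs
  set S : Finset (Idx 5 → ZMod (p ^ s)) := (univ : Finset (Idx 5 → ZMod (p ^ s))).filter fun γ =>
    gw (fun r => (a r : ZMod (p ^ s))) (fun i => (w i : ZMod (p ^ s))) γ ∈ DD with hS
  have hSc : S.card ≤ DD.card := by
    refine Finset.card_le_card_of_injOn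
      (gw (fun r => (a r : ZMod (p ^ s))) (fun i => (w i : ZMod (p ^ s)))) ?_ ?_
    · intro γ hγ
      rw [Finset.mem_coe, hS, Finset.mem_filter] at hγ
      exact hγ.2
    · intro γ _ γ' _ he
      exact (gw_bij _ _).injective he
  have hsub : ((bf 5 A).filter fun g => DegP a (gw a w g) p s v) ⊆
      (bf 5 A).filter fun g => (fun r => (g r : ZMod (p ^ s))) ∈ S := by
    intro g hg
    rw [Finset.mem_filter] at hg ⊢
    refine ⟨hg.1, ?_⟩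
    have h2 := hg.2
    unfold DegP NonDeg at h2
    rw [not_forall] at h2
    obtain ⟨u, hu⟩ := h2
    rw [not_not] at hu
    rw [hS, Finset.mem_filter]
    refine ⟨Finset.mem_univ _, ?_⟩
    rw [hDD, Finset.mem_filter]
    refine ⟨Finset.mem_univ _, u, ?_⟩
    have hm := gw_map (Int.castRingHom (ZMod (p ^ s))) a w g
    simp only [eq_intCast] at hm
    rw [hm]
    exact hu
  have h1 := hA0 A hA S
  have hp2 : (2 : ℝ) ≤ p := by exact_mod_cast hp.two_le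
  have hp0 : (0 : ℝ) < p := by linarith
  have hX : (0 : ℝ) ≤ (2 * (A : ℝ) + 1) ^ 15 := by positivity
  have h2 : (((bf 5 A).filter fun g => DegP a (gw a w g) p s v).card : ℝ) *
      ((p : ℝ) ^ s) ^ 15 ≤ 2 * (p : ℝ) ^ (14 * s + 13 * v) * (2 * A + 1) ^ 15 := by
    have e1 : (((bf 5 A).filter fun g => DegP a (gw a w g) p s v).card : ℝ) ≤
        (((bf 5 A).filter fun g => (fun r => (g r : ZMod (p ^ s))) ∈ S).card : ℝ) := by
      exact_mod_cast Finset.card_le_card hsub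
    have e2 : (S.card : ℝ) ≤ (p : ℝ) ^ (14 * s + 13 * v) := by exact_mod_cast hSc.trans hDc
    push_cast at h1
    calc (((bf 5 A).filter fun g => DegP a (gw a w g) p s v).card : ℝ) * ((p : ℝ) ^ s) ^ 15
        ≤ (((bf 5 A).filter fun g => (fun r => (g r : ZMod (p ^ s))) ∈ S).card : ℝ) *
          ((p : ℝ) ^ s) ^ 15 := mul_le_mul_of_nonneg_right e1 (by positivity)
      _ ≤ 2 * S.card * (2 * A + 1) ^ 15 := h1
      _ ≤ 2 * (p : ℝ) ^ (14 * s + 13 * v) * (2 * A + 1) ^ 15 := by gcongr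
  have e3 : ((p : ℝ) ^ s) ^ 15 = (p : ℝ) ^ s * (p : ℝ) ^ (14 * s) := by
    rw [← pow_mul, ← pow_add]
    congr 1
    ring
  have e4 : 2 * (p : ℝ) ^ (14 * s + 13 * v) * (2 * A + 1) ^ 15 =
      (2 * (p : ℝ) ^ (13 * v) * (2 * A + 1) ^ 15) * (p : ℝ) ^ (14 * s) := by
    rw [pow_add]
    ring
  rw [e3, e4, ← mul_assoc] at h2
  have h3 := le_of_mul_le_mul_right h2 (pow_pos hp0 (14 * s))
  have h4 : (((bf 5 A).filter fun g => DegP a (gw a w g) p s v).card : ℝ) * 2 ^ s ≤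
      2 * (p : ℝ) ^ (13 * v) * (2 * A + 1) ^ 15 := by
    refine le_trans ?_ h3
    exact mul_le_mul_of_nonneg_left (pow_le_pow_left₀ (by norm_num) hp2 s) (Nat.cast_nonneg _)
  rw [div_mul_eq_mul_div, le_div_iff₀ (by positivity)]
  exact h4

private theorem loc_num (K δ : ℝ) (hK0 : 0 ≤ K) (hδ : 0 < δ) : ∃ n : ℕ, K / 2 ^ (n + 1) ≤ δ := by
  obtain ⟨n, hn⟩ := exists_pow_lt_of_lt_one (show 0 < δ / (K + 1) by positivity)
    (show (1 / 2 : ℝ) < 1 by norm_num)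
  refine ⟨n, ?_⟩
  have h3 : K / 2 ^ (n + 1) ≤ K * (1 / 2) ^ n := by
    rw [div_eq_mul_inv, one_div, inv_pow]
    refine mul_le_mul_of_nonneg_left ?_ hK0
    refine inv_anti₀ (by positivity) ?_
    exact pow_le_pow_right₀ (by norm_num) (by omega)
  have h4 : K * (1 / 2) ^ n ≤ K * (δ / (K + 1)) := mul_le_mul_of_nonneg_left hn.le hK0
  have h5 : K * (δ / (K + 1)) ≤ δ := by
    rw [mul_div_assoc', div_le_iff₀ (by positivity)]
    nlinarith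
  linarith

private theorem loc_Pr (P0 p : ℕ) (h : p ∈ Pr P0) : p.Prime := by
  unfold Pr at h
  exact (Finset.mem_filter.mp h).2

open scoped Classical in
/-- The exceptional set at the small primes. -/
private theorem loc_E1 (a : Idx 3 → ℤ) (P0 : ℕ) (W : Finset (Fin 3 → ℤ)) (δ : ℝ) (hδ : 0 < δ) :
    ∃ s : ℕ, 1 ≤ s ∧ ∃ A0 : ℕ, ∀ A ≥ A0, (((bf 5 A).filter fun g => ∃ p ∈ Pr P0, ∃ w ∈ W,
      ∃ v ≤ padicValNat p (dd a), DegP a (gw a w g) p s v).card : ℝ) ≤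
        δ * (2 * A + 1) ^ 15 := by
  obtain ⟨D, hD⟩ : ∃ D : ℕ, ∀ p ∈ Pr P0, padicValNat p (dd a) ≤ D :=
    ⟨(Pr P0).sup fun p => padicValNat p (dd a), fun p hp =>
      Finset.le_sup (f := fun p => padicValNat p (dd a)) hp⟩
  have hK0 : 0 ≤ ∑ i ∈ Pr P0 ×ˢ (W ×ˢ range (D + 1)), 2 * (i.1 : ℝ) ^ (13 * i.2.2) :=
    Finset.sum_nonneg fun i _ => by positivity
  obtain ⟨n, hn⟩ := loc_num _ δ hK0 hδ
  refine ⟨n + 1, Nat.succ_le_succ (Nat.zero_le _), ?_⟩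
  obtain ⟨A0, hA0⟩ := loc_union (Pr P0 ×ˢ (W ×ˢ range (D + 1)))
    (fun i _ g => DegP a (gw a i.2.1 g) i.1 (n + 1) i.2.2)
    (fun i => 2 * (i.1 : ℝ) ^ (13 * i.2.2) / 2 ^ (n + 1)) (fun i hi =>
      loc_one a i.2.1 i.1 (loc_Pr P0 i.1 (Finset.mem_product.mp hi).1) i.2.2 (n + 1)
        (Nat.succ_pos n))
  refine ⟨A0, fun A hA => ?_⟩
  have h1 := hA0 A hA
  have hsub : ((bf 5 A).filter fun g => ∃ p ∈ Pr P0, ∃ w ∈ W,
      ∃ v ≤ padicValNat p (dd a), DegP a (gw a w g) p (n + 1) v) ⊆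
      (bf 5 A).filter fun g => ∃ i ∈ Pr P0 ×ˢ (W ×ˢ range (D + 1)),
        DegP a (gw a i.2.1 g) i.1 (n + 1) i.2.2 := by
    intro g hg
    rw [Finset.mem_filter] at hg ⊢
    obtain ⟨hg1, p, hp, w, hw, v, hv, hnd⟩ := hg
    refine ⟨hg1, (p, w, v), ?_, hnd⟩
    rw [Finset.mem_product, Finset.mem_product, Finset.mem_range]
    exact ⟨hp, hw, Nat.lt_succ_of_le (hv.trans (hD p hp))⟩
  have h2 : (((bf 5 A).filter fun g => ∃ p ∈ Pr P0, ∃ w ∈ W,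
      ∃ v ≤ padicValNat p (dd a), DegP a (gw a w g) p (n + 1) v).card : ℝ) ≤
      (((bf 5 A).filter fun g => ∃ i ∈ Pr P0 ×ˢ (W ×ˢ range (D + 1)),
        DegP a (gw a i.2.1 g) i.1 (n + 1) i.2.2).card : ℝ) := by
    exact_mod_cast Finset.card_le_card hsub
  refine h2.trans (h1.trans ?_)
  refine mul_le_mul_of_nonneg_right ?_ (by positivity)
  rw [← Finset.sum_div]
  exact hn

open scoped Classical in
/-- The real exceptional set for one chart. -/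
private theorem loc_real (a : Idx 3 → ℤ) (C0 : ℕ) (w : Fin 3 → ℤ) :
    ∃ C : ℝ, 0 < C ∧ ∀ η : ℝ, 0 < η → η ≤ 1 → ∃ A0 : ℕ, ∀ A ≥ A0,
      (((bf 5 A).filter fun g => ∃ t : Fin 3 → ℝ, (∀ i, |t i| ≤ C0) ∧
        phi (fun p => (a p : ℝ)) (fun p => ((gw a w g p : ℤ) : ℝ)) t = 0 ∧
        ∀ i, |dphi (fun p => (a p : ℝ)) (fun p => ((gw a w g p : ℤ) : ℝ)) t i| < η * A).card : ℝ) ≤
          (C * η) * (2 * A + 1) ^ 15 := by
  obtain ⟨C, hC, hdeg⟩ := deg_r a C0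
  obtain ⟨Cw, hCw, hbd⟩ := gw_bd a w
  have hCw1 : (1 : ℝ) ≤ Cw := by exact_mod_cast hCw
  refine ⟨C * (Cw : ℝ) ^ 15, by positivity, fun η hη hη1 => ?_⟩
  obtain ⟨A0, hA0⟩ := exists_nat_ge (1 / η)
  refine ⟨A0, fun A hA => ?_⟩
  have hAη : 1 ≤ η * A := by
    have h1 : (A0 : ℝ) ≤ A := by exact_mod_cast hA
    have h2 : 1 / η ≤ A := hA0.trans h1
    rw [div_le_iff₀ hη] at h2
    linarith
  have hAη2 : 1 ≤ η * ((Cw * A : ℕ) : ℝ) := by
    push_cast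
    nlinarith [mul_pos hη (show (0 : ℝ) < Cw by linarith)]
  have h1 := hdeg η hη hη1 (Cw * A) hAη2
  have hle : ((bf 5 A).filter fun g => ∃ t : Fin 3 → ℝ, (∀ i, |t i| ≤ C0) ∧
        phi (fun p => (a p : ℝ)) (fun p => ((gw a w g p : ℤ) : ℝ)) t = 0 ∧
        ∀ i, |dphi (fun p => (a p : ℝ)) (fun p => ((gw a w g p : ℤ) : ℝ)) t i| < η * A).card ≤
      ((bf 5 (Cw * A)).filter fun g => ∃ t : Fin 3 → ℝ, (∀ i, |t i| ≤ C0) ∧
        phi (fun p => (a p : ℝ)) (fun p => (g p : ℝ)) t = 0 ∧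
        ∀ i, |dphi (fun p => (a p : ℝ)) (fun p => (g p : ℝ)) t i| < η * (Cw * A : ℕ)).card := by
    refine Finset.card_le_card_of_injOn (gw a w) ?_ ?_
    · intro g hg
      rw [Finset.mem_coe, Finset.mem_filter] at hg
      rw [Finset.mem_coe, Finset.mem_filter]
      obtain ⟨hg1, t, ht1, ht2, ht3⟩ := hg
      refine ⟨hbd A g hg1, t, ht1, ht2, fun i => (ht3 i).trans_le ?_⟩
      push_cast
      have : (A : ℝ) ≤ Cw * A := by nlinarith [Nat.cast_nonneg (α := ℝ) A]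
      exact mul_le_mul_of_nonneg_left this hη.le
    · intro g _ g' _ he
      exact (gw_bij _ _).injective he
  have h2 : (2 * ((Cw * A : ℕ) : ℝ) + 1) ^ 15 ≤ (Cw : ℝ) ^ 15 * (2 * A + 1) ^ 15 := by
    rw [← mul_pow]
    push_cast
    refine pow_le_pow_left₀ (by positivity) ?_ 15
    nlinarith
  calc _ ≤ (((bf 5 (Cw * A)).filter fun g => ∃ t : Fin 3 → ℝ, (∀ i, |t i| ≤ C0) ∧
        phi (fun p => (a p : ℝ)) (fun p => (g p : ℝ)) t = 0 ∧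
        ∀ i, |dphi (fun p => (a p : ℝ)) (fun p => (g p : ℝ)) t i| < η * (Cw * A : ℕ)).card : ℝ) := by
        exact_mod_cast hle
    _ ≤ C * η * (2 * ((Cw * A : ℕ) : ℝ) + 1) ^ 15 := h1
    _ ≤ C * η * ((Cw : ℝ) ^ 15 * (2 * A + 1) ^ 15) :=
        mul_le_mul_of_nonneg_left h2 (by positivity)
    _ = C * (Cw : ℝ) ^ 15 * η * (2 * A + 1) ^ 15 := by ring

open scoped Classical in
/-- The real exceptional set. -/
private theorem loc_E3 (a : Idx 3 → ℤ) (C0 : ℕ) (W : Finset (Fin 3 → ℤ)) (δ : ℝ) (hδ : 0 < δ) :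
    ∃ η : ℝ, 0 < η ∧ ∃ A0 : ℕ, ∀ A ≥ A0,
      (((bf 5 A).filter fun g => ∃ w ∈ W, ∃ t : Fin 3 → ℝ, (∀ i, |t i| ≤ C0) ∧
        phi (fun p => (a p : ℝ)) (fun p => ((gw a w g p : ℤ) : ℝ)) t = 0 ∧
        ∀ i, |dphi (fun p => (a p : ℝ)) (fun p => ((gw a w g p : ℤ) : ℝ)) t i| < η * A).card : ℝ) ≤
          δ * (2 * A + 1) ^ 15 := by
  choose C hC h using loc_real a C0
  have hK0 : 0 ≤ ∑ w ∈ W, C w := Finset.sum_nonneg fun w _ => (hC w).le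
  have hη : 0 < min 1 (δ / (∑ w ∈ W, C w + 1)) := lt_min one_pos (by positivity)
  refine ⟨min 1 (δ / (∑ w ∈ W, C w + 1)), hη, ?_⟩
  have hs := min_le_right 1 (δ / (∑ w ∈ W, C w + 1))
  have hs1 := min_le_left 1 (δ / (∑ w ∈ W, C w + 1))
  generalize min 1 (δ / (∑ w ∈ W, C w + 1)) = η at *
  obtain ⟨A0, hA0⟩ := loc_union W (fun w A g => ∃ t : Fin 3 → ℝ, (∀ i, |t i| ≤ C0) ∧
        phi (fun p => (a p : ℝ)) (fun p => ((gw a w g p : ℤ) : ℝ)) t = 0 ∧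
        ∀ i, |dphi (fun p => (a p : ℝ)) (fun p => ((gw a w g p : ℤ) : ℝ)) t i| < η * A)
    (fun w => C w * η) (fun w _ => h w η hη hs1)
  refine ⟨A0, fun A hA => (hA0 A hA).trans ?_⟩
  refine mul_le_mul_of_nonneg_right ?_ (by positivity)
  rw [← Finset.sum_mul]
  have h4 : (∑ w ∈ W, C w) * η ≤ (∑ w ∈ W, C w) * (δ / (∑ w ∈ W, C w + 1)) :=
    mul_le_mul_of_nonneg_left hs hK0
  have h5 : (∑ w ∈ W, C w) * (δ / (∑ w ∈ W, C w + 1)) ≤ δ := by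
    rw [mul_div_assoc', div_le_iff₀ (by positivity)]
    nlinarith
  linarith

private theorem loc_PP (a : Idx 3 → ℤ) (P0 : ℕ) : 0 < PP a P0 :=
  Finset.prod_pos fun p hp => pow_pos (loc_Pr P0 p hp).pos _

private theorem loc_mem (a : Idx 3 → ℤ) (P0 : ℕ) (w0 z : Fin 3 → ℤ)
    (hw : ∀ i, 0 ≤ w0 i ∧ w0 i < PP a P0) (hz : z ∈ Z0 ℤ) : wz (PP a P0) w0 z ∈ Wst a P0 := by
  unfold Wst
  rw [Finset.mem_image]
  refine ⟨(w0, z), ?_, rfl⟩
  rw [Finset.mem_product, Fintype.mem_piFinset]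
  exact ⟨fun i => Finset.mem_Ico.mpr (hw i), hz⟩

private theorem loc_cl {a : Idx 3 → ℤ} (ha : (Hm a).det ≠ 0) (P0 s : ℕ) (hs : 1 ≤ s) :
    ∃ Q : ℕ, 0 < Q ∧ (∀ p : ℕ, p.Prime → p ∣ Q → p ≤ P0) ∧ ∃ c1 : ℝ, 0 < c1 ∧
    ∃ (W0 : (Idx 5 → ZMod Q) → Fin 3 → ℤ) (q0 : (Idx 5 → ZMod Q) → ℕ),
      (∀ γ i, 0 ≤ W0 γ i ∧ W0 γ i < PP a P0) ∧
      ∀ (γ : Idx 5 → ZMod Q) (g : Idx 5 → ℤ), (fun r => (g r : ZMod Q)) = γ → LocSol a g →
        (∀ p ∈ Pr P0, ∀ w ∈ Wst a P0, ∀ v ≤ padicValNat p (dd a), NonDeg a (gw a w g) p s v) →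
        0 < q0 γ ∧ q0 γ ∣ dd a ∧ (∀ p : ℕ, p.Prime → p ∣ q0 γ → p ≤ P0) ∧
        ∀ z ∈ Z0 ℤ, ∀ M1 : ℕ, 0 < M1 → (∀ p : ℕ, p.Prime → p ∣ M1 → p ≤ P0) →
          c1 * (M1 : ℝ) ^ 2 ≤ (UU a (q0 γ) M1 (gw a (wz (PP a P0) (W0 γ) z) g)).card := by
  obtain ⟨Q, hQ0, hQ, c1, hc1, h⟩ := loca ha P0 s hs
  refine ⟨Q, hQ0, hQ, c1, hc1, ?_⟩
  have hclass : ∀ γ : Idx 5 → ZMod Q, ∃ (w0 : Fin 3 → ℤ) (q : ℕ),
      (∀ i, 0 ≤ w0 i ∧ w0 i < PP a P0) ∧
      ∀ (g : Idx 5 → ℤ), (fun r => (g r : ZMod Q)) = γ → LocSol a g →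
        (∀ p ∈ Pr P0, ∀ w ∈ Wst a P0, ∀ v ≤ padicValNat p (dd a), NonDeg a (gw a w g) p s v) →
        0 < q ∧ q ∣ dd a ∧ (∀ p : ℕ, p.Prime → p ∣ q → p ≤ P0) ∧
        ∀ z ∈ Z0 ℤ, ∀ M1 : ℕ, 0 < M1 → (∀ p : ℕ, p.Prime → p ∣ M1 → p ≤ P0) →
          c1 * (M1 : ℝ) ^ 2 ≤ (UU a q M1 (gw a (wz (PP a P0) w0 z) g)).card := by
    intro γ
    by_cases hex : ∃ gs : Idx 5 → ℤ, (fun r => (gs r : ZMod Q)) = γ ∧ LocSol a gs ∧
        ∀ p ∈ Pr P0, ∀ w ∈ Wst a P0, ∀ v ≤ padicValNat p (dd a), NonDeg a (gw a w gs) p s v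
    · obtain ⟨gs, hgs, hls, hnd⟩ := hex
      obtain ⟨w0, q, h1, h2, h3, h4, h5⟩ := h gs hls hnd
      refine ⟨w0, q, h1, fun g hg _ _ => ⟨h2, h3, h4, fun z hz M1 hM1 hM => h5 z hz g ?_ M1 hM1 hM⟩⟩
      intro r
      have e := congrFun (hgs.trans hg.symm) r
      exact (ZMod.intCast_eq_intCast_iff_dvd_sub _ _ _).mp e
    · refine ⟨fun _ => 0, 1, fun i => ⟨le_rfl, Int.natCast_pos.mpr (loc_PP a P0)⟩,
        fun g hg h1 h2 => ?_⟩
      exact absurd ⟨g, hg, h1, h2⟩ hex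
  choose W0 q0 hW hq using hclass
  exact ⟨W0, q0, hW, hq⟩

open scoped Classical in
theorem loc {a : Idx 3 → ℤ} (ha : (Hm a).det ≠ 0) (δ : ℝ) (hδ : 0 < δ) :
    ∃ (W : Finset (Fin 3 → ℤ)) (C0 : ℕ) (c1 η : ℝ), 0 < c1 ∧ 0 < η ∧ ∃ N1 : ℕ, ∀ N ≥ N1,
    ∃ A0 : ℕ, ∀ A ≥ A0, (((bf 5 A).filter fun g => LocSol a g ∧
      ¬ ∃ w ∈ W, ∃ q : ℕ, 0 < q ∧ q ∣ dd a ∧
        c1 * ((N.factorial : ℕ) : ℝ) ^ 2 ≤ (UU a q N.factorial (gw a w g)).card ∧
        ∃ t : Fin 3 → ℝ, (∀ i, |t i| ≤ C0) ∧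
          phi (fun p => (a p : ℝ)) (fun p => ((gw a w g p : ℤ) : ℝ)) t = 0 ∧
          ∃ i, η * A ≤ |dphi (fun p => (a p : ℝ)) (fun p => ((gw a w g p : ℤ) : ℝ)) t i|).card : ℝ) ≤
        δ * (2 * A + 1) ^ 15 := by
  obtain ⟨P0, hP0⟩ := exists_nat_ge (max 1 (1024 / δ))
  have hP1 : 1 ≤ P0 := by
    have : (1 : ℝ) ≤ P0 := (le_max_left _ _).trans hP0
    exact_mod_cast this
  have hPδ : 256 ≤ δ / 4 * P0 := by
    have : 1024 / δ ≤ P0 := (le_max_right _ _).trans hP0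
    rw [div_le_iff₀ hδ] at this
    linarith
  have hδ4 : 0 < δ / 4 := by positivity
  obtain ⟨s, hs, A1, hE1⟩ := loc_E1 a P0 (Wst a P0) (δ / 4) hδ4
  obtain ⟨Q, hQ0, hQ, c1, hc1, W0, q0, hW0, hcl⟩ := loc_cl ha P0 s hs
  have hPP := loc_PP a P0
  choose Cf hCf using fun w0 : Fin 3 → ℤ => locr ha w0 (PP a P0) hPP
  obtain ⟨C0, hC0⟩ : ∃ C0 : ℕ, ∀ w0 : Fin 3 → ℤ, (∀ i, 0 ≤ w0 i ∧ w0 i < PP a P0) → Cf w0 ≤ C0 := by
    refine ⟨∑ w0 ∈ Fintype.piFinset (fun _ => Ico (0 : ℤ) (PP a P0)), Cf w0, fun w0 hw0 => ?_⟩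
    refine Finset.single_le_sum (f := Cf) (fun _ _ => Nat.zero_le _) ?_
    rw [Fintype.mem_piFinset]
    exact fun i => Finset.mem_Ico.mpr (hw0 i)
  obtain ⟨η, hη, A3, hE3⟩ := loc_E3 a C0 (Wst a P0) (δ / 4) hδ4
  refine ⟨Wst a P0, C0, c1 / 2, η, by positivity, hη, 0, fun N _ => ?_⟩
  obtain ⟨M1, M2, hN, hM1, hM2, hM1p, hM2p⟩ := loc_split P0 N.factorial N.factorial_ne_zero
  have hneQ : NeZero Q := ⟨hQ0.ne'⟩
  have hneM : NeZero M2 := ⟨hM2.ne'⟩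
  obtain ⟨A4, hE4⟩ := locb a P0 (PP a P0) Q M2 hP1 hM2p hQ W0
  refine ⟨max (max A1 A3) A4, fun A hA => ?_⟩
  have hA1 := hE1 A ((le_max_left _ _).trans ((le_max_left _ _).trans hA))
  have hA3 := hE3 A ((le_max_right _ _).trans ((le_max_left _ _).trans hA))
  have hA4 := hE4 A ((le_max_right _ _).trans hA)
  have hX : (0 : ℝ) < (2 * (A : ℝ) + 1) ^ 15 := by positivity
  generalize hE1s : ((bf 5 A).filter fun g => ∃ p ∈ Pr P0, ∃ w ∈ Wst a P0,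
      ∃ v ≤ padicValNat p (dd a), DegP a (gw a w g) p s v) = E1 at hA1
  generalize hE3s : ((bf 5 A).filter fun g => ∃ w ∈ Wst a P0, ∃ t : Fin 3 → ℝ, (∀ i, |t i| ≤ C0) ∧
        phi (fun p => (a p : ℝ)) (fun p => ((gw a w g p : ℤ) : ℝ)) t = 0 ∧
        ∀ i, |dphi (fun p => (a p : ℝ)) (fun p => ((gw a w g p : ℤ) : ℝ)) t i| < η * A) = E3 at hA3
  generalize hE4s : ((bf 5 A).filter fun g => ∃ z ∈ Z0 ℤ,
        2 * (UU a 1 M2 (gw a (wz (PP a P0) (W0 fun r => (g r : ZMod Q)) z) g)).card < M2 ^ 2) = E4 at hA4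
  have hA4' : (E4.card : ℝ) ≤ δ / 4 * (2 * A + 1) ^ 15 := by
    have hP0pos : (0 : ℝ) < P0 := by exact_mod_cast hP1
    refine le_of_mul_le_mul_left (hA4.trans ?_) hP0pos
    calc 256 * (2 * (A : ℝ) + 1) ^ 15 ≤ (δ / 4 * P0) * (2 * A + 1) ^ 15 :=
          mul_le_mul_of_nonneg_right hPδ hX.le
      _ = P0 * (δ / 4 * (2 * A + 1) ^ 15) := by ring
  have hsub : ((bf 5 A).filter fun g => LocSol a g ∧
      ¬ ∃ w ∈ Wst a P0, ∃ q : ℕ, 0 < q ∧ q ∣ dd a ∧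
        c1 / 2 * ((N.factorial : ℕ) : ℝ) ^ 2 ≤ (UU a q N.factorial (gw a w g)).card ∧
        ∃ t : Fin 3 → ℝ, (∀ i, |t i| ≤ C0) ∧
          phi (fun p => (a p : ℝ)) (fun p => ((gw a w g p : ℤ) : ℝ)) t = 0 ∧
          ∃ i, η * A ≤ |dphi (fun p => (a p : ℝ)) (fun p => ((gw a w g p : ℤ) : ℝ)) t i|) ⊆
      E1 ∪ (E3 ∪ E4) := by
    intro g hg
    rw [Finset.mem_filter] at hg
    obtain ⟨hgA, hls, hno⟩ := hg
    by_contra hcon
    rw [Finset.mem_union, Finset.mem_union, not_or, not_or] at hcon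
    obtain ⟨hc1', hc3, hc4⟩ := hcon
    rw [← hE1s, Finset.mem_filter] at hc1'
    rw [← hE3s, Finset.mem_filter] at hc3
    rw [← hE4s, Finset.mem_filter] at hc4
    have hnd : ∀ p ∈ Pr P0, ∀ w ∈ Wst a P0, ∀ v ≤ padicValNat p (dd a),
        NonDeg a (gw a w g) p s v := by
      intro p hp w hw v hv
      by_contra hn
      exact hc1' ⟨hgA, p, hp, w, hw, v, hv, hn⟩
    obtain ⟨hq, hqd, hqp, hUU⟩ := hcl (fun r => (g r : ZMod Q)) g rfl hls hnd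
    have hw0 := hW0 (fun r => (g r : ZMod Q))
    obtain ⟨z, hz, t, ht, hphi⟩ := hCf (W0 fun r => (g r : ZMod Q)) g hls.1
    have hmem := loc_mem a P0 _ z hw0 hz
    have ht' : ∀ i, |t i| ≤ C0 := fun i => (ht i).trans (by exact_mod_cast hC0 _ hw0)
    have h1 := hUU z hz M1 hM1 hM1p
    have h2 : M2 ^ 2 ≤ 2 * (UU a 1 M2 (gw a (wz (PP a P0) (W0 fun r => (g r : ZMod Q)) z) g)).card := by
      by_contra hlt
      exact hc4 ⟨hgA, z, hz, not_le.mp hlt⟩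
    apply hno
    refine ⟨_, hmem, q0 (fun r => (g r : ZMod Q)), hq, hqd, ?_, t, ht', hphi, ?_⟩
    · have hcop : Nat.Coprime (M1 * q0 (fun r => (g r : ZMod Q))) (M2 * 1) := by
        rw [mul_one]
        by_contra hnc
        obtain ⟨p, hp, hp1, hp2⟩ := Nat.Prime.not_coprime_iff_dvd.mp hnc
        have h3 := hM2p p hp hp2
        rcases (Nat.Prime.dvd_mul hp).mp hp1 with h4 | h4
        · exact absurd (hM1p p hp h4) (by omega)
        · exact absurd (hqp p hp h4) (by omega)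
      have h3 := uu_mul a (gw a (wz (PP a P0) (W0 fun r => (g r : ZMod Q)) z) g)
        (q0 (fun r => (g r : ZMod Q))) 1 M1 M2 (Nat.mul_pos hM1 hq) (by omega) hcop
      rw [mul_one, ← hN] at h3
      have h4 : ((UU a (q0 (fun r => (g r : ZMod Q))) M1
          (gw a (wz (PP a P0) (W0 fun r => (g r : ZMod Q)) z) g)).card : ℝ) *
          ((UU a 1 M2 (gw a (wz (PP a P0) (W0 fun r => (g r : ZMod Q)) z) g)).card : ℝ) ≤
          ((UU a (q0 (fun r => (g r : ZMod Q))) N.factorial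
            (gw a (wz (PP a P0) (W0 fun r => (g r : ZMod Q)) z) g)).card : ℝ) := by exact_mod_cast h3
      have h5 : (M2 : ℝ) ^ 2 ≤
          2 * ((UU a 1 M2 (gw a (wz (PP a P0) (W0 fun r => (g r : ZMod Q)) z) g)).card : ℝ) := by
        exact_mod_cast h2
      refine le_trans ?_ h4
      calc c1 / 2 * ((N.factorial : ℕ) : ℝ) ^ 2 = (c1 * (M1 : ℝ) ^ 2) * ((M2 : ℝ) ^ 2 / 2) := by
            rw [hN]
            push_cast
            ring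
        _ ≤ _ := mul_le_mul h1 (by linarith) (by positivity) (Nat.cast_nonneg _)
    · by_contra hnone
      push Not at hnone
      exact hc3 ⟨hgA, _, hmem, t, ht', hphi, hnone⟩
  have hcard : ((((bf 5 A).filter fun g => LocSol a g ∧
      ¬ ∃ w ∈ Wst a P0, ∃ q : ℕ, 0 < q ∧ q ∣ dd a ∧
        c1 / 2 * ((N.factorial : ℕ) : ℝ) ^ 2 ≤ (UU a q N.factorial (gw a w g)).card ∧
        ∃ t : Fin 3 → ℝ, (∀ i, |t i| ≤ C0) ∧
          phi (fun p => (a p : ℝ)) (fun p => ((gw a w g p : ℤ) : ℝ)) t = 0 ∧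
          ∃ i, η * A ≤ |dphi (fun p => (a p : ℝ)) (fun p => ((gw a w g p : ℤ) : ℝ)) t i|)).card : ℝ) ≤
      (E1.card : ℝ) + ((E3.card : ℝ) + (E4.card : ℝ)) := by
    have h := (Finset.card_le_card hsub).trans ((Finset.card_union_le _ _).trans
      (Nat.add_le_add_left (Finset.card_union_le _ _) _))
    exact_mod_cast h
  refine hcard.trans ?_
  nlinarith

end Pool.Agent.H7.HP
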