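import Pool.Agent.H7.HP.Core
import Pool.Agent.H7.HP.Loc

set_option autoImplicit false
set_option linter.unusedSectionVars false

/-!
# [H7 HP FIN] the theorem, 80-130 lines

PROOF. `loc` with `δ/2`: `W, C0, c1, η, N1`. For `w ∈ W` let `Cw` be the constant of `gw_bd` and `Kw` that of `gami_bd`. For `w ∈ W` and `q ∣ dd a`, `q > 0`: `core` with `c1`, `η/Cw`, `τ/2`, `δ' = δ / (2 #W #divisors (3 Cw)^15)`: `N0(w, q)`. `N` = the maximum of all these and `N1`; then `A0` large.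
Let `g` be in the set of the statement, not in the exceptional set of `loc`: there are `w ∈ W`, `q`: `g' = gw a w g ∈ bf 5 (Cw A)` satisfies the hypotheses of `core` for `A' = Cw A` (`(η/Cw) A' = η A`). If `g'` had a zero `x'` with `|x'_i| ≤ (Cw A)^(1 + τ/2)`, then `x = gami a w x'` would be a zero of `ff a` and `g` (`ff_gami`, `qv_gw'`),
nonzero (`gam_gami`), `|x_i| ≤ Kw (Cw A)^(1+τ/2) ≤ A^(1+τ)` for `A` large: contradiction. So `g'` is in the exceptional set of `core`, of size `≤ δ' (2 Cw A + 1)^15 ≤ δ' (3 Cw)^15 (2A+1)^15`; `g ↦ g'` is injective. Sum over `w, q`.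
-/

namespace Pool.Agent.H7.HP

open Finset

open scoped Classical in
private theorem fin_pair {a : Idx 3 → ℤ} (ha : (Hm a).det ≠ 0) (w : Fin 3 → ℤ) (q C0 : ℕ)
    (hq : 1 ≤ q) (c1 η ε τ : ℝ) (hc : 0 < c1) (hη : 0 < η) (hε : 0 < ε) (hτ : 0 < τ) :
    ∃ N0 : ℕ, ∀ N ≥ N0, ∃ A0 : ℕ, ∀ A ≥ A0, (((bf 5 A).filter fun g =>
      (c1 * ((N.factorial : ℕ) : ℝ) ^ 2 ≤ (UU a q N.factorial (gw a w g)).card ∧
        ∃ t : Fin 3 → ℝ, (∀ i, |t i| ≤ C0) ∧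
          phi (fun p => (a p : ℝ)) (fun p => ((gw a w g p : ℤ) : ℝ)) t = 0 ∧
          ∃ i, η * A ≤ |dphi (fun p => (a p : ℝ)) (fun p => ((gw a w g p : ℤ) : ℝ)) t i|) ∧
      ¬ ∃ x : Fin 5 → ℤ, x ≠ 0 ∧ ff a x = 0 ∧ qv g x = 0 ∧
        ∀ i, |(x i : ℝ)| ≤ (A : ℝ) ^ (1 + τ)).card : ℝ) ≤ ε * (2 * A + 1) ^ 15 := by
  obtain ⟨C, hC0, hC⟩ := gw_bd a w
  obtain ⟨K, hK0, hK⟩ := gami_bd a w
  have hCr : (0 : ℝ) < C := by exact_mod_cast hC0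
  have hC1 : (1 : ℝ) ≤ C := by exact_mod_cast hC0
  obtain ⟨N0, hN0⟩ := core ha q C0 hq c1 (η / C) (ε / (3 * C) ^ 15) (τ / 2) hc (by positivity)
    (by positivity) (by positivity)
  refine ⟨N0, fun N hN => ?_⟩
  obtain ⟨A0, hA0⟩ := hN0 N hN
  have hlim : Filter.Tendsto (fun A : ℕ => (A : ℝ) ^ (τ / 2)) Filter.atTop Filter.atTop :=
    (tendsto_rpow_atTop (by positivity)).comp tendsto_natCast_atTop_atTop
  obtain ⟨A1, hA1⟩ := (hlim.eventually_ge_atTop (K * (C : ℝ) ^ (1 + τ / 2))).exists_forall_of_atTop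
  refine ⟨max A0 (max A1 1), fun A hA => ?_⟩
  have hA0' : A0 ≤ C * A := by
    have h1 : A0 ≤ A := (le_max_left _ _).trans hA
    have h2 : A ≤ C * A := Nat.le_mul_of_pos_left A hC0
    omega
  have hA1' : A1 ≤ A := ((le_max_left _ _).trans (le_max_right _ _)).trans hA
  have hA2' : 1 ≤ A := ((le_max_right _ _).trans (le_max_right _ _)).trans hA
  have hAr : (0 : ℝ) < A := by exact_mod_cast hA2'
  have hcore := hA0 (C * A) hA0'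
  refine le_trans ?_ (hcore.trans ?_)
  · have hinj : Set.InjOn (gw a w) (((bf 5 A).filter fun g =>
      (c1 * ((N.factorial : ℕ) : ℝ) ^ 2 ≤ (UU a q N.factorial (gw a w g)).card ∧
        ∃ t : Fin 3 → ℝ, (∀ i, |t i| ≤ C0) ∧
          phi (fun p => (a p : ℝ)) (fun p => ((gw a w g p : ℤ) : ℝ)) t = 0 ∧
          ∃ i, η * A ≤ |dphi (fun p => (a p : ℝ)) (fun p => ((gw a w g p : ℤ) : ℝ)) t i|) ∧
      ¬ ∃ x : Fin 5 → ℤ, x ≠ 0 ∧ ff a x = 0 ∧ qv g x = 0 ∧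
        ∀ i, |(x i : ℝ)| ≤ (A : ℝ) ^ (1 + τ)) : Set (Idx 5 → ℤ)) :=
      (gw_bij a w).1.injOn
    have hcard := card_le_card_of_injOn (t := (bf 5 (C * A)).filter fun g =>
      c1 * ((N.factorial : ℕ) : ℝ) ^ 2 ≤ (UU a q N.factorial g).card ∧
      (∃ t : Fin 3 → ℝ, (∀ i, |t i| ≤ C0) ∧
        phi (fun p => (a p : ℝ)) (fun p => (g p : ℝ)) t = 0 ∧
        ∃ i, η / C * ((C * A : ℕ) : ℝ) ≤ |dphi (fun p => (a p : ℝ)) (fun p => (g p : ℝ)) t i|) ∧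
      ¬ ∃ x : Fin 5 → ℤ, x ≠ 0 ∧ ff a x = 0 ∧ qv g x = 0 ∧
        ∀ i, |(x i : ℝ)| ≤ ((C * A : ℕ) : ℝ) ^ (1 + τ / 2)) (gw a w) (by
        intro g hg
        simp only [coe_filter, Set.mem_setOf_eq, mem_filter] at hg ⊢
        obtain ⟨hgb, ⟨hg1, t, ht1, ht2, i, hi⟩, hg2⟩ := hg
        refine ⟨hC A g hgb, hg1, ⟨t, ht1, ht2, i, ?_⟩, ?_⟩
        · have h1 : η / C * ((C * A : ℕ) : ℝ) = η * A := by
            push_cast
            field_simp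
          rw [h1]
          exact hi
        · rintro ⟨x', hx0, hx1, hx2, hx3⟩
          apply hg2
          refine ⟨gami a w x', ?_, ?_, ?_, ?_⟩
          · intro h0
            apply hx0
            have h1 := gam_gami a w x'
            rw [h0] at h1
            have h2 := gam_gami a w (0 : Fin 5 → ℤ)
            have h3 : gami a w (0 : Fin 5 → ℤ) = 0 := by
              have h4 := gI_mulVec a w (0 : Fin 5 → ℤ)
              rw [Matrix.mulVec_zero] at h4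
              exact h4.symm
            rw [h3] at h2
            rw [← h1, h2]
          · rw [ff_gami, hx1]
          · rw [← qv_gw', hx2]
          · intro i
            refine (hK _ x' hx3 i).trans ?_
            have h1 := hA1 A hA1'
            push_cast
            rw [Real.mul_rpow hCr.le hAr.le]
            calc K * ((C : ℝ) ^ (1 + τ / 2) * (A : ℝ) ^ (1 + τ / 2))
                = (K * (C : ℝ) ^ (1 + τ / 2)) * (A : ℝ) ^ (1 + τ / 2) := by ring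
              _ ≤ (A : ℝ) ^ (τ / 2) * (A : ℝ) ^ (1 + τ / 2) := by gcongr
              _ = (A : ℝ) ^ (1 + τ) := by
                rw [← Real.rpow_add hAr]
                congr 1
                ring) hinj
    exact_mod_cast hcard
  · have h1 : (2 * ((C * A : ℕ) : ℝ) + 1) ≤ (3 * C) * (2 * A + 1) := by
      push_cast
      nlinarith [mul_pos hCr hAr]
    have h2 : (2 * ((C * A : ℕ) : ℝ) + 1) ^ 15 ≤ ((3 * C) * (2 * A + 1)) ^ 15 :=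
      pow_le_pow_left₀ (by positivity) h1 15
    calc ε / (3 * C) ^ 15 * (2 * ((C * A : ℕ) : ℝ) + 1) ^ 15
        ≤ ε / (3 * C) ^ 15 * ((3 * C) * (2 * A + 1)) ^ 15 := by gcongr
      _ = ε * (2 * A + 1) ^ 15 := by
        rw [mul_pow]
        field_simp

open scoped Classical in
theorem final (a : Idx 3 → ℤ) (ha : (Hm a).det ≠ 0) (τ δ : ℝ) (hτ : 0 < τ) (hδ : 0 < δ) :
    ∃ A0 : ℕ, ∀ A ≥ A0, (((bf 5 A).filter fun g => LocSol a g ∧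
      ¬ ∃ x : Fin 5 → ℤ, x ≠ 0 ∧ ff a x = 0 ∧ qv g x = 0 ∧
        ∀ i, |(x i : ℝ)| ≤ (A : ℝ) ^ (1 + τ)).card : ℝ) ≤ δ * (2 * A + 1) ^ 15 := by
  obtain ⟨W, C0, c1, η, hc, hη, N1, hN1⟩ := loc ha (δ / 2) (half_pos hδ)
  have hdd : dd a ≠ 0 := by
    unfold dd
    rw [Int.natAbs_ne_zero]
    exact mul_ne_zero two_ne_zero ha
  set S : Finset ((Fin 3 → ℤ) × ℕ) := W ×ˢ (dd a).divisors with hS
  set M : ℝ := (S.card : ℝ) + 1 with hM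
  have hM0 : 0 < M := by positivity
  have hpair : ∀ r : (Fin 3 → ℤ) × ℕ, ∃ N0 : ℕ, 1 ≤ r.2 → ∀ N ≥ N0, ∃ A0 : ℕ, ∀ A ≥ A0,
      (((bf 5 A).filter fun g =>
      (c1 * ((N.factorial : ℕ) : ℝ) ^ 2 ≤ (UU a r.2 N.factorial (gw a r.1 g)).card ∧
        ∃ t : Fin 3 → ℝ, (∀ i, |t i| ≤ C0) ∧
          phi (fun p => (a p : ℝ)) (fun p => ((gw a r.1 g p : ℤ) : ℝ)) t = 0 ∧
          ∃ i, η * A ≤ |dphi (fun p => (a p : ℝ)) (fun p => ((gw a r.1 g p : ℤ) : ℝ)) t i|) ∧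
      ¬ ∃ x : Fin 5 → ℤ, x ≠ 0 ∧ ff a x = 0 ∧ qv g x = 0 ∧
        ∀ i, |(x i : ℝ)| ≤ (A : ℝ) ^ (1 + τ)).card : ℝ) ≤ δ / (2 * M) * (2 * A + 1) ^ 15 := by
    intro r
    by_cases hr : 1 ≤ r.2
    · obtain ⟨N0, h⟩ := fin_pair ha r.1 r.2 C0 hr c1 η (δ / (2 * M)) τ hc hη (by positivity) hτ
      exact ⟨N0, fun _ => h⟩
    · exact ⟨0, fun h => absurd h hr⟩
  choose N0 hN0 using hpair
  set N : ℕ := max N1 (S.sup N0) with hN
  obtain ⟨A1, hA1⟩ := hN1 N (le_max_left _ _)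
  have hpair2 : ∀ r : (Fin 3 → ℤ) × ℕ, ∃ A0 : ℕ, r ∈ S → ∀ A ≥ A0,
      (((bf 5 A).filter fun g =>
      (c1 * ((N.factorial : ℕ) : ℝ) ^ 2 ≤ (UU a r.2 N.factorial (gw a r.1 g)).card ∧
        ∃ t : Fin 3 → ℝ, (∀ i, |t i| ≤ C0) ∧
          phi (fun p => (a p : ℝ)) (fun p => ((gw a r.1 g p : ℤ) : ℝ)) t = 0 ∧
          ∃ i, η * A ≤ |dphi (fun p => (a p : ℝ)) (fun p => ((gw a r.1 g p : ℤ) : ℝ)) t i|) ∧
      ¬ ∃ x : Fin 5 → ℤ, x ≠ 0 ∧ ff a x = 0 ∧ qv g x = 0 ∧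
        ∀ i, |(x i : ℝ)| ≤ (A : ℝ) ^ (1 + τ)).card : ℝ) ≤ δ / (2 * M) * (2 * A + 1) ^ 15 := by
    intro r
    by_cases hr : r ∈ S
    · have hr2 : 1 ≤ r.2 := by
        rw [hS, mem_product] at hr
        exact Nat.pos_of_mem_divisors hr.2
      have hle : N0 r ≤ N := (le_sup hr).trans (le_max_right _ _)
      obtain ⟨A0, h⟩ := hN0 r hr2 N hle
      exact ⟨A0, fun _ => h⟩
    · exact ⟨0, fun h => absurd h hr⟩
  choose A2 hA2 using hpair2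
  refine ⟨max A1 (S.sup A2), fun A hA => ?_⟩
  have h1 := hA1 A ((le_max_left _ _).trans hA)
  have h2 : ∀ r ∈ S, (((bf 5 A).filter fun g =>
      (c1 * ((N.factorial : ℕ) : ℝ) ^ 2 ≤ (UU a r.2 N.factorial (gw a r.1 g)).card ∧
        ∃ t : Fin 3 → ℝ, (∀ i, |t i| ≤ C0) ∧
          phi (fun p => (a p : ℝ)) (fun p => ((gw a r.1 g p : ℤ) : ℝ)) t = 0 ∧
          ∃ i, η * A ≤ |dphi (fun p => (a p : ℝ)) (fun p => ((gw a r.1 g p : ℤ) : ℝ)) t i|) ∧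
      ¬ ∃ x : Fin 5 → ℤ, x ≠ 0 ∧ ff a x = 0 ∧ qv g x = 0 ∧
        ∀ i, |(x i : ℝ)| ≤ (A : ℝ) ^ (1 + τ)).card : ℝ) ≤ δ / (2 * M) * (2 * A + 1) ^ 15 :=
    fun r hr => hA2 r hr A (((le_sup hr).trans (le_max_right _ _)).trans hA)
  have hsub : ((bf 5 A).filter fun g => LocSol a g ∧
      ¬ ∃ x : Fin 5 → ℤ, x ≠ 0 ∧ ff a x = 0 ∧ qv g x = 0 ∧
        ∀ i, |(x i : ℝ)| ≤ (A : ℝ) ^ (1 + τ)) ⊆
      ((bf 5 A).filter fun g => LocSol a g ∧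
      ¬ ∃ w ∈ W, ∃ q : ℕ, 0 < q ∧ q ∣ dd a ∧
        c1 * ((N.factorial : ℕ) : ℝ) ^ 2 ≤ (UU a q N.factorial (gw a w g)).card ∧
        ∃ t : Fin 3 → ℝ, (∀ i, |t i| ≤ C0) ∧
          phi (fun p => (a p : ℝ)) (fun p => ((gw a w g p : ℤ) : ℝ)) t = 0 ∧
          ∃ i, η * A ≤ |dphi (fun p => (a p : ℝ)) (fun p => ((gw a w g p : ℤ) : ℝ)) t i|) ∪
      S.biUnion fun r => (bf 5 A).filter fun g =>
      (c1 * ((N.factorial : ℕ) : ℝ) ^ 2 ≤ (UU a r.2 N.factorial (gw a r.1 g)).card ∧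
        ∃ t : Fin 3 → ℝ, (∀ i, |t i| ≤ C0) ∧
          phi (fun p => (a p : ℝ)) (fun p => ((gw a r.1 g p : ℤ) : ℝ)) t = 0 ∧
          ∃ i, η * A ≤ |dphi (fun p => (a p : ℝ)) (fun p => ((gw a r.1 g p : ℤ) : ℝ)) t i|) ∧
      ¬ ∃ x : Fin 5 → ℤ, x ≠ 0 ∧ ff a x = 0 ∧ qv g x = 0 ∧
        ∀ i, |(x i : ℝ)| ≤ (A : ℝ) ^ (1 + τ) := by
    intro g hg
    rw [mem_filter] at hg
    obtain ⟨hgb, hgL, hgx⟩ := hg
    rw [mem_union]
    by_cases h : ∃ w ∈ W, ∃ q : ℕ, 0 < q ∧ q ∣ dd a ∧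
        c1 * ((N.factorial : ℕ) : ℝ) ^ 2 ≤ (UU a q N.factorial (gw a w g)).card ∧
        ∃ t : Fin 3 → ℝ, (∀ i, |t i| ≤ C0) ∧
          phi (fun p => (a p : ℝ)) (fun p => ((gw a w g p : ℤ) : ℝ)) t = 0 ∧
          ∃ i, η * A ≤ |dphi (fun p => (a p : ℝ)) (fun p => ((gw a w g p : ℤ) : ℝ)) t i|
    · right
      obtain ⟨w, hw, q, -, hq2, hq3⟩ := h
      rw [mem_biUnion]
      refine ⟨(w, q), ?_, ?_⟩
      · rw [hS, mem_product]
        exact ⟨hw, Nat.mem_divisors.mpr ⟨hq2, hdd⟩⟩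
      · rw [mem_filter]
        exact ⟨hgb, hq3, hgx⟩
    · left
      rw [mem_filter]
      exact ⟨hgb, hgL, h⟩
  have hcard := (card_le_card hsub).trans ((card_union_le _ _).trans
    (add_le_add_right card_biUnion_le _))
  have hcardr : ((((bf 5 A).filter fun g => LocSol a g ∧
      ¬ ∃ x : Fin 5 → ℤ, x ≠ 0 ∧ ff a x = 0 ∧ qv g x = 0 ∧
        ∀ i, |(x i : ℝ)| ≤ (A : ℝ) ^ (1 + τ)).card : ℕ) : ℝ) ≤ _ := Nat.cast_le.mpr hcard
  rw [Nat.cast_add, Nat.cast_sum] at hcardr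
  have h3 := sum_le_sum h2
  rw [sum_const, nsmul_eq_mul] at h3
  have h4 : (S.card : ℝ) * (δ / (2 * M) * (2 * (A : ℝ) + 1) ^ 15) ≤
      δ / 2 * (2 * (A : ℝ) + 1) ^ 15 := by
    have h5 : (S.card : ℝ) * (δ / (2 * M)) ≤ δ / 2 := by
      rw [mul_div_assoc', div_le_div_iff₀ (by positivity) (by norm_num)]
      nlinarith
    have h6 : (0 : ℝ) ≤ (2 * (A : ℝ) + 1) ^ 15 := by positivity
    calc _ = (S.card : ℝ) * (δ / (2 * M)) * (2 * (A : ℝ) + 1) ^ 15 := by ring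
      _ ≤ _ := mul_le_mul_of_nonneg_right h5 h6
  linarith

end Pool.Agent.H7.HP
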