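import Pool.Agent.H7.HP.Defs

set_option autoImplicit false
set_option linter.unusedSectionVars false

/-!
# [H7 HP FOU] a transference lemma by Fourier analysis on `ℤ/N`, 130-200 lines

PROOF. `e(t) = exp(2 π i t)`, `‖t‖` the distance to the nearest integer. `D(t) = ∑_{0 ≤ n < T} e(n t)`, `|D(t)| ≤ T` and `|D(t)| ≤ 1/(2 ‖t‖)`. Let `F : ℤ → ℕ` count the
quadruples `(n1, n2, n3, n4) ∈ [0,T)^4` with `n1 - n2 + n3 - n4 = l`: `∑_l F(l) e(l t) = |D(t)|^4`, `F(l) ≠ 0` implies `|l| < 2T`.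
Suppose there is no `l` with `N ∣ ∑ l_i a_i`, `|l_i - v_i| ≤ 2T`. Then (quadruple by quadruple, `l_i = v_i + n1 - n2 + n3 - n4`)
`0 = N ∑_{l : N ∣ l.a} ∏ F(l_i - v_i) = ∑_{j mod N} ∑_l ∏ F(l_i - v_i) e(j l.a / N) = ∑_j e(j v.a/N) ∏_i |D(j a_i / N)|^4`.
The term `j = 0` is `T^16`, so `T^16 ≤ ∑_{j ≠ 0} ∏_i |D(j a_i/N)|^4`.
For `j ≠ 0` choose `s_i ≡ j a_i` modulo `N`, `|s_i| ≤ N/2`: `‖j a_i/N‖ = |s_i|/N`. By hypothesis some `|s_i| ≥ lam N`, so `|D(j a_i/N)|^2 ≤ 1/(4 lam^2)` for this `i`, and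
`∏ |D|^4 ≤ T^6/(4 lam^2) ∏ |D|^2`.
Cells: `c_i(j) = ⌊s_i / (lam N)⌋`. Two different `j, j'` have different cells (apply the hypothesis to `j - j'`: `|s_i - s'_i| < lam N` for all `i` is impossible).
`|D(j a_i/N)|^2 ≤ κ(c_i)`, `κ(c) = min(T^2, 1/(4 lam^2 m^2))`, `m = c` for `c ≥ 0`, `m = -c-1` for `c < 0` (`|s_i|/N ≥ lam m`), `κ = T^2` for `m = 0`. So
`∑_j ∏_i |D|^2 ≤ ∏_i ∑_c κ(c) = (2 T^2 + (2/(4 lam^2)) ∑_{m ≥ 1} 1/m^2)^4 ≤ (3 T^2)^4` (`1/lam ≤ T/5`, `∑ 1/m^2 ≤ 2`).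
Total `≤ T^6/(4 lam^2) * 81 T^8 ≤ 81 T^16/100 < T^16`. Contradiction.
-/

namespace Pool.Agent.H7.HP

open Finset

/-- `e(k/N)` -/
private noncomputable def fe (N : ℕ) (k : ℤ) : ℂ :=
  Complex.exp (Complex.I * ((2 * Real.pi * ((k : ℝ) / N) : ℝ) : ℂ))

private theorem fe_add (N : ℕ) (k l : ℤ) : fe N (k + l) = fe N k * fe N l := by
  unfold fe
  rw [← Complex.exp_add]
  congr 1
  push_cast
  ring

private theorem fe_zero (N : ℕ) : fe N 0 = 1 := by
  unfold fe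
  simp

private theorem fe_norm (N : ℕ) (k : ℤ) : ‖fe N k‖ = 1 := by
  unfold fe
  exact Complex.norm_exp_I_mul_ofReal _

private theorem fe_conj (N : ℕ) (k : ℤ) : (starRingEnd ℂ) (fe N k) = fe N (-k) := by
  unfold fe
  rw [← Complex.exp_conj]
  congr 1
  rw [map_mul, Complex.conj_I, Complex.conj_ofReal]
  push_cast
  ring

private theorem fe_pow (N : ℕ) (k : ℤ) (n : ℕ) : fe N (k * n) = fe N k ^ n := by
  unfold fe
  rw [← Complex.exp_nat_mul]
  congr 1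
  push_cast
  ring

private theorem fe_dvd (N : ℕ) (hN : 0 < N) (k : ℤ) (h : (N : ℤ) ∣ k) : fe N k = 1 := by
  obtain ⟨m, rfl⟩ := h
  unfold fe
  rw [Complex.exp_eq_one_iff]
  refine ⟨m, ?_⟩
  have : (N : ℂ) ≠ 0 := by exact_mod_cast hN.ne'
  push_cast
  field_simp

private theorem fe_eq_one (N : ℕ) (hN : 0 < N) (k : ℤ) (h : fe N k = 1) : (N : ℤ) ∣ k := by
  unfold fe at h
  rw [Complex.exp_eq_one_iff] at h
  obtain ⟨m, hm⟩ := h
  refine ⟨m, ?_⟩
  have hN0 : (N : ℂ) ≠ 0 := by exact_mod_cast hN.ne'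
  have hpi : (Real.pi : ℂ) ≠ 0 := by exact_mod_cast Real.pi_ne_zero
  have h1 : (k : ℂ) = N * m := by
    have h2 : Complex.I * (2 * Real.pi * ((k : ℂ) / N)) = m * (2 * Real.pi * Complex.I) := by
      rw [← hm]
      push_cast
      ring
    field_simp at h2
    have h3 : (Complex.I * 2 * Real.pi) ≠ 0 := by
      simp [Complex.I_ne_zero, hpi]
    have h4 : (Complex.I * 2 * Real.pi) * (k : ℂ) = (Complex.I * 2 * Real.pi) * (N * m) := by
      linear_combination (Complex.I * 2 * Real.pi) * h2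
    exact mul_left_cancel₀ h3 h4
  exact_mod_cast h1

private theorem fe_orth (N : ℕ) (hN : 0 < N) (k : ℤ) (h : ¬ (N : ℤ) ∣ k) :
    ∑ j ∈ range N, fe N (k * j) = 0 := by
  have h1 : fe N k ≠ 1 := fun h2 => h (fe_eq_one N hN k h2)
  have h2 : ∀ j ∈ range N, fe N (k * j) = fe N k ^ j := fun j _ => fe_pow N k j
  rw [Finset.sum_congr rfl h2, geom_sum_eq h1]
  have h3 : fe N k ^ N = 1 := by
    rw [← fe_pow]
    exact fe_dvd N hN _ (dvd_mul_left _ _)
  rw [h3]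
  simp

/-- the sum over `n < T` -/
private noncomputable def fD (N T : ℕ) (t : ℤ) : ℂ := ∑ n ∈ range T, fe N (t * n)

private theorem fD_le (N T : ℕ) (t : ℤ) : ‖fD N T t‖ ≤ T := by
  unfold fD
  refine (norm_sum_le _ _).trans ?_
  simp [fe_norm]

private theorem fe_sub_one (N : ℕ) (hN : 0 < N) (s : ℤ) (hs : 2 * |s| ≤ N) :
    4 * (|(s : ℝ)| / N) ≤ ‖fe N s - 1‖ := by
  have hN0 : (0 : ℝ) < N := by exact_mod_cast hN
  unfold fe
  rw [Complex.norm_exp_I_mul_ofReal_sub_one]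
  have h1 : 2 * Real.pi * ((s : ℝ) / N) / 2 = Real.pi * ((s : ℝ) / N) := by ring
  rw [h1, Real.norm_eq_abs, abs_mul, abs_of_pos (by norm_num : (0 : ℝ) < 2)]
  have h2 : |Real.sin (Real.pi * ((s : ℝ) / N))| = |Real.sin (Real.pi * (|(s : ℝ)| / N))| := by
    rcases abs_cases (s : ℝ) with ⟨h, _⟩ | ⟨h, _⟩
    · rw [h]
    · rw [h]
      have : Real.pi * (-(s : ℝ) / N) = -(Real.pi * ((s : ℝ) / N)) := by ring
      rw [this, Real.sin_neg, abs_neg]
  rw [h2]
  have h3 : |(s : ℝ)| / N ≤ 1 / 2 := by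
    rw [div_le_div_iff₀ hN0 (by norm_num)]
    have : (2 * |s| : ℝ) ≤ N := by exact_mod_cast hs
    push_cast at this
    linarith
  have h4 : 0 ≤ |(s : ℝ)| / N := by positivity
  have h5 := Real.mul_le_sin (x := Real.pi * (|(s : ℝ)| / N)) (by positivity) (by
    have := Real.pi_pos
    nlinarith)
  have h6 : 2 / Real.pi * (Real.pi * (|(s : ℝ)| / N)) = 2 * (|(s : ℝ)| / N) := by
    have := Real.pi_ne_zero
    field_simp
  rw [h6] at h5
  have h7 := le_abs_self (Real.sin (Real.pi * (|(s : ℝ)| / N)))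
  linarith

/-- the bound of the geometric sum -/
private theorem fD_small (N T : ℕ) (hN : 0 < N) (t s : ℤ) (hts : (N : ℤ) ∣ t - s)
    (hs : 2 * |s| ≤ N) (m : ℝ) (hm : 0 < m) (hms : m * N ≤ |(s : ℝ)|) :
    ‖fD N T t‖ ≤ 1 / (2 * m) := by
  have hN0 : (0 : ℝ) < N := by exact_mod_cast hN
  have h1 : fe N t = fe N s := by
    have h2 : t = (t - s) + s := by ring
    rw [h2, fe_add, fe_dvd N hN _ hts, one_mul]
  have h2 : fD N T t = ∑ n ∈ range T, fe N s ^ n := by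
    unfold fD
    refine Finset.sum_congr rfl fun n _ => ?_
    rw [fe_pow, h1]
  have hs0 : m ≤ |(s : ℝ)| / N := by
    rw [le_div_iff₀ hN0]
    exact hms
  have h3 := fe_sub_one N hN s hs
  have h4 : 4 * m ≤ ‖fe N s - 1‖ := by linarith
  have h5 : fe N s - 1 ≠ 0 := by
    intro h
    rw [h, norm_zero] at h4
    linarith
  have h6 : fe N s ≠ 1 := sub_ne_zero.1 h5
  rw [h2, geom_sum_eq h6, norm_div]
  have h7 : ‖fe N s ^ T - 1‖ ≤ 2 := by
    refine (norm_sub_le _ _).trans ?_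
    rw [norm_pow, fe_norm, one_pow, norm_one]
    norm_num
  calc ‖fe N s ^ T - 1‖ / ‖fe N s - 1‖ ≤ 2 / (4 * m) := by gcongr
    _ = 1 / (2 * m) := by
      field_simp
      norm_num

/-- quadruples -/
private noncomputable def fS (T : ℕ) : Finset ((ℕ × ℕ) × (ℕ × ℕ)) :=
  (range T ×ˢ range T) ×ˢ (range T ×ˢ range T)

private def fdl (x : (ℕ × ℕ) × (ℕ × ℕ)) : ℤ := x.1.1 - x.1.2 + (x.2.1 - x.2.2)

private theorem fD_four (N T : ℕ) (t : ℤ) :
    ((‖fD N T t‖ ^ 4 : ℝ) : ℂ) = ∑ x ∈ fS T, fe N (t * fdl x) := by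
  have h1 : (‖fD N T t‖ ^ 2 : ℂ) = ∑ x ∈ range T ×ˢ range T, fe N (t * (x.1 - x.2)) := by
    rw [← Complex.mul_conj']
    have h2 : (starRingEnd ℂ) (fD N T t) = ∑ n ∈ range T, fe N (-(t * n)) := by
      unfold fD
      rw [map_sum]
      exact Finset.sum_congr rfl fun n _ => fe_conj N _
    rw [h2]
    unfold fD
    rw [Finset.sum_mul_sum, Finset.sum_product]
    refine Finset.sum_congr rfl fun n _ => Finset.sum_congr rfl fun m _ => ?_
    rw [← fe_add]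
    congr 1
    ring
  have h3 : ((‖fD N T t‖ ^ 4 : ℝ) : ℂ) = (‖fD N T t‖ ^ 2 : ℂ) * (‖fD N T t‖ ^ 2 : ℂ) := by
    push_cast
    ring
  rw [h3, h1, Finset.sum_mul_sum]
  unfold fS
  conv_rhs => rw [Finset.sum_product]
  refine Finset.sum_congr rfl fun n _ => Finset.sum_congr rfl fun m _ => ?_
  rw [← fe_add]
  congr 1
  unfold fdl
  ring

/-- the Fourier identity: without solutions `T^16` is at most the sum over `j ≠ 0` -/
private theorem fou_main (N : ℕ) (hN : 0 < N) (a v : Fin 4 → ℤ) (T : ℕ)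
    (hno : ¬ ∃ l : Fin 4 → ℤ, (N : ℤ) ∣ ∑ i, l i * a i ∧ ∀ i, |l i - v i| ≤ 2 * T) :
    (T : ℝ) ^ 16 ≤ ∑ j ∈ (range N).erase 0, ∏ i, ‖fD N T (j * a i)‖ ^ 4 := by
  have h1 : ∑ j ∈ range N, fe N ((∑ i, v i * a i) * j) *
      ((∏ i, ‖fD N T (j * a i)‖ ^ 4 : ℝ) : ℂ) = 0 := by
    have h2 : ∀ j ∈ range N, fe N ((∑ i, v i * a i) * j) *
        ((∏ i, ‖fD N T (j * a i)‖ ^ 4 : ℝ) : ℂ) =
        ∑ p ∈ Fintype.piFinset (fun _ : Fin 4 => fS T),
          fe N ((∑ i, (v i + fdl (p i)) * a i) * j) := by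
      intro j _
      rw [Complex.ofReal_prod]
      have h3 : ∀ i : Fin 4, ((‖fD N T (j * a i)‖ ^ 4 : ℝ) : ℂ) =
          ∑ x ∈ fS T, fe N (j * a i * fdl x) := fun i => fD_four N T _
      rw [Finset.prod_congr rfl fun i _ => h3 i, Finset.prod_univ_sum, Finset.mul_sum]
      refine Finset.sum_congr rfl fun p _ => ?_
      rw [Fin.prod_univ_four, ← fe_add, ← fe_add, ← fe_add, ← fe_add, Fin.sum_univ_four,
        Fin.sum_univ_four]
      congr 1
      ring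
    rw [Finset.sum_congr rfl h2, Finset.sum_comm]
    refine Finset.sum_eq_zero fun p hp => ?_
    refine fe_orth N hN (∑ i, (v i + fdl (p i)) * a i) fun hd =>
      hno ⟨fun i => v i + fdl (p i), hd, fun i => ?_⟩
    rw [Fintype.mem_piFinset] at hp
    have h3 := hp i
    unfold fS at h3
    rw [mem_product, mem_product, mem_product, mem_range, mem_range, mem_range, mem_range] at h3
    have h4 : v i + fdl (p i) - v i = fdl (p i) := by ring
    rw [h4]
    unfold fdl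
    rw [abs_le]
    obtain ⟨⟨h5, h6⟩, h7, h8⟩ := h3
    constructor <;> omega
  rw [← Finset.add_sum_erase _ _ (mem_range.2 hN)] at h1
  have h2 : fe N ((∑ i, v i * a i) * ((0 : ℕ) : ℤ)) *
      ((∏ i, ‖fD N T (((0 : ℕ) : ℤ) * a i)‖ ^ 4 : ℝ) : ℂ) = ((T : ℝ) ^ 16 : ℝ) := by
    have h3 : ∀ i : Fin 4, ‖fD N T (((0 : ℕ) : ℤ) * a i)‖ = T := by
      intro i
      unfold fD
      simp [fe_zero]
    simp only [h3]
    rw [Nat.cast_zero, mul_zero, fe_zero, one_mul]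
    congr 1
    rw [Finset.prod_const, Finset.card_univ, Fintype.card_fin, ← pow_mul]
  rw [h2] at h1
  have h3 : (((T : ℝ) ^ 16 : ℝ) : ℂ) = -∑ j ∈ (range N).erase 0, fe N ((∑ i, v i * a i) * j) *
      ((∏ i, ‖fD N T (j * a i)‖ ^ 4 : ℝ) : ℂ) := by
    linear_combination h1
  have h4 : ‖(((T : ℝ) ^ 16 : ℝ) : ℂ)‖ = (T : ℝ) ^ 16 := by
    rw [Complex.norm_real, Real.norm_of_nonneg (by positivity)]
  rw [← h4, h3, norm_neg]
  refine (norm_sum_le _ _).trans (Finset.sum_le_sum fun j _ => ?_)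
  rw [norm_mul, fe_norm, one_mul, Complex.norm_real, Real.norm_of_nonneg]
  exact Finset.prod_nonneg fun i _ => by positivity

private noncomputable def fka (T : ℕ) (A : ℝ) (m : ℕ) : ℝ := if m = 0 then (T : ℝ) ^ 2 else A / (m : ℝ) ^ 2

private theorem fka_sum (T : ℕ) (A : ℝ) (hA : 0 ≤ A) (K : ℕ) :
    ∑ m ∈ range (K + 2), fka T A m ≤ (T : ℝ) ^ 2 + A * (2 - 1 / (K + 1)) := by
  induction K with
  | zero =>
    rw [Finset.sum_range_succ, Finset.sum_range_succ]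
    unfold fka
    norm_num
  | succ K ih =>
    rw [Finset.sum_range_succ]
    have h1 : fka T A (K + 2) = A * (1 / ((K : ℝ) + 2) ^ 2) := by
      unfold fka
      rw [if_neg (by omega)]
      push_cast
      ring
    have h2 : 1 / ((K : ℝ) + 2) ^ 2 ≤ 1 / ((K : ℝ) + 1) - 1 / ((K : ℝ) + 2) := by
      have hK : (0 : ℝ) ≤ K := Nat.cast_nonneg K
      rw [div_sub_div _ _ (by positivity) (by positivity), div_le_div_iff₀ (by positivity) (by positivity)]
      nlinarith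
    have h3 := mul_le_mul_of_nonneg_left h2 hA
    have h4 : ∑ m ∈ range (K + 2), fka T A m + fka T A (K + 2) ≤
        (T : ℝ) ^ 2 + A * (2 - 1 / (K + 1)) + A * (1 / ((K : ℝ) + 1) - 1 / ((K : ℝ) + 2)) := by
      rw [h1]
      linarith
    refine h4.trans (le_of_eq ?_)
    push_cast
    ring

private theorem fka_nonneg (T : ℕ) (A : ℝ) (hA : 0 ≤ A) (m : ℕ) : 0 ≤ fka T A m := by
  unfold fka
  split_ifs <;> positivity

private noncomputable def fcell (N : ℕ) (lam : ℝ) (s : ℤ) : Bool × ℕ :=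
  (decide (0 ≤ s), ⌊|(s : ℝ)| / (lam * N)⌋₊)

private theorem fcell_close (N : ℕ) (hN : 0 < N) (lam : ℝ) (h0 : 0 < lam) (s t : ℤ)
    (h : fcell N lam s = fcell N lam t) : |((s - t : ℤ) : ℝ)| < lam * N := by
  have hN0 : (0 : ℝ) < N := by exact_mod_cast hN
  have hln : 0 < lam * N := by positivity
  unfold fcell at h
  rw [Prod.mk.injEq, decide_eq_decide] at h
  obtain ⟨h1, h2⟩ := h
  have h3 : |((s - t : ℤ) : ℝ)| = |(|(s : ℝ)| - |(t : ℝ)|)| := by
    by_cases hs : 0 ≤ s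
    · have ht : 0 ≤ t := h1.1 hs
      rw [abs_of_nonneg (by exact_mod_cast hs : (0 : ℝ) ≤ s),
        abs_of_nonneg (by exact_mod_cast ht : (0 : ℝ) ≤ t)]
      push_cast
      ring_nf
    · have ht : ¬ 0 ≤ t := fun h4 => hs (h1.2 h4)
      push Not at hs ht
      rw [abs_of_neg (by exact_mod_cast hs : (s : ℝ) < 0),
        abs_of_neg (by exact_mod_cast ht : (t : ℝ) < 0)]
      push_cast
      rw [← abs_neg]
      congr 1
      ring
  rw [h3]
  obtain ⟨f, hf⟩ : ∃ f : ℕ, f = ⌊|(s : ℝ)| / (lam * N)⌋₊ := ⟨_, rfl⟩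
  have a1 := Nat.floor_le (show 0 ≤ |(s : ℝ)| / (lam * N) by positivity)
  have a2 := Nat.lt_floor_add_one (|(s : ℝ)| / (lam * N))
  have a3 := Nat.floor_le (show 0 ≤ |(t : ℝ)| / (lam * N) by positivity)
  have a4 := Nat.lt_floor_add_one (|(t : ℝ)| / (lam * N))
  rw [← h2, ← hf] at a3 a4
  rw [← hf] at a1 a2
  rw [le_div_iff₀ hln] at a1 a3
  rw [div_lt_iff₀ hln] at a2 a4
  rw [abs_lt]
  constructor <;> linarith

theorem trans4 (N : ℕ) (hN : 0 < N) (a : Fin 4 → ℤ) (lam : ℝ) (h0 : 0 < lam) (h1 : lam ≤ 1)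
    (h : ∀ j : ℤ, 0 < j → j < N → ∀ s : Fin 4 → ℤ, (∀ i, (N : ℤ) ∣ j * a i - s i) →
      ∃ i, lam * (N : ℝ) ≤ |(s i : ℝ)|)
    (T : ℕ) (hT : 5 / lam ≤ T) (v : Fin 4 → ℤ) :
    ∃ l : Fin 4 → ℤ, (N : ℤ) ∣ ∑ i, l i * a i ∧ ∀ i, |l i - v i| ≤ 2 * T := by
  by_contra hno
  have hmain := fou_main N hN a v T hno
  have hN0 : (0 : ℝ) < N := by exact_mod_cast hN
  have hln : 0 < lam * N := by positivity
  have hT0 : (0 : ℝ) < T := lt_of_lt_of_le (by positivity) hT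
  have hlT : 1 / lam ≤ T / 5 := by
    have : 5 / lam = 5 * (1 / lam) := by ring
    linarith
  have hl0 : 0 < 1 / lam := by positivity
  obtain ⟨A, hA⟩ : ∃ A : ℝ, A = (1 / lam) ^ 2 / 4 := ⟨_, rfl⟩
  have hA0 : 0 ≤ A := by rw [hA]; positivity
  have hAT : A ≤ (T : ℝ) ^ 2 / 100 := by
    rw [hA]
    have := pow_le_pow_left₀ hl0.le hlT 2
    nlinarith
  -- balanced residues
  obtain ⟨s, hs⟩ : ∃ s : ℕ → Fin 4 → ℤ, s = fun (j : ℕ) i => Int.bmod ((j : ℤ) * a i) N := ⟨_, rfl⟩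
  have hs1 : ∀ (j : ℕ) i, (N : ℤ) ∣ (j : ℤ) * a i - s j i := by
    intro j i
    rw [hs]
    refine ⟨Int.bdiv (j * a i) N, ?_⟩
    have := Int.bdiv_add_bmod (j * a i) N
    dsimp only
    linarith
  have hs2 : ∀ (j : ℕ) i, 2 * |s j i| ≤ N := by
    intro j i
    rw [hs]
    dsimp only
    have e1 := Int.le_bmod (x := (j : ℤ) * a i) hN
    have e2 := Int.bmod_le (x := (j : ℤ) * a i) hN
    have e3 : |Int.bmod ((j : ℤ) * a i) N| ≤ (N : ℤ) / 2 := by
      rw [abs_le]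
      constructor
      · exact e1
      · omega
    omega
  -- bound of the factors
  have hfac : ∀ (j : ℕ) i, ‖fD N T (j * a i)‖ ^ 2 ≤ fka T A (fcell N lam (s j i)).2 := by
    intro j i
    unfold fka
    split_ifs with hm
    · exact pow_le_pow_left₀ (norm_nonneg _) (fD_le N T _) 2
    · obtain ⟨m, hmd⟩ : ∃ m : ℕ, m = (fcell N lam (s j i)).2 := ⟨_, rfl⟩
      rw [← hmd] at hm ⊢
      have hm0 : (0 : ℝ) < m := by
        have : 0 < m := Nat.pos_of_ne_zero hm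
        exact_mod_cast this
      have e1 : lam * m * N ≤ |(s j i : ℝ)| := by
        have e2 := Nat.floor_le (show 0 ≤ |(s j i : ℝ)| / (lam * N) by positivity)
        have e3 : m = ⌊|(s j i : ℝ)| / (lam * N)⌋₊ := hmd
        rw [← e3, le_div_iff₀ hln] at e2
        linarith
      have e2 := fD_small N T hN _ _ (hs1 j i) (hs2 j i) (lam * m) (by positivity) e1
      have e3 := pow_le_pow_left₀ (norm_nonneg _) e2 2
      refine e3.trans (le_of_eq ?_)
      rw [hA]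
      field_simp
      norm_num
  -- one factor is small
  have hone : ∀ j ∈ (range N).erase 0, ∏ i, ‖fD N T (j * a i)‖ ^ 2 ≤ A * ((T : ℝ) ^ 2) ^ 3 := by
    intro j hj
    rw [mem_erase, mem_range] at hj
    obtain ⟨i0, hi0⟩ := h j (by omega) (by omega) (s j) (hs1 j)
    have e2 := fD_small N T hN _ _ (hs1 j i0) (hs2 j i0) lam h0 hi0
    have e3 : ‖fD N T (j * a i0)‖ ^ 2 ≤ A := by
      have e4 := pow_le_pow_left₀ (norm_nonneg _) e2 2
      refine e4.trans (le_of_eq ?_)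
      rw [hA]
      field_simp
      norm_num
    rw [← Finset.mul_prod_erase univ _ (mem_univ i0)]
    refine mul_le_mul e3 ?_ (Finset.prod_nonneg fun i _ => by positivity) hA0
    calc ∏ i ∈ univ.erase i0, ‖fD N T (j * a i)‖ ^ 2 ≤ ∏ i ∈ univ.erase i0, (T : ℝ) ^ 2 := by
          refine Finset.prod_le_prod (fun i _ => by positivity) fun i _ => ?_
          exact pow_le_pow_left₀ (norm_nonneg _) (fD_le N T _) 2
      _ = ((T : ℝ) ^ 2) ^ 3 := by
          rw [Finset.prod_const, Finset.card_erase_of_mem (mem_univ i0), Finset.card_univ,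
            Fintype.card_fin]
  -- the cells
  obtain ⟨K, hK⟩ : ∃ K : ℕ, K = ⌊1 / lam⌋₊ := ⟨_, rfl⟩
  obtain ⟨I, hI⟩ : ∃ I : Finset (Bool × ℕ), I = univ ×ˢ range (K + 2) := ⟨_, rfl⟩
  have hcell : ∀ (j : ℕ) i, fcell N lam (s j i) ∈ I := by
    intro j i
    rw [hI, mem_product]
    refine ⟨mem_univ _, ?_⟩
    rw [mem_range]
    have e1 : (fcell N lam (s j i)).2 ≤ K := by
      rw [hK]
      refine Nat.floor_le_floor ?_
      rw [div_le_div_iff₀ hln h0]
      have e2 : (2 * |(s j i)| : ℝ) ≤ N := by exact_mod_cast hs2 j i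
      push_cast at e2
      nlinarith [abs_nonneg (s j i : ℝ)]
    omega
  have hinj : Set.InjOn (fun (j : ℕ) (i : Fin 4) => fcell N lam (s j i))
      (((range N).erase 0 : Finset ℕ) : Set ℕ) := by
    have key : ∀ j j' : ℕ, j < j' → j' < N →
        (fun (i : Fin 4) => fcell N lam (s j i)) ≠ (fun (i : Fin 4) => fcell N lam (s j' i)) := by
      intro j j' h2 h3 h4
      obtain ⟨i0, hi0⟩ := h ((j' : ℤ) - j) (by omega) (by omega) (fun i => s j' i - s j i) (by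
        intro i
        have e1 := dvd_sub (hs1 j' i) (hs1 j i)
        have e2 : ((j' : ℤ) - j) * a i - (s j' i - s j i) =
          (j' : ℤ) * a i - s j' i - ((j : ℤ) * a i - s j i) := by ring
        rw [e2]
        exact e1)
      have h5 := fcell_close N hN lam h0 (s j' i0) (s j i0) (congrFun h4 i0).symm
      linarith
    intro j hj j' hj' h4
    rw [Finset.mem_coe, mem_erase, mem_range] at hj hj'
    dsimp only at h4
    rcases lt_trichotomy j j' with h5 | h5 | h5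
    · exact absurd h4 (key j j' h5 hj'.2)
    · exact h5
    · exact absurd h4.symm (key j' j h5 hj.2)
  have hsum2 : ∑ j ∈ (range N).erase 0, ∏ i, ‖fD N T (j * a i)‖ ^ 2 ≤ (3 * (T : ℝ) ^ 2) ^ 4 := by
    calc ∑ j ∈ (range N).erase 0, ∏ i, ‖fD N T (j * a i)‖ ^ 2
        ≤ ∑ j ∈ (range N).erase 0, ∏ i, fka T A (fcell N lam (s j i)).2 :=
          Finset.sum_le_sum fun j _ => Finset.prod_le_prod (fun i _ => by positivity)
            fun i _ => hfac j i
      _ = ∑ c ∈ ((range N).erase 0).image (fun (j : ℕ) (i : Fin 4) => fcell N lam (s j i)),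
            ∏ i, fka T A (c i).2 := by
          rw [Finset.sum_image hinj]
      _ ≤ ∑ c ∈ Fintype.piFinset (fun _ : Fin 4 => I), ∏ i, fka T A (c i).2 := by
          refine Finset.sum_le_sum_of_subset_of_nonneg ?_ fun c _ _ =>
            Finset.prod_nonneg fun i _ => fka_nonneg T A hA0 _
          intro c hc
          rw [Finset.mem_image] at hc
          obtain ⟨j, _, rfl⟩ := hc
          rw [Fintype.mem_piFinset]
          exact fun i => hcell j i
      _ = ∏ _i : Fin 4, ∑ x ∈ I, fka T A x.2 := by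
          rw [Finset.prod_univ_sum]
      _ = (∑ x ∈ I, fka T A x.2) ^ 4 := by
          rw [Finset.prod_const, Finset.card_univ, Fintype.card_fin]
      _ ≤ (3 * (T : ℝ) ^ 2) ^ 4 := by
          refine pow_le_pow_left₀ (Finset.sum_nonneg fun x _ => fka_nonneg T A hA0 _) ?_ 4
          rw [hI, Finset.sum_product]
          dsimp only
          rw [Finset.sum_const, Finset.card_univ, Fintype.card_bool, nsmul_eq_mul]
          have e1 := fka_sum T A hA0 K
          have e2 : A * (2 - 1 / ((K : ℝ) + 1)) ≤ A * 2 := by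
            refine mul_le_mul_of_nonneg_left ?_ hA0
            have : (0 : ℝ) ≤ 1 / ((K : ℝ) + 1) := by positivity
            linarith
          push_cast
          nlinarith
  have hfin : ∑ j ∈ (range N).erase 0, ∏ i, ‖fD N T (j * a i)‖ ^ 4 ≤
      A * ((T : ℝ) ^ 2) ^ 3 * (3 * (T : ℝ) ^ 2) ^ 4 := by
    calc ∑ j ∈ (range N).erase 0, ∏ i, ‖fD N T (j * a i)‖ ^ 4
        ≤ ∑ j ∈ (range N).erase 0, A * ((T : ℝ) ^ 2) ^ 3 * ∏ i, ‖fD N T (j * a i)‖ ^ 2 := by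
          refine Finset.sum_le_sum fun j hj => ?_
          have e1 : ∏ i, ‖fD N T (j * a i)‖ ^ 4 =
              (∏ i, ‖fD N T (j * a i)‖ ^ 2) * ∏ i, ‖fD N T (j * a i)‖ ^ 2 := by
            rw [← Finset.prod_mul_distrib]
            exact Finset.prod_congr rfl fun i _ => by ring
          rw [e1]
          exact mul_le_mul_of_nonneg_right (hone j hj) (Finset.prod_nonneg fun i _ => by positivity)
      _ = A * ((T : ℝ) ^ 2) ^ 3 * ∑ j ∈ (range N).erase 0, ∏ i, ‖fD N T (j * a i)‖ ^ 2 := by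
          rw [Finset.mul_sum]
      _ ≤ _ := mul_le_mul_of_nonneg_left hsum2 (by positivity)
  have hlast : A * ((T : ℝ) ^ 2) ^ 3 * (3 * (T : ℝ) ^ 2) ^ 4 < (T : ℝ) ^ 16 := by
    have e1 : A * ((T : ℝ) ^ 2) ^ 3 * (3 * (T : ℝ) ^ 2) ^ 4 = A * (81 * (T : ℝ) ^ 14) := by ring
    rw [e1]
    have e2 : A * (81 * (T : ℝ) ^ 14) ≤ (T : ℝ) ^ 2 / 100 * (81 * (T : ℝ) ^ 14) :=
      mul_le_mul_of_nonneg_right hAT (by positivity)
    have e3 : (T : ℝ) ^ 2 / 100 * (81 * (T : ℝ) ^ 14) = 81 / 100 * (T : ℝ) ^ 16 := by ring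
    have e4 : (0 : ℝ) < (T : ℝ) ^ 16 := by positivity
    linarith
  linarith

end Pool.Agent.H7.HP
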