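import Pool.Agent.H7.HP.Defs

set_option autoImplicit false
set_option linter.unusedSectionVars false

/-!
# [H7 HP FRM] elementary identities for quadratic forms given by coefficients

All statements are finite sums over `Idx n`. `qv_add`: `c p * ((x+y)_i (x+y)_j)` expanded.
`qv_lm`: `∑_{i ≤ j} (coefficient of l m) x_i x_j = ∑_i ∑_j l_i m_j x_i x_j` (split the double sum over
all pairs into `i ≤ j` and `j < i`). `pl_sum`: bilinearity, `x = ∑ x_i e_i`.
`mk5`, `tl`: `Fin` computations.
-/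

namespace Pool.Agent.H7.HP

open Finset

section Forms

variable {R : Type*} [CommRing R] {n : ℕ}

theorem qv_smul (c : Idx n → R) (t : R) (x : Fin n → R) :
    qv c (fun i => t * x i) = t ^ 2 * qv c x := by
  unfold qv
  rw [mul_sum]
  exact sum_congr rfl fun p _ => by ring

theorem qv_add (c : Idx n → R) (x y : Fin n → R) :
    qv c (fun i => x i + y i) = qv c x + qv c y + pl c x y := by
  unfold qv pl
  rw [← sum_add_distrib, ← sum_add_distrib]
  exact sum_congr rfl fun p _ => by ring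

theorem qv_addc (c d : Idx n → R) (x : Fin n → R) :
    qv (fun p => c p + d p) x = qv c x + qv d x := by
  unfold qv
  rw [← sum_add_distrib]
  exact sum_congr rfl fun p _ => by ring

theorem qv_smulc (c : Idx n → R) (t : R) (x : Fin n → R) :
    qv (fun p => t * c p) x = t * qv c x := by
  unfold qv
  rw [mul_sum]
  exact sum_congr rfl fun p _ => by ring

theorem qv_zero (c : Idx n → R) : qv c (fun _ => 0) = 0 := by
  unfold qv
  exact sum_eq_zero fun p _ => by ring

private theorem Frm_split (F : Fin n → Fin n → R) :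
    (∑ p : Idx n, if p.1.1 = p.1.2 then F p.1.1 p.1.1 else F p.1.1 p.1.2 + F p.1.2 p.1.1) =
      ∑ i, ∑ j, F i j := by
  have h1 : ∑ i, ∑ j, F i j = ∑ p : Fin n × Fin n, F p.1 p.2 := by
    rw [Fintype.sum_prod_type]
  have h2 : ∑ p : Fin n × Fin n, F p.1 p.2 =
      ∑ p ∈ univ.filter (fun p : Fin n × Fin n => p.1 ≤ p.2), F p.1 p.2 +
        ∑ p ∈ univ.filter (fun p : Fin n × Fin n => ¬ p.1 ≤ p.2), F p.1 p.2 :=
    (sum_filter_add_sum_filter_not _ _ _).symm
  have h3 : ∑ p ∈ univ.filter (fun p : Fin n × Fin n => ¬ p.1 ≤ p.2), F p.1 p.2 =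
      ∑ p ∈ univ.filter (fun p : Fin n × Fin n => p.1 ≤ p.2), if p.1 = p.2 then 0 else F p.2 p.1 := by
    rw [← sum_filter_add_sum_filter_not (univ.filter (fun p : Fin n × Fin n => p.1 ≤ p.2))
      (fun p => p.1 = p.2)]
    have e1 : ∑ p ∈ (univ.filter (fun p : Fin n × Fin n => p.1 ≤ p.2)).filter (fun p => p.1 = p.2),
        (if p.1 = p.2 then 0 else F p.2 p.1) = 0 := by
      refine sum_eq_zero fun p hp => ?_
      rw [if_pos (mem_filter.1 hp).2]
    rw [e1, zero_add]
    refine sum_nbij' Prod.swap Prod.swap ?_ ?_ (fun p _ => rfl) (fun p _ => rfl) ?_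
    · intro p hp
      have h := (mem_filter.1 hp).2
      rw [mem_filter, mem_filter]
      refine ⟨⟨mem_univ _, ?_⟩, ?_⟩
      · exact (not_le.1 h).le
      · exact (not_le.1 h).ne
    · intro p hp
      rw [mem_filter, mem_filter] at hp
      rw [mem_filter]
      refine ⟨mem_univ _, ?_⟩
      have h := lt_of_le_of_ne hp.1.2 hp.2
      exact not_le.2 h
    · intro p hp
      have h := (mem_filter.1 hp).2
      have hne : p.swap.1 ≠ p.swap.2 := (not_le.1 h).ne
      rw [if_neg hne]
      rfl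
  rw [h1, h2, h3, ← sum_add_distrib]
  rw [← sum_subtype (univ.filter (fun p : Fin n × Fin n => p.1 ≤ p.2))
    (p := fun p : Fin n × Fin n => p.1 ≤ p.2) (by simp)
    (fun p : Fin n × Fin n => if p.1 = p.2 then F p.1 p.1 else F p.1 p.2 + F p.2 p.1)]
  refine sum_congr rfl fun p _ => ?_
  split_ifs with h
  · rw [h, add_zero]
  · rfl

theorem qv_lm (l m x : Fin n → R) :
    qv (lm l m) x = (∑ i, l i * x i) * ∑ i, m i * x i := by
  have h1 := Frm_split (fun i j : Fin n => l i * x i * (m j * x j))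
  rw [sum_mul_sum, ← h1]
  unfold qv lm
  refine sum_congr rfl fun p _ => ?_
  split_ifs with h
  · rw [h]
    ring
  · ring

theorem pl_comm (c : Idx n → R) (x y : Fin n → R) : pl c x y = pl c y x := by
  unfold pl
  exact sum_congr rfl fun p _ => by ring

theorem pl_self (c : Idx n → R) (x : Fin n → R) : pl c x x = 2 * qv c x := by
  unfold pl qv
  rw [mul_sum]
  exact sum_congr rfl fun p _ => by ring

theorem pl_add (c : Idx n → R) (x y z : Fin n → R) :
    pl c x (fun i => y i + z i) = pl c x y + pl c x z := by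
  unfold pl
  rw [← sum_add_distrib]
  exact sum_congr rfl fun p _ => by ring

theorem pl_smul (c : Idx n → R) (t : R) (x y : Fin n → R) :
    pl c x (fun i => t * y i) = t * pl c x y := by
  unfold pl
  rw [mul_sum]
  exact sum_congr rfl fun p _ => by ring

private theorem Frm_lin (c : Idx n → R) (x y : Fin n → R) :
    pl c x y = ∑ i, x i * pl c (Pi.single i 1) y := by
  have key : ∀ k : Fin n, ∑ i, x i * (Pi.single i 1 : Fin n → R) k = x k := by
    intro k
    rw [sum_eq_single k]
    · simp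
    · intro i _ hi
      rw [Pi.single_apply, if_neg (Ne.symm hi), mul_zero]
    · intro h
      exact absurd (mem_univ k) h
  unfold pl
  simp only [mul_sum]
  rw [sum_comm]
  refine sum_congr rfl fun p _ => ?_
  nth_rewrite 1 [← key p.1.1]
  nth_rewrite 1 [← key p.1.2]
  rw [sum_mul, sum_mul, ← sum_add_distrib, mul_sum]
  exact sum_congr rfl fun i _ => by ring

theorem pl_Hm (c : Idx n → R) (x y : Fin n → R) :
    pl c x y = ∑ i, ∑ j, x i * Hm c i j * y j := by
  rw [Frm_lin c x y]
  refine sum_congr rfl fun i _ => ?_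
  rw [pl_comm, Frm_lin c y, mul_sum]
  refine sum_congr rfl fun j _ => ?_
  unfold Hm
  rw [Matrix.of_apply, pl_comm c (Pi.single i 1)]
  ring

theorem Hm_symm (c : Idx n → R) (i j : Fin n) : Hm c i j = Hm c j i := by
  unfold Hm
  rw [Matrix.of_apply, Matrix.of_apply, pl_comm]

theorem Hm_diag (c : Idx n → R) (i : Fin n) : Hm c i i = 2 * qv c (Pi.single i 1) := by
  unfold Hm
  rw [Matrix.of_apply, pl_self]

/-- a ring homomorphism applied to the values -/
theorem qv_map {S : Type*} [CommRing S] (φ : R →+* S) (c : Idx n → R) (x : Fin n → R) :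
    φ (qv c x) = qv (fun p => φ (c p)) (fun i => φ (x i)) := by
  unfold qv
  rw [map_sum]
  exact sum_congr rfl fun p _ => by rw [map_mul, map_mul]

theorem pl_map {S : Type*} [CommRing S] (φ : R →+* S) (c : Idx n → R) (x y : Fin n → R) :
    φ (pl c x y) = pl (fun p => φ (c p)) (fun i => φ (x i)) (fun i => φ (y i)) := by
  unfold pl
  rw [map_sum]
  exact sum_congr rfl fun p _ => by rw [map_mul, map_add, map_mul, map_mul]

theorem Hm_map {S : Type*} [CommRing S] (φ : R →+* S) (c : Idx n → R) :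
    Hm (fun p => φ (c p)) = (Hm c).map φ := by
  ext i j
  have h : ∀ i : Fin n, (fun k => φ ((Pi.single i 1 : Fin n → R) k)) = Pi.single i 1 := by
    intro i
    funext k
    rw [Pi.single_apply, Pi.single_apply]
    split_ifs
    · exact map_one φ
    · exact map_zero φ
  rw [Matrix.map_apply]
  unfold Hm
  rw [Matrix.of_apply, Matrix.of_apply, pl_map, h, h]

theorem ff_map {S : Type*} [CommRing S] (φ : R →+* S) (a : Idx 3 → R) (x : Fin 5 → R) :
    φ (ff a x) = ff (fun p => φ (a p)) (fun i => φ (x i)) := by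
  unfold ff
  rw [map_sub, map_mul, qv_map]
  congr 2
  funext i
  fin_cases i <;> rfl

theorem ff_smul (a : Idx 3 → R) (t : R) (x : Fin 5 → R) :
    ff a (fun i => t * x i) = t ^ 2 * ff a x := by
  unfold ff
  have h : tl (fun i => t * x i) = fun i => t * tl x i := by
    funext i
    fin_cases i <;> rfl
  rw [h, qv_smul]
  ring

theorem tl_mk5 (x0 x1 : R) (u : Fin 3 → R) : tl (mk5 x0 x1 u) = u := by
  funext i
  fin_cases i <;> rfl

theorem mk5_tl (x : Fin 5 → R) : mk5 (x 0) (x 1) (tl x) = x := by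
  funext i
  fin_cases i <;> rfl

theorem ff_mk5 (a : Idx 3 → R) (x0 x1 : R) (u : Fin 3 → R) :
    ff a (mk5 x0 x1 u) = x0 * x1 - qv a u := by
  unfold ff
  rw [tl_mk5]
  rfl

end Forms

theorem card_Idx3 : Fintype.card (Idx 3) = 6 := by
  rfl

theorem card_Idx5 : Fintype.card (Idx 5) = 15 := by
  rfl

theorem mem_bx {n T : ℕ} {x : Fin n → ℤ} : x ∈ bx n T ↔ ∀ i, |x i| ≤ T := by
  unfold bx
  rw [Fintype.mem_piFinset]
  refine forall_congr' fun i => ?_
  rw [mem_Icc, abs_le]

theorem mem_bf {n T : ℕ} {g : Idx n → ℤ} : g ∈ bf n T ↔ ∀ p, |g p| ≤ T := by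
  unfold bf
  rw [Fintype.mem_piFinset]
  refine forall_congr' fun i => ?_
  rw [mem_Icc, abs_le]

theorem card_bf5 (T : ℕ) : (bf 5 T).card = (2 * T + 1) ^ 15 := by
  unfold bf
  rw [Fintype.card_piFinset, prod_const, card_univ, card_Idx5, Int.card_Icc]
  congr 1
  omega

theorem card_bx3 (T : ℕ) : (bx 3 T).card = (2 * T + 1) ^ 3 := by
  unfold bx
  rw [Fintype.card_piFinset, prod_const, card_univ, Fintype.card_fin, Int.card_Icc]
  congr 1
  omega

/-- `|h(u)| ≤ (∑ |a_p|) U^2` -/
theorem abs_qv_le {n : ℕ} (c : Idx n → ℝ) (x : Fin n → ℝ) {U : ℝ} (hU : ∀ i, |x i| ≤ U) :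
    |qv c x| ≤ (∑ p, |c p|) * U ^ 2 := by
  unfold qv
  refine (abs_sum_le_sum_abs _ _).trans ?_
  rw [sum_mul]
  refine sum_le_sum fun p _ => ?_
  rw [abs_mul, abs_mul, pow_two]
  refine mul_le_mul_of_nonneg_left ?_ (abs_nonneg _)
  exact mul_le_mul (hU _) (hU _) (abs_nonneg _) ((abs_nonneg _).trans (hU p.1.1))

theorem abs_pl_le {n : ℕ} (c : Idx n → ℝ) (x y : Fin n → ℝ) {U V : ℝ} (hU : ∀ i, |x i| ≤ U)
    (hV : ∀ i, |y i| ≤ V) : |pl c x y| ≤ 2 * (∑ p, |c p|) * U * V := by
  unfold pl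
  refine (abs_sum_le_sum_abs _ _).trans ?_
  have h1 : 2 * (∑ p, |c p|) * U * V = ∑ p, |c p| * (U * V + U * V) := by
    rw [← sum_mul]
    ring
  rw [h1]
  refine sum_le_sum fun p _ => ?_
  rw [abs_mul]
  refine mul_le_mul_of_nonneg_left ((abs_add_le _ _).trans ?_) (abs_nonneg _)
  rw [abs_mul, abs_mul]
  have h2 : 0 ≤ U := (abs_nonneg _).trans (hU p.1.1)
  exact add_le_add (mul_le_mul (hU _) (hV _) (abs_nonneg _) h2)
    (mul_le_mul (hU _) (hV _) (abs_nonneg _) h2)

theorem prim_iff {n : ℕ} (x : Fin n → ℤ) :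
    Prim x ↔ ∀ p : ℕ, p.Prime → ¬ ∀ i, (p : ℤ) ∣ x i := by
  constructor
  · rintro ⟨m, hm⟩ p hp h
    have h1 : (p : ℤ) ∣ 1 := by
      rw [← hm]
      exact dvd_sum fun i _ => (h i).mul_left _
    have h2 : p ∣ 1 := by exact_mod_cast h1
    exact hp.one_lt.ne' (Nat.dvd_one.1 h2)
  · intro h
    set I : Ideal ℤ := Ideal.span (Set.range x) with hI
    set d : ℤ := Submodule.IsPrincipal.generator I with hd
    have hdx : ∀ i, d ∣ x i := by
      intro i
      have h1 : x i ∈ I := Ideal.subset_span ⟨i, rfl⟩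
      rw [← Ideal.span_singleton_generator I, Ideal.mem_span_singleton] at h1
      exact h1
    have hd1 : d.natAbs = 1 := by
      by_contra hne
      obtain ⟨p, hp, hpd⟩ := Nat.exists_prime_and_dvd hne
      exact h p hp fun i => (Int.natCast_dvd.2 hpd).trans (hdx i)
    have htop : I = ⊤ := by
      rw [← Ideal.span_singleton_generator I]
      exact Ideal.span_singleton_eq_top.2 (Int.isUnit_iff_natAbs_eq.2 hd1)
    have h1 : (1 : ℤ) ∈ Ideal.span (Set.range x) := by
      rw [← hI, htop]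
      exact Submodule.mem_top
    obtain ⟨m, hm⟩ := Ideal.mem_span_range_iff_exists_fun.1 h1
    exact ⟨m, hm⟩

end Pool.Agent.H7.HP
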