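import Pool.Agent.H7.HP.Frm

set_option autoImplicit false
set_option linter.unusedSectionVars false

/-!
# [H7 HP GAU] Gauss sums of a ternary form modulo a prime, 90-150 lines

`l` an odd prime, `α : Idx 3 → ZMod l`, `det (Hm α) ≠ 0`, `ψ = ZMod.stdAddChar` (any nontrivial additive character).
* `gss`: `S = ∑_v ψ (t h(v) + b.v)`, `t ≠ 0`: `|S|^2 = ∑_v ∑_w ψ (t (h(v + w) - h(v)) + b.w)` (put `v' = v + w`) `=
  ∑_w ψ (t h(w) + b.w) ∑_v ψ (t pl(v, w))`, and the inner sum is `l^3` if `w = 0` and `0` otherwise (`pl(., w) = ∑_i v_i (H w)_i`, `H w ≠ 0`;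
  orthogonality of characters in each coordinate). So `|S|^2 = l^3`.
* `con`: `∑_{v : h(v) = 0} ψ (b.v) = (1/l) ∑_t ∑_v ψ (t h(v) + b.v)`; the term `t = 0` is `l^3/l = l^2` if `b = 0` and `0` otherwise; the `l - 1`
  others have absolute value `l^(3/2)`: together at most `l^(3/2)`.
* `con0`: the number of zeros is at most `2 l^2`.
-/

namespace Pool.Agent.H7.HP

open Finset

variable (l : ℕ) [Fact l.Prime]

private theorem gau_sum {ι : Type*} (s : Finset ι) (f : ι → ZMod l) :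
    (ZMod.stdAddChar (∑ i ∈ s, f i) : ℂ) = ∏ i ∈ s, ZMod.stdAddChar (f i) := by
  classical
  induction s using Finset.induction_on with
  | empty => simp
  | insert a s ha ih => rw [Finset.sum_insert ha, Finset.prod_insert ha, AddChar.map_add_eq_mul, ih]

/-- orthogonality -/
private theorem gau_orth (c : Fin 3 → ZMod l) :
    ∑ v : Fin 3 → ZMod l, (ZMod.stdAddChar (∑ i, c i * v i) : ℂ) =
      if c = 0 then (l : ℂ) ^ 3 else 0 := by
  classical
  have h1 : ∑ v : Fin 3 → ZMod l, (ZMod.stdAddChar (∑ i, c i * v i) : ℂ) =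
      ∏ i : Fin 3, ∑ x : ZMod l, (ZMod.stdAddChar (c i * x) : ℂ) := by
    rw [Finset.prod_univ_sum, Fintype.piFinset_univ]
    apply Finset.sum_congr rfl
    intro v _
    rw [gau_sum]
  have h2 : ∀ i, ∑ x : ZMod l, (ZMod.stdAddChar (c i * x) : ℂ) = if c i = 0 then (l : ℂ) else 0 := by
    intro i
    have h3 := AddChar.sum_mulShift (c i) (ZMod.isPrimitive_stdAddChar l)
    rw [ZMod.card] at h3
    simp only [mul_comm _ (c i)] at h3
    rw [h3]
    split_ifs <;> simp
  rw [h1, Finset.prod_congr rfl fun i _ => h2 i]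
  split_ifs with h
  · simp [h]
  · obtain ⟨i, hi⟩ := Function.ne_iff.1 h
    exact Finset.prod_eq_zero (Finset.mem_univ i) (if_neg hi)

theorem gss (hl : l ≠ 2) (α : Idx 3 → ZMod l) (hα : (Hm α).det ≠ 0) (t : ZMod l) (ht : t ≠ 0)
    (b : Fin 3 → ZMod l) :
    ‖∑ v : Fin 3 → ZMod l, ZMod.stdAddChar (t * qv α v + ∑ i, b i * v i)‖ ^ 2 = (l : ℝ) ^ 3 := by
  classical
  set S : ℂ := ∑ v : Fin 3 → ZMod l, ZMod.stdAddChar (t * qv α v + ∑ i, b i * v i) with hS
  have key : S * (starRingEnd ℂ) S = (l : ℂ) ^ 3 := by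
    have h1 : (starRingEnd ℂ) S =
        ∑ v : Fin 3 → ZMod l, (ZMod.stdAddChar (-(t * qv α v + ∑ i, b i * v i)) : ℂ) := by
      rw [hS, map_sum]
      apply Finset.sum_congr rfl
      intro v _
      rw [AddChar.map_neg_eq_conj]
    have h2 : S * (starRingEnd ℂ) S = ∑ v : Fin 3 → ZMod l, ∑ w : Fin 3 → ZMod l,
        (ZMod.stdAddChar (t * qv α w + ∑ i, b i * w i) : ℂ) *
          ZMod.stdAddChar (t * pl α v w) := by
      rw [h1, Finset.mul_sum]
      apply Finset.sum_congr rfl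
      intro v _
      rw [hS, Finset.sum_mul]
      rw [← Equiv.sum_comp (Equiv.addLeft v)]
      apply Finset.sum_congr rfl
      intro w _
      rw [← AddChar.map_add_eq_mul, ← AddChar.map_add_eq_mul]
      congr 1
      have h3 : (Equiv.addLeft v) w = fun i => v i + w i := rfl
      rw [h3, qv_add]
      have h4 : ∑ i, b i * (v i + w i) = ∑ i, b i * v i + ∑ i, b i * w i := by
        rw [← Finset.sum_add_distrib]
        exact Finset.sum_congr rfl fun i _ => mul_add _ _ _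
      rw [h4]
      ring
    rw [h2, Finset.sum_comm]
    have h5 : ∀ w : Fin 3 → ZMod l, ∑ v : Fin 3 → ZMod l,
        (ZMod.stdAddChar (t * qv α w + ∑ i, b i * w i) : ℂ) *
          ZMod.stdAddChar (t * pl α v w) = if w = 0 then (l : ℂ) ^ 3 else 0 := by
      intro w
      rw [← Finset.mul_sum]
      have h6 : ∀ v : Fin 3 → ZMod l, t * pl α v w = ∑ i, (t * ((Hm α).mulVec w) i) * v i := by
        intro v
        rw [pl_Hm, Finset.mul_sum]
        apply Finset.sum_congr rfl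
        intro i _
        rw [Matrix.mulVec, dotProduct, Finset.mul_sum, Finset.mul_sum, Finset.sum_mul]
        apply Finset.sum_congr rfl
        intro j _
        ring
      have h6' : ∑ v : Fin 3 → ZMod l, (ZMod.stdAddChar (t * pl α v w) : ℂ) =
          ∑ v : Fin 3 → ZMod l, (ZMod.stdAddChar (∑ i, (t * ((Hm α).mulVec w) i) * v i) : ℂ) :=
        Finset.sum_congr rfl fun v _ => by rw [h6 v]
      rw [h6', gau_orth l (fun i => t * ((Hm α).mulVec w) i)]
      by_cases hw : w = 0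
      · subst hw
        have h7 : (fun i => t * ((Hm α).mulVec 0) i) = 0 := by
          ext i
          simp
        have h8 : qv α (0 : Fin 3 → ZMod l) = 0 := qv_zero α
        rw [if_pos h7, if_pos rfl, h8]
        simp
      · rw [if_neg hw, if_neg, mul_zero]
        intro h7
        apply hw
        have h8 : (Hm α).mulVec w = 0 := by
          ext i
          have := congrFun h7 i
          simp only [Pi.zero_apply, mul_eq_zero] at this
          rcases this with h | h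
          · exact absurd h ht
          · exact h
        by_contra hw0
        exact hα (Matrix.exists_mulVec_eq_zero_iff.1 ⟨w, hw0, h8⟩)
    rw [Finset.sum_congr rfl fun w _ => h5 w, Finset.sum_ite_eq']
    simp
  have h9 : ((‖S‖ ^ 2 : ℝ) : ℂ) = ((l : ℝ) ^ 3 : ℝ) := by
    push_cast
    rw [← Complex.mul_conj', key]
  exact_mod_cast h9

private theorem gau_norm (hl : l ≠ 2) (α : Idx 3 → ZMod l) (hα : (Hm α).det ≠ 0) (t : ZMod l)
    (ht : t ≠ 0) (b : Fin 3 → ZMod l) :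
    ‖∑ v : Fin 3 → ZMod l, ZMod.stdAddChar (t * qv α v + ∑ i, b i * v i)‖ =
      (l : ℝ) ^ (3 / 2 : ℝ) := by
  have h1 := gss l hl α hα t ht b
  have h2 : ((l : ℝ) ^ (3 / 2 : ℝ)) ^ 2 = (l : ℝ) ^ 3 := by
    rw [← Real.rpow_natCast, ← Real.rpow_mul (Nat.cast_nonneg l), ← Real.rpow_natCast]
    norm_num
  rw [← h2] at h1
  exact (pow_left_inj₀ (norm_nonneg _) (by positivity) two_ne_zero).1 h1

theorem con (hl : l ≠ 2) (α : Idx 3 → ZMod l) (hα : (Hm α).det ≠ 0) (b : Fin 3 → ZMod l) :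
    ‖∑ v ∈ (univ : Finset (Fin 3 → ZMod l)).filter (fun v => qv α v = 0),
      ZMod.stdAddChar (∑ i, b i * v i) - (if b = 0 then (l : ℂ) ^ 2 else 0)‖ ≤
      (l : ℝ) ^ (3 / 2 : ℝ) := by
  classical
  have hlp : (0 : ℝ) < l := by
    exact_mod_cast (Fact.out : l.Prime).pos
  have hlc : (l : ℂ) ≠ 0 := by
    exact_mod_cast (Fact.out : l.Prime).ne_zero
  set T : ℂ := ∑ v ∈ (univ : Finset (Fin 3 → ZMod l)).filter (fun v => qv α v = 0),
      ZMod.stdAddChar (∑ i, b i * v i) with hT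
  have h1 : (l : ℂ) * T = ∑ t : ZMod l, ∑ v : Fin 3 → ZMod l,
      (ZMod.stdAddChar (t * qv α v + ∑ i, b i * v i) : ℂ) := by
    rw [Finset.sum_comm, hT, Finset.sum_filter, Finset.mul_sum]
    apply Finset.sum_congr rfl
    intro v _
    have h2 : ∑ t : ZMod l, (ZMod.stdAddChar (t * qv α v + ∑ i, b i * v i) : ℂ) =
        (∑ t : ZMod l, (ZMod.stdAddChar (t * qv α v) : ℂ)) * ZMod.stdAddChar (∑ i, b i * v i) := by
      rw [Finset.sum_mul]
      exact Finset.sum_congr rfl fun t _ => AddChar.map_add_eq_mul _ _ _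
    have h3 := AddChar.sum_mulShift (qv α v) (ZMod.isPrimitive_stdAddChar l)
    rw [ZMod.card] at h3
    rw [h2, h3]
    split_ifs <;> simp
  rw [← Finset.add_sum_erase _ _ (Finset.mem_univ (0 : ZMod l))] at h1
  have h4 : ∑ v : Fin 3 → ZMod l, (ZMod.stdAddChar ((0 : ZMod l) * qv α v + ∑ i, b i * v i) : ℂ) =
      (l : ℂ) * (if b = 0 then (l : ℂ) ^ 2 else 0) := by
    have h5 := gau_orth l b
    simp only [zero_mul, zero_add]
    rw [h5]
    split_ifs
    · ring
    · ring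
  rw [h4] at h1
  have h6 : (l : ℂ) * (T - (if b = 0 then (l : ℂ) ^ 2 else 0)) =
      ∑ t ∈ univ.erase (0 : ZMod l), ∑ v : Fin 3 → ZMod l,
        (ZMod.stdAddChar (t * qv α v + ∑ i, b i * v i) : ℂ) := by
    rw [mul_sub, h1]
    ring
  have h7 : (l : ℝ) * ‖T - (if b = 0 then (l : ℂ) ^ 2 else 0)‖ ≤ l * (l : ℝ) ^ (3 / 2 : ℝ) := by
    have h8 : (l : ℝ) * ‖T - (if b = 0 then (l : ℂ) ^ 2 else 0)‖ =
        ‖(l : ℂ) * (T - (if b = 0 then (l : ℂ) ^ 2 else 0))‖ := by
      rw [norm_mul, Complex.norm_natCast]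
    rw [h8, h6]
    calc ‖∑ t ∈ univ.erase (0 : ZMod l), ∑ v : Fin 3 → ZMod l,
          (ZMod.stdAddChar (t * qv α v + ∑ i, b i * v i) : ℂ)‖
        ≤ ∑ t ∈ univ.erase (0 : ZMod l), ‖∑ v : Fin 3 → ZMod l,
          (ZMod.stdAddChar (t * qv α v + ∑ i, b i * v i) : ℂ)‖ := norm_sum_le _ _
      _ = ∑ t ∈ univ.erase (0 : ZMod l), (l : ℝ) ^ (3 / 2 : ℝ) :=
          Finset.sum_congr rfl fun t ht => gau_norm l hl α hα t (Finset.ne_of_mem_erase ht) b
      _ = ((univ.erase (0 : ZMod l)).card : ℝ) * (l : ℝ) ^ (3 / 2 : ℝ) := by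
          rw [Finset.sum_const, nsmul_eq_mul]
      _ ≤ l * (l : ℝ) ^ (3 / 2 : ℝ) := by
          apply mul_le_mul_of_nonneg_right _ (by positivity)
          have h9 : (univ.erase (0 : ZMod l)).card ≤ l := by
            refine (Finset.card_erase_le).trans ?_
            rw [Finset.card_univ, ZMod.card]
          exact_mod_cast h9
  exact le_of_mul_le_mul_left h7 hlp

theorem con0 (hl : l ≠ 2) (α : Idx 3 → ZMod l) (hα : (Hm α).det ≠ 0) :
    ((univ : Finset (Fin 3 → ZMod l)).filter (fun v => qv α v = 0)).card ≤ 2 * l ^ 2 := by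
  classical
  have h1 := con l hl α hα 0
  have h2 : ∑ v ∈ (univ : Finset (Fin 3 → ZMod l)).filter (fun v => qv α v = 0),
      (ZMod.stdAddChar (∑ i, (0 : Fin 3 → ZMod l) i * v i) : ℂ) =
      (((univ : Finset (Fin 3 → ZMod l)).filter (fun v => qv α v = 0)).card : ℂ) := by
    simp
  rw [h2, if_pos rfl] at h1
  set c := ((univ : Finset (Fin 3 → ZMod l)).filter (fun v => qv α v = 0)).card with hc
  have h3 : (c : ℂ) - (l : ℂ) ^ 2 = (((c : ℝ) - (l : ℝ) ^ 2 : ℝ) : ℂ) := by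
    push_cast
    ring
  rw [h3, Complex.norm_real, Real.norm_eq_abs] at h1
  have h4 := (abs_le.1 h1).2
  have hl1 : (1 : ℝ) ≤ l := by
    exact_mod_cast (Fact.out : l.Prime).one_lt.le
  have h5 : (l : ℝ) ^ (3 / 2 : ℝ) ≤ (l : ℝ) ^ 2 := by
    rw [← Real.rpow_natCast (l : ℝ) 2]
    exact Real.rpow_le_rpow_of_exponent_le hl1 (by norm_num)
  have h6 : (c : ℝ) ≤ 2 * (l : ℝ) ^ 2 := by linarith
  exact_mod_cast h6

end Pool.Agent.H7.HP
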