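import Pool.Agent.H7.HP.CoreDefs

set_option autoImplicit false
set_option linter.unusedSectionVars false

/-!
# [H7 HP HEN] Hensel: many local solutions near a nondegenerate one, 130-210 lines

`q = p^v`. `GG a g q u = q^2 * g(h(u)/q, q, u)` if `q ∣ h(u)` (`qv_smul`), so `Sol a g q M u` means: `q ∣ h(u)`, `M q^2 ∣ GG a g q u`, and `mk5 (h(u)/q) q u` is not divisible by `p` if `v ≥ 1`.
PROOF. Let `E' = 2m + v + 2`, `E = 2m + 2v + 2` (`E' ≤ E`), `κ = 2 E'`. `i` with `p^(m+1)` not dividing `dGG u0 i`; let `m' ≤ m` be the exact valuation of `dGG u0 i`.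
If `e + 2v ≤ E'`: `UU` is not empty (`u0` reduced modulo `p^(e+2v)`: `p^E ∣ GG u0`), and `2e ≤ 2E'`. Otherwise: for each pair of residues `b` (for the two coordinates `j ≠ i`) in `[0, p^(e+2v))` with `b_j ≡ u0_j` modulo `p^E'`
(`p^(2(e + 2v - E'))` pairs) consider the polynomial `F(T) = p^v GG(b, T) ∈ ℤ_p[T]` (`GG a g q` with the coordinate `i` equal to `T`, the others `b`; degree 4): `F(u0_i) ≡ p^v GG(u0) ≡ 0` modulo `p^(v + E')` and
`F'(u0_i) ≡ p^v dGG(u0)_i` modulo `p^(v+E')`, so `|F'(u0_i)| = p^(-v-m')`, and `|F(u0_i)| ≤ p^(-v-E') < p^(-2v-2m')`. `hensels_lemma` gives `T ∈ ℤ_p` with `F(T) = 0`, `|T - u0_i| < p^(-v-m')`, so `T ≡ u0_i` modulo `p^(v+1)`.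
Let `u ∈ [0, p^(e+2v))^3` be the reduction of `(b, T)`: `u ≡ u0` modulo `p^(v+1)` (`e + 2v > E' ≥ v + 1`), so `h(u) ≡ h(u0)` modulo `p^(v+1)`: `p^v ∣ h(u)` and `h(u)/p^v ≡ h(u0)/p^v` modulo `p`: the primitivity condition at `p`
is that of `u0`; `GG(u) ≡ 0` modulo `p^(e+2v)`. So `u ∈ UU a (p^v) (p^e) g`; different `b` give different `u`.
-/

namespace Pool.Agent.H7.HP

open Finset

private theorem hen_exp (a : Idx 3 → ℤ) (g : Idx 5 → ℤ) (q : ℤ) (u : Fin 3 → ℤ) (i : Fin 3)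
    (t : ℤ) : ∃ k : ℤ, GG a g q (fun j => u j + t * (Pi.single i 1 : Fin 3 → ℤ) j) =
      GG a g q u + t * dGG a g q u i + t ^ 2 * k := by
  obtain ⟨e, he⟩ : ∃ e : Fin 3 → ℤ, e = Pi.single i 1 := ⟨_, rfl⟩
  unfold GG dGG
  rw [← he]
  obtain ⟨V, hV⟩ : ∃ V : Fin 5 → ℤ, V = mk5 (qv a u) (q ^ 2) fun j => q * u j := ⟨_, rfl⟩
  obtain ⟨V1, hV1⟩ : ∃ V1 : Fin 5 → ℤ, V1 = mk5 (pl a u e) 0 fun j => q * e j := ⟨_, rfl⟩
  obtain ⟨V2, hV2⟩ : ∃ V2 : Fin 5 → ℤ, V2 = mk5 (qv a e) 0 fun _ => 0 := ⟨_, rfl⟩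
  have h1 : qv a (fun j => u j + t * e j) = qv a u + t ^ 2 * qv a e + t * pl a u e := by
    rw [qv_add a u (fun j => t * e j), qv_smul, pl_smul]
  have h2 : mk5 (qv a (fun j => u j + t * e j)) (q ^ 2) (fun j => q * (u j + t * e j)) =
      fun r => V r + (fun r => t * (fun r => V1 r + t * V2 r) r) r := by
    rw [h1, hV, hV1, hV2]
    funext r
    fin_cases r <;> simp [mk5] <;> ring
  rw [h2, qv_add, qv_smul, pl_smul, pl_add, pl_smul, ← hV, ← hV1]
  exact ⟨qv g (fun r => V1 r + t * V2 r) + pl g V V2, by ring⟩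

private theorem hen_map {R S : Type*} [CommRing R] [CommRing S] (φ : R →+* S) (a : Idx 3 → R)
    (g : Idx 5 → R) (q : R) (u : Fin 3 → R) :
    φ (GG a g q u) = GG (fun r => φ (a r)) (fun r => φ (g r)) (φ q) (fun j => φ (u j)) := by
  unfold GG
  rw [qv_map]
  congr 1
  funext r
  fin_cases r <;> simp [mk5, qv_map]

private theorem hen_dmap {R S : Type*} [CommRing R] [CommRing S] (φ : R →+* S) (a : Idx 3 → R)
    (g : Idx 5 → R) (q : R) (u : Fin 3 → R) (i : Fin 3) :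
    φ (dGG a g q u i) = dGG (fun r => φ (a r)) (fun r => φ (g r)) (φ q) (fun j => φ (u j)) i := by
  unfold dGG
  rw [pl_map]
  have he : (fun k => φ ((Pi.single i 1 : Fin 3 → R) k)) = Pi.single i 1 := by
    funext k
    rw [Pi.single_apply, Pi.single_apply]
    split_ifs
    · exact map_one φ
    · exact map_zero φ
  congr 1
  · funext r
    fin_cases r <;> simp [mk5, qv_map]
  · funext r
    fin_cases r
    · simp [mk5, pl_map, he]
    · simp [mk5]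
    · simp only [mk5]
      simp [← he]
    · simp only [mk5]
      simp [← he]
    · simp only [mk5]
      simp [← he]

private theorem hen_cast {d : ℕ} {x y : ℤ} : (d : ℤ) ∣ x - y ↔
    (Int.castRingHom (ZMod d)) x = (Int.castRingHom (ZMod d)) y := by
  rw [eq_intCast, eq_intCast, eq_comm, ZMod.intCast_eq_intCast_iff_dvd_sub]

private theorem hen_congr {d : ℕ} {u u' : Fin 3 → ℤ} (h : ∀ j, (d : ℤ) ∣ u j - u' j) :
    (fun j => (Int.castRingHom (ZMod d)) (u j)) = fun j => (Int.castRingHom (ZMod d)) (u' j) := by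
  funext j
  exact hen_cast.1 (h j)

private theorem hen_cGG (a : Idx 3 → ℤ) (g : Idx 5 → ℤ) (q : ℤ) {d : ℕ} {u u' : Fin 3 → ℤ}
    (h : ∀ j, (d : ℤ) ∣ u j - u' j) : (d : ℤ) ∣ GG a g q u - GG a g q u' := by
  rw [hen_cast, hen_map, hen_map, hen_congr h]

private theorem hen_cdGG (a : Idx 3 → ℤ) (g : Idx 5 → ℤ) (q : ℤ) {d : ℕ} {u u' : Fin 3 → ℤ}
    (h : ∀ j, (d : ℤ) ∣ u j - u' j) (i : Fin 3) :
    (d : ℤ) ∣ dGG a g q u i - dGG a g q u' i := by
  rw [hen_cast, hen_dmap, hen_dmap, hen_congr h]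

private theorem hen_cqv (a : Idx 3 → ℤ) {d : ℕ} {u u' : Fin 3 → ℤ}
    (h : ∀ j, (d : ℤ) ∣ u j - u' j) : (d : ℤ) ∣ qv a u - qv a u' := by
  rw [hen_cast, qv_map, qv_map, hen_congr h]

/-- change of the coordinate `i` -/
private def upd (b : Fin 3 → ℤ) (i : Fin 3) (T : ℤ) : Fin 3 → ℤ :=
  fun j => b j + T * (Pi.single i 1 : Fin 3 → ℤ) j

/-- the lemma of Hensel, one step at a time -/
private theorem hen_lift (a : Idx 3 → ℤ) (g : Idx 5 → ℤ) (q : ℤ) (p : ℕ) (hp : p.Prime)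
    (b : Fin 3 → ℤ) (i : Fin 3) (m' K : ℕ) (hK : 2 * m' + 1 ≤ K)
    (h0 : ((p ^ K : ℕ) : ℤ) ∣ GG a g q b) (h1 : ((p ^ m' : ℕ) : ℤ) ∣ dGG a g q b i)
    (h2 : ¬ ((p ^ (m' + 1) : ℕ) : ℤ) ∣ dGG a g q b i) (n : ℕ) :
    ∃ T : ℤ, ((p ^ (K - m') : ℕ) : ℤ) ∣ T ∧ ((p ^ (K + n) : ℕ) : ℤ) ∣ GG a g q (upd b i T) := by
  induction n with
  | zero =>
    refine ⟨0, dvd_zero _, ?_⟩
    have : upd b i 0 = b := by
      funext j
      simp [upd]
    rw [this, add_zero]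
    exact h0
  | succ n ih =>
    obtain ⟨T, hT1, hT2⟩ := ih
    have hcong : ∀ j, ((p ^ (K - m') : ℕ) : ℤ) ∣ upd b i T j - b j := by
      intro j
      have : upd b i T j - b j = T * (Pi.single i 1 : Fin 3 → ℤ) j := by
        unfold upd
        ring
      rw [this]
      exact hT1.mul_right _
    have hD := hen_cdGG a g q hcong i
    have hm1 : ((p ^ (m' + 1) : ℕ) : ℤ) ∣ ((p ^ (K - m') : ℕ) : ℤ) := by
      exact_mod_cast pow_dvd_pow p (show m' + 1 ≤ K - m' by omega)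
    have hm0 : ((p ^ m' : ℕ) : ℤ) ∣ ((p ^ (K - m') : ℕ) : ℤ) := by
      exact_mod_cast pow_dvd_pow p (show m' ≤ K - m' by omega)
    have hd1 : ((p ^ m' : ℕ) : ℤ) ∣ dGG a g q (upd b i T) i := by
      have := dvd_add (hm0.trans hD) h1
      rwa [sub_add_cancel] at this
    have hd2 : ¬ ((p ^ (m' + 1) : ℕ) : ℤ) ∣ dGG a g q (upd b i T) i := by
      intro hc
      apply h2
      have := dvd_sub hc (hm1.trans hD)
      rwa [sub_sub_cancel] at this
    obtain ⟨c', hc'⟩ := hd1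
    obtain ⟨c, hc⟩ := hT2
    have hpc : ¬ (p : ℤ) ∣ c' := by
      intro hcon
      apply hd2
      rw [hc', pow_succ]
      push_cast
      exact mul_dvd_mul_left _ hcon
    have hcop : IsCoprime c' (p : ℤ) :=
      ((Nat.prime_iff_prime_int.1 hp).coprime_iff_not_dvd.2 hpc).symm
    obtain ⟨x, y, hxy⟩ := hcop
    -- x c' + y p = 1; t = - c x
    obtain ⟨k, hk⟩ := hen_exp a g q (upd b i T) i ((-(c * x)) * (p : ℤ) ^ (K + n - m'))
    refine ⟨T + (-(c * x)) * (p : ℤ) ^ (K + n - m'), ?_, ?_⟩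
    · refine dvd_add hT1 (Dvd.dvd.mul_left ?_ _)
      push_cast
      exact pow_dvd_pow _ (by omega)
    · have e1 : upd b i (T + (-(c * x)) * (p : ℤ) ^ (K + n - m')) = fun j => upd b i T j +
          (-(c * x)) * (p : ℤ) ^ (K + n - m') * (Pi.single i 1 : Fin 3 → ℤ) j := by
        funext j
        unfold upd
        ring
      rw [e1, hk, hc, hc']
      push_cast
      have e2 : (p : ℤ) ^ (K + n - m') * (p : ℤ) ^ m' = (p : ℤ) ^ (K + n) := by
        rw [← pow_add]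
        congr 1
        omega
      have e3 : (p : ℤ) ^ (K + n) * c + (-(c * x)) * (p : ℤ) ^ (K + n - m') * ((p : ℤ) ^ m' * c') =
          (p : ℤ) ^ (K + n + 1) * (c * y) := by
        have : (-(c * x)) * (p : ℤ) ^ (K + n - m') * ((p : ℤ) ^ m' * c') =
            (-(c * x)) * c' * ((p : ℤ) ^ (K + n - m') * (p : ℤ) ^ m') := by ring
        rw [this, e2, pow_succ]
        linear_combination (-(p : ℤ) ^ (K + n) * c) * hxy
      rw [e3]
      refine dvd_add (Dvd.intro _ rfl) ?_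
      have e4 : (p : ℤ) ^ (K + n + 1) ∣ ((p : ℤ) ^ (K + n - m')) ^ 2 := by
        rw [← pow_mul]
        exact pow_dvd_pow _ (by omega)
      have e5 : ((-(c * x)) * (p : ℤ) ^ (K + n - m')) ^ 2 * k =
          ((p : ℤ) ^ (K + n - m')) ^ 2 * ((c * x) ^ 2 * k) := by ring
      rw [e5]
      exact e4.mul_right _

/-- the solutions congruent to the given one -/
private theorem hen_sol (a : Idx 3 → ℤ) (g : Idx 5 → ℤ) (p : ℕ) (hp : p.Prime) (v e : ℕ)
    (u0 u : Fin 3 → ℤ) (h1 : ((p ^ v : ℕ) : ℤ) ∣ qv a u0)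
    (h2 : 0 < v → ¬ ((p : ℤ) ∣ qv a u0 / (p ^ v : ℕ) ∧ ∀ i, (p : ℤ) ∣ u0 i))
    (h3 : 0 < v → ∀ j, ((p ^ (v + 1) : ℕ) : ℤ) ∣ u j - u0 j)
    (h4 : ((p ^ (e + 2 * v) : ℕ) : ℤ) ∣ GG a g ((p ^ v : ℕ) : ℤ) u) :
    Sol a g (p ^ v) (p ^ e) u := by
  have hp0 : (0 : ℤ) < (p : ℤ) := by exact_mod_cast hp.pos
  have hq0 : ((p ^ v : ℕ) : ℤ) ≠ 0 := by
    push_cast
    positivity
  have hq : ((p ^ v : ℕ) : ℤ) ∣ qv a u := by
    rcases Nat.eq_zero_or_pos v with hv | hv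
    · subst hv
      simp
    · have h5 := hen_cqv a (h3 hv)
      have h6 : ((p ^ v : ℕ) : ℤ) ∣ ((p ^ (v + 1) : ℕ) : ℤ) := by
        exact_mod_cast pow_dvd_pow p (Nat.le_succ v)
      have := dvd_add (h6.trans h5) h1
      rwa [sub_add_cancel] at this
  refine ⟨hq, ?_, ?_⟩
  · obtain ⟨x, hx⟩ := hq
    rw [hx, Int.mul_ediv_cancel_left _ hq0]
    have h5 : GG a g ((p ^ v : ℕ) : ℤ) u =
        ((p ^ v : ℕ) : ℤ) ^ 2 * qv g (mk5 x ((p ^ v : ℕ) : ℤ) u) := by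
      unfold GG
      rw [← qv_smul, hx]
      congr 1
      funext r
      fin_cases r <;> simp [mk5]
      ring
    rw [h5] at h4
    have h6 : ((p ^ (e + 2 * v) : ℕ) : ℤ) = ((p ^ v : ℕ) : ℤ) ^ 2 * ((p ^ e : ℕ) : ℤ) := by
      push_cast
      rw [← pow_mul, ← pow_add]
      congr 1
      ring
    rw [h6] at h4
    exact (mul_dvd_mul_iff_left (pow_ne_zero 2 hq0)).1 h4
  · intro p' hp' hd hcon
    have hv : 0 < v := by
      rcases Nat.eq_zero_or_pos v with hv | hv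
      · subst hv
        simp at hd
        exact absurd hd hp'.one_lt.ne'
      · exact hv
    have hpp : p' = p := (Nat.prime_dvd_prime_iff_eq hp' hp).1 (hp'.dvd_of_dvd_pow hd)
    subst hpp
    apply h2 hv
    obtain ⟨c1, c2⟩ := hcon
    constructor
    · have h5 := hen_cqv a (h3 hv)
      obtain ⟨x, hx⟩ := hq
      obtain ⟨x0, hx0⟩ := h1
      rw [hx, Int.mul_ediv_cancel_left _ hq0] at c1
      rw [hx0, Int.mul_ediv_cancel_left _ hq0]
      rw [hx, hx0, ← mul_sub, pow_succ, Nat.cast_mul] at h5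
      have h6 := (mul_dvd_mul_iff_left hq0).1 h5
      have := dvd_sub c1 h6
      rwa [sub_sub_cancel] at this
    · intro j
      have h5 : ((p' : ℕ) : ℤ) ∣ ((p' ^ (v + 1) : ℕ) : ℤ) := by
        push_cast
        exact dvd_pow_self _ (Nat.succ_ne_zero v)
      have := dvd_sub (c2 j) (h5.trans (h3 hv j))
      rwa [sub_sub_cancel] at this

private theorem hen_mem (a : Idx 3 → ℤ) (g : Idx 5 → ℤ) (p : ℕ) (hp : p.Prime) (v e : ℕ)
    (u0 u : Fin 3 → ℤ) (h1 : ((p ^ v : ℕ) : ℤ) ∣ qv a u0)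
    (h2 : 0 < v → ¬ ((p : ℤ) ∣ qv a u0 / (p ^ v : ℕ) ∧ ∀ i, (p : ℤ) ∣ u0 i))
    (h3 : 0 < v → ∀ j, ((p ^ (v + 1) : ℕ) : ℤ) ∣ u j - u0 j) (hev : 0 < v → v + 1 ≤ e + 2 * v)
    (h4 : ((p ^ (e + 2 * v) : ℕ) : ℤ) ∣ GG a g ((p ^ v : ℕ) : ℤ) u) :
    (fun j => u j % ((p ^ (e + 2 * v) : ℕ) : ℤ)) ∈ UU a (p ^ v) (p ^ e) g := by
  classical
  have hp0 : (0 : ℤ) < (p : ℤ) := by exact_mod_cast hp.pos
  have hN0 : (0 : ℤ) < ((p ^ (e + 2 * v) : ℕ) : ℤ) := by
    push_cast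
    positivity
  have hN : ((p ^ e : ℕ) : ℤ) * ((p ^ v : ℕ) : ℤ) ^ 2 = ((p ^ (e + 2 * v) : ℕ) : ℤ) := by
    push_cast
    rw [← pow_mul, ← pow_add]
    congr 1
    ring
  have hc : ∀ j, ((p ^ (e + 2 * v) : ℕ) : ℤ) ∣ u j % ((p ^ (e + 2 * v) : ℕ) : ℤ) - u j := by
    intro j
    have := Int.emod_add_mul_ediv (u j) ((p ^ (e + 2 * v) : ℕ) : ℤ)
    exact ⟨-(u j / ((p ^ (e + 2 * v) : ℕ) : ℤ)), by linear_combination this⟩
  unfold UU
  rw [mem_filter, Fintype.mem_piFinset]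
  refine ⟨fun j => ?_, ?_⟩
  · rw [mem_Ico, hN]
    exact ⟨Int.emod_nonneg _ hN0.ne', Int.emod_lt_of_pos _ hN0⟩
  · refine hen_sol a g p hp v e u0 _ h1 h2 (fun hv j => ?_) ?_
    · have h5 : ((p ^ (v + 1) : ℕ) : ℤ) ∣ ((p ^ (e + 2 * v) : ℕ) : ℤ) := by
        exact_mod_cast pow_dvd_pow p (hev hv)
      have := dvd_add (h5.trans (hc j)) (h3 hv j)
      rwa [sub_add_sub_cancel] at this
    · have h5 := hen_cGG a g ((p ^ v : ℕ) : ℤ) hc
      have := dvd_add h5 h4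
      rwa [sub_add_cancel] at this

theorem hen (a : Idx 3 → ℤ) (p : ℕ) (hp : p.Prime) (v m : ℕ) : ∃ κ : ℕ,
    ∀ (g : Idx 5 → ℤ) (u0 : Fin 3 → ℤ), ((p ^ v : ℕ) : ℤ) ∣ qv a u0 →
    (0 < v → ¬ ((p : ℤ) ∣ qv a u0 / (p ^ v : ℕ) ∧ ∀ i, (p : ℤ) ∣ u0 i)) →
    ((p ^ (2 * m + 2 * v + 2) : ℕ) : ℤ) ∣ GG a g ((p ^ v : ℕ) : ℤ) u0 →
    (∃ i, ¬ ((p ^ (m + 1) : ℕ) : ℤ) ∣ dGG a g ((p ^ v : ℕ) : ℤ) u0 i) →
    ∀ e : ℕ, p ^ (2 * e) ≤ p ^ κ * (UU a (p ^ v) (p ^ e) g).card := by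
  classical
  refine ⟨2 * (2 * m + v + 2), fun g u0 h1 h2 h3 h4 e => ?_⟩
  have hp1 : 1 < p := hp.one_lt
  have hp0 : 0 < p := hp.pos
  rcases Nat.lt_or_ge (2 * m + v + 2) (e + 2 * v) with hbig | hsmall
  · -- many solutions
    obtain ⟨i, hi⟩ := h4
    -- exact valuation
    have hex : ∃ m', ¬ ((p ^ (m' + 1) : ℕ) : ℤ) ∣ dGG a g ((p ^ v : ℕ) : ℤ) u0 i := ⟨m, hi⟩
    obtain ⟨m', hm'⟩ : ∃ m', m' = Nat.find hex := ⟨_, rfl⟩
    have hm1 : ¬ ((p ^ (m' + 1) : ℕ) : ℤ) ∣ dGG a g ((p ^ v : ℕ) : ℤ) u0 i := by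
      rw [hm']
      exact Nat.find_spec hex
    have hm2 : m' ≤ m := by
      rw [hm']
      exact Nat.find_min' hex hi
    have hm3 : ((p ^ m' : ℕ) : ℤ) ∣ dGG a g ((p ^ v : ℕ) : ℤ) u0 i := by
      rcases Nat.eq_zero_or_pos m' with h | h
      · rw [h]
        simp
      · have h5 := Nat.find_min hex (m := m' - 1) (by rw [← hm']; omega)
        rw [not_not, Nat.sub_add_cancel h] at h5
        exact h5
    -- the free coordinates
    obtain ⟨N, hN⟩ : ∃ N, N = e + 2 * v := ⟨_, rfl⟩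
    obtain ⟨E, hE⟩ : ∃ E, E = 2 * m + v + 2 := ⟨_, rfl⟩
    have hEN : E < N := by omega
    let B : (Fin 3 → ℤ) → Fin 3 → ℤ := fun b j => if j = i then u0 j else u0 j + (p : ℤ) ^ E * b j
    have hBc : ∀ b j, ((p ^ E : ℕ) : ℤ) ∣ B b j - u0 j := by
      intro b j
      show _ ∣ (if j = i then u0 j else u0 j + (p : ℤ) ^ E * b j) - u0 j
      split_ifs
      · simp
      · push_cast
        exact ⟨b j, by ring⟩
    have hlift : ∀ b : Fin 3 → ℤ, ∃ T : ℤ, ((p ^ (E - m') : ℕ) : ℤ) ∣ T ∧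
        ((p ^ N : ℕ) : ℤ) ∣ GG a g ((p ^ v : ℕ) : ℤ) (upd (B b) i T) := by
      intro b
      have k1 : ((p ^ E : ℕ) : ℤ) ∣ GG a g ((p ^ v : ℕ) : ℤ) (B b) := by
        have h5 := hen_cGG a g ((p ^ v : ℕ) : ℤ) (hBc b)
        have h6 : ((p ^ E : ℕ) : ℤ) ∣ GG a g ((p ^ v : ℕ) : ℤ) u0 := by
          refine dvd_trans ?_ h3
          exact_mod_cast pow_dvd_pow p (show E ≤ 2 * m + 2 * v + 2 by omega)
        have := dvd_add h5 h6
        rwa [sub_add_cancel] at this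
      have h7 := hen_cdGG a g ((p ^ v : ℕ) : ℤ) (hBc b) i
      have k2 : ((p ^ m' : ℕ) : ℤ) ∣ dGG a g ((p ^ v : ℕ) : ℤ) (B b) i := by
        have h8 : ((p ^ m' : ℕ) : ℤ) ∣ ((p ^ E : ℕ) : ℤ) := by
          exact_mod_cast pow_dvd_pow p (show m' ≤ E by omega)
        have := dvd_add (h8.trans h7) hm3
        rwa [sub_add_cancel] at this
      have k3 : ¬ ((p ^ (m' + 1) : ℕ) : ℤ) ∣ dGG a g ((p ^ v : ℕ) : ℤ) (B b) i := by
        intro hc
        apply hm1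
        have h8 : ((p ^ (m' + 1) : ℕ) : ℤ) ∣ ((p ^ E : ℕ) : ℤ) := by
          exact_mod_cast pow_dvd_pow p (show m' + 1 ≤ E by omega)
        have := dvd_sub hc (h8.trans h7)
        rwa [sub_sub_cancel] at this
      obtain ⟨T, hT1, hT2⟩ := hen_lift a g ((p ^ v : ℕ) : ℤ) p hp (B b) i m' E (by omega)
        k1 k2 k3 (N - E)
      rw [Nat.add_sub_cancel' hEN.le] at hT2
      exact ⟨T, hT1, hT2⟩
    choose T hT1 hT2 using hlift
    -- the injection
    have hcard : (Fintype.piFinset fun j : Fin 3 => if j = i then {(0 : ℤ)} else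
        Ico (0 : ℤ) ((p ^ (N - E) : ℕ) : ℤ)).card = (p ^ (N - E)) ^ 2 := by
      have hI : (Ico (0 : ℤ) ((p ^ (N - E) : ℕ) : ℤ)).card = p ^ (N - E) := by
        rw [Int.card_Ico, sub_zero, Int.toNat_natCast]
      have hj : ∀ j : Fin 3, (if j = i then {(0 : ℤ)} else
          Ico (0 : ℤ) ((p ^ (N - E) : ℕ) : ℤ)).card = if j = i then 1 else p ^ (N - E) := by
        intro j
        split_ifs
        · rfl
        · exact hI
      rw [Fintype.card_piFinset, Fin.prod_univ_three, hj, hj, hj]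
      clear hi hex hm' hm1 hm3 hBc hT2 hT1
      generalize p ^ (N - E) = z
      fin_cases i <;> simp [pow_two]
    have hinj : (Fintype.piFinset fun j : Fin 3 => if j = i then {(0 : ℤ)} else
        Ico (0 : ℤ) ((p ^ (N - E) : ℕ) : ℤ)).card ≤ (UU a (p ^ v) (p ^ e) g).card := by
      refine card_le_card_of_injOn
        (fun b j => upd (B b) i (T b) j % ((p ^ (e + 2 * v) : ℕ) : ℤ)) ?_ ?_
      · intro b hb
        refine hen_mem a g p hp v e u0 _ h1 h2 (fun hv j => ?_) (by omega) ?_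
        · have h5 : ((p ^ (v + 1) : ℕ) : ℤ) ∣ ((p ^ E : ℕ) : ℤ) := by
            exact_mod_cast pow_dvd_pow p (show v + 1 ≤ E by omega)
          have h6 : ((p ^ (v + 1) : ℕ) : ℤ) ∣ ((p ^ (E - m') : ℕ) : ℤ) := by
            exact_mod_cast pow_dvd_pow p (show v + 1 ≤ E - m' by omega)
          have h7 : upd (B b) i (T b) j - u0 j = (B b j - u0 j) +
              T b * (Pi.single i 1 : Fin 3 → ℤ) j := by
            unfold upd
            ring
          rw [h7]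
          exact dvd_add (h5.trans (hBc b j)) ((h6.trans (hT1 b)).mul_right _)
        · rw [← hN]
          exact hT2 b
      · intro b hb b' hb' hbb
        rw [mem_coe, Fintype.mem_piFinset] at hb hb'
        funext j
        have k1 := hb j
        have k2 := hb' j
        by_cases hj : j = i
        · rw [if_pos hj, mem_singleton] at k1 k2
          rw [k1, k2]
        · rw [if_neg hj, mem_Ico] at k1 k2
          have k3 := congrFun hbb j
          have k4 : ∀ b : Fin 3 → ℤ, upd (B b) i (T b) j = u0 j + (p : ℤ) ^ E * b j := by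
            intro b
            have : (Pi.single i 1 : Fin 3 → ℤ) j = 0 := by
              rw [Pi.single_apply, if_neg hj]
            show (if j = i then u0 j else u0 j + (p : ℤ) ^ E * b j) +
              T b * (Pi.single i 1 : Fin 3 → ℤ) j = _
            rw [if_neg hj, this, mul_zero, add_zero]
          simp only [k4] at k3
          have k5 : ((p ^ (e + 2 * v) : ℕ) : ℤ) ∣ (u0 j + (p : ℤ) ^ E * b j) -
              (u0 j + (p : ℤ) ^ E * b' j) := Int.ModEq.dvd (Int.ModEq.symm k3)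
          have k6 : ((p ^ (e + 2 * v) : ℕ) : ℤ) = (p : ℤ) ^ E * ((p ^ (N - E) : ℕ) : ℤ) := by
            push_cast
            rw [← pow_add]
            congr 1
            omega
          have k7 : (u0 j + (p : ℤ) ^ E * b j) - (u0 j + (p : ℤ) ^ E * b' j) =
              (p : ℤ) ^ E * (b j - b' j) := by ring
          rw [k6, k7] at k5
          have hpE : ((p : ℤ) ^ E) ≠ 0 := pow_ne_zero _ (by exact_mod_cast hp0.ne')
          have k8 := (mul_dvd_mul_iff_left hpE).1 k5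
          have k9 : |b j - b' j| < ((p ^ (N - E) : ℕ) : ℤ) := by
            rw [abs_lt]
            constructor <;> omega
          have := Int.eq_zero_of_abs_lt_dvd k8 k9
          omega
    rw [hcard] at hinj
    have h5 : p ^ (2 * e) ≤ p ^ (2 * (2 * m + v + 2)) * (p ^ (N - E)) ^ 2 := by
      rw [← pow_mul, ← pow_add]
      exact Nat.pow_le_pow_right hp0 (by omega)
    exact h5.trans (Nat.mul_le_mul_left _ hinj)
  · -- one solution
    have h5 : (fun j => u0 j % ((p ^ (e + 2 * v) : ℕ) : ℤ)) ∈ UU a (p ^ v) (p ^ e) g := by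
      refine hen_mem a g p hp v e u0 u0 h1 h2 (fun _ j => by simp) (by omega) ?_
      refine dvd_trans ?_ h3
      exact_mod_cast pow_dvd_pow p (show e + 2 * v ≤ 2 * m + 2 * v + 2 by omega)
    have h6 : 1 ≤ (UU a (p ^ v) (p ^ e) g).card := card_pos.2 ⟨_, h5⟩
    calc p ^ (2 * e) ≤ p ^ (2 * (2 * m + v + 2)) := Nat.pow_le_pow_right hp0 (by omega)
      _ = p ^ (2 * (2 * m + v + 2)) * 1 := (mul_one _).symm
      _ ≤ _ := Nat.mul_le_mul_left _ h6

end Pool.Agent.H7.HP
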