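import Pool.Agent.H7.HP.Core
import Pool.Agent.H7.HP.Hen
import Pool.Agent.H7.HP.Big
import Pool.Agent.H7.HP.Bxq
import Pool.Agent.H7.HP.Crt

set_option autoImplicit false
set_option linter.unusedSectionVars false

/-!
# [H7 HP POS] a positive proportion of the forms has a zero, 120-190 lines

PROOF. `ε0 = 1/(100 (1 + ca a)^2)`. (1) real: if `A/4 ≤ g_(1,4) ≤ A/2` (in ℝ) and `|g_r| ≤ ε0 A` for `r ≠ (1,4)` then `phi g t = g_(1,4) t_2 + (the rest)`, at `t = (0, 0, ± 1)` the rest is at most `15 (1 + ca a)^2 ε0 A < A/4`, so there is a zero `t = (0,0,t_2)`, `|t_2| ≤ 1` (continuity),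
and `|dphi g t 2| ≥ g_(1,4) - 30 (1+ca a)^2 ε0 A... ≥ A/8` (if necessary take `ε0` smaller). `C0 = 1`, `η = 1/8`.
(2) `P0` large, `Q = ∏_{p ≤ P0} p^2`. If `g_r ≡ 0` modulo `Q` for `r ≠ (1,4)` and `g_(1,4) ≡ 1`: for `p ≤ P0`: `u0 = 0`, `v = 0`, `m = 0`: `GG a g 1 0 = g_(1,1) ≡ 0` modulo `p^2`, `dGG a g 1 0 2 = g_(1,4) ≡ 1`: `hen`: `p^(2e) ≤ p^(κ_p) #UU a 1 (p^e) g`; `uu_prod`: `#UU a 1 M1 g ≥ c M1^2` for all `M1` with prime factors
`≤ P0`, `c = ∏ p^(-κ_p)`.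
(3) the number of `g ∈ bf 5 A` with (1) and (2) is at least `(A/(5Q))(ε0 A/Q)^14 = c' (A/Q)^15`, `c' = ε0^14/5`, for `A` large. `N ≥ N0`, `N! = M1 M2`, `M2` the part with primes `> P0`: by `big` and `boxq (Q M2)` the `g` of the class (2) with `2 #UU a 1 M2 g < M2^2` are at most
`2 (8/P0) Q^(-15) (2A+1)^15 ≤ (16/P0) 3^15 (A/Q)^15 ≤ (c'/4) (A/Q)^15` if `P0 ≥ 64 * 3^15/c'`. For the others `#UU a 1 N! g ≥ (c/2) (N!)^2` (`uu_mul`). `core` with `q = 1`, `C0 = 1`, `c1 = c/2`, `η = 1/8`, `δ = c' (3Q)^(-15)/4`: all but `(c'/4)(A/Q)^15` of these have a zero. Remaining: at least `(c'/2)(A/Q)^15`.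
-/

namespace Pool.Agent.H7.HP

open Finset

/-- the index `(1,4)` -/
private def pos_r0 : Idx 5 := ⟨(1, 4), by decide⟩

private theorem pos_qv_cont {n : ℕ} (c : Idx n → ℝ) (x : ℝ → Fin n → ℝ)
    (hx : ∀ i, Continuous fun s => x s i) : Continuous fun s => qv c (x s) := by
  unfold qv
  exact continuous_finsetSum _ fun p _ => continuous_const.mul ((hx _).mul (hx _))

private theorem pos_ca (a : Idx 3 → ℤ) : ∑ p, |((a p : ℤ) : ℝ)| = (ca a : ℝ) := by
  unfold ca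
  push_cast
  exact Finset.sum_congr rfl fun p _ => by rw [Nat.cast_natAbs, Int.cast_abs]

private theorem pos_qv_le (a : Idx 3 → ℤ) (t : Fin 3 → ℝ) (ht : ∀ i, |t i| ≤ 1) :
    |qv (fun p => (a p : ℝ)) t| ≤ ca a := by
  unfold qv
  refine (Finset.abs_sum_le_sum_abs _ _).trans ?_
  rw [← pos_ca]
  refine Finset.sum_le_sum fun p _ => ?_
  rw [abs_mul, abs_mul]
  have h1 : |t p.1.1| * |t p.1.2| ≤ 1 * 1 :=
    mul_le_mul (ht _) (ht _) (abs_nonneg _) (by norm_num)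
  calc |(a p : ℝ)| * (|t p.1.1| * |t p.1.2|) ≤ |(a p : ℝ)| * (1 * 1) :=
        mul_le_mul_of_nonneg_left h1 (abs_nonneg _)
    _ = |(a p : ℝ)| := by ring

private theorem pos_pl_le (a : Idx 3 → ℤ) (t u : Fin 3 → ℝ) (ht : ∀ i, |t i| ≤ 1)
    (hu : ∀ i, |u i| ≤ 1) : |pl (fun p => (a p : ℝ)) t u| ≤ 2 * ca a := by
  unfold pl
  refine (Finset.abs_sum_le_sum_abs _ _).trans ?_
  rw [← pos_ca, Finset.mul_sum]
  refine Finset.sum_le_sum fun p _ => ?_
  rw [abs_mul]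
  have h1 : |t p.1.1 * u p.1.2| ≤ 1 := by
    rw [abs_mul]
    exact mul_le_one₀ (ht _) (abs_nonneg _) (hu _)
  have h2 : |t p.1.2 * u p.1.1| ≤ 1 := by
    rw [abs_mul]
    exact mul_le_one₀ (ht _) (abs_nonneg _) (hu _)
  have h3 : |t p.1.1 * u p.1.2 + t p.1.2 * u p.1.1| ≤ 2 := by
    have := abs_add_le (t p.1.1 * u p.1.2) (t p.1.2 * u p.1.1)
    linarith
  calc |(a p : ℝ)| * |t p.1.1 * u p.1.2 + t p.1.2 * u p.1.1| ≤ |(a p : ℝ)| * 2 :=
        mul_le_mul_of_nonneg_left h3 (abs_nonneg _)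
    _ = 2 * |(a p : ℝ)| := by ring

private theorem pos_rest (g w : Idx 5 → ℝ) (ε W : ℝ) (hW : 0 ≤ W)
    (hg : ∀ r, r ≠ pos_r0 → |g r| ≤ ε) (hw : ∀ r, |w r| ≤ W) (hε : 0 ≤ ε) :
    |∑ r, g r * w r - g pos_r0 * w pos_r0| ≤ 15 * (ε * W) := by
  classical
  rw [← Finset.add_sum_erase Finset.univ (fun r => g r * w r) (Finset.mem_univ pos_r0),
    add_sub_cancel_left]
  refine (Finset.abs_sum_le_sum_abs _ _).trans ?_
  have h1 : ∀ r ∈ Finset.univ.erase pos_r0, |g r * w r| ≤ ε * W := by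
    intro r hr
    rw [abs_mul]
    exact mul_le_mul (hg r (Finset.ne_of_mem_erase hr)) (hw r) (abs_nonneg _) hε
  refine (Finset.sum_le_card_nsmul _ _ _ h1).trans ?_
  rw [nsmul_eq_mul]
  apply mul_le_mul_of_nonneg_right _ (mul_nonneg hε hW)
  have h2 : (Finset.univ.erase pos_r0).card ≤ 15 := by
    refine (Finset.card_erase_le).trans ?_
    rw [Finset.card_univ]
    decide
  exact_mod_cast h2

private theorem pos_real (a : Idx 3 → ℤ) (g : Idx 5 → ℤ) (A : ℝ) (hA : 0 < A)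
    (h0 : A / 4 ≤ g pos_r0)
    (h1 : ∀ r, r ≠ pos_r0 → |(g r : ℝ)| ≤ A / (1000 * (1 + (ca a : ℝ)) ^ 2)) :
    ∃ t : Fin 3 → ℝ, (∀ i, |t i| ≤ ((1 : ℕ) : ℝ)) ∧
        phi (fun p => (a p : ℝ)) (fun p => (g p : ℝ)) t = 0 ∧
        ∃ i, 1 / 8 * A ≤ |dphi (fun p => (a p : ℝ)) (fun p => (g p : ℝ)) t i| := by
  set K : ℝ := 1 + (ca a : ℝ) with hK
  have hca : (0 : ℝ) ≤ ca a := Nat.cast_nonneg _
  have hK1 : 1 ≤ K := by linarith
  set ε : ℝ := A / (1000 * K ^ 2) with hε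
  have hε0 : 0 < ε := by positivity
  have hεK : ε * K ^ 2 = A / 1000 := by
    rw [hε]
    field_simp
  obtain ⟨T, hT⟩ : ∃ T : ℝ → Fin 3 → ℝ, ∀ s i, T s i = if i = 2 then s else 0 :=
    ⟨fun s i => if i = 2 then s else 0, fun _ _ => rfl⟩
  have hTc : ∀ i, Continuous fun s => T s i := by
    intro i
    by_cases hi : i = 2
    · simp only [hT, if_pos hi]
      exact continuous_id
    · simp only [hT, if_neg hi]
      exact continuous_const
  obtain ⟨X, hX⟩ : ∃ X : ℝ → Fin 5 → ℝ, ∀ s, X s = mk5 (qv (fun p => (a p : ℝ)) (T s)) 1 (T s) :=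
    ⟨fun s => mk5 (qv (fun p => (a p : ℝ)) (T s)) 1 (T s), fun _ => rfl⟩
  have hXc : ∀ i, Continuous fun s => X s i := by
    intro i
    simp only [hX]
    fin_cases i
    · exact pos_qv_cont (fun p => (a p : ℝ)) T hTc
    · exact continuous_const
    · exact hTc 0
    · exact hTc 1
    · exact hTc 2
  have hphi : ∀ s, phi (fun p => (a p : ℝ)) (fun p => (g p : ℝ)) (T s) =
      ∑ r : Idx 5, (g r : ℝ) * (X s r.1.1 * X s r.1.2) := by
    intro s
    unfold phi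
    rw [← hX]
    rfl
  have hTb : ∀ s, |s| ≤ 1 → ∀ i, |T s i| ≤ 1 := by
    intro s hs i
    rw [hT]
    split_ifs
    · exact hs
    · simp
  have hXb : ∀ s, |s| ≤ 1 → ∀ i, |X s i| ≤ K := by
    intro s hs i
    have hq := pos_qv_le a (T s) (hTb s hs)
    have hb := hTb s hs
    rw [hX]
    fin_cases i
    · change |qv (fun p => (a p : ℝ)) (T s)| ≤ K
      linarith
    · change |(1 : ℝ)| ≤ K
      rw [abs_one]
      exact hK1
    · exact (hb 0).trans hK1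
    · exact (hb 1).trans hK1
    · exact (hb 2).trans hK1
  have hX1 : ∀ s, X s 1 = 1 := fun s => by rw [hX]; rfl
  have hX4 : ∀ s, X s 4 = s := by
    intro s
    rw [hX]
    change T s 2 = s
    rw [hT, if_pos rfl]
  have hrest : ∀ s, |s| ≤ 1 → |∑ r : Idx 5, (g r : ℝ) * (X s r.1.1 * X s r.1.2) -
      g pos_r0 * s| ≤ 15 * (A / 1000) := by
    intro s hs
    have h2 := pos_rest (fun r => (g r : ℝ)) (fun r => X s r.1.1 * X s r.1.2) ε (K ^ 2)
      (by positivity) h1 (by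
        intro r
        rw [abs_mul, pow_two]
        exact mul_le_mul (hXb s hs _) (hXb s hs _) (abs_nonneg _) (by linarith)) hε0.le
    rw [hεK] at h2
    have h3 : X s pos_r0.1.1 * X s pos_r0.1.2 = s := by
      change X s 1 * X s 4 = s
      rw [hX1, hX4, one_mul]
    simp only [h3] at h2
    exact h2
  have hcont : Continuous fun s => ∑ r : Idx 5, (g r : ℝ) * (X s r.1.1 * X s r.1.2) :=
    continuous_finsetSum _ fun r _ => continuous_const.mul ((hXc _).mul (hXc _))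
  have hm1 : ∑ r : Idx 5, (g r : ℝ) * (X (-1) r.1.1 * X (-1) r.1.2) ≤ 0 := by
    have h2 := (abs_le.1 (hrest (-1) (by norm_num))).2
    linarith
  have hp1 : 0 ≤ ∑ r : Idx 5, (g r : ℝ) * (X 1 r.1.1 * X 1 r.1.2) := by
    have h2 := (abs_le.1 (hrest 1 (by norm_num))).1
    linarith
  obtain ⟨s, hs, hs0⟩ := intermediate_value_Icc (by norm_num : (-1 : ℝ) ≤ 1) hcont.continuousOn
    (show (0 : ℝ) ∈ Set.Icc _ _ from ⟨hm1, hp1⟩)
  have hs1 : |s| ≤ 1 := abs_le.2 hs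
  refine ⟨T s, fun i => by rw [Nat.cast_one]; exact hTb s hs1 i, ?_, 2, ?_⟩
  · rw [hphi]
    exact hs0
  · have hYb : ∀ i, |(mk5 (pl (fun p => (a p : ℝ)) (T s) (Pi.single 2 1)) 0
        (Pi.single 2 1) : Fin 5 → ℝ) i| ≤ 2 * K := by
      have hsin : ∀ i : Fin 3, |(Pi.single 2 1 : Fin 3 → ℝ) i| ≤ 1 := by
        intro i
        by_cases hi : i = 2
        · subst hi
          simp
        · simp [Pi.single_eq_of_ne hi]
      have hq := pos_pl_le a (T s) (Pi.single 2 1) (hTb s hs1) hsin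
      intro i
      fin_cases i
      · change |pl (fun p => (a p : ℝ)) (T s) (Pi.single 2 1)| ≤ 2 * K
        linarith
      · change |(0 : ℝ)| ≤ 2 * K
        rw [abs_zero]
        linarith
      · exact (hsin 0).trans (by linarith)
      · exact (hsin 1).trans (by linarith)
      · exact (hsin 2).trans (by linarith)
    obtain ⟨Y, hY⟩ : ∃ Y : Fin 5 → ℝ, Y = mk5 (pl (fun p => (a p : ℝ)) (T s) (Pi.single 2 1)) 0
        (Pi.single 2 1) := ⟨_, rfl⟩
    rw [← hY] at hYb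
    have hd : dphi (fun p => (a p : ℝ)) (fun p => (g p : ℝ)) (T s) 2 =
        ∑ r : Idx 5, (g r : ℝ) * (X s r.1.1 * Y r.1.2 + X s r.1.2 * Y r.1.1) := by
      unfold dphi
      rw [← hX, ← hY]
      rfl
    have h2 := pos_rest (fun r => (g r : ℝ))
      (fun r => X s r.1.1 * Y r.1.2 + X s r.1.2 * Y r.1.1) ε (4 * K ^ 2)
      (by positivity) h1 (by
        intro r
        have b1 : |X s r.1.1 * Y r.1.2| ≤ K * (2 * K) := by
          rw [abs_mul]
          exact mul_le_mul (hXb s hs1 _) (hYb _) (abs_nonneg _) (by linarith)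
        have b2 : |X s r.1.2 * Y r.1.1| ≤ K * (2 * K) := by
          rw [abs_mul]
          exact mul_le_mul (hXb s hs1 _) (hYb _) (abs_nonneg _) (by linarith)
        have b3 := abs_add_le (X s r.1.1 * Y r.1.2) (X s r.1.2 * Y r.1.1)
        nlinarith) hε0.le
    have h3 : X s pos_r0.1.1 * Y pos_r0.1.2 + X s pos_r0.1.2 * Y pos_r0.1.1 = 1 := by
      have hY4 : Y 4 = 1 := by
        rw [hY]
        change (Pi.single 2 1 : Fin 3 → ℝ) 2 = 1
        simp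
      have hY1 : Y 1 = 0 := by
        rw [hY]
        rfl
      change X s 1 * Y 4 + X s 4 * Y 1 = 1
      rw [hX1, hY4, hY1]
      ring
    simp only [h3] at h2
    rw [hd]
    have h4 := (abs_le.1 h2).1
    have h5 : 15 * (ε * (4 * K ^ 2)) = 60 * (A / 1000) := by
      rw [← hεK]
      ring
    rw [h5] at h4
    refine le_trans ?_ (le_abs_self _)
    linarith

private theorem pos_uu (a : Idx 3 → ℤ) (S : Finset ℕ) (hS : ∀ p ∈ S, p.Prime) :
    ∃ c : ℝ, 0 < c ∧ ∀ g : Idx 5 → ℤ, (∀ r, r ≠ pos_r0 → ∀ p ∈ S, ((p ^ 2 : ℕ) : ℤ) ∣ g r) →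
      (∀ p ∈ S, ((p ^ 2 : ℕ) : ℤ) ∣ g pos_r0 - 1) → ∀ e : ℕ → ℕ,
      c * (((∏ p ∈ S, p ^ e p : ℕ) : ℕ) : ℝ) ^ 2 ≤ (UU a 1 (∏ p ∈ S, p ^ e p) g).card := by
  classical
  have hk : ∀ p : ℕ, ∃ κ : ℕ, p.Prime → ∀ (g : Idx 5 → ℤ) (u0 : Fin 3 → ℤ),
      ((p ^ 0 : ℕ) : ℤ) ∣ qv a u0 →
      (0 < 0 → ¬ ((p : ℤ) ∣ qv a u0 / (p ^ 0 : ℕ) ∧ ∀ i, (p : ℤ) ∣ u0 i)) →
      ((p ^ (2 * 0 + 2 * 0 + 2) : ℕ) : ℤ) ∣ GG a g ((p ^ 0 : ℕ) : ℤ) u0 →
      (∃ i, ¬ ((p ^ (0 + 1) : ℕ) : ℤ) ∣ dGG a g ((p ^ 0 : ℕ) : ℤ) u0 i) →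
      ∀ e : ℕ, p ^ (2 * e) ≤ p ^ κ * (UU a (p ^ 0) (p ^ e) g).card := by
    intro p
    by_cases hp : p.Prime
    · obtain ⟨κ, hκ⟩ := hen a p hp 0 0
      exact ⟨κ, fun _ => hκ⟩
    · exact ⟨0, fun h => absurd h hp⟩
  choose κ hκ using hk
  have hprod : (0 : ℝ) < ((∏ p ∈ S, p ^ κ p : ℕ) : ℝ) := by
    have : 0 < ∏ p ∈ S, p ^ κ p := Finset.prod_pos fun p hp => pow_pos (hS p hp).pos _
    exact_mod_cast this
  refine ⟨1 / ((∏ p ∈ S, p ^ κ p : ℕ) : ℝ), by positivity, ?_⟩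
  intro g hg1 hg2 e
  have hone : ∀ p ∈ S, p ^ (2 * e p) ≤ p ^ κ p * (UU a (p ^ 0) (p ^ e p) g).card := by
    intro p hp
    have hpp := hS p hp
    have hq0 : qv a (fun _ => (0 : ℤ)) = 0 := qv_zero a
    refine hκ p hpp g (fun _ => 0) ?_ (fun h => absurd h (lt_irrefl 0)) ?_ ?_ (e p)
    · rw [hq0]
      exact dvd_zero _
    · obtain ⟨X, hX⟩ : ∃ X : Fin 5 → ℤ, X = mk5 (qv a fun _ => 0) (((p ^ 0 : ℕ) : ℤ) ^ 2)
        (fun _ => ((p ^ 0 : ℕ) : ℤ) * 0) := ⟨_, rfl⟩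
      have hd : GG a g ((p ^ 0 : ℕ) : ℤ) (fun _ => 0) =
          ∑ r : Idx 5, g r * (X r.1.1 * X r.1.2) := by
        unfold GG
        rw [← hX]
        rfl
      rw [hd]
      apply Finset.dvd_sum
      intro r _
      by_cases hr : r = pos_r0
      · subst hr
        have h1 : X pos_r0.1.2 = 0 := by
          rw [hX]
          change ((p ^ 0 : ℕ) : ℤ) * 0 = 0
          rw [mul_zero]
        rw [h1, mul_zero (X pos_r0.1.1), mul_zero (g pos_r0)]
        exact Int.dvd_zero _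
      · exact dvd_mul_of_dvd_left (hg1 r hr p hp) _
    · refine ⟨2, ?_⟩
      obtain ⟨X, hX⟩ : ∃ X : Fin 5 → ℤ, X = mk5 (qv a fun _ => 0) (((p ^ 0 : ℕ) : ℤ) ^ 2)
        (fun _ => ((p ^ 0 : ℕ) : ℤ) * 0) := ⟨_, rfl⟩
      obtain ⟨Y, hY⟩ : ∃ Y : Fin 5 → ℤ, Y = mk5 (pl a (fun _ => 0) (Pi.single 2 1)) 0
        (fun j => ((p ^ 0 : ℕ) : ℤ) * (Pi.single 2 1 : Fin 3 → ℤ) j) := ⟨_, rfl⟩
      have hd : dGG a g ((p ^ 0 : ℕ) : ℤ) (fun _ => 0) 2 =
          ∑ r : Idx 5, g r * (X r.1.1 * Y r.1.2 + X r.1.2 * Y r.1.1) := by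
        unfold dGG
        rw [← hX, ← hY]
        rfl
      have h3 : X pos_r0.1.1 * Y pos_r0.1.2 + X pos_r0.1.2 * Y pos_r0.1.1 = 1 := by
        have hX1 : X 1 = 1 := by
          rw [hX]
          change ((p ^ 0 : ℕ) : ℤ) ^ 2 = 1
          simp
        have hX4 : X 4 = 0 := by
          rw [hX]
          change ((p ^ 0 : ℕ) : ℤ) * 0 = 0
          simp
        have hY4 : Y 4 = 1 := by
          rw [hY]
          change ((p ^ 0 : ℕ) : ℤ) * (Pi.single 2 1 : Fin 3 → ℤ) 2 = 1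
          simp
        change X 1 * Y 4 + X 4 * Y 1 = 1
        rw [hX1, hX4, hY4]
        ring
      intro hdvd
      rw [hd, zero_add, pow_one, ← Finset.add_sum_erase Finset.univ _ (Finset.mem_univ pos_r0),
        h3, mul_one] at hdvd
      have hp2 : (p : ℤ) ∣ ((p ^ 2 : ℕ) : ℤ) := by
        rw [pow_two]
        push_cast
        exact Dvd.intro _ rfl
      have h4 : (p : ℤ) ∣ ∑ r ∈ Finset.univ.erase pos_r0,
          g r * (X r.1.1 * Y r.1.2 + X r.1.2 * Y r.1.1) := by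
        apply Finset.dvd_sum
        intro r hr
        exact dvd_mul_of_dvd_left (hp2.trans (hg1 r (Finset.ne_of_mem_erase hr) p hp)) _
      have h5 : (p : ℤ) ∣ g pos_r0 := (dvd_add_left h4).1 hdvd
      have h6 : (p : ℤ) ∣ g pos_r0 - 1 := hp2.trans (hg2 p hp)
      have h7 : (p : ℤ) ∣ 1 := by
        have := dvd_sub h5 h6
        simpa using this
      have h8 : (p : ℤ) = 1 := by
        have := Int.eq_one_of_dvd_one (Int.natCast_nonneg p) h7
        exact this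
      have h9 : p = 1 := by exact_mod_cast h8
      exact hpp.one_lt.ne' h9
  have h1 : ∏ p ∈ S, p ^ (2 * e p) ≤ (∏ p ∈ S, p ^ κ p) * (UU a 1 (∏ p ∈ S, p ^ e p) g).card := by
    calc ∏ p ∈ S, p ^ (2 * e p) ≤ ∏ p ∈ S, (p ^ κ p * (UU a (p ^ 0) (p ^ e p) g).card) :=
          Finset.prod_le_prod' hone
      _ = (∏ p ∈ S, p ^ κ p) * ∏ p ∈ S, (UU a (p ^ 0) (p ^ e p) g).card :=
          Finset.prod_mul_distrib
      _ ≤ (∏ p ∈ S, p ^ κ p) * (UU a (∏ p ∈ S, p ^ 0) (∏ p ∈ S, p ^ e p) g).card :=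
          Nat.mul_le_mul_left _ (uu_prod a g S hS (fun _ => 0) e)
      _ = _ := by simp
  have h2 : ((∏ p ∈ S, p ^ (2 * e p) : ℕ) : ℝ) = ((∏ p ∈ S, p ^ e p : ℕ) : ℝ) ^ 2 := by
    push_cast
    rw [← Finset.prod_pow]
    exact Finset.prod_congr rfl fun p _ => by rw [mul_comm, pow_mul]
  rw [one_div, inv_mul_le_iff₀ hprod, ← h2]
  exact_mod_cast h1

open scoped Classical in
private theorem pos_bad (a : Idx 3 → ℤ) (P0 Q M : ℕ) (hP0 : 1 ≤ P0) [NeZero Q] [NeZero M]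
    (hcop : Nat.Coprime Q M) (h : ∀ p : ℕ, p.Prime → p ∣ M → P0 < p) :
    ∃ A0 : ℕ, ∀ A ≥ A0, ∀ G : Finset (Idx 5 → ℤ), G ⊆ bf 5 A →
      (∀ g ∈ G, ∀ r, (g r : ZMod Q) = if r = pos_r0 then 1 else 0) →
      ((G.filter fun g => 2 * (UU a 1 M g).card < M ^ 2).card : ℝ) * P0 * (Q : ℝ) ^ 15 ≤
        16 * (2 * A + 1) ^ 15 := by
  haveI : NeZero (Q * M) := ⟨Nat.mul_ne_zero (NeZero.ne Q) (NeZero.ne M)⟩
  obtain ⟨A0, hA0⟩ := boxq (Q * M)
  refine ⟨A0, fun A hA G hG hcl => ?_⟩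
  obtain ⟨Bad, hBad⟩ : ∃ Bad : Finset (Idx 5 → ZMod M), Bad = univ.filter fun g =>
      2 * ((univ : Finset (Fin 3 → ZMod M)).filter fun u =>
        phi (fun r => (a r : ZMod M)) g u = 0).card < M ^ 2 := ⟨_, rfl⟩
  let c1 : ZMod (Q * M) →+* ZMod Q := ZMod.castHom (dvd_mul_right Q M) (ZMod Q)
  let c2 : ZMod (Q * M) →+* ZMod M := ZMod.castHom (dvd_mul_left M Q) (ZMod M)
  obtain ⟨S, hS⟩ : ∃ S : Finset (Idx 5 → ZMod (Q * M)), S = univ.filter fun g =>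
      (∀ r, c1 (g r) = if r = pos_r0 then 1 else 0) ∧ (fun r => c2 (g r)) ∈ Bad := ⟨_, rfl⟩
  have hinj : ∀ x y : ZMod (Q * M), c1 x = c1 y → c2 x = c2 y → x = y := by
    intro x y h1 h2
    obtain ⟨k, rfl⟩ := ZMod.intCast_surjective x
    obtain ⟨l, rfl⟩ := ZMod.intCast_surjective y
    rw [map_intCast, map_intCast, ZMod.intCast_eq_intCast_iff_dvd_sub] at h1 h2
    rw [ZMod.intCast_eq_intCast_iff_dvd_sub]
    push_cast
    exact IsCoprime.mul_dvd (Nat.isCoprime_iff_coprime.2 hcop) h1 h2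
  have hScard : S.card ≤ Bad.card := by
    refine Finset.card_le_card_of_injOn (fun g r => c2 (g r)) ?_ ?_
    · intro g hg
      have hg' : g ∈ S := hg
      rw [hS, mem_filter] at hg'
      exact hg'.2.2
    · intro g hg g' hg' heq
      have h1 : g ∈ S := hg
      have h2 : g' ∈ S := hg'
      rw [hS, mem_filter] at h1 h2
      funext r
      apply hinj
      · rw [h1.2.1 r, h2.2.1 r]
      · exact congrFun heq r
  have hsub : (G.filter fun g => 2 * (UU a 1 M g).card < M ^ 2) ⊆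
      (bf 5 A).filter fun g => (fun r => (g r : ZMod (Q * M))) ∈ S := by
    intro g hg
    rw [mem_filter] at hg
    rw [mem_filter]
    refine ⟨hG hg.1, ?_⟩
    rw [hS]
    refine mem_filter.2 ⟨mem_univ _, ?_, ?_⟩
    · intro r
      rw [map_intCast]
      exact hcl g hg.1 r
    · simp only [map_intCast]
      rw [hBad]
      refine mem_filter.2 ⟨mem_univ _, ?_⟩
      rw [← uu_one]
      exact hg.2
  have h1 := hA0 A hA S
  have h2 := big a M P0 hP0 h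
  rw [← hBad] at h2
  have h2' : (P0 : ℝ) * Bad.card ≤ 8 * (M : ℝ) ^ 15 := by exact_mod_cast h2
  have h3 : ((G.filter fun g => 2 * (UU a 1 M g).card < M ^ 2).card : ℝ) ≤
      ((bf 5 A).filter fun g => (fun r => (g r : ZMod (Q * M))) ∈ S).card := by
    exact_mod_cast Finset.card_le_card hsub
  have h4 : (S.card : ℝ) ≤ Bad.card := by exact_mod_cast hScard
  have hM : (0 : ℝ) < (M : ℝ) ^ 15 := by
    have : 0 < M := Nat.pos_of_ne_zero (NeZero.ne M)
    positivity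
  have hA1 : (0 : ℝ) ≤ (2 * A + 1) ^ 15 := by positivity
  have hP : (0 : ℝ) ≤ P0 := Nat.cast_nonneg _
  push_cast at h1
  refine le_of_mul_le_mul_right ?_ hM
  calc ((G.filter fun g => 2 * (UU a 1 M g).card < M ^ 2).card : ℝ) * P0 * (Q : ℝ) ^ 15 *
        (M : ℝ) ^ 15
      = (P0 : ℝ) * (((G.filter fun g => 2 * (UU a 1 M g).card < M ^ 2).card : ℝ) *
        ((Q : ℝ) * M) ^ 15) := by ring
    _ ≤ (P0 : ℝ) * ((((bf 5 A).filter fun g =>
        (fun r => (g r : ZMod (Q * M))) ∈ S).card : ℝ) * ((Q : ℝ) * M) ^ 15) := by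
        apply mul_le_mul_of_nonneg_left _ hP
        exact mul_le_mul_of_nonneg_right h3 (by positivity)
    _ ≤ (P0 : ℝ) * (2 * S.card * (2 * A + 1) ^ 15) := mul_le_mul_of_nonneg_left h1 hP
    _ ≤ (P0 : ℝ) * (2 * Bad.card * (2 * A + 1) ^ 15) := by
        apply mul_le_mul_of_nonneg_left _ hP
        apply mul_le_mul_of_nonneg_right _ hA1
        linarith
    _ = 2 * ((P0 : ℝ) * Bad.card) * (2 * A + 1) ^ 15 := by ring
    _ ≤ 2 * (8 * (M : ℝ) ^ 15) * (2 * A + 1) ^ 15 := by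
        apply mul_le_mul_of_nonneg_right _ hA1
        linarith
    _ = 16 * (2 * A + 1) ^ 15 * (M : ℝ) ^ 15 := by ring

open scoped Classical in
/-- the forms that are considered -/
private noncomputable def pos_G (Q J L j0 : ℕ) : Finset (Idx 5 → ℤ) :=
  Fintype.piFinset fun r => if r = pos_r0 then
    (Finset.range L).image (fun j : ℕ => (Q : ℤ) * (j0 + j) + 1)
  else (Finset.Icc (-(J : ℤ)) J).image (fun j : ℤ => (Q : ℤ) * j)

private theorem pos_pi_card (F : Idx 5 → Finset ℤ) (x y : ℕ) (hx : (F pos_r0).card = x)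
    (hy : ∀ r, r ≠ pos_r0 → (F r).card = y) : (Fintype.piFinset F).card = x * y ^ 14 := by
  classical
  rw [Fintype.card_piFinset, ← Finset.mul_prod_erase Finset.univ _ (Finset.mem_univ pos_r0), hx,
    Finset.prod_congr rfl (fun r hr => hy r (Finset.ne_of_mem_erase hr)), Finset.prod_const,
    Finset.card_erase_of_mem (Finset.mem_univ _), Finset.card_univ]
  have h15 : Fintype.card (Idx 5) = 15 := by decide
  rw [h15]

private theorem pos_G_card (Q J L j0 : ℕ) (hQ : 0 < Q) :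
    (pos_G Q J L j0).card = L * (2 * J + 1) ^ 14 := by
  classical
  have hQ' : (Q : ℤ) ≠ 0 := by exact_mod_cast hQ.ne'
  unfold pos_G
  apply pos_pi_card
  · rw [if_pos rfl, Finset.card_image_of_injective, Finset.card_range]
    intro x y hxy
    have h1 : (Q : ℤ) * (j0 + x) = (Q : ℤ) * (j0 + y) := by
      have h0 : (Q : ℤ) * (j0 + x) + 1 = (Q : ℤ) * (j0 + y) + 1 := hxy
      linarith
    have h2 := mul_left_cancel₀ hQ' h1
    have h3 : (x : ℤ) = y := by linarith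
    exact_mod_cast h3
  · intro r hr
    rw [if_neg hr, Finset.card_image_of_injective, Int.card_Icc]
    · omega
    · exact fun x y hxy => mul_left_cancel₀ hQ' hxy

private theorem pos_G_mem {Q J L j0 : ℕ} {g : Idx 5 → ℤ} (hg : g ∈ pos_G Q J L j0) :
    (∃ j : ℕ, j < L ∧ g pos_r0 = (Q : ℤ) * (j0 + j) + 1) ∧
      ∀ r, r ≠ pos_r0 → ∃ j : ℤ, |j| ≤ J ∧ g r = (Q : ℤ) * j := by
  classical
  unfold pos_G at hg
  rw [Fintype.mem_piFinset] at hg
  constructor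
  · have h1 := hg pos_r0
    rw [if_pos rfl, Finset.mem_image] at h1
    obtain ⟨j, hj, h2⟩ := h1
    exact ⟨j, Finset.mem_range.1 hj, h2.symm⟩
  · intro r hr
    have h1 := hg r
    rw [if_neg hr, Finset.mem_image] at h1
    obtain ⟨j, hj, h2⟩ := h1
    exact ⟨j, abs_le.2 (Finset.mem_Icc.1 hj), h2.symm⟩

private theorem pos_factor (S : Finset ℕ) (P0 m : ℕ) (hm : m ≠ 0)
    (hS : S = (Finset.range (P0 + 1)).filter Nat.Prime) :
    ∃ M : ℕ, M ≠ 0 ∧ (∏ p ∈ S, p ^ m.factorization p) * M = m ∧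
      (∀ p : ℕ, p.Prime → p ∣ M → P0 < p) := by
  classical
  refine ⟨∏ p ∈ m.primeFactors.filter (fun p => ¬ p ≤ P0), p ^ m.factorization p, ?_, ?_, ?_⟩
  · rw [Finset.prod_ne_zero_iff]
    intro p hp
    exact pow_ne_zero _ (Nat.prime_of_mem_primeFactors (Finset.mem_filter.1 hp).1).ne_zero
  · have h1 : ∏ p ∈ S, p ^ m.factorization p =
        ∏ p ∈ m.primeFactors.filter (fun p => p ≤ P0), p ^ m.factorization p := by
      symm
      apply Finset.prod_subset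
      · intro p hp
        rw [Finset.mem_filter] at hp
        rw [hS, Finset.mem_filter, Finset.mem_range]
        exact ⟨by omega, Nat.prime_of_mem_primeFactors hp.1⟩
      · intro p hp hp2
        rw [hS, Finset.mem_filter, Finset.mem_range] at hp
        rw [Finset.mem_filter, not_and] at hp2
        have h3 : p ∉ m.primeFactors := fun h => hp2 h (by omega)
        have h4 : m.factorization p = 0 := by
          rwa [← Finsupp.notMem_support_iff, Nat.support_factorization]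
        rw [h4, pow_zero]
    rw [h1, Finset.prod_filter_mul_prod_filter_not]
    exact Nat.prod_factorization_pow_eq_self hm
  · intro p hp hdvd
    obtain ⟨q, hq, hpq⟩ := (Prime.dvd_finsetProd_iff hp.prime _).1 hdvd
    rw [Finset.mem_filter] at hq
    have h1 := hp.dvd_of_dvd_pow hpq
    have h2 := (Nat.prime_dvd_prime_iff_eq hp (Nat.prime_of_mem_primeFactors hq.1)).1 h1
    omega

open scoped Classical in
theorem pos {a : Idx 3 → ℤ} (ha : (Hm a).det ≠ 0) (τ : ℝ) (hτ : 0 < τ) : ∃ c : ℝ, 0 < c ∧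
    ∃ A0 : ℕ, ∀ A ≥ A0, c * (2 * A + 1) ^ 15 ≤ (((bf 5 A).filter fun g =>
      ∃ x : Fin 5 → ℤ, x ≠ 0 ∧ ff a x = 0 ∧ qv g x = 0 ∧
        ∀ i, |(x i : ℝ)| ≤ (A : ℝ) ^ (1 + τ)).card : ℝ) := by
  classical
  set K : ℝ := 1 + (ca a : ℝ) with hK
  have hca : (0 : ℝ) ≤ ca a := Nat.cast_nonneg _
  have hK0 : 0 < K := by linarith
  have hK1 : 1 ≤ K := by linarith
  set ε0 : ℝ := 1 / (1000 * K ^ 2) with hε0
  have hε : 0 < ε0 := by positivity
  have hε1 : ε0 ≤ 1 := by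
    rw [hε0, div_le_one (by positivity)]
    nlinarith
  set c' : ℝ := ε0 ^ 14 / 5 with hc'
  have hc'0 : 0 < c' := by positivity
  obtain ⟨P1, hP1⟩ := exists_nat_ge (64 * 3 ^ 15 / c')
  obtain ⟨P0, hP0, hP0'⟩ : ∃ P0 : ℕ, 1 ≤ P0 ∧ 64 * 3 ^ 15 / c' ≤ (P0 : ℝ) :=
    ⟨P1 + 1, by omega, hP1.trans (by push_cast; linarith)⟩
  set S : Finset ℕ := (Finset.range (P0 + 1)).filter Nat.Prime with hS
  have hSp : ∀ p ∈ S, p.Prime := fun p hp => (Finset.mem_filter.1 hp).2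
  set Q : ℕ := ∏ p ∈ S, p ^ 2 with hQ
  have hQ0 : 0 < Q := Finset.prod_pos fun p hp => pow_pos (hSp p hp).pos _
  have hQr : (0 : ℝ) < Q := by exact_mod_cast hQ0
  have hQ1r : (1 : ℝ) ≤ Q := by exact_mod_cast hQ0
  haveI hQne : NeZero Q := ⟨hQ0.ne'⟩
  have hpQ : ∀ p ∈ S, ((p ^ 2 : ℕ) : ℤ) ∣ (Q : ℤ) := by
    intro p hp
    exact_mod_cast Finset.dvd_prod_of_mem (fun p => p ^ 2) hp
  obtain ⟨c, hc, hcU⟩ := pos_uu a S hSp
  set δ : ℝ := c' / (4 * (3 * Q) ^ 15) with hδ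
  have hδ0 : 0 < δ := by positivity
  obtain ⟨N0, hN0⟩ := core ha 1 1 le_rfl (c / 2) (1 / 8) δ τ (by positivity) (by norm_num) hδ0 hτ
  obtain ⟨A1, hA1⟩ := hN0 N0 le_rfl
  obtain ⟨M, hM0, hMf, hMp⟩ := pos_factor S P0 N0.factorial (Nat.factorial_ne_zero _) hS
  haveI hMne : NeZero M := ⟨hM0⟩
  set M1 : ℕ := ∏ p ∈ S, p ^ (N0.factorial).factorization p with hM1
  have hcopp : ∀ p ∈ S, Nat.Coprime p M := by
    intro p hp
    rw [Nat.Prime.coprime_iff_not_dvd (hSp p hp)]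
    intro h
    have h1 := hMp p (hSp p hp) h
    have h2 := Finset.mem_range.1 (Finset.mem_filter.1 hp).1
    omega
  have hcopQ : Nat.Coprime Q M :=
    Nat.Coprime.prod_left fun p hp => Nat.Coprime.pow_left _ (hcopp p hp)
  have hcopM : Nat.Coprime M1 M :=
    Nat.Coprime.prod_left fun p hp => Nat.Coprime.pow_left _ (hcopp p hp)
  have hM10 : 0 < M1 := Finset.prod_pos fun p hp => pow_pos (hSp p hp).pos _
  obtain ⟨A2, hA2⟩ := pos_bad a P0 Q M hP0 hcopQ hMp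
  refine ⟨c' / (2 * (3 * Q) ^ 15), by positivity, max (max A1 A2) (20 * (Q + 1)), ?_⟩
  intro A hA
  have hAA1 : A1 ≤ A := (le_max_left _ _).trans ((le_max_left _ _).trans hA)
  have hAA2 : A2 ≤ A := (le_max_right _ _).trans ((le_max_left _ _).trans hA)
  have hAQ : 20 * (Q + 1) ≤ A := (le_max_right _ _).trans hA
  have hAQr : 20 * ((Q : ℝ) + 1) ≤ A := by exact_mod_cast hAQ
  have hA0 : (0 : ℝ) < A := by linarith
  have hA1' : (1 : ℝ) ≤ A := by linarith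
  set J : ℕ := ⌊ε0 * A / Q⌋₊ with hJ
  set L : ℕ := ⌈(A : ℝ) / (5 * Q)⌉₊ with hL
  set j0 : ℕ := ⌈(A : ℝ) / (4 * Q)⌉₊ with hj0
  have hJ1 : (J : ℝ) ≤ ε0 * A / Q := Nat.floor_le (by positivity)
  have hJ2 : ε0 * A / Q < J + 1 := Nat.lt_floor_add_one _
  have hL1 : (A : ℝ) / (5 * Q) ≤ L := Nat.le_ceil _
  have hL2 : (L : ℝ) < (A : ℝ) / (5 * Q) + 1 := Nat.ceil_lt_add_one (by positivity)
  have hj1 : (A : ℝ) / (4 * Q) ≤ j0 := Nat.le_ceil _
  have hj2 : (j0 : ℝ) < (A : ℝ) / (4 * Q) + 1 := Nat.ceil_lt_add_one (by positivity)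
  have hJQ : (Q : ℝ) * J ≤ ε0 * A := by
    calc (Q : ℝ) * J ≤ Q * (ε0 * A / Q) := mul_le_mul_of_nonneg_left hJ1 hQr.le
      _ = ε0 * A := by field_simp
  have hε0A : ε0 * A ≤ A := by
    calc ε0 * A ≤ 1 * A := mul_le_mul_of_nonneg_right hε1 hA0.le
      _ = A := one_mul _
  set G := pos_G Q J L j0 with hG
  have hGr0 : ∀ g ∈ G, (A : ℝ) / 4 ≤ g pos_r0 ∧ (g pos_r0 : ℝ) ≤ A := by
    intro g hg
    obtain ⟨⟨j, hj, h1⟩, _⟩ := pos_G_mem hg
    have hjL : (j : ℝ) + 1 ≤ L := by exact_mod_cast hj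
    have hj0' : (0 : ℝ) ≤ j := Nat.cast_nonneg _
    rw [h1]
    push_cast
    constructor
    · have h2 : (A : ℝ) / 4 ≤ Q * j0 := by
        calc (A : ℝ) / 4 = Q * (A / (4 * Q)) := by field_simp
          _ ≤ Q * j0 := mul_le_mul_of_nonneg_left hj1 hQr.le
      nlinarith
    · have h2 : (Q : ℝ) * (j0 + j) ≤ Q * (A / (4 * Q) + 1 + A / (5 * Q)) :=
        mul_le_mul_of_nonneg_left (by linarith) hQr.le
      have h3 : (Q : ℝ) * (A / (4 * Q) + 1 + A / (5 * Q)) = A / 4 + Q + A / 5 := by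
        field_simp
      linarith
  have hGr : ∀ g ∈ G, ∀ r, r ≠ pos_r0 → |(g r : ℝ)| ≤ ε0 * A := by
    intro g hg r hr
    obtain ⟨j, hj, h1⟩ := (pos_G_mem hg).2 r hr
    have hj' : |(j : ℝ)| ≤ J := by exact_mod_cast hj
    rw [h1]
    push_cast
    rw [abs_mul, abs_of_pos hQr]
    exact (mul_le_mul_of_nonneg_left hj' hQr.le).trans hJQ
  have hGsub : G ⊆ bf 5 A := by
    intro g hg
    unfold bf
    rw [Fintype.mem_piFinset]
    intro r
    rw [Finset.mem_Icc]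
    have h1 : |(g r : ℝ)| ≤ A := by
      by_cases hr : r = pos_r0
      · rw [hr, abs_le]
        obtain ⟨h2, h3⟩ := hGr0 g hg
        constructor <;> linarith
      · exact (hGr g hg r hr).trans hε0A
    obtain ⟨h2, h3⟩ := abs_le.1 h1
    constructor
    · exact_mod_cast h2
    · exact_mod_cast h3
  have hGcl : ∀ g ∈ G, ∀ r, (g r : ZMod Q) = if r = pos_r0 then 1 else 0 := by
    intro g hg r
    by_cases hr : r = pos_r0
    · rw [if_pos hr, hr]
      obtain ⟨⟨j, _, h1⟩, _⟩ := pos_G_mem hg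
      rw [h1]
      push_cast
      rw [ZMod.natCast_self]
      ring
    · rw [if_neg hr]
      obtain ⟨j, _, h1⟩ := (pos_G_mem hg).2 r hr
      rw [h1]
      push_cast
      rw [ZMod.natCast_self]
      ring
  have hGU : ∀ g ∈ G, c * ((M1 : ℕ) : ℝ) ^ 2 ≤ (UU a 1 M1 g).card := by
    intro g hg
    refine hcU g ?_ ?_ (fun p => (N0.factorial).factorization p)
    · intro r hr p hp
      obtain ⟨j, _, h1⟩ := (pos_G_mem hg).2 r hr
      rw [h1]
      exact dvd_mul_of_dvd_left (hpQ p hp) _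
    · intro p hp
      obtain ⟨⟨j, _, h1⟩, _⟩ := pos_G_mem hg
      rw [h1, add_sub_cancel_right]
      exact dvd_mul_of_dvd_left (hpQ p hp) _
  set B := G.filter (fun g => 2 * (UU a 1 M g).card < M ^ 2) with hB
  have hBcard := hA2 A hAA2 G hGsub hGcl
  rw [← hB] at hBcard
  have hE := hA1 A hAA1
  set X := (bf 5 A).filter (fun g => c / 2 * ((N0.factorial : ℕ) : ℝ) ^ 2 ≤
      (UU a 1 N0.factorial g).card ∧
      (∃ t : Fin 3 → ℝ, (∀ i, |t i| ≤ ((1 : ℕ) : ℝ)) ∧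
        phi (fun p => (a p : ℝ)) (fun p => (g p : ℝ)) t = 0 ∧
        ∃ i, 1 / 8 * (A : ℝ) ≤ |dphi (fun p => (a p : ℝ)) (fun p => (g p : ℝ)) t i|) ∧
      ¬ ∃ x : Fin 5 → ℤ, x ≠ 0 ∧ ff a x = 0 ∧ qv g x = 0 ∧
        ∀ i, |(x i : ℝ)| ≤ (A : ℝ) ^ (1 + τ)) with hX
  set Y := (bf 5 A).filter (fun g =>
      ∃ x : Fin 5 → ℤ, x ≠ 0 ∧ ff a x = 0 ∧ qv g x = 0 ∧
        ∀ i, |(x i : ℝ)| ≤ (A : ℝ) ^ (1 + τ)) with hY
  have hcover : G ⊆ B ∪ X ∪ Y := by
    intro g hg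
    rw [Finset.mem_union, Finset.mem_union]
    by_cases hb : 2 * (UU a 1 M g).card < M ^ 2
    · left; left
      exact Finset.mem_filter.2 ⟨hg, hb⟩
    · by_cases hx : ∃ x : Fin 5 → ℤ, x ≠ 0 ∧ ff a x = 0 ∧ qv g x = 0 ∧
        ∀ i, |(x i : ℝ)| ≤ (A : ℝ) ^ (1 + τ)
      · right
        exact Finset.mem_filter.2 ⟨hGsub hg, hx⟩
      · left; right
        refine Finset.mem_filter.2 ⟨hGsub hg, ?_, ?_, hx⟩
        · have h1 := uu_mul a g 1 1 M1 M (by rw [mul_one]; exact hM10)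
            (by rw [mul_one]; exact Nat.pos_of_ne_zero hM0)
            (by rw [mul_one, mul_one]; exact hcopM)
          rw [mul_one, hMf] at h1
          have h2 := hGU g hg
          have h3 : ((M : ℝ)) ^ 2 ≤ 2 * (UU a 1 M g).card := by
            have : M ^ 2 ≤ 2 * (UU a 1 M g).card := not_lt.1 hb
            exact_mod_cast this
          have h4 : ((UU a 1 M1 g).card : ℝ) * (UU a 1 M g).card ≤
              (UU a 1 N0.factorial g).card := by exact_mod_cast h1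
          have h5 : ((N0.factorial : ℕ) : ℝ) = (M1 : ℝ) * M := by
            rw [← hMf]
            push_cast
            rfl
          refine le_trans ?_ h4
          rw [h5]
          have h6 : 0 ≤ c * ((M1 : ℕ) : ℝ) ^ 2 := by positivity
          calc c / 2 * ((M1 : ℝ) * M) ^ 2 = (c * (M1 : ℝ) ^ 2) * ((M : ℝ) ^ 2 / 2) := by ring
            _ ≤ (c * (M1 : ℝ) ^ 2) * (UU a 1 M g).card :=
                mul_le_mul_of_nonneg_left (by linarith) h6
            _ ≤ (UU a 1 M1 g).card * (UU a 1 M g).card :=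
                mul_le_mul_of_nonneg_right h2 (Nat.cast_nonneg _)
        · refine pos_real a g A hA0 (hGr0 g hg).1 ?_
          intro r hr
          refine (hGr g hg r hr).trans (le_of_eq ?_)
          rw [hε0, hK]
          ring
  have hcard : (G.card : ℝ) ≤ B.card + X.card + Y.card := by
    have h1 := (Finset.card_le_card hcover).trans (Finset.card_union_le _ _)
    have h2 := Finset.card_union_le B X
    have h3 : G.card ≤ B.card + X.card + Y.card := by omega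
    exact_mod_cast h3
  have hGcard : c' * ((A : ℝ) / Q) ^ 15 ≤ G.card := by
    rw [hG, pos_G_card Q J L j0 hQ0]
    push_cast
    have h1 : ε0 * A / Q ≤ 2 * J + 1 := by
      have : (0 : ℝ) ≤ J := Nat.cast_nonneg _
      linarith
    have h2 : (ε0 * A / Q) ^ 14 ≤ (2 * (J : ℝ) + 1) ^ 14 := pow_le_pow_left₀ (by positivity) h1 14
    calc c' * ((A : ℝ) / Q) ^ 15 = (A : ℝ) / (5 * Q) * (ε0 * A / Q) ^ 14 := by
          rw [hc']
          field_simp
      _ ≤ L * (2 * (J : ℝ) + 1) ^ 14 := mul_le_mul hL1 h2 (by positivity) (Nat.cast_nonneg _)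
  have h3A : (2 * (A : ℝ) + 1) ^ 15 ≤ (3 * A) ^ 15 :=
    pow_le_pow_left₀ (by positivity) (by linarith) 15
  have hP0r : (0 : ℝ) < P0 := by
    have : 0 < P0 := hP0
    exact_mod_cast this
  have hBle : (B.card : ℝ) ≤ c' / 4 * ((A : ℝ) / Q) ^ 15 := by
    have h1 : (B.card : ℝ) * P0 * (Q : ℝ) ^ 15 ≤ 16 * (3 * A) ^ 15 := by linarith
    have h2 : 64 * 3 ^ 15 ≤ P0 * c' := by
      rw [div_le_iff₀ hc'0] at hP0'
      exact hP0'
    have h3 : (B.card : ℝ) * (P0 * (Q : ℝ) ^ 15) ≤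
        c' / 4 * ((A : ℝ) / Q) ^ 15 * (P0 * (Q : ℝ) ^ 15) := by
      have h4 : c' / 4 * ((A : ℝ) / Q) ^ 15 * (P0 * (Q : ℝ) ^ 15) = (P0 * c') / 4 * A ^ 15 := by
        field_simp
      rw [h4]
      have h5 : (64 * 3 ^ 15) / 4 * (A : ℝ) ^ 15 ≤ (P0 * c') / 4 * A ^ 15 := by
        apply mul_le_mul_of_nonneg_right _ (by positivity)
        linarith
      refine le_trans ?_ h5
      refine le_trans (le_of_eq ?_) (h1.trans (le_of_eq ?_))
      · ring
      · ring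
    exact le_of_mul_le_mul_right h3 (by positivity)
  have hXle : (X.card : ℝ) ≤ c' / 4 * ((A : ℝ) / Q) ^ 15 := by
    refine hE.trans ?_
    refine (mul_le_mul_of_nonneg_left h3A hδ0.le).trans (le_of_eq ?_)
    rw [hδ]
    field_simp
  have hYge : c' / 2 * ((A : ℝ) / Q) ^ 15 ≤ Y.card := by linarith
  refine le_trans ?_ hYge
  refine (mul_le_mul_of_nonneg_left h3A (by positivity)).trans (le_of_eq ?_)
  field_simp

end Pool.Agent.H7.HP
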