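import Pool.Agent.H7.HP.Cmp

set_option autoImplicit false
set_option linter.unusedSectionVars false

/-!
# Reduction of an isotropic quinary form to the shape `m (x0 x1 - h(x2, x3, x4))`
-/

namespace Pool.Agent.H7.HP

open Finset

section Ring

variable {R : Type*} [CommRing R]

theorem qv3 (c : Idx 3 → R) (x : Fin 3 → R) : qv c x =
    c ⟨(0, 0), by decide⟩ * (x 0 * x 0) + c ⟨(0, 1), by decide⟩ * (x 0 * x 1) +
    c ⟨(0, 2), by decide⟩ * (x 0 * x 2) + c ⟨(1, 1), by decide⟩ * (x 1 * x 1) +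
    c ⟨(1, 2), by decide⟩ * (x 1 * x 2) + c ⟨(2, 2), by decide⟩ * (x 2 * x 2) := by
  have hu : (univ : Finset (Idx 3)) = {⟨(0, 0), by decide⟩, ⟨(0, 1), by decide⟩,
    ⟨(0, 2), by decide⟩, ⟨(1, 1), by decide⟩, ⟨(1, 2), by decide⟩, ⟨(2, 2), by decide⟩} := by
    decide
  unfold qv
  rw [hu]
  repeat rw [sum_insert (by decide)]
  rw [sum_singleton]
  ring

theorem qv5 (c : Idx 5 → R) (x : Fin 5 → R) : qv c x =
    c ⟨(0, 0), by decide⟩ * (x 0 * x 0) + c ⟨(0, 1), by decide⟩ * (x 0 * x 1) +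
    c ⟨(0, 2), by decide⟩ * (x 0 * x 2) + c ⟨(0, 3), by decide⟩ * (x 0 * x 3) +
    c ⟨(0, 4), by decide⟩ * (x 0 * x 4) +
    c ⟨(1, 1), by decide⟩ * (x 1 * x 1) + c ⟨(1, 2), by decide⟩ * (x 1 * x 2) +
    c ⟨(1, 3), by decide⟩ * (x 1 * x 3) + c ⟨(1, 4), by decide⟩ * (x 1 * x 4) +
    c ⟨(2, 2), by decide⟩ * (x 2 * x 2) + c ⟨(2, 3), by decide⟩ * (x 2 * x 3) +
    c ⟨(2, 4), by decide⟩ * (x 2 * x 4) + c ⟨(3, 3), by decide⟩ * (x 3 * x 3) +
    c ⟨(3, 4), by decide⟩ * (x 3 * x 4) + c ⟨(4, 4), by decide⟩ * (x 4 * x 4) := by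
  have hu : (univ : Finset (Idx 5)) = {⟨(0, 0), by decide⟩, ⟨(0, 1), by decide⟩,
    ⟨(0, 2), by decide⟩, ⟨(0, 3), by decide⟩, ⟨(0, 4), by decide⟩, ⟨(1, 1), by decide⟩,
    ⟨(1, 2), by decide⟩, ⟨(1, 3), by decide⟩, ⟨(1, 4), by decide⟩, ⟨(2, 2), by decide⟩,
    ⟨(2, 3), by decide⟩, ⟨(2, 4), by decide⟩, ⟨(3, 3), by decide⟩, ⟨(3, 4), by decide⟩,
    ⟨(4, 4), by decide⟩} := by
    decide
  unfold qv
  rw [hu]
  repeat rw [sum_insert (by decide)]
  rw [sum_singleton]
  ring

end Ring

private theorem pl_lin2 {n : ℕ} {R : Type*} [CommRing R] (c : Idx n → R) (s t : R)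
    (x y z : Fin n → R) : pl c x (fun i => s * y i + t * z i) = s * pl c x y + t * pl c x z := by
  rw [pl_add, pl_smul, pl_smul]

private theorem pl_sub' {n : ℕ} {R : Type*} [CommRing R] (c : Idx n → R) (s t : R)
    (x y z : Fin n → R) : pl c x (fun i => s * y i - t * z i) = s * pl c x y - t * pl c x z := by
  have h : (fun i => s * y i - t * z i) = fun i => s * y i + (-t) * z i := by
    funext i
    ring
  rw [h, pl_lin2]
  ring

/-- the matrix of the polar form -/
private theorem Hm_mulVec {n : ℕ} (c : Idx n → ℤ) (x : Fin n → ℤ) (i : Fin n) :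
    (Hm c).mulVec x i = pl c (Pi.single i 1) x := by
  rw [pl_Hm]
  rw [sum_eq_single i]
  · unfold Matrix.mulVec dotProduct
    refine sum_congr rfl fun j _ => ?_
    rw [Pi.single_eq_same, one_mul]
  · intro j _ hj
    refine sum_eq_zero fun k _ => ?_
    rw [Pi.single_eq_of_ne hj, zero_mul, zero_mul]
  · intro h
    exact absurd (mem_univ i) h

/-- integral basis of the orthogonal complement -/
private theorem compl_basis {f : Idx 5 → ℤ} {e e' : Fin 5 → ℤ} {b : ℤ} (hb : b ≠ 0)
    (h1 : qv f e = 0) (h2 : qv f e' = 0) (h3 : pl f e e' = b) :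
    ∃ u : Fin 3 → Fin 5 → ℤ, (∀ k, pl f e (u k) = 0) ∧ (∀ k, pl f e' (u k) = 0) ∧
      ∀ c : Fin 3 → ℤ, (∀ i, ∑ k, c k * u k i = 0) → c = 0 := by
  set fQ : Idx 5 → ℚ := fun p => (f p : ℚ) with hfQ
  set eQ : Fin 5 → ℚ := fun i => (e i : ℚ) with heQ
  set eQ' : Fin 5 → ℚ := fun i => (e' i : ℚ) with heQ'
  have k1 : pl fQ eQ eQ = 0 := by
    have := pl_map (Int.castRingHom ℚ) f e e
    rw [pl_self, h1] at this
    simpa using this.symm
  have k2 : pl fQ eQ' eQ' = 0 := by
    have := pl_map (Int.castRingHom ℚ) f e' e'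
    rw [pl_self, h2] at this
    simpa using this.symm
  have k3 : pl fQ eQ eQ' = b := by
    have := pl_map (Int.castRingHom ℚ) f e e'
    rw [h3] at this
    exact this.symm
  have k4 : pl fQ eQ' eQ = b := by rw [pl_comm, k3]
  let L : (Fin 5 → ℚ) →ₗ[ℚ] (Fin 2 → ℚ) :=
    { toFun := fun x => ![pl fQ eQ x, pl fQ eQ' x]
      map_add' := fun x y => by
        have e1 : x + y = fun i => x i + y i := rfl
        rw [e1, pl_add, pl_add]
        funext i
        fin_cases i <;> rfl
      map_smul' := fun t x => by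
        have e1 : t • x = fun i => t * x i := rfl
        rw [e1, pl_smul, pl_smul]
        funext i
        fin_cases i <;> rfl }
  have hbq : (b : ℚ) ≠ 0 := by exact_mod_cast hb
  have hsurj : LinearMap.range L = ⊤ := by
    rw [LinearMap.range_eq_top]
    intro y
    refine ⟨fun i => (y 1 / b) * eQ i + (y 0 / b) * eQ' i, ?_⟩
    show ![pl fQ eQ (fun i => (y 1 / b) * eQ i + (y 0 / b) * eQ' i),
      pl fQ eQ' (fun i => (y 1 / b) * eQ i + (y 0 / b) * eQ' i)] = y
    rw [pl_lin2, pl_lin2, k1, k2, k3, k4]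
    funext i
    fin_cases i
    · show y 1 / b * 0 + y 0 / b * b = y 0
      field_simp
      ring
    · show y 1 / b * b + y 0 / b * 0 = y 1
      field_simp
      ring
  have hfin : Module.finrank ℚ (LinearMap.ker L) = 3 := by
    have h := LinearMap.finrank_range_add_finrank_ker L
    rw [hsurj, finrank_top, Module.finrank_fin_fun, Module.finrank_fin_fun] at h
    omega
  let w := Module.finBasisOfFinrankEq ℚ (LinearMap.ker L) hfin
  have hw0 : ∀ k, L (w k : Fin 5 → ℚ) = 0 := fun k => (w k).2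
  -- common denominators
  let d : Fin 3 → ℤ := fun k => ∏ i, ((w k : Fin 5 → ℚ) i).den
  have hd : ∀ k, d k ≠ 0 := by
    intro k
    refine prod_ne_zero_iff.2 fun i _ => ?_
    have := ((w k : Fin 5 → ℚ) i).den_nz
    exact_mod_cast this
  have hu : ∀ k i, ∃ z : ℤ, (z : ℚ) = d k * (w k : Fin 5 → ℚ) i := by
    intro k i
    have h1 : (((w k : Fin 5 → ℚ) i).den : ℤ) ∣ d k := dvd_prod_of_mem _ (mem_univ i)
    obtain ⟨r, hr⟩ := h1
    refine ⟨r * ((w k : Fin 5 → ℚ) i).num, ?_⟩
    rw [hr]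
    push_cast
    have h2 := Rat.den_mul_eq_num ((w k : Fin 5 → ℚ) i)
    calc (r : ℚ) * ((w k : Fin 5 → ℚ) i).num
        = r * (((w k : Fin 5 → ℚ) i).den * (w k : Fin 5 → ℚ) i) := by rw [h2]
      _ = _ := by ring
  choose u hu using hu
  have hLu : ∀ k, (fun i => (u k i : ℚ)) = fun i => (d k : ℚ) * (w k : Fin 5 → ℚ) i := by
    intro k
    funext i
    exact hu k i
  refine ⟨u, fun k => ?_, fun k => ?_, fun c hc => ?_⟩
  · have h := pl_map (Int.castRingHom ℚ) f e (u k)
    have h' : pl fQ eQ (fun i => (u k i : ℚ)) = 0 := by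
      rw [hLu k, pl_smul]
      have := congrFun (hw0 k) 0
      have h4 : pl fQ eQ (w k : Fin 5 → ℚ) = 0 := this
      rw [h4, mul_zero]
    have h5 : ((pl f e (u k) : ℤ) : ℚ) = 0 := by
      rw [← h']
      exact h
    exact_mod_cast h5
  · have h := pl_map (Int.castRingHom ℚ) f e' (u k)
    have h' : pl fQ eQ' (fun i => (u k i : ℚ)) = 0 := by
      rw [hLu k, pl_smul]
      have := congrFun (hw0 k) 1
      have h4 : pl fQ eQ' (w k : Fin 5 → ℚ) = 0 := this
      rw [h4, mul_zero]
    have h5 : ((pl f e' (u k) : ℤ) : ℚ) = 0 := by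
      rw [← h']
      exact h
    exact_mod_cast h5
  · have hli := Fintype.linearIndependent_iff.1 w.linearIndependent
      (fun k => (c k : ℚ) * d k) (by
        apply Subtype.ext
        funext i
        rw [Submodule.coe_sum]
        rw [Finset.sum_apply]
        show ∑ k, ((c k : ℚ) * d k) * (w k : Fin 5 → ℚ) i = 0
        have h6 : ((∑ k, c k * u k i : ℤ) : ℚ) = 0 := by
          rw [hc i]
          simp
        push_cast at h6
        rw [← h6]
        refine sum_congr rfl fun k _ => ?_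
        rw [hu k i]
        ring)
    funext k
    have h7 := hli k
    have h8 : (d k : ℚ) ≠ 0 := by exact_mod_cast hd k
    have h9 : (c k : ℚ) = 0 := by
      rcases mul_eq_zero.1 h7 with h | h
      · exact h
      · exact absurd h h8
    exact_mod_cast h9

theorem red {f : Idx 5 → ℤ} (hf : (Hm f).det ≠ 0) {e : Fin 5 → ℤ} (he : e ≠ 0)
    (hfe : qv f e = 0) :
    ∃ (a : Idx 3 → ℤ) (T : Matrix (Fin 5) (Fin 5) ℤ) (m : ℤ), m ≠ 0 ∧ T.det ≠ 0 ∧
      (Hm a).det ≠ 0 ∧ ∀ (R : Type) [CommRing R] (x : Fin 5 → R),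
        qv (fun p => (f p : R)) ((T.map (Int.castRingHom R)).mulVec x) =
          (m : R) * ff (fun p => (a p : R)) x := by
  -- a vector not orthogonal to `e`
  obtain ⟨j, hj⟩ : ∃ j : Fin 5, pl f (Pi.single j 1) e ≠ 0 := by
    by_contra hne
    push Not at hne
    apply he
    apply Matrix.eq_zero_of_mulVec_eq_zero hf
    funext j
    rw [Hm_mulVec, hne j]
    rfl
  set y : Fin 5 → ℤ := Pi.single j 1 with hy
  set b : ℤ := pl f y e with hb
  have hey : pl f e y = b := by rw [pl_comm]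
  set e' : Fin 5 → ℤ := fun i => b * y i - qv f y * e i with he'
  have hee : pl f e e = 0 := by rw [pl_self, hfe, mul_zero]
  have h3 : pl f e e' = b ^ 2 := by
    rw [he', pl_sub', hey, hee]
    ring
  have h2 : qv f e' = 0 := by
    have h4 : pl f e' e' = 0 := by
      have h5 : pl f e' e = b ^ 2 := by rw [pl_comm, h3]
      have h6 : pl f e' y = b * (2 * qv f y) - qv f y * b := by
        rw [pl_comm, he', pl_sub', pl_self]
      have h7 : pl f e' e' = b * pl f e' y - qv f y * pl f e' e := by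
        nth_rewrite 2 [he']
        rw [pl_sub']
      rw [h7, h5, h6]
      ring
    rw [pl_self] at h4
    omega
  have hb2 : b ^ 2 ≠ 0 := pow_ne_zero 2 hj
  obtain ⟨u, hu1, hu2, hu3⟩ := compl_basis hb2 hfe h2 h3
  set v : Fin 5 → Fin 5 → ℤ := ![e, e', fun i => b * u 0 i, fun i => b * u 1 i,
    fun i => b * u 2 i] with hv
  set T : Matrix (Fin 5) (Fin 5) ℤ := Matrix.of fun i j => v j i with hT
  set a : Idx 3 → ℤ := fun p => if p.1.1 = p.1.2 then - qv f (u p.1.1) else
    - pl f (u p.1.1) (u p.1.2) with ha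
  have hid : ∀ (R : Type) [CommRing R] (x : Fin 5 → R),
      qv (fun p => (f p : R)) ((T.map (Int.castRingHom R)).mulVec x) =
        ((b ^ 2 : ℤ) : R) * ff (fun p => (a p : R)) x := by
    intro R _ x
    have e1 := qv_cmp (T.map (Int.castRingHom R)) (fun p => (f p : R)) x
    rw [← e1]
    have e2 := cmp_map (Int.castRingHom R) T f
    have e3 : (cmp (T.map (Int.castRingHom R)) fun p => (f p : R)) =
        fun p => ((cmp T f p : ℤ) : R) := e2
    rw [e3]
    have hc : ∀ i j : Fin 5, (fun k => T k i) = v i := fun i j => rfl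
    have c00 : cmp T f ⟨(0, 0), by decide⟩ = 0 := by
      show (if (0 : Fin 5) = 0 then qv f (v 0) else pl f (v 0) (v 0)) = 0
      rw [if_pos rfl]
      exact hfe
    have c01 : cmp T f ⟨(0, 1), by decide⟩ = b ^ 2 := by
      show (if (0 : Fin 5) = 1 then qv f (v 0) else pl f (v 0) (v 1)) = b ^ 2
      rw [if_neg (by decide)]
      exact h3
    have hb0 : ∀ (z : Fin 5 → ℤ) (k : Fin 3), pl f z (u k) = 0 →
        pl f z (fun i => b * u k i) = 0 := by
      intro z k h
      rw [pl_smul, h, mul_zero]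
    have c02 : cmp T f ⟨(0, 2), by decide⟩ = 0 := by
      show (if (0 : Fin 5) = 2 then qv f (v 0) else pl f (v 0) (v 2)) = 0
      rw [if_neg (by decide)]
      exact hb0 _ _ (hu1 0)
    have c03 : cmp T f ⟨(0, 3), by decide⟩ = 0 := by
      show (if (0 : Fin 5) = 3 then qv f (v 0) else pl f (v 0) (v 3)) = 0
      rw [if_neg (by decide)]
      exact hb0 _ _ (hu1 1)
    have c04 : cmp T f ⟨(0, 4), by decide⟩ = 0 := by
      show (if (0 : Fin 5) = 4 then qv f (v 0) else pl f (v 0) (v 4)) = 0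
      rw [if_neg (by decide)]
      exact hb0 _ _ (hu1 2)
    have c11 : cmp T f ⟨(1, 1), by decide⟩ = 0 := by
      show (if (1 : Fin 5) = 1 then qv f (v 1) else pl f (v 1) (v 1)) = 0
      rw [if_pos rfl]
      exact h2
    have c12 : cmp T f ⟨(1, 2), by decide⟩ = 0 := by
      show (if (1 : Fin 5) = 2 then qv f (v 1) else pl f (v 1) (v 2)) = 0
      rw [if_neg (by decide)]
      exact hb0 _ _ (hu2 0)
    have c13 : cmp T f ⟨(1, 3), by decide⟩ = 0 := by
      show (if (1 : Fin 5) = 3 then qv f (v 1) else pl f (v 1) (v 3)) = 0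
      rw [if_neg (by decide)]
      exact hb0 _ _ (hu2 1)
    have c14 : cmp T f ⟨(1, 4), by decide⟩ = 0 := by
      show (if (1 : Fin 5) = 4 then qv f (v 1) else pl f (v 1) (v 4)) = 0
      rw [if_neg (by decide)]
      exact hb0 _ _ (hu2 2)
    have hq : ∀ k : Fin 3, qv f (fun i => b * u k i) = b ^ 2 * qv f (u k) := fun k => qv_smul _ _ _
    have hp : ∀ k l : Fin 3, pl f (fun i => b * u k i) (fun i => b * u l i) =
        b ^ 2 * pl f (u k) (u l) := by
      intro k l
      rw [pl_smul, pl_comm, pl_smul, pl_comm]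
      ring
    have a00 : a ⟨(0, 0), by decide⟩ = - qv f (u 0) := rfl
    have a01 : a ⟨(0, 1), by decide⟩ = - pl f (u 0) (u 1) := rfl
    have a02 : a ⟨(0, 2), by decide⟩ = - pl f (u 0) (u 2) := rfl
    have a11 : a ⟨(1, 1), by decide⟩ = - qv f (u 1) := rfl
    have a12 : a ⟨(1, 2), by decide⟩ = - pl f (u 1) (u 2) := rfl
    have a22 : a ⟨(2, 2), by decide⟩ = - qv f (u 2) := rfl
    have c22 : cmp T f ⟨(2, 2), by decide⟩ = - (b ^ 2 * a ⟨(0, 0), by decide⟩) := by
      show (if (2 : Fin 5) = 2 then qv f (v 2) else pl f (v 2) (v 2)) = _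
      rw [if_pos rfl, a00]
      exact (hq 0).trans (by ring)
    have c23 : cmp T f ⟨(2, 3), by decide⟩ = - (b ^ 2 * a ⟨(0, 1), by decide⟩) := by
      show (if (2 : Fin 5) = 3 then qv f (v 2) else pl f (v 2) (v 3)) = _
      rw [if_neg (by decide), a01]
      exact (hp 0 1).trans (by ring)
    have c24 : cmp T f ⟨(2, 4), by decide⟩ = - (b ^ 2 * a ⟨(0, 2), by decide⟩) := by
      show (if (2 : Fin 5) = 4 then qv f (v 2) else pl f (v 2) (v 4)) = _
      rw [if_neg (by decide), a02]
      exact (hp 0 2).trans (by ring)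
    have c33 : cmp T f ⟨(3, 3), by decide⟩ = - (b ^ 2 * a ⟨(1, 1), by decide⟩) := by
      show (if (3 : Fin 5) = 3 then qv f (v 3) else pl f (v 3) (v 3)) = _
      rw [if_pos rfl, a11]
      exact (hq 1).trans (by ring)
    have c34 : cmp T f ⟨(3, 4), by decide⟩ = - (b ^ 2 * a ⟨(1, 2), by decide⟩) := by
      show (if (3 : Fin 5) = 4 then qv f (v 3) else pl f (v 3) (v 4)) = _
      rw [if_neg (by decide), a12]
      exact (hp 1 2).trans (by ring)
    have c44 : cmp T f ⟨(4, 4), by decide⟩ = - (b ^ 2 * a ⟨(2, 2), by decide⟩) := by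
      show (if (4 : Fin 5) = 4 then qv f (v 4) else pl f (v 4) (v 4)) = _
      rw [if_pos rfl, a22]
      exact (hq 2).trans (by ring)
    rw [qv5]
    simp only [c00, c01, c02, c03, c04, c11, c12, c13, c14, c22, c23, c24, c33, c34, c44]
    unfold ff
    rw [qv3]
    have t0 : tl x 0 = x 2 := rfl
    have t1 : tl x 1 = x 3 := rfl
    have t2 : tl x 2 = x 4 := rfl
    rw [t0, t1, t2]
    push_cast
    ring
  have hTv : ∀ c : Fin 5 → ℤ, T.mulVec c = fun i => c 0 * e i + (c 1 * e' i + b *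
      (c 2 * u 0 i + c 3 * u 1 i + c 4 * u 2 i)) := by
    intro c
    funext i
    show ∑ k, v k i * c k = _
    rw [Fin.sum_univ_five]
    show e i * c 0 + e' i * c 1 + (b * u 0 i) * c 2 + (b * u 1 i) * c 3 + (b * u 2 i) * c 4 = _
    ring
  have hTdet : T.det ≠ 0 := by
    intro h0
    obtain ⟨c, hc, hTc⟩ := Matrix.exists_mulVec_eq_zero_iff.2 h0
    rw [hTv] at hTc
    have p1 : ∀ z : Fin 5 → ℤ, (∀ k, pl f z (u k) = 0) → pl f z (fun i => c 0 * e i + (c 1 * e' i +
        b * (c 2 * u 0 i + c 3 * u 1 i + c 4 * u 2 i))) = c 0 * pl f z e + c 1 * pl f z e' := by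
      intro z hz
      rw [pl_add, pl_add, pl_smul, pl_smul, pl_smul]
      have e1 : pl f z (fun i => c 2 * u 0 i + c 3 * u 1 i + c 4 * u 2 i) = 0 := by
        rw [pl_add, pl_lin2, pl_smul, hz, hz, hz]
        ring
      rw [e1]
      ring
    have hz0 : ∀ z : Fin 5 → ℤ, pl f z 0 = 0 := by
      intro z
      have : (0 : Fin 5 → ℤ) = fun i => 0 * (0 : ℤ) := by
        funext i
        simp
      rw [this, pl_smul f 0 z fun _ => 0]
      ring
    have hc1 : c 1 = 0 := by
      have h := p1 e hu1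
      rw [hTc, hz0, hee, h3] at h
      have h' : c 1 * b ^ 2 = 0 := by linarith
      rcases mul_eq_zero.1 h' with h'' | h''
      · exact h''
      · exact absurd h'' hb2
    have hc0 : c 0 = 0 := by
      have h := p1 e' hu2
      have h5 : pl f e' e = b ^ 2 := by rw [pl_comm, h3]
      rw [hTc, hz0, h5, hc1] at h
      have h' : c 0 * b ^ 2 = 0 := by linarith
      rcases mul_eq_zero.1 h' with h'' | h''
      · exact h''
      · exact absurd h'' hb2
    have h4 := hu3 ![c 2, c 3, c 4] (by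
      intro i
      rw [Fin.sum_univ_three]
      show c 2 * u 0 i + c 3 * u 1 i + c 4 * u 2 i = 0
      have h := congrFun hTc i
      simp only [hc0, hc1, zero_mul, zero_add] at h
      have h' : b * (c 2 * u 0 i + c 3 * u 1 i + c 4 * u 2 i) = 0 := h
      rcases mul_eq_zero.1 h' with h'' | h''
      · exact absurd h'' hj
      · exact h'')
    apply hc
    funext i
    fin_cases i
    · exact hc0
    · exact hc1
    · exact congrFun h4 0
    · exact congrFun h4 1
    · exact congrFun h4 2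
  refine ⟨a, T, b ^ 2, hb2, hTdet, ?_, hid⟩
  intro h0
  obtain ⟨c, hc, hac⟩ := Matrix.exists_mulVec_eq_zero_iff.2 h0
  have hpl0 : ∀ w : Fin 3 → ℤ, pl a w c = 0 := by
    intro w
    have h := pl_Hm a w c
    rw [h]
    refine sum_eq_zero fun i _ => ?_
    have h' := congrFun hac i
    have h'' : ∑ j, Hm a i j * c j = 0 := h'
    calc ∑ j, w i * Hm a i j * c j = w i * ∑ j, Hm a i j * c j := by
          rw [mul_sum]
          exact sum_congr rfl fun j _ => by ring
      _ = 0 := by rw [h'', mul_zero]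
  set yy : Fin 5 → ℤ := mk5 0 0 c with hyy
  have hidZ : ∀ x : Fin 5 → ℤ, qv f (T.mulVec x) = b ^ 2 * ff a x := by
    intro x
    have h := hid ℤ x
    have e1 : T.map (Int.castRingHom ℤ) = T := by
      ext i j
      simp
    rw [e1] at h
    simpa using h
  have hzero : ∀ x : Fin 5 → ℤ, pl f (T.mulVec x) (T.mulVec yy) = 0 := by
    intro x
    have e1 : T.mulVec (fun i => x i + yy i) = fun i => T.mulVec x i + T.mulVec yy i := by
      have := Matrix.mulVec_add T x yy
      exact this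
    have e2 := hidZ fun i => x i + yy i
    rw [e1, qv_add, hidZ, hidZ] at e2
    have e3 : ff a (fun i => x i + yy i) = ff a x + ff a yy := by
      have e4 : tl (fun i => x i + yy i) = fun i => tl x i + c i := by
        funext i
        fin_cases i <;> rfl
      unfold ff
      rw [e4, qv_add, hpl0]
      have e5 : tl yy = c := tl_mk5 _ _ _
      rw [e5]
      have e6 : yy 0 = 0 := rfl
      have e7 : yy 1 = 0 := rfl
      simp only [e6, e7]
      ring
    rw [e3] at e2
    linarith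
  have hHy : (Hm f).mulVec (T.mulVec yy) = 0 := by
    have h1 : T.transpose.mulVec ((Hm f).mulVec (T.mulVec yy)) = 0 := by
      funext i
      have h := hzero (Pi.single i 1)
      rw [pl_Hm] at h
      show ∑ k, T k i * (Hm f).mulVec (T.mulVec yy) k = 0
      rw [← h]
      refine sum_congr rfl fun k _ => ?_
      have e1 : T.mulVec (Pi.single i 1) k = T k i := by
        rw [Matrix.mulVec_single_one]
        rfl
      rw [e1]
      show T k i * ∑ l, Hm f k l * T.mulVec yy l = _
      rw [mul_sum]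
      exact sum_congr rfl fun l _ => by ring
    apply Matrix.eq_zero_of_mulVec_eq_zero _ h1
    rw [Matrix.det_transpose]
    exact hTdet
  have h1 := Matrix.eq_zero_of_mulVec_eq_zero hf hHy
  have h2 := Matrix.eq_zero_of_mulVec_eq_zero hTdet h1
  apply hc
  have h3 : tl yy = c := tl_mk5 _ _ _
  rw [← h3, h2]
  funext i
  fin_cases i <;> rfl

end Pool.Agent.H7.HP
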