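import Pool.Agent.H7.HP.Fin
import Pool.Agent.H7.HP.Pos
import Pool.Agent.H7.HP.Red

set_option autoImplicit false
set_option linter.unusedSectionVars false

/-!
# Transfer to every isotropic quinary form
-/

namespace Pool.Agent.H7.HP

open Finset

/-- `f = g = 0` has nontrivial zeros over `ℝ` and all `ℚ_p` -/
def LocSol2 (f g : Idx 5 → ℤ) : Prop :=
  (∃ x : Fin 5 → ℝ, x ≠ 0 ∧ qv (fun p => (f p : ℝ)) x = 0 ∧ qv (fun p => (g p : ℝ)) x = 0) ∧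
    ∀ (p : ℕ) [Fact p.Prime], ∃ x : Fin 5 → ℚ_[p], x ≠ 0 ∧
      qv (fun i => (f i : ℚ_[p])) x = 0 ∧ qv (fun i => (g i : ℚ_[p])) x = 0

/-- `f = g = 0` has a nontrivial integral zero of size at most `H` -/
def IntSol2 (f g : Idx 5 → ℤ) (H : ℝ) : Prop :=
  ∃ x : Fin 5 → ℤ, x ≠ 0 ∧ qv f x = 0 ∧ qv g x = 0 ∧ ∀ i, |(x i : ℝ)| ≤ H

private theorem cmp_scalar {n : ℕ} (t : ℤ) (g : Idx n → ℤ) :
    cmp (t • (1 : Matrix (Fin n) (Fin n) ℤ)) g = fun p => t ^ 2 * g p := by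
  have h1 := cmp_one g
  have hcol : ∀ i : Fin n, (fun k => (t • (1 : Matrix (Fin n) (Fin n) ℤ)) k i) =
      fun k => t * (1 : Matrix (Fin n) (Fin n) ℤ) k i := by
    intro i
    funext k
    rfl
  funext p
  have h2 := congrFun h1 p
  unfold cmp at h2 ⊢
  by_cases h : p.1.1 = p.1.2
  · rw [if_pos h] at h2 ⊢
    rw [hcol, qv_smul, h2]
  · rw [if_neg h] at h2 ⊢
    rw [hcol, hcol, pl_smul, pl_comm, pl_smul, pl_comm, h2]
    ring

private theorem cmp_inj {n : ℕ} {T : Matrix (Fin n) (Fin n) ℤ} (hT : T.det ≠ 0) :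
    Function.Injective (cmp T : (Idx n → ℤ) → Idx n → ℤ) := by
  intro g g' h
  have h1 := congrArg (cmp T.adjugate) h
  rw [cmp_cmp, cmp_cmp, Matrix.mul_adjugate, cmp_scalar, cmp_scalar] at h1
  funext p
  have h2 := congrFun h1 p
  exact mul_left_cancel₀ (pow_ne_zero 2 hT) h2

private theorem loc_tr {R : Type} [Field R] [CharZero R] {f g : Idx 5 → ℤ} {a : Idx 3 → ℤ}
    {T : Matrix (Fin 5) (Fin 5) ℤ} {m : ℤ} (hm : m ≠ 0) (hT : T.det ≠ 0)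
    (hid : ∀ x : Fin 5 → R, qv (fun p => (f p : R)) ((T.map (Int.castRingHom R)).mulVec x) =
          (m : R) * ff (fun p => (a p : R)) x)
    (h : ∃ x : Fin 5 → R, x ≠ 0 ∧ qv (fun p => (f p : R)) x = 0 ∧ qv (fun p => (g p : R)) x = 0) :
    ∃ x : Fin 5 → R, x ≠ 0 ∧ ff (fun p => (a p : R)) x = 0 ∧
      qv (fun p => ((cmp T g p : ℤ) : R)) x = 0 := by
  obtain ⟨x, hx, hfx, hgx⟩ := h
  set TR : Matrix (Fin 5) (Fin 5) R := T.map (Int.castRingHom R) with hTR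
  have hdet : TR.det = (T.det : R) := by
    have := RingHom.map_det (Int.castRingHom R) T
    rw [hTR]
    exact this.symm
  have hd0 : (T.det : R) ≠ 0 := by exact_mod_cast hT
  have hm0 : (m : R) ≠ 0 := by exact_mod_cast hm
  have hTx : TR.mulVec (TR.adjugate.mulVec x) = fun i => (T.det : R) * x i := by
    rw [Matrix.mulVec_mulVec, Matrix.mul_adjugate, hdet, Matrix.smul_mulVec, Matrix.one_mulVec]
    rfl
  refine ⟨TR.adjugate.mulVec x, ?_, ?_, ?_⟩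
  · intro h0
    rw [h0, Matrix.mulVec_zero] at hTx
    apply hx
    funext i
    have := congrFun hTx i
    rcases mul_eq_zero.1 this.symm with h1 | h1
    · exact absurd h1 hd0
    · exact h1
  · have h1 := hid (TR.adjugate.mulVec x)
    rw [hTx, qv_smul, hfx, mul_zero] at h1
    rcases mul_eq_zero.1 h1.symm with h2 | h2
    · exact absurd h2 hm0
    · exact h2
  · have e2 : (cmp TR fun p => (g p : R)) = fun p => ((cmp T g p : ℤ) : R) :=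
      cmp_map (Int.castRingHom R) T g
    rw [← e2, qv_cmp, hTx, qv_smul, hgx, mul_zero]

/-- a bound for `T x` -/
private theorem mulVec_bd (T : Matrix (Fin 5) (Fin 5) ℤ) : ∃ K : ℝ, 0 < K ∧
    ∀ (x : Fin 5 → ℤ) (X : ℝ), (∀ i, |(x i : ℝ)| ≤ X) → ∀ i, |((T.mulVec x i : ℤ) : ℝ)| ≤ K * X := by
  refine ⟨1 + ∑ i, ∑ j, |(T i j : ℝ)|, by positivity, fun x X hX i => ?_⟩
  have hX0 : 0 ≤ X := (abs_nonneg _).trans (hX 0)
  have h1 : ((T.mulVec x i : ℤ) : ℝ) = ∑ j, (T i j : ℝ) * x j := by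
    unfold Matrix.mulVec dotProduct
    push_cast
    rfl
  rw [h1]
  have h2 : |∑ j, (T i j : ℝ) * x j| ≤ ∑ j, |(T i j : ℝ)| * X := by
    refine (abs_sum_le_sum_abs _ _).trans (sum_le_sum fun j _ => ?_)
    rw [abs_mul]
    exact mul_le_mul_of_nonneg_left (hX j) (abs_nonneg _)
  have h3 : ∑ j, |(T i j : ℝ)| ≤ ∑ i, ∑ j, |(T i j : ℝ)| :=
    single_le_sum (f := fun i => ∑ j, |(T i j : ℝ)|) (fun i _ => by positivity) (mem_univ i)
  rw [← sum_mul] at h2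
  nlinarith

/-- large powers -/
private theorem pow_large (K : ℝ) {τ : ℝ} (hτ : 0 < τ) : ∃ A0 : ℕ, ∀ A ≥ A0, K ≤ (A : ℝ) ^ τ := by
  have h := (tendsto_rpow_atTop hτ).comp tendsto_natCast_atTop_atTop
  obtain ⟨A0, hA0⟩ := (Filter.tendsto_atTop.1 h K).exists_forall_of_atTop
  exact ⟨A0, hA0⟩

private theorem ht_bd {K C : ℝ} (hC : 0 ≤ C) {τ : ℝ} {A : ℕ} (hA1 : 1 ≤ A)
    (hA : K * C ^ (1 + τ / 2) ≤ (A : ℝ) ^ (τ / 2)) :
    K * ((C * A : ℝ)) ^ (1 + τ / 2) ≤ (A : ℝ) ^ (1 + τ) := by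
  have hAr : (0 : ℝ) < A := by exact_mod_cast hA1
  rw [Real.mul_rpow hC hAr.le]
  have e1 : (A : ℝ) ^ (1 + τ) = (A : ℝ) ^ (τ / 2) * (A : ℝ) ^ (1 + τ / 2) := by
    rw [← Real.rpow_add hAr]
    ring_nf
  rw [e1, ← mul_assoc]
  exact mul_le_mul_of_nonneg_right hA (Real.rpow_nonneg hAr.le _)

/-- an integral zero of the transformed pair gives one of the pair -/
private theorem int_tr {f : Idx 5 → ℤ} {a : Idx 3 → ℤ} {T : Matrix (Fin 5) (Fin 5) ℤ} {m : ℤ}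
    (hT : T.det ≠ 0) (hid : ∀ x : Fin 5 → ℤ, qv f (T.mulVec x) = m * ff a x)
    {x : Fin 5 → ℤ} (hx : x ≠ 0) (hfx : ff a x = 0) :
    T.mulVec x ≠ 0 ∧ qv f (T.mulVec x) = 0 := by
  refine ⟨fun h => hx (Matrix.eq_zero_of_mulVec_eq_zero hT h), ?_⟩
  rw [hid, hfx, mul_zero]

private theorem hid_int {f : Idx 5 → ℤ} {a : Idx 3 → ℤ} {T : Matrix (Fin 5) (Fin 5) ℤ} {m : ℤ}
    (hid : ∀ (R : Type) [CommRing R] (x : Fin 5 → R),
        qv (fun p => (f p : R)) ((T.map (Int.castRingHom R)).mulVec x) =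
          (m : R) * ff (fun p => (a p : R)) x) (x : Fin 5 → ℤ) :
    qv f (T.mulVec x) = m * ff a x := by
  have h := hid ℤ x
  have e1 : T.map (Int.castRingHom ℤ) = T := by
    ext i j
    simp
  rw [e1] at h
  simpa using h

open scoped Classical in
theorem gen1 {f : Idx 5 → ℤ} (hf : (Hm f).det ≠ 0) (hiso : ∃ e : Fin 5 → ℤ, e ≠ 0 ∧ qv f e = 0)
    (τ δ : ℝ) (hτ : 0 < τ) (hδ : 0 < δ) :
    ∃ A0 : ℕ, ∀ A ≥ A0, (((bf 5 A).filter fun g => LocSol2 f g ∧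
      ¬ IntSol2 f g ((A : ℝ) ^ (1 + τ))).card : ℝ) ≤ δ * (2 * A + 1) ^ 15 := by
  obtain ⟨e, he, hfe⟩ := hiso
  obtain ⟨a, T, m, hm, hT, ha, hid⟩ := red hf he hfe
  obtain ⟨C, hC, hbd⟩ := cmp_bd T
  obtain ⟨K, hK, hKb⟩ := mulVec_bd T
  have hCr : (1 : ℝ) ≤ C := by exact_mod_cast hC
  obtain ⟨A1, hA1⟩ := final a ha (τ / 2) (δ / (C : ℝ) ^ 15) (by positivity) (by positivity)
  obtain ⟨A2, hA2⟩ := pow_large (K * (C : ℝ) ^ (1 + τ / 2)) (τ := τ / 2) (by positivity)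
  refine ⟨max 1 (max A1 A2), fun A hA => ?_⟩
  have h1 : 1 ≤ A := (le_max_left _ _).trans hA
  have h2 : A1 ≤ A := ((le_max_left _ _).trans (le_max_right _ _)).trans hA
  have h3 : A2 ≤ A := ((le_max_right _ _).trans (le_max_right _ _)).trans hA
  have h4 : A1 ≤ C * A := by nlinarith
  have h5 := hA1 (C * A) h4
  have h6 : ((bf 5 A).filter fun g => LocSol2 f g ∧ ¬ IntSol2 f g ((A : ℝ) ^ (1 + τ))).card ≤
      ((bf 5 (C * A)).filter fun g => LocSol a g ∧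
        ¬ ∃ x : Fin 5 → ℤ, x ≠ 0 ∧ ff a x = 0 ∧ qv g x = 0 ∧
          ∀ i, |(x i : ℝ)| ≤ ((C * A : ℕ) : ℝ) ^ (1 + τ / 2)).card := by
    refine card_le_card_of_injOn (cmp T) ?_ fun g _ g' _ h => cmp_inj hT h
    intro g hg
    rw [mem_coe, mem_filter] at hg
    obtain ⟨hgb, hloc, hno⟩ := hg
    rw [mem_coe, mem_filter]
    refine ⟨hbd A g hgb, ⟨?_, ?_⟩, ?_⟩
    · exact loc_tr hm hT (hid ℝ) hloc.1
    · intro p _
      exact loc_tr hm hT (hid ℚ_[p]) (hloc.2 p)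
    · rintro ⟨x, hx, hfx, hgx, hxb⟩
      apply hno
      obtain ⟨h7, h8⟩ := int_tr hT (hid_int hid) hx hfx
      refine ⟨T.mulVec x, h7, h8, ?_, fun i => ?_⟩
      · rw [← qv_cmp]
        exact hgx
      · refine (hKb x _ hxb i).trans ?_
        push_cast
        exact ht_bd (by positivity) h1 (hA2 A h3)
  have h7 : ((C * A : ℕ) : ℝ) = C * A := by push_cast; ring
  calc (((bf 5 A).filter fun g => LocSol2 f g ∧
      ¬ IntSol2 f g ((A : ℝ) ^ (1 + τ))).card : ℝ)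
      ≤ (((bf 5 (C * A)).filter fun g => LocSol a g ∧
        ¬ ∃ x : Fin 5 → ℤ, x ≠ 0 ∧ ff a x = 0 ∧ qv g x = 0 ∧
          ∀ i, |(x i : ℝ)| ≤ ((C * A : ℕ) : ℝ) ^ (1 + τ / 2)).card : ℝ) := by exact_mod_cast h6
    _ ≤ δ / (C : ℝ) ^ 15 * (2 * ((C * A : ℕ) : ℝ) + 1) ^ 15 := h5
    _ ≤ δ / (C : ℝ) ^ 15 * (C * (2 * A + 1)) ^ 15 := by
        have h8 : 2 * ((C * A : ℕ) : ℝ) + 1 ≤ C * (2 * A + 1) := by
          rw [h7]
          nlinarith
        gcongr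
    _ = δ * (2 * A + 1) ^ 15 := by
        have : (C : ℝ) ≠ 0 := by positivity
        field_simp

open scoped Classical in
theorem gen2 {f : Idx 5 → ℤ} (hf : (Hm f).det ≠ 0) (hiso : ∃ e : Fin 5 → ℤ, e ≠ 0 ∧ qv f e = 0)
    (τ : ℝ) (hτ : 0 < τ) :
    ∃ c : ℝ, 0 < c ∧ ∃ A0 : ℕ, ∀ A ≥ A0, c * (2 * A + 1) ^ 15 ≤
      (((bf 5 A).filter fun g => IntSol2 f g ((A : ℝ) ^ (1 + τ))).card : ℝ) := by
  obtain ⟨e, he, hfe⟩ := hiso
  obtain ⟨a, T, m, hm, hT, ha, hid⟩ := red hf he hfe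
  obtain ⟨C, hC, hbd⟩ := cmp_bd T.adjugate
  obtain ⟨K, hK, hKb⟩ := mulVec_bd T
  have hS : T.adjugate.det ≠ 0 := by
    rw [Matrix.det_adjugate]
    exact pow_ne_zero _ hT
  have hCr : (1 : ℝ) ≤ C := by exact_mod_cast hC
  obtain ⟨c, hc, A1, hA1⟩ := pos ha (τ / 2) (by positivity)
  obtain ⟨A2, hA2⟩ := pow_large (K * (1 : ℝ) ^ (1 + τ / 2)) (τ := τ / 2) (by positivity)
  refine ⟨c / (2 * C) ^ 15, by positivity, max 1 (max (C * (A1 + 2)) A2), fun A hA => ?_⟩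
  have h1 : 1 ≤ A := (le_max_left _ _).trans hA
  have h2 : C * (A1 + 2) ≤ A := ((le_max_left _ _).trans (le_max_right _ _)).trans hA
  have h3 : A2 ≤ A := ((le_max_right _ _).trans (le_max_right _ _)).trans hA
  have h4 : A1 + 2 ≤ A / C := by
    rw [Nat.le_div_iff_mul_le hC]
    linarith [mul_comm C (A1 + 2)]
  have hCA : C * (A / C) ≤ A := Nat.mul_div_le A C
  have hCA2 : A < C * (A / C) + C := by
    have := Nat.lt_mul_div_succ A hC
    linarith [this, mul_add C (A / C) 1]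
  have h5 := hA1 (A / C) (by omega)
  have hAC : ((A / C : ℕ) : ℝ) ≤ A := by
    have : A / C ≤ A := Nat.div_le_self _ _
    exact_mod_cast this
  have h6 : ((bf 5 (A / C)).filter fun g => ∃ x : Fin 5 → ℤ, x ≠ 0 ∧ ff a x = 0 ∧ qv g x = 0 ∧
          ∀ i, |(x i : ℝ)| ≤ ((A / C : ℕ) : ℝ) ^ (1 + τ / 2)).card ≤
      ((bf 5 A).filter fun g => IntSol2 f g ((A : ℝ) ^ (1 + τ))).card := by
    refine card_le_card_of_injOn (cmp T.adjugate) ?_ fun g _ g' _ h => cmp_inj hS h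
    intro g hg
    rw [mem_coe, mem_filter] at hg
    obtain ⟨hgb, x, hx, hfx, hgx, hxb⟩ := hg
    rw [mem_coe, mem_filter]
    refine ⟨?_, ?_⟩
    · have h7 := hbd (A / C) g hgb
      rw [mem_bf] at h7 ⊢
      intro p
      refine (h7 p).trans ?_
      exact_mod_cast hCA
    · obtain ⟨h7, h8⟩ := int_tr hT (hid_int hid) hx hfx
      refine ⟨T.mulVec x, h7, h8, ?_, fun i => ?_⟩
      · rw [qv_cmp, Matrix.mulVec_mulVec, Matrix.adjugate_mul, Matrix.smul_mulVec,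
          Matrix.one_mulVec]
        have e1 : T.det • x = fun i => T.det * x i := rfl
        rw [e1, qv_smul, hgx, mul_zero]
      · refine (hKb x _ hxb i).trans ?_
        have h9 := ht_bd (C := 1) zero_le_one h1 (hA2 A h3)
        rw [one_mul] at h9
        refine le_trans ?_ h9
        gcongr
  have hr1 : (A : ℝ) < C * ((A / C : ℕ) : ℝ) + C := by exact_mod_cast hCA2
  have hr2 : (C : ℝ) * (A1 + 2) ≤ A := by exact_mod_cast h2
  have hr3 : (0 : ℝ) ≤ A1 := Nat.cast_nonneg _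
  calc c / (2 * C) ^ 15 * (2 * A + 1) ^ 15 = c * ((2 * A + 1) / (2 * C)) ^ 15 := by
        rw [div_pow]
        ring
    _ ≤ c * (2 * ((A / C : ℕ) : ℝ) + 1) ^ 15 := by
        have h8 : ((2 * A + 1 : ℝ) / (2 * C)) ≤ 2 * ((A / C : ℕ) : ℝ) + 1 := by
          rw [div_le_iff₀ (by positivity)]
          nlinarith
        gcongr
    _ ≤ _ := h5
    _ ≤ _ := by exact_mod_cast h6

end Pool.Agent.H7.HP
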