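import Pool.Agent.H7.HP.Pts

set_option autoImplicit false
set_option linter.unusedSectionVars false

/-!
# [H7 HP IDT] the key identity, 50-80 lines

`k = gk x y`. `scal`: `y = c x + k w`. `F x y = x0 y1 + x1 y0 - pl a u u'` is the polar form of `ff a`:
`ff a (c x + k w) = c^2 ff a x + k^2 ff a w + c k F x w`, so `0 = k^2 ff a w + c k F x w`; `k ≠ 0`, `c` and `k` coprime (`cop`), so
`k ∣ F x w`, and `F x y = c F x x + k F x w = 2 c ff a x + k F x w = k F x w`, divisible by `k^2`.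
`k^2 h(z) = h(k z) = h(x1 u' - y1 u) = x1^2 h(u') + y1^2 h(u) - x1 y1 pl a u u' = x1^2 y0 y1 + y1^2 x0 x1 - x1 y1 pl a u u' = x1 y1 F x y`.
So `h(z) = q^2 l l' (F x y / k^2)`.
-/

namespace Pool.Agent.H7.HP

open Finset

private theorem idt_pl (a : Idx 3 → ℤ) (s t : ℤ) (x y : Fin 3 → ℤ) :
    pl a (fun i => s * x i) (fun i => t * y i) = s * t * pl a x y := by
  rw [pl_smul, pl_comm, pl_smul, pl_comm]
  ring

private theorem idt_qv (a : Idx 3 → ℤ) (s t : ℤ) (x y : Fin 3 → ℤ) :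
    qv a (fun i => s * x i + t * y i) = s ^ 2 * qv a x + t ^ 2 * qv a y + s * t * pl a x y := by
  rw [qv_add a (fun i => s * x i) (fun i => t * y i), qv_smul, qv_smul, idt_pl]

theorem key_dvd {a : Idx 3 → ℤ} {q C1 B : ℕ} {x y : Fin 5 → ℤ} (hq : 1 ≤ q)
    (hx : IsPt a q C1 B x) (hy : IsPt a q C1 B y) (hxy : x ≠ y) :
    (q : ℤ) ^ 2 * lp q x * lp q y ∣ qv a (zz x y) := by
  have hk : (gk x y : ℤ) ≠ 0 := by
    have h1 := gk_pos (pt_ne hq hx hy hxy)
    exact_mod_cast h1.ne'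
  obtain ⟨c, w, hs⟩ := scal hx.prim y
  have hcop := cop hy.prim hs
  have hz := zz_mul x y
  obtain ⟨k, hkk⟩ : ∃ k : ℤ, k = gk x y := ⟨_, rfl⟩
  rw [← hkk] at hk hcop
  simp only [← hkk] at hs hz
  have hx0 := hx.zero
  have hy0 := hy.zero
  have hx1 := (pt_lp hq hx).2.2.2.1
  have hy1 := (pt_lp hq hy).2.2.2.1
  unfold ff at hx0 hy0
  have htl : tl y = fun i => c * tl x i + k * tl w i := by
    funext i
    fin_cases i
    · exact hs 2
    · exact hs 3
    · exact hs 4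
  -- the polar form
  obtain ⟨P, hP⟩ : ∃ P : ℤ, P = pl a (tl x) (tl w) := ⟨_, rfl⟩
  obtain ⟨G, hG⟩ : ∃ G : ℤ, G = x 0 * w 1 + x 1 * w 0 - P := ⟨_, rfl⟩
  have hq1 : qv a (tl y) = c ^ 2 * qv a (tl x) + k ^ 2 * qv a (tl w) + c * k * P := by
    rw [htl, idt_qv, hP]
  have hrel : k * (w 0 * w 1 - qv a (tl w)) + c * G = 0 := by
    have h1 : k * (k * (w 0 * w 1 - qv a (tl w)) + c * G) = 0 := by
      rw [hq1, hs 0, hs 1] at hy0
      rw [hG]
      linear_combination hy0 - c ^ 2 * hx0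
    exact (mul_eq_zero.1 h1).resolve_left hk
  have hdvd : k ∣ G := by
    have h1 : k ∣ c * G := ⟨-(w 0 * w 1 - qv a (tl w)), by linear_combination hrel⟩
    exact hcop.symm.dvd_of_dvd_mul_left h1
  obtain ⟨m, hm⟩ := hdvd
  have hplxy : pl a (tl x) (tl y) = c * (2 * qv a (tl x)) + k * P := by
    have h1 : pl a (tl x) (tl y) = pl a (tl x) (fun i => c * tl x i + k * tl w i) := by
      rw [htl]
    rw [h1, pl_add a (tl x) (fun i => c * tl x i) (fun i => k * tl w i), pl_smul, pl_smul,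
      pl_self, hP]
  have hF : x 0 * y 1 + x 1 * y 0 - pl a (tl x) (tl y) = k ^ 2 * m := by
    rw [hplxy, hs 0, hs 1]
    linear_combination 2 * c * hx0 + k * hm - k * hG
  have hzz : k ^ 2 * qv a (zz x y) = x 1 * y 1 * (x 0 * y 1 + x 1 * y 0 - pl a (tl x) (tl y)) := by
    have h1 : k ^ 2 * qv a (zz x y) = qv a (fun i => k * zz x y i) := (qv_smul a k _).symm
    have h2 : (fun i => k * zz x y i) = fun i => x 1 * tl y i + (-y 1) * tl x i := by
      funext i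
      rw [hz i]
      ring
    rw [h1, h2, idt_qv, pl_comm a (tl y) (tl x)]
    linear_combination (-(x 1) ^ 2) * hy0 - (y 1) ^ 2 * hx0
  rw [hF] at hzz
  have hk2 : k ^ 2 ≠ 0 := pow_ne_zero 2 hk
  have hfin : qv a (zz x y) = x 1 * y 1 * m := by
    apply mul_left_cancel₀ hk2
    rw [hzz]
    ring
  rw [hfin, hx1, hy1]
  exact ⟨m, by ring⟩

end Pool.Agent.H7.HP
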