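import Pool.Agent.H7.HP.Frm

set_option autoImplicit false
set_option linter.unusedSectionVars false

/-!
# [H7 HP ISA] an isotropic ternary form is a hyperbolic plane plus a line, 70-120 lines

`h(z) = qv a z`, `det (Hm a) ≠ 0`, `h(z0) = 0`, `z0 ≠ 0`. Over `ℚ` (cast by `qv_map`): the linear form `pl a z0` is not zero (its coefficients are `Hm a * z0` by `pl_Hm`, and `det ≠ 0`), so there is
`z1` with `r = pl a z0 z1 ≠ 0`; replace `z1` by `z1 - (h(z1)/r) z0`: `h(z1) = 0`, still `pl a z0 z1 = r`. The orthogonal complement of `z0, z1` with respect to `pl a` is a line `ℚ z2` (`z2 ≠ 0` orthogonal to both exists: two linear equations in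
three unknowns), `z0, z1, z2` are independent, `h(z2) ≠ 0` (otherwise `z2` is orthogonal to everything, `pl z2 z2 = 2 h(z2)`), and `h(α z0 + β z1 + γ z2) = αβ r + γ^2 h(z2)`. `α, β, γ` are rational linear forms in `z` (inverse of the matrix with columns `z0, z1, z2`); multiply by a common
denominator `D`: `T1 = D α`, `T2 = D β`, `T3 = D γ` integral, `D^2 h = r T1 T2 + h(z2) T3^2`; multiply by a common denominator of `r` and `h(z2)` and put the integer factor `r'` of `T1 T2` into `T1`: `c h = (r' T1) T2 - d T3^2`.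
-/

namespace Pool.Agent.H7.HP

open Finset

/-- the linear form `pl a x` -/
private def lf (a : Idx 3 → ℤ) (x : Fin 3 → ℤ) (j : Fin 3) : ℤ := ∑ i, x i * Hm a i j

private theorem pl_lf (a : Idx 3 → ℤ) (x y : Fin 3 → ℤ) : pl a x y = ∑ j, lf a x j * y j := by
  rw [pl_Hm, sum_comm]
  unfold lf
  simp only [sum_mul]

private theorem pl_nd {a : Idx 3 → ℤ} (ha : (Hm a).det ≠ 0) {x : Fin 3 → ℤ} (hx : x ≠ 0) :
    ∃ v, pl a x v ≠ 0 := by
  by_contra hcon
  push Not at hcon
  apply ha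
  refine Matrix.exists_vecMul_eq_zero_iff.1 ⟨x, hx, ?_⟩
  funext j
  have h1 := hcon (Pi.single j 1)
  rw [pl_lf, sum_eq_single j] at h1
  · rw [Pi.single_eq_same, mul_one] at h1
    exact h1
  · intro b _ hb
    rw [Pi.single_eq_of_ne hb, mul_zero]
  · intro h
    exact absurd (mem_univ j) h

/-- the cross product -/
private def cr (l m : Fin 3 → ℤ) : Fin 3 → ℤ :=
  ![l 1 * m 2 - l 2 * m 1, l 2 * m 0 - l 0 * m 2, l 0 * m 1 - l 1 * m 0]

private theorem cr_left (l m : Fin 3 → ℤ) : ∑ j, l j * cr l m j = 0 := by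
  simp [Fin.sum_univ_three, cr]
  ring

private theorem cr_right (l m : Fin 3 → ℤ) : ∑ j, m j * cr l m j = 0 := by
  simp [Fin.sum_univ_three, cr]
  ring

private theorem cr_prop (l m w : Fin 3 → ℤ) (hl : ∑ j, l j * w j = 0) (hm : ∑ j, m j * w j = 0)
    (i j : Fin 3) : w i * cr l m j = w j * cr l m i := by
  rw [Fin.sum_univ_three] at hl hm
  have h01 : w 0 * cr l m 1 = w 1 * cr l m 0 := by
    simp [cr]
    linear_combination (l 2) * hm - (m 2) * hl
  have h12 : w 1 * cr l m 2 = w 2 * cr l m 1 := by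
    simp [cr]
    linear_combination (l 0) * hm - (m 0) * hl
  have h20 : w 2 * cr l m 0 = w 0 * cr l m 2 := by
    simp [cr]
    linear_combination (l 1) * hm - (m 1) * hl
  have h : ∀ i j : Fin 3, w i * cr l m j = w j * cr l m i := by
    intro i j
    fin_cases i <;> fin_cases j
    · rfl
    · exact h01
    · exact h20.symm
    · exact h01.symm
    · rfl
    · exact h12
    · exact h20
    · exact h12.symm
    · rfl
  exact h i j

private theorem mv (M : Matrix (Fin 3) (Fin 3) ℤ) (z : Fin 3 → ℤ) (i : Fin 3) :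
    M.mulVec z i = ∑ k, M i k * z k := rfl

private theorem cr_ne (l m z0 z1 : Fin 3 → ℤ) (r : ℤ) (hr : r ≠ 0) (h1 : ∑ j, l j * z0 j = 0)
    (h2 : ∑ j, l j * z1 j = r) (h3 : ∑ j, m j * z0 j = r) : ∃ j, cr l m j ≠ 0 := by
  by_contra hcon
  push Not at hcon
  have e0 := hcon 0
  have e1 := hcon 1
  have e2 := hcon 2
  simp only [cr, Matrix.cons_val_zero, Matrix.cons_val_one, Matrix.cons_val] at e0 e1 e2
  rw [Fin.sum_univ_three] at h1 h2 h3
  have h5 : r * r = 0 := by
    nth_rewrite 1 [← h2]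
    rw [← h3]
    linear_combination (z0 2 * z1 1 - z0 1 * z1 2) * e0 + (z0 0 * z1 2 - z0 2 * z1 0) * e1 +
      (z0 1 * z1 0 - z0 0 * z1 1) * e2 + (m 0 * z1 0 + m 1 * z1 1 + m 2 * z1 2) * h1
  exact hr (mul_self_eq_zero.1 h5)

theorem hyp {a : Idx 3 → ℤ} (ha : (Hm a).det ≠ 0) {z0 : Fin 3 → ℤ} (h0 : z0 ≠ 0)
    (h1 : qv a z0 = 0) : ∃ (T : Matrix (Fin 3) (Fin 3) ℤ) (c d : ℤ), T.det ≠ 0 ∧ c ≠ 0 ∧ d ≠ 0 ∧
      ∀ z : Fin 3 → ℤ, c * qv a z = T.mulVec z 0 * T.mulVec z 1 - d * T.mulVec z 2 ^ 2 := by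
  obtain ⟨v, hv⟩ := pl_nd ha h0
  obtain ⟨s, hs⟩ : ∃ s, s = pl a z0 v := ⟨_, rfl⟩
  rw [← hs] at hv
  have h00 : pl a z0 z0 = 0 := by rw [pl_self, h1, mul_zero]
  obtain ⟨z1, hz1⟩ : ∃ z1 : Fin 3 → ℤ, z1 = fun i => s * v i + -(qv a v) * z0 i := ⟨_, rfl⟩
  have hq1 : qv a z1 = 0 := by
    rw [hz1, qv_add a (fun i => s * v i) (fun i => -(qv a v) * z0 i), qv_smul, qv_smul, h1,
      pl_smul, pl_comm, pl_smul, ← hs]
    ring
  have h01 : pl a z0 z1 = s ^ 2 := by
    rw [hz1, pl_add a z0 (fun i => s * v i) (fun i => -(qv a v) * z0 i), pl_smul, pl_smul, h00,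
      ← hs]
    ring
  obtain ⟨r, hr⟩ : ∃ r, r = s ^ 2 := ⟨_, rfl⟩
  have hr0 : r ≠ 0 := by
    rw [hr]
    exact pow_ne_zero 2 hv
  rw [← hr] at h01
  have h10 : pl a z1 z0 = r := by rw [pl_comm, h01]
  have h11 : pl a z1 z1 = 0 := by rw [pl_self, hq1, mul_zero]
  -- the vector `w`
  have hw : ∀ z : Fin 3 → ℤ, ∃ w : Fin 3 → ℤ,
      (∀ i, w i = r * z i + (-(pl a z1 z) * z0 i + -(pl a z0 z) * z1 i)) ∧
      pl a z0 w = 0 ∧ pl a z1 w = 0 ∧ qv a w = r ^ 2 * qv a z - r * pl a z0 z * pl a z1 z ∧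
      (∀ y, pl a y w = r * pl a y z - pl a z1 z * pl a y z0 - pl a z0 z * pl a y z1) := by
    intro z
    have hy : ∀ y, pl a y (fun i => r * z i + (-(pl a z1 z) * z0 i + -(pl a z0 z) * z1 i)) =
        r * pl a y z - pl a z1 z * pl a y z0 - pl a z0 z * pl a y z1 := by
      intro y
      rw [pl_add a y (fun i => r * z i) (fun i => -(pl a z1 z) * z0 i + -(pl a z0 z) * z1 i),
        pl_add a y (fun i => -(pl a z1 z) * z0 i) (fun i => -(pl a z0 z) * z1 i),
        pl_smul, pl_smul, pl_smul]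
      ring
    refine ⟨fun i => r * z i + (-(pl a z1 z) * z0 i + -(pl a z0 z) * z1 i), fun i => rfl, ?_,
      ?_, ?_, hy⟩
    · rw [hy, h00, h01]
      ring
    · rw [hy, h10, h11]
      ring
    · rw [qv_add a (fun i => r * z i) (fun i => -(pl a z1 z) * z0 i + -(pl a z0 z) * z1 i),
        qv_add a (fun i => -(pl a z1 z) * z0 i) (fun i => -(pl a z0 z) * z1 i),
        qv_smul, qv_smul, qv_smul, h1, hq1,
        pl_add a (fun i => r * z i) (fun i => -(pl a z1 z) * z0 i)
          (fun i => -(pl a z0 z) * z1 i), pl_smul, pl_smul, pl_smul,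
        pl_comm a (fun i => -(pl a z1 z) * z0 i) z1, pl_smul, h10,
        pl_comm a (fun i => r * z i) z0, pl_comm a (fun i => r * z i) z1, pl_smul, pl_smul]
      ring
  obtain ⟨j, hj⟩ := cr_ne (lf a z0) (lf a z1) z0 z1 r hr0 (by rw [← pl_lf, h00])
    (by rw [← pl_lf, h01]) (by rw [← pl_lf, h10])
  obtain ⟨n, hn⟩ : ∃ n, n = cr (lf a z0) (lf a z1) := ⟨_, rfl⟩
  have hn0 : pl a z0 n = 0 := by rw [pl_lf, hn, cr_left]
  have hn1 : pl a z1 n = 0 := by rw [pl_lf, hn, cr_right]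
  rw [← hn] at hj
  have hnne : n ≠ 0 := by
    intro h
    apply hj
    rw [h]
    rfl
  have hprop : ∀ w : Fin 3 → ℤ, pl a z0 w = 0 → pl a z1 w = 0 → ∀ i, w i * n j = w j * n i := by
    intro w hw0 hw1 i
    rw [hn]
    exact cr_prop _ _ w (by rw [← pl_lf, hw0]) (by rw [← pl_lf, hw1]) i j
  have hmul : ∀ w : Fin 3 → ℤ, pl a z0 w = 0 → pl a z1 w = 0 →
      (fun i => n j * w i) = fun i => w j * n i := by
    intro w hw0 hw1
    funext i
    rw [← hprop w hw0 hw1 i, mul_comm]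
  have hqn : qv a n ≠ 0 := by
    intro hq
    obtain ⟨u, hu⟩ := pl_nd ha hnne
    obtain ⟨w, -, hw0, hw1, -, hwy⟩ := hw u
    have e1 : n j * pl a n w = 0 := by
      rw [← pl_smul, hmul w hw0 hw1, pl_smul, pl_self, hq]
      ring
    have e2 : pl a n w = 0 := (mul_eq_zero.1 e1).resolve_left hj
    rw [hwy, pl_comm a n z0, hn0, pl_comm a n z1, hn1, mul_zero, mul_zero, sub_zero,
      sub_zero] at e2
    exact hu ((mul_eq_zero.1 e2).resolve_left hr0)
  -- the matrix
  refine ⟨Matrix.of ![fun k => n j ^ 2 * r * lf a z0 k, fun k => lf a z1 k,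
    fun k => (if k = j then r else 0) - lf a z1 k * z0 j - lf a z0 k * z1 j],
    n j ^ 2 * r ^ 2, - qv a n, ?_, ?_, ?_, ?_⟩
  · intro hdet
    obtain ⟨u, hu0, hu⟩ := Matrix.exists_mulVec_eq_zero_iff.2 hdet
    have e0 := congrFun hu 0
    have e1 := congrFun hu 1
    have e2 := congrFun hu 2
    have e0' : n j ^ 2 * r * pl a z0 u = 0 := by
      rw [pl_lf, mul_sum]
      refine Eq.trans ?_ e0
      rw [mv]
      refine sum_congr rfl fun k _ => ?_
      simp [mul_assoc]
    have e1' : pl a z1 u = 0 := by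
      rw [pl_lf]
      exact e1
    have e0'' : pl a z0 u = 0 :=
      (mul_eq_zero.1 e0').resolve_left (mul_ne_zero (pow_ne_zero 2 hj) hr0)
    have e2' : r * u j - pl a z1 u * z0 j - pl a z0 u * z1 j = 0 := by
      rw [pl_lf, pl_lf]
      refine Eq.trans ?_ e2
      have e3 : r * u j = ∑ k, (if k = j then r else 0) * u k := by
        rw [sum_eq_single j]
        · rw [if_pos rfl]
        · intro b _ hb
          rw [if_neg hb, zero_mul]
        · intro h
          exact absurd (mem_univ j) h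
      rw [e3, sum_mul, sum_mul, ← sum_sub_distrib, ← sum_sub_distrib, mv]
      refine sum_congr rfl fun k _ => ?_
      simp only [Matrix.of_apply, Matrix.cons_val]
      ring
    rw [e1', e0'', zero_mul, zero_mul, sub_zero, sub_zero] at e2'
    have e4 : u j = 0 := (mul_eq_zero.1 e2').resolve_left hr0
    apply hu0
    funext i
    have e5 := hprop u e0'' e1' i
    rw [e4, zero_mul] at e5
    exact (mul_eq_zero.1 e5).resolve_right hj
  · exact mul_ne_zero (pow_ne_zero 2 hj) (pow_ne_zero 2 hr0)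
  · exact neg_ne_zero.2 hqn
  · intro z
    obtain ⟨w, hwi, hw0, hw1, hwq, -⟩ := hw z
    have e0 : (Matrix.of ![fun k => n j ^ 2 * r * lf a z0 k, fun k => lf a z1 k,
        fun k => (if k = j then r else 0) - lf a z1 k * z0 j - lf a z0 k * z1 j] :
        Matrix (Fin 3) (Fin 3) ℤ).mulVec z 0 = n j ^ 2 * r * pl a z0 z := by
      rw [pl_lf, mul_sum, mv]
      refine sum_congr rfl fun k _ => ?_
      simp [mul_assoc]
    have e1 : (Matrix.of ![fun k => n j ^ 2 * r * lf a z0 k, fun k => lf a z1 k,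
        fun k => (if k = j then r else 0) - lf a z1 k * z0 j - lf a z0 k * z1 j] :
        Matrix (Fin 3) (Fin 3) ℤ).mulVec z 1 = pl a z1 z := by
      rw [pl_lf]
      rfl
    have e2 : (Matrix.of ![fun k => n j ^ 2 * r * lf a z0 k, fun k => lf a z1 k,
        fun k => (if k = j then r else 0) - lf a z1 k * z0 j - lf a z0 k * z1 j] :
        Matrix (Fin 3) (Fin 3) ℤ).mulVec z 2 = w j := by
      rw [hwi j, pl_lf, pl_lf]
      have e3 : r * z j = ∑ k, (if k = j then r else 0) * z k := by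
        rw [sum_eq_single j]
        · rw [if_pos rfl]
        · intro b _ hb
          rw [if_neg hb, zero_mul]
        · intro h
          exact absurd (mem_univ j) h
      rw [e3, neg_mul, neg_mul, sum_mul, sum_mul, ← sum_neg_distrib, ← sum_neg_distrib,
        ← sum_add_distrib, ← sum_add_distrib, mv]
      refine sum_congr rfl fun k _ => ?_
      simp only [Matrix.of_apply, Matrix.cons_val]
      ring
    rw [e0, e1, e2]
    have e4 : n j ^ 2 * qv a w = w j ^ 2 * qv a n := by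
      rw [← qv_smul, ← qv_smul, hmul w hw0 hw1]
    rw [hwq] at e4
    linear_combination e4

end Pool.Agent.H7.HP
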