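import Pool.Agent.H7.HP.Chr
import Pool.Agent.H7.HP.CoreDefs

set_option autoImplicit false
set_option linter.unusedSectionVars false

/-!
# The local part: definitions
-/

namespace Pool.Agent.H7.HP

open Finset

/-- `|2 det|` -/
def dd (a : Idx 3 → ℤ) : ℕ := (2 * (Hm a).det).natAbs

/-- the primes up to `P0` -/
def Pr (P0 : ℕ) : Finset ℕ := (range (P0 + 1)).filter Nat.Prime

/-- the modulus of the charts -/
def PP (a : Idx 3 → ℤ) (P0 : ℕ) : ℕ := ∏ p ∈ Pr P0, p ^ (padicValNat p (dd a) + 1)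

/-- the chart vector `w0 + P z` -/
def wz (P : ℕ) (w0 z : Fin 3 → ℤ) : Fin 3 → ℤ := fun i => w0 i + P * z i

/-- the finite set of all charts -/
noncomputable def Wst (a : Idx 3 → ℤ) (P0 : ℕ) : Finset (Fin 3 → ℤ) :=
  ((Fintype.piFinset fun _ => Ico (0 : ℤ) (PP a P0)) ×ˢ Z0 ℤ).image fun p => wz (PP a P0) p.1 p.2

/-- `g` has no degenerate solution modulo `p^s` -/
def NonDeg (a : Idx 3 → ℤ) (g : Idx 5 → ℤ) (p s v : ℕ) : Prop :=
  ∀ u : Fin 3 → ZMod (p ^ s),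
    ¬ (GG (fun r => (a r : ZMod (p ^ s))) (fun r => (g r : ZMod (p ^ s))) (p ^ v : ℕ) u = 0 ∧
      ∀ i, dGG (fun r => (a r : ZMod (p ^ s))) (fun r => (g r : ZMod (p ^ s))) (p ^ v : ℕ) u i = 0)

end Pool.Agent.H7.HP
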