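import Pool.Agent.H7.HP.Locp
import Pool.Agent.H7.HP.Crt

set_option autoImplicit false
set_option linter.unusedSectionVars false

/-!
# [H7 HP LOCA] all small primes, 80-130 lines

PROOF. For `p ∈ Pr P0` let `κ_p, E_p` be from `locp`; `Q = ∏ p^(E_p)`, `c1 = ∏ p^(-κ_p)`. Given `gs`: `wp_p`, `v_p` from `locp`; `w0 ∈ [0, P)^3`, `P = PP a P0`, with `w0 ≡ wp_p` modulo `p^(padicValNat p (dd a) + 1)` for all `p` (Chinese remainder theorem,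
`Nat.chineseRemainderOfFinset` or `ZMod`, then `Int.emod`), `q = ∏ p^(v_p)`, a divisor of `dd a` (`Nat.factorization`, `dd a ≠ 0`). For `z ∈ Z0`: `w = wz P w0 z ∈ Wst a P0`, `w ≡ wp_p`. `M1 = ∏ p^(e_p)` (all its primes are `≤ P0`): `uu_prod` and the product of the inequalities `p^(2 e_p) ≤ p^(κ_p) #UU`.
-/

namespace Pool.Agent.H7.HP

open Finset

private theorem la_pr {P0 p : ℕ} (hp : p ∈ Pr P0) : p.Prime := (mem_filter.1 hp).2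

private theorem la_mem {P0 p : ℕ} (hp : p.Prime) (h : p ≤ P0) : p ∈ Pr P0 :=
  mem_filter.2 ⟨mem_range.2 (by omega), hp⟩

private theorem la_dvd {P0 p : ℕ} (hp : p.Prime) (f : ℕ → ℕ) (h : p ∣ ∏ r ∈ Pr P0, r ^ f r) :
    p ≤ P0 := by
  obtain ⟨r, hr, hpr⟩ := (Prime.dvd_finsetProd_iff hp.prime _).1 h
  have h1 := (Nat.prime_dvd_prime_iff_eq hp (la_pr hr)).1 (hp.dvd_of_dvd_pow hpr)
  have h2 := mem_range.1 (mem_filter.1 hr).1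
  omega

private theorem la_coprime {P0 : ℕ} (f : ℕ → ℕ) :
    Set.Pairwise (↑(Pr P0) : Set ℕ) (Function.onFun Nat.Coprime fun r => r ^ f r) := by
  intro p hp r hr hpr
  exact Nat.Coprime.pow _ _ ((Nat.coprime_primes (la_pr hp) (la_pr hr)).2 hpr)

/-- one coordinate of the Chinese remainder theorem -/
private theorem la_crt (P0 : ℕ) (f : ℕ → ℕ) (wp : ℕ → ℤ) : ∃ w : ℤ, 0 ≤ w ∧
    w < ((∏ r ∈ Pr P0, r ^ f r : ℕ) : ℤ) ∧ ∀ p ∈ Pr P0, ((p ^ f p : ℕ) : ℤ) ∣ w - wp p := by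
  classical
  have hpos : ∀ p ∈ Pr P0, p ^ f p ≠ 0 := fun p hp => (pow_pos (la_pr hp).pos _).ne'
  obtain ⟨k, hk⟩ := Nat.chineseRemainderOfFinset (fun p => (wp p % ((p ^ f p : ℕ) : ℤ)).toNat)
    (fun p => p ^ f p) (Pr P0) hpos (la_coprime f)
  have hP : 0 < ∏ r ∈ Pr P0, r ^ f r := Finset.prod_pos fun r hr => Nat.pos_of_ne_zero (hpos r hr)
  refine ⟨(k : ℤ) % ((∏ r ∈ Pr P0, r ^ f r : ℕ) : ℤ), Int.emod_nonneg _ (by exact_mod_cast hP.ne'),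
    Int.emod_lt_of_pos _ (by exact_mod_cast hP), fun p hp => ?_⟩
  have h1 : ((p ^ f p : ℕ) : ℤ) ∣ ((∏ r ∈ Pr P0, r ^ f r : ℕ) : ℤ) :=
    Int.natCast_dvd_natCast.2 (Finset.dvd_prod_of_mem (fun r => r ^ f r) hp)
  have h2 : ((p ^ f p : ℕ) : ℤ) ∣ (k : ℤ) - (k : ℤ) % ((∏ r ∈ Pr P0, r ^ f r : ℕ) : ℤ) :=
    h1.trans Int.dvd_self_sub_emod
  have h3 : ((p ^ f p : ℕ) : ℤ) ∣ (k : ℤ) - ((wp p % ((p ^ f p : ℕ) : ℤ)).toNat : ℕ) := by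
    have := (Nat.modEq_iff_dvd.1 (hk p hp))
    rw [← dvd_neg, neg_sub]
    exact this
  have h4 : (((wp p % ((p ^ f p : ℕ) : ℤ)).toNat : ℕ) : ℤ) = wp p % ((p ^ f p : ℕ) : ℤ) :=
    Int.toNat_of_nonneg (Int.emod_nonneg _ (by exact_mod_cast hpos p hp))
  rw [h4] at h3
  have h5 : ((p ^ f p : ℕ) : ℤ) ∣ wp p - wp p % ((p ^ f p : ℕ) : ℤ) := Int.dvd_self_sub_emod
  have h6 := dvd_sub (dvd_sub h3 h2) h5
  have e : (k : ℤ) - wp p % ((p ^ f p : ℕ) : ℤ) -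
      ((k : ℤ) - (k : ℤ) % ((∏ r ∈ Pr P0, r ^ f r : ℕ) : ℤ)) -
      (wp p - wp p % ((p ^ f p : ℕ) : ℤ)) =
      (k : ℤ) % ((∏ r ∈ Pr P0, r ^ f r : ℕ) : ℤ) - wp p := by ring
  rwa [e] at h6

theorem loca {a : Idx 3 → ℤ} (ha : (Hm a).det ≠ 0) (P0 s : ℕ) (hs : 1 ≤ s) :
    ∃ Q : ℕ, 0 < Q ∧ (∀ p : ℕ, p.Prime → p ∣ Q → p ≤ P0) ∧ ∃ c1 : ℝ, 0 < c1 ∧
    ∀ gs : Idx 5 → ℤ, LocSol a gs →
    (∀ p ∈ Pr P0, ∀ w ∈ Wst a P0, ∀ v ≤ padicValNat p (dd a), NonDeg a (gw a w gs) p s v) →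
    ∃ (w0 : Fin 3 → ℤ) (q : ℕ), (∀ i, 0 ≤ w0 i ∧ w0 i < PP a P0) ∧ 0 < q ∧ q ∣ dd a ∧
      (∀ p : ℕ, p.Prime → p ∣ q → p ≤ P0) ∧
      ∀ z ∈ Z0 ℤ, ∀ g : Idx 5 → ℤ, (∀ r, (Q : ℤ) ∣ g r - gs r) → ∀ M1 : ℕ, 0 < M1 →
        (∀ p : ℕ, p.Prime → p ∣ M1 → p ≤ P0) →
          c1 * (M1 : ℝ) ^ 2 ≤ (UU a q M1 (gw a (wz (PP a P0) w0 z) g)).card := by
  classical
  have hdd : dd a ≠ 0 := by
    unfold dd
    rw [Int.natAbs_ne_zero]
    exact mul_ne_zero two_ne_zero ha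
  have hloc : ∀ p : ℕ, ∃ κ E : ℕ, p.Prime → ∀ gs : Idx 5 → ℤ, LocSol a gs →
      ∃ (wp : Fin 3 → ℤ) (v : ℕ), v ≤ padicValNat p (dd a) ∧ ∀ w : Fin 3 → ℤ,
        (∀ i, ((p ^ (padicValNat p (dd a) + 1) : ℕ) : ℤ) ∣ w i - wp i) →
        NonDeg a (gw a w gs) p s v → ∀ g : Idx 5 → ℤ, (∀ r, ((p ^ E : ℕ) : ℤ) ∣ g r - gs r) →
          ∀ e : ℕ, p ^ (2 * e) ≤ p ^ κ * (UU a (p ^ v) (p ^ e) (gw a w g)).card := by
    intro p
    by_cases hp : p.Prime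
    · have : Fact p.Prime := ⟨hp⟩
      obtain ⟨κ, E, h⟩ := locp ha p s hs
      exact ⟨κ, E, fun _ gs hl => h gs (hl.2 p)⟩
    · exact ⟨0, 0, fun h => absurd h hp⟩
  choose κ E hκ using hloc
  have hpos : ∀ f : ℕ → ℕ, 0 < ∏ r ∈ Pr P0, r ^ f r := fun f =>
    Finset.prod_pos fun r hr => pow_pos (la_pr hr).pos _
  refine ⟨∏ p ∈ Pr P0, p ^ E p, hpos E, fun p hp h => la_dvd hp E h,
    ((∏ p ∈ Pr P0, p ^ κ p : ℕ) : ℝ)⁻¹, by
      have := hpos κ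
      positivity, fun gs hgs hnd => ?_⟩
  have hwv : ∀ p : ℕ, ∃ (wp : Fin 3 → ℤ) (v : ℕ), p.Prime → v ≤ padicValNat p (dd a) ∧
      ∀ w : Fin 3 → ℤ, (∀ i, ((p ^ (padicValNat p (dd a) + 1) : ℕ) : ℤ) ∣ w i - wp i) →
        NonDeg a (gw a w gs) p s v → ∀ g : Idx 5 → ℤ,
          (∀ r, ((p ^ E p : ℕ) : ℤ) ∣ g r - gs r) →
          ∀ e : ℕ, p ^ (2 * e) ≤ p ^ κ p * (UU a (p ^ v) (p ^ e) (gw a w g)).card := by
    intro p
    by_cases hp : p.Prime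
    · obtain ⟨wp, v, h1, h2⟩ := hκ p hp gs hgs
      exact ⟨wp, v, fun _ => ⟨h1, h2⟩⟩
    · exact ⟨0, 0, fun h => absurd h hp⟩
  choose wp v hv using hwv
  have hw0 : ∀ i : Fin 3, ∃ w : ℤ, 0 ≤ w ∧ w < (PP a P0 : ℤ) ∧
      ∀ p ∈ Pr P0, ((p ^ (padicValNat p (dd a) + 1) : ℕ) : ℤ) ∣ w - wp p i := fun i =>
    la_crt P0 (fun p => padicValNat p (dd a) + 1) fun p => wp p i
  choose w0 hw01 hw02 hw03 using hw0
  refine ⟨w0, ∏ p ∈ Pr P0, p ^ v p, fun i => ⟨hw01 i, hw02 i⟩, hpos v, ?_,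
    fun p hp h => la_dvd hp v h, ?_⟩
  · -- `q ∣ dd a`
    refine Finset.prod_dvd_of_isRelPrime (fun p hp r hr hpr =>
      Nat.coprime_iff_isRelPrime.1 (la_coprime v hp hr hpr)) fun p hp => ?_
    exact (pow_dvd_pow p (hv p (la_pr hp)).1).trans pow_padicValNat_dvd
  · intro z hz g hg M1 hM1 hM1p
    have hwz : wz (PP a P0) w0 z ∈ Wst a P0 := by
      unfold Wst
      refine mem_image.2 ⟨(w0, z), mem_product.2 ⟨Fintype.mem_piFinset.2 fun i =>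
        mem_Ico.2 ⟨hw01 i, hw02 i⟩, hz⟩, rfl⟩
    have hcong : ∀ p ∈ Pr P0, ∀ i,
        ((p ^ (padicValNat p (dd a) + 1) : ℕ) : ℤ) ∣ wz (PP a P0) w0 z i - wp p i := by
      intro p hp i
      have h1 : ((p ^ (padicValNat p (dd a) + 1) : ℕ) : ℤ) ∣ (PP a P0 : ℤ) :=
        Int.natCast_dvd_natCast.2
          (Finset.dvd_prod_of_mem (fun r => r ^ (padicValNat r (dd a) + 1)) hp)
      have h2 := dvd_add (hw03 i p hp) (Dvd.dvd.mul_right h1 (z i))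
      have e : w0 i - wp p i + (PP a P0 : ℤ) * z i = wz (PP a P0) w0 z i - wp p i := by
        unfold wz
        ring
      rwa [e] at h2
    have hQ : ∀ p ∈ Pr P0, ∀ r, ((p ^ E p : ℕ) : ℤ) ∣ g r - gs r := fun p hp r =>
      (Int.natCast_dvd_natCast.2 (Finset.dvd_prod_of_mem (fun r => r ^ E r) hp)).trans (hg r)
    have hone : ∀ p ∈ Pr P0, p ^ (2 * M1.factorization p) ≤
        p ^ κ p * (UU a (p ^ v p) (p ^ M1.factorization p)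
          (gw a (wz (PP a P0) w0 z) g)).card := fun p hp =>
      (hv p (la_pr hp)).2 _ (hcong p hp)
        (hnd p hp _ hwz _ (hv p (la_pr hp)).1) g (hQ p hp) _
    have hM1e : ∏ p ∈ Pr P0, p ^ M1.factorization p = M1 := by
      conv_rhs => rw [← Nat.prod_factorization_pow_eq_self hM1.ne']
      rw [Finsupp.prod]
      symm
      refine Finset.prod_subset (fun p hp => ?_) fun p _ hp => ?_
      · have h1 := Nat.prime_of_mem_primeFactors (Nat.support_factorization M1 ▸ hp)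
        have h2 := Nat.dvd_of_mem_primeFactors (Nat.support_factorization M1 ▸ hp)
        exact la_mem h1 (hM1p p h1 h2)
      · rw [Finsupp.notMem_support_iff.1 hp, pow_zero]
    have hprod := Finset.prod_le_prod' hone
    rw [Finset.prod_mul_distrib] at hprod
    have h2 : ∏ p ∈ Pr P0, p ^ (2 * M1.factorization p) = M1 ^ 2 := by
      conv_rhs => rw [← hM1e]
      rw [← Finset.prod_pow]
      refine Finset.prod_congr rfl fun p _ => ?_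
      rw [Nat.mul_comm, pow_mul]
    rw [h2] at hprod
    have h3 := uu_prod a (gw a (wz (PP a P0) w0 z) g) (Pr P0) (fun p hp => la_pr hp) v
      fun p => M1.factorization p
    rw [hM1e] at h3
    have h4 := hprod.trans (Nat.mul_le_mul_left _ h3)
    have h5 : ((M1 : ℝ)) ^ 2 ≤ ((∏ p ∈ Pr P0, p ^ κ p : ℕ) : ℝ) *
        ((UU a (∏ p ∈ Pr P0, p ^ v p) M1 (gw a (wz (PP a P0) w0 z) g)).card : ℝ) := by
      exact_mod_cast h4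
    have h6 : (0 : ℝ) < ((∏ p ∈ Pr P0, p ^ κ p : ℕ) : ℝ) := by exact_mod_cast hpos κ
    rw [inv_mul_le_iff₀ h6]
    exact h5

end Pool.Agent.H7.HP
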