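import Pool.Agent.H7.HP.LocDefs
import Pool.Agent.H7.HP.Chz
import Pool.Agent.H7.HP.Hen

set_option autoImplicit false
set_option linter.unusedSectionVars false

/-!
# [H7 HP LOCP] one small prime, 130-200 lines

PROOF. `σ = padicValNat p (dd a)` (`dd a ≠ 0`), `m = s - 1`, `κ` = the maximum of the numbers of `hen a p v m`, `v ≤ σ`, `E = 2m + 2σ + 2`. `x` a zero over `ℚ_p`; multiply by a power of `p`: `x_i ∈ ℤ_p`, some `|x_i| = 1`. If `p^(σ+1)` divided `lam0 w x` in `ℤ_p` for all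
`w ∈ Z0` then by `z0_dvd` (`R = ℤ_p`) it would divide `2 det x_k` for all `k`, so `2 det`: no. So there is `wp ∈ Z0` (integers) with `|lam0 wp x| = p^(-v)`, `v ≤ σ`. Let `w ≡ wp` modulo `p^(σ+1)`: `lam0 w x ≡ lam0 wp x` modulo `p^(σ+1)`, so `|lam0 w x| = p^(-v)`.
`y = gam a w x` (over `ℤ_p`): `ff a y = 0` (`ff_gam`), `qv (gw a w g*) y = 0` (`qv_gw`; `gw_map`), `y` primitive (`x = gami y`), `y 1 = lam0 w x = p^v * unit`; divide `y` by the unit: `y 1 = p^v`, `u = tl y`, `p^v y0 = h(u)`: `GG a (gw a w g*) (p^v) u = p^(2v) qv (gw a w g*) y = 0` (`mk5 (h u) (p^(2v)) (p^v u) = p^v y`).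
By `NonDeg` (reduce `u` modulo `p^s`) some `dGG_i` is not divisible by `p^s = p^(m+1)`. Let `u0 ∈ ℤ^3` be congruent to `u` modulo `p^E`: `GG(u0)` is divisible by `p^E`, `dGG(u0)_i` is not divisible by `p^(m+1)`, `p^v ∣ h(u0)`, `h(u0)/p^v ≡ y0` modulo `p` (`E ≥ v + 1`), so if `v ≥ 1` (`p ∣ y 1`) not
both `p ∣ h(u0)/p^v` and `p ∣ u0_i` for all `i`, because `y` is primitive. The same holds for the form `gw a w g`, `g ≡ g*` modulo `p^E` (`gw a w g ≡ gw a w g*` modulo `p^E`; `2m + 2v + 2 ≤ E`). Apply `hen`.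
-/

namespace Pool.Agent.H7.HP

open Finset

private theorem lp_map {R S : Type*} [CommRing R] [CommRing S] (φ : R →+* S) (a : Idx 3 → R)
    (g : Idx 5 → R) (q : R) (u : Fin 3 → R) :
    φ (GG a g q u) = GG (fun r => φ (a r)) (fun r => φ (g r)) (φ q) (fun j => φ (u j)) := by
  unfold GG
  rw [qv_map]
  congr 1
  funext r
  fin_cases r <;> simp [mk5, qv_map]

private theorem lp_single {R S : Type*} [CommRing R] [CommRing S] (φ : R →+* S) (i : Fin 3) :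
    (fun k => φ ((Pi.single i 1 : Fin 3 → R) k)) = Pi.single i 1 := by
  funext k
  rw [Pi.single_apply, Pi.single_apply]
  split_ifs
  · exact map_one φ
  · exact map_zero φ

private theorem lp_dmap {R S : Type*} [CommRing R] [CommRing S] (φ : R →+* S) (a : Idx 3 → R)
    (g : Idx 5 → R) (q : R) (u : Fin 3 → R) (i : Fin 3) :
    φ (dGG a g q u i) = dGG (fun r => φ (a r)) (fun r => φ (g r)) (φ q) (fun j => φ (u j)) i := by
  unfold dGG
  rw [pl_map]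
  have he := lp_single φ i
  congr 1
  · funext r
    fin_cases r <;> simp [mk5, qv_map]
  · funext r
    fin_cases r
    · simp [mk5, pl_map, he]
    · simp [mk5]
    · simp only [mk5]
      simp [← he]
    · simp only [mk5]
      simp [← he]
    · simp only [mk5]
      simp [← he]

private theorem lp_lam {R S : Type*} [CommRing R] [CommRing S] (φ : R →+* S) (a : Idx 3 → R)
    (w : Fin 3 → R) (x : Fin 5 → R) :
    φ (lam0 a w x) = lam0 (fun r => φ (a r)) (fun i => φ (w i)) (fun i => φ (x i)) := by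
  unfold lam0
  rw [map_add, map_sub, map_mul, pl_map, qv_map]
  congr 2

section Padic

variable {p : ℕ} [Fact p.Prime]

private theorem lp_mod (n : ℕ) (x y : ℤ_[p]) :
    PadicInt.toZModPow n x = PadicInt.toZModPow n y ↔ (p : ℤ_[p]) ^ n ∣ x - y := by
  rw [← sub_eq_zero, ← map_sub, ← RingHom.mem_ker, PadicInt.ker_toZModPow,
    Ideal.mem_span_singleton]

private theorem lp_int {n : ℕ} {x y : ℤ} (h : ((p ^ n : ℕ) : ℤ) ∣ x - y) :
    PadicInt.toZModPow (p := p) n (x : ℤ_[p]) = PadicInt.toZModPow n (y : ℤ_[p]) := by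
  rw [lp_mod, ← Int.cast_sub, PadicInt.pow_p_dvd_int_iff]
  exact_mod_cast h

private theorem lp_prim (x : Fin 5 → ℚ_[p]) (hx : x ≠ 0) : ∃ (c : ℚ_[p]) (y : Fin 5 → ℤ_[p]),
    (∀ i, ((y i : ℤ_[p]) : ℚ_[p]) = c * x i) ∧ ∃ i, y i = 1 := by
  obtain ⟨k, hk⟩ := Finite.exists_max (fun i => ‖x i‖)
  have hk0 : x k ≠ 0 := by
    intro h
    apply hx
    funext i
    have h1 := hk i
    rw [h, norm_zero] at h1
    exact norm_eq_zero.1 (le_antisymm h1 (norm_nonneg _))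
  have hkn : 0 < ‖x k‖ := norm_pos_iff.2 hk0
  have hn : ∀ i, ‖(x k)⁻¹ * x i‖ ≤ 1 := by
    intro i
    rw [norm_mul, norm_inv, inv_mul_le_iff₀ hkn, mul_one]
    exact hk i
  refine ⟨(x k)⁻¹, fun i => ⟨(x k)⁻¹ * x i, hn i⟩, fun i => rfl, k, ?_⟩
  apply Subtype.ext
  show (x k)⁻¹ * x k = 1
  exact inv_mul_cancel₀ hk0

private theorem lp_unit {x : ℤ_[p]} (h : ¬ (p : ℤ_[p]) ∣ x) : IsUnit x := by
  rw [PadicInt.isUnit_iff]
  rw [← PadicInt.norm_lt_one_iff_dvd, not_lt] at h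
  exact le_antisymm x.2 h

end Padic

private theorem lp_z0 {R : Type*} [CommRing R] (z : Fin 3 → ℤ) :
    (z = 0 → (fun i => ((z i : ℤ) : R)) = 0) ∧
    (∀ i, z = Pi.single i 1 → (fun i => ((z i : ℤ) : R)) = Pi.single i 1) ∧
    (∀ i, z = Pi.single i (-1) → (fun i => ((z i : ℤ) : R)) = Pi.single i (-1)) ∧
    (∀ i j, z = Pi.single i 1 + Pi.single j 1 →
      (fun i => ((z i : ℤ) : R)) = Pi.single i 1 + Pi.single j 1) := by
  refine ⟨?_, ?_, ?_, ?_⟩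
  · rintro rfl
    funext k
    simp
  · rintro i rfl
    funext k
    rw [Pi.single_apply, Pi.single_apply]
    split_ifs <;> simp
  · rintro i rfl
    funext k
    rw [Pi.single_apply, Pi.single_apply]
    split_ifs <;> simp
  · rintro i j rfl
    funext k
    rw [Pi.add_apply, Pi.add_apply, Pi.single_apply, Pi.single_apply, Pi.single_apply,
      Pi.single_apply, Int.cast_add]
    split_ifs <;> simp

theorem locp {a : Idx 3 → ℤ} (ha : (Hm a).det ≠ 0) (p : ℕ) [Fact p.Prime] (s : ℕ) (hs : 1 ≤ s) :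
    ∃ κ E : ℕ, ∀ gs : Idx 5 → ℤ, (∃ x : Fin 5 → ℚ_[p], x ≠ 0 ∧
      ff (fun i => (a i : ℚ_[p])) x = 0 ∧ qv (fun i => (gs i : ℚ_[p])) x = 0) →
    ∃ (wp : Fin 3 → ℤ) (v : ℕ), v ≤ padicValNat p (dd a) ∧ ∀ w : Fin 3 → ℤ,
      (∀ i, ((p ^ (padicValNat p (dd a) + 1) : ℕ) : ℤ) ∣ w i - wp i) →
      NonDeg a (gw a w gs) p s v → ∀ g : Idx 5 → ℤ, (∀ r, ((p ^ E : ℕ) : ℤ) ∣ g r - gs r) →
        ∀ e : ℕ, p ^ (2 * e) ≤ p ^ κ * (UU a (p ^ v) (p ^ e) (gw a w g)).card := by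
  classical
  have hp : p.Prime := Fact.out
  have hp0 : (p : ℤ_[p]) ≠ 0 := by exact_mod_cast hp.ne_zero
  obtain ⟨σ, hσ⟩ : ∃ σ, σ = padicValNat p (dd a) := ⟨_, rfl⟩
  rw [← hσ]
  choose κ hκ using fun v => hen a p hp v (s - 1)
  obtain ⟨E, hE⟩ : ∃ E, E = 2 * (s - 1) + 2 * σ + 2 := ⟨_, rfl⟩
  refine ⟨∑ v ∈ range (σ + 1), κ v, E, fun gs hx => ?_⟩
  obtain ⟨x, hx0, hf, hg⟩ := hx
  obtain ⟨c, y, hy, k, hk⟩ := lp_prim x hx0
  have hinj : Function.Injective (PadicInt.Coe.ringHom : ℤ_[p] →+* ℚ_[p]) := by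
    intro x y hxy
    exact Subtype.ext hxy
  have hfy : ff (fun i => ((a i : ℤ) : ℤ_[p])) y = 0 := by
    apply hinj
    rw [ff_map, map_zero]
    have e1 : (fun i => (PadicInt.Coe.ringHom : ℤ_[p] →+* ℚ_[p]) ((a i : ℤ) : ℤ_[p])) =
        fun i => ((a i : ℤ) : ℚ_[p]) := by
      funext i
      exact map_intCast _ _
    have e2 : (fun i => (PadicInt.Coe.ringHom : ℤ_[p] →+* ℚ_[p]) (y i)) = fun i => c * x i := by
      funext i
      exact hy i
    rw [e1, e2, ff_smul, hf, mul_zero]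
  have hgy : qv (fun i => ((gs i : ℤ) : ℤ_[p])) y = 0 := by
    apply hinj
    rw [qv_map, map_zero]
    have e1 : (fun i => (PadicInt.Coe.ringHom : ℤ_[p] →+* ℚ_[p]) ((gs i : ℤ) : ℤ_[p])) =
        fun i => ((gs i : ℤ) : ℚ_[p]) := by
      funext i
      exact map_intCast _ _
    have e2 : (fun i => (PadicInt.Coe.ringHom : ℤ_[p] →+* ℚ_[p]) (y i)) = fun i => c * x i := by
      funext i
      exact hy i
    rw [e1, e2, qv_smul, hg, mul_zero]
  -- the chart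
  have hwp : ∃ wp : Fin 3 → ℤ, ¬ (p : ℤ_[p]) ^ (σ + 1) ∣
      lam0 (fun i => ((a i : ℤ) : ℤ_[p])) (fun i => ((wp i : ℤ) : ℤ_[p])) y := by
    by_contra hcon
    push Not at hcon
    have h := z0_dvd (fun i => ((a i : ℤ) : ℤ_[p])) y ((p : ℤ_[p]) ^ (σ + 1))
      (by
        have h1 := hcon 0
        rwa [(lp_z0 (R := ℤ_[p]) 0).1 rfl] at h1)
      (fun i => by
        have h1 := hcon (Pi.single i 1)
        rwa [(lp_z0 (R := ℤ_[p]) _).2.1 i rfl] at h1)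
      (fun i => by
        have h1 := hcon (Pi.single i (-1))
        rwa [(lp_z0 (R := ℤ_[p]) _).2.2.1 i rfl] at h1)
      (fun i j => by
        have h1 := hcon (Pi.single i 1 + Pi.single j 1)
        rwa [(lp_z0 (R := ℤ_[p]) _).2.2.2 i j rfl] at h1) k
    rw [hk, mul_one] at h
    have hdet : (Hm (fun i => ((a i : ℤ) : ℤ_[p]))).det = (((Hm a).det : ℤ) : ℤ_[p]) := by
      have h1 := Hm_map (Int.castRingHom ℤ_[p]) a
      have h2 : (Hm (fun i => ((a i : ℤ) : ℤ_[p]))) = (Hm a).map (Int.castRingHom ℤ_[p]) := h1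
      rw [h2]
      have h3 := (RingHom.map_det (Int.castRingHom ℤ_[p]) (Hm a)).symm
      exact h3
    rw [hdet] at h
    have h' : (p : ℤ_[p]) ^ (σ + 1) ∣ ((2 * (Hm a).det : ℤ) : ℤ_[p]) := by
      rw [Int.cast_mul, Int.cast_ofNat]
      exact h
    rw [PadicInt.pow_p_dvd_int_iff] at h'
    have h2 : p ^ (σ + 1) ∣ dd a := by
      unfold dd
      apply Int.natCast_dvd.1
      exact_mod_cast h'
    have h3 : dd a ≠ 0 := by
      unfold dd
      rw [Int.natAbs_ne_zero]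
      exact mul_ne_zero two_ne_zero ha
    have h4 := (padicValNat_dvd_iff_le h3).1 h2
    omega
  obtain ⟨wp, hwp⟩ := hwp
  have hex : ∃ n, ¬ (p : ℤ_[p]) ^ (n + 1) ∣
      lam0 (fun i => ((a i : ℤ) : ℤ_[p])) (fun i => ((wp i : ℤ) : ℤ_[p])) y := ⟨σ, hwp⟩
  obtain ⟨v, hv⟩ : ∃ v, v = Nat.find hex := ⟨_, rfl⟩
  have hv1 : ¬ (p : ℤ_[p]) ^ (v + 1) ∣
      lam0 (fun i => ((a i : ℤ) : ℤ_[p])) (fun i => ((wp i : ℤ) : ℤ_[p])) y := by
    rw [hv]
    exact Nat.find_spec hex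
  have hvσ : v ≤ σ := by
    rw [hv]
    exact Nat.find_min' hex hwp
  have hv0 : (p : ℤ_[p]) ^ v ∣
      lam0 (fun i => ((a i : ℤ) : ℤ_[p])) (fun i => ((wp i : ℤ) : ℤ_[p])) y := by
    rcases Nat.eq_zero_or_pos v with h | h
    · rw [h, pow_zero]
      exact one_dvd _
    · have h1 := Nat.find_min hex (m := v - 1) (by rw [← hv]; omega)
      rw [not_not, Nat.sub_add_cancel h] at h1
      exact h1
  refine ⟨wp, v, hvσ, fun w hw hnd g hgs e => ?_⟩
  -- the value of the second coordinate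
  have hlam : ∃ ε : ℤ_[p], IsUnit ε ∧
      lam0 (fun i => ((a i : ℤ) : ℤ_[p])) (fun i => ((w i : ℤ) : ℤ_[p])) y = (p : ℤ_[p]) ^ v * ε := by
    have h1 : (p : ℤ_[p]) ^ (σ + 1) ∣
        lam0 (fun i => ((a i : ℤ) : ℤ_[p])) (fun i => ((w i : ℤ) : ℤ_[p])) y -
        lam0 (fun i => ((a i : ℤ) : ℤ_[p])) (fun i => ((wp i : ℤ) : ℤ_[p])) y := by
      rw [← lp_mod, lp_lam, lp_lam]
      congr 1
      funext i
      exact lp_int (hw i)
    have h2 : (p : ℤ_[p]) ^ (v + 1) ∣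
        lam0 (fun i => ((a i : ℤ) : ℤ_[p])) (fun i => ((w i : ℤ) : ℤ_[p])) y -
        lam0 (fun i => ((a i : ℤ) : ℤ_[p])) (fun i => ((wp i : ℤ) : ℤ_[p])) y :=
      (pow_dvd_pow _ (by omega)).trans h1
    have h3 : (p : ℤ_[p]) ^ v ∣
        lam0 (fun i => ((a i : ℤ) : ℤ_[p])) (fun i => ((w i : ℤ) : ℤ_[p])) y := by
      have := dvd_add ((pow_dvd_pow _ (Nat.le_succ v)).trans h2) hv0
      rwa [sub_add_cancel] at this
    obtain ⟨ε, hε⟩ := h3
    refine ⟨ε, lp_unit fun hd => hv1 ?_, hε⟩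
    have h4 : (p : ℤ_[p]) ^ (v + 1) ∣
        lam0 (fun i => ((a i : ℤ) : ℤ_[p])) (fun i => ((w i : ℤ) : ℤ_[p])) y := by
      rw [hε, pow_succ]
      exact mul_dvd_mul_left _ hd
    have := dvd_sub h4 h2
    rwa [sub_sub_cancel] at this
  obtain ⟨ε, hεu, hlam⟩ := hlam
  obtain ⟨ε', hε'⟩ := hεu.exists_right_inv
  obtain ⟨G, hG⟩ : ∃ G : Idx 5 → ℤ, G = gw a w gs := ⟨_, rfl⟩
  obtain ⟨G', hG'⟩ : ∃ G' : Idx 5 → ℤ, G' = gw a w g := ⟨_, rfl⟩
  have hGc : (fun r => ((G r : ℤ) : ℤ_[p])) = gw (fun i => ((a i : ℤ) : ℤ_[p]))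
      (fun i => ((w i : ℤ) : ℤ_[p])) (fun r => ((gs r : ℤ) : ℤ_[p])) := by
    rw [hG]
    exact (gw_map (Int.castRingHom ℤ_[p]) a w gs).symm
  obtain ⟨y', hy'⟩ : ∃ y' : Fin 5 → ℤ_[p], y' = gam (fun i => ((a i : ℤ) : ℤ_[p]))
      (fun i => ((w i : ℤ) : ℤ_[p])) y := ⟨_, rfl⟩
  have hf' : ff (fun i => ((a i : ℤ) : ℤ_[p])) y' = 0 := by
    rw [hy', ff_gam, hfy]
  have hg' : qv (fun r => ((G r : ℤ) : ℤ_[p])) y' = 0 := by
    rw [hGc, hy', qv_gw, hgy]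
  have hy1 : y' 1 = (p : ℤ_[p]) ^ v * ε := by
    rw [hy', ← hlam]
    rfl
  obtain ⟨z, hz⟩ : ∃ z : Fin 5 → ℤ_[p], z = fun i => ε' * y' i := ⟨_, rfl⟩
  have hz1 : z 1 = (p : ℤ_[p]) ^ v := by
    rw [hz]
    show ε' * y' 1 = _
    rw [hy1]
    linear_combination ((p : ℤ_[p]) ^ v) * hε'
  have hfz : z 0 * z 1 = qv (fun i => ((a i : ℤ) : ℤ_[p])) (tl z) := by
    have h1 : ff (fun i => ((a i : ℤ) : ℤ_[p])) z = 0 := by
      rw [hz, ff_smul, hf', mul_zero]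
    unfold ff at h1
    exact sub_eq_zero.1 h1
  have hgz : qv (fun r => ((G r : ℤ) : ℤ_[p])) z = 0 := by
    rw [hz, qv_smul, hg', mul_zero]
  have hzp : ¬ ∀ i, (p : ℤ_[p]) ∣ z i := by
    intro hcon
    have h1 : ∀ i, (p : ℤ_[p]) ∣ y' i := by
      intro i
      have h2 : y' i = ε * z i := by
        rw [hz]
        linear_combination (-(y' i)) * hε'
      rw [h2]
      exact (hcon i).mul_left _
    have h2 : y = (gI (fun i => ((a i : ℤ) : ℤ_[p])) (fun i => ((w i : ℤ) : ℤ_[p]))).mulVec y' := by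
      rw [gI_mulVec, hy', gami_gam]
    have h3 : (p : ℤ_[p]) ∣ y k := by
      rw [h2]
      unfold Matrix.mulVec dotProduct
      exact dvd_sum fun i _ => (h1 i).mul_left _
    rw [hk] at h3
    have h4 := (PadicInt.norm_lt_one_iff_dvd (1 : ℤ_[p])).2 h3
    rw [norm_one] at h4
    exact lt_irrefl _ h4
  obtain ⟨u, hu⟩ : ∃ u : Fin 3 → ℤ_[p], u = tl z := ⟨_, rfl⟩
  rw [← hu, hz1] at hfz
  have hGG : GG (fun i => ((a i : ℤ) : ℤ_[p])) (fun r => ((G r : ℤ) : ℤ_[p]))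
      ((p : ℤ_[p]) ^ v) u = 0 := by
    unfold GG
    have h1 : mk5 (qv (fun i => ((a i : ℤ) : ℤ_[p])) u) (((p : ℤ_[p]) ^ v) ^ 2)
        (fun i => (p : ℤ_[p]) ^ v * u i) = fun i => (p : ℤ_[p]) ^ v * z i := by
      have h2 := mk5_tl z
      rw [← hu, hz1] at h2
      rw [← h2]
      funext i
      fin_cases i
      · simp only [mk5]
        simp [← hfz]
        ring
      · simp [mk5]
        ring
      · simp [mk5]
      · simp [mk5]
      · simp [mk5]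
    rw [h1, qv_smul, hgz, mul_zero]
  -- the nondegenerate coordinate
  have hcast : ∀ n : ℕ, PadicInt.toZModPow n ((p : ℤ_[p]) ^ v) = ((p ^ v : ℕ) : ZMod (p ^ n)) := by
    intro n
    rw [map_pow, map_natCast]
    push_cast
    rfl
  have hnd' : ∃ i, PadicInt.toZModPow s (dGG (fun i => ((a i : ℤ) : ℤ_[p]))
      (fun r => ((G r : ℤ) : ℤ_[p])) ((p : ℤ_[p]) ^ v) u i) ≠ 0 := by
    by_contra hcon
    push Not at hcon
    rw [← hG] at hnd
    apply hnd (fun j => PadicInt.toZModPow s (u j))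
    have e1 : (fun r => PadicInt.toZModPow s ((a r : ℤ) : ℤ_[p])) =
        fun r => ((a r : ℤ) : ZMod (p ^ s)) := by
      funext r
      exact map_intCast _ _
    have e2 : (fun r => PadicInt.toZModPow s ((G r : ℤ) : ℤ_[p])) =
        fun r => ((G r : ℤ) : ZMod (p ^ s)) := by
      funext r
      exact map_intCast _ _
    constructor
    · have h1 := lp_map (PadicInt.toZModPow (p := p) s) (fun i => ((a i : ℤ) : ℤ_[p]))
        (fun r => ((G r : ℤ) : ℤ_[p])) ((p : ℤ_[p]) ^ v) u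
      rw [hGG, map_zero, hcast, e1, e2] at h1
      exact h1.symm
    · intro i
      have h1 := lp_dmap (PadicInt.toZModPow (p := p) s) (fun i => ((a i : ℤ) : ℤ_[p]))
        (fun r => ((G r : ℤ) : ℤ_[p])) ((p : ℤ_[p]) ^ v) u i
      rw [hcon i, hcast, e1, e2] at h1
      exact h1.symm
  obtain ⟨i, hi⟩ := hnd'
  -- the integer vector
  obtain ⟨u0, hu0⟩ : ∃ u0 : Fin 3 → ℤ, ∀ j, (p : ℤ_[p]) ^ E ∣ u j - ((u0 j : ℤ) : ℤ_[p]) := by
    refine ⟨fun j => ((u j).appr E : ℤ), fun j => ?_⟩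
    have h1 := PadicInt.appr_spec E (u j)
    rw [Ideal.mem_span_singleton] at h1
    rw [Int.cast_natCast]
    exact h1
  have hum : ∀ n ≤ E, (fun j => PadicInt.toZModPow n ((u0 j : ℤ) : ℤ_[p])) =
      fun j => PadicInt.toZModPow n (u j) := by
    intro n hn
    funext j
    symm
    rw [lp_mod]
    exact (pow_dvd_pow _ hn).trans (hu0 j)
  have hGm : ∀ n ≤ E, (fun r => PadicInt.toZModPow n ((G' r : ℤ) : ℤ_[p])) =
      fun r => PadicInt.toZModPow n ((G r : ℤ) : ℤ_[p]) := by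
    intro n hn
    have h1 : ∀ f : Idx 5 → ℤ, (fun r => PadicInt.toZModPow n ((gw a w f r : ℤ) : ℤ_[p])) =
        gw (fun i => ((PadicInt.toZModPow (p := p) n).comp (Int.castRingHom ℤ_[p])) (a i))
          (fun i => ((PadicInt.toZModPow (p := p) n).comp (Int.castRingHom ℤ_[p])) (w i))
          (fun i => ((PadicInt.toZModPow (p := p) n).comp (Int.castRingHom ℤ_[p])) (f i)) := by
      intro f
      rw [gw_map]
      rfl
    rw [hG, hG', h1, h1]
    congr 1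
    funext r
    show PadicInt.toZModPow n ((g r : ℤ) : ℤ_[p]) = PadicInt.toZModPow n ((gs r : ℤ) : ℤ_[p])
    apply lp_int
    refine dvd_trans ?_ (hgs r)
    exact_mod_cast pow_dvd_pow p hn
  have hcv : (((p ^ v : ℕ) : ℤ) : ℤ_[p]) = (p : ℤ_[p]) ^ v := by
    push_cast
    rfl
  have hdvd : ∀ (n : ℕ) (t : ℤ), PadicInt.toZModPow (p := p) n ((t : ℤ) : ℤ_[p]) = 0 ↔
      ((p ^ n : ℕ) : ℤ) ∣ t := by
    intro n t
    rw [← map_zero (PadicInt.toZModPow (p := p) n), lp_mod, sub_zero, PadicInt.pow_p_dvd_int_iff]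
    push_cast
    rfl
  have hz0 : (p : ℤ_[p]) ^ E ∣ ((qv a u0 : ℤ) : ℤ_[p]) - (p : ℤ_[p]) ^ v * z 0 := by
    rw [← lp_mod]
    have h1 : ((qv a u0 : ℤ) : ℤ_[p]) = qv (fun i => ((a i : ℤ) : ℤ_[p]))
        (fun j => ((u0 j : ℤ) : ℤ_[p])) := qv_map (Int.castRingHom ℤ_[p]) a u0
    rw [h1, qv_map, hum E le_rfl, ← qv_map, ← hfz, mul_comm]
  have hEv : v + 1 ≤ E := by omega
  have hqv : ((p ^ v : ℕ) : ℤ) ∣ qv a u0 := by
    rw [← hdvd, ← map_zero (PadicInt.toZModPow (p := p) v), lp_mod, sub_zero]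
    have h1 := (pow_dvd_pow (p : ℤ_[p]) (show v ≤ E by omega)).trans hz0
    have := dvd_add h1 (Dvd.intro (z 0) rfl : (p : ℤ_[p]) ^ v ∣ (p : ℤ_[p]) ^ v * z 0)
    rwa [sub_add_cancel] at this
  have hres := hκ v G' u0 hqv ?_ ?_ ?_ e
  · rw [← hG']
    refine hres.trans (Nat.mul_le_mul_right _ (Nat.pow_le_pow_right hp.pos ?_))
    exact single_le_sum (f := κ) (fun _ _ => Nat.zero_le _) (by rw [mem_range]; omega)
  · -- primitivity
    rintro hvpos ⟨c1, c2⟩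
    apply hzp
    have hpz0 : (p : ℤ_[p]) ∣ z 0 := by
      obtain ⟨t, ht⟩ := hqv
      have hq0 : ((p ^ v : ℕ) : ℤ) ≠ 0 := by exact_mod_cast pow_ne_zero v hp.ne_zero
      rw [ht, Int.mul_ediv_cancel_left _ hq0] at c1
      have h1 : ((qv a u0 : ℤ) : ℤ_[p]) = (p : ℤ_[p]) ^ v * ((t : ℤ) : ℤ_[p]) := by
        rw [ht, Int.cast_mul, hcv]
      have h2 := (pow_dvd_pow (p : ℤ_[p]) hEv).trans hz0
      rw [h1, ← mul_sub, pow_succ] at h2
      have h3 := (mul_dvd_mul_iff_left (pow_ne_zero v hp0)).1 h2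
      have h4 : (p : ℤ_[p]) ∣ ((t : ℤ) : ℤ_[p]) := by
        have := (PadicInt.pow_p_dvd_int_iff 1 t).2 (by simpa using c1)
        simpa using this
      have := dvd_sub h4 h3
      rwa [sub_sub_cancel] at this
    have hpu : ∀ j, (p : ℤ_[p]) ∣ u j := by
      intro j
      have h4 : (p : ℤ_[p]) ∣ ((u0 j : ℤ) : ℤ_[p]) := by
        have := (PadicInt.pow_p_dvd_int_iff 1 (u0 j)).2 (by simpa using c2 j)
        simpa using this
      have h5 : (p : ℤ_[p]) ∣ (p : ℤ_[p]) ^ E := dvd_pow_self _ (by omega)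
      have := dvd_add (h5.trans (hu0 j)) h4
      rwa [sub_add_cancel] at this
    intro i
    fin_cases i
    · exact hpz0
    · show (p : ℤ_[p]) ∣ z 1
      rw [hz1]
      exact dvd_pow_self _ (by omega)
    · have := hpu 0
      rw [hu] at this
      exact this
    · have := hpu 1
      rw [hu] at this
      exact this
    · have := hpu 2
      rw [hu] at this
      exact this
  · -- the value
    have h1 : ((p ^ E : ℕ) : ℤ) ∣ GG a G' ((p ^ v : ℕ) : ℤ) u0 := by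
      rw [← hdvd]
      have h2 : ((GG a G' ((p ^ v : ℕ) : ℤ) u0 : ℤ) : ℤ_[p]) =
          GG (fun i => ((a i : ℤ) : ℤ_[p])) (fun r => ((G' r : ℤ) : ℤ_[p]))
            (((p ^ v : ℕ) : ℤ) : ℤ_[p]) (fun j => ((u0 j : ℤ) : ℤ_[p])) :=
        lp_map (Int.castRingHom ℤ_[p]) a G' _ u0
      rw [h2, hcv, lp_map, hum E le_rfl, hGm E le_rfl, ← lp_map, hGG, map_zero]
    refine dvd_trans ?_ h1
    exact_mod_cast pow_dvd_pow p (show 2 * (s - 1) + 2 * v + 2 ≤ E by omega)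
  · -- the derivative
    refine ⟨i, fun hc => hi ?_⟩
    rw [Nat.sub_add_cancel hs, ← hdvd] at hc
    have h2 : ((dGG a G' ((p ^ v : ℕ) : ℤ) u0 i : ℤ) : ℤ_[p]) =
        dGG (fun i => ((a i : ℤ) : ℤ_[p])) (fun r => ((G' r : ℤ) : ℤ_[p]))
          (((p ^ v : ℕ) : ℤ) : ℤ_[p]) (fun j => ((u0 j : ℤ) : ℤ_[p])) i :=
      lp_dmap (Int.castRingHom ℤ_[p]) a G' _ u0 i
    rw [h2, hcv, lp_dmap, hum s (by omega), hGm s (by omega), ← lp_dmap] at hc
    exact hc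

end Pool.Agent.H7.HP
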