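import Pool.Agent.H7.HP.Pts

set_option autoImplicit false
set_option linter.unusedSectionVars false

/-!
# Pairs of points: definitions
-/

namespace Pool.Agent.H7.HP

open Finset

open scoped Classical in
/-- pairs of different points -/
noncomputable def PR (a : Idx 3 → ℤ) (q C1 B : ℕ) : Finset ((Fin 5 → ℤ) × (Fin 5 → ℤ)) :=
  (XP a q C1 B ×ˢ XP a q C1 B).filter fun p => p.1 ≠ p.2

/-- the weight of a pair -/
noncomputable def wt (p : (Fin 5 → ℤ) × (Fin 5 → ℤ)) : ℝ := (gk p.1 p.2 : ℝ) / dl p.1 p.2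

/-- the number of primes in `(B, 4B]` -/
def pb (B : ℕ) : ℕ := ((Ioc B (4 * B)).filter Nat.Prime).card

end Pool.Agent.H7.HP
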