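import Pool.Agent.H7.HP.Cub
import Pool.Agent.H7.HP.Cel
import Pool.Agent.H7.HP.PairDefs

set_option autoImplicit false
set_option linter.unusedSectionVars false

/-!
# [H7 HP LOW] lower bound for the number of points with small value divisible by M, 150-230 lines

PROOF. `C1 = 4 q (C0 + 1)`. `c, κ0` of `cub` for `K0 = C0`, applied with `κ' = κ/(16 q^2)` in place of `κ`, and the real form `g`: cells `n ∈ S`, side `s = c κ'`, `#S * κ'^2 ≥ c`.
For a prime `l ∈ (B, 4B]`, a cell `n ∈ S`, `ũ ∈ UU a q M g` let `U(l, n, ũ)` be the set of `cel` with `c = l ũ`. For `u ∈ U(l, n, ũ)` put `x = mk5 (h(u)/(q l)) (q l) u`. Then: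
* `q ∣ h(u)`: `u ≡ l ũ` modulo `M q^2`, `h(u) ≡ l^2 h(ũ)` modulo `M q^2`, `q ∣ h(ũ)`; `l ∣ h(u)`, `l` and `q` coprime (`q ≤ B < l`): `q l ∣ h(u)`, so `ff a x = 0`.
* `|u_i| ≤ q l (C0 + 1) ≤ C1 B` (the point `t = u/(q l)` lies in the cell `n`: `|t_i| ≤ C0 + 1`). `l` does not divide `u`.
* modulo `M` (and modulo each prime `p ∣ q`): `h(u)/q ≡ l^2 h(ũ)/q`, so `x0 = (h(u)/q)/l ≡ l h(ũ)/q` (`l` invertible): `x ≡ l * mk5 (h(ũ)/q) q ũ`. So `M ∣ qv g x`. (For a prime `p ∣ q` use that `p ∣ M`, hypothesis `hqM`.)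
* primitive (`prim_iff`): a prime dividing all `x_i` divides `x1 = q l`; it is not `l`; it is not a divisor `p` of `q` by the last condition of `Sol`.
* `qv g x = x1^2 phi g (u/x1)` (`phi_scale`, `ff a x = 0`), `|phi| ≤ κ' A`, `x1 = q l ≤ 4 q B`: `|qv g x| ≤ 16 q^2 B^2 κ' A = κ A B^2`.
The map `(l, n, ũ, u) ↦ x` is injective: `x` gives `l` and `u`; `u/(q l)` determines the cell (half open); `u` modulo `M q^2` and `l` determine `ũ ∈ [0, M q^2)^3` (`l` invertible modulo `M q^2`).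
So the number is at least `pb B * #S * #UU * (q l s/(M q^2))^3/(2 l) ≥ pb B * (c/κ'^2) * c1 M^2 * (c κ'/(M q))^3 B^2/2 * ...` (`l ≥ B`): `≥ c' c1 κ pb B * B^2 / M`.
-/

namespace Pool.Agent.H7.HP

open Finset

private theorem dvd_qv_sub {n : ℕ} (c : Idx n → ℤ) (m : ℤ) (x y : Fin n → ℤ)
    (h : ∀ i, m ∣ x i - y i) : m ∣ qv c x - qv c y := by
  unfold qv
  rw [← sum_sub_distrib]
  refine dvd_sum fun p _ => ?_
  have e1 : c p * (x p.1.1 * x p.1.2) - c p * (y p.1.1 * y p.1.2) =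
      c p * ((x p.1.1 - y p.1.1) * x p.1.2 + y p.1.1 * (x p.1.2 - y p.1.2)) := by ring
  rw [e1]
  exact Dvd.dvd.mul_left (dvd_add (Dvd.dvd.mul_right (h _) _) (Dvd.dvd.mul_left (h _) _)) _

open scoped Classical in
/-- the vectors `u` of a cell and a residue class -/
private noncomputable def UL (a : Idx 3 → ℤ) (q C1 B M : ℕ) (s : ℝ) (l : ℕ) (n c : Fin 3 → ℤ) :
    Finset (Fin 3 → ℤ) :=
  (bx 3 (C1 * B)).filter fun u => (∀ i, (q : ℝ) * l * s * n i ≤ u i ∧
      (u i : ℝ) < q * l * s * (n i + 1)) ∧ (∀ i, (M * q ^ 2 : ℤ) ∣ u i - c i) ∧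
      (l : ℤ) ∣ qv a u ∧ ¬ ∀ i, (l : ℤ) ∣ u i

/-- arithmetic of one point -/
private theorem pt_of {a : Idx 3 → ℤ} {g : Idx 5 → ℤ} {q M B C1 l : ℕ} (hq : 1 ≤ q) (hM : 1 ≤ M)
    (hl : l.Prime) (hBl : B < l) (hl4 : l ≤ 4 * B) (hqB : q ≤ B) (hMB : M ≤ B)
    {u v : Fin 3 → ℤ} (hv : Sol a g q M v) (hu : ∀ i, |u i| ≤ C1 * B)
    (huv : ∀ i, (M * q ^ 2 : ℤ) ∣ u i - l * v i) (hlu : (l : ℤ) ∣ qv a u)
    (hlu' : ¬ ∀ i, (l : ℤ) ∣ u i) :
    IsPt a q C1 B (mk5 (qv a u / (q * l)) (q * l) u) ∧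
      (M : ℤ) ∣ qv g (mk5 (qv a u / (q * l)) (q * l) u) := by
  obtain ⟨hv1, hv2, hv3⟩ := hv
  have hqz : (q : ℤ) ≠ 0 := by
    have : (1 : ℤ) ≤ q := by exact_mod_cast hq
    omega
  have hlz : (l : ℤ) ≠ 0 := by exact_mod_cast hl.ne_zero
  have hlq : Nat.Coprime l q := by
    rw [hl.coprime_iff_not_dvd]
    intro h
    have := Nat.le_of_dvd (by omega) h
    omega
  have hlM : Nat.Coprime l M := by
    rw [hl.coprime_iff_not_dvd]
    intro h
    have := Nat.le_of_dvd (by omega) h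
    omega
  have hlqz : IsCoprime (l : ℤ) (q : ℤ) := Nat.isCoprime_iff_coprime.2 hlq
  have hlMz : IsCoprime (l : ℤ) (M : ℤ) := Nat.isCoprime_iff_coprime.2 hlM
  -- the congruence for h
  have h1 : (M * q ^ 2 : ℤ) ∣ qv a u - qv a (fun i => l * v i) := dvd_qv_sub a _ _ _ huv
  rw [qv_smul] at h1
  obtain ⟨r, hr⟩ := h1
  obtain ⟨Hq, hHq⟩ := hv1
  have hHq' : qv a v / q = Hq := by
    rw [hHq, Int.mul_ediv_cancel_left _ hqz]
  have hqu : (q : ℤ) ∣ qv a u := by
    have e1 : qv a u = q * (l ^ 2 * Hq + M * q * r) := by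
      have : qv a u = (l : ℤ) ^ 2 * qv a v + M * q ^ 2 * r := by linarith
      rw [this, hHq]
      ring
    exact ⟨_, e1⟩
  have hqlu : (q * l : ℤ) ∣ qv a u := IsCoprime.mul_dvd hlqz.symm hqu hlu
  obtain ⟨X0, hX0⟩ := hqlu
  have hql0 : (q * l : ℤ) ≠ 0 := mul_ne_zero hqz hlz
  have hdiv : qv a u / (q * l) = X0 := by
    rw [hX0, Int.mul_ediv_cancel_left _ hql0]
  rw [hdiv]
  -- X0 = l Hq + M q r'
  have h2 : (l : ℤ) * X0 = l ^ 2 * Hq + M * q * r := by
    have h3 : (q : ℤ) * (l * X0) = q * (l ^ 2 * Hq + M * q * r) := by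
      calc (q : ℤ) * (l * X0) = q * l * X0 := by ring
        _ = qv a u := hX0.symm
        _ = (l : ℤ) ^ 2 * qv a v + M * q ^ 2 * r := by linarith
        _ = q * (l ^ 2 * Hq + M * q * r) := by rw [hHq]; ring
    exact mul_left_cancel₀ hqz h3
  have h4 : (l : ℤ) ∣ r := by
    have h5 : (l : ℤ) ∣ (M * q) * r := ⟨X0 - l * Hq, by linarith⟩
    exact (hlMz.mul_right hlqz).dvd_of_dvd_mul_left h5
  obtain ⟨r', hr'⟩ := h4
  have hX : X0 = l * Hq + M * q * r' := by
    have h5 : (l : ℤ) * X0 = l * (l * Hq + M * q * r') := by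
      rw [h2, hr']
      ring
    exact mul_left_cancel₀ hlz h5
  refine ⟨⟨?_, ⟨l, hl, hBl, hl4, rfl, ?_⟩, ?_, ?_⟩, ?_⟩
  · rw [ff_mk5, hX0]
    ring
  · rw [tl_mk5]
    exact hlu'
  · intro i
    rw [tl_mk5]
    exact hu i
  · rw [prim_iff]
    intro p hp hall
    have hp1 : (p : ℤ) ∣ (q * l : ℤ) := hall 1
    have hp1' : p ∣ q * l := by exact_mod_cast hp1
    have hpu : ∀ i, (p : ℤ) ∣ u i := by
      intro i
      fin_cases i
      · exact hall 2
      · exact hall 3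
      · exact hall 4
    rcases (Nat.Prime.dvd_mul hp).1 hp1' with h5 | h5
    · have hpl : IsCoprime (p : ℤ) (l : ℤ) := by
        rw [Nat.isCoprime_iff_coprime]
        exact (hlq.coprime_dvd_right h5).symm
      have hpq : (p : ℤ) ∣ (q : ℤ) := by exact_mod_cast h5
      refine hv3 p hp h5 ⟨?_, ?_⟩
      · rw [hHq']
        have h6 : (p : ℤ) ∣ X0 := hall 0
        rw [hX] at h6
        have h7 : (p : ℤ) ∣ l * Hq := by
          have h8 : (p : ℤ) ∣ M * q * r' :=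
            Dvd.dvd.mul_right (Dvd.dvd.mul_left hpq _) _
          exact (dvd_add_left h8).1 h6
        exact hpl.dvd_of_dvd_mul_left h7
      · intro i
        have h6 : (p : ℤ) ∣ (M * q ^ 2 : ℤ) := Dvd.dvd.mul_left (dvd_pow hpq (by norm_num)) _
        have h7 : (p : ℤ) ∣ l * v i := by
          have h8 := h6.trans (huv i)
          have h9 := dvd_sub (hpu i) h8
          rw [sub_sub_cancel] at h9
          exact h9
        exact hpl.dvd_of_dvd_mul_left h7
    · have hpl : p = l := (Nat.prime_dvd_prime_iff_eq hp hl).1 h5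
      rw [hpl] at hpu
      exact hlu' hpu
  · rw [hHq'] at hv2
    have h5 : (M : ℤ) ∣ qv g (mk5 X0 (q * l) u) - qv g (fun i => l * mk5 Hq q v i) := by
      refine dvd_qv_sub g _ _ _ fun i => ?_
      have h6 : ∀ j, (M : ℤ) ∣ u j - l * v j := fun j =>
        (Dvd.dvd.mul_right (dvd_refl (M : ℤ)) _).trans (huv j)
      fin_cases i
      · show (M : ℤ) ∣ X0 - l * Hq
        rw [hX]
        exact ⟨q * r', by ring⟩
      · show (M : ℤ) ∣ q * l - l * q
        exact ⟨0, by ring⟩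
      · exact h6 0
      · exact h6 1
      · exact h6 2
    rw [qv_smul] at h5
    exact (dvd_sub_left (Dvd.dvd.mul_left hv2 _)).1 h5

/-- the value of `g` at a point of a good cell -/
private theorem val_of {a : Idx 3 → ℤ} {g : Idx 5 → ℤ} {q B l : ℕ} {κ A : ℝ} (hq : 1 ≤ q)
    (hl : 0 < l) (hl4 : l ≤ 4 * B) {X0 : ℤ} {u : Fin 3 → ℤ}
    (hf : ff a (mk5 X0 (q * l) u) = 0) (_ : 0 ≤ κ / (16 * q ^ 2) * A)
    (hphi : |phi (fun p => (a p : ℝ)) (fun p => (g p : ℝ)) (fun i => (u i : ℝ) / (q * l))| ≤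
      κ / (16 * q ^ 2) * A) :
    |((qv g (mk5 X0 (q * l) u) : ℤ) : ℝ)| ≤ κ * A * (B : ℝ) ^ 2 := by
  have hqr : (1 : ℝ) ≤ q := by exact_mod_cast hq
  have hlr : (0 : ℝ) < l := by exact_mod_cast hl
  have hl4r : (l : ℝ) ≤ 4 * B := by exact_mod_cast hl4
  set x : Fin 5 → ℤ := mk5 X0 (q * l) u with hx
  have h1 : ((qv g x : ℤ) : ℝ) = qv (fun p => (g p : ℝ)) (fun i => (x i : ℝ)) :=
    qv_map (Int.castRingHom ℝ) g x
  have h2 : ff (fun p => (a p : ℝ)) (fun i => (x i : ℝ)) = 0 := by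
    have h3 := ff_map (Int.castRingHom ℝ) a x
    rw [hf, map_zero] at h3
    exact h3.symm
  have hx1 : ((x 1 : ℤ) : ℝ) = q * l := by
    rw [hx]
    show (((q : ℤ) * (l : ℤ) : ℤ) : ℝ) = q * l
    push_cast
    ring
  have h3 := phi_scale (fun p => (a p : ℝ)) (fun p => (g p : ℝ)) (fun i => (x i : ℝ))
    (by rw [hx1]; positivity) h2
  have h4 : (fun i => tl (fun i => (x i : ℝ)) i / ((x 1 : ℤ) : ℝ)) =
      fun i => (u i : ℝ) / (q * l) := by
    funext i
    rw [hx1, hx]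
    fin_cases i <;> rfl
  rw [h4, hx1] at h3
  rw [h1, h3, abs_mul, abs_of_nonneg (by positivity)]
  calc ((q : ℝ) * l) ^ 2 *
        |phi (fun p => (a p : ℝ)) (fun p => (g p : ℝ)) (fun i => (u i : ℝ) / (q * l))|
      ≤ ((q : ℝ) * (4 * B)) ^ 2 * (κ / (16 * q ^ 2) * A) := by gcongr
    _ = κ * A * (B : ℝ) ^ 2 := by
        field_simp
        ring

open scoped Classical in
theorem low {a : Idx 3 → ℤ} (ha : (Hm a).det ≠ 0) (q C0 : ℕ) (hq : 1 ≤ q) (η : ℝ) (hη : 0 < η) :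
    ∃ c κ0 : ℝ, 0 < c ∧ 0 < κ0 ∧ ∀ κ : ℝ, 0 < κ → κ ≤ κ0 → ∀ M : ℕ, 1 ≤ M →
    (∀ p : ℕ, p.Prime → p ∣ q → p ∣ M) → ∃ B0 : ℕ, ∀ B ≥ B0, ∀ (A : ℕ) (g : Idx 5 → ℤ) (c1 : ℝ),
    1 ≤ A → g ∈ bf 5 A → 0 < c1 → c1 * (M : ℝ) ^ 2 ≤ (UU a q M g).card →
    (∃ t : Fin 3 → ℝ, (∀ i, |t i| ≤ C0) ∧ phi (fun p => (a p : ℝ)) (fun p => (g p : ℝ)) t = 0 ∧
      ∃ i, η * A ≤ |dphi (fun p => (a p : ℝ)) (fun p => (g p : ℝ)) t i|) →
      c * c1 * κ * pb B * (B : ℝ) ^ 2 / M ≤
        (((XP a q (4 * q * (C0 + 1)) B).filter fun x => (M : ℤ) ∣ qv g x ∧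
          |((qv g x : ℤ) : ℝ)| ≤ κ * A * (B : ℝ) ^ 2).card : ℝ) := by
  set aR : Idx 3 → ℝ := fun p => (a p : ℝ) with haR
  obtain ⟨cc, κc, hcc, hκc, hcub⟩ := cub aR C0 η (Nat.cast_nonneg _) hη
  have hqr : (1 : ℝ) ≤ q := by exact_mod_cast hq
  have hqpos : (0 : ℝ) < q := by linarith
  refine ⟨cc ^ 4 / (32 * q ^ 5), 16 * q ^ 2 * κc, by positivity, by positivity, ?_⟩
  intro κ hκ hκ0 M hM hqM
  have hMr : (1 : ℝ) ≤ M := by exact_mod_cast hM
  have hMpos : (0 : ℝ) < M := by linarith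
  set κ' : ℝ := κ / (16 * q ^ 2) with hκ'
  have hκ'pos : 0 < κ' := by positivity
  have hκ'c : κ' ≤ κc := by
    rw [hκ', div_le_iff₀ (by positivity)]
    linarith
  set s : ℝ := cc * κ' with hs
  have hspos : 0 < s := by positivity
  obtain ⟨Bc, hBc⟩ := cel ha q M hq hM s (3 * (C0 + 1)) hspos
  refine ⟨max Bc (max q M), fun B hB A g c1 hA hg hc1 hU ht => ?_⟩
  have hBBc : Bc ≤ B := (le_max_left _ _).trans hB
  have hqB : q ≤ B := ((le_max_left _ _).trans (le_max_right _ _)).trans hB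
  have hMB : M ≤ B := ((le_max_right _ _).trans (le_max_right _ _)).trans hB
  have hBr : (1 : ℝ) ≤ B := by
    have : 1 ≤ B := by omega
    exact_mod_cast this
  have hBpos : (0 : ℝ) < B := by linarith
  have hAr : (1 : ℝ) ≤ A := by exact_mod_cast hA
  obtain ⟨t0, ht0, hphi0, hd0⟩ := ht
  have hgb : ∀ p, |(g p : ℝ)| ≤ A := by
    intro p
    have := mem_bf.1 hg p
    exact_mod_cast this
  obtain ⟨S, hS, hcell⟩ := hcub κ' hκ'pos hκ'c (fun p => (g p : ℝ)) A (by linarith) hgb t0 ht0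
    hphi0 hd0
  rw [← hs] at hcell
  -- bound for the cells
  have hKn : ∀ n ∈ S, ∀ i, ((|n i| : ℤ) + 1 : ℝ) * s ≤ 3 * (C0 + 1) := by
    intro n hn i
    have h1 := (hcell n hn (fun i => s * n i) (fun i => ⟨le_refl _, by nlinarith⟩)).1 i
    have h2 := (hcell n hn (fun i => s * (n i + 1)) (fun i => ⟨by nlinarith, le_refl _⟩)).1 i
    push_cast
    rw [abs_mul, abs_of_pos hspos] at h1 h2
    have h3 : (1 : ℝ) ≤ |(n i : ℝ)| + |(n i : ℝ) + 1| := by
      have h4 := abs_sub_abs_le_abs_sub ((n i : ℝ) + 1) (n i)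
      have h5 : |((n i : ℝ) + 1) - n i| = 1 := by
        rw [add_sub_cancel_left, abs_one]
      have h6 : (1 : ℝ) = |((n i : ℝ) + 1) - n i| := h5.symm
      calc (1 : ℝ) = |((n i : ℝ) + 1) - n i| := h6
        _ ≤ |(n i : ℝ) + 1| + |(n i : ℝ)| := abs_sub _ _
        _ = _ := add_comm _ _
    have h7 : s ≤ s * (|(n i : ℝ)| + |(n i : ℝ) + 1|) := by nlinarith
    nlinarith
  set C1 : ℕ := 4 * q * (C0 + 1) with hC1
  -- vectors in a cell
  have hub : ∀ (l : ℕ) (n : Fin 3 → ℤ), n ∈ S → 0 < l → l ≤ 4 * B → ∀ u : Fin 3 → ℤ,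
      (∀ i, (q : ℝ) * l * s * n i ≤ u i ∧ (u i : ℝ) < q * l * s * (n i + 1)) →
      (∀ i, |u i| ≤ C1 * B) ∧
        |phi aR (fun p => (g p : ℝ)) (fun i => (u i : ℝ) / (q * l))| ≤ κ' * A := by
    intro l n hn hl0 hl4 u hu
    have hlr : (0 : ℝ) < l := by exact_mod_cast hl0
    have hl4r : (l : ℝ) ≤ 4 * B := by exact_mod_cast hl4
    have hql : (0 : ℝ) < q * l := by positivity
    have h1 := hcell n hn (fun i => (u i : ℝ) / (q * l)) (fun i => by
      constructor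
      · rw [le_div_iff₀ hql]
        have := (hu i).1
        linarith
      · rw [div_le_iff₀ hql]
        have := (hu i).2
        linarith)
    refine ⟨fun i => ?_, h1.2⟩
    have h2 := h1.1 i
    rw [abs_div, abs_of_pos hql, div_le_iff₀ hql] at h2
    have h3 : |(u i : ℝ)| ≤ (C1 : ℝ) * B := by
      refine h2.trans ?_
      rw [hC1]
      push_cast
      calc ((C0 : ℝ) + 1) * (q * l) ≤ ((C0 : ℝ) + 1) * (q * (4 * B)) := by gcongr
        _ = 4 * q * (C0 + 1) * B := by ring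
    exact_mod_cast h3
  set PQ : Finset ℕ := (Ioc B (4 * B)).filter Nat.Prime with hPQ
  have hPm : ∀ l ∈ PQ, l.Prime ∧ B < l ∧ l ≤ 4 * B := by
    intro l hl
    rw [hPQ, mem_filter, mem_Ioc] at hl
    exact ⟨hl.2, hl.1.1, hl.1.2⟩
  set W : Finset ((Fin 3 → ℤ) × (Fin 3 → ℤ)) := S ×ˢ UU a q M g with hW
  let V : ℕ → Finset (Fin 3 → ℤ) := fun l =>
    W.biUnion fun p => UL a q C1 B M s l p.1 fun i => l * p.2 i
  -- lower bound for V l
  have hVl : ∀ l ∈ PQ, (S.card : ℝ) * (UU a q M g).card *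
      ((q * l * s / (M * q ^ 2)) ^ 3 / (2 * l)) ≤ ((V l).card : ℝ) := by
    intro l hl
    obtain ⟨hlp, hBl, hl4⟩ := hPm l hl
    have hlr : (0 : ℝ) < l := by exact_mod_cast hlp.pos
    have hdis : (W : Set ((Fin 3 → ℤ) × (Fin 3 → ℤ))).PairwiseDisjoint
        fun p => UL a q C1 B M s l p.1 fun i => l * p.2 i := by
      intro p hp p' hp' hpp
      rw [Function.onFun, Finset.disjoint_left]
      intro u hu hu'
      unfold UL at hu hu'
      rw [mem_filter] at hu hu'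
      apply hpp
      have hp2 := (mem_product.1 (mem_coe.1 hp)).2
      have hp2' := (mem_product.1 (mem_coe.1 hp')).2
      unfold UU at hp2 hp2'
      rw [mem_filter, Fintype.mem_piFinset] at hp2 hp2'
      have hqls : (0 : ℝ) < q * l * s := by positivity
      refine Prod.ext ?_ ?_
      · funext i
        have h1 := hu.2.1 i
        have h2 := hu'.2.1 i
        have h3 : (p.1 i : ℝ) < p'.1 i + 1 := by
          have := lt_of_le_of_lt h1.1 h2.2
          exact lt_of_mul_lt_mul_left this hqls.le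
        have h4 : (p'.1 i : ℝ) < p.1 i + 1 := by
          have := lt_of_le_of_lt h2.1 h1.2
          exact lt_of_mul_lt_mul_left this hqls.le
        have h5 : p.1 i < p'.1 i + 1 := by exact_mod_cast h3
        have h6 : p'.1 i < p.1 i + 1 := by exact_mod_cast h4
        omega
      · funext i
        have h1 := hu.2.2.1 i
        have h2 := hu'.2.2.1 i
        have h3 : (M * q ^ 2 : ℤ) ∣ (l : ℤ) * (p.2 i - p'.2 i) := by
          have h4 := dvd_sub h2 h1
          have e1 : u i - (l : ℤ) * p'.2 i - (u i - (l : ℤ) * p.2 i) =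
              (l : ℤ) * (p.2 i - p'.2 i) := by ring
          rwa [e1] at h4
        have hlq : Nat.Coprime l (M * q ^ 2) := by
          rw [hlp.coprime_iff_not_dvd]
          intro h
          rcases (Nat.Prime.dvd_mul hlp).1 h with h5 | h5
          · have := Nat.le_of_dvd (by omega) h5
            omega
          · have := Nat.le_of_dvd (by omega) (hlp.dvd_of_dvd_pow h5)
            omega
        have h4 : (M * q ^ 2 : ℤ) ∣ p.2 i - p'.2 i := by
          have h5 : IsCoprime ((M * q ^ 2 : ℕ) : ℤ) (l : ℤ) :=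
            Nat.isCoprime_iff_coprime.2 hlq.symm
          push_cast at h5
          exact h5.dvd_of_dvd_mul_left h3
        have h5 := mem_Ico.1 (hp2.1 i)
        have h6 := mem_Ico.1 (hp2'.1 i)
        obtain ⟨r, hr⟩ := h4
        have hm : (0 : ℤ) < M * q ^ 2 := by
          have : 0 < M * q ^ 2 := by positivity
          exact_mod_cast this
        have hr0 : r = 0 := by
          by_contra hne
          rcases lt_or_gt_of_ne hne with h7 | h7
          · have : (M * q ^ 2 : ℤ) * r ≤ (M * q ^ 2 : ℤ) * (-1) := by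
              apply mul_le_mul_of_nonneg_left _ hm.le
              omega
            nlinarith
          · have : (M * q ^ 2 : ℤ) * 1 ≤ (M * q ^ 2 : ℤ) * r := by
              apply mul_le_mul_of_nonneg_left _ hm.le
              omega
            nlinarith
        rw [hr0, mul_zero] at hr
        omega
    have hcard : (V l).card = ∑ p ∈ W, (UL a q C1 B M s l p.1 fun i => l * p.2 i).card :=
      card_biUnion hdis
    rw [hcard]
    push_cast
    calc (S.card : ℝ) * (UU a q M g).card * ((q * l * s / (M * q ^ 2)) ^ 3 / (2 * l))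
        = ∑ p ∈ W, ((q * l * s / (M * q ^ 2)) ^ 3 / (2 * l)) := by
          rw [sum_const, nsmul_eq_mul, hW, card_product]
          push_cast
          ring
      _ ≤ ∑ p ∈ W, ((UL a q C1 B M s l p.1 fun i => l * p.2 i).card : ℝ) := by
          refine sum_le_sum fun p hp => ?_
          have hp1 := (mem_product.1 hp).1
          refine hBc B hBBc l hlp hBl hl4 p.1 (fun i => l * p.2 i) (hKn p.1 hp1) _ ?_
          intro u
          unfold UL
          rw [mem_filter, mem_bx]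
          constructor
          · rintro ⟨-, h⟩
            exact h
          · intro h
            refine ⟨?_, h⟩
            have := (hub l p.1 hp1 hlp.pos hl4 u h.1).1
            intro i
            have h3 := this i
            push_cast
            exact h3
  -- the injection
  have hinj : (PQ.sigma V).card ≤ ((XP a q C1 B).filter fun x => (M : ℤ) ∣ qv g x ∧
      |((qv g x : ℤ) : ℝ)| ≤ κ * A * (B : ℝ) ^ 2).card := by
    refine card_le_card_of_injOn
      (fun p => mk5 (qv a p.2 / ((q : ℤ) * p.1)) ((q : ℤ) * p.1) p.2) ?_ ?_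
    · rintro ⟨l, u⟩ hp
      rw [mem_coe, mem_sigma] at hp
      obtain ⟨hl, hu⟩ := hp
      obtain ⟨hlp, hBl, hl4⟩ := hPm l hl
      obtain ⟨p, hpW, hup⟩ := mem_biUnion.1 hu
      have hp1 := (mem_product.1 hpW).1
      have hp2 := (mem_product.1 hpW).2
      unfold UL at hup
      rw [mem_filter] at hup
      unfold UU at hp2
      rw [mem_filter] at hp2
      obtain ⟨-, hc1', hc2, hc3, hc4⟩ := hup
      obtain ⟨hb1, hb2⟩ := hub l p.1 hp1 hlp.pos hl4 u hc1'
      obtain ⟨hpt, hMd⟩ := pt_of (C1 := C1) hq hM hlp hBl hl4 hqB hMB hp2.2 hb1 hc2 hc3 hc4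
      rw [mem_coe, mem_filter]
      refine ⟨(mem_XP hq).2 hpt, hMd, ?_⟩
      exact val_of hq hlp.pos hl4 hpt.zero (by positivity) hb2
    · rintro ⟨l, u⟩ hp ⟨l', u'⟩ hp' hll
      rw [mem_coe, mem_sigma] at hp hp'
      have h1 := congrFun hll 1
      have h2 := congrArg tl hll
      simp only [tl_mk5] at h2
      have h3 : (q : ℤ) * l = q * l' := h1
      have hqz : (q : ℤ) ≠ 0 := by
        have : (1 : ℤ) ≤ q := by exact_mod_cast hq
        omega
      have h4 : l = l' := by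
        have := mul_left_cancel₀ hqz h3
        exact_mod_cast this
      subst h4
      rw [h2]
  have hsig : ((PQ.sigma V).card : ℝ) = ∑ l ∈ PQ, ((V l).card : ℝ) := by
    rw [card_sigma]
    push_cast
    rfl
  -- numbers
  have hSc : cc / κ' ^ 2 ≤ S.card := by
    rw [div_le_iff₀ (by positivity)]
    exact hS
  have hterm : ∀ l ∈ PQ, cc ^ 4 / (32 * q ^ 5) * c1 * κ * (B : ℝ) ^ 2 / M ≤ ((V l).card : ℝ) := by
    intro l hl
    obtain ⟨hlp, hBl, hl4⟩ := hPm l hl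
    have hlr : (0 : ℝ) < l := by exact_mod_cast hlp.pos
    have hBlr : (B : ℝ) ≤ l := by exact_mod_cast hBl.le
    refine le_trans ?_ (hVl l hl)
    have e1 : (q * l * s / (M * q ^ 2)) ^ 3 / (2 * l) = (l : ℝ) ^ 2 * (s ^ 3 / (2 * M ^ 3 * q ^ 3)) := by
      field_simp
    rw [e1]
    calc cc ^ 4 / (32 * q ^ 5) * c1 * κ * (B : ℝ) ^ 2 / M
        = (cc / κ' ^ 2) * (c1 * (M : ℝ) ^ 2) * ((B : ℝ) ^ 2 * (s ^ 3 / (2 * M ^ 3 * q ^ 3))) := by
          rw [hs, hκ']
          field_simp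
          ring
      _ ≤ (S.card : ℝ) * (UU a q M g).card * ((l : ℝ) ^ 2 * (s ^ 3 / (2 * M ^ 3 * q ^ 3))) := by
          gcongr
  calc cc ^ 4 / (32 * q ^ 5) * c1 * κ * pb B * (B : ℝ) ^ 2 / M
      = ∑ l ∈ PQ, cc ^ 4 / (32 * q ^ 5) * c1 * κ * (B : ℝ) ^ 2 / M := by
        rw [sum_const, nsmul_eq_mul]
        unfold pb
        ring
    _ ≤ ∑ l ∈ PQ, ((V l).card : ℝ) := sum_le_sum hterm
    _ = ((PQ.sigma V).card : ℝ) := hsig.symm
    _ ≤ _ := by exact_mod_cast hinj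

end Pool.Agent.H7.HP
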