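import Pool.Agent.H7.HP.PairDefs
import Pool.Agent.H7.HP.Idt
import Pool.Agent.H7.HP.Sumz

set_option autoImplicit false
set_option linter.unusedSectionVars false

/-!
# [H7 HP NI] pairs with different primes, 110-180 lines

* `fib`: `q l u' - q l' u = k z` so `u ≡ -(q l')⁻¹ k z` modulo `l` (`l` does not divide `q l'`: `q ≤ B < l`; `l ≠ l'` primes):
  two such pairs have `u` congruent modulo `l`, and `u` (with `l, l', k, z`) determines `x` and `y` (`x1 = q l`, `x0 = h(u)/x1`,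
  `q l u' = k z + q l' u`). Use `cls`.
* `sum_ni`: for `p` in the sum put `z = zz`, `k = gk`: `0 < nm z ≤ Z`, `k * nm z ≤ dl ≤ 2 cx^2 B^2` (`zz_le`, `dl_le'`), `wt p ≤ 1 / nm z`; by
  `key_dvd` both primes divide `h(z) ≠ 0`, `|h(z)| ≤ ca a * Z^2 < B^4`, so by `primes_dvd` there are at most `4 * 4` pairs `(l, l')`. So the
  sum is at most `∑_z ∑_{k ≤ 2 cx^2 B^2 / nm z} 16 (2 C1 + 1)^3 / nm z ≤ 32 (2 C1 + 1)^3 cx^2 B^2 ∑_z 1 / (nm z)^2`; `sum_inv`.
-/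

namespace Pool.Agent.H7.HP

open Finset

private theorem ni_qv (a : Idx 3 → ℤ) (u : Fin 3 → ℤ) {U : ℤ} (hU : ∀ i, |u i| ≤ U) :
    |qv a u| ≤ ca a * U ^ 2 := by
  unfold qv ca
  push_cast
  rw [Finset.sum_mul]
  refine (Finset.abs_sum_le_sum_abs _ _).trans (Finset.sum_le_sum fun p _ => ?_)
  rw [abs_mul, abs_mul, pow_two]
  refine mul_le_mul_of_nonneg_left ?_ (abs_nonneg _)
  exact mul_le_mul (hU _) (hU _) (abs_nonneg _) ((abs_nonneg _).trans (hU p.1.1))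

open scoped Classical in
private theorem ni_mem {a : Idx 3 → ℤ} {q C1 B : ℕ} (hq : 1 ≤ q)
    {p : (Fin 5 → ℤ) × (Fin 5 → ℤ)} (h : p ∈ PR a q C1 B) :
    IsPt a q C1 B p.1 ∧ IsPt a q C1 B p.2 ∧ p.1 ≠ p.2 := by
  unfold PR at h
  rw [Finset.mem_filter, Finset.mem_product] at h
  exact ⟨(mem_XP hq).1 h.1.1, (mem_XP hq).1 h.1.2, h.2⟩

private theorem ni_ext {a : Idx 3 → ℤ} {q C1 B : ℕ} (hq : 1 ≤ q) {x x' : Fin 5 → ℤ}
    (hx : IsPt a q C1 B x) (hx' : IsPt a q C1 B x') (hl : lp q x = lp q x')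
    (ht : tl x = tl x') : x = x' := by
  have h1 : x 1 = x' 1 := by
    rw [(pt_lp hq hx).2.2.2.1, (pt_lp hq hx').2.2.2.1, hl]
  have h2 : 0 < x 1 := lt_of_le_of_lt (Int.natCast_nonneg B) (pt_x1 hq hx).1
  have h3 : x 0 = x' 0 := by
    have e1 := hx.zero
    have e2 := hx'.zero
    unfold ff at e1 e2
    rw [← ht, ← h1] at e2
    have e3 : x 1 * x 0 = x 1 * x' 0 := by linarith
    exact mul_left_cancel₀ h2.ne' e3
  rw [← mk5_tl x, ← mk5_tl x', h1, h3, ht]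

open scoped Classical in
theorem fib (a : Idx 3 → ℤ) (q C1 B : ℕ) (hq : 1 ≤ q) (hqB : q ≤ B) (z : Fin 3 → ℤ)
    (k l l' : ℕ) (hll : l ≠ l') :
    ((PR a q C1 B).filter fun p => zz p.1 p.2 = z ∧ gk p.1 p.2 = k ∧ lp q p.1 = l ∧
      lp q p.2 = l').card ≤ (2 * C1 + 1) ^ 3 := by
  set A := (PR a q C1 B).filter fun p => zz p.1 p.2 = z ∧ gk p.1 p.2 = k ∧ lp q p.1 = l ∧
      lp q p.2 = l' with hA
  rcases Finset.eq_empty_or_nonempty A with h0 | ⟨p0, hp0⟩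
  · rw [h0, Finset.card_empty]
    exact Nat.zero_le _
  have hmem : ∀ p ∈ A, IsPt a q C1 B p.1 ∧ IsPt a q C1 B p.2 ∧ zz p.1 p.2 = z ∧
      gk p.1 p.2 = k ∧ lp q p.1 = l ∧ lp q p.2 = l' := by
    intro p hp
    rw [hA, Finset.mem_filter] at hp
    obtain ⟨h1, h2, _⟩ := ni_mem hq hp.1
    exact ⟨h1, h2, hp.2⟩
  obtain ⟨hx0, hy0, hz0, hk0, hl0, hl0'⟩ := hmem p0 hp0
  have hlp : l.Prime := by
    rw [← hl0]
    exact (pt_lp hq hx0).1
  have hlp' : l'.Prime := by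
    rw [← hl0']
    exact (pt_lp hq hy0).1
  have hlB : B < l := by
    rw [← hl0]
    exact (pt_lp hq hx0).2.1
  have hcop : IsCoprime (l : ℤ) ((q : ℤ) * l') := by
    have h1 : Nat.Coprime l (q * l') := by
      apply Nat.Coprime.mul_right
      · rw [Nat.Prime.coprime_iff_not_dvd hlp]
        intro h
        have := Nat.le_of_dvd (by omega) h
        omega
      · exact (Nat.coprime_primes hlp hlp').2 hll
    have h2 := Nat.isCoprime_iff_coprime.2 h1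
    push_cast at h2
    exact h2
  have hrel : ∀ p ∈ A, ∀ i, (k : ℤ) * z i = q * l * tl p.2 i - q * l' * tl p.1 i := by
    intro p hp i
    obtain ⟨hx, hy, hz, hk, hl, hl'⟩ := hmem p hp
    have h1 := zz_mul p.1 p.2 i
    rw [hz, hk, (pt_lp hq hx).2.2.2.1, (pt_lp hq hy).2.2.2.1, hl, hl'] at h1
    exact h1
  have hql : (q : ℤ) * l ≠ 0 := by
    have h1 : (0 : ℤ) < q := by exact_mod_cast hq
    have h2 : (0 : ℤ) < l := by exact_mod_cast hlp.pos
    exact (mul_pos h1 h2).ne'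
  refine (Finset.card_le_card_of_injOn (fun p => tl p.1) (t := (bx 3 (C1 * B)).filter
    fun u => ∀ i, (l : ℤ) ∣ u i - tl p0.1 i) ?_ ?_).trans (cls C1 B l hlB (tl p0.1))
  · intro p hp
    have hp' : p ∈ A := hp
    obtain ⟨hx, hy, hz, hk, hl, hl'⟩ := hmem p hp'
    rw [Finset.mem_coe, Finset.mem_filter, mem_bx]
    refine ⟨fun i => ?_, fun i => ?_⟩
    · have h1 := hx.bound i
      push_cast
      exact h1
    · have h1 := hrel p hp' i
      have h2 := hrel p0 hp0 i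
      have h3 : (l : ℤ) ∣ (q * l') * (tl p.1 i - tl p0.1 i) :=
        ⟨q * (tl p.2 i - tl p0.2 i), by linear_combination h1 - h2⟩
      exact hcop.dvd_of_dvd_mul_left h3
  · intro p hp p' hp' hpp
    have hp1 : p ∈ A := hp
    have hp1' : p' ∈ A := hp'
    have hpp' : tl p.1 = tl p'.1 := hpp
    obtain ⟨hx, hy, hz, hk, hl, hl'⟩ := hmem p hp1
    obtain ⟨hx', hy', _, _, hl2, hl2'⟩ := hmem p' hp1'
    have h1 : p.1 = p'.1 := ni_ext hq hx hx' (hl.trans hl2.symm) hpp'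
    have h2 : tl p.2 = tl p'.2 := by
      funext i
      have e1 := hrel p hp1 i
      have e2 := hrel p' hp1' i
      rw [← hpp'] at e2
      have e3 : (q : ℤ) * l * tl p.2 i = q * l * tl p'.2 i := by linarith
      exact mul_left_cancel₀ hql e3
    have h3 : p.2 = p'.2 := ni_ext hq hy hy' (hl'.trans hl2'.symm) h2
    exact Prod.ext h1 h3

open scoped Classical in
theorem sum_ni (a : Idx 3 → ℤ) (q C1 : ℕ) (hq : 1 ≤ q) (hC1 : 1 ≤ C1) : ∃ C : ℝ, 0 < C ∧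
    ∀ B Z : ℕ, 2 ≤ B → q ≤ B → ca a * Z ^ 2 < B ^ 4 →
      ∑ p ∈ (PR a q C1 B).filter (fun p => lp q p.1 ≠ lp q p.2 ∧ qv a (zz p.1 p.2) ≠ 0 ∧
        nm (zz p.1 p.2) ≤ Z), wt p ≤ C * (B : ℝ) ^ 2 * Z := by
  refine ⟨832 * (2 * C1 + 1) ^ 3 * (cx a q C1 : ℝ) ^ 2, ?_, ?_⟩
  · have : 0 < cx a q C1 := by
      unfold cx
      positivity
    positivity
  intro B Z hB hqB hZ
  set T := (PR a q C1 B).filter (fun p => lp q p.1 ≠ lp q p.2 ∧ qv a (zz p.1 p.2) ≠ 0 ∧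
        nm (zz p.1 p.2) ≤ Z) with hT
  have hTmem : ∀ p ∈ T, IsPt a q C1 B p.1 ∧ IsPt a q C1 B p.2 ∧ p.1 ≠ p.2 ∧
      lp q p.1 ≠ lp q p.2 ∧ qv a (zz p.1 p.2) ≠ 0 ∧ nm (zz p.1 p.2) ≤ Z := by
    intro p hp
    rw [hT, Finset.mem_filter] at hp
    obtain ⟨h1, h2, h3⟩ := ni_mem hq hp.1
    exact ⟨h1, h2, h3, hp.2⟩
  have hnmpos : ∀ p ∈ T, 0 < nm (zz p.1 p.2) := by
    intro p hp
    obtain ⟨h1, h2, h3, _⟩ := hTmem p hp
    exact nm_pos (zz_ne hq h1 h2 h3)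
  have hwt : ∀ p ∈ T, wt p ≤ 1 / (nm (zz p.1 p.2) : ℝ) := by
    intro p hp
    have h1 := hnmpos p hp
    have h2 := zz_le p.1 p.2
    unfold wt
    rcases Nat.eq_zero_or_pos (dl p.1 p.2) with h3 | h3
    · rw [h3, Nat.cast_zero, div_zero]
      positivity
    · rw [div_le_div_iff₀ (by exact_mod_cast h3) (by exact_mod_cast h1), one_mul]
      exact_mod_cast h2
  set t := (bx 3 Z).filter (fun z => z ≠ 0) with ht
  have hmaps : ∀ p ∈ T, zz p.1 p.2 ∈ t := by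
    intro p hp
    obtain ⟨h1, h2, h3, _, _, h6⟩ := hTmem p hp
    rw [ht, Finset.mem_filter, mem_bx]
    refine ⟨fun i => (le_nm _ i).trans ?_, zz_ne hq h1 h2 h3⟩
    exact_mod_cast h6
  have hcard : ∀ z ∈ t, ((T.filter fun p => zz p.1 p.2 = z).card : ℝ) * (1 / (nm z : ℝ)) ≤
      32 * (2 * C1 + 1) ^ 3 * (cx a q C1 : ℝ) ^ 2 * (B : ℝ) ^ 2 * (1 / (nm z : ℝ) ^ 2) := by
    intro z hz
    rw [ht, Finset.mem_filter, mem_bx] at hz
    have hznm : 0 < nm z := nm_pos hz.2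
    have hznmR : (0 : ℝ) < nm z := by exact_mod_cast hznm
    by_cases hqz : qv a z = 0
    · have hempty : (T.filter fun p => zz p.1 p.2 = z) = ∅ := by
        rw [Finset.eq_empty_iff_forall_notMem]
        intro p hp
        rw [Finset.mem_filter] at hp
        obtain ⟨_, _, _, _, h5, _⟩ := hTmem p hp.1
        rw [hp.2] at h5
        exact h5 hqz
      rw [hempty, Finset.card_empty, Nat.cast_zero, zero_mul]
      positivity
    set K := (2 * cx a q C1 ^ 2 * B ^ 2) / nm z with hK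
    set Lz := (Icc 1 (4 * B)).filter fun l => l.Prime ∧ B < l ∧ (l : ℤ) ∣ qv a z with hLz
    have hLcard : Lz.card ≤ 4 := by
      apply primes_dvd B 4 (qv a z) hB hqz
      have h1 := ni_qv a z hz.1
      refine h1.trans_lt ?_
      exact_mod_cast hZ
    have h1 : (T.filter fun p => zz p.1 p.2 = z).card ≤
        (2 * C1 + 1) ^ 3 * (Icc 1 K ×ˢ (Lz ×ˢ Lz)).card := by
      refine Finset.card_le_mul_card_image_of_maps_to
        (f := fun p : (Fin 5 → ℤ) × (Fin 5 → ℤ) => (gk p.1 p.2, lp q p.1, lp q p.2)) ?_ _ ?_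
      · intro p hp
        rw [Finset.mem_filter] at hp
        obtain ⟨hx, hy, hxy, hne, hqv, hnm⟩ := hTmem p hp.1
        rw [Finset.mem_product, Finset.mem_product, Finset.mem_Icc]
        have hkd := key_dvd hq hx hy hxy
        rw [hp.2] at hkd
        have hd1 : (lp q p.1 : ℤ) ∣ qv a z :=
          Dvd.dvd.trans ⟨(q : ℤ) ^ 2 * lp q p.2, by ring⟩ hkd
        have hd2 : (lp q p.2 : ℤ) ∣ qv a z :=
          Dvd.dvd.trans ⟨(q : ℤ) ^ 2 * lp q p.1, by ring⟩ hkd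
        have hgp : 0 < gk p.1 p.2 := gk_pos (pt_ne hq hx hy hxy)
        refine ⟨⟨hgp, ?_⟩, ?_, ?_⟩
        · rw [hK, Nat.le_div_iff_mul_le hznm]
          have h2 := zz_le p.1 p.2
          rw [hp.2] at h2
          exact h2.trans (dl_le' hq hx hy)
        · rw [hLz, Finset.mem_filter, Finset.mem_Icc]
          obtain ⟨e1, e2, e3, _, _⟩ := pt_lp hq hx
          exact ⟨⟨e1.one_lt.le, e3⟩, e1, e2, hd1⟩
        · rw [hLz, Finset.mem_filter, Finset.mem_Icc]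
          obtain ⟨e1, e2, e3, _, _⟩ := pt_lp hq hy
          exact ⟨⟨e1.one_lt.le, e3⟩, e1, e2, hd2⟩
      · rintro ⟨k, l, l'⟩ _
        by_cases hll : l = l'
        · have hempty : ((T.filter fun p => zz p.1 p.2 = z).filter fun p =>
              (gk p.1 p.2, lp q p.1, lp q p.2) = (k, l, l')) = ∅ := by
            rw [Finset.eq_empty_iff_forall_notMem]
            intro p hp
            rw [Finset.mem_filter, Finset.mem_filter, Prod.mk.injEq, Prod.mk.injEq] at hp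
            obtain ⟨_, _, _, hne, _, _⟩ := hTmem p hp.1.1
            exact hne (by rw [hp.2.2.1, hp.2.2.2, hll])
          rw [hempty, Finset.card_empty]
          exact Nat.zero_le _
        · refine (Finset.card_le_card ?_).trans (fib a q C1 B hq hqB z k l l' hll)
          intro p hp
          rw [Finset.mem_filter, Finset.mem_filter, Prod.mk.injEq, Prod.mk.injEq] at hp
          rw [Finset.mem_filter]
          have hpT := hp.1.1
          rw [hT, Finset.mem_filter] at hpT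
          exact ⟨hpT.1, hp.1.2, hp.2.1, hp.2.2.1, hp.2.2.2⟩
    have h2 : (Icc 1 K ×ˢ (Lz ×ˢ Lz)).card ≤ K * 16 := by
      rw [Finset.card_product, Finset.card_product, Nat.card_Icc, Nat.add_sub_cancel]
      have : Lz.card * Lz.card ≤ 4 * 4 := Nat.mul_le_mul hLcard hLcard
      calc K * (Lz.card * Lz.card) ≤ K * (4 * 4) :=
            Nat.mul_le_mul_left K this
        _ = K * 16 := by norm_num
    have h3 : (T.filter fun p => zz p.1 p.2 = z).card ≤ (2 * C1 + 1) ^ 3 * (K * 16) :=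
      h1.trans (Nat.mul_le_mul_left _ h2)
    have h4 : (K : ℝ) ≤ (2 * (cx a q C1 : ℝ) ^ 2 * (B : ℝ) ^ 2) / nm z := by
      have h5 : (((2 * cx a q C1 ^ 2 * B ^ 2) / nm z : ℕ) : ℝ) ≤
          ((2 * cx a q C1 ^ 2 * B ^ 2 : ℕ) : ℝ) / (nm z : ℝ) := Nat.cast_div_le
      push_cast at h5
      rw [hK]
      exact h5
    have h6 : ((T.filter fun p => zz p.1 p.2 = z).card : ℝ) ≤
        (2 * C1 + 1) ^ 3 * (((2 * (cx a q C1 : ℝ) ^ 2 * (B : ℝ) ^ 2) / nm z) * 16) := by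
      have h7 : ((T.filter fun p => zz p.1 p.2 = z).card : ℝ) ≤
          ((2 * (C1 : ℝ) + 1) ^ 3 * (K * 16)) := by exact_mod_cast h3
      refine h7.trans ?_
      gcongr
    calc ((T.filter fun p => zz p.1 p.2 = z).card : ℝ) * (1 / (nm z : ℝ))
        ≤ ((2 * C1 + 1) ^ 3 * (((2 * (cx a q C1 : ℝ) ^ 2 * (B : ℝ) ^ 2) / nm z) * 16)) *
          (1 / (nm z : ℝ)) := mul_le_mul_of_nonneg_right h6 (by positivity)
      _ = 32 * (2 * C1 + 1) ^ 3 * (cx a q C1 : ℝ) ^ 2 * (B : ℝ) ^ 2 * (1 / (nm z : ℝ) ^ 2) := by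
          field_simp
          ring
  calc ∑ p ∈ T, wt p ≤ ∑ p ∈ T, 1 / (nm (zz p.1 p.2) : ℝ) := Finset.sum_le_sum hwt
    _ = ∑ z ∈ t, ∑ p ∈ T.filter (fun p => zz p.1 p.2 = z), 1 / (nm (zz p.1 p.2) : ℝ) :=
        (Finset.sum_fiberwise_of_maps_to hmaps _).symm
    _ = ∑ z ∈ t, ((T.filter fun p => zz p.1 p.2 = z).card : ℝ) * (1 / (nm z : ℝ)) := by
        apply Finset.sum_congr rfl
        intro z _
        have h8 : ∀ p ∈ T.filter (fun p => zz p.1 p.2 = z), 1 / (nm (zz p.1 p.2) : ℝ) =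
            1 / (nm z : ℝ) := by
          intro p hp
          rw [(Finset.mem_filter.1 hp).2]
        rw [Finset.sum_congr rfl h8, Finset.sum_const, nsmul_eq_mul]
    _ ≤ ∑ z ∈ t, 32 * (2 * C1 + 1) ^ 3 * (cx a q C1 : ℝ) ^ 2 * (B : ℝ) ^ 2 *
        (1 / (nm z : ℝ) ^ 2) := Finset.sum_le_sum hcard
    _ = 32 * (2 * C1 + 1) ^ 3 * (cx a q C1 : ℝ) ^ 2 * (B : ℝ) ^ 2 *
        ∑ z ∈ t, (1 / (nm z : ℝ) ^ 2) := by rw [Finset.mul_sum]
    _ ≤ 32 * (2 * C1 + 1) ^ 3 * (cx a q C1 : ℝ) ^ 2 * (B : ℝ) ^ 2 * (26 * Z) :=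
        mul_le_mul_of_nonneg_left (sum_inv Z) (by positivity)
    _ = 832 * (2 * C1 + 1) ^ 3 * (cx a q C1 : ℝ) ^ 2 * (B : ℝ) ^ 2 * Z := by ring

end Pool.Agent.H7.HP
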