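import Pool.Agent.H7.HP.Ni

set_option autoImplicit false
set_option linter.unusedSectionVars false

/-!
# [H7 HP NJ] pairs with different primes, isotropic difference, 60-100 lines

As `sum_ni` (module NI): for `p` in the sum put `z = zz`, `k = gk`: `k * nm z ≤ dl ≤ 2 cx^2 B^2` (`zz_le`, `dl_le'`), `wt p ≤ 1 / nm z`, `h(z) = 0`, `nm z ≥ z0 ≥ 1`, `nm z ≤ 2 cx^2 B^2`, at most `(4B)^2` pairs `(l, l')`, and `fib`: at most `(2 C1 + 1)^3` pairs of points for given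
`z, k, l, l'`. So the sum is at most `∑_z ∑_{k ≤ 2 cx^2 B^2 / nm z} 16 B^2 (2 C1 + 1)^3 / nm z ≤ C B^4 ∑_z 1/(nm z)^2`, and `sum_tail` (hypothesis `hz`).
-/

namespace Pool.Agent.H7.HP

open Finset

private theorem nj_nm_mem (n T : ℕ) (z : Fin n → ℤ) (h : nm z ≤ T) : z ∈ bx n T := by
  unfold bx
  rw [Fintype.mem_piFinset]
  intro i
  rw [mem_Icc]
  have h1 := le_nm z i
  rw [abs_le] at h1
  have h2 : (nm z : ℤ) ≤ T := by exact_mod_cast h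
  constructor <;> linarith [h1.1, h1.2]

open scoped Classical in
private theorem nj_card (a : Idx 3 → ℤ) (q C1 B D : ℕ) (hq : 1 ≤ q) (hqB : q ≤ B)
    (S : Finset ((Fin 5 → ℤ) × (Fin 5 → ℤ))) (z : Fin 3 → ℤ) (hnz : 1 ≤ nm z)
    (hS : ∀ p ∈ S, p ∈ PR a q C1 B ∧ lp q p.1 ≠ lp q p.2 ∧ zz p.1 p.2 = z ∧
      1 ≤ gk p.1 p.2 ∧ gk p.1 p.2 * nm z ≤ D ∧ lp q p.1 ∈ Icc 1 (4 * B) ∧
      lp q p.2 ∈ Icc 1 (4 * B)) :
    S.card ≤ (D / nm z) * ((4 * B) * (4 * B)) * (2 * C1 + 1) ^ 3 := by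
  have h1 := card_eq_sum_card_fiberwise (s := S)
    (t := Icc 1 (D / nm z) ×ˢ (Icc 1 (4 * B) ×ˢ Icc 1 (4 * B)))
    (f := fun p => (gk p.1 p.2, lp q p.1, lp q p.2)) (by
      intro p hp
      obtain ⟨_, _, _, hk1, hk2, hl, hl'⟩ := hS p hp
      rw [mem_coe, mem_product, mem_product]
      refine ⟨?_, hl, hl'⟩
      rw [mem_Icc]
      exact ⟨hk1, (Nat.le_div_iff_mul_le hnz).2 hk2⟩)
  rw [h1]
  have h2 : ∀ t ∈ Icc 1 (D / nm z) ×ˢ (Icc 1 (4 * B) ×ˢ Icc 1 (4 * B)),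
      (S.filter fun p => (gk p.1 p.2, lp q p.1, lp q p.2) = t).card ≤ (2 * C1 + 1) ^ 3 := by
    rintro ⟨k, l, l'⟩ _
    by_cases hll : l = l'
    · have h3 : (S.filter fun p => (gk p.1 p.2, lp q p.1, lp q p.2) = (k, l, l')) = ∅ := by
        rw [filter_eq_empty_iff]
        intro p hp he
        simp only [Prod.mk.injEq] at he
        apply (hS p hp).2.1
        rw [he.2.1, he.2.2, hll]
      rw [h3, card_empty]
      exact Nat.zero_le _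
    · refine le_trans (card_le_card ?_) (fib a q C1 B hq hqB z k l l' hll)
      intro p hp
      rw [mem_filter] at hp
      simp only [Prod.mk.injEq] at hp
      rw [mem_filter]
      exact ⟨(hS p hp.1).1, (hS p hp.1).2.2.1, hp.2.1, hp.2.2.1, hp.2.2.2⟩
  refine (sum_le_sum h2).trans ?_
  rw [sum_const, card_product, card_product, Nat.card_Icc, Nat.card_Icc, smul_eq_mul,
    Nat.add_sub_cancel, Nat.add_sub_cancel]

open scoped Classical in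
theorem sum_iso (a : Idx 3 → ℤ) (q C1 : ℕ) (hq : 1 ≤ q) (hC1 : 1 ≤ C1)
    (hz : ∃ C : ℝ, 0 < C ∧ ∀ E : ℕ, 1 ≤ E →
      (((bx 3 E).filter fun z => qv a z = 0).card : ℝ) ≤ C * (E : ℝ) ^ (3 / 2 : ℝ)) :
    ∃ C : ℝ, 0 < C ∧ ∀ B z0 : ℕ, 1 ≤ B → q ≤ B → 1 ≤ z0 →
      ∑ p ∈ (PR a q C1 B).filter (fun p => lp q p.1 ≠ lp q p.2 ∧ qv a (zz p.1 p.2) = 0 ∧
        z0 ≤ nm (zz p.1 p.2)), wt p ≤ C * (B : ℝ) ^ 4 / (z0 : ℝ) ^ (1 / 2 : ℝ) := by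
  obtain ⟨C, hC, hCE⟩ := hz
  have hcx : 0 < cx a q C1 := by
    unfold cx
    omega
  refine ⟨640 * (cx a q C1 : ℝ) ^ 2 * (2 * C1 + 1) ^ 3 * C, by positivity, ?_⟩
  intro B z0 hB hqB hz0
  obtain ⟨D, hD⟩ : ∃ D : ℕ, D = 2 * cx a q C1 ^ 2 * B ^ 2 := ⟨_, rfl⟩
  obtain ⟨S, hS⟩ : ∃ S : Finset ((Fin 5 → ℤ) × (Fin 5 → ℤ)),
    S = (PR a q C1 B).filter (fun p => lp q p.1 ≠ lp q p.2 ∧ qv a (zz p.1 p.2) = 0 ∧
        z0 ≤ nm (zz p.1 p.2)) := ⟨_, rfl⟩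
  rw [← hS]
  have hmem : ∀ p ∈ S, p ∈ PR a q C1 B ∧ lp q p.1 ≠ lp q p.2 ∧ qv a (zz p.1 p.2) = 0 ∧
      z0 ≤ nm (zz p.1 p.2) ∧ 1 ≤ gk p.1 p.2 ∧ gk p.1 p.2 * nm (zz p.1 p.2) ≤ dl p.1 p.2 ∧
      dl p.1 p.2 ≤ D ∧ lp q p.1 ∈ Icc 1 (4 * B) ∧ lp q p.2 ∈ Icc 1 (4 * B) := by
    intro p hp
    rw [hS, mem_filter] at hp
    obtain ⟨hp1, hp2, hp3, hp4⟩ := hp
    have hp1' := hp1
    unfold PR at hp1'
    rw [mem_filter, mem_product, mem_XP hq, mem_XP hq] at hp1'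
    obtain ⟨⟨hx, hy⟩, hxy⟩ := hp1'
    refine ⟨hp1, hp2, hp3, hp4, gk_pos (pt_ne hq hx hy hxy), zz_le _ _, ?_, ?_, ?_⟩
    · rw [hD]
      exact dl_le' hq hx hy
    · obtain ⟨h1, _, h3, _⟩ := pt_lp hq hx
      rw [mem_Icc]
      exact ⟨h1.one_lt.le, h3⟩
    · obtain ⟨h1, _, h3, _⟩ := pt_lp hq hy
      rw [mem_Icc]
      exact ⟨h1.one_lt.le, h3⟩
  have hwt : ∀ p ∈ S, wt p ≤ 1 / (nm (zz p.1 p.2) : ℝ) := by
    intro p hp
    obtain ⟨_, _, _, h4, h5, h6, h7, _, _⟩ := hmem p hp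
    have hn : (0 : ℝ) < nm (zz p.1 p.2) := by
      have : 0 < nm (zz p.1 p.2) := by omega
      exact_mod_cast this
    have hk : (0 : ℝ) < gk p.1 p.2 := by
      have : 0 < gk p.1 p.2 := by omega
      exact_mod_cast this
    have h8 : (gk p.1 p.2 : ℝ) * nm (zz p.1 p.2) ≤ dl p.1 p.2 := by exact_mod_cast h6
    unfold wt
    rw [div_le_div_iff₀ (lt_of_lt_of_le (mul_pos hk hn) h8) hn, one_mul]
    exact h8
  obtain ⟨Z, hZ⟩ : ∃ Z : Finset (Fin 3 → ℤ),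
    Z = (bx 3 D).filter (fun z => qv a z = 0 ∧ z0 ≤ nm z) := ⟨_, rfl⟩
  have hmaps : ∀ p ∈ S, zz p.1 p.2 ∈ Z := by
    intro p hp
    obtain ⟨_, _, h3, h4, h5, h6, h7, _, _⟩ := hmem p hp
    rw [hZ, mem_filter]
    refine ⟨nj_nm_mem 3 D _ ?_, h3, h4⟩
    calc nm (zz p.1 p.2) = 1 * nm (zz p.1 p.2) := (one_mul _).symm
      _ ≤ gk p.1 p.2 * nm (zz p.1 p.2) := Nat.mul_le_mul_right _ h5
      _ ≤ D := h6.trans h7
  have hfin : ∀ z ∈ Z, ∑ p ∈ S.filter (fun p => zz p.1 p.2 = z), wt p ≤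
      (D : ℝ) * (16 * (B : ℝ) ^ 2) * (2 * C1 + 1) ^ 3 * (1 / (nm z : ℝ) ^ 2) := by
    intro z hzZ
    rw [hZ, mem_filter] at hzZ
    have hnz : 1 ≤ nm z := by omega
    have hn : (0 : ℝ) < nm z := by
      have : 0 < nm z := by omega
      exact_mod_cast this
    have hc := nj_card a q C1 B D hq hqB (S.filter (fun p => zz p.1 p.2 = z)) z hnz (by
      intro p hp
      rw [mem_filter] at hp
      obtain ⟨h1, h2, h3, h4, h5, h6, h7, h8, h9⟩ := hmem p hp.1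
      rw [hp.2] at h6
      exact ⟨h1, h2, hp.2, h5, h6.trans h7, h8, h9⟩)
    have h1 : ∀ p ∈ S.filter (fun p => zz p.1 p.2 = z), wt p ≤ 1 / (nm z : ℝ) := by
      intro p hp
      rw [mem_filter] at hp
      have := hwt p hp.1
      rwa [hp.2] at this
    refine (sum_le_sum h1).trans ?_
    rw [sum_const, nsmul_eq_mul]
    have hc' : ((S.filter (fun p => zz p.1 p.2 = z)).card : ℝ) ≤
        (D : ℝ) / nm z * ((4 * B) * (4 * B)) * (2 * C1 + 1) ^ 3 := by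
      have h2 : ((S.filter (fun p => zz p.1 p.2 = z)).card : ℝ) ≤
          (((D / nm z) * ((4 * B) * (4 * B)) * (2 * C1 + 1) ^ 3 : ℕ) : ℝ) := by
        exact_mod_cast hc
      refine h2.trans ?_
      push_cast
      have h3 : ((D / nm z : ℕ) : ℝ) ≤ (D : ℝ) / nm z := Nat.cast_div_le
      gcongr
    calc ((S.filter (fun p => zz p.1 p.2 = z)).card : ℝ) * (1 / (nm z : ℝ)) ≤
        ((D : ℝ) / nm z * ((4 * B) * (4 * B)) * (2 * C1 + 1) ^ 3) * (1 / (nm z : ℝ)) :=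
          mul_le_mul_of_nonneg_right hc' (by positivity)
      _ = (D : ℝ) * (16 * (B : ℝ) ^ 2) * (2 * C1 + 1) ^ 3 * (1 / (nm z : ℝ) ^ 2) := by
          field_simp
          ring
  rw [← sum_fiberwise_of_maps_to hmaps]
  refine (sum_le_sum hfin).trans ?_
  rw [← mul_sum]
  have htail := sum_tail C hC.le (fun z => qv a z = 0) hCE z0 D hz0
  rw [← hZ] at htail
  refine (mul_le_mul_of_nonneg_left htail (by positivity)).trans (le_of_eq ?_)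
  rw [hD]
  push_cast
  ring

end Pool.Agent.H7.HP
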