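import Pool.Agent.H7.HP.Mnr

set_option autoImplicit false
set_option linter.unusedSectionVars false

/-!
# [H7 HP PTS] elementary facts about the points, 100-160 lines

`x = (x0, x1, u)`, `u = tl x`, `x1 = q l`, `l = lp q x`.
* `pt_lp`: `x 1 / q = l`. `pt_x1`: `B < q l ≤ 4 q B`.
* `pt_mem`: `x0 x1 = h(u)`, `|h(u)| ≤ ca a * (C1 B)^2`, `x1 > B`, so `|x0| ≤ ca a * C1^2 * B`.
* `pt_ne`: if all minors vanish then `y = ± x` (`eq_of_mn`) and `x1, y1 > 0`.
* `zz_mul`: `gk ∣ mn x y 1 i`. `zz_ne`: if `zz = 0` then `x1 u' = y1 u`, so also `x1^2 y0 y1 = h(x1 u') = h(y1 u) = y1^2 x0 x1`,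
  `x1 y0 = y1 x0`, all minors `mn x y 1 i` vanish, hence all minors (`x1 ≠ 0`: `x1 mn x y i j = x i mn x y 1 j - x j mn x y 1 i`).
* `zz_le`: `k z_i = mn x y 1 (i+2)`.
* `dl_zz`: with `k|z| = T`, `T ≤ 8 q C1 B^2`: `x1 mn x y i j = x i mn x y 1 j - x j mn x y 1 i`; for `i, j ≥ 2` this gives
  `|mn x y i j| ≤ 2 C1 T`; `x1 y1 (x0 y1 - x1 y0) = h(y1 u) - h(x1 u') = -(h(b - a) + pl(a, b - a))`, `a = y1 u`, `b = x1 u'`, `|b - a| = T`,
  `|a| ≤ 4 q C1 B^2`, `x1 y1 ≥ B^2`: `|mn x y 0 1| ≤ 16 (ca a) q C1 T`; then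
  `x1 mn x y 0 j = x 0 mn x y 1 j - x j mn x y 1 0`, `|x 0| ≤ cx * B`.
-/

namespace Pool.Agent.H7.HP

open Finset

/-- the prime of a point -/
def lp (q : ℕ) (x : Fin 5 → ℤ) : ℕ := (x 1 / q).toNat

/-- the vector `(x1 u' - y1 u) / k` -/
def zz (x y : Fin 5 → ℤ) : Fin 3 → ℤ := fun i => (x 1 * tl y i - y 1 * tl x i) / gk x y

/-- the sup norm -/
def nm {n : ℕ} (z : Fin n → ℤ) : ℕ := univ.sup fun i => (z i).natAbs

theorem le_nm {n : ℕ} (z : Fin n → ℤ) (i : Fin n) : |z i| ≤ nm z := by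
  have h : (z i).natAbs ≤ nm z :=
    Finset.le_sup (f := fun i => (z i).natAbs) (mem_univ i)
  rw [← Int.natCast_natAbs]
  exact_mod_cast h

theorem nm_le {n T : ℕ} {z : Fin n → ℤ} (h : ∀ i, |z i| ≤ T) : nm z ≤ T := by
  refine Finset.sup_le fun i _ => ?_
  have h1 := h i
  rw [← Int.natCast_natAbs] at h1
  exact_mod_cast h1

theorem nm_pos {n : ℕ} {z : Fin n → ℤ} (h : z ≠ 0) : 0 < nm z := by
  by_contra h0
  apply h
  funext i
  have h1 := le_nm z i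
  have h2 : nm z = 0 := by omega
  rw [h2] at h1
  have h3 := abs_nonneg (z i)
  exact abs_eq_zero.1 (le_antisymm (by exact_mod_cast h1) h3)

theorem nm_att {n : ℕ} (z : Fin (n + 1) → ℤ) : ∃ i, |z i| = nm z := by
  obtain ⟨i, _, hi⟩ := Finset.exists_mem_eq_sup (univ : Finset (Fin (n + 1))) ⟨0, mem_univ 0⟩
    (fun i => (z i).natAbs)
  refine ⟨i, ?_⟩
  rw [← Int.natCast_natAbs]
  unfold nm
  rw [hi]

variable {a : Idx 3 → ℤ} {q C1 B : ℕ} {x y : Fin 5 → ℤ}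

theorem pt_lp (hq : 1 ≤ q) (h : IsPt a q C1 B x) : (lp q x).Prime ∧ B < lp q x ∧
    lp q x ≤ 4 * B ∧ x 1 = q * lp q x ∧ ¬ ∀ i, (lp q x : ℤ) ∣ tl x i := by
  obtain ⟨l, h1, h2, h3, h4, h5⟩ := h.prime
  have h6 : lp q x = l := by
    unfold lp
    rw [h4, Int.mul_ediv_cancel_left _ (by exact_mod_cast (by omega : q ≠ 0))]
    exact Int.toNat_natCast l
  rw [h6]
  exact ⟨h1, h2, h3, h4, h5⟩

theorem pt_x1 (hq : 1 ≤ q) (h : IsPt a q C1 B x) : (B : ℤ) < x 1 ∧ x 1 ≤ 4 * q * B := by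
  obtain ⟨_, h2, h3, h4, _⟩ := pt_lp hq h
  rw [h4]
  have hq' : (1 : ℤ) ≤ q := by exact_mod_cast hq
  have h2' : (B : ℤ) < lp q x := by exact_mod_cast h2
  have h3' : (lp q x : ℤ) ≤ 4 * B := by exact_mod_cast h3
  have hB : (0 : ℤ) ≤ B := Int.natCast_nonneg B
  constructor
  · nlinarith
  · nlinarith

private theorem pts_tl (x : Fin 5 → ℤ) (j : Fin 5) (h0 : j ≠ 0) (h1 : j ≠ 1) :
    ∃ i, x j = tl x i ∧ ∀ y : Fin 5 → ℤ, y j = tl y i := by
  fin_cases j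
  · exact absurd rfl h0
  · exact absurd rfl h1
  · exact ⟨0, rfl, fun _ => rfl⟩
  · exact ⟨1, rfl, fun _ => rfl⟩
  · exact ⟨2, rfl, fun _ => rfl⟩

private theorem pts_qv (a : Idx 3 → ℤ) (u : Fin 3 → ℤ) {U : ℤ} (hU : ∀ i, |u i| ≤ U) :
    |qv a u| ≤ ca a * U ^ 2 := by
  unfold qv ca
  push_cast
  rw [Finset.sum_mul]
  refine (Finset.abs_sum_le_sum_abs _ _).trans (Finset.sum_le_sum fun p _ => ?_)
  rw [abs_mul, abs_mul, pow_two]
  refine mul_le_mul_of_nonneg_left ?_ (abs_nonneg _)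
  exact mul_le_mul (hU _) (hU _) (abs_nonneg _) ((abs_nonneg _).trans (hU p.1.1))

private theorem pts_pl (a : Idx 3 → ℤ) (u v : Fin 3 → ℤ) {U V : ℤ} (hU : ∀ i, |u i| ≤ U)
    (hV : ∀ i, |v i| ≤ V) : |pl a u v| ≤ 2 * ca a * U * V := by
  unfold pl ca
  push_cast
  rw [mul_assoc, mul_comm (2 : ℤ), mul_assoc, Finset.sum_mul]
  refine (Finset.abs_sum_le_sum_abs _ _).trans (Finset.sum_le_sum fun p _ => ?_)
  rw [abs_mul]
  refine mul_le_mul_of_nonneg_left ?_ (abs_nonneg _)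
  have hU0 : 0 ≤ U := (abs_nonneg _).trans (hU 0)
  refine (abs_add_le _ _).trans ?_
  rw [abs_mul, abs_mul]
  have h1 := mul_le_mul (hU p.1.1) (hV p.1.2) (abs_nonneg _) hU0
  have h2 := mul_le_mul (hU p.1.2) (hV p.1.1) (abs_nonneg _) hU0
  linarith

private theorem pts_zero (h : IsPt a q C1 B x) : x 0 * x 1 = qv a (tl x) := by
  have h1 := h.zero
  unfold ff at h1
  linarith

theorem pt_mem (hq : 1 ≤ q) (h : IsPt a q C1 B x) : x ∈ bx 5 (cx a q C1 * B) := by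
  rw [mem_bx]
  obtain ⟨h1, h2⟩ := pt_x1 hq h
  have hB : (0 : ℤ) ≤ B := Int.natCast_nonneg B
  have hca : (0 : ℤ) ≤ ca a := Int.natCast_nonneg _
  have hC : (0 : ℤ) ≤ C1 := Int.natCast_nonneg _
  have hq0 : (0 : ℤ) ≤ q := Int.natCast_nonneg _
  have hcx : ((cx a q C1 * B : ℕ) : ℤ) = (ca a * C1 ^ 2 + C1 + 4 * q + 1) * B := by
    unfold cx
    push_cast
    ring
  rw [hcx]
  intro i
  have hK : 0 ≤ (ca a : ℤ) * C1 ^ 2 := by positivity
  by_cases h0 : i = 0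
  · subst h0
    have h3 := pts_qv a (tl x) h.bound
    rw [← pts_zero h, abs_mul, abs_of_pos (by linarith : 0 < x 1)] at h3
    have h4 : |x 0| ≤ ca a * C1 ^ 2 * B := by
      by_contra hc
      push Not at hc
      have h5 : (ca a : ℤ) * C1 ^ 2 * B * x 1 < |x 0| * x 1 :=
        mul_lt_mul_of_pos_right hc (by linarith)
      have h6 : (ca a : ℤ) * C1 ^ 2 * B * B ≤ (ca a : ℤ) * C1 ^ 2 * B * x 1 :=
        mul_le_mul_of_nonneg_left h1.le (by positivity)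
      nlinarith
    refine h4.trans ?_
    have h7 : 0 ≤ ((C1 : ℤ) + 4 * q + 1) * B := by positivity
    nlinarith
  by_cases h1' : i = 1
  · subst h1'
    rw [abs_of_pos (by linarith : 0 < x 1)]
    have h7 : 0 ≤ ((ca a : ℤ) * C1 ^ 2 + C1 + 1) * B := by positivity
    nlinarith
  · obtain ⟨j, hj, _⟩ := pts_tl x i h0 h1'
    rw [hj]
    refine (h.bound j).trans ?_
    have h7 : 0 ≤ ((ca a : ℤ) * C1 ^ 2 + 4 * q + 1) * B := by positivity
    nlinarith

theorem mem_XP (hq : 1 ≤ q) : x ∈ XP a q C1 B ↔ IsPt a q C1 B x := by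
  classical
  unfold XP
  rw [Finset.mem_filter]
  exact ⟨fun h => h.2, fun h => ⟨pt_mem hq h, h⟩⟩

theorem pt_ne (hq : 1 ≤ q) (hx : IsPt a q C1 B x) (hy : IsPt a q C1 B y) (hxy : x ≠ y) :
    ∃ i j, mn x y i j ≠ 0 := by
  by_contra hc
  push Not at hc
  rcases eq_of_mn hx.prim hy.prim hc with h | h
  · exact hxy h.symm
  · have h1 := (pt_x1 hq hx).1
    have h2 := (pt_x1 hq hy).1
    have h3 := h 1
    have hB : (0 : ℤ) ≤ B := Int.natCast_nonneg B
    linarith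

private theorem pts_mn1 (x y : Fin 5 → ℤ) (i : Fin 3) :
    ∃ j : Fin 5, x 1 * tl y i - y 1 * tl x i = mn x y 1 j := by
  fin_cases i
  · exact ⟨2, by show x 1 * y 2 - y 1 * x 2 = x 1 * y 2 - x 2 * y 1; ring⟩
  · exact ⟨3, by show x 1 * y 3 - y 1 * x 3 = x 1 * y 3 - x 3 * y 1; ring⟩
  · exact ⟨4, by show x 1 * y 4 - y 1 * x 4 = x 1 * y 4 - x 4 * y 1; ring⟩

theorem zz_mul (x y : Fin 5 → ℤ) (i : Fin 3) :
    (gk x y : ℤ) * zz x y i = x 1 * tl y i - y 1 * tl x i := by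
  unfold zz
  apply Int.mul_ediv_cancel'
  obtain ⟨j, hj⟩ := pts_mn1 x y i
  rw [hj]
  exact gk_dvd x y 1 j

private theorem pts_id (x y : Fin 5 → ℤ) (i j : Fin 5) :
    x 1 * mn x y i j = x i * mn x y 1 j - x j * mn x y 1 i := by
  unfold mn
  ring

theorem zz_ne (hq : 1 ≤ q) (hx : IsPt a q C1 B x) (hy : IsPt a q C1 B y) (hxy : x ≠ y) :
    zz x y ≠ 0 := by
  intro hz
  obtain ⟨i, j, hij⟩ := pt_ne hq hx hy hxy
  apply hij
  have hB : (0 : ℤ) ≤ B := Int.natCast_nonneg B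
  have hx1 : 0 < x 1 := hB.trans_lt (pt_x1 hq hx).1
  have hy1 : 0 < y 1 := hB.trans_lt (pt_x1 hq hy).1
  have h1 : ∀ i, x 1 * tl y i = y 1 * tl x i := by
    intro i
    have h2 := zz_mul x y i
    rw [hz, Pi.zero_apply, mul_zero] at h2
    linarith
  have h2 : x 1 ^ 2 * qv a (tl y) = y 1 ^ 2 * qv a (tl x) := by
    rw [← qv_smul, ← qv_smul]
    congr 1
    funext i
    exact h1 i
  rw [← pts_zero hx, ← pts_zero hy] at h2
  have h3 : x 1 * y 0 = y 1 * x 0 := by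
    have h4 : x 1 * y 1 * (x 1 * y 0) = x 1 * y 1 * (y 1 * x 0) := by linear_combination h2
    exact mul_left_cancel₀ (mul_pos hx1 hy1).ne' h4
  have h4 : ∀ j, mn x y 1 j = 0 := by
    intro j
    by_cases h0 : j = 0
    · subst h0
      unfold mn
      linarith
    by_cases h1' : j = 1
    · subst h1'
      unfold mn
      ring
    · obtain ⟨l, hl, hl'⟩ := pts_tl x j h0 h1'
      unfold mn
      rw [hl, hl' y, h1 l]
      ring
  have h5 := pts_id x y i j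
  rw [h4, h4, mul_zero, mul_zero, sub_zero] at h5
  rcases mul_eq_zero.1 h5 with h6 | h6
  · exact absurd h6 hx1.ne'
  · exact h6

theorem zz_le (x y : Fin 5 → ℤ) : gk x y * nm (zz x y) ≤ dl x y := by
  obtain ⟨i, hi⟩ := nm_att (zz x y)
  obtain ⟨j, hj⟩ := pts_mn1 x y i
  have h1 : ((gk x y * nm (zz x y) : ℕ) : ℤ) = |mn x y 1 j| := by
    rw [← hj, ← zz_mul, abs_mul, hi, Nat.abs_cast]
    push_cast
    rfl
  have h2 := le_dl x y 1 j
  rw [← h1] at h2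
  exact_mod_cast h2

private theorem pts_Tb (hq : 1 ≤ q) (hx : IsPt a q C1 B x) (hy : IsPt a q C1 B y) :
    (gk x y : ℤ) * nm (zz x y) ≤ 8 * q * C1 * B ^ 2 := by
  obtain ⟨i, hi⟩ := nm_att (zz x y)
  have h1 : (gk x y : ℤ) * nm (zz x y) = |x 1 * tl y i - y 1 * tl x i| := by
    rw [← zz_mul, abs_mul, hi, Nat.abs_cast]
  rw [h1]
  have hB : (0 : ℤ) ≤ B := Int.natCast_nonneg B
  have hx1 := pt_x1 hq hx
  have hy1 := pt_x1 hq hy
  have hxi := hx.bound i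
  have hyi := hy.bound i
  refine (abs_sub _ _).trans ?_
  rw [abs_mul, abs_mul, abs_of_pos (hB.trans_lt hx1.1), abs_of_pos (hB.trans_lt hy1.1)]
  have e1 := mul_le_mul hx1.2 hyi (abs_nonneg _) (by positivity)
  have e2 := mul_le_mul hy1.2 hxi (abs_nonneg _) (by positivity)
  nlinarith

theorem dl_zz (a : Idx 3 → ℤ) (q C1 : ℕ) (hq : 1 ≤ q) (hC : 1 ≤ C1) : ∃ C : ℕ, 0 < C ∧
    ∀ (B : ℕ) (x y : Fin 5 → ℤ), IsPt a q C1 B x → IsPt a q C1 B y →
      dl x y ≤ C * (gk x y * nm (zz x y)) := by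
  refine ⟨2 * cx a q C1 * (16 * ca a * q * C1 + 1), ?_, ?_⟩
  · unfold cx
    positivity
  intro B x y hx hy
  have hB : (0 : ℤ) ≤ B := Int.natCast_nonneg B
  have hx1 := pt_x1 hq hx
  have hy1 := pt_x1 hq hy
  have hx0 : 0 < x 1 := hB.trans_lt hx1.1
  have hy0 : 0 < y 1 := hB.trans_lt hy1.1
  obtain ⟨T, hT⟩ : ∃ T : ℕ, T = gk x y * nm (zz x y) := ⟨_, rfl⟩
  rw [← hT]
  have hT0 : (0 : ℤ) ≤ T := Int.natCast_nonneg T
  have hTb : (T : ℤ) ≤ 8 * q * C1 * B ^ 2 := by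
    rw [hT]
    push_cast
    exact pts_Tb hq hx hy
  have hd : ∀ i, |x 1 * tl y i - y 1 * tl x i| ≤ T := by
    intro i
    rw [← zz_mul, abs_mul, Nat.abs_cast, hT]
    push_cast
    exact mul_le_mul_of_nonneg_left (le_nm _ i) (Int.natCast_nonneg _)
  have hca : (0 : ℤ) ≤ ca a := Int.natCast_nonneg _
  -- the minor 0 1
  have h01 : |mn x y 1 0| ≤ 16 * ca a * q * C1 * T := by
    have h1 : x 1 * y 1 * mn x y 1 0 = qv a (fun i => x 1 * tl y i) -
        qv a (fun i => y 1 * tl x i) := by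
      rw [qv_smul, qv_smul, ← pts_zero hx, ← pts_zero hy]
      unfold mn
      ring
    have h2 : (fun i => x 1 * tl y i) = fun i => (fun i => y 1 * tl x i) i +
        (fun i => x 1 * tl y i - y 1 * tl x i) i := by
      funext i
      ring
    rw [h2, qv_add] at h1
    have h3 := pts_qv a (fun i => x 1 * tl y i - y 1 * tl x i) hd
    have h4 : ∀ i, |y 1 * tl x i| ≤ 4 * q * B * (C1 * B) := by
      intro i
      rw [abs_mul, abs_of_pos hy0]
      exact mul_le_mul hy1.2 (hx.bound i) (abs_nonneg _) (by positivity)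
    have h5 := pts_pl a (fun i => y 1 * tl x i) (fun i => x 1 * tl y i - y 1 * tl x i) h4 hd
    have h6 : x 1 * y 1 * |mn x y 1 0| ≤ 16 * ca a * q * C1 * T * B ^ 2 := by
      have h7 : x 1 * y 1 * |mn x y 1 0| = |x 1 * y 1 * mn x y 1 0| := by
        rw [abs_mul, abs_of_pos (mul_pos hx0 hy0)]
      rw [h7, h1]
      have h8 : qv a (fun i => y 1 * tl x i) + qv a (fun i => x 1 * tl y i - y 1 * tl x i) +
          pl a (fun i => y 1 * tl x i) (fun i => x 1 * tl y i - y 1 * tl x i) -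
          qv a (fun i => y 1 * tl x i) = qv a (fun i => x 1 * tl y i - y 1 * tl x i) +
          pl a (fun i => y 1 * tl x i) (fun i => x 1 * tl y i - y 1 * tl x i) := by ring
      rw [h8]
      refine (abs_add_le _ _).trans ?_
      have h9 : (ca a : ℤ) * (T : ℤ) ^ 2 ≤ ca a * (T * (8 * q * C1 * B ^ 2)) := by
        rw [pow_two]
        exact mul_le_mul_of_nonneg_left (mul_le_mul_of_nonneg_left hTb hT0) hca
      calc _ ≤ (ca a : ℤ) * T ^ 2 + 2 * ca a * (4 * q * B * (C1 * B)) * T := add_le_add h3 h5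
        _ ≤ ca a * (T * (8 * q * C1 * B ^ 2)) + 2 * ca a * (4 * q * B * (C1 * B)) * T := by
          linarith
        _ = _ := by ring
    have h7 : (B : ℤ) ^ 2 ≤ x 1 * y 1 := by
      rw [pow_two]
      exact mul_le_mul hx1.1.le hy1.1.le hB hx0.le
    have h8 : 16 * (ca a : ℤ) * q * C1 * T * B ^ 2 ≤ 16 * (ca a : ℤ) * q * C1 * T *
        (x 1 * y 1) := mul_le_mul_of_nonneg_left h7 (by positivity)
    have h9 : x 1 * y 1 * |mn x y 1 0| ≤ x 1 * y 1 * (16 * ca a * q * C1 * T) := by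
      calc _ ≤ 16 * (ca a : ℤ) * q * C1 * T * B ^ 2 := h6
        _ ≤ _ := h8
        _ = _ := by ring
    exact le_of_mul_le_mul_left h9 (mul_pos hx0 hy0)
  have h1j : ∀ j, |mn x y 1 j| ≤ (16 * ca a * q * C1 + 1) * T := by
    intro j
    by_cases h0 : j = 0
    · subst h0
      refine h01.trans ?_
      nlinarith
    by_cases h1 : j = 1
    · subst h1
      have h2 : mn x y 1 1 = 0 := by
        unfold mn
        ring
      rw [h2, abs_zero]
      positivity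
    · obtain ⟨l, hl, hl'⟩ := pts_tl x j h0 h1
      have h2 : mn x y 1 j = x 1 * tl y l - y 1 * tl x l := by
        unfold mn
        rw [hl, hl' y]
        ring
      rw [h2]
      refine (hd l).trans ?_
      have h3 : 0 ≤ 16 * (ca a : ℤ) * q * C1 * T := by positivity
      nlinarith
  have hxb := mem_bx.1 (pt_mem hq hx)
  refine dl_le fun i j => ?_
  have h2 : x 1 * |mn x y i j| ≤ 2 * (cx a q C1 * B) * ((16 * ca a * q * C1 + 1) * T) := by
    have h3 : x 1 * |mn x y i j| = |x 1 * mn x y i j| := by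
      rw [abs_mul, abs_of_pos hx0]
    rw [h3, pts_id]
    refine (abs_sub _ _).trans ?_
    rw [abs_mul, abs_mul]
    have e1 := mul_le_mul (hxb i) (h1j j) (abs_nonneg _) (by positivity)
    have e2 := mul_le_mul (hxb j) (h1j i) (abs_nonneg _) (by positivity)
    push_cast at e1 e2
    linarith
  have h3 : 2 * ((cx a q C1 : ℤ) * B) * ((16 * ca a * q * C1 + 1) * T) ≤
      x 1 * (2 * cx a q C1 * (16 * ca a * q * C1 + 1) * T) := by
    have h4 : 0 ≤ 2 * (cx a q C1 : ℤ) * (16 * ca a * q * C1 + 1) * T := by positivity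
    have h5 := mul_le_mul_of_nonneg_right hx1.1.le h4
    calc _ = (B : ℤ) * (2 * (cx a q C1 : ℤ) * (16 * ca a * q * C1 + 1) * T) := by ring
      _ ≤ _ := h5
  have h4 := le_of_mul_le_mul_left (h2.trans h3) hx0
  push_cast
  exact h4

theorem dl_le' (hq : 1 ≤ q) (hx : IsPt a q C1 B x) (hy : IsPt a q C1 B y) :
    dl x y ≤ 2 * cx a q C1 ^ 2 * B ^ 2 := by
  refine dl_le fun i j => ?_
  have hxb := mem_bx.1 (pt_mem hq hx)
  have hyb := mem_bx.1 (pt_mem hq hy)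
  unfold mn
  refine (abs_sub _ _).trans ?_
  rw [abs_mul, abs_mul]
  have e1 := mul_le_mul (hxb i) (hyb j) (abs_nonneg _) (by positivity)
  have e2 := mul_le_mul (hxb j) (hyb i) (abs_nonneg _) (by positivity)
  push_cast at e1 e2 ⊢
  linarith

end Pool.Agent.H7.HP
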