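import Pool.Agent.H7.HP.Fin
import Pool.Agent.H7.HP.Pos

set_option autoImplicit false

/-!
# Draft of the hand-in
-/

namespace Pool.Agent.H7.HP

open Finset

open scoped Classical in
theorem result (a : Idx 3 → ℤ) (ha : (Hm a).det ≠ 0) (τ δ : ℝ) (hτ : 0 < τ) (hδ : 0 < δ) :
    (∃ A0 : ℕ, ∀ A ≥ A0, (((bf 5 A).filter fun g => LocSol a g ∧
      ¬ ∃ x : Fin 5 → ℤ, x ≠ 0 ∧ ff a x = 0 ∧ qv g x = 0 ∧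
        ∀ i, |(x i : ℝ)| ≤ (A : ℝ) ^ (1 + τ)).card : ℝ) ≤ δ * (2 * A + 1) ^ 15) ∧
    ∃ c : ℝ, 0 < c ∧ ∃ A0 : ℕ, ∀ A ≥ A0, c * (2 * A + 1) ^ 15 ≤ (((bf 5 A).filter fun g =>
      ∃ x : Fin 5 → ℤ, x ≠ 0 ∧ ff a x = 0 ∧ qv g x = 0 ∧
        ∀ i, |(x i : ℝ)| ≤ (A : ℝ) ^ (1 + τ)).card : ℝ) :=
  ⟨final a ha τ δ hτ hδ, pos ha τ hτ⟩

end Pool.Agent.H7.HP
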