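import Pool.Agent.H7.HP.Span
import Pool.Agent.H7.HP.Mnr

set_option autoImplicit false
set_option linter.unusedSectionVars false

/-!
# [H7 HP RND] integral forms near real forms, 60-110 lines

* `rnd1`, `rnd2`: `span1`, `span2` for the vectors of `Good`; `v p = ∑ round (c b b') * lm (l b) (l' b') p` (integral
  products), `qv_lm` gives `qv v x = 0`; `|c - round c| ≤ 1/2`, `|lm (l b) (l' b') p| ≤ 2 R^2`, 16 products
  (20 products of size at most `R` for `rnd1`).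
* `rnd2'`: if the real form `w` has the same values at `x` and `y` as an integral form `v0`, then there is an integral `v`
  with the same values near `w` (`rnd2` for `w - v0`). `rnd1'` similarly.
* `abf`: choose `i, j` with `|mn x y i j| = dl x y` and `m` with `X ≤ |x m|`;
  `a = (y_j e_i - y_i e_j) / mn x y i j`, `b = e_m / x_m`, `w = lm a b` (`qv_lm`): `qv w x = 1`, `qv w y = 0`.
-/

namespace Pool.Agent.H7.HP

open Finset

theorem Rnd_cast (v : Idx 5 → ℤ) (x : Fin 5 → ℤ) :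
    qv (fun p => (v p : ℝ)) (fun i => (x i : ℝ)) = ((qv v x : ℤ) : ℝ) :=
  (qv_map (Int.castRingHom ℝ) v x).symm

theorem Rnd_lm_cast (l m : Fin 5 → ℤ) (p : Idx 5) :
    ((lm l m p : ℤ) : ℝ) = lm (fun i => (l i : ℝ)) (fun i => (m i : ℝ)) p := by
  unfold lm
  split_ifs <;> push_cast <;> ring

theorem Rnd_single_cast (j : Fin 5) :
    (fun i => (((Pi.single j 1 : Fin 5 → ℤ) i : ℤ) : ℝ)) = Pi.single j 1 := by
  funext i
  rw [Pi.single_apply, Pi.single_apply]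
  split_ifs <;> simp

theorem Rnd_lm_bound (l m : Fin 5 → ℝ) {A B : ℝ} (hA : ∀ i, |l i| ≤ A) (hB : ∀ i, |m i| ≤ B)
    (p : Idx 5) : |lm l m p| ≤ 2 * (A * B) := by
  have hA0 : 0 ≤ A := (abs_nonneg _).trans (hA 0)
  have hB0 : 0 ≤ B := (abs_nonneg _).trans (hB 0)
  have h1 : ∀ i j, |l i * m j| ≤ A * B := fun i j => by
    rw [abs_mul]
    exact mul_le_mul (hA i) (hB j) (abs_nonneg _) hA0
  have hAB : 0 ≤ A * B := mul_nonneg hA0 hB0
  unfold lm
  split_ifs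
  · have := h1 p.1.1 p.1.1
    linarith
  · have h2 := h1 p.1.1 p.1.2
    have h3 := h1 p.1.2 p.1.1
    have h4 := abs_add_le (l p.1.1 * m p.1.2) (l p.1.2 * m p.1.1)
    linarith

theorem Rnd_qv_sum {ι : Type} [Fintype ι] (r : ι → ℤ) (L : ι → Idx 5 → ℤ) (x : Fin 5 → ℤ) :
    qv (fun p => ∑ k, r k * L k p) x = ∑ k, r k * qv (L k) x := by
  unfold qv
  simp only [sum_mul, mul_sum]
  rw [sum_comm]
  exact sum_congr rfl fun k _ => sum_congr rfl fun p _ => by ring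

theorem Rnd_gen {ι : Type} [Fintype ι] (L : ι → Idx 5 → ℤ) (c : ι → ℝ) (w : Idx 5 → ℝ) {B : ℝ}
    (hw : ∀ p, w p = ∑ k, c k * (L k p : ℝ)) (hB : ∀ k p, |(L k p : ℝ)| ≤ 2 * B) :
    ∃ r : ι → ℤ, ∀ p, |w p - ∑ k, (r k : ℝ) * (L k p : ℝ)| ≤ Fintype.card ι * B := by
  refine ⟨fun k => round (c k), fun p => ?_⟩
  rw [hw p, ← sum_sub_distrib]
  refine (abs_sum_le_sum_abs _ _).trans ?_
  have h1 : ∑ _k : ι, B = Fintype.card ι * B := by
    rw [sum_const, card_univ, nsmul_eq_mul]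
  rw [← h1]
  refine sum_le_sum fun k _ => ?_
  rw [← sub_mul, abs_mul]
  have h2 := abs_sub_round (c k)
  have h3 := hB k p
  have h4 := abs_nonneg (c k - (round (c k) : ℝ))
  have h5 := abs_nonneg (L k p : ℝ)
  calc |c k - (round (c k) : ℝ)| * |(L k p : ℝ)| ≤ 1 / 2 * (2 * B) :=
        mul_le_mul h2 h3 h5 (by norm_num)
    _ = B := by ring

theorem rnd1 {x : Fin 5 → ℤ} {R : ℝ} (hR : 0 ≤ R) (hx : Good R x) (h0 : x ≠ 0) (w : Idx 5 → ℝ)
    (hw : qv w (fun i => (x i : ℝ)) = 0) :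
    ∃ v : Idx 5 → ℤ, qv v x = 0 ∧ ∀ p, |w p - v p| ≤ 20 * R := by
  obtain ⟨l, hl, hlx, hlR⟩ := hx
  have hx0 : (fun i => (x i : ℝ)) ≠ 0 := by
    intro h
    apply h0
    funext i
    have h1 : (x i : ℝ) = 0 := congrFun h i
    exact Int.cast_eq_zero.1 h1
  have hlx' : ∀ b, ∑ i, ((l b i : ℤ) : ℝ) * (x i : ℝ) = 0 := by
    intro b
    have := hlx b
    exact_mod_cast this
  obtain ⟨c, hc⟩ := span1 hl hlx' hx0 w hw
  obtain ⟨r, hr⟩ := Rnd_gen (ι := Fin 4 × Fin 5) (fun k => lm (l k.1) (Pi.single k.2 1))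
    (fun k => c k.1 k.2) w (B := R) (fun p => by
      rw [hc p, Fintype.sum_prod_type]
      refine sum_congr rfl fun b _ => sum_congr rfl fun j _ => ?_
      rw [Rnd_lm_cast, Rnd_single_cast]) (fun k p => by
      rw [Rnd_lm_cast, Rnd_single_cast]
      have := Rnd_lm_bound (fun i => ((l k.1 i : ℤ) : ℝ)) (Pi.single k.2 1) (hlR k.1)
        (B := 1) (fun i => by
          rw [Pi.single_apply]
          split_ifs <;> simp) p
      rw [mul_one] at this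
      exact this)
  refine ⟨fun p => ∑ k : Fin 4 × Fin 5, r k * lm (l k.1) (Pi.single k.2 1) p, ?_, fun p => ?_⟩
  · rw [Rnd_qv_sum]
    refine sum_eq_zero fun k _ => ?_
    rw [qv_lm, hlx, zero_mul, mul_zero]
  · have := hr p
    simp only [Fintype.card_prod, Fintype.card_fin] at this
    norm_num at this
    push_cast
    exact this

theorem rnd1' {x : Fin 5 → ℤ} {R : ℝ} (hR : 0 ≤ R) (hx : Good R x) (h0 : x ≠ 0) (w : Idx 5 → ℝ)
    (v0 : Idx 5 → ℤ) (hw : qv w (fun i => (x i : ℝ)) = (qv v0 x : ℤ)) :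
    ∃ v : Idx 5 → ℤ, qv v x = qv v0 x ∧ ∀ p, |w p - v p| ≤ 20 * R := by
  obtain ⟨v, hv1, hv2⟩ := rnd1 hR hx h0 (fun p => w p + (-1) * (v0 p : ℝ)) (by
    rw [qv_addc w (fun p => (-1) * (v0 p : ℝ)), qv_smulc, Rnd_cast, hw]
    ring)
  refine ⟨fun p => v p + v0 p, ?_, fun p => ?_⟩
  · rw [qv_addc, hv1, zero_add]
  · have := hv2 p
    push_cast
    rw [show w p - ((v p : ℝ) + (v0 p : ℝ)) = w p + (-1) * (v0 p : ℝ) - (v p : ℝ) by ring]
    exact this

theorem rnd2 {x y : Fin 5 → ℤ} {R : ℝ} (hR : 0 ≤ R) (hx : Good R x) (hy : Good R y)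
    (hxy : ∃ i j, mn x y i j ≠ 0) (w : Idx 5 → ℝ) (hwx : qv w (fun i => (x i : ℝ)) = 0)
    (hwy : qv w (fun i => (y i : ℝ)) = 0) :
    ∃ v : Idx 5 → ℤ, qv v x = 0 ∧ qv v y = 0 ∧ ∀ p, |w p - v p| ≤ 16 * R ^ 2 := by
  obtain ⟨l, hl, hlx, hlR⟩ := hx
  obtain ⟨l', hl', hly, hlR'⟩ := hy
  have hlx' : ∀ b, ∑ i, ((l b i : ℤ) : ℝ) * (x i : ℝ) = 0 := by
    intro b
    have := hlx b
    exact_mod_cast this
  have hly' : ∀ b, ∑ i, ((l' b i : ℤ) : ℝ) * (y i : ℝ) = 0 := by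
    intro b
    have := hly b
    exact_mod_cast this
  obtain ⟨i, j, hij⟩ := hxy
  have hij' : (x i : ℝ) * (y j : ℝ) - (x j : ℝ) * (y i : ℝ) ≠ 0 := by
    intro h
    apply hij
    unfold mn
    exact_mod_cast h
  obtain ⟨c, hc⟩ := span2 hl hl' hlx' hly' ⟨i, j, hij'⟩ w hwx hwy
  obtain ⟨r, hr⟩ := Rnd_gen (ι := Fin 4 × Fin 4) (fun k => lm (l k.1) (l' k.2))
    (fun k => c k.1 k.2) w (B := R * R) (fun p => by
      rw [hc p, Fintype.sum_prod_type]
      refine sum_congr rfl fun b _ => sum_congr rfl fun j _ => ?_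
      rw [Rnd_lm_cast]) (fun k p => by
      rw [Rnd_lm_cast]
      exact Rnd_lm_bound _ _ (hlR k.1) (hlR' k.2) p)
  refine ⟨fun p => ∑ k : Fin 4 × Fin 4, r k * lm (l k.1) (l' k.2) p, ?_, ?_, fun p => ?_⟩
  · rw [Rnd_qv_sum]
    refine sum_eq_zero fun k _ => ?_
    rw [qv_lm, hlx, zero_mul, mul_zero]
  · rw [Rnd_qv_sum]
    refine sum_eq_zero fun k _ => ?_
    rw [qv_lm, hly, mul_zero, mul_zero]
  · have := hr p
    simp only [Fintype.card_prod, Fintype.card_fin] at this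
    norm_num at this
    push_cast
    rw [pow_two]
    exact this

theorem rnd2' {x y : Fin 5 → ℤ} {R : ℝ} (hR : 0 ≤ R) (hx : Good R x) (hy : Good R y)
    (hxy : ∃ i j, mn x y i j ≠ 0) (w : Idx 5 → ℝ) (v0 : Idx 5 → ℤ)
    (hwx : qv w (fun i => (x i : ℝ)) = (qv v0 x : ℤ))
    (hwy : qv w (fun i => (y i : ℝ)) = (qv v0 y : ℤ)) :
    ∃ v : Idx 5 → ℤ, qv v x = qv v0 x ∧ qv v y = qv v0 y ∧ ∀ p, |w p - v p| ≤ 16 * R ^ 2 := by
  obtain ⟨v, hv1, hv2, hv3⟩ := rnd2 hR hx hy hxy (fun p => w p + (-1) * (v0 p : ℝ)) (by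
    rw [qv_addc w (fun p => (-1) * (v0 p : ℝ)), qv_smulc, Rnd_cast, hwx]
    ring) (by
    rw [qv_addc w (fun p => (-1) * (v0 p : ℝ)), qv_smulc, Rnd_cast, hwy]
    ring)
  refine ⟨fun p => v p + v0 p, ?_, ?_, fun p => ?_⟩
  · rw [qv_addc, hv1, zero_add]
  · rw [qv_addc, hv2, zero_add]
  · have := hv3 p
    push_cast
    rw [show w p - ((v p : ℝ) + (v0 p : ℝ)) = w p + (-1) * (v0 p : ℝ) - (v p : ℝ) by ring]
    exact this

theorem abf {x y : Fin 5 → ℤ} {X K : ℝ} (hX : 0 < X) (hK : 0 ≤ K) (hxy : ∃ i j, mn x y i j ≠ 0)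
    (hx : ∃ i, X ≤ |(x i : ℝ)|) (hy : ∀ i, |(y i : ℝ)| ≤ K * X) :
    ∃ w : Idx 5 → ℝ, qv w (fun i => (x i : ℝ)) = 1 ∧ qv w (fun i => (y i : ℝ)) = 0 ∧
      ∀ p, |w p| ≤ 2 * K / dl x y := by
  obtain ⟨i, j, hij⟩ := dl_att hxy
  obtain ⟨m, hm⟩ := hx
  have hdl : (0 : ℝ) < dl x y := by
    have h1 := gk_le_dl hxy
    have h2 := gk_pos hxy
    exact_mod_cast h2.trans_le h1
  set D : ℝ := (x i : ℝ) * (y j : ℝ) - (x j : ℝ) * (y i : ℝ) with hD
  have hDabs : |D| = dl x y := by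
    have h1 : ((|mn x y i j| : ℤ) : ℝ) = (dl x y : ℝ) := by
      rw [hij]
      norm_cast
    rw [← h1, Int.cast_abs]
    unfold mn
    push_cast
    rfl
  have hD0 : D ≠ 0 := by
    intro h
    rw [h, abs_zero] at hDabs
    linarith
  have hxm : (0 : ℝ) < |(x m : ℝ)| := hX.trans_le hm
  have hxm0 : (x m : ℝ) ≠ 0 := abs_pos.1 hxm
  have hs : ∀ (i : Fin 5) (z : Fin 5 → ℝ), ∑ k, (Pi.single i 1 : Fin 5 → ℝ) k * z k = z i := by
    intro i z
    simp [Pi.single_apply]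
  have hcomb : ∀ (α β : ℝ) (z : Fin 5 → ℝ), ∑ k, (α * (Pi.single i 1 : Fin 5 → ℝ) k +
      β * (Pi.single j 1 : Fin 5 → ℝ) k) * z k = α * z i + β * z j := by
    intro α β z
    rw [← hs i z, ← hs j z, mul_sum, mul_sum, ← sum_add_distrib]
    exact sum_congr rfl fun k _ => by ring
  have hne : i ≠ j := by
    rintro rfl
    apply hD0
    rw [hD]
    ring
  set a : Fin 5 → ℝ := fun k => ((y j : ℝ) / D) * (Pi.single i 1 : Fin 5 → ℝ) k +
    (-((y i : ℝ) / D)) * (Pi.single j 1 : Fin 5 → ℝ) k with ha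
  set b : Fin 5 → ℝ := fun k => (x m : ℝ)⁻¹ * (Pi.single m 1 : Fin 5 → ℝ) k with hb
  have hax : ∑ k, a k * (x k : ℝ) = 1 := by
    rw [ha, hcomb _ _ (fun k => (x k : ℝ))]
    field_simp
    rw [hD]
    ring
  have hay : ∑ k, a k * (y k : ℝ) = 0 := by
    rw [ha, hcomb _ _ (fun k => (y k : ℝ))]
    ring
  have hbx : ∑ k, b k * (x k : ℝ) = 1 := by
    have h1 : ∑ k, b k * (x k : ℝ) = (x m : ℝ)⁻¹ * ∑ k, (Pi.single m 1 : Fin 5 → ℝ) k * (x k : ℝ) := by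
      rw [mul_sum]
      exact sum_congr rfl fun k _ => by
        rw [hb]
        ring
    rw [h1, hs m (fun k => (x k : ℝ)), inv_mul_cancel₀ hxm0]
  have hA : ∀ k, |a k| ≤ K * X / |D| := by
    intro k
    have hDp : 0 < |D| := abs_pos.2 hD0
    rw [ha]
    simp only [Pi.single_apply]
    by_cases h1 : k = i
    · have h2 : ¬ k = j := fun h => hne (h1.symm.trans h)
      rw [if_pos h1, if_neg h2, mul_one, mul_zero, add_zero, abs_div]
      exact div_le_div_of_nonneg_right (hy j) hDp.le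
    · by_cases h2 : k = j
      · rw [if_neg h1, if_pos h2, mul_one, mul_zero, zero_add, abs_neg, abs_div]
        exact div_le_div_of_nonneg_right (hy i) hDp.le
      · rw [if_neg h1, if_neg h2, mul_zero, mul_zero, add_zero, abs_zero]
        positivity
  have hB : ∀ k, |b k| ≤ X⁻¹ := by
    intro k
    rw [hb]
    simp only [Pi.single_apply]
    split_ifs
    · rw [mul_one, abs_inv]
      exact inv_anti₀ hX hm
    · rw [mul_zero, abs_zero]
      positivity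
  refine ⟨lm a b, ?_, ?_, fun p => ?_⟩
  · rw [qv_lm, hax, hbx, mul_one]
  · rw [qv_lm, hay, zero_mul]
  · refine (Rnd_lm_bound a b hA hB p).trans (le_of_eq ?_)
    rw [hDabs]
    field_simp

end Pool.Agent.H7.HP
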