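import Pool.Agent.H7.HP.PairDefs
import Pool.Agent.H7.HP.Idt
import Pool.Agent.H7.HP.Sumz
import Pool.Agent.H7.HP.Eqd

set_option autoImplicit false
set_option linter.unusedSectionVars false

/-!
# [H7 HP SAMA] pairs with the same prime: first two parts, 110-170 lines

* `card_l`: `x ↦ tl x` is injective on the points with prime `l` (`x1 = q l`, `x0 = h(u)/x1`), `l ∣ h(u)`; `eqd_crude` (for `B` larger than
  `2 |det|`, so that `l > B` does not divide `2 det`).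
* `same1`: the number of pairs with the same prime is at most `4B * (C B^2)^2`; `wt ≤ 1 / nm zz ≤ B^(-3/2)`.
-/

namespace Pool.Agent.H7.HP

open Finset

private theorem sam_qv {a : Idx 3 → ℤ} {q C1 B : ℕ} {x : Fin 5 → ℤ} (h : IsPt a q C1 B x) :
    x 0 * x 1 = qv a (tl x) := by
  have h1 := h.zero
  unfold ff at h1
  linarith

open scoped Classical in
private theorem sam_card {a : Idx 3 → ℤ} (q C1 B l : ℕ) (hq : 1 ≤ q) :
    ((XP a q C1 B).filter fun x => lp q x = l).card ≤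
      ((bx 3 (C1 * B)).filter fun u => (l : ℤ) ∣ qv a u).card := by
  refine Finset.card_le_card_of_injOn (fun x => tl x) ?_ ?_
  · intro x hx
    have hx' := Finset.mem_filter.1 hx
    have hp := (mem_XP hq).1 hx'.1
    obtain ⟨_, _, _, h4, _⟩ := pt_lp hq hp
    refine Finset.mem_coe.2 (Finset.mem_filter.2 ⟨?_, ?_⟩)
    · rw [mem_bx]
      intro i
      have := hp.bound i
      push_cast
      exact this
    · rw [← sam_qv hp, h4, hx'.2]
      exact ⟨x 0 * q, by ring⟩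
  · intro x hx y hy hxy
    have hx' := Finset.mem_filter.1 hx
    have hy' := Finset.mem_filter.1 hy
    have hpx := (mem_XP hq).1 hx'.1
    have hpy := (mem_XP hq).1 hy'.1
    have h1 : x 1 = y 1 := by
      rw [(pt_lp hq hpx).2.2.2.1, (pt_lp hq hpy).2.2.2.1, hx'.2, hy'.2]
    have hxy' : tl x = tl y := hxy
    have h0 : x 0 = y 0 := by
      have h2 : x 0 * x 1 = y 0 * x 1 := by
        rw [sam_qv hpx, hxy', ← sam_qv hpy, h1]
      have h3 : 0 < x 1 := (Int.natCast_nonneg B).trans_lt (pt_x1 hq hpx).1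
      exact mul_right_cancel₀ h3.ne' h2
    funext i
    fin_cases i
    · exact h0
    · exact h1
    · exact congrFun hxy' 0
    · exact congrFun hxy' 1
    · exact congrFun hxy' 2

open scoped Classical in
theorem card_l {a : Idx 3 → ℤ} (ha : (Hm a).det ≠ 0) (q C1 : ℕ) (hq : 1 ≤ q) (hC1 : 1 ≤ C1) :
    ∃ C : ℝ, 0 < C ∧ ∃ B0 : ℕ, ∀ B ≥ B0, ∀ l : ℕ,
      (((XP a q C1 B).filter fun x => lp q x = l).card : ℝ) ≤ C * (B : ℝ) ^ 2 := by
  refine ⟨32 * (2 * C1 + 1) ^ 3, by positivity, (Hm a).det.natAbs + 2, fun B hB l => ?_⟩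
  rcases Finset.eq_empty_or_nonempty ((XP a q C1 B).filter fun x => lp q x = l) with h0 | ⟨x, hx⟩
  · rw [h0, Finset.card_empty, Nat.cast_zero]
    positivity
  have hx' := Finset.mem_filter.1 hx
  have hp := (mem_XP hq).1 hx'.1
  obtain ⟨h1, h2, h3, _, _⟩ := pt_lp hq hp
  rw [hx'.2] at h1 h2 h3
  have h4 : ¬ (l : ℤ) ∣ (Hm a).det := by
    intro hd
    have h5 := Int.natAbs_dvd_natAbs.2 hd
    rw [Int.natAbs_natCast] at h5
    have h6 := Nat.le_of_dvd (Int.natAbs_pos.2 ha) h5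
    omega
  have h5 := (sam_card (a := a) q C1 B l hq).trans
    (eqd_crude a C1 B l h1 (by omega) h4 h2)
  have h6 : (2 * C1 + 1) ^ 3 * (2 * l ^ 2) ≤ 32 * (2 * C1 + 1) ^ 3 * B ^ 2 := by
    have h7 : l ^ 2 ≤ 16 * B ^ 2 := by nlinarith
    calc (2 * C1 + 1) ^ 3 * (2 * l ^ 2) ≤ (2 * C1 + 1) ^ 3 * (2 * (16 * B ^ 2)) := by gcongr
      _ = _ := by ring
  exact_mod_cast h5.trans h6

open scoped Classical in
private theorem sam_pairs {a : Idx 3 → ℤ} (q C1 B : ℕ) (hq : 1 ≤ q) (C : ℝ)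
    (hC : ∀ l : ℕ, (((XP a q C1 B).filter fun x => lp q x = l).card : ℝ) ≤ C * (B : ℝ) ^ 2)
    (S : Finset ((Fin 5 → ℤ) × (Fin 5 → ℤ)))
    (hS : ∀ p ∈ S, p ∈ PR a q C1 B ∧ lp q p.1 = lp q p.2) :
    (S.card : ℝ) ≤ 4 * B * (C * (B : ℝ) ^ 2) ^ 2 := by
  have h1 : S ⊆ (Icc 1 (4 * B)).biUnion fun l =>
      ((XP a q C1 B).filter fun x => lp q x = l) ×ˢ
        ((XP a q C1 B).filter fun x => lp q x = l) := by
    intro p hp
    obtain ⟨h2, h3⟩ := hS p hp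
    have h4 := Finset.mem_product.1 (Finset.mem_filter.1 h2).1
    have h5 := (mem_XP hq).1 h4.1
    obtain ⟨k1, _, k3, _, _⟩ := pt_lp hq h5
    refine Finset.mem_biUnion.2 ⟨lp q p.1, Finset.mem_Icc.2 ⟨k1.pos, k3⟩, ?_⟩
    exact Finset.mem_product.2 ⟨Finset.mem_filter.2 ⟨h4.1, rfl⟩,
      Finset.mem_filter.2 ⟨h4.2, h3.symm⟩⟩
  have h2 := (Finset.card_le_card h1).trans Finset.card_biUnion_le
  have h3 : (S.card : ℝ) ≤ ∑ l ∈ Icc 1 (4 * B),
      ((((XP a q C1 B).filter fun x => lp q x = l) ×ˢ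
        ((XP a q C1 B).filter fun x => lp q x = l)).card : ℝ) := by exact_mod_cast h2
  refine h3.trans ?_
  have h4 : ∀ l ∈ Icc 1 (4 * B), ((((XP a q C1 B).filter fun x => lp q x = l) ×ˢ
        ((XP a q C1 B).filter fun x => lp q x = l)).card : ℝ) ≤ (C * (B : ℝ) ^ 2) ^ 2 := by
    intro l _
    rw [Finset.card_product, Nat.cast_mul, pow_two (C * (B : ℝ) ^ 2)]
    exact mul_le_mul (hC l) (hC l) (Nat.cast_nonneg _) ((Nat.cast_nonneg _).trans (hC l))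
  refine (Finset.sum_le_sum h4).trans ?_
  rw [Finset.sum_const, nsmul_eq_mul, Nat.card_Icc, Nat.add_sub_cancel]
  push_cast
  exact le_rfl

theorem sam_wt {a : Idx 3 → ℤ} {q C1 B : ℕ} (hq : 1 ≤ q)
    {p : (Fin 5 → ℤ) × (Fin 5 → ℤ)} (hp : p ∈ PR a q C1 B) :
    wt p ≤ 1 / nm (zz p.1 p.2) ∧ 0 < nm (zz p.1 p.2) := by
  classical
  unfold PR at hp
  obtain ⟨h1, h2⟩ := Finset.mem_filter.1 hp
  obtain ⟨h3, h4⟩ := Finset.mem_product.1 h1
  have hx := (mem_XP hq).1 h3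
  have hy := (mem_XP hq).1 h4
  have h5 := gk_pos (pt_ne hq hx hy h2)
  have h6 := gk_le_dl (pt_ne hq hx hy h2)
  have h7 := nm_pos (zz_ne hq hx hy h2)
  have h8 := zz_le p.1 p.2
  refine ⟨?_, h7⟩
  unfold wt
  have h9 : (0 : ℝ) < dl p.1 p.2 := by exact_mod_cast h5.trans_le h6
  have h10 : (0 : ℝ) < nm (zz p.1 p.2) := by exact_mod_cast h7
  rw [div_le_div_iff₀ h9 h10, one_mul]
  exact_mod_cast h8

open scoped Classical in
theorem same1 {a : Idx 3 → ℤ} (ha : (Hm a).det ≠ 0) (q C1 : ℕ) (hq : 1 ≤ q) (hC1 : 1 ≤ C1) :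
    ∃ C : ℝ, 0 < C ∧ ∃ B0 : ℕ, ∀ B ≥ B0,
      ∑ p ∈ (PR a q C1 B).filter (fun p => lp q p.1 = lp q p.2 ∧
        (B : ℝ) ^ (3 / 2 : ℝ) ≤ nm (zz p.1 p.2)), wt p ≤ C * (B : ℝ) ^ (7 / 2 : ℝ) := by
  obtain ⟨C, hC, B0, h⟩ := card_l ha q C1 hq hC1
  refine ⟨4 * C ^ 2, by positivity, B0 + 1, fun B hB => ?_⟩
  have hB0 : (0 : ℝ) < B := by
    have : 0 < B := by omega
    exact_mod_cast this
  have h1 := sam_pairs q C1 B hq C (h B (by omega))
    ((PR a q C1 B).filter (fun p => lp q p.1 = lp q p.2 ∧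
        (B : ℝ) ^ (3 / 2 : ℝ) ≤ nm (zz p.1 p.2)))
    (fun p hp => ⟨(Finset.mem_filter.1 hp).1, (Finset.mem_filter.1 hp).2.1⟩)
  have h2 : ∀ p ∈ (PR a q C1 B).filter (fun p => lp q p.1 = lp q p.2 ∧
        (B : ℝ) ^ (3 / 2 : ℝ) ≤ nm (zz p.1 p.2)), wt p ≤ 1 / (B : ℝ) ^ (3 / 2 : ℝ) := by
    intro p hp
    obtain ⟨h3, h4⟩ := Finset.mem_filter.1 hp
    refine (sam_wt hq h3).1.trans ?_
    exact one_div_le_one_div_of_le (Real.rpow_pos_of_pos hB0 _) h4.2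
  refine (Finset.sum_le_sum h2).trans ?_
  rw [Finset.sum_const, nsmul_eq_mul, mul_one_div, div_le_iff₀ (Real.rpow_pos_of_pos hB0 _)]
  refine h1.trans (le_of_eq ?_)
  rw [mul_assoc (4 * C ^ 2), ← Real.rpow_add hB0]
  have h3 : ((7 / 2 : ℝ) + 3 / 2) = ((5 : ℕ) : ℝ) := by norm_num
  rw [h3, Real.rpow_natCast]
  ring

end Pool.Agent.H7.HP
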