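import Pool.Agent.H7.HP.Frm

set_option autoImplicit false
set_option linter.unusedSectionVars false

/-!
# [H7 HP SPAN] forms vanishing at one or two vectors are combinations of products, 80-140 lines

PROOF of `span2`. It suffices that every linear functional on `Idx 5 → ℝ` which kills all `lm (l b) (l' b')` kills `w`
(e.g. `Submodule.exists_le_ker_of_notMem`, or `Submodule.dualAnnihilator`/`dualCoannihilator`; then
`Submodule.mem_span_range_iff_exists_fun`). A functional is `w ↦ ∑ p, m p * w p`; let `M` be the symmetric matrix with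
`M i j = m (i, j)` for `i ≤ j`. Then `∑ p, m p * lm l l' p = ∑_i ∑_j M i j l_i l'_j` (split the double sum).
So `l_b^T M l'_c = 0` for all `b, c`. The `l_b` span the orthogonal complement of `x` (dimension 4: 4 independent
vectors), so `M l'_c` is orthogonal to `x^⊥`, i.e. a multiple of `x`; so `M t ∈ ℝ x` for all `t ∈ y^⊥`, and (`M` symmetric)
`M t ∈ ℝ y` for all `t ∈ x^⊥`. So `M t = 0` for `t ∈ x^⊥ ∩ y^⊥` (`x, y` independent). Choose `t0 ∈ y^⊥` with `t0.x = 1` and
`t1 ∈ x^⊥` with `t1.y = 1` (possible: `x, y` independent, Gram determinant). `M t0 = a x`, `M t1 = b y`.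
Every `t` is `(t.x) t0 + (t.y) t1 + t'` with `t' ∈ x^⊥ ∩ y^⊥`. So `M t = a (t.x) x + b (t.y) y`, i.e. `M i j = a x_i x_j + b y_i y_j`, and
`∑ p, m p * w p = a qv w x + b qv w y = 0`.
`span1`: the same with `l' = e_j`: `M l_b` is orthogonal to all `e_j`, so `M l_b = 0`, `M t = (t.x) M t0` with
`M t0 ∈ (x^⊥)^⊥ = ℝ x` (symmetric), `M = a x x^T`.
-/

namespace Pool.Agent.H7.HP

open Finset

private theorem Span_comm (u v : Fin 5 → ℝ) : lm u v = lm v u := by
  funext p
  unfold lm
  split_ifs <;> ring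

/-- the bilinear form of a functional -/
private noncomputable def Span_B (φ : (Idx 5 → ℝ) →ₗ[ℝ] ℝ) : (Fin 5 → ℝ) →ₗ[ℝ] (Fin 5 → ℝ) →ₗ[ℝ] ℝ :=
  LinearMap.mk₂ ℝ (fun u v => φ (lm u v))
    (fun u u' v => by
      rw [← map_add]
      congr 1
      funext p
      simp only [lm, Pi.add_apply]
      split_ifs <;> ring)
    (fun c u v => by
      rw [← map_smul]
      congr 1
      funext p
      simp only [lm, Pi.smul_apply, smul_eq_mul]
      split_ifs <;> ring)
    (fun u v v' => by
      rw [← map_add]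
      congr 1
      funext p
      simp only [lm, Pi.add_apply]
      split_ifs <;> ring)
    (fun c u v => by
      rw [← map_smul]
      congr 1
      funext p
      simp only [lm, Pi.smul_apply, smul_eq_mul]
      split_ifs <;> ring)

private theorem Span_B_apply (φ : (Idx 5 → ℝ) →ₗ[ℝ] ℝ) (u v : Fin 5 → ℝ) :
    Span_B φ u v = φ (lm u v) := rfl

private theorem Span_basis (v : Fin 5 → ℝ) :
    ∑ j, v j • (Pi.single j 1 : Fin 5 → ℝ) = v := by
  funext k
  rw [Finset.sum_apply]
  simp [Pi.single_apply]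

private theorem Span_e (p : Idx 5) : (lm (Pi.single p.1.1 1) (Pi.single p.1.2 1) : Idx 5 → ℝ) =
    Pi.single p 1 := by
  funext q
  obtain ⟨⟨i, j⟩, hij⟩ := p
  obtain ⟨⟨a, b⟩, hab⟩ := q
  change i ≤ j at hij
  change a ≤ b at hab
  rw [Pi.single_apply]
  unfold lm
  simp only [Pi.single_apply, Subtype.mk.injEq, Prod.mk.injEq]
  by_cases h1 : a = b
  · subst h1
    rw [if_pos rfl]
    by_cases h2 : a = i <;> by_cases h3 : a = j <;> simp [h2, h3]
  · rw [if_neg h1]
    by_cases h2 : a = i
    · by_cases h3 : b = j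
      · have h4 : ¬ b = i := fun h => h1 (h2.trans h.symm)
        simp [h2, h3, h4]
        intro h5
        exact absurd (h3.trans h5.symm) h4
      · have h4 : ¬ b = i := fun h => h1 (h2.trans h.symm)
        simp [h2, h3, h4]
    · by_cases h3 : b = i
      · by_cases h4 : a = j
        · exfalso
          apply h1
          have : b ≤ a := by
            rw [h3, h4]
            exact hij
          exact le_antisymm hab this
        · simp [h2, h4]
      · simp [h2, h3]

private theorem Span_value (φ : (Idx 5 → ℝ) →ₗ[ℝ] ℝ) (w : Idx 5 → ℝ) :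
    φ w = ∑ p, w p * φ (lm (Pi.single p.1.1 1) (Pi.single p.1.2 1)) := by
  have h1 : w = ∑ p, w p • (Pi.single p 1 : Idx 5 → ℝ) := by
    funext q
    rw [Finset.sum_apply]
    simp [Pi.single_apply]
  conv_lhs => rw [h1]
  rw [map_sum]
  refine sum_congr rfl fun p _ => ?_
  rw [map_smul, smul_eq_mul, Span_e]

private theorem Span_perp {x : Fin 5 → ℝ} {l : Fin 4 → Fin 5 → ℝ} (hl : LinearIndependent ℝ l)
    (hlx : ∀ b, ∑ i, l b i * x i = 0) (hx : x ≠ 0) (u : Fin 5 → ℝ) (hu : ∑ i, u i * x i = 0) :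
    u ∈ Submodule.span ℝ (Set.range l) := by
  let f : Module.Dual ℝ (Fin 5 → ℝ) := ∑ i, x i • LinearMap.proj i
  have hf : ∀ u, f u = ∑ i, u i * x i := by
    intro u
    change (∑ i, x i • (LinearMap.proj i : (Fin 5 → ℝ) →ₗ[ℝ] ℝ)) u = _
    rw [LinearMap.sum_apply]
    exact sum_congr rfl fun i _ => by
      rw [LinearMap.smul_apply, LinearMap.proj_apply, smul_eq_mul, mul_comm]
  have hf0 : f ≠ 0 := by
    intro h
    apply hx
    have h1 := hf x
    rw [h, LinearMap.zero_apply] at h1
    have h2 := (sum_eq_zero_iff_of_nonneg (fun i _ => mul_self_nonneg (x i))).1 h1.symm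
    funext i
    exact mul_self_eq_zero.1 (h2 i (mem_univ i))
  have hle : Submodule.span ℝ (Set.range l) ≤ LinearMap.ker f := by
    rw [Submodule.span_le]
    rintro _ ⟨b, rfl⟩
    change f (l b) = 0
    rw [hf, hlx]
  have hd1 : Module.finrank ℝ (Submodule.span ℝ (Set.range l)) = 4 := by
    rw [finrank_span_eq_card hl, Fintype.card_fin]
  have hd2 : Module.finrank ℝ (LinearMap.ker f) + 1 = 5 := by
    have := Module.Dual.finrank_ker_add_one_of_ne_zero hf0
    rw [this]
    simp
  have heq := Submodule.eq_of_le_of_finrank_eq hle (by omega)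
  rw [heq]
  change f u = 0
  rw [hf, hu]

theorem span1 {x : Fin 5 → ℝ} {l : Fin 4 → Fin 5 → ℝ} (hl : LinearIndependent ℝ l)
    (hlx : ∀ b, ∑ i, l b i * x i = 0) (hx : x ≠ 0) (w : Idx 5 → ℝ) (hw : qv w x = 0) :
    ∃ c : Fin 4 → Fin 5 → ℝ, ∀ p, w p = ∑ b, ∑ j, c b j * lm (l b) (Pi.single j 1) p := by
  have hmem : w ∈ Submodule.span ℝ (Set.range fun q : Fin 4 × Fin 5 =>
      (lm (l q.1) (Pi.single q.2 1) : Idx 5 → ℝ)) := by
    by_contra hw'
    obtain ⟨φ, hφ, hker⟩ := Submodule.exists_le_ker_of_notMem hw'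
    apply hφ
    have hB0 : ∀ b j, φ (lm (l b) (Pi.single j 1)) = 0 := fun b j =>
      hker (Submodule.subset_span ⟨(b, j), rfl⟩)
    -- the bilinear form
    have h1 : ∀ u v : Fin 5 → ℝ, ∑ i, u i * x i = 0 → φ (lm u v) = 0 := by
      intro u v hu
      have hu' := Span_perp hl hlx hx u hu
      have h2 : ∀ b, φ (lm (l b) v) = 0 := by
        intro b
        have h3 : Span_B φ (l b) v = ∑ j, v j * Span_B φ (l b) (Pi.single j 1) := by
          conv_lhs => rw [← Span_basis v]
          rw [map_sum]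
          exact sum_congr rfl fun j _ => by rw [map_smul, smul_eq_mul]
        change Span_B φ (l b) v = 0
        rw [h3]
        exact sum_eq_zero fun j _ => by rw [Span_B_apply, hB0, mul_zero]
      have h4 : Submodule.span ℝ (Set.range l) ≤ LinearMap.ker ((Span_B φ).flip v) := by
        rw [Submodule.span_le]
        rintro _ ⟨b, rfl⟩
        exact h2 b
      exact h4 hu'
    obtain ⟨i₀, hi₀⟩ : ∃ i, x i ≠ 0 := by
      by_contra h
      push Not at h
      exact hx (funext h)
    set t0 : Fin 5 → ℝ := fun k => (x i₀)⁻¹ * (Pi.single i₀ 1 : Fin 5 → ℝ) k with ht0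
    have ht0x : ∑ i, t0 i * x i = 1 := by
      have : ∑ i, t0 i * x i = (x i₀)⁻¹ * x i₀ := by
        rw [ht0]
        simp only [mul_assoc]
        rw [← mul_sum]
        simp [Pi.single_apply]
      rw [this, inv_mul_cancel₀ hi₀]
    have h5 : ∀ u v : Fin 5 → ℝ, φ (lm u v) =
        (∑ i, u i * x i) * (∑ i, v i * x i) * φ (lm t0 t0) := by
      have h6 : ∀ u v : Fin 5 → ℝ, φ (lm u v) = (∑ i, u i * x i) * φ (lm t0 v) := by
        intro u v
        have h7 := h1 (fun i => u i - (∑ i, u i * x i) * t0 i) v (by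
          have : ∑ i, (u i - (∑ i, u i * x i) * t0 i) * x i =
              ∑ i, u i * x i - (∑ i, u i * x i) * ∑ i, t0 i * x i := by
            rw [mul_sum, ← sum_sub_distrib]
            exact sum_congr rfl fun i _ => by ring
          rw [this, ht0x]
          ring)
        have h8 : Span_B φ (fun i => u i - (∑ i, u i * x i) * t0 i) v =
            Span_B φ u v - (∑ i, u i * x i) * Span_B φ t0 v := by
          have : (fun i => u i - (∑ i, u i * x i) * t0 i) = u - (∑ i, u i * x i) • t0 := by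
            funext i
            simp
          rw [this, map_sub, map_smul]
          rfl
        rw [Span_B_apply, Span_B_apply, Span_B_apply, h7] at h8
        linarith
      intro u v
      rw [h6 u v, Span_comm t0 v, h6 v t0]
      ring
    have h9 := Span_value φ w
    rw [h9]
    have h10 : ∀ i, ∑ k, (Pi.single i 1 : Fin 5 → ℝ) k * x k = x i := by
      intro i
      simp [Pi.single_apply]
    have h11 : ∑ p, w p * φ (lm (Pi.single p.1.1 1) (Pi.single p.1.2 1)) =
        qv w x * φ (lm t0 t0) := by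
      unfold qv
      rw [sum_mul]
      refine sum_congr rfl fun p _ => ?_
      rw [h5, h10, h10]
      ring
    rw [h11, hw, zero_mul]
  obtain ⟨c, hc⟩ := (Submodule.mem_span_range_iff_exists_fun ℝ).1 hmem
  refine ⟨fun b j => c (b, j), fun p => ?_⟩
  rw [← hc, Finset.sum_apply, Fintype.sum_prod_type]
  rfl

theorem span2 {x y : Fin 5 → ℝ} {l l' : Fin 4 → Fin 5 → ℝ} (hl : LinearIndependent ℝ l)
    (hl' : LinearIndependent ℝ l') (hlx : ∀ b, ∑ i, l b i * x i = 0)
    (hly : ∀ b, ∑ i, l' b i * y i = 0) (hxy : ∃ i j, x i * y j - x j * y i ≠ 0)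
    (w : Idx 5 → ℝ) (hwx : qv w x = 0) (hwy : qv w y = 0) :
    ∃ c : Fin 4 → Fin 4 → ℝ, ∀ p, w p = ∑ b, ∑ b', c b b' * lm (l b) (l' b') p := by
  obtain ⟨i₀, j₀, hm⟩ := hxy
  have hx : x ≠ 0 := by
    rintro rfl
    apply hm
    simp
  have hy : y ≠ 0 := by
    rintro rfl
    apply hm
    simp
  have hmem : w ∈ Submodule.span ℝ (Set.range fun q : Fin 4 × Fin 4 =>
      (lm (l q.1) (l' q.2) : Idx 5 → ℝ)) := by
    by_contra hw'
    obtain ⟨φ, hφ, hker⟩ := Submodule.exists_le_ker_of_notMem hw'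
    apply hφ
    have hB0 : ∀ b b', φ (lm (l b) (l' b')) = 0 := fun b b' =>
      hker (Submodule.subset_span ⟨(b, b'), rfl⟩)
    have h1 : ∀ u v : Fin 5 → ℝ, ∑ i, u i * x i = 0 → ∑ i, v i * y i = 0 → φ (lm u v) = 0 := by
      intro u v hu hv
      have hu' := Span_perp hl hlx hx u hu
      have hv' := Span_perp hl' hly hy v hv
      have h2 : ∀ b, φ (lm (l b) v) = 0 := by
        intro b
        have h3 : Submodule.span ℝ (Set.range l') ≤ LinearMap.ker (Span_B φ (l b)) := by
          rw [Submodule.span_le]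
          rintro _ ⟨b', rfl⟩
          exact hB0 b b'
        exact h3 hv'
      have h4 : Submodule.span ℝ (Set.range l) ≤ LinearMap.ker ((Span_B φ).flip v) := by
        rw [Submodule.span_le]
        rintro _ ⟨b, rfl⟩
        exact h2 b
      exact h4 hu'
    set D : ℝ := x i₀ * y j₀ - x j₀ * y i₀ with hD
    have hs : ∀ (i : Fin 5) (z : Fin 5 → ℝ), ∑ k, (Pi.single i 1 : Fin 5 → ℝ) k * z k = z i := by
      intro i z
      simp [Pi.single_apply]
    have hcomb : ∀ (α β : ℝ) (z : Fin 5 → ℝ), ∑ k, (α * (Pi.single i₀ 1 : Fin 5 → ℝ) k +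
        β * (Pi.single j₀ 1 : Fin 5 → ℝ) k) * z k = α * z i₀ + β * z j₀ := by
      intro α β z
      rw [← hs i₀ z, ← hs j₀ z, mul_sum, mul_sum, ← sum_add_distrib]
      exact sum_congr rfl fun k _ => by ring
    set t0 : Fin 5 → ℝ := fun k => (y j₀ / D) * (Pi.single i₀ 1 : Fin 5 → ℝ) k +
      (-(y i₀ / D)) * (Pi.single j₀ 1 : Fin 5 → ℝ) k with ht0
    set t1 : Fin 5 → ℝ := fun k => (-(x j₀ / D)) * (Pi.single i₀ 1 : Fin 5 → ℝ) k +
      (x i₀ / D) * (Pi.single j₀ 1 : Fin 5 → ℝ) k with ht1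
    have ht0x : ∑ i, t0 i * x i = 1 := by
      rw [ht0, hcomb]
      field_simp
      rw [hD]
      ring
    have ht0y : ∑ i, t0 i * y i = 0 := by
      rw [ht0, hcomb]
      ring
    have ht1x : ∑ i, t1 i * x i = 0 := by
      rw [ht1, hcomb]
      ring
    have ht1y : ∑ i, t1 i * y i = 1 := by
      rw [ht1, hcomb]
      field_simp
      rw [hD]
      ring
    -- decomposition of a vector
    have hdec : ∀ u v : Fin 5 → ℝ, φ (lm u v) = (∑ i, u i * x i) * φ (lm t0 v) +
        (∑ i, u i * y i) * φ (lm t1 v) +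
        φ (lm (u - ((∑ i, u i * x i) • t0 + (∑ i, u i * y i) • t1)) v) := by
      intro u v
      change Span_B φ u v = (∑ i, u i * x i) * Span_B φ t0 v + (∑ i, u i * y i) * Span_B φ t1 v +
        Span_B φ (u - ((∑ i, u i * x i) • t0 + (∑ i, u i * y i) • t1)) v
      rw [map_sub, map_add, map_smul, map_smul]
      change Span_B φ u v = (∑ i, u i * x i) * Span_B φ t0 v + (∑ i, u i * y i) * Span_B φ t1 v +
        (Span_B φ u v - ((∑ i, u i * x i) * Span_B φ t0 v + (∑ i, u i * y i) * Span_B φ t1 v))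
      ring
    have hrx : ∀ u : Fin 5 → ℝ, ∑ k, (u - ((∑ i, u i * x i) • t0 + (∑ i, u i * y i) • t1)) k * x k =
        0 := by
      intro u
      have : ∑ k, (u - ((∑ i, u i * x i) • t0 + (∑ i, u i * y i) • t1)) k * x k =
          ∑ k, u k * x k - ((∑ i, u i * x i) * ∑ k, t0 k * x k +
            (∑ i, u i * y i) * ∑ k, t1 k * x k) := by
        rw [mul_sum, mul_sum, ← sum_add_distrib, ← sum_sub_distrib]
        exact sum_congr rfl fun k _ => by
          simp only [Pi.sub_apply, Pi.add_apply, Pi.smul_apply, smul_eq_mul]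
          ring
      rw [this, ht0x, ht1x]
      ring
    have hry : ∀ u : Fin 5 → ℝ, ∑ k, (u - ((∑ i, u i * x i) • t0 + (∑ i, u i * y i) • t1)) k * y k =
        0 := by
      intro u
      have : ∑ k, (u - ((∑ i, u i * x i) • t0 + (∑ i, u i * y i) • t1)) k * y k =
          ∑ k, u k * y k - ((∑ i, u i * x i) * ∑ k, t0 k * y k +
            (∑ i, u i * y i) * ∑ k, t1 k * y k) := by
        rw [mul_sum, mul_sum, ← sum_add_distrib, ← sum_sub_distrib]
        exact sum_congr rfl fun k _ => by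
          simp only [Pi.sub_apply, Pi.add_apply, Pi.smul_apply, smul_eq_mul]
          ring
      rw [this, ht0y, ht1y]
      ring
    have h01 : φ (lm t0 t1) = 0 := by
      rw [Span_comm]
      exact h1 t1 t0 ht1x ht0y
    have h10 : φ (lm t1 t0) = 0 := h1 t1 t0 ht1x ht0y
    -- a remainder kills everything
    have hzero : ∀ r v : Fin 5 → ℝ, ∑ i, r i * x i = 0 → ∑ i, r i * y i = 0 → φ (lm r v) = 0 := by
      intro r v hr1 hr2
      have h3 := hdec v r
      have h4 : φ (lm t0 r) = 0 := by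
        rw [Span_comm]
        exact h1 r t0 hr1 ht0y
      have h5 : φ (lm t1 r) = 0 := h1 t1 r ht1x hr2
      have h6 : φ (lm (v - ((∑ i, v i * x i) • t0 + (∑ i, v i * y i) • t1)) r) = 0 :=
        h1 _ r (hrx v) hr2
      rw [Span_comm r v, h3, h4, h5, h6]
      ring
    have h5 : ∀ u v : Fin 5 → ℝ, φ (lm u v) =
        (∑ i, u i * x i) * (∑ i, v i * x i) * φ (lm t0 t0) +
        (∑ i, u i * y i) * (∑ i, v i * y i) * φ (lm t1 t1) := by
      intro u v
      have e1 : ∀ v, φ (lm t0 v) = (∑ i, v i * x i) * φ (lm t0 t0) := by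
        intro v
        rw [Span_comm, hdec v t0, hzero _ t0 (hrx v) (hry v), h10]
        ring
      have e2 : ∀ v, φ (lm t1 v) = (∑ i, v i * y i) * φ (lm t1 t1) := by
        intro v
        rw [Span_comm, hdec v t1, hzero _ t1 (hrx v) (hry v), h01]
        ring
      rw [hdec u v, hzero _ v (hrx u) (hry u), e1, e2]
      ring
    rw [Span_value φ w]
    have h11 : ∑ p, w p * φ (lm (Pi.single p.1.1 1) (Pi.single p.1.2 1)) =
        qv w x * φ (lm t0 t0) + qv w y * φ (lm t1 t1) := by
      unfold qv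
      rw [sum_mul, sum_mul, ← sum_add_distrib]
      refine sum_congr rfl fun p _ => ?_
      rw [h5, hs, hs, hs, hs]
      ring
    rw [h11, hwx, hwy]
    ring
  obtain ⟨c, hc⟩ := (Submodule.mem_span_range_iff_exists_fun ℝ).1 hmem
  refine ⟨fun b j => c (b, j), fun p => ?_⟩
  rw [← hc, Finset.sum_apply, Fintype.sum_prod_type]
  rfl

end Pool.Agent.H7.HP
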